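import Pool.Agent.Lib.MP_2a1ef3_lc.N3.Stm

/-!
# MP_2a1ef3_lc, dimension three: black cones beyond an edge (piece `bey_a`)
-/

set_option autoImplicit false

namespace Pool.Agent.MP2a1ef3.N3

open Filter

private theorem bey_a_cramer (a b c k : R3) (j : Fin 3) :
    dt a b c * k j = dt b c k * a j + dt c a k * b j + dt a b k * c j := by
  fin_cases j <;> (unfold dt; simp; ring)

private theorem bey_a_par {b k : R3} {D e : ℝ} (hD : D ≠ 0) (h : ∀ j, D * k j = e * b j) :
    Par b k := by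
  intro x
  have h1 : D * dt b k x = 0 := by
    unfold dt
    linear_combination (-(b 1) * x 2 + b 2 * x 1) * h 0 + (b 0 * x 2 - b 2 * x 0) * h 1 +
      (-(b 0) * x 1 + b 1 * x 0) * h 2
  exact (mul_eq_zero.1 h1).resolve_left hD

theorem p_bey_a : S_bey_a := by
  intro a b c ha hD hab C hG hC k hk
  obtain ⟨j, hj⟩ := ha
  have haj : rv a j = 0 := by unfold rv; rw [hj]; simp
  have hbj : 0 < rv b j := by
    have h1 : b j ≠ 0 := fun h => hab j ⟨hj, h⟩
    unfold rv
    exact_mod_cast Nat.pos_of_ne_zero h1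
  have hcr : ∀ k : V, dt (rv a) (rv b) (rv c) * rv k j =
      dt (rv c) (rv a) (rv k) * rv b j + dt (rv a) (rv b) (rv k) * rv c j := by
    intro k
    rw [bey_a_cramer (rv a) (rv b) (rv c) (rv k) j, haj]
    ring
  have hkj : ∀ k : V, 0 ≤ rv k j := fun k => Nat.cast_nonneg _
  have hcj : 0 < rv c j := by
    rcases (hkj c).lt_or_eq with h | h
    · exact h
    · exfalso
      obtain ⟨k', hk', hk'j⟩ := hG j
      have h1 := hcr k'
      rw [← h, mul_zero, add_zero] at h1
      have h2 : 0 < rv k' j := by unfold rv; exact_mod_cast hk'j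
      have h3 : 0 < dt (rv a) (rv b) (rv c) * rv k' j := mul_pos hD h2
      have h4 : dt (rv c) (rv a) (rv k') * rv b j ≤ 0 :=
        mul_nonpos_of_nonpos_of_nonneg (hC k' hk') hbj.le
      linarith
  have h1 := hcr k
  have h2 : 0 ≤ dt (rv a) (rv b) (rv c) * rv k j := mul_nonneg hD.le (hkj k)
  have h3 : dt (rv c) (rv a) (rv k) * rv b j ≤ 0 :=
    mul_nonpos_of_nonpos_of_nonneg (hC k hk) hbj.le
  refine ⟨?_, fun h0 => ?_⟩
  · have h4 : 0 ≤ dt (rv a) (rv b) (rv k) * rv c j := by linarith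
    exact nonneg_of_mul_nonneg_left h4 hcj
  · rw [h0, zero_mul, add_zero] at h1
    have h5 : dt (rv c) (rv a) (rv k) * rv b j = 0 := le_antisymm h3 (by linarith)
    have h6 : dt (rv c) (rv a) (rv k) = 0 := (mul_eq_zero.1 h5).resolve_right hbj.ne'
    refine bey_a_par (D := dt (rv a) (rv b) (rv c)) (e := dt (rv b) (rv c) (rv k)) hD.ne'
      fun t => ?_
    rw [bey_a_cramer, h6, h0]
    ring

end Pool.Agent.MP2a1ef3.N3
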