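import Pool.Agent.Lib.MP_2a1ef3_lc.N3.Stm

set_option autoImplicit false

namespace Pool.Agent.MP2a1ef3.N3

open Filter

private theorem beyond_edge_lin (u v x y : R3) (t : ℝ) :
    dt u v (x + t • y) = dt u v x + t * dt u v y := by
  unfold dt
  simp only [Pi.add_apply, Pi.smul_apply, smul_eq_mul]
  ring

private theorem beyond_edge_eps {u v : ℝ} (hu : 0 < u) :
    ∃ δ : ℝ, 0 < δ ∧ ∀ ε : ℝ, 0 < ε → ε ≤ δ → 0 < u + ε * v := by
  refine ⟨u / (|v| + 1), by positivity, ?_⟩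
  intro ε h1 h2
  have h3 : 0 < |v| + 1 := by positivity
  rw [le_div_iff₀ h3] at h2
  have h4 : -(ε * |v|) ≤ ε * v := by
    rw [← mul_neg]
    exact mul_le_mul_of_nonneg_left (neg_abs_le v) h1.le
  nlinarith

private theorem beyond_edge_edge (p1 q1 p2 q2 p3 q3 : R3) {C : Finset V} {k1 : V} (hk : k1 ∈ C)
    (hs : ∀ j, 0 < (∑ k ∈ C, rv k) j) (h1 : dt p1 q1 (∑ k ∈ C, rv k) ≤ 0)
    (hk1 : 0 < dt p1 q1 (rv k1))
    (hfl : ∀ x : R3, (∀ j, 0 < x j) → dt p1 q1 x ≤ 0 → 0 < dt p2 q2 x ∧ 0 < dt p3 q3 x) :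
    ∃ x ∈ ocone C, 0 < dt p1 q1 x ∧ 0 < dt p2 q2 x ∧ 0 < dt p3 q3 x := by
  obtain ⟨t0, ht0⟩ : ∃ t0, t0 = -(dt p1 q1 (∑ k ∈ C, rv k)) / dt p1 q1 (rv k1) := ⟨_, rfl⟩
  have ht0' : 0 ≤ t0 := by
    rw [ht0]
    exact div_nonneg (by linarith) hk1.le
  have hz : dt p1 q1 (∑ k ∈ C, rv k) + t0 * dt p1 q1 (rv k1) = 0 := by
    rw [ht0, div_mul_cancel₀ _ hk1.ne']
    ring
  have hx0 : ∀ j, 0 < ((∑ k ∈ C, rv k) + t0 • rv k1) j := by
    intro j
    have h2 := hs j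
    have h3 : 0 ≤ rv k1 j := Nat.cast_nonneg _
    have h4 := mul_nonneg ht0' h3
    rw [Pi.add_apply, Pi.smul_apply, smul_eq_mul]
    linarith
  obtain ⟨h2, h3⟩ := hfl _ hx0 (by rw [beyond_edge_lin, hz])
  rw [beyond_edge_lin] at h2 h3
  obtain ⟨δ, hδ, h4⟩ := beyond_edge_eps (v := dt p2 q2 (rv k1)) h2
  obtain ⟨δ', hδ', h5⟩ := beyond_edge_eps (v := dt p3 q3 (rv k1)) h3
  have hε : 0 < min δ δ' := lt_min hδ hδ'
  have h6 := h4 _ hε (min_le_left _ _)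
  have h7 := h5 _ hε (min_le_right _ _)
  refine ⟨(∑ k ∈ C, rv k) + (t0 + min δ δ') • rv k1, ?_, ?_, ?_, ?_⟩
  · refine ⟨fun k => if k = k1 then 1 + (t0 + min δ δ') else 1, ?_, ?_⟩
    · intro k _
      show 0 < (if k = k1 then 1 + (t0 + min δ δ') else (1 : ℝ))
      split_ifs
      · linarith
      · norm_num
    · have h8 : ∀ k ∈ C, (if k = k1 then 1 + (t0 + min δ δ') else (1 : ℝ)) • rv k =
          rv k + if k = k1 then (t0 + min δ δ') • rv k1 else 0 := by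
        intro k _
        split_ifs with h9
        · rw [h9, add_smul, one_smul]
        · rw [one_smul, add_zero]
      rw [Finset.sum_congr rfl h8, Finset.sum_add_distrib, Finset.sum_ite_eq' C k1, if_pos hk]
  · rw [beyond_edge_lin]
    have h8 := mul_pos hε hk1
    linarith
  · rw [beyond_edge_lin]
    linarith
  · rw [beyond_edge_lin]
    linarith

theorem p_beyond_edge (h1 : S_fl) (h2 : S_mem_ocone_tri) : S_beyond_edge := by
  intro a b c ha hb hc h C hG hd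
  by_contra hcon
  push Not at hcon
  obtain ⟨⟨k1, hk1, hf1⟩, ⟨k2, hk2, hf2⟩, k3, hk3, hf3⟩ := hcon
  have hfl := fun (x : R3) (hx : ∀ j, 0 < x j) => h1 ha hb hc h hx
  have hs : ∀ j, 0 < (∑ k ∈ C, rv k) j := by
    intro j
    obtain ⟨k, hk, hkj⟩ := hG j
    rw [Finset.sum_apply]
    refine lt_of_lt_of_le ?_ (Finset.single_le_sum (f := fun k => rv k j)
      (fun i _ => Nat.cast_nonneg _) hk)
    exact Nat.cast_pos.2 hkj
  have key : ∃ x ∈ ocone C, 0 < dt (rv a) (rv b) x ∧ 0 < dt (rv b) (rv c) x ∧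
      0 < dt (rv c) (rv a) x := by
    by_cases e1 : dt (rv a) (rv b) (∑ k ∈ C, rv k) ≤ 0
    · apply beyond_edge_edge _ _ _ _ _ _ hk1 hs e1 hf1
      intro x hx hle
      obtain ⟨g1, g2, g3⟩ := hfl x hx
      exact ⟨g1.resolve_left (not_lt.2 hle), g3.resolve_right (not_lt.2 hle)⟩
    · by_cases e2 : dt (rv b) (rv c) (∑ k ∈ C, rv k) ≤ 0
      · obtain ⟨x, hx, g1, g2, g3⟩ := beyond_edge_edge (rv b) (rv c) (rv c) (rv a) (rv a) (rv b)
          hk2 hs e2 hf2 (by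
            intro x hx hle
            obtain ⟨g1, g2, g3⟩ := hfl x hx
            exact ⟨g2.resolve_left (not_lt.2 hle), g1.resolve_right (not_lt.2 hle)⟩)
        exact ⟨x, hx, g3, g1, g2⟩
      · by_cases e3 : dt (rv c) (rv a) (∑ k ∈ C, rv k) ≤ 0
        · obtain ⟨x, hx, g1, g2, g3⟩ := beyond_edge_edge (rv c) (rv a) (rv a) (rv b) (rv b) (rv c)
            hk3 hs e3 hf3 (by
              intro x hx hle
              obtain ⟨g1, g2, g3⟩ := hfl x hx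
              exact ⟨g3.resolve_left (not_lt.2 hle), g2.resolve_right (not_lt.2 hle)⟩)
          exact ⟨x, hx, g2, g3, g1⟩
        · refine ⟨∑ k ∈ C, rv k, ⟨fun _ => 1, fun _ _ => one_pos, ?_⟩, not_le.1 e1, not_le.1 e2,
            not_le.1 e3⟩
          simp
  obtain ⟨x, hx, g1, g2, g3⟩ := key
  exact Set.disjoint_left.1 hd ((h2 h x).2 ⟨g1, g2, g3⟩) hx

end Pool.Agent.MP2a1ef3.N3
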