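import Pool.Agent.Lib.MP_2a1ef3_lc.N3.Stm

/-! Piece `bnd_primrec`: the bound for small witnesses is primitive recursive. -/

set_option autoImplicit false

namespace Pool.Agent.MP2a1ef3.N3

private theorem bnd_primrec_sum : Primrec (fun l : List ℕ => l.sum) := by
  have h : Primrec (fun l : List ℕ => l.foldr (fun b s => b + s) 0) :=
    Primrec.list_foldr (h := fun _ p => p.1 + p.2) Primrec.id (Primrec.const 0)
      (Primrec.nat_add.comp (Primrec.fst.comp Primrec.snd) (Primrec.snd.comp Primrec.snd)).to₂
  exact h.of_eq fun l => List.sum_eq_foldr.symm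

private theorem bnd_primrec_v : Primrec (fun v : V => ∑ j, v j) := by
  have h : ∀ j : Fin 3, Primrec (fun v : V => v j) := fun j =>
    Primrec.fin_app.comp Primrec.id (Primrec.const j)
  have h2 : Primrec (fun v : V => v 0 + v 1 + v 2) :=
    Primrec.nat_add.comp (Primrec.nat_add.comp (h 0) (h 1)) (h 2)
  exact h2.of_eq fun v => (Fin.sum_univ_three v).symm

private theorem bnd_primrec_wt : Primrec (fun S : List (V × List V) => wt S) := by
  have h1 : Primrec (fun l : List V => (l.map fun r => ∑ j, r j).sum) :=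
    bnd_primrec_sum.comp (Primrec.list_map Primrec.id (bnd_primrec_v.comp Primrec.snd).to₂)
  have h2 : Primrec (fun p : V × List V =>
      (∑ j, p.1 j) + (p.2.map (fun r => ∑ j, r j)).sum) :=
    Primrec.nat_add.comp (bnd_primrec_v.comp Primrec.fst) (h1.comp Primrec.snd)
  exact bnd_primrec_sum.comp (Primrec.list_map Primrec.id (h2.comp Primrec.snd).to₂)

theorem p_bnd_primrec : S_bnd_primrec := by
  have hpow : Primrec₂ ((· ^ ·) : ℕ → ℕ → ℕ) := Primrec₂.unpaired'.1 Nat.Primrec.pow
  have h1 : Primrec (fun S : List (V × List V) => S.length * (wt S + 1) ^ 3) :=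
    Primrec.nat_mul.comp Primrec.list_length
      (hpow.comp (Primrec.succ.comp bnd_primrec_wt) (Primrec.const 3))
  exact hpow.comp (Primrec.const 2) (hpow.comp (Primrec.const 2) h1)

end Pool.Agent.MP2a1ef3.N3
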