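import Pool.Agent.Lib.MP_2a1ef3_lc.N3.Stm

set_option autoImplicit false

namespace Pool.Agent.MP2a1ef3.N3

open Filter

private theorem cert_complete_iv (y : V) : iv (zv y) = rv y := by
  funext j; simp [iv, zv, rv]

private theorem cert_complete_sum (D : Finset V) : rv (∑ k ∈ D, k) ∈ ocone D := by
  refine ⟨fun _ => 1, fun _ _ => one_pos, ?_⟩
  funext j
  simp [rv, Finset.sum_apply]

private theorem cert_complete_coord {D : Finset V} {y : V} (hy : rv y ∈ ocone D) (j : Fin 3) :
    0 < y j ↔ ∃ k ∈ D, 0 < k j := by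
  obtain ⟨l, hl, hs⟩ := hy
  have h := congrFun hs j
  simp only [rv, Finset.sum_apply, Pi.smul_apply, smul_eq_mul] at h
  constructor
  · intro hj
    by_contra hcon
    push Not at hcon
    have : (∑ c ∈ D, l c * (c j : ℝ)) = 0 := by
      refine Finset.sum_eq_zero fun c hc => ?_
      have := hcon c hc
      have h0 : c j = 0 := by omega
      simp [h0]
    rw [this] at h
    have : (0 : ℝ) < (y j : ℝ) := by exact_mod_cast hj
    linarith
  · rintro ⟨k, hk, hkj⟩
    have : (0 : ℝ) < (∑ c ∈ D, l c * (c j : ℝ)) := by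
      refine Finset.sum_pos' (fun c hc => mul_nonneg (hl c hc).le (Nat.cast_nonneg _)) ?_
      exact ⟨k, hk, mul_pos (hl k hk) (by exact_mod_cast hkj)⟩
    rw [← h] at this
    exact_mod_cast this

theorem p_cert_complete (h1 : S_tame_us) (h2 : S_exists_ultra) (h3 : S_exists_center)
    (h5 : S_sh_spec) (h6 : S_white_ultra) (h7 : S_dec_cones) (h8 : S_sign_ocone)
    (h9 : S_white_congr) (h10 : S_cl) (h11 : S_geo) (h12 : S_cert_of_germ) :
    S_cert_complete := by
  classical
  intro S hS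
  obtain ⟨H, B, m, hm, hB, hc, hT⟩ := h1 S
  obtain ⟨U, hUX, hU⟩ := h2 hS
  obtain ⟨x₀, h0, hx⟩ := h3 U hm
  obtain ⟨DD, hDI, hDs, hDc⟩ := h7 H
  have hsh := h5 h0
  have hwh := h6 hm hB hT hc h0 hx hUX
  have hsame : ∀ D ∈ DD, ∀ y y' : V, rv y ∈ ocone D → rv y' ∈ ocone D →
      White (US S) x₀ m y → White (US S) x₀ m y' := fun D hD y y' hy hy' hw =>
    h9 hm hT hc (fun h hh => h8 (hDs D hD h hh) hy hy') hw
  have key : ∀ P : Finset V, (∀ p ∈ P, Bd p) → Ind P →
      (∀ᶠ x in (U : Filter V), rv (sh x₀ x) ∈ ocone P) →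
      (∀ y, rv y ∈ ocone P → White (US S) x₀ m y) → False := by
    intro P hBd hI hP hW
    obtain ⟨c, N, hN, hsub, hmem⟩ := h10 hm hB hT h0 hx hI (by
      filter_upwards [hP, hsh] with x h1 h2
      rw [← h2, cert_complete_iv]
      exact h1) hW
    have h13 := hU c (P.image (fun p => N • p)) (by
      intro p hp
      obtain ⟨p', hp', rfl⟩ := Finset.mem_image.1 hp
      obtain ⟨j, hj⟩ := hBd p' hp'
      exact ⟨j, by simp [hj]⟩) hsub
    obtain ⟨x, hx1, hx2⟩ := (hmem.and h13).exists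
    exact hx2 hx1
  by_cases hface : ∃ j, ∀ᶠ x in (U : Filter V), sh x₀ x j = 0
  · exfalso
    obtain ⟨j, hj⟩ := hface
    have hex : ∀ᶠ x in (U : Filter V), ∃ D ∈ DD, rv (sh x₀ x) ∈ ocone D :=
      Eventually.of_forall fun x => hDc _
    obtain ⟨D, hD, hDU⟩ := (Ultrafilter.eventually_exists_mem_iff (is := (DD : Set (Finset V)))
      DD.finite_toSet).1 hex
    obtain ⟨x, hx1, hx2, hx3⟩ := (hDU.and (hwh.and hj)).exists
    refine key D ?_ (hDI D hD) hDU ?_
    · intro k hk
      refine ⟨j, ?_⟩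
      by_contra hkj
      have : 0 < sh x₀ x j := (cert_complete_coord hx1 j).2 ⟨k, hk, by omega⟩
      omega
    · intro y hy
      exact hsame D hD _ _ hx1 hy hx2
  · push Not at hface
    have hpos : ∀ᶠ x in (U : Filter V), Pos (sh x₀ x) := by
      have : ∀ j, ∀ᶠ x in (U : Filter V), 0 < sh x₀ x j := by
        intro j
        have := hface j
        filter_upwards [this] with x hx
        omega
      simpa [Pos] using (Filter.eventually_all.2 this)
    set CC : Finset (Finset V) := DD.filter (fun D => (∀ j, ∃ k ∈ D, 0 < k j) ∧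
      ¬ White (US S) x₀ m (∑ k ∈ D, k)) with hCC
    have hmemCC : ∀ D, D ∈ CC ↔ D ∈ DD ∧ (∀ j, ∃ k ∈ D, 0 < k j) ∧
        ¬ White (US S) x₀ m (∑ k ∈ D, k) := by
      intro D; rw [hCC, Finset.mem_filter]
    have hav : ∀ C ∈ CC, ∀ᶠ x in (U : Filter V), rv (sh x₀ x) ∉ ocone C := by
      intro C hC
      obtain ⟨hC1, hC2, hC3⟩ := (hmemCC C).1 hC
      filter_upwards [hwh] with x hx hxC
      exact hC3 (hsame C hC1 _ _ hxC (cert_complete_sum C) hx)
    have hgeo := h11 (CC := CC) (fun C hC => hDI C ((hmemCC C).1 hC).1)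
      (fun C hC => ((hmemCC C).1 hC).2.1) (F := U.map (sh x₀)) (by
        rw [Ultrafilter.coe_map, Filter.eventually_map]; exact hpos) (by
        intro C hC
        rw [Ultrafilter.coe_map, Filter.eventually_map]; exact hav C hC)
    rcases hgeo with ⟨P, hP, hPF⟩ | ⟨q, v, w, hq, hq2, hq3⟩
    · exfalso
      rw [Ultrafilter.coe_map, Filter.eventually_map] at hPF
      obtain ⟨x, hx1, hx2⟩ := (hPF.and hpos).exists
      refine key P hP.1 hP.2.1 hPF fun y hy => ?_
      obtain ⟨D, hD, hyD⟩ := hDc y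
      have hypos : ∀ j, 0 < y j := fun j =>
        (cert_complete_coord hy j).2 ((cert_complete_coord hx1 j).1 (hx2 j))
      have hDpos : ∀ j, ∃ k ∈ D, 0 < k j := fun j => (cert_complete_coord hyD j).1 (hypos j)
      have hDC : D ∉ CC := by
        intro hDC
        exact Set.disjoint_left.1 (hP.2.2 D hDC) hy hyD
      have hDw : White (US S) x₀ m (∑ k ∈ D, k) := by
        by_contra hcon
        exact hDC ((hmemCC D).2 ⟨hD, hDpos, hcon⟩)
      exact hsame D hD _ _ (cert_complete_sum D) hyD hDw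
    · exact h12 hm hT hc hDs hDc hmemCC hq hq2 hq3

end Pool.Agent.MP2a1ef3.N3
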