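import Pool.Agent.Lib.MP_2a1ef3_lc.N3.Stm

set_option autoImplicit false

namespace Pool.Agent.MP2a1ef3.N3

open Filter

private theorem cs_list_sum (L : List V) : L.sum = ∑ i, L.get i := by
  conv_lhs => rw [← List.ofFn_get L]
  rw [List.sum_ofFn]

private theorem cs_mem {L : List V} {N : ℕ} {b u u' : V}
    (hb : ∀ j, b j + u' j = u j + N * L.sum j) (c : Fin L.length → ℕ) (hc : ∀ i, 1 ≤ c i) :
    ∃ x ∈ US [(b, sc N L)], zv x = (zv u - zv u') + (N : ℤ) • zv (∑ i, c i • L.get i) := by
  have hlen : (sc N L).length = L.length := by simp [sc]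
  choose d hd using fun i => Nat.exists_eq_add_of_le' (hc i)
  refine ⟨b + ∑ i, d (Fin.cast hlen i) • (sc N L).get i,
    ⟨(b, sc N L), List.mem_singleton.2 rfl, fun i => d (Fin.cast hlen i), rfl⟩, ?_⟩
  have h1 : (∑ i, d (Fin.cast hlen i) • (sc N L).get i) =
      ∑ i : Fin L.length, d i • (fun j => N * L.get i j : V) := by
    rw [← (finCongr hlen).sum_comp]
    refine Finset.sum_congr rfl fun i _ => ?_
    have e1 : (sc N L).get i = (fun j => N * L.get ((finCongr hlen) i) j : V) := by
      simp only [sc, List.get_eq_getElem, List.getElem_map]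
      rfl
    rw [e1]
    rfl
  rw [h1]
  funext j
  have h3 := hb j
  rw [cs_list_sum] at h3
  simp only [Finset.sum_apply] at h3
  simp only [zv, Pi.add_apply, Pi.sub_apply, Pi.smul_apply, Finset.sum_apply, smul_eq_mul]
  push_cast
  have h5 : (b j : ℤ) = u j - u' j + N * ∑ i : Fin L.length, ((L.get i) j : ℤ) := by
    have : ((b j + u' j : ℕ) : ℤ) = ((u j + N * ∑ i : Fin L.length, (L.get i) j : ℕ) : ℤ) := by
      exact_mod_cast h3
    push_cast at this
    linarith
  rw [h5]
  simp only [hd]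
  push_cast
  simp only [add_mul, one_mul, Finset.sum_add_distrib, mul_add]
  rw [Finset.mul_sum, Finset.mul_sum]
  have h6 : ∀ i : Fin L.length, ((d i : ℤ)) * (N * ((L.get i) j : ℤ)) =
      N * ((d i : ℤ) * ((L.get i) j : ℤ)) := fun i => by ring
  simp only [h6]
  ring

private theorem cs_pos {L : List V} {j : Fin 3} (h : 0 < L.sum j) : ∃ k ∈ L, 0 < k j := by
  induction L with
  | nil => simp at h
  | cons a L ih =>
    rw [List.sum_cons, Pi.add_apply] at h
    rcases Nat.eq_zero_or_pos (a j) with h0 | h0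
    · obtain ⟨k, hk, hkj⟩ := ih (by omega)
      exact ⟨k, List.mem_cons_of_mem _ hk, hkj⟩
    · exact ⟨a, List.mem_cons_self, h0⟩

theorem p_cert_sound (h1 : S_strat_lin) (h2 : S_lin_ind) (h3 : S_extract)
    (h4 : S_ocone_meet) (h5 : S_rcov_of_cov) : S_cert_sound := by
  classical
  rintro S hS ⟨⟨⟨u, u'⟩, ⟨q, v, w⟩, ⟨N, M⟩, bw, BL⟩, hN, hpos, hbw, hwh, hbl, hR⟩
  simp only at hN hpos hbw hwh hbl hR
  obtain ⟨T, hT, hX⟩ := h1.1 hS
  choose f hf1 hf2 using h2
  have hX' : US S = ⋃ t ∈ T.biUnion (fun p => f p.1 p.2), Lin t.1 t.2 := by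
    rw [hX]
    ext x
    simp only [Set.mem_iUnion, Finset.mem_biUnion, exists_prop]
    constructor
    · rintro ⟨p, hp, hx⟩
      rw [hf2, Set.mem_iUnion₂] at hx
      obtain ⟨t, ht, hx⟩ := hx
      exact ⟨t, ⟨p, hp, ht⟩, hx⟩
    · rintro ⟨t, ⟨p, hp, ht⟩, hx⟩
      refine ⟨p, hp, ?_⟩
      rw [hf2, Set.mem_iUnion₂]
      exact ⟨t, ht, hx⟩
  have hT' : ∀ t ∈ T.biUnion (fun p => f p.1 p.2), (∀ p ∈ t.2, Bd p) ∧ Ind t.2 := by
    intro t ht
    obtain ⟨p, hp, ht⟩ := Finset.mem_biUnion.1 ht
    have := hf1 _ _ t ht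
    exact ⟨fun r hr => hT p hp r (this.1 hr), this.2⟩
  obtain ⟨P, hPB, hPI, hPg, hPw⟩ := h3 hT' hX' (x₀ := zv u - zv u') hN (q := q) (v := v) (w := w)
    (K₀ := M + 1) (by
      intro K hK t ht
      obtain ⟨d, rfl⟩ := Nat.exists_eq_add_of_le (show M ≤ K by omega)
      have hd : 1 ≤ d := by omega
      let c : Fin 3 → ℕ := ![t * ((M + d) * d), t * d, t]
      have hc : ∀ i, 1 ≤ c i := by
        intro i
        fin_cases i
        · show 0 < t * ((M + d) * d)
          positivity
        · show 0 < t * d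
          positivity
        · exact ht
      obtain ⟨x, hx, hx2⟩ := cs_mem (L := gcone M q v w) (u := u) (u' := u') hbw c hc
      refine ⟨x, hwh hx, ?_⟩
      rw [hx2]
      congr 1
      have e : (∑ i : Fin (gcone M q v w).length, c i • (gcone M q v w).get i) =
          (fun j => t * germ q v w (M + d) j : V) := by
        refine (Fin.sum_univ_three (fun i : Fin 3 => c i • (gcone M q v w).get i)).trans ?_
        funext j
        simp only [c, gcone, germ, Pi.add_apply, Pi.smul_apply, smul_eq_mul]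
        show t * ((M + d) * d) * q j + t * d * (M * q j + v j) +
          t * (M ^ 2 * q j + M * v j + w j) = _
        ring
      rw [e]
      funext j
      simp only [zv, Pi.smul_apply, smul_eq_mul]
      push_cast
      ring)
  apply hR
  refine h5 ?_ hpos ⟨P, ⟨hPB, hPI, ?_⟩, hPg⟩
  · intro C hC j
    unfold fin at hC
    rw [List.mem_toFinset, List.mem_map] at hC
    obtain ⟨L, hL, rfl⟩ := hC
    obtain ⟨b, hb, rfl⟩ := List.mem_map.1 hL
    obtain ⟨k, hk, hkj⟩ := cs_pos ((hbl b hb).2.1 j)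
    exact ⟨k, List.mem_toFinset.2 hk, hkj⟩
  · intro C hC
    unfold fin at hC
    rw [List.mem_toFinset, List.mem_map] at hC
    obtain ⟨L, hL, rfl⟩ := hC
    obtain ⟨b, hb, rfl⟩ := List.mem_map.1 hL
    by_contra hcon
    obtain ⟨m, n, hm, hn, hmn⟩ := h4 hcon
    obtain ⟨hb1, hb2, hb3⟩ := hbl b hb
    obtain ⟨t₀, ht₀⟩ := Filter.eventually_atTop.1 (hPw m hm)
    set s := t₀ + 1 with hs
    set F := b.2.length.factorial with hF
    have hFpos : 0 < F := Nat.factorial_pos _
    -- coefficients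
    let g : V → ℕ := fun k => s * n k * (F / b.2.count k)
    have hcount : ∀ k ∈ b.2, 0 < b.2.count k ∧ b.2.count k ∣ F := by
      intro k hk
      have h1 : 0 < b.2.count k := List.count_pos_iff.2 hk
      refine ⟨h1, ?_⟩
      rw [hF]
      exact Nat.dvd_factorial h1 List.count_le_length
    have hg : ∀ i : Fin b.2.length, 1 ≤ g (b.2.get i) := by
      intro i
      have hmem : b.2.get i ∈ b.2 := List.get_mem _ _
      obtain ⟨hc1, hc2⟩ := hcount _ hmem
      have h6 : 0 < F / b.2.count (b.2.get i) := Nat.div_pos (Nat.le_of_dvd hFpos hc2) hc1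
      have h7 : 0 < n (b.2.get i) := hn _ (List.mem_toFinset.2 hmem)
      show 0 < s * n (b.2.get i) * (F / b.2.count (b.2.get i))
      have : 0 < s := by omega
      positivity
    obtain ⟨x, hx, hx2⟩ := cs_mem (u := u) (u' := u') hb1 (fun i => g (b.2.get i)) hg
    have hsum : (∑ i : Fin b.2.length, g (b.2.get i) • b.2.get i) =
        (s * F) • ∑ k ∈ b.2.toFinset, n k • k := by
      have e1 : (∑ i : Fin b.2.length, g (b.2.get i) • b.2.get i) =
          (b.2.map (fun k => g k • k)).sum := by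
        conv_rhs => rw [← List.ofFn_get b.2]
        rw [List.map_ofFn, List.sum_ofFn]
        rfl
      rw [e1, Finset.sum_list_map_count, Finset.smul_sum]
      refine Finset.sum_congr rfl fun k hk => ?_
      obtain ⟨hc1, hc2⟩ := hcount k (List.mem_toFinset.1 hk)
      rw [smul_smul, smul_smul]
      congr 1
      show b.2.count k * (s * n k * (F / b.2.count k)) = s * F * n k
      obtain ⟨r, hr⟩ := hc2
      have : F / b.2.count k = r := by
        rw [hr]; exact Nat.mul_div_cancel_left r hc1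
      rw [this, hr]
      ring
    have hxX : x ∈ US S := by
      refine ht₀ (s * F) ?_ x ?_
      · have : s ≤ s * F := Nat.le_mul_of_pos_right _ hFpos
        omega
      · rw [hx2, hsum, ← hmn]
        congr 1
        funext j
        simp only [zv, Pi.smul_apply, smul_eq_mul]
        push_cast
        ring
    exact Set.disjoint_left.1 hb3 hx hxX

end Pool.Agent.MP2a1ef3.N3
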