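import Pool.Agent.Lib.MP_2a1ef3_lc.N3.Stm

set_option autoImplicit false

namespace Pool.Agent.MP2a1ef3.N3

open Filter

private theorem cl_dual {P : Finset V} (hI : Ind P) : ∃ D : ℤ, 0 < D ∧ ∃ a : V → Z3,
    ∀ p ∈ P, ∀ q ∈ P, a p ⬝ᵥ zv q = if p = q then D else 0 := by
  classical
  -- independence over the rationals
  have hli : ∀ g : P → ℚ, ∑ p : P, g p • (fun j => ((p.1 j : ℕ) : ℚ) : Fin 3 → ℚ) = 0 → ∀ p, g p = 0 := by
    intro g hg p
    have hI' := Fintype.linearIndependent_iff.1 hI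
    have := hI' (fun p => (g p : ℝ)) (by
      ext j
      have h := congrFun hg j
      simp only [Finset.sum_apply, Pi.smul_apply, smul_eq_mul, Pi.zero_apply] at h ⊢
      unfold rv
      exact_mod_cast h) p
    exact_mod_cast this
  let f : (P → ℚ) →ₗ[ℚ] (Fin 3 → ℚ) :=
    Fintype.linearCombination ℚ (fun p : P => (fun j => ((p.1 j : ℕ) : ℚ) : Fin 3 → ℚ))
  have hf : LinearMap.ker f = ⊥ := by
    rw [LinearMap.ker_eq_bot']
    intro g hg
    ext p
    exact hli g (by simpa [f, Fintype.linearCombination_apply] using hg) p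
  obtain ⟨g, hg⟩ := LinearMap.exists_leftInverse_of_injective f hf
  let G : P → Fin 3 → ℚ := fun p j => g (fun i => if j = i then 1 else 0) p
  have hG : ∀ p q : P, ∑ j, G p j * ((q.1 j : ℕ) : ℚ) = if p = q then 1 else 0 := by
    intro p q
    have h1 : g (f (Pi.single q 1)) = Pi.single q 1 := by
      have := LinearMap.congr_fun hg (Pi.single q 1)
      simpa using this
    have h2 : f (Pi.single q 1) = (fun j => ((q.1 j : ℕ) : ℚ)) := by
      simp only [f]
      rw [Fintype.linearCombination_apply_single]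
      simp
    rw [h2, LinearMap.pi_apply_eq_sum_univ g] at h1
    have h3 := congrFun h1 p
    simp only [Finset.sum_apply, Pi.smul_apply, smul_eq_mul] at h3
    rw [Pi.single_apply] at h3
    rw [← h3]
    apply Finset.sum_congr rfl
    intro j _
    simp only [G]
    ring
  let D : ℕ := ∏ p : P, ∏ j, (G p j).den
  have hD : 0 < D := Finset.prod_pos fun p _ => Finset.prod_pos fun j _ => (G p j).den_pos
  have hA : ∀ (p : P) (j : Fin 3), ∃ z : ℤ, (z : ℚ) = D * G p j := by
    intro p j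
    have h1 : (G p j).den ∣ D := by
      refine Dvd.dvd.trans ?_ (Finset.dvd_prod_of_mem (fun p : P => ∏ j, (G p j).den)
        (Finset.mem_univ p))
      exact Finset.dvd_prod_of_mem (fun j => (G p j).den) (Finset.mem_univ j)
    obtain ⟨c, hc⟩ := h1
    refine ⟨c * (G p j).num, ?_⟩
    have h2 : (G p j) * (G p j).den = (G p j).num := Rat.mul_den_eq_num _
    rw [hc]
    push_cast
    rw [← h2]
    ring
  choose A hA using hA
  refine ⟨D, by exact_mod_cast hD, fun v => if h : v ∈ P then A ⟨v, h⟩ else 0, ?_⟩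
  intro p hp q hq
  simp only [dif_pos hp]
  have h1 : ((A ⟨p, hp⟩ ⬝ᵥ zv q : ℤ) : ℚ) = if p = q then (D : ℚ) else 0 := by
    have h2 := hG ⟨p, hp⟩ ⟨q, hq⟩
    simp only [dotProduct, zv]
    push_cast
    have h3 : ∑ j, (A ⟨p, hp⟩ j : ℚ) * (q j : ℚ) = D * ∑ j, G ⟨p, hp⟩ j * (q j : ℚ) := by
      rw [Finset.mul_sum]
      apply Finset.sum_congr rfl
      intro j _
      rw [hA]
      ring
    rw [h3, h2]
    simp only [Subtype.mk.injEq]
    split_ifs <;> simp
  split_ifs at h1 ⊢ with h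
  · exact_mod_cast h1
  · exact_mod_cast h1

private theorem cl_coord {P : Finset V} {D : ℤ} {a : V → Z3}
    (ha : ∀ p ∈ P, ∀ q ∈ P, a p ⬝ᵥ zv q = if p = q then D else 0) {w : Z3} {l : V → ℝ}
    (hw : iv w = ∑ p ∈ P, l p • rv p) {p : V} (hp : p ∈ P) :
    ((a p ⬝ᵥ w : ℤ) : ℝ) = D * l p := by
  classical
  have h1 : ((a p ⬝ᵥ w : ℤ) : ℝ) = ∑ j, (a p j : ℝ) * iv w j := by
    simp [dotProduct, iv]
  rw [h1, hw]
  simp only [Finset.sum_apply, Pi.smul_apply, smul_eq_mul, Finset.mul_sum]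
  rw [Finset.sum_comm]
  have h2 : ∀ q ∈ P, ∑ j, (a p j : ℝ) * (l q * rv q j) = if p = q then D * l q else 0 := by
    intro q hq
    have h3 : ∑ j, (a p j : ℝ) * (l q * rv q j) = l q * ((a p ⬝ᵥ zv q : ℤ) : ℝ) := by
      simp only [dotProduct, zv, rv]
      push_cast
      rw [Finset.mul_sum]
      apply Finset.sum_congr rfl
      intro j _
      ring
    rw [h3, ha p hp q hq]
    split_ifs <;> push_cast <;> ring
  rw [Finset.sum_congr rfl h2, Finset.sum_ite_eq, if_pos hp]

private theorem cl_const {U : Ultrafilter V} (f : V → ℤ) {M : ℤ} (hM : 0 < M) :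
    ∃ r : ℤ, 0 ≤ r ∧ r < M ∧ ∀ᶠ x in (U : Filter V), f x % M = r := by
  have h := (Ultrafilter.eventually_exists_mem_iff (f := U) (is := Set.Ico (0 : ℤ) M)
    (P := fun r x => f x % M = r) (Set.finite_Ico 0 M)).1
    (Eventually.of_forall fun x => ⟨f x % M, ⟨Int.emod_nonneg _ hM.ne', Int.emod_lt_of_pos _ hM⟩, rfl⟩)
  obtain ⟨r, hr, h⟩ := h
  exact ⟨r, hr.1, hr.2, h⟩

private theorem cl_int {c y K B N : ℤ} (hK : 1 ≤ K) (hB : 0 ≤ B) (hN : B + |c| < N)
    (h : N ∣ y ∨ B + |c| < |c + y|) :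
    c + y = c + K * y ∨ (B < c + y ∧ B < c + K * y) ∨ (c + y < -B ∧ c + K * y < -B) := by
  have h1 := le_abs_self c
  have h2 := neg_abs_le c
  have h3 : y = 0 ∨ (0 < y ∧ B < c + y) ∨ (y < 0 ∧ c + y < -B) := by
    rcases lt_trichotomy y 0 with hy | hy | hy
    · right; right
      refine ⟨hy, ?_⟩
      rcases h with h | h
      · have : N ≤ -y := Int.le_of_dvd (by linarith) ((dvd_neg).2 h)
        linarith
      · rcases abs_cases (c + y) with ⟨h4, h5⟩ | ⟨h4, h5⟩
        · rw [h4] at h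
          linarith
        · rw [h4] at h
          linarith
    · exact Or.inl hy
    · right; left
      refine ⟨hy, ?_⟩
      rcases h with h | h
      · have : N ≤ y := Int.le_of_dvd hy h
        linarith
      · rcases abs_cases (c + y) with ⟨h4, h5⟩ | ⟨h4, h5⟩
        · rw [h4] at h
          linarith
        · rw [h4] at h
          linarith
  rcases h3 with h3 | ⟨h3, h4⟩ | ⟨h3, h4⟩
  · left; rw [h3]; ring
  · right; left
    exact ⟨h4, by nlinarith⟩
  · right; right
    exact ⟨h4, by nlinarith⟩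

private theorem cl_val {U : Ultrafilter V} {x₀ : Z3} (h0 : Cent (U : Filter V) x₀) (M : ℤ)
    (h : Z3) : ∃ N' : ℕ, 0 < N' ∧
      ((∀ K : ℕ, 0 < K → ∀ᶠ x in (U : Filter V), (K : ℤ) ∣ h ⬝ᵥ zv x - h ⬝ᵥ x₀) ∨
        ∀ᶠ x in (U : Filter V), ∀ ξ : ℤ, |ξ| ≤ M → ¬ (N' : ℤ) ∣ h ⬝ᵥ zv x - ξ) := by
  by_cases hv : ∃ ξ : ℤ, ∀ K : ℕ, 0 < K → ∀ᶠ x in (U : Filter V), (K : ℤ) ∣ h ⬝ᵥ zv x - ξ
  · obtain ⟨ξ, hv⟩ := hv
    have := h0 h ξ hv
    subst this
    exact ⟨1, one_pos, Or.inl hv⟩
  · push Not at hv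
    choose K hK0 hK using hv
    refine ⟨∏ ξ ∈ Finset.Icc (-M) M, K ξ, Finset.prod_pos fun ξ _ => hK0 ξ, Or.inr ?_⟩
    have h2 : ∀ᶠ x in (U : Filter V), ∀ ξ ∈ Finset.Icc (-M) M, ¬ (K ξ : ℤ) ∣ h ⬝ᵥ zv x - ξ := by
      rw [Finset.eventually_all]
      intro ξ _
      exact hK ξ
    filter_upwards [h2] with x hx ξ hξ hdvd
    have hmem : ξ ∈ Finset.Icc (-M) M := by
      rw [Finset.mem_Icc]
      exact abs_le.1 hξ
    apply hx ξ hmem
    refine Dvd.dvd.trans ?_ hdvd
    exact_mod_cast Finset.dvd_prod_of_mem K hmem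

theorem p_cl (h1 : S_trich) : S_cl := by
  intro X H B m hm hB hT U x₀ h0 hx P hI hP hW
  classical
  obtain ⟨D, hD, a, ha⟩ := cl_dual hI
  set α : V → V → ℤ := fun p x => a p ⬝ᵥ (zv x - x₀) with hαdef
  have hα : ∀ p x, α p x = a p ⬝ᵥ zv x - a p ⬝ᵥ x₀ := fun p x => dotProduct_sub _ _ _
  have E1 : ∀ᶠ x in (U : Filter V), (∀ p ∈ P, 0 < α p x) ∧
      ∀ j, D * (zv x j - x₀ j) = ∑ p ∈ P, α p x * (p j : ℤ) := by
    filter_upwards [hP] with x hx
    obtain ⟨l, hl, hxl⟩ := hx
    have hc : ∀ p ∈ P, ((α p x : ℤ) : ℝ) = D * l p := fun p hp => cl_coord ha hxl hp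
    refine ⟨?_, ?_⟩
    · intro p hp
      have : (0 : ℝ) < ((α p x : ℤ) : ℝ) := by
        rw [hc p hp]
        exact mul_pos (by exact_mod_cast hD) (hl p hp)
      exact_mod_cast this
    · intro j
      have : ((D * (zv x j - x₀ j) : ℤ) : ℝ) = ((∑ p ∈ P, α p x * (p j : ℤ) : ℤ) : ℝ) := by
        have h2 := congrFun hxl j
        simp only [iv, Pi.sub_apply, Finset.sum_apply, Pi.smul_apply, smul_eq_mul, rv] at h2
        rw [Int.cast_mul, h2, Finset.mul_sum, Int.cast_sum]
        apply Finset.sum_congr rfl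
        intro p hp
        rw [Int.cast_mul, hc p hp]
        push_cast
        ring
      exact_mod_cast this
  have E2 : ∀ p ∈ P, ∀ C : ℤ, ∀ᶠ x in (U : Filter V), C < α p x := by
    intro p hp C
    rcases h1 h0 (a p) with h | h | h
    · exfalso
      obtain ⟨x, hx1, hx2⟩ := (h.and E1).exists
      have := hx2.1 p hp
      rw [hα, hx1] at this
      linarith
    · filter_upwards [h (C + a p ⬝ᵥ x₀)] with x hx
      rw [hα]
      linarith
    · exfalso
      obtain ⟨x, hx1, hx2⟩ := ((h (a p ⬝ᵥ x₀)).and E1).exists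
      have := hx2.1 p hp
      rw [hα] at this
      linarith
  -- the modulus
  set M : Z3 → ℤ := fun h => B + |h ⬝ᵥ x₀| with hM
  have hM0 : ∀ h, 0 ≤ M h := fun h => by simp only [hM]; positivity
  choose N' hN'0 hN' using fun h => cl_val h0 (M h) h
  set N : ℕ := m * (∏ h ∈ H, N' h) * (1 + ∑ h ∈ H, (M h).toNat) with hNdef
  have hN : 0 < N := by
    have : 0 < ∏ h ∈ H, N' h := Finset.prod_pos fun h _ => hN'0 h
    positivity
  have hNZ : (0 : ℤ) < N := by exact_mod_cast hN
  have hmN : m ∣ N := ⟨(∏ h ∈ H, N' h) * (1 + ∑ h ∈ H, (M h).toNat), by rw [hNdef]; ring⟩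
  have hN'N : ∀ h ∈ H, N' h ∣ N := by
    intro h hh
    refine Dvd.dvd.trans (Finset.dvd_prod_of_mem N' hh) ?_
    exact ⟨m * (1 + ∑ h ∈ H, (M h).toNat), by rw [hNdef]; ring⟩
  have hMN : ∀ h ∈ H, M h < N := by
    intro h hh
    have h2 : (M h).toNat ≤ ∑ h ∈ H, (M h).toNat :=
      Finset.single_le_sum (f := fun h => (M h).toNat) (fun _ _ => Nat.zero_le _) hh
    have h3 : 1 + ∑ h ∈ H, (M h).toNat ≤ N := by
      rw [hNdef]
      apply Nat.le_mul_of_pos_left
      exact Nat.mul_pos hm (Finset.prod_pos fun h _ => hN'0 h)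
    have h4 := Int.toNat_of_nonneg (hM0 h)
    omega
  have E4 : ∀ᶠ x in (U : Filter V), ∀ h ∈ H, ((N : ℤ) ∣ h ⬝ᵥ zv x - h ⬝ᵥ x₀) ∨
      (∀ ξ : ℤ, |ξ| ≤ M h → ¬ (N : ℤ) ∣ h ⬝ᵥ zv x - ξ) := by
    rw [Finset.eventually_all]
    intro h hh
    rcases hN' h with h2 | h2
    · filter_upwards [h2 N hN] with x hx using Or.inl hx
    · filter_upwards [h2] with x hx
      right
      intro ξ hξ hdvd
      exact hx ξ hξ (Dvd.dvd.trans (by exact_mod_cast hN'N h hh) hdvd)
  have hDN : 0 < D * N := mul_pos hD hNZ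
  choose r hr0 hrM hr using fun p => cl_const (U := U) (α p) hDN
  have E3 : ∀ᶠ x in (U : Filter V), ∀ p ∈ P, α p x % (D * N) = r p := by
    rw [Finset.eventually_all]
    intro p _
    exact hr p
  set k : V → V → ℤ := fun p x => α p x / (D * N) with hk
  have hαk : ∀ p x, α p x % (D * N) = r p → α p x = r p + D * N * k p x := by
    intro p x h
    rw [← h, hk]
    exact (Int.emod_add_mul_ediv _ _).symm
  obtain ⟨xs, ⟨hs1, hs1'⟩, hs3, hs4, hs5⟩ := (E1.and (E3.and (E4.and hx))).exists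
  set c0 : Z3 := fun j => zv xs j - N * ∑ p ∈ P, k p xs * (p j : ℤ) with hc0
  have hDr : ∀ x : V, (∀ j, D * (zv x j - x₀ j) = ∑ p ∈ P, α p x * (p j : ℤ)) →
      (∀ p ∈ P, α p x % (D * N) = r p) → ∀ j,
      D * (zv x j - N * (∑ p ∈ P, k p x * (p j : ℤ)) - x₀ j) = ∑ p ∈ P, r p * (p j : ℤ) := by
    intro x hx1 hx3 j
    have h2 : D * (zv x j - N * (∑ p ∈ P, k p x * (p j : ℤ)) - x₀ j) =
        D * (zv x j - x₀ j) - D * N * ∑ p ∈ P, k p x * (p j : ℤ) := by ring
    rw [h2, hx1 j, Finset.mul_sum, ← Finset.sum_sub_distrib]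
    apply Finset.sum_congr rfl
    intro p hp
    rw [hαk p x (hx3 p hp)]
    ring
  have hc0r : ∀ j, D * (c0 j - x₀ j) = ∑ p ∈ P, r p * (p j : ℤ) := hDr xs hs1' hs3
  set T : ℕ := 1 + ∑ j, (c0 j).natAbs with hTdef
  have hcnn : ∀ j, 0 ≤ c0 j + N * T * ∑ p ∈ P, (p j : ℤ) := by
    intro j
    have hs0 : 0 ≤ ∑ p ∈ P, (p j : ℤ) := Finset.sum_nonneg fun p _ => Int.natCast_nonneg _
    rcases eq_or_lt_of_le hs0 with h | h
    · have h2 : ∀ p ∈ P, (p j : ℤ) = 0 :=
        (Finset.sum_eq_zero_iff_of_nonneg fun p _ => Int.natCast_nonneg _).1 h.symm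
      have h3 : c0 j = zv xs j := by
        simp only [hc0]
        rw [Finset.sum_eq_zero (fun p hp => by rw [h2 p hp, mul_zero])]
        ring
      rw [← h, h3]
      simp [zv]
    · have h2 : (c0 j).natAbs ≤ ∑ j, (c0 j).natAbs :=
        Finset.single_le_sum (f := fun j => (c0 j).natAbs) (fun _ _ => Nat.zero_le _)
          (Finset.mem_univ j)
      have h3 : -(T : ℤ) ≤ c0 j := by omega
      have h4 : (T : ℤ) ≤ N * T * ∑ p ∈ P, (p j : ℤ) := by
        have h5 : (0 : ℤ) ≤ T := Int.natCast_nonneg _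
        have h6 : (1 : ℤ) ≤ N * ∑ p ∈ P, (p j : ℤ) := by nlinarith
        nlinarith
      linarith
  set c : V := fun j => (c0 j + N * T * ∑ p ∈ P, (p j : ℤ)).toNat with hcdef
  have hc : ∀ j, (c j : ℤ) = c0 j + N * T * ∑ p ∈ P, (p j : ℤ) := fun j =>
    Int.toNat_of_nonneg (hcnn j)
  have hinj : Set.InjOn (fun p : V => N • p) (P : Set V) := by
    intro p _ q _ hpq
    ext j
    have := congrFun hpq j
    simp only [Pi.smul_apply, smul_eq_mul] at this
    exact Nat.eq_of_mul_eq_mul_left hN this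
  refine ⟨c, N, hN, ?_, ?_⟩
  · rintro z ⟨n, hz⟩
    rw [Finset.sum_image hinj] at hz
    have hzj : ∀ j, zv z j = c0 j + N * ∑ p ∈ P, ((T : ℤ) + n (N • p)) * (p j : ℤ) := by
      intro j
      have h2 : zv z j = (c j : ℤ) + ∑ p ∈ P, (n (N • p) : ℤ) * (N * (p j : ℤ)) := by
        rw [hz]
        simp only [zv, Pi.add_apply, Finset.sum_apply, Pi.smul_apply, smul_eq_mul]
        push_cast
        rfl
      rw [h2, hc, Finset.mul_sum, Finset.mul_sum, add_assoc, ← Finset.sum_add_distrib]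
      congr 1
      apply Finset.sum_congr rfl
      intro p _
      ring
    have hzpos : ∀ j, 0 ≤ zv z j := fun j => by simp [zv]
    set y : Z3 := zv z - x₀ with hy
    have hyj : ∀ j, y j = zv z j - x₀ j := fun j => rfl
    have hDy : ∀ j, D * y j = ∑ p ∈ P, (r p + D * N * (T + n (N • p))) * (p j : ℤ) := by
      intro j
      have h2 : D * y j = D * (c0 j - x₀ j) +
          D * N * ∑ p ∈ P, ((T : ℤ) + n (N • p)) * (p j : ℤ) := by
        rw [hyj, hzj]
        ring
      rw [h2, hc0r, Finset.mul_sum, ← Finset.sum_add_distrib]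
      apply Finset.sum_congr rfl
      intro p _
      ring
    have hT1 : (1 : ℤ) ≤ T := by rw [hTdef]; push_cast; linarith [Finset.sum_nonneg (fun (j : Fin 3) (_ : j ∈ Finset.univ) => abs_nonneg (c0 j))]
    have hcoef : ∀ p, 0 < r p + D * N * (T + n (N • p)) := by
      intro p
      have h2 : (0 : ℤ) < T + n (N • p) := by
        have : (0 : ℤ) ≤ n (N • p) := Int.natCast_nonneg _
        linarith
      have := mul_pos hDN h2
      have := hr0 p
      linarith
    have hy0 : ∀ j, 0 ≤ y j := by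
      intro j
      have h2 : 0 ≤ D * y j := by
        rw [hDy]
        apply Finset.sum_nonneg
        intro p _
        exact mul_nonneg (hcoef p).le (Int.natCast_nonneg _)
      exact nonneg_of_mul_nonneg_right h2 hD
    set y' : V := fun j => (y j).toNat with hy'
    have hy'z : ∀ j, zv y' j = y j := fun j => Int.toNat_of_nonneg (hy0 j)
    have hoc : rv y' ∈ ocone P := by
      refine ⟨fun p => ((r p + D * N * (T + n (N • p)) : ℤ) : ℝ) / D, ?_, ?_⟩
      · intro p _
        apply div_pos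
        · exact_mod_cast hcoef p
        · exact_mod_cast hD
      · ext j
        have hDR : (D : ℝ) ≠ 0 := by exact_mod_cast hD.ne'
        have h2 : (D : ℝ) * rv y' j = ∑ p ∈ P, ((r p + D * N * (T + n (N • p)) : ℤ) : ℝ) * (p j : ℝ) := by
          have h3 : ((D * y j : ℤ) : ℝ) = ((∑ p ∈ P, (r p + D * N * (T + n (N • p))) * (p j : ℤ) : ℤ) : ℝ) := by
            rw [hDy]
          have h4 : rv y' j = ((y j : ℤ) : ℝ) := by
            rw [← hy'z]
            simp [rv, zv]
          rw [h4]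
          rw [Int.cast_mul] at h3
          rw [h3, Int.cast_sum]
          apply Finset.sum_congr rfl
          intro p _
          rw [Int.cast_mul]
          simp
        simp only [Finset.sum_apply, Pi.smul_apply, smul_eq_mul, rv] at h2 ⊢
        apply mul_left_cancel₀ hDR
        rw [h2, Finset.mul_sum]
        apply Finset.sum_congr rfl
        intro p _
        field_simp
    obtain ⟨t, ht, htge⟩ := ((hW y' hoc).and
      (eventually_ge_atTop (1 + ∑ j, (x₀ j).natAbs))).exists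
    have hx'nn : ∀ j, 0 ≤ x₀ j + ((m * t : ℕ) : ℤ) * y j := by
      intro j
      rcases eq_or_lt_of_le (hy0 j) with h | h
      · rw [← h, mul_zero, add_zero]
        have := hyj j
        have := hzpos j
        linarith
      · have h2 : (x₀ j).natAbs ≤ ∑ j, (x₀ j).natAbs :=
          Finset.single_le_sum (f := fun j => (x₀ j).natAbs) (fun _ _ => Nat.zero_le _)
            (Finset.mem_univ j)
        have h3 : (x₀ j).natAbs ≤ m * t := by
          have : t ≤ m * t := Nat.le_mul_of_pos_left t hm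
          omega
        have h4 : -((m * t : ℕ) : ℤ) ≤ x₀ j := by omega
        have h5 : (0 : ℤ) ≤ ((m * t : ℕ) : ℤ) := Int.natCast_nonneg _
        nlinarith
    set x' : V := fun j => (x₀ j + ((m * t : ℕ) : ℤ) * y j).toNat with hx'
    have hx'j : ∀ j, zv x' j = x₀ j + ((m * t : ℕ) : ℤ) * y j := fun j =>
      Int.toNat_of_nonneg (hx'nn j)
    have hx'X : x' ∈ X := by
      apply ht
      ext j
      simp only [Pi.add_apply, Pi.smul_apply, smul_eq_mul]
      rw [hx'j, hy'z]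
    have hzxs : ∀ j, (N : ℤ) ∣ zv z j - zv xs j := by
      intro j
      refine ⟨∑ p ∈ P, ((T : ℤ) + n (N • p)) * (p j : ℤ) - ∑ p ∈ P, k p xs * (p j : ℤ), ?_⟩
      rw [hzj]
      simp only [hc0]
      ring
    refine (hT z x' ?_ ?_).2 hx'X
    · intro j
      have h2 : zv z j - zv x' j = (zv z j - zv xs j) + (zv xs j - x₀ j) - m * (t * y j) := by
        rw [hx'j]
        push_cast
        ring
      rw [h2]
      refine dvd_sub (dvd_add ?_ (hs5 j)) ⟨_, rfl⟩
      exact Dvd.dvd.trans (by exact_mod_cast hmN) (hzxs j)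
    · intro h hh
      have e1 : h ⬝ᵥ zv z = h ⬝ᵥ x₀ + h ⬝ᵥ y := by
        rw [hy, dotProduct_sub]
        ring
      have e2 : h ⬝ᵥ zv x' = h ⬝ᵥ x₀ + ((m * t : ℕ) : ℤ) * (h ⬝ᵥ y) := by
        have : zv x' = x₀ + ((m * t : ℕ) : ℤ) • y := by
          ext j
          simp only [Pi.add_apply, Pi.smul_apply, smul_eq_mul]
          exact hx'j j
        rw [this, dotProduct_add, dotProduct_smul, smul_eq_mul]
      have e3 : (N : ℤ) ∣ h ⬝ᵥ zv z - h ⬝ᵥ zv xs := by
        rw [← dotProduct_sub]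
        simp only [dotProduct]
        apply Finset.dvd_sum
        intro j _
        exact Dvd.dvd.mul_left (hzxs j) _
      rw [e1, e2]
      apply cl_int
      · have : 1 ≤ m * t := Nat.mul_pos hm (by omega)
        exact_mod_cast this
      · exact hB
      · exact hMN h hh
      · rcases hs4 h hh with h2 | h2
        · left
          have : h ⬝ᵥ y = (h ⬝ᵥ zv z - h ⬝ᵥ zv xs) + (h ⬝ᵥ zv xs - h ⬝ᵥ x₀) := by
            rw [e1]; ring
          rw [this]
          exact dvd_add e3 h2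
        · right
          rw [← e1]
          by_contra hcon
          apply h2 (h ⬝ᵥ zv z) (not_lt.1 hcon)
          have : h ⬝ᵥ zv xs - h ⬝ᵥ zv z = -(h ⬝ᵥ zv z - h ⬝ᵥ zv xs) := by ring
          rw [this]
          exact (dvd_neg).2 e3
  · have E5 : ∀ᶠ x in (U : Filter V), ∀ p ∈ P, D * N * T < α p x := by
      rw [Finset.eventually_all]
      intro p hp
      exact E2 p hp _
    filter_upwards [E1, E3, E5] with x hx1 hx3 hx5
    have hkT : ∀ p ∈ P, (T : ℤ) ≤ k p x := by
      intro p hp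
      simp only [hk]
      rw [Int.le_ediv_iff_mul_le hDN]
      have := hx5 p hp
      linarith
    refine ⟨fun q => (k (fun j => q j / N) x - T).toNat, ?_⟩
    rw [Finset.sum_image hinj]
    ext j
    have h2 : ∀ p : V, (fun j => (N • p) j / N) = p := by
      intro p
      ext j
      simp only [Pi.smul_apply, smul_eq_mul]
      exact Nat.mul_div_cancel_left _ hN
    have h4 : ∀ p ∈ P, (((k (fun j => (N • p) j / N) x - T).toNat : ℕ) : ℤ) = k p x - T := by
      intro p hp
      rw [h2 p]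
      exact Int.toNat_of_nonneg (by linarith [hkT p hp])
    have h3 : zv x j = (c j : ℤ) +
        ∑ p ∈ P, (((k (fun j => (N • p) j / N) x - T).toNat : ℕ) : ℤ) * ((N : ℤ) * (p j : ℤ)) := by
      rw [Finset.sum_congr rfl (fun p hp => by rw [h4 p hp])]
      rw [hc]
      have h5 : D * (zv x j - N * (∑ p ∈ P, k p x * (p j : ℤ)) - x₀ j) = D * (c0 j - x₀ j) := by
        rw [hDr x hx1.2 hx3 j, hc0r]
      have h6 := mul_left_cancel₀ hD.ne' h5
      have h7 : ∑ p ∈ P, (k p x - T) * ((N : ℤ) * (p j : ℤ)) =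
          N * (∑ p ∈ P, k p x * (p j : ℤ)) - N * T * ∑ p ∈ P, (p j : ℤ) := by
        rw [Finset.mul_sum, Finset.mul_sum, ← Finset.sum_sub_distrib]
        apply Finset.sum_congr rfl
        intro p _
        ring
      rw [h7]
      linarith
    have h8 : (c + ∑ p ∈ P, (k (fun j => (N • p) j / N) x - T).toNat • N • p) j =
        c j + ∑ p ∈ P, (k (fun j => (N • p) j / N) x - T).toNat * (N * p j) := by
      simp only [Pi.add_apply, Finset.sum_apply, Pi.smul_apply, smul_eq_mul]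
    rw [h8]
    unfold zv at h3
    exact_mod_cast h3

end Pool.Agent.MP2a1ef3.N3
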