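import Pool.Agent.Lib.MP_2a1ef3_lc.N3.Stm

set_option autoImplicit false

namespace Pool.Agent.MP2a1ef3.N3

open Filter

/-- The vector of the functional `cut i s`. -/
private def n1_cv (i : Fin 3) (s : R3) : R3 := fun j => if j = i then -1 else s j

private theorem n1_cv_dp (i : Fin 3) (s x : R3) : dp (n1_cv i s) x = cut i s x := by
  fin_cases i
  · simp [dp, n1_cv, cut, Finset.sum_erase_eq_sub, Fin.sum_univ_three]; ring
  · simp [dp, n1_cv, cut, Finset.sum_erase_eq_sub, Fin.sum_univ_three]; ring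
  · simp [dp, n1_cv, cut, Finset.sum_erase_eq_sub, Fin.sum_univ_three]; ring

private theorem n1_num {r : ℚ} (hr : 0 < r) : ((r.num.toNat : ℕ) : ℝ) = r * r.den := by
  have h1 : (0 : ℤ) ≤ r.num := (Rat.num_pos.2 hr).le
  have h2 : ((r.num.toNat : ℕ) : ℤ) = r.num := Int.toNat_of_nonneg h1
  have h3 : (r : ℚ) * r.den = r.num := Rat.mul_den_eq_num r
  have h4 : ((r.num.toNat : ℕ) : ℝ) = (r.num : ℝ) := by exact_mod_cast congrArg (Int.cast (R := ℝ)) h2
  rw [h4]
  exact_mod_cast h3.symm

private theorem n1_gv (i j : Fin 3) (hij : i ≠ j) {r : ℚ} (hr : 0 < r) (t : Fin 3) :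
    rv (gv i j r) t = (r.den : ℝ) * (if t = i then (r : ℝ) else if t = j then 1 else 0) := by
  simp only [rv, gv]
  by_cases h1 : t = i
  · simp only [h1, if_true]
    rw [n1_num hr]; ring
  · by_cases h2 : t = j
    · simp [h2, Ne.symm hij]
    · simp [h1, h2]

theorem p_cov_n1 (h1 : S_n1_rat) (h2 : S_hexcone) (h3 : S_cov_of_gens) (h4 : S_germ_lex) :
    S_cov_n1 := by
  classical
  intro CC q v w h
  obtain ⟨s, hs1, hs2, hs3⟩ := h1 h
  have hpos : ∀ i j, i ≠ j → 0 < s i j := fun i j hij => by
    have h : (0 : ℝ) < (s i j : ℝ) := (hs1 i j hij).1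
    exact_mod_cast h
  have hev : ∀ i, ∀ᶠ N : ℕ in atTop,
      0 < cut i (fun j => (s i j : ℝ)) (rv (germ q v w N)) := by
    intro i
    have := (h4 (f := n1_cv i (fun j => (s i j : ℝ))) (q := q) (v := v) (w := w)).1 (by
      simp only [n1_cv_dp]
      exact hs2 i)
    simpa only [n1_cv_dp] using this
  refine h3 (G := ((Finset.univ : Finset (Fin 3 × Fin 3)).filter (fun p => p.1 ≠ p.2)).image
      (fun p => gv p.1 p.2 (s p.1 p.2))) ?_ ?_ ?_
  · intro g hg
    obtain ⟨⟨i, j⟩, hp, rfl⟩ := Finset.mem_image.1 hg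
    obtain ⟨l, hl1, hl2⟩ : ∃ l : Fin 3, l ≠ i ∧ l ≠ j := by
      fin_cases i <;> fin_cases j <;> decide
    exact ⟨l, by simp [gv, hl1, hl2]⟩
  · filter_upwards [hev 0, hev 1, hev 2] with N e0 e1 e2
    refine h2 hpos (fun j => by simp [rv]) ?_
    intro i
    fin_cases i
    · exact e0.le
    · exact e1.le
    · exact e2.le
  · intro C hC
    obtain ⟨i, hi⟩ := hs3 C hC
    refine ⟨n1_cv i (fun j => (s i j : ℝ)), ?_, ?_, Or.inl ?_⟩
    · intro g hg
      obtain ⟨⟨a, b⟩, hp, rfl⟩ := Finset.mem_image.1 hg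
      have hab : a ≠ b := (Finset.mem_filter.1 hp).2
      rw [n1_cv_dp]
      have hsab := hpos a b hab
      have hr1 : (0 : ℝ) < s a b := by exact_mod_cast hsab
      have hden : (0 : ℝ) < ((s a b).den : ℝ) := by exact_mod_cast (s a b).den_pos
      have hcut : cut i (fun j => (s i j : ℝ)) (rv (gv a b (s a b))) =
          ((s a b).den : ℝ) * cut i (fun j => (s i j : ℝ))
            (fun t => if t = a then (s a b : ℝ) else if t = b then 1 else 0) := by
        have : rv (gv a b (s a b)) = fun t => ((s a b).den : ℝ) *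
            (if t = a then (s a b : ℝ) else if t = b then 1 else 0) := by
          funext t; exact n1_gv a b hab hsab t
        rw [this]
        simp only [cut]
        rw [mul_sub, Finset.mul_sum]
        congr 1
        exact Finset.sum_congr rfl fun t _ => by ring
      rw [hcut]
      refine mul_nonneg hden.le ?_
      have hcoup : ∀ x y : Fin 3, x ≠ y → (1 : ℝ) ≤ (s x y : ℝ) * (s y x : ℝ) := fun x y hxy =>
        (hs1 x y hxy).2
      have hp' : ∀ x y : Fin 3, x ≠ y → (0 : ℝ) < (s x y : ℝ) := fun x y hxy => (hs1 x y hxy).1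
      rw [← n1_cv_dp]
      fin_cases i <;> fin_cases a <;> fin_cases b <;>
        first
        | exact absurd rfl hab
        | (simp [dp, n1_cv]; done)
        | (simp [dp, n1_cv]
           first
           | positivity
           | nlinarith [hcoup 0 1 (by decide), hcoup 0 2 (by decide), hcoup 1 2 (by decide),
               hp' 0 1 (by decide), hp' 0 2 (by decide), hp' 1 0 (by decide),
               hp' 1 2 (by decide), hp' 2 0 (by decide), hp' 2 1 (by decide),
               mul_pos (hp' 0 1 (by decide)) (hp' 2 0 (by decide))])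
    · intro k hk
      rw [n1_cv_dp]
      exact hi k hk
    · simpa only [n1_cv_dp] using hev i

end Pool.Agent.MP2a1ef3.N3
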