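import Pool.Agent.Lib.MP_2a1ef3_lc.N3.Stm

set_option autoImplicit false

namespace Pool.Agent.MP2a1ef3.N3

open Filter

/-- The vector of the functional `cut i s`. -/
private def n2_cv (i : Fin 3) (s : R3) : R3 := fun j => if j = i then -1 else s j

private theorem n2_cv_dp (i : Fin 3) (s x : R3) : dp (n2_cv i s) x = cut i s x := by
  fin_cases i
  · simp [dp, n2_cv, cut, Finset.sum_erase_eq_sub, Fin.sum_univ_three]; ring
  · simp [dp, n2_cv, cut, Finset.sum_erase_eq_sub, Fin.sum_univ_three]; ring
  · simp [dp, n2_cv, cut, Finset.sum_erase_eq_sub, Fin.sum_univ_three]; ring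

private theorem n2_ncv_dp (i : Fin 3) (s x : R3) : dp (-n2_cv i s) x = - cut i s x := by
  rw [← n2_cv_dp]
  simp only [dp, Pi.neg_apply]; ring

private theorem n2_num {r : ℚ} (hr : 0 ≤ r) : ((r.num.toNat : ℕ) : ℝ) = r * r.den := by
  have h1 : (0 : ℤ) ≤ r.num := Rat.num_nonneg.2 hr
  have h2 : ((r.num.toNat : ℕ) : ℤ) = r.num := Int.toNat_of_nonneg h1
  have h3 : (r : ℚ) * r.den = r.num := Rat.mul_den_eq_num r
  have h4 : ((r.num.toNat : ℕ) : ℝ) = (r.num : ℝ) := by exact_mod_cast congrArg (Int.cast (R := ℝ)) h2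
  rw [h4]
  exact_mod_cast h3.symm

private theorem n2_cut_gv {i j : Fin 3} (hij : j ≠ i) {r : ℚ} (hr : 0 ≤ r) (s : R3) :
    cut i s (rv (gv i j r)) = (r.den : ℝ) * (s j - r) := by
  have h := n2_num hr
  rw [← n2_cv_dp]
  fin_cases i <;> fin_cases j <;>
    first
    | exact absurd rfl hij
    | (simp only [dp, n2_cv, rv, gv]
       simp
       rw [h]
       ring)

private theorem n2_cut_ev (i : Fin 3) (s : R3) : cut i s (rv (ev i)) = -1 := by
  rw [← n2_cv_dp]
  fin_cases i <;> simp [dp, n2_cv, rv, ev]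

private theorem n2_bd (i j : Fin 3) (r : ℚ) : Bd (gv i j r) := by
  obtain ⟨l, hl1, hl2⟩ : ∃ l : Fin 3, l ≠ i ∧ l ≠ j := by
    fin_cases i <;> fin_cases j <;> decide
  exact ⟨l, by simp [gv, hl1, hl2]⟩

theorem p_cov_n2 (h1 : S_n2_rat) (h2 : S_stripcone) (h3 : S_cov_of_gens)
    (h4 : S_germ_lex) : S_cov_n2 := by
  classical
  intro CC q v w i
  have hcutpos : ∀ s : R3, lexpos (cut i s (rv q)) (cut i s (rv v)) (cut i s (rv w)) →
      ∀ᶠ N : ℕ in atTop, 0 < cut i s (rv (germ q v w N)) := by
    intro s hs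
    have := (h4 (f := n2_cv i s) (q := q) (v := v) (w := w)).1 (by
      simp only [n2_cv_dp]
      exact hs)
    simpa only [n2_cv_dp] using this
  have hcutneg : ∀ s : R3, lexpos (-cut i s (rv q)) (-cut i s (rv v)) (-cut i s (rv w)) →
      ∀ᶠ N : ℕ in atTop, 0 < - cut i s (rv (germ q v w N)) := by
    intro s hs
    have := (h4 (f := -n2_cv i s) (q := q) (v := v) (w := w)).1 (by
      simp only [n2_ncv_dp]
      exact hs)
    simpa only [n2_ncv_dp] using this
  refine ⟨fun h => ?_, fun h => ?_, fun h => ?_⟩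
  · obtain ⟨s', s, hs1, hs2, hs3, hs4⟩ := (h1 (i := i)).1 h
    have hs'0 : ∀ j, j ≠ i → 0 ≤ s' j := fun j hj => by
      have h : (0 : ℝ) ≤ (s' j : ℝ) := (hs1 j hj).1
      exact_mod_cast h
    have hs's : ∀ j, j ≠ i → s' j ≤ s j := fun j hj => by
      have h : (s' j : ℝ) ≤ (s j : ℝ) := (hs1 j hj).2
      exact_mod_cast h
    have hev1 := hcutneg _ hs2
    have hev2 := hcutpos _ hs3
    refine h3 (G := ((Finset.univ.erase i).image (fun j => gv i j (s' j))) ∪
        ((Finset.univ.erase i).image (fun j => gv i j (s j)))) ?_ ?_ ?_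
    · intro g hg
      rcases Finset.mem_union.1 hg with hg | hg
      · obtain ⟨j, -, rfl⟩ := Finset.mem_image.1 hg
        exact n2_bd i j _
      · obtain ⟨j, -, rfl⟩ := Finset.mem_image.1 hg
        exact n2_bd i j _
    · filter_upwards [hev1, hev2] with N e1 e2
      exact (h2 hs'0 hs's (fun j => by simp [rv])).1 (by linarith) e2.le
    · intro C hC
      rcases hs4 C hC with h5 | h5
      · refine ⟨-n2_cv i (fun j => (s' j : ℝ)), ?_, ?_, Or.inl ?_⟩
        · intro g hg
          rw [n2_ncv_dp]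
          rcases Finset.mem_union.1 hg with hg | hg
          · obtain ⟨j, hj, rfl⟩ := Finset.mem_image.1 hg
            have hj' := (Finset.mem_erase.1 hj).1
            rw [n2_cut_gv hj' (hs'0 j hj')]
            simp
          · obtain ⟨j, hj, rfl⟩ := Finset.mem_image.1 hg
            have hj' := (Finset.mem_erase.1 hj).1
            rw [n2_cut_gv hj' ((hs'0 j hj').trans (hs's j hj'))]
            have e1 : (s' j : ℝ) ≤ (s j : ℝ) := (hs1 j hj').2
            have e2 : (0 : ℝ) ≤ ((s j).den : ℝ) := by positivity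
            nlinarith
        · intro k hk
          rw [n2_ncv_dp]
          have := h5 k hk
          linarith
        · simpa only [n2_ncv_dp] using hev1
      · refine ⟨n2_cv i (fun j => (s j : ℝ)), ?_, ?_, Or.inl ?_⟩
        · intro g hg
          rw [n2_cv_dp]
          rcases Finset.mem_union.1 hg with hg | hg
          · obtain ⟨j, hj, rfl⟩ := Finset.mem_image.1 hg
            have hj' := (Finset.mem_erase.1 hj).1
            rw [n2_cut_gv hj' (hs'0 j hj')]
            have e1 : (s' j : ℝ) ≤ (s j : ℝ) := (hs1 j hj').2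
            have e2 : (0 : ℝ) ≤ ((s' j).den : ℝ) := by positivity
            exact mul_nonneg e2 (by linarith)
          · obtain ⟨j, hj, rfl⟩ := Finset.mem_image.1 hg
            have hj' := (Finset.mem_erase.1 hj).1
            rw [n2_cut_gv hj' ((hs'0 j hj').trans (hs's j hj'))]
            simp
        · intro k hk
          rw [n2_cv_dp]
          exact h5 k hk
        · simpa only [n2_cv_dp] using hev2
  · obtain ⟨s, hs1, hs2, hs3⟩ := (h1 (i := i)).2.1 h
    have hs0 : ∀ j, j ≠ i → 0 ≤ s j := fun j hj => by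
      have h : (0 : ℝ) ≤ (s j : ℝ) := hs1 j hj
      exact_mod_cast h
    have hev1 := hcutneg _ hs2
    refine h3 (G := insert (ev i) ((Finset.univ.erase i).image (fun j => gv i j (s j)))) ?_ ?_ ?_
    · intro g hg
      rcases Finset.mem_insert.1 hg with rfl | hg
      · refine ⟨i + 1, ?_⟩
        fin_cases i <;> simp [ev]
      · obtain ⟨j, -, rfl⟩ := Finset.mem_image.1 hg
        exact n2_bd i j _
    · filter_upwards [hev1] with N e1
      exact (h2 hs0 (fun j _ => le_refl (s j)) (fun j => by simp [rv])).2 (by linarith)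
    · intro C hC
      refine ⟨-n2_cv i (fun j => (s j : ℝ)), ?_, ?_, Or.inl ?_⟩
      · intro g hg
        rw [n2_ncv_dp]
        rcases Finset.mem_insert.1 hg with rfl | hg
        · rw [n2_cut_ev]; norm_num
        · obtain ⟨j, hj, rfl⟩ := Finset.mem_image.1 hg
          have hj' := (Finset.mem_erase.1 hj).1
          rw [n2_cut_gv hj' (hs0 j hj')]
          simp
      · intro k hk
        rw [n2_ncv_dp]
        have := hs3 C hC k hk
        linarith
      · simpa only [n2_ncv_dp] using hev1
  · obtain ⟨s, hs1, hs2, hs3, hs4, hs5⟩ := (h1 (i := i)).2.2 h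
    have hs0 : ∀ j, j ≠ i → 0 ≤ s j := fun j hj => by
      have h : (0 : ℝ) ≤ (s j : ℝ) := hs1 j hj
      exact_mod_cast h
    have hzero : ∀ N : ℕ, cut i (fun j => (s j : ℝ)) (rv (germ q v w N)) = 0 := by
      intro N
      rw [← n2_cv_dp] at hs2 hs3 hs4 ⊢
      have : dp (n2_cv i (fun j => (s j : ℝ))) (rv (germ q v w N)) =
          (N : ℝ) ^ 2 * dp (n2_cv i (fun j => (s j : ℝ))) (rv q) +
          N * dp (n2_cv i (fun j => (s j : ℝ))) (rv v) +
          dp (n2_cv i (fun j => (s j : ℝ))) (rv w) := by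
        simp only [dp, rv, germ]
        push_cast
        ring
      rw [this, hs2, hs3, hs4]; ring
    refine h3 (G := ((Finset.univ.erase i).image (fun j => gv i j (s j))) ∪
        ((Finset.univ.erase i).image (fun j => gv i j (s j)))) ?_ ?_ ?_
    · intro g hg
      rw [Finset.union_self] at hg
      obtain ⟨j, -, rfl⟩ := Finset.mem_image.1 hg
      exact n2_bd i j _
    · refine Eventually.of_forall fun N => ?_
      exact (h2 hs0 (fun j _ => le_refl (s j)) (fun j => by simp [rv])).1
        (hzero N).le (hzero N).ge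
    · intro C hC
      rcases hs5 C hC with ⟨h5, k, hk, hkp⟩ | ⟨h5, k, hk, hkp⟩
      · refine ⟨-n2_cv i (fun j => (s j : ℝ)), ?_, ?_, Or.inr ⟨k, hk, ?_⟩⟩
        · intro g hg
          rw [n2_ncv_dp]
          rw [Finset.union_self] at hg
          obtain ⟨j, hj, rfl⟩ := Finset.mem_image.1 hg
          have hj' := (Finset.mem_erase.1 hj).1
          rw [n2_cut_gv hj' (hs0 j hj')]
          simp
        · intro k hk
          rw [n2_ncv_dp]
          have := h5 k hk
          linarith
        · rw [n2_ncv_dp]; linarith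
      · refine ⟨n2_cv i (fun j => (s j : ℝ)), ?_, ?_, Or.inr ⟨k, hk, ?_⟩⟩
        · intro g hg
          rw [n2_cv_dp]
          rw [Finset.union_self] at hg
          obtain ⟨j, hj, rfl⟩ := Finset.mem_image.1 hg
          have hj' := (Finset.mem_erase.1 hj).1
          rw [n2_cut_gv hj' (hs0 j hj')]
          simp
        · intro k hk
          rw [n2_cv_dp]
          exact h5 k hk
        · rw [n2_cv_dp]; exact hkp

end Pool.Agent.MP2a1ef3.N3
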