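import Pool.Agent.Lib.MP_2a1ef3_lc.N3.Stm

/-! Piece `cov_of_gens`: coverings from generators and separating functionals. -/

set_option autoImplicit false

open Filter

namespace Pool.Agent.MP2a1ef3.N3

private theorem cov_of_gens_dp (f : R3) (P : Finset V) (l : V → ℝ) :
    dp f (∑ p ∈ P, l p • rv p) = ∑ p ∈ P, l p * dp f (rv p) := by
  unfold dp
  rw [Finset.sum_apply, Finset.sum_apply, Finset.sum_apply, Finset.mul_sum, Finset.mul_sum,
    Finset.mul_sum, ← Finset.sum_add_distrib, ← Finset.sum_add_distrib]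
  refine Finset.sum_congr rfl fun p _ => ?_
  simp only [Pi.smul_apply, smul_eq_mul]
  ring

theorem p_cov_of_gens (h1 : S_exists_ind_germ) : S_cov_of_gens := by
  intro CC G q v w hB h hC
  obtain ⟨P, hPG, hPi, hP⟩ := h1 h
  refine ⟨P, ⟨fun p hp => hB p (hPG hp), hPi, ?_⟩, hP⟩
  intro C hCC
  obtain ⟨f, hf1, hf2, hf3⟩ := hC C hCC
  rw [Set.disjoint_left]
  rintro x ⟨l, hl, hx⟩ ⟨m, hm, hx'⟩
  have e1 : dp f x = ∑ p ∈ P, l p * dp f (rv p) := by rw [hx, cov_of_gens_dp]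
  have e2 : dp f x = ∑ k ∈ C, m k * dp f (rv k) := by rw [hx', cov_of_gens_dp]
  have h2 : 0 ≤ dp f x := by
    rw [e1]
    exact Finset.sum_nonneg fun p hp => mul_nonneg (hl p hp).le (hf1 p (hPG hp))
  have h3 : dp f x ≤ 0 := by
    rw [e2]
    exact Finset.sum_nonpos fun k hk => mul_nonpos_of_nonneg_of_nonpos (hm k hk).le (hf2 k hk)
  rcases hf3 with hf3 | ⟨k, hk, hk'⟩
  · obtain ⟨N, hN1, hN2⟩ := (hP.and hf3).exists
    obtain ⟨l', hl', hy⟩ := hN1
    rw [hy, cov_of_gens_dp] at hN2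
    have h4 : ∃ p ∈ P, 0 < dp f (rv p) := by
      by_contra hc
      push Not at hc
      exact absurd hN2 (not_lt.2 (Finset.sum_nonpos fun p hp =>
        mul_nonpos_of_nonneg_of_nonpos (hl' p hp).le (hc p hp)))
    obtain ⟨p, hp, hp'⟩ := h4
    have h5 : 0 < dp f x := by
      rw [e1]
      exact Finset.sum_pos' (fun p hp => mul_nonneg (hl p hp).le (hf1 p (hPG hp)))
        ⟨p, hp, mul_pos (hl p hp) hp'⟩
    linarith
  · have h5 : dp f x < 0 := by
      rw [e2]
      exact Finset.sum_neg' (fun k hk => mul_nonpos_of_nonneg_of_nonpos (hm k hk).le (hf2 k hk))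
        ⟨k, hk, mul_neg_of_pos_of_neg (hm k hk) hk'⟩
    linarith

end Pool.Agent.MP2a1ef3.N3
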