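import Pool.Agent.Lib.MP_2a1ef3_lc.N3.Stm

set_option autoImplicit false

namespace Pool.Agent.MP2a1ef3.N3

open Filter

/-- Caratheodory. -/
private lemma dec_cones_carath (n : ℕ) : ∀ (G : Finset V), G.card = n → ∀ x : R3, x ∈ ocone G →
    ∃ P ⊆ G, Ind P ∧ x ∈ ocone P := by
  classical
  induction n using Nat.strong_induction_on with
  | _ n ih =>
    intro G hG x hx
    by_cases hI : Ind G
    · exact ⟨G, subset_rfl, hI, hx⟩
    obtain ⟨l, hl, hxl⟩ := hx
    have hdep : ¬ LinearIndepOn ℝ rv (G : Set V) := hI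
    rw [linearIndepOn_finset_iff] at hdep
    push Not at hdep
    obtain ⟨f, hf, p₀, hp₀, hfp₀⟩ := hdep
    -- a relation with a positive coefficient
    obtain ⟨μ, hμ, p₁, hp₁, hμp₁⟩ : ∃ μ : V → ℝ, ∑ p ∈ G, μ p • rv p = 0 ∧
        ∃ p ∈ G, 0 < μ p := by
      rcases lt_or_gt_of_ne hfp₀ with h | h
      · refine ⟨fun p => - f p, ?_, p₀, hp₀, by simpa using h⟩
        simp only [neg_smul, Finset.sum_neg_distrib, hf, neg_zero]
      · exact ⟨f, hf, p₀, hp₀, h⟩
    obtain ⟨p₂, hp₂, hmin⟩ := Finset.exists_min_image (G.filter (fun p => 0 < μ p))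
      (fun p => l p / μ p) ⟨p₁, Finset.mem_filter.mpr ⟨hp₁, hμp₁⟩⟩
    have hp₂G := (Finset.mem_filter.mp hp₂).1
    have hp₂μ := (Finset.mem_filter.mp hp₂).2
    set t := l p₂ / μ p₂ with ht
    have htpos : 0 < t := div_pos (hl p₂ hp₂G) hp₂μ
    have hnn : ∀ p ∈ G, 0 ≤ l p - t * μ p := by
      intro p hp
      by_cases hμp : 0 < μ p
      · have h1 := hmin p (Finset.mem_filter.mpr ⟨hp, hμp⟩)
        have h2 : t * μ p ≤ l p := (le_div_iff₀ hμp).mp h1
        linarith
      · push Not at hμp
        have h1 := mul_nonpos_of_nonneg_of_nonpos htpos.le hμp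
        have h2 := hl p hp
        linarith
    have hz : l p₂ - t * μ p₂ = 0 := by
      rw [ht]; field_simp; ring
    set G' := G.filter (fun p => 0 < l p - t * μ p) with hG'
    have hsub : G' ⊆ G := Finset.filter_subset _ _
    have hcard : G'.card < n := by
      rw [← hG]
      apply Finset.card_lt_card
      refine ⟨hsub, fun h => ?_⟩
      have h1 := (Finset.mem_filter.mp (h hp₂G)).2
      rw [hz] at h1
      exact lt_irrefl _ h1
    have hx' : x ∈ ocone G' := by
      refine ⟨fun p => l p - t * μ p, fun p hp => (Finset.mem_filter.mp hp).2, ?_⟩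
      have e1 : x = ∑ p ∈ G, (l p - t * μ p) • rv p := by
        have e2 : ∑ p ∈ G, (l p - t * μ p) • rv p = ∑ p ∈ G, l p • rv p -
            t • ∑ p ∈ G, μ p • rv p := by
          rw [Finset.smul_sum, ← Finset.sum_sub_distrib]
          apply Finset.sum_congr rfl
          intro p _
          rw [sub_smul, mul_smul]
        rw [e2, hμ, smul_zero, sub_zero]; exact hxl
      rw [e1]
      symm
      apply Finset.sum_subset hsub
      intro p hp hp'
      have h1 : ¬ 0 < l p - t * μ p := fun h => hp' (Finset.mem_filter.mpr ⟨hp, h⟩)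
      have h2 : l p - t * μ p = 0 := le_antisymm (not_lt.mp h1) (hnn p hp)
      show (l p - t * μ p) • rv p = 0
      rw [h2, zero_smul]
    obtain ⟨P, hP, hPI, hPx⟩ := ih _ hcard G' rfl x hx'
    exact ⟨P, hP.trans hsub, hPI, hPx⟩

private lemma dec_cones_carath' {G : Finset V} {x : R3} (hx : x ∈ ccone G) :
    ∃ P ⊆ G, Ind P ∧ x ∈ ocone P := by
  classical
  obtain ⟨l, hl, hxl⟩ := hx
  have h : x ∈ ocone (G.filter (fun p => 0 < l p)) := by
    refine ⟨l, fun p hp => (Finset.mem_filter.mp hp).2, ?_⟩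
    rw [hxl]
    symm
    apply Finset.sum_subset (Finset.filter_subset _ _)
    intro p hp hp'
    have h1 : ¬ 0 < l p := fun h => hp' (Finset.mem_filter.mpr ⟨hp, h⟩)
    have h2 : l p = 0 := le_antisymm (not_lt.mp h1) (hl p hp)
    rw [h2, zero_smul]
  obtain ⟨P, hP, hPI, hPx⟩ := dec_cones_carath _ _ rfl x h
  exact ⟨P, hP.trans (Finset.filter_subset _ _), hPI, hPx⟩

/-- The embedding. -/
private def dcE (H : Finset Z3) (y : V) : (Fin 3 ⊕ (H × Bool)) → ℕ
  | Sum.inl j => y j
  | Sum.inr (h, true) => (h.1 ⬝ᵥ zv y).toNat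
  | Sum.inr (h, false) => (-(h.1 ⬝ᵥ zv y)).toNat

private lemma dcE_inj {H : Finset Z3} {y y' : V} (h : dcE H y = dcE H y') : y = y' := by
  funext j
  exact congrFun h (Sum.inl j)

private lemma dcE_zero {H : Finset Z3} : dcE H 0 = 0 := by
  funext i
  rcases i with j | ⟨h, b⟩
  · rfl
  · have : zv (0 : V) = 0 := by funext j; simp [zv]
    cases b <;> simp [dcE, this]

private lemma dcE_sub {H : Finset Z3} {g y : V} (h : dcE H g ≤ dcE H y) :
    dcE H (y - g) ≤ dcE H y := by
  have hle : ∀ j, g j ≤ y j := fun j => h (Sum.inl j)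
  have hz : zv (y - g) = zv y - zv g := by
    funext j
    have := hle j
    simp [zv, Nat.cast_sub this]
  intro i
  rcases i with j | ⟨k, b⟩
  · exact Nat.sub_le _ _
  · have h1 := h (Sum.inr (k, true))
    have h2 := h (Sum.inr (k, false))
    simp only [dcE] at h1 h2
    have h3 : k.1 ⬝ᵥ zv (y - g) = k.1 ⬝ᵥ zv y - k.1 ⬝ᵥ zv g := by
      rw [hz, dotProduct_sub]
    cases b <;> simp only [dcE, h3] <;> omega

theorem p_dec_cones : S_dec_cones := by
  classical
  intro H
  set M : Set V := {g | g ≠ 0 ∧ ∀ g', g' ≠ 0 → dcE H g' ≤ dcE H g → g' = g} with hM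
  have hfin : M.Finite := by
    have hanti : IsAntichain (· ≤ ·) (dcE H '' M) := by
      rintro _ ⟨a, ha, rfl⟩ _ ⟨b, hb, rfl⟩ hne hle
      exact hne (by rw [hb.2 a ha.1 hle])
    have h1 : (dcE H '' M).Finite :=
      hanti.finite_of_partiallyWellOrderedOn (Set.isPWO_of_wellQuasiOrderedLE _)
    exact Set.Finite.of_finite_image h1 (fun a _ b _ h => dcE_inj h)
  set G : Finset V := hfin.toFinset with hG
  have hGM : ∀ g, g ∈ G ↔ g ∈ M := fun g => by rw [hG, Set.Finite.mem_toFinset]
  have hbelow : ∀ y : V, y ≠ 0 → ∃ g ∈ G, dcE H g ≤ dcE H y := by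
    intro y hy
    have hne : ∃ n : ℕ, ∃ g : V, g ≠ 0 ∧ dcE H g ≤ dcE H y ∧ ∑ i, dcE H g i = n :=
      ⟨_, y, hy, le_rfl, rfl⟩
    obtain ⟨g, hg0, hgy, hgn⟩ := Nat.find_spec hne
    refine ⟨g, (hGM g).mpr ⟨hg0, ?_⟩, hgy⟩
    intro g' hg' hle
    by_contra hne'
    have hlt : ∑ i, dcE H g' i < ∑ i, dcE H g i := by
      apply Finset.sum_lt_sum (fun i _ => hle i)
      by_contra hcon
      push Not at hcon
      apply hne'
      apply dcE_inj (H := H)
      funext i
      exact le_antisymm (hle i) (hcon i (Finset.mem_univ i))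
    rw [hgn] at hlt
    exact Nat.find_min hne hlt ⟨g', hg', hle.trans hgy, rfl⟩
  have hdec : ∀ n : ℕ, ∀ y : V, ∑ j, y j = n →
      rv y ∈ ccone (G.filter (fun g => dcE H g ≤ dcE H y)) := by
    intro n
    induction n using Nat.strong_induction_on with
    | _ n ih =>
      intro y hy
      by_cases hy0 : y = 0
      · subst hy0
        refine ⟨fun _ => 0, fun _ _ => le_rfl, ?_⟩
        simp only [zero_smul, Finset.sum_const_zero]
        funext j; simp [rv]
      · obtain ⟨g, hg, hgy⟩ := hbelow y hy0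
        have hg0 : g ≠ 0 := ((hGM g).mp hg).1
        have hle : ∀ j, g j ≤ y j := fun j => hgy (Sum.inl j)
        have hsum : ∑ j, (y - g) j < n := by
          rw [← hy]
          apply Finset.sum_lt_sum (fun j _ => Nat.sub_le _ _)
          obtain ⟨j, hj⟩ : ∃ j, g j ≠ 0 := by
            by_contra hh; push Not at hh; exact hg0 (funext hh)
          refine ⟨j, Finset.mem_univ _, ?_⟩
          have := hle j
          show y j - g j < y j
          omega
        obtain ⟨l, hl, hlx⟩ := ih _ hsum (y - g) rfl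
        have hE := dcE_sub hgy
        have hsub : G.filter (fun g' => dcE H g' ≤ dcE H (y - g)) ⊆
            G.filter (fun g' => dcE H g' ≤ dcE H y) := by
          intro g' hg'
          rw [Finset.mem_filter] at hg' ⊢
          exact ⟨hg'.1, hg'.2.trans hE⟩
        have hgm : g ∈ G.filter (fun g' => dcE H g' ≤ dcE H y) :=
          Finset.mem_filter.mpr ⟨hg, hgy⟩
        refine ⟨fun p => (if p ∈ G.filter (fun g' => dcE H g' ≤ dcE H (y - g)) then l p else 0) +
          (if p = g then 1 else 0), ?_, ?_⟩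
        · intro p hp
          apply add_nonneg
          · split_ifs with h
            · exact hl p h
            · exact le_rfl
          · split_ifs <;> norm_num
        · have e0 : ∀ (s : Finset V) (u v : V → ℝ), ∑ p ∈ s, (u p + v p) • rv p =
              ∑ p ∈ s, u p • rv p + ∑ p ∈ s, v p • rv p := by
            intro s u v
            rw [← Finset.sum_add_distrib]
            exact Finset.sum_congr rfl (fun p _ => add_smul _ _ _)
          rw [e0]
          have e1 : ∑ p ∈ G.filter (fun g' => dcE H g' ≤ dcE H y),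
              (if p ∈ G.filter (fun g' => dcE H g' ≤ dcE H (y - g)) then l p else 0) • rv p =
              ∑ p ∈ G.filter (fun g' => dcE H g' ≤ dcE H (y - g)), l p • rv p := by
            symm
            rw [← Finset.sum_subset hsub]
            · apply Finset.sum_congr rfl
              intro p hp
              rw [if_pos hp]
            · intro p _ hp
              rw [if_neg hp, zero_smul]
          have e2 : ∑ p ∈ G.filter (fun g' => dcE H g' ≤ dcE H y),
              (if p = g then (1:ℝ) else 0) • rv p = rv g := by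
            rw [Finset.sum_eq_single g]
            · simp
            · intro b _ hb; simp [hb]
            · intro h; exact absurd hgm h
          rw [e1, e2, ← hlx]
          funext j
          have := hle j
          simp [rv, Nat.cast_sub this]
  refine ⟨G.powerset.filter (fun D => Ind D ∧ ∀ h ∈ H, (∀ k ∈ D, 0 ≤ h ⬝ᵥ zv k) ∨
    (∀ k ∈ D, h ⬝ᵥ zv k ≤ 0)), ?_, ?_, ?_⟩
  · intro D hD
    exact (Finset.mem_filter.mp hD).2.1
  · intro D hD
    exact (Finset.mem_filter.mp hD).2.2
  · intro y
    obtain ⟨P, hP, hPI, hPx⟩ := dec_cones_carath' (hdec _ y rfl)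
    refine ⟨P, Finset.mem_filter.mpr ⟨Finset.mem_powerset.mpr
      (hP.trans (Finset.filter_subset _ _)), hPI, ?_⟩, hPx⟩
    intro h hh
    rcases le_total 0 (h ⬝ᵥ zv y) with hs | hs
    · left
      intro k hk
      have h1 := (Finset.mem_filter.mp (hP hk)).2 (Sum.inr (⟨h, hh⟩, false))
      simp only [dcE] at h1
      omega
    · right
      intro k hk
      have h1 := (Finset.mem_filter.mp (hP hk)).2 (Sum.inr (⟨h, hh⟩, true))
      simp only [dcE] at h1
      omega

end Pool.Agent.MP2a1ef3.N3
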