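import Pool.Agent.Lib.MP_2a1ef3_lc.N3.Stm

/-!
MP_2a1ef3_lc, dimension three: the first normal form is decidable.
-/

set_option autoImplicit false

open Filter

namespace Pool.Agent.MP2a1ef3.N3

open Pool.Agent.Lib.MP42 (SA evMv evR evMv_apply evAt_apply evR_apply)

/-- polynomial functions of the parameters and the variables -/
private def dec_n1_Pol {m d : ℕ} (f : (Fin m → ℝ) × (Fin d → ℝ) → ℝ) : Prop :=
  ∃ a : MvPolynomial (Fin d) (MvPolynomial (Fin m) ℚ), ∀ p, evMv d (evR m) a p = f p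

private theorem dec_n1_var {m d : ℕ} (j : Fin d) :
    dec_n1_Pol (fun p : (Fin m → ℝ) × (Fin d → ℝ) => p.2 j) :=
  ⟨MvPolynomial.X j, fun p => by rw [evMv_apply, MvPolynomial.eval₂_X]⟩

private theorem dec_n1_par {m d : ℕ} (i : Fin m) :
    dec_n1_Pol (fun p : (Fin m → ℝ) × (Fin d → ℝ) => p.1 i) :=
  ⟨MvPolynomial.C (MvPolynomial.X i), fun p => by
    rw [evMv_apply, MvPolynomial.eval₂_C, evAt_apply, evR_apply, MvPolynomial.aeval_X]⟩

private theorem dec_n1_mul {m d : ℕ} {f g : (Fin m → ℝ) × (Fin d → ℝ) → ℝ}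
    (hf : dec_n1_Pol f) (hg : dec_n1_Pol g) : dec_n1_Pol (fun p => f p * g p) := by
  obtain ⟨a, ha⟩ := hf
  obtain ⟨b, hb⟩ := hg
  exact ⟨a * b, fun p => by rw [map_mul, Pi.mul_apply, ha, hb]⟩

private theorem dec_n1_sub {m d : ℕ} {f g : (Fin m → ℝ) × (Fin d → ℝ) → ℝ}
    (hf : dec_n1_Pol f) (hg : dec_n1_Pol g) : dec_n1_Pol (fun p => f p - g p) := by
  obtain ⟨a, ha⟩ := hf
  obtain ⟨b, hb⟩ := hg
  exact ⟨a - b, fun p => by rw [map_sub, Pi.sub_apply, ha, hb]⟩

private theorem dec_n1_one {m d : ℕ} : dec_n1_Pol (fun _ : (Fin m → ℝ) × (Fin d → ℝ) => (1 : ℝ)) :=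
  ⟨1, fun p => by rw [map_one, Pi.one_apply]⟩

private theorem dec_n1_sum {m d : ℕ} {ι : Type} (s : Finset ι)
    (f : ι → (Fin m → ℝ) × (Fin d → ℝ) → ℝ) (hf : ∀ i, dec_n1_Pol (f i)) :
    dec_n1_Pol (fun p => ∑ i ∈ s, f i p) := by
  choose a ha using hf
  refine ⟨∑ i ∈ s, a i, fun p => ?_⟩
  rw [map_sum, Finset.sum_apply]
  exact Finset.sum_congr rfl fun i _ => ha i p

private theorem dec_n1_pos {m d : ℕ} {f : (Fin m → ℝ) × (Fin d → ℝ) → ℝ} (hf : dec_n1_Pol f) :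
    SA (evMv d (evR m)) {p | 0 < f p} := by
  obtain ⟨a, ha⟩ := hf
  have h := SA.pos (ev := evMv d (evR m)) a
  simpa only [ha] using h

private theorem dec_n1_nonneg {m d : ℕ} {f : (Fin m → ℝ) × (Fin d → ℝ) → ℝ} (hf : dec_n1_Pol f) :
    SA (evMv d (evR m)) {p | 0 ≤ f p} := by
  obtain ⟨a, ha⟩ := hf
  have h := SA.nonneg (ev := evMv d (evR m)) a
  simpa only [ha] using h

private theorem dec_n1_zero {m d : ℕ} {f : (Fin m → ℝ) × (Fin d → ℝ) → ℝ} (hf : dec_n1_Pol f) :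
    SA (evMv d (evR m)) {p | f p = 0} := by
  obtain ⟨a, ha⟩ := hf
  have h := SA.eq_zero (ev := evMv d (evR m)) a
  simpa only [ha] using h

private theorem dec_n1_lexpos {m d : ℕ} {f g h : (Fin m → ℝ) × (Fin d → ℝ) → ℝ}
    (hf : dec_n1_Pol f) (hg : dec_n1_Pol g) (hh : dec_n1_Pol h) :
    SA (evMv d (evR m)) {p | lexpos (f p) (g p) (h p)} :=
  (dec_n1_pos hf).union ((dec_n1_zero hf).inter
    ((dec_n1_pos hg).union ((dec_n1_zero hg).inter (dec_n1_pos hh))))

/-- the cut functional as a polynomial -/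
private theorem dec_n1_cut {m d : ℕ} (i : Fin 3) (s : Fin 3 → Fin d) (x : Fin 3 → Fin m) :
    dec_n1_Pol (fun p : (Fin m → ℝ) × (Fin d → ℝ) =>
      cut i (fun j => p.2 (s j)) (fun j => p.1 (x j))) :=
  dec_n1_sub (dec_n1_sum _ _ fun j => dec_n1_mul (dec_n1_var (s j)) (dec_n1_par (x j)))
    (dec_n1_par (x i))

/-- the cut functional is affine -/
private theorem dec_n1_aff (i : Fin 3) (s t x : R3) {a b : ℝ} (hab : a + b = 1) :
    cut i (fun j => a * s j + b * t j) x = a * cut i s x + b * cut i t x := by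
  unfold cut
  have h : ∑ j ∈ Finset.univ.erase i, (a * s j + b * t j) * x j =
      a * ∑ j ∈ Finset.univ.erase i, s j * x j + b * ∑ j ∈ Finset.univ.erase i, t j * x j := by
    rw [Finset.mul_sum, Finset.mul_sum, ← Finset.sum_add_distrib]
    exact Finset.sum_congr rfl fun j _ => by ring
  rw [h]
  linear_combination (x i) * hab

private theorem dec_n1_lexconv {u v w u' v' w' a b : ℝ} (h : lexpos u v w) (h' : lexpos u' v' w')
    (ha : 0 ≤ a) (hb : 0 ≤ b) (hab : a + b = 1) :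
    lexpos (a * u + b * u') (a * v + b * v') (a * w + b * w') := by
  rcases ha.eq_or_lt with ha0 | ha0
  · subst ha0
    have hb1 : b = 1 := by linarith
    subst hb1
    simpa using h'
  rcases hb.eq_or_lt with hb0 | hb0
  · subst hb0
    have ha1 : a = 1 := by linarith
    subst ha1
    simpa using h
  rcases h with h | ⟨h0, h | ⟨h1, h⟩⟩ <;> rcases h' with h' | ⟨h0', h' | ⟨h1', h'⟩⟩
  · exact Or.inl (by positivity)
  · exact Or.inl (by rw [h0']; nlinarith [mul_pos ha0 h])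
  · exact Or.inl (by rw [h0']; nlinarith [mul_pos ha0 h])
  · exact Or.inl (by rw [h0]; nlinarith [mul_pos hb0 h'])
  · exact Or.inr ⟨by rw [h0, h0']; ring, Or.inl (by positivity)⟩
  · exact Or.inr ⟨by rw [h0, h0']; ring, Or.inl (by rw [h1']; nlinarith [mul_pos ha0 h])⟩
  · exact Or.inl (by rw [h0]; nlinarith [mul_pos hb0 h'])
  · exact Or.inr ⟨by rw [h0, h0']; ring, Or.inl (by rw [h1]; nlinarith [mul_pos hb0 h'])⟩
  · exact Or.inr ⟨by rw [h0, h0']; ring, Or.inr ⟨by rw [h1, h1']; ring, by positivity⟩⟩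

private theorem dec_n1_hyp {x y z w a b : ℝ} (hx : 0 < x) (hy : 0 < y) (hz : 0 < z) (hw : 0 < w)
    (h1 : 1 ≤ x * y) (h2 : 1 ≤ z * w) (ha : 0 ≤ a) (hb : 0 ≤ b) (hab : a + b = 1) :
    1 ≤ (a * x + b * z) * (a * y + b * w) := by
  have h3 : 2 ≤ x * w + z * y := by
    have h4 : 1 ≤ (x * w) * (z * y) := by
      have : (x * w) * (z * y) = (x * y) * (z * w) := by ring
      rw [this]
      nlinarith
    have h5 : 0 < x * w := mul_pos hx hw
    have h6 : 0 < z * y := mul_pos hz hy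
    nlinarith [sq_nonneg (x * w - z * y)]
  have h7 : (a * x + b * z) * (a * y + b * w) =
      a ^ 2 * (x * y) + b ^ 2 * (z * w) + a * b * (x * w + z * y) := by ring
  rw [h7]
  have h8 : a ^ 2 * 1 ≤ a ^ 2 * (x * y) := mul_le_mul_of_nonneg_left h1 (sq_nonneg a)
  have h9 : b ^ 2 * 1 ≤ b ^ 2 * (z * w) := mul_le_mul_of_nonneg_left h2 (sq_nonneg b)
  have h10 : a * b * 2 ≤ a * b * (x * w + z * y) :=
    mul_le_mul_of_nonneg_left h3 (mul_nonneg ha hb)
  have h11 : (a + b) ^ 2 = 1 := by rw [hab]; norm_num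
  nlinarith

/-- the coordinates -/
private def dec_n1_ix (i j : Fin 3) : Fin 9 := ⟨3 * i.val + j.val, by omega⟩

private def dec_n1_base (x s : Fin 9 → ℝ) : Prop :=
  (∀ i j : Fin 3, i ≠ j → 0 < s (dec_n1_ix i j) ∧ 1 ≤ s (dec_n1_ix i j) * s (dec_n1_ix j i)) ∧
    ∀ i : Fin 3, lexpos (cut i (fun j => s (dec_n1_ix i j)) (fun j => x (dec_n1_ix 0 j)))
      (cut i (fun j => s (dec_n1_ix i j)) (fun j => x (dec_n1_ix 1 j)))
      (cut i (fun j => s (dec_n1_ix i j)) (fun j => x (dec_n1_ix 2 j)))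

private def dec_n1_pt (a : Fin 3) (_e : Fin 1) (k : R3) (s : Fin 9 → ℝ) : Prop :=
  cut a (fun j => s (dec_n1_ix a j)) k ≤ 0

private theorem dec_n1_sabase : SA (evMv 9 (evR 9)) {p | dec_n1_base p.1 p.2} := by
  have h1 : SA (evMv 9 (evR 9)) (⋂ i : Fin 3, ⋂ j : Fin 3,
      {p : (Fin 9 → ℝ) × (Fin 9 → ℝ) | i ≠ j →
        0 < p.2 (dec_n1_ix i j) ∧ 1 ≤ p.2 (dec_n1_ix i j) * p.2 (dec_n1_ix j i)}) := by
    refine SA.iInter_finite _ fun i => SA.iInter_finite _ fun j => ?_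
    by_cases hij : i = j
    · have : {p : (Fin 9 → ℝ) × (Fin 9 → ℝ) | i ≠ j →
        0 < p.2 (dec_n1_ix i j) ∧ 1 ≤ p.2 (dec_n1_ix i j) * p.2 (dec_n1_ix j i)} = Set.univ := by
        ext p
        simp [hij]
      rw [this]
      exact SA.univ
    · have h2 := (dec_n1_pos (m := 9) (dec_n1_var (dec_n1_ix i j))).inter
        (dec_n1_nonneg (dec_n1_sub (dec_n1_mul (dec_n1_var (m := 9) (dec_n1_ix i j))
          (dec_n1_var (dec_n1_ix j i))) dec_n1_one))
      have h3 : {p : (Fin 9 → ℝ) × (Fin 9 → ℝ) | i ≠ j →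
        0 < p.2 (dec_n1_ix i j) ∧ 1 ≤ p.2 (dec_n1_ix i j) * p.2 (dec_n1_ix j i)} =
        {p | 0 < p.2 (dec_n1_ix i j)} ∩
          {p | 0 ≤ p.2 (dec_n1_ix i j) * p.2 (dec_n1_ix j i) - 1} := by
        ext p
        constructor
        · intro h
          exact ⟨(h hij).1, sub_nonneg.2 (h hij).2⟩
        · intro h _
          exact ⟨h.1, sub_nonneg.1 h.2⟩
      rw [h3]
      exact h2
  have h4 : SA (evMv 9 (evR 9)) (⋂ i : Fin 3, {p : (Fin 9 → ℝ) × (Fin 9 → ℝ) |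
      lexpos (cut i (fun j => p.2 (dec_n1_ix i j)) (fun j => p.1 (dec_n1_ix 0 j)))
      (cut i (fun j => p.2 (dec_n1_ix i j)) (fun j => p.1 (dec_n1_ix 1 j)))
      (cut i (fun j => p.2 (dec_n1_ix i j)) (fun j => p.1 (dec_n1_ix 2 j)))}) :=
    SA.iInter_finite _ fun i => dec_n1_lexpos (dec_n1_cut i _ _) (dec_n1_cut i _ _)
      (dec_n1_cut i _ _)
  have h5 := h1.inter h4
  convert h5 using 1
  ext p
  simp only [Set.mem_inter_iff, Set.mem_iInter]
  exact Iff.rfl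

private theorem dec_n1_sapt (a : Fin 3) (e : Fin 1) :
    SA (evMv 9 (evR 3)) {p | dec_n1_pt a e p.1 p.2} := by
  have h := (dec_n1_pos (dec_n1_cut (m := 3) (d := 9) a (fun j => dec_n1_ix a j) id)).compl
  have h2 : {p : (Fin 3 → ℝ) × (Fin 9 → ℝ) | dec_n1_pt a e p.1 p.2} =
      {p : (Fin 3 → ℝ) × (Fin 9 → ℝ) | 0 < cut a (fun j => p.2 (dec_n1_ix a j))
        (fun j => p.1 (id j))}ᶜ := by
    ext p
    show cut a (fun j => p.2 (dec_n1_ix a j)) p.1 ≤ 0 ↔
      ¬ (0 < cut a (fun j => p.2 (dec_n1_ix a j)) p.1)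
    exact not_lt.symm
  rw [h2]
  exact h

private theorem dec_n1_cb (x : Fin 9 → ℝ) : Convex ℝ {s | dec_n1_base x s} := by
  intro s hs t ht a b ha hb hab
  have e : ∀ k, (a • s + b • t) k = a * s k + b * t k := fun k => rfl
  refine ⟨fun i j hij => ⟨?_, ?_⟩, fun i => ?_⟩
  · rw [e]
    have h1 := (hs.1 i j hij).1
    have h2 := (ht.1 i j hij).1
    rcases ha.eq_or_lt with ha0 | ha0
    · have hb1 : b = 1 := by linarith
      rw [← ha0, hb1]
      linarith
    · have := mul_pos ha0 h1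
      have := mul_nonneg hb h2.le
      linarith
  · rw [e, e]
    exact dec_n1_hyp (hs.1 i j hij).1 (hs.1 j i hij.symm).1 (ht.1 i j hij).1
      (ht.1 j i hij.symm).1 (hs.1 i j hij).2 (ht.1 i j hij).2 ha hb hab
  · have h := dec_n1_lexconv (hs.2 i) (ht.2 i) ha hb hab
    rw [← dec_n1_aff i _ _ _ hab, ← dec_n1_aff i _ _ _ hab, ← dec_n1_aff i _ _ _ hab] at h
    exact h

private theorem dec_n1_cp (a' : Fin 3) (e' : Fin 1) (k : R3) :
    Convex ℝ {s | dec_n1_pt a' e' k s} := by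
  intro s hs t ht a b ha hb hab
  have h := dec_n1_aff a' (fun j => s (dec_n1_ix a' j)) (fun j => t (dec_n1_ix a' j)) k hab
  show cut a' (fun j => a * s (dec_n1_ix a' j) + b * t (dec_n1_ix a' j)) k ≤ 0
  rw [h]
  have h1 : cut a' (fun j => s (dec_n1_ix a' j)) k ≤ 0 := hs
  have h2 : cut a' (fun j => t (dec_n1_ix a' j)) k ≤ 0 := ht
  nlinarith [mul_nonneg ha (neg_nonneg.2 h1), mul_nonneg hb (neg_nonneg.2 h2)]

/-- the parameters as one vector -/
private def dec_n1_vec (x : V × V × V) : Fin 9 → ℕ :=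
  ![x.1 0, x.1 1, x.1 2, x.2.1 0, x.2.1 1, x.2.1 2, x.2.2 0, x.2.2 1, x.2.2 2]

/-- the rows as one vector -/
private def dec_n1_row (s : Fin 3 → Fin 3 → ℝ) : Fin 9 → ℝ :=
  ![s 0 0, s 0 1, s 0 2, s 1 0, s 1 1, s 1 2, s 2 0, s 2 1, s 2 2]

private theorem dec_n1_row_ix (s : Fin 3 → Fin 3 → ℝ) (i j : Fin 3) :
    dec_n1_row s (dec_n1_ix i j) = s i j := by
  fin_cases i <;> fin_cases j <;> rfl

private theorem dec_n1_vec_ix0 (x : V × V × V) :
    (fun j => ((dec_n1_vec x (dec_n1_ix 0 j) : ℕ) : ℝ)) = rv x.1 := by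
  funext j
  fin_cases j <;> rfl

private theorem dec_n1_vec_ix1 (x : V × V × V) :
    (fun j => ((dec_n1_vec x (dec_n1_ix 1 j) : ℕ) : ℝ)) = rv x.2.1 := by
  funext j
  fin_cases j <;> rfl

private theorem dec_n1_vec_ix2 (x : V × V × V) :
    (fun j => ((dec_n1_vec x (dec_n1_ix 2 j) : ℕ) : ℝ)) = rv x.2.2 := by
  funext j
  fin_cases j <;> rfl

theorem p_dec_n1 (h1 : S_dt_main) : S_dec_n1 := by
  have h := h1 dec_n1_base dec_n1_pt dec_n1_sabase dec_n1_sapt dec_n1_cb dec_n1_cp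
  have hf : Primrec (fun x : List (List V) × (V × V × V) =>
      ((x.1.map (fun C => C.map (fun k => ((0 : Fin 1), k))), dec_n1_vec x.2) :
        List (List (Fin 1 × V)) × (Fin 9 → ℕ))) := by
    refine Primrec.pair ?_ ?_
    · refine Primrec.list_map Primrec.fst ?_
      refine Primrec.list_map Primrec.snd ?_
      exact Primrec.pair (Primrec.const 0) Primrec.snd
    · refine Primrec.fin_curry.2 (Primrec₂.swap (Primrec.fin_curry₁.2 ?_))
      have hq : Primrec (fun x : List (List V) × (V × V × V) => x.2.1) :=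
        Primrec.fst.comp Primrec.snd
      have hv : Primrec (fun x : List (List V) × (V × V × V) => x.2.2.1) :=
        Primrec.fst.comp (Primrec.snd.comp Primrec.snd)
      have hw : Primrec (fun x : List (List V) × (V × V × V) => x.2.2.2) :=
        Primrec.snd.comp (Primrec.snd.comp Primrec.snd)
      have ap : ∀ (f : List (List V) × (V × V × V) → V) (c : Fin 3), Primrec f →
          Primrec (fun x => f x c) := fun f c hf => Primrec.fin_app.comp hf (Primrec.const c)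
      intro j
      fin_cases j
      · exact ap _ 0 hq
      · exact ap _ 1 hq
      · exact ap _ 2 hq
      · exact ap _ 0 hv
      · exact ap _ 1 hv
      · exact ap _ 2 hv
      · exact ap _ 0 hw
      · exact ap _ 1 hw
      · exact ap _ 2 hw
  refine (h.comp hf).of_eq fun x => ?_
  obtain ⟨L, q, v, w⟩ := x
  simp only
  unfold dec_n1_base N1s
  simp only [dec_n1_vec_ix0 (q, v, w), dec_n1_vec_ix1 (q, v, w), dec_n1_vec_ix2 (q, v, w)]
  constructor
  · rintro ⟨S, ⟨a1, a2⟩, a3⟩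
    refine ⟨fun i j => S (dec_n1_ix i j), a1, a2, ?_⟩
    intro C' hC'
    unfold fin at hC'
    rw [List.mem_toFinset, List.mem_map] at hC'
    obtain ⟨C, hC, rfl⟩ := hC'
    obtain ⟨a, ha⟩ := a3 _ (List.mem_map.2 ⟨C, hC, rfl⟩)
    exact ⟨a, fun k hk => ha (0, k) (List.mem_map.2 ⟨k, List.mem_toFinset.1 hk, rfl⟩)⟩
  · rintro ⟨s, a1, a2, a3⟩
    have er : ∀ i, (fun j => dec_n1_row s (dec_n1_ix i j)) = s i :=
      fun i => funext fun j => dec_n1_row_ix s i j
    refine ⟨dec_n1_row s, ⟨?_, ?_⟩, ?_⟩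
    · intro i j hij
      rw [dec_n1_row_ix, dec_n1_row_ix]
      exact a1 i j hij
    · intro i
      rw [er]
      exact a2 i
    · intro C' hC'
      obtain ⟨C, hC, rfl⟩ := List.mem_map.1 hC'
      have hm : C.toFinset ∈ fin L := by
        unfold fin
        rw [List.mem_toFinset, List.mem_map]
        exact ⟨C, hC, rfl⟩
      obtain ⟨a, ha⟩ := a3 _ hm
      refine ⟨a, fun e he => ?_⟩
      obtain ⟨k, hk, rfl⟩ := List.mem_map.1 he
      show cut a (fun j => dec_n1_row s (dec_n1_ix a j)) (rv k) ≤ 0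
      rw [er]
      exact ha k (List.mem_toFinset.2 hk)

end Pool.Agent.MP2a1ef3.N3
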