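import Pool.Agent.Lib.MP_2a1ef3_lc.N3.Stm

set_option autoImplicit false

namespace Pool.Agent.MP2a1ef3.N3

open Filter
open Pool.Agent.Lib.MP42 (SA evMv evR evMv_apply evR_apply evAt_apply)

/-- polynomial functions -/
private def dec_n2p_PF {m d : ℕ} (g : (Fin m → ℝ) × (Fin d → ℝ) → ℝ) : Prop :=
  ∃ a, ∀ p, evMv d (evR m) a p = g p

private theorem dec_n2p_fst {m d : ℕ} (t : Fin m) :
    dec_n2p_PF (fun p : (Fin m → ℝ) × (Fin d → ℝ) => p.1 t) :=
  ⟨MvPolynomial.C (MvPolynomial.X t), fun p => by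
    rw [evMv_apply, MvPolynomial.eval₂_C, evAt_apply, evR_apply, MvPolynomial.aeval_X]⟩

private theorem dec_n2p_snd {m d : ℕ} (t : Fin d) :
    dec_n2p_PF (fun p : (Fin m → ℝ) × (Fin d → ℝ) => p.2 t) :=
  ⟨MvPolynomial.X t, fun p => by rw [evMv_apply, MvPolynomial.eval₂_X]⟩

private theorem dec_n2p_sub {m d : ℕ} {g h : (Fin m → ℝ) × (Fin d → ℝ) → ℝ}
    (hg : dec_n2p_PF g) (hh : dec_n2p_PF h) : dec_n2p_PF (fun p => g p - h p) := by
  obtain ⟨a, ha⟩ := hg
  obtain ⟨b, hb⟩ := hh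
  exact ⟨a - b, fun p => by rw [map_sub, Pi.sub_apply, ha, hb]⟩

private theorem dec_n2p_neg {m d : ℕ} {g : (Fin m → ℝ) × (Fin d → ℝ) → ℝ}
    (hg : dec_n2p_PF g) : dec_n2p_PF (fun p => - g p) := by
  obtain ⟨a, ha⟩ := hg
  exact ⟨- a, fun p => by rw [map_neg, Pi.neg_apply, ha]⟩

private theorem dec_n2p_mul {m d : ℕ} {g h : (Fin m → ℝ) × (Fin d → ℝ) → ℝ}
    (hg : dec_n2p_PF g) (hh : dec_n2p_PF h) : dec_n2p_PF (fun p => g p * h p) := by
  obtain ⟨a, ha⟩ := hg
  obtain ⟨b, hb⟩ := hh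
  exact ⟨a * b, fun p => by rw [map_mul, Pi.mul_apply, ha, hb]⟩

private theorem dec_n2p_sum {m d : ℕ} {ι : Type} (s : Finset ι)
    {g : ι → (Fin m → ℝ) × (Fin d → ℝ) → ℝ} (hg : ∀ i, dec_n2p_PF (g i)) :
    dec_n2p_PF (fun p => ∑ i ∈ s, g i p) := by
  choose a ha using hg
  refine ⟨∑ i ∈ s, a i, fun p => ?_⟩
  rw [map_sum, Finset.sum_apply]
  exact Finset.sum_congr rfl fun i _ => ha i p

private theorem dec_n2p_pos {m d : ℕ} {g : (Fin m → ℝ) × (Fin d → ℝ) → ℝ}
    (hg : dec_n2p_PF g) : SA (evMv d (evR m)) {p | 0 < g p} := by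
  obtain ⟨a, ha⟩ := hg
  have h := SA.pos (ev := evMv d (evR m)) a
  simpa only [ha] using h

private theorem dec_n2p_zero {m d : ℕ} {g : (Fin m → ℝ) × (Fin d → ℝ) → ℝ}
    (hg : dec_n2p_PF g) : SA (evMv d (evR m)) {p | g p = 0} := by
  obtain ⟨a, ha⟩ := hg
  have h := SA.eq_zero (ev := evMv d (evR m)) a
  simpa only [ha] using h

private theorem dec_n2p_nonneg {m d : ℕ} {g : (Fin m → ℝ) × (Fin d → ℝ) → ℝ}
    (hg : dec_n2p_PF g) : SA (evMv d (evR m)) {p | 0 ≤ g p} := by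
  obtain ⟨a, ha⟩ := hg
  have h := SA.nonneg (ev := evMv d (evR m)) a
  simpa only [ha] using h

private theorem dec_n2p_lex {m d : ℕ} {f g h : (Fin m → ℝ) × (Fin d → ℝ) → ℝ}
    (hf : dec_n2p_PF f) (hg : dec_n2p_PF g) (hh : dec_n2p_PF h) :
    SA (evMv d (evR m)) {p | lexpos (f p) (g p) (h p)} :=
  (dec_n2p_pos hf).union ((dec_n2p_zero hf).inter ((dec_n2p_pos hg).union
    ((dec_n2p_zero hg).inter (dec_n2p_pos hh))))

private theorem dec_n2p_cut {m : ℕ} (i : Fin 3) (e : Fin 3 → Fin m) :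
    dec_n2p_PF (fun p : (Fin m → ℝ) × (Fin 3 → ℝ) => cut i p.2 (fun j => p.1 (e j))) :=
  dec_n2p_sub (dec_n2p_sum _ fun j => dec_n2p_mul (dec_n2p_snd j) (dec_n2p_fst (e j)))
    (dec_n2p_fst (e i))

private theorem dec_n2p_lexconv {a b c a' b' c' α β : ℝ} (h : lexpos a b c) (h' : lexpos a' b' c')
    (hα : 0 ≤ α) (hβ : 0 ≤ β) (hs : α + β = 1) :
    lexpos (α * a + β * a') (α * b + β * b') (α * c + β * c') := by
  rcases hα.eq_or_lt with h1 | h1
  · rw [← h1, zero_add] at hs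
    rw [← h1, hs]
    simpa using h'
  · rcases hβ.eq_or_lt with h2 | h2
    · rw [← h2, add_zero] at hs
      rw [← h2, hs]
      simpa using h
    · unfold lexpos at h h' ⊢
      rcases h with h | ⟨rfl, h⟩
      · rcases h' with h' | ⟨rfl, h'⟩
        · left; positivity
        · left; have := mul_pos h1 h; linarith
      · rcases h' with h' | ⟨rfl, h'⟩
        · left; have := mul_pos h2 h'; linarith
        · right
          refine ⟨by ring, ?_⟩
          rcases h with h | ⟨rfl, h⟩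
          · rcases h' with h' | ⟨rfl, h'⟩
            · left; positivity
            · left; have := mul_pos h1 h; linarith
          · rcases h' with h' | ⟨rfl, h'⟩
            · left; have := mul_pos h2 h'; linarith
            · right
              exact ⟨by ring, by positivity⟩

private theorem dec_n2p_cutaff (i : Fin 3) (s s' x : R3) {α β : ℝ} (h : α + β = 1) :
    cut i (α • s + β • s') x = α * cut i s x + β * cut i s' x := by
  unfold cut
  have h1 : ∑ j ∈ Finset.univ.erase i, (α • s + β • s') j * x j =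
      α * ∑ j ∈ Finset.univ.erase i, s j * x j + β * ∑ j ∈ Finset.univ.erase i, s' j * x j := by
    rw [Finset.mul_sum, Finset.mul_sum, ← Finset.sum_add_distrib]
    apply Finset.sum_congr rfl
    intro j _
    simp only [Pi.add_apply, Pi.smul_apply, smul_eq_mul]
    ring
  rw [h1]
  linear_combination (x i) * h

/-- the index of a coordinate -/
private def dec_n2p_ix (a j : Fin 3) : Fin 9 := ⟨3 * a.1 + j.1, by omega⟩

/-- the parameters -/
private def dec_n2p_par (x : V × V × V) (t : Fin 9) : ℕ :=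
  if t.1 < 3 then x.1 ⟨t.1 % 3, by omega⟩ else
    if t.1 < 6 then x.2.1 ⟨t.1 % 3, by omega⟩ else x.2.2 ⟨t.1 % 3, by omega⟩

private theorem dec_n2p_par0 (x : V × V × V) (j : Fin 3) :
    dec_n2p_par x (dec_n2p_ix 0 j) = x.1 j := by
  fin_cases j <;> rfl

private theorem dec_n2p_par1 (x : V × V × V) (j : Fin 3) :
    dec_n2p_par x (dec_n2p_ix 1 j) = x.2.1 j := by
  fin_cases j <;> rfl

private theorem dec_n2p_par2 (x : V × V × V) (j : Fin 3) :
    dec_n2p_par x (dec_n2p_ix 2 j) = x.2.2 j := by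
  fin_cases j <;> rfl

private theorem dec_n2p_prim : Primrec (fun x : List (List V) × (V × V × V) =>
    ((x.1.map (fun C => C.map (fun k => ((0 : Fin 1), k))), dec_n2p_par x.2) :
      List (List (Fin 1 × V)) × (Fin 9 → ℕ))) := by
  refine Primrec.pair ?_ ?_
  · refine Primrec.list_map Primrec.fst ?_
    refine Primrec.list_map Primrec.snd ?_
    exact Primrec.pair (Primrec.const 0) Primrec.snd
  · rw [Primrec.fin_curry]
    apply Primrec₂.swap
    rw [Primrec.fin_curry₁]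
    intro t
    have hq : Primrec (fun x : List (List V) × (V × V × V) => x.2.1) :=
      Primrec.fst.comp Primrec.snd
    have hv : Primrec (fun x : List (List V) × (V × V × V) => x.2.2.1) :=
      Primrec.fst.comp (Primrec.snd.comp Primrec.snd)
    have hw : Primrec (fun x : List (List V) × (V × V × V) => x.2.2.2) :=
      Primrec.snd.comp (Primrec.snd.comp Primrec.snd)
    show Primrec (fun x : List (List V) × (V × V × V) => dec_n2p_par x.2 t)
    unfold dec_n2p_par
    by_cases h1 : t.1 < 3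
    · simp only [if_pos h1]
      exact Primrec.fin_app.comp hq (Primrec.const _)
    · simp only [if_neg h1]
      by_cases h2 : t.1 < 6
      · simp only [if_pos h2]
        exact Primrec.fin_app.comp hv (Primrec.const _)
      · simp only [if_neg h2]
        exact Primrec.fin_app.comp hw (Primrec.const _)

theorem p_dec_n2p (h1 : S_dt_main) : S_dec_n2p := by
  intro i
  have key := h1 (m := 9) (d := 3) (r := 1) (t := 1)
    (fun x s => (∀ j, j ≠ i → 0 ≤ s j) ∧
      lexpos (-cut i s (fun j => x (dec_n2p_ix 0 j))) (-cut i s (fun j => x (dec_n2p_ix 1 j)))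
        (-cut i s (fun j => x (dec_n2p_ix 2 j))))
    (fun _ _ k s => 0 ≤ cut i s k) ?_ ?_ ?_ ?_
  · refine (key.comp dec_n2p_prim).of_eq ?_
    rintro ⟨L, q, v, w⟩
    apply exists_congr
    intro s
    show (_ ∧ _) ∧ _ ↔ _ ∧ _ ∧ _
    rw [and_assoc]
    have e0 : (fun j => ((dec_n2p_par (q, v, w) (dec_n2p_ix 0 j) : ℕ) : ℝ)) = rv q := by
      funext j
      rw [dec_n2p_par0]
      rfl
    have e1 : (fun j => ((dec_n2p_par (q, v, w) (dec_n2p_ix 1 j) : ℕ) : ℝ)) = rv v := by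
      funext j
      rw [dec_n2p_par1]
      rfl
    have e2 : (fun j => ((dec_n2p_par (q, v, w) (dec_n2p_ix 2 j) : ℕ) : ℝ)) = rv w := by
      funext j
      rw [dec_n2p_par2]
      rfl
    rw [e0, e1, e2]
    apply and_congr Iff.rfl
    apply and_congr Iff.rfl
    unfold fin
    constructor
    · intro h C hC k hk
      rw [List.mem_toFinset, List.mem_map] at hC
      obtain ⟨C', hC', rfl⟩ := hC
      obtain ⟨_, h2⟩ := h _ (List.mem_map.2 ⟨C', hC', rfl⟩)
      exact h2 (0, k) (List.mem_map.2 ⟨k, List.mem_toFinset.1 hk, rfl⟩)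
    · intro h C hC
      obtain ⟨C', hC', rfl⟩ := List.mem_map.1 hC
      refine ⟨0, ?_⟩
      intro e he
      obtain ⟨k, hk, rfl⟩ := List.mem_map.1 he
      exact h C'.toFinset (List.mem_toFinset.2 (List.mem_map.2 ⟨C', hC', rfl⟩)) k
        (List.mem_toFinset.2 hk)
  · refine SA.inter ?_ (dec_n2p_lex (dec_n2p_neg (dec_n2p_cut i _)) (dec_n2p_neg (dec_n2p_cut i _))
      (dec_n2p_neg (dec_n2p_cut i _)))
    have h2 : {p : (Fin 9 → ℝ) × (Fin 3 → ℝ) | ∀ j, j ≠ i → 0 ≤ p.2 j} =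
        ⋂ j : Fin 3, {p | j ≠ i → 0 ≤ p.2 j} := by
      ext p
      simp
    show SA _ {p : (Fin 9 → ℝ) × (Fin 3 → ℝ) | ∀ j, j ≠ i → 0 ≤ p.2 j}
    rw [h2]
    apply SA.iInter_finite
    intro j
    by_cases hj : j = i
    · have h3 : {p : (Fin 9 → ℝ) × (Fin 3 → ℝ) | j ≠ i → 0 ≤ p.2 j} = Set.univ := by
        ext p
        simp [hj]
      rw [h3]
      exact SA.univ
    · have h3 : {p : (Fin 9 → ℝ) × (Fin 3 → ℝ) | j ≠ i → 0 ≤ p.2 j} = {p | 0 ≤ p.2 j} := by
        ext p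
        simp [hj]
      rw [h3]
      exact dec_n2p_nonneg (dec_n2p_snd j)
  · intro _ _
    exact dec_n2p_nonneg (dec_n2p_cut i id)
  · intro x s hs s' hs' α β hα hβ hαβ
    refine ⟨?_, ?_⟩
    · intro j hj
      have e1 := hs.1 j hj
      have e2 := hs'.1 j hj
      show 0 ≤ α * s j + β * s' j
      exact add_nonneg (mul_nonneg hα e1) (mul_nonneg hβ e2)
    · have h3 := dec_n2p_lexconv hs.2 hs'.2 hα hβ hαβ
      rw [dec_n2p_cutaff i s s' _ hαβ, dec_n2p_cutaff i s s' _ hαβ, dec_n2p_cutaff i s s' _ hαβ]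
      have e1 : ∀ u u' : ℝ, -(α * u + β * u') = α * (-u) + β * (-u') := by
        intro u u'
        ring
      rw [e1, e1, e1]
      exact h3
  · intro _ _ k s hs s' hs' α β hα hβ hαβ
    show 0 ≤ cut i (α • s + β • s') k
    rw [dec_n2p_cutaff i s s' _ hαβ]
    exact add_nonneg (mul_nonneg hα hs) (mul_nonneg hβ hs')

end Pool.Agent.MP2a1ef3.N3
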