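import Pool.Agent.Lib.MP_2a1ef3_lc.N3.Stm

set_option autoImplicit false

namespace Pool.Agent.MP2a1ef3.N3

open Filter

open Pool.Agent.Lib.MP42 in
/-- the functional `cut i s (x (g 0), x (g 1), x (g 2))` as a polynomial -/
private noncomputable def dec_n3_poly {m : ℕ} (i : Fin 3) (g : Fin 3 → Fin m) :
    MvPolynomial (Fin 3) (MvPolynomial (Fin m) ℚ) :=
  (∑ j ∈ Finset.univ.erase i, MvPolynomial.X j * MvPolynomial.C (MvPolynomial.X (g j))) -
    MvPolynomial.C (MvPolynomial.X (g i))

private theorem dec_n3_ev {m : ℕ} (i : Fin 3) (g : Fin 3 → Fin m)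
    (p : (Fin m → ℝ) × (Fin 3 → ℝ)) :
    Pool.Agent.Lib.MP42.evMv 3 (Pool.Agent.Lib.MP42.evR m) (dec_n3_poly i g) p =
      cut i p.2 (fun j => p.1 (g j)) := by
  rw [Pool.Agent.Lib.MP42.evMv_apply]
  unfold dec_n3_poly cut
  rw [MvPolynomial.eval₂_sub, MvPolynomial.eval₂_sum]
  simp only [MvPolynomial.eval₂_mul, MvPolynomial.eval₂_X, MvPolynomial.eval₂_C,
    Pool.Agent.Lib.MP42.evAt_apply, Pool.Agent.Lib.MP42.evR_apply, MvPolynomial.aeval_X]

private theorem dec_n3_cut_comb (i : Fin 3) (x s s' : R3) (a b : ℝ) (hab : a + b = 1) :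
    cut i (a • s + b • s') x = a * cut i s x + b * cut i s' x := by
  unfold cut
  have h1 : ∑ j ∈ Finset.univ.erase i, (a • s + b • s') j * x j =
      a * (∑ j ∈ Finset.univ.erase i, s j * x j) + b * (∑ j ∈ Finset.univ.erase i, s' j * x j) := by
    rw [Finset.mul_sum, Finset.mul_sum, ← Finset.sum_add_distrib]
    apply Finset.sum_congr rfl
    intro j _
    simp only [Pi.add_apply, Pi.smul_apply, smul_eq_mul]
    ring
  rw [h1]
  linear_combination (x i) * hab

private theorem dec_n3_cut_sum (i : Fin 3) (s : R3) (C : List V) :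
    cut i s (rv C.sum) = (C.map (fun k => cut i s (rv k))).sum := by
  induction C with
  | nil => simp [cut, rv]
  | cons k C ih =>
    rw [List.sum_cons, List.map_cons, List.sum_cons, ← ih]
    unfold cut rv
    simp only [Pi.add_apply, Nat.cast_add, mul_add, Finset.sum_add_distrib]
    ring

private theorem dec_n3_pos (C : List V) (f : V → ℝ) (h : ∀ k ∈ C, 0 ≤ f k) :
    0 < (C.map f).sum ↔ ∃ k ∈ C, 0 < f k := by
  induction C with
  | nil => simp
  | cons k C ih =>
    have h1 : ∀ k ∈ C, 0 ≤ f k := fun k hk => h k (List.mem_cons_of_mem _ hk)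
    have h2 := h k List.mem_cons_self
    have h3 : 0 ≤ (C.map f).sum := List.sum_nonneg (by
      intro y hy
      obtain ⟨k, hk, rfl⟩ := List.mem_map.1 hy
      exact h1 k hk)
    rw [List.map_cons, List.sum_cons]
    constructor
    · intro h4
      by_cases h5 : 0 < f k
      · exact ⟨k, List.mem_cons_self, h5⟩
      · obtain ⟨k', hk', h6⟩ := (ih h1).1 (by linarith)
        exact ⟨k', List.mem_cons_of_mem _ hk', h6⟩
    · rintro ⟨k', hk', h4⟩
      rcases List.mem_cons.1 hk' with rfl | hk'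
      · linarith
      · have := (ih h1).2 ⟨k', hk', h4⟩
        linarith

/-- the sign of the label -/
private def dec_n3_sg (a : Fin 2) : ℤ := if a = 0 then 1 else -1

private def dec_n3_base (i : Fin 3) (x : Fin 9 → ℝ) (s : Fin 3 → ℝ) : Prop :=
  (∀ j, j ≠ i → 0 ≤ s j) ∧ cut i s (fun j => x (![0, 1, 2] j)) = 0 ∧
    cut i s (fun j => x (![3, 4, 5] j)) = 0 ∧ cut i s (fun j => x (![6, 7, 8] j)) = 0

private def dec_n3_pt (i : Fin 3) (a e : Fin 2) (k : R3) (s : Fin 3 → ℝ) : Prop :=
  if e = 0 then 0 ≤ (dec_n3_sg a : ℝ) * cut i s k else 0 < (dec_n3_sg a : ℝ) * cut i s k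

private def dec_n3_vec (x : V × V × V) : Fin 9 → ℕ :=
  ![x.1 0, x.1 1, x.1 2, x.2.1 0, x.2.1 1, x.2.1 2, x.2.2 0, x.2.2 1, x.2.2 2]

private def dec_n3_list (L : List (List V)) : List (List (Fin 2 × V)) :=
  L.map (fun C => C.map (fun k => ((0 : Fin 2), k)) ++ [((1 : Fin 2), C.foldr (fun a b => a + b) 0)])

private theorem dec_n3_vec_primrec : Primrec dec_n3_vec := by
  rw [Primrec.fin_curry]
  have h : Primrec₂ (fun (n : Fin 9) (x : V × V × V) => dec_n3_vec x n) := by
    rw [Primrec.fin_curry₁]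
    have c1 : ∀ m : Fin 3, Primrec (fun x : V × V × V => x.1 m) :=
      fun m => Primrec.fin_app.comp Primrec.fst (Primrec.const m)
    have c2 : ∀ m : Fin 3, Primrec (fun x : V × V × V => x.2.1 m) :=
      fun m => Primrec.fin_app.comp (Primrec.fst.comp Primrec.snd) (Primrec.const m)
    have c3 : ∀ m : Fin 3, Primrec (fun x : V × V × V => x.2.2 m) :=
      fun m => Primrec.fin_app.comp (Primrec.snd.comp Primrec.snd) (Primrec.const m)
    intro n
    fin_cases n
    · exact c1 0
    · exact c1 1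
    · exact c1 2
    · exact c2 0
    · exact c2 1
    · exact c2 2
    · exact c3 0
    · exact c3 1
    · exact c3 2
  exact h.comp Primrec.snd Primrec.fst

private theorem dec_n3_add : Primrec₂ (fun (a b : V) => a + b) := by
  have h : Primrec (fun x : V × V => x.1 + x.2) := by
    rw [Primrec.fin_curry]
    have h : Primrec₂ (fun (n : Fin 3) (x : V × V) => (x.1 + x.2) n) := by
      rw [Primrec.fin_curry₁]
      intro n
      exact Primrec.nat_add.comp (Primrec.fin_app.comp Primrec.fst (Primrec.const n))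
        (Primrec.fin_app.comp Primrec.snd (Primrec.const n))
    exact h.comp Primrec.snd Primrec.fst
  exact h

private theorem dec_n3_list_primrec : Primrec dec_n3_list := by
  have h0 : Primrec (fun x : List (List V) × List V =>
      x.2.foldr (fun a b => a + b) (0 : V)) := by
    refine Primrec.list_foldr (f := fun x : List (List V) × List V => x.2)
      (g := fun _ => (0 : V)) (h := fun _ y => y.1 + y.2) Primrec.snd (Primrec.const (0 : V)) ?_
    exact dec_n3_add.comp (Primrec.fst.comp Primrec.snd) (Primrec.snd.comp Primrec.snd)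
  have h1 : Primrec (fun x : List (List V) × List V =>
      ((1 : Fin 2), x.2.foldr (fun a b => a + b) (0 : V))) :=
    Primrec.pair (Primrec.const 1) h0
  have hA : Primrec (fun x : List (List V) × List V => x.2.map (fun k => ((0 : Fin 2), k))) := by
    refine Primrec.list_map (f := fun x : List (List V) × List V => x.2)
      (g := fun _ k => ((0 : Fin 2), k)) Primrec.snd ?_
    have : Primrec (fun y : (List (List V) × List V) × V => ((0 : Fin 2), y.2)) :=
      Primrec.pair (Primrec.const 0) Primrec.snd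
    exact this
  have hB : Primrec (fun x : List (List V) × List V =>
      [((1 : Fin 2), x.2.foldr (fun a b => a + b) (0 : V))]) :=
    Primrec.list_cons.comp h1 (Primrec.const ([] : List (Fin 2 × V)))
  have hAB : Primrec (fun x : List (List V) × List V => x.2.map (fun k => ((0 : Fin 2), k)) ++
      [((1 : Fin 2), x.2.foldr (fun a b => a + b) (0 : V))]) := Primrec.list_append.comp hA hB
  exact Primrec.list_map Primrec.id hAB

theorem p_dec_n3 (h1 : S_dt_main) : S_dec_n3 := by
  intro i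
  have hb : Pool.Agent.Lib.MP42.SA (Pool.Agent.Lib.MP42.evMv 3 (Pool.Agent.Lib.MP42.evR 9))
      {p | dec_n3_base i p.1 p.2} := by
    have hcut : ∀ g : Fin 3 → Fin 9,
        Pool.Agent.Lib.MP42.SA (Pool.Agent.Lib.MP42.evMv 3 (Pool.Agent.Lib.MP42.evR 9))
        {p | cut i p.2 (fun j => p.1 (g j)) = 0} := by
      intro g
      have h := Pool.Agent.Lib.MP42.SA.eq_zero (ev := Pool.Agent.Lib.MP42.evMv 3
        (Pool.Agent.Lib.MP42.evR 9)) (dec_n3_poly i g)
      simp only [dec_n3_ev] at h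
      exact h
    have hpos : Pool.Agent.Lib.MP42.SA (Pool.Agent.Lib.MP42.evMv 3 (Pool.Agent.Lib.MP42.evR 9))
        {p : (Fin 9 → ℝ) × (Fin 3 → ℝ) | ∀ j, j ≠ i → 0 ≤ p.2 j} := by
      have h := Pool.Agent.Lib.MP42.SA.iInter_finite (ev := Pool.Agent.Lib.MP42.evMv 3
        (Pool.Agent.Lib.MP42.evR 9)) (fun j : Fin 3 =>
          {p : (Fin 9 → ℝ) × (Fin 3 → ℝ) | j ≠ i → 0 ≤ p.2 j}) (by
          intro j
          by_cases hj : j = i
          · have : {p : (Fin 9 → ℝ) × (Fin 3 → ℝ) | j ≠ i → 0 ≤ p.2 j} = Set.univ := by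
              ext p; simp [hj]
            rw [this]
            exact Pool.Agent.Lib.MP42.SA.univ
          · have h2 := Pool.Agent.Lib.MP42.SA.nonneg (ev := Pool.Agent.Lib.MP42.evMv 3
              (Pool.Agent.Lib.MP42.evR 9)) (MvPolynomial.X j)
            simp only [Pool.Agent.Lib.MP42.evMv_apply, MvPolynomial.eval₂_X] at h2
            have : {p : (Fin 9 → ℝ) × (Fin 3 → ℝ) | j ≠ i → 0 ≤ p.2 j} = {p | 0 ≤ p.2 j} := by
              ext p; simp [hj]
            rw [this]
            exact h2)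
      have : {p : (Fin 9 → ℝ) × (Fin 3 → ℝ) | ∀ j, j ≠ i → 0 ≤ p.2 j} =
          ⋂ j : Fin 3, {p : (Fin 9 → ℝ) × (Fin 3 → ℝ) | j ≠ i → 0 ≤ p.2 j} := by
        ext p; simp
      rw [this]
      exact h
    exact hpos.inter ((hcut _).inter ((hcut _).inter (hcut _)))
  have hp : ∀ a e, Pool.Agent.Lib.MP42.SA
      (Pool.Agent.Lib.MP42.evMv 3 (Pool.Agent.Lib.MP42.evR 3)) {p | dec_n3_pt i a e p.1 p.2} := by
    intro a e
    have hev : ∀ p : (Fin 3 → ℝ) × (Fin 3 → ℝ), Pool.Agent.Lib.MP42.evMv 3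
        (Pool.Agent.Lib.MP42.evR 3) ((dec_n3_sg a : MvPolynomial (Fin 3) (MvPolynomial (Fin 3) ℚ)) *
          dec_n3_poly i id) p = (dec_n3_sg a : ℝ) * cut i p.2 p.1 := by
      intro p
      rw [map_mul, map_intCast, Pi.mul_apply, dec_n3_ev]
      rfl
    unfold dec_n3_pt
    by_cases he : e = 0
    · simp only [he, if_true]
      have h := Pool.Agent.Lib.MP42.SA.nonneg (ev := Pool.Agent.Lib.MP42.evMv 3
        (Pool.Agent.Lib.MP42.evR 3)) ((dec_n3_sg a : MvPolynomial (Fin 3)
          (MvPolynomial (Fin 3) ℚ)) * dec_n3_poly i id)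
      simp only [hev] at h
      exact h
    · simp only [he, if_false]
      have h := Pool.Agent.Lib.MP42.SA.pos (ev := Pool.Agent.Lib.MP42.evMv 3
        (Pool.Agent.Lib.MP42.evR 3)) ((dec_n3_sg a : MvPolynomial (Fin 3)
          (MvPolynomial (Fin 3) ℚ)) * dec_n3_poly i id)
      simp only [hev] at h
      exact h
  have hcb : ∀ x, Convex ℝ {s | dec_n3_base i x s} := by
    intro x s hs s' hs' a b ha hb' hab
    obtain ⟨e1, e2, e3, e4⟩ := hs
    obtain ⟨f1, f2, f3, f4⟩ := hs'
    refine ⟨?_, ?_, ?_, ?_⟩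
    · intro j hj
      have := e1 j hj
      have := f1 j hj
      simp only [Pi.add_apply, Pi.smul_apply, smul_eq_mul]
      positivity
    · rw [dec_n3_cut_comb _ _ _ _ _ _ hab, e2, f2]; ring
    · rw [dec_n3_cut_comb _ _ _ _ _ _ hab, e3, f3]; ring
    · rw [dec_n3_cut_comb _ _ _ _ _ _ hab, e4, f4]; ring
  have hcp : ∀ a e k, Convex ℝ {s | dec_n3_pt i a e k s} := by
    intro a e k s hs s' hs' c d hc hd hcd
    unfold dec_n3_pt at *
    by_cases he : e = 0
    · simp only [he, if_true, Set.mem_ofPred_eq] at hs hs' ⊢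
      rw [dec_n3_cut_comb _ _ _ _ _ _ hcd]
      have e1 : (dec_n3_sg a : ℝ) * (c * cut i s k + d * cut i s' k) =
          c * ((dec_n3_sg a : ℝ) * cut i s k) + d * ((dec_n3_sg a : ℝ) * cut i s' k) := by ring
      rw [e1]
      positivity
    · simp only [he, if_false, Set.mem_ofPred_eq] at hs hs' ⊢
      rw [dec_n3_cut_comb _ _ _ _ _ _ hcd]
      have e1 : (dec_n3_sg a : ℝ) * (c * cut i s k + d * cut i s' k) =
          c * ((dec_n3_sg a : ℝ) * cut i s k) + d * ((dec_n3_sg a : ℝ) * cut i s' k) := by ring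
      rw [e1]
      rcases eq_or_lt_of_le hc with h | h
      · have hd1 : d = 1 := by linarith
        rw [← h, hd1]
        linarith
      · have := mul_pos h hs
        have := mul_nonneg hd hs'.le
        linarith
  have h2 := h1 (dec_n3_base i) (dec_n3_pt i) hb hp hcb hcp
  have h3 : Primrec (fun x : List (List V) × (V × V × V) => (dec_n3_list x.1, dec_n3_vec x.2)) :=
    Primrec.pair (dec_n3_list_primrec.comp Primrec.fst) (dec_n3_vec_primrec.comp Primrec.snd)
  have h4 := h2.comp h3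
  have hset : (fun x : List (List V) × (V × V × V) =>
      ∃ s, N3s (fin x.1) x.2.1 x.2.2.1 x.2.2.2 i s) =
      (fun x : List (List V) × (V × V × V) => ∃ s,
        dec_n3_base i (fun n => (((dec_n3_list x.1, dec_n3_vec x.2) :
          List (List (Fin 2 × V)) × (Fin 9 → ℕ)).2 n : ℝ)) s ∧
        ∀ C ∈ ((dec_n3_list x.1, dec_n3_vec x.2) : List (List (Fin 2 × V)) × (Fin 9 → ℕ)).1,
          ∃ a : Fin 2, ∀ e ∈ C, dec_n3_pt i a e.1 (rv e.2) s) := by
    funext x
    apply propext
    apply exists_congr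
    intro s
    have v1 : (fun j => ((dec_n3_vec x.2 (![0, 1, 2] j) : ℕ) : ℝ)) = rv x.2.1 := by
      ext j; fin_cases j <;> rfl
    have v2 : (fun j => ((dec_n3_vec x.2 (![3, 4, 5] j) : ℕ) : ℝ)) = rv x.2.2.1 := by
      ext j; fin_cases j <;> rfl
    have v3 : (fun j => ((dec_n3_vec x.2 (![6, 7, 8] j) : ℕ) : ℝ)) = rv x.2.2.2 := by
      ext j; fin_cases j <;> rfl
    have hC : ∀ C : List V, (∃ a : Fin 2, ∀ e ∈ C.map (fun k => ((0 : Fin 2), k)) ++
        [((1 : Fin 2), C.foldr (fun a b => a + b) 0)], dec_n3_pt i a e.1 (rv e.2) s) ↔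
        (((∀ k ∈ C, 0 ≤ cut i s (rv k)) ∧ ∃ k ∈ C, 0 < cut i s (rv k)) ∨
      ((∀ k ∈ C, cut i s (rv k) ≤ 0) ∧ ∃ k ∈ C, cut i s (rv k) < 0)) := by
      intro C
      have hfs : C.foldr (fun a b => a + b) 0 = C.sum := rfl
      have key : ∀ a : Fin 2, (∀ e ∈ C.map (fun k => ((0 : Fin 2), k)) ++
          [((1 : Fin 2), C.foldr (fun a b => a + b) 0)], dec_n3_pt i a e.1 (rv e.2) s) ↔
          ((∀ k ∈ C, 0 ≤ (dec_n3_sg a : ℝ) * cut i s (rv k)) ∧
            0 < (dec_n3_sg a : ℝ) * cut i s (rv C.sum)) := by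
        intro a
        rw [hfs]
        constructor
        · intro h
          refine ⟨fun k hk => ?_, ?_⟩
          · have := h (0, k) (List.mem_append_left _ (List.mem_map.2 ⟨k, hk, rfl⟩))
            simpa [dec_n3_pt] using this
          · have := h (1, C.sum) (List.mem_append_right _ (by simp))
            simpa [dec_n3_pt] using this
        · rintro ⟨h5, h6⟩ e he
          rcases List.mem_append.1 he with he | he
          · obtain ⟨k, hk, rfl⟩ := List.mem_map.1 he
            simpa [dec_n3_pt] using h5 k hk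
          · rw [List.mem_singleton] at he
            rw [he]
            simpa [dec_n3_pt] using h6
      have key2 : ∀ a : Fin 2, (∀ k ∈ C, 0 ≤ (dec_n3_sg a : ℝ) * cut i s (rv k)) →
          (0 < (dec_n3_sg a : ℝ) * cut i s (rv C.sum) ↔
            ∃ k ∈ C, 0 < (dec_n3_sg a : ℝ) * cut i s (rv k)) := by
        intro a h
        rw [← dec_n3_pos C _ h, dec_n3_cut_sum, ← List.sum_map_mul_left]
      constructor
      · rintro ⟨a, ha⟩
        rw [key] at ha
        obtain ⟨h5, h6⟩ := ha
        rw [key2 a h5] at h6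
        fin_cases a
        · left
          simpa [dec_n3_sg] using And.intro h5 h6
        · right
          simpa [dec_n3_sg] using And.intro h5 h6
      · rintro (⟨h5, h6⟩ | ⟨h5, h6⟩)
        · refine ⟨0, (key 0).2 ⟨?_, ?_⟩⟩
          · simpa [dec_n3_sg] using h5
          · rw [key2 0 (by simpa [dec_n3_sg] using h5)]
            simpa [dec_n3_sg] using h6
        · refine ⟨1, (key 1).2 ⟨?_, ?_⟩⟩
          · simpa [dec_n3_sg] using h5
          · rw [key2 1 (by simpa [dec_n3_sg] using h5)]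
            simpa [dec_n3_sg] using h6
    unfold N3s dec_n3_base
    simp only [v1, v2, v3]
    have hlast : (∀ C ∈ dec_n3_list x.1, ∃ a : Fin 2, ∀ e ∈ C, dec_n3_pt i a e.1 (rv e.2) s) ↔
        ∀ C ∈ fin x.1, ((∀ k ∈ C, 0 ≤ cut i s (rv k)) ∧ ∃ k ∈ C, 0 < cut i s (rv k)) ∨
      ((∀ k ∈ C, cut i s (rv k) ≤ 0) ∧ ∃ k ∈ C, cut i s (rv k) < 0) := by
      unfold dec_n3_list fin
      simp only [List.mem_map, List.mem_toFinset, forall_exists_index, and_imp,
        forall_apply_eq_imp_iff₂]
      apply forall_congr'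
      intro C
      apply imp_congr_right
      intro _
      exact hC C
    rw [hlast]
    tauto
  rw [hset]
  exact h4

end Pool.Agent.MP2a1ef3.N3
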