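import Pool.Agent.Lib.MP_2a1ef3_lc.N3.Stm

set_option autoImplicit false

namespace Pool.Agent.MP2a1ef3.N3

open Filter

private lemma dl_aux {ι : Type} [DecidableEq ι] (x : ι → ℝ) (s : Finset ι) :
    ∀ ε : ℝ, 0 < ε → ∃ y : ι → ℚ, (∀ i ∈ s, |x i - y i| < ε) ∧ ∀ (c : ι → ℚ) (d : ℚ),
      (∑ i ∈ s, (c i : ℝ) * x i) + d = 0 → (∑ i ∈ s, c i * y i) + d = 0 := by
  induction s using Finset.induction_on with
  | empty =>
    intro ε hε
    refine ⟨fun _ => 0, by simp, ?_⟩
    intro c d h
    simp only [Finset.sum_empty, zero_add] at h ⊢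
    exact_mod_cast h
  | insert a s ha ih =>
    intro ε hε
    by_cases hex : ∃ (e : ι → ℚ) (f : ℚ), x a = (∑ i ∈ s, (e i : ℝ) * x i) + f
    · obtain ⟨e, f, hxa⟩ := hex
      set K : ℝ := ∑ i ∈ s, |(e i : ℝ)| with hK
      have hK0 : 0 ≤ K := Finset.sum_nonneg (fun i _ => abs_nonneg _)
      have hK1 : 0 < K + 1 := by linarith
      obtain ⟨y, hy1, hy2⟩ := ih (min ε (ε / (K + 1))) (lt_min hε (div_pos hε hK1))
      set y' : ι → ℚ := Function.update y a ((∑ i ∈ s, e i * y i) + f) with hy'
      have hya : y' a = (∑ i ∈ s, e i * y i) + f := by simp [hy']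
      have hys : ∀ i ∈ s, y' i = y i := by
        intro i hi
        have : i ≠ a := by rintro rfl; exact ha hi
        simp [hy', this]
      refine ⟨y', ?_, ?_⟩
      · intro i hi
        rcases Finset.mem_insert.mp hi with rfl | hi
        · rw [hya, hxa]
          push_cast
          have e1 : (∑ j ∈ s, (e j : ℝ) * x j) + (f : ℝ) - ((∑ j ∈ s, (e j : ℝ) * (y j : ℝ)) + f) =
              ∑ j ∈ s, (e j : ℝ) * (x j - y j) := by
            rw [add_sub_add_right_eq_sub, ← Finset.sum_sub_distrib]
            exact Finset.sum_congr rfl (fun j _ => by ring)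
          rw [e1]
          calc |∑ j ∈ s, (e j : ℝ) * (x j - y j)| ≤ ∑ j ∈ s, |(e j : ℝ) * (x j - y j)| :=
                Finset.abs_sum_le_sum_abs _ _
            _ ≤ ∑ j ∈ s, |(e j : ℝ)| * (ε / (K + 1)) := by
                apply Finset.sum_le_sum
                intro j hj
                rw [abs_mul]
                exact mul_le_mul_of_nonneg_left
                  ((hy1 j hj).le.trans (min_le_right _ _)) (abs_nonneg _)
            _ = K * (ε / (K + 1)) := by rw [← Finset.sum_mul]
            _ < ε := by
                rw [mul_div_assoc', div_lt_iff₀ hK1]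
                nlinarith
        · rw [hys i hi]
          exact lt_of_lt_of_le (hy1 i hi) (min_le_left _ _)
      · intro c d h
        rw [Finset.sum_insert ha] at h ⊢
        rw [hya]
        have e1 : ∑ i ∈ s, c i * y' i = ∑ i ∈ s, c i * y i :=
          Finset.sum_congr rfl (fun i hi => by rw [hys i hi])
        rw [e1]
        have h2 : (∑ i ∈ s, ((c i + c a * e i : ℚ) : ℝ) * x i) + ((d + c a * f : ℚ) : ℝ) = 0 := by
          have e2 : ∑ i ∈ s, ((c i + c a * e i : ℚ) : ℝ) * x i =
              (∑ i ∈ s, (c i : ℝ) * x i) + c a * ∑ i ∈ s, (e i : ℝ) * x i := by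
            rw [Finset.mul_sum, ← Finset.sum_add_distrib]
            apply Finset.sum_congr rfl
            intro i _
            push_cast; ring
          rw [e2]
          push_cast
          rw [hxa] at h
          linarith
        have h3 := hy2 _ _ h2
        have e3 : ∑ i ∈ s, (c i + c a * e i) * y i =
            (∑ i ∈ s, c i * y i) + c a * ∑ i ∈ s, e i * y i := by
          rw [Finset.mul_sum, ← Finset.sum_add_distrib]
          apply Finset.sum_congr rfl
          intro i _
          ring
        rw [e3] at h3
        linarith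
    · obtain ⟨y, hy1, hy2⟩ := ih ε hε
      obtain ⟨r, hr1, hr2⟩ := exists_rat_btwn (sub_lt_self (x a) hε)
      set y' : ι → ℚ := Function.update y a r with hy'
      have hya : y' a = r := by simp [hy']
      have hys : ∀ i ∈ s, y' i = y i := by
        intro i hi
        have : i ≠ a := by rintro rfl; exact ha hi
        simp [hy', this]
      refine ⟨y', ?_, ?_⟩
      · intro i hi
        rcases Finset.mem_insert.mp hi with rfl | hi
        · rw [hya, abs_lt]; constructor <;> linarith
        · rw [hys i hi]; exact hy1 i hi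
      · intro c d h
        rw [Finset.sum_insert ha] at h ⊢
        have e1 : ∑ i ∈ s, c i * y' i = ∑ i ∈ s, c i * y i :=
          Finset.sum_congr rfl (fun i hi => by rw [hys i hi])
        rw [e1]
        have hca : c a = 0 := by
          by_contra hne
          apply hex
          have hne' : (c a : ℝ) ≠ 0 := by exact_mod_cast hne
          refine ⟨fun i => - c i / c a, - d / c a, ?_⟩
          have e2 : ∑ i ∈ s, ((- c i / c a : ℚ) : ℝ) * x i =
              - (∑ i ∈ s, (c i : ℝ) * x i) / c a := by
            rw [← Finset.sum_neg_distrib, Finset.sum_div]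
            apply Finset.sum_congr rfl
            intro i _
            push_cast; ring
          rw [e2]
          push_cast
          field_simp
          linarith
        rw [hca] at h ⊢
        have h2 : (∑ i ∈ s, (c i : ℝ) * x i) + (d : ℝ) = 0 := by
          simpa using h
        have := hy2 c d h2
        simpa using this

theorem p_dl : S_dl := by
  classical
  intro ι _ x ε hε
  obtain ⟨y, hy1, hy2⟩ := dl_aux x Finset.univ ε hε
  exact ⟨y, fun i => hy1 i (Finset.mem_univ i), hy2⟩

end Pool.Agent.MP2a1ef3.N3
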