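import Pool.Agent.Lib.MP_2a1ef3_lc.N3.Stm

/-!
# T3 dt_main: labelings and tuples
-/

set_option autoImplicit false

namespace Pool.Agent.MP2a1ef3.N3

open Filter

/-- [T3 dt_main] -/
theorem p_dt_main (h1 : S_sa_nat) (h2 : S_helly_pts) (h3 : S_mem_labs) (h4 : S_primrec_labs)
    (h5 : S_forall_tuple) (h6 : S_dt_tuple) : S_dt_main := by
  clear h1
  intro m d r t base pt hb hp hcb hcp
  have P1 : PrimrecPred (fun y : Fin m → ℕ => ∃ s, base (fun i => (y i : ℝ)) s) := by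
    have e1 := h6 (m := m) (d := d) (r := 1) (t := 1) base (fun _ _ _ _ => True) hb
      (fun a e => Pool.Agent.Lib.MP42.SA.univ)
    have e2 : Primrec (fun y : Fin m → ℕ =>
        ((fun _ => (0, 0, fun _ => 0) : Fin (d + 1) → Fin 1 × Fin 1 × V), y)) :=
      (Primrec.const _).pair Primrec.id
    exact (e1.comp e2).of_eq (fun y => by simp)
  have P2 : PrimrecPred (fun x : List (Fin t × Fin r × V) × (Fin m → ℕ) =>
      ∀ g : Fin (d + 1) → Fin t × Fin r × V, (∀ i, g i ∈ x.1) →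
        ∃ s, base (fun i => (x.2 i : ℝ)) s ∧
          ∀ i, pt (g i).1 (g i).2.1 (rv (g i).2.2) s) := h5 (h6 base pt hb hp)
  have P3 : PrimrecRel (fun (K : List (Fin t × Fin r × V)) (y : Fin m → ℕ) =>
      (∃ s, base (fun i => (y i : ℝ)) s) ∧
      ∀ g : Fin (d + 1) → Fin t × Fin r × V, (∀ i, g i ∈ K) →
        ∃ s, base (fun i => (y i : ℝ)) s ∧
          ∀ i, pt (g i).1 (g i).2.1 (rv (g i).2.2) s) := (P1.comp Primrec.snd).and P2
  have P5 := P3.exists_mem_list.comp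
    ((h4 (r := r) (t := t)).comp (Primrec.fst (α := List (List (Fin r × V))) (β := Fin m → ℕ)))
    Primrec.snd
  refine P5.of_eq (fun x => ?_)
  obtain ⟨L, y⟩ := x
  have e1 : ∀ K : List (Fin t × Fin r × V),
      ((∃ s, base (fun i => (y i : ℝ)) s) ∧
      ∀ g : Fin (d + 1) → Fin t × Fin r × V, (∀ i, g i ∈ K) →
        ∃ s, base (fun i => (y i : ℝ)) s ∧
          ∀ i, pt (g i).1 (g i).2.1 (rv (g i).2.2) s) ↔
      ∃ s, base (fun i => (y i : ℝ)) s ∧ ∀ z ∈ K, pt z.1 z.2.1 (rv z.2.2) s := fun K =>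
    (h2 K {s | base (fun i => (y i : ℝ)) s} (hcb _) (fun z => {s | pt z.1 z.2.1 (rv z.2.2) s})
      (fun z => hcp _ _ _)).symm
  constructor
  · rintro ⟨K, hK, h⟩
    obtain ⟨s, hs, h7⟩ := (e1 K).1 h
    exact ⟨s, hs, (h3 L (fun a e => pt a e.1 (rv e.2) s)).1 ⟨K, hK, h7⟩⟩
  · rintro ⟨s, hs, h7⟩
    obtain ⟨K, hK, h8⟩ := (h3 L (fun a e => pt a e.1 (rv e.2) s)).2 h7
    exact ⟨K, hK, (e1 K).2 ⟨s, hs, h8⟩⟩

end Pool.Agent.MP2a1ef3.N3
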