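import Pool.Agent.Lib.MP_2a1ef3_lc.N3.Stm

/-!
# MP_2a1ef3_lc, dimension three: piece `dt_tuple`
-/

set_option autoImplicit false

open Filter

namespace Pool.Agent.MP2a1ef3.N3

open Pool.Agent.Lib.MP42

private theorem dt_tuple_fin {α ι : Type} [Primcodable α] (s : Finset ι)
    {p : ι → α → Prop} (h : ∀ i, PrimrecPred (p i)) : PrimrecPred (fun x => ∃ i ∈ s, p i x) := by
  classical
  induction s using Finset.induction_on with
  | empty =>
    have h1 : PrimrecPred (fun _ : α => (0 : ℕ) = 1) :=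
      Primrec.eq.comp (Primrec.const 0) (Primrec.const 1)
    refine h1.of_eq fun x => ?_
    simp
  | insert a s _ ih =>
    refine ((h a).or ih).of_eq fun x => ?_
    rw [Finset.exists_mem_insert]

private theorem dt_tuple_comap {m M d : ℕ} (ι : Fin m → Fin M)
    {S : Set ((Fin m → ℝ) × (Fin d → ℝ))} (hS : SA (evMv d (evR m)) S) :
    SA (evMv d (evR M)) ((fun p : (Fin M → ℝ) × (Fin d → ℝ) => (fun i => p.1 (ι i), p.2)) ⁻¹' S) := by
  refine hS.comap (fun a => MvPolynomial.map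
    (MvPolynomial.rename ι : MvPolynomial (Fin m) ℚ →ₐ[ℚ] MvPolynomial (Fin M) ℚ).toRingHom a) _ ?_
  intro a y
  rw [evMv_apply, evMv_apply, MvPolynomial.eval₂_map]
  congr 1
  apply RingHom.ext
  intro p
  show evR M (MvPolynomial.rename ι p) y.1 = evR m p fun i => y.1 (ι i)
  rw [evR_apply, evR_apply, MvPolynomial.aeval_rename]
  rfl

theorem p_dt_tuple (h1 : S_sa_nat) : S_dt_tuple := by
  intro m d r t base pt hb hp
  classical
  obtain ⟨M, e⟩ : ∃ M, Nonempty (Fin m ⊕ (Fin (d + 1) × Fin 3) ≃ Fin M) :=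
    ⟨Fintype.card (Fin m ⊕ (Fin (d + 1) × Fin 3)), ⟨Fintype.equivFin _⟩⟩
  obtain ⟨e⟩ := e
  -- the parameters
  let P : (Fin (d + 1) → Fin t × Fin r × V) × (Fin m → ℕ) → Fin M → ℕ := fun x k =>
    Sum.elim x.2 (fun jc => (x.1 jc.1).2.2 jc.2) (e.symm k)
  have hP : Primrec P := by
    rw [Primrec.fin_curry]
    refine Primrec₂.swap (f := fun (k : Fin M) x => P x k) ?_
    rw [Primrec.fin_curry₁]
    intro k
    show Primrec fun x : (Fin (d + 1) → Fin t × Fin r × V) × (Fin m → ℕ) =>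
      Sum.elim x.2 (fun jc => (x.1 jc.1).2.2 jc.2) (e.symm k)
    rcases e.symm k with i | ⟨j, c⟩
    · exact Primrec.fin_app.comp Primrec.snd (Primrec.const i)
    · have h2 : Primrec fun x : (Fin (d + 1) → Fin t × Fin r × V) × (Fin m → ℕ) => x.1 j :=
        Primrec.fin_app.comp Primrec.fst (Primrec.const j)
      have h3 : Primrec fun x : (Fin (d + 1) → Fin t × Fin r × V) × (Fin m → ℕ) =>
          (x.1 j).2.2 := Primrec.snd.comp (Primrec.snd.comp h2)
      exact Primrec.fin_app.comp h3 (Primrec.const c)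
  -- the labels
  let lab : (Fin (d + 1) → Fin t × Fin r × V) × (Fin m → ℕ) → Fin (d + 1) → Fin t × Fin r :=
    fun x i => ((x.1 i).1, (x.1 i).2.1)
  have hlab : Primrec lab := by
    rw [Primrec.fin_curry]
    refine Primrec₂.swap (f := fun (k : Fin (d + 1)) x => lab x k) ?_
    rw [Primrec.fin_curry₁]
    intro k
    have h2 : Primrec fun x : (Fin (d + 1) → Fin t × Fin r × V) × (Fin m → ℕ) => x.1 k :=
      Primrec.fin_app.comp Primrec.fst (Primrec.const k)
    exact Primrec.pair (Primrec.fst.comp h2) (Primrec.fst.comp (Primrec.snd.comp h2))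
  -- the sets
  let SL : (Fin (d + 1) → Fin t × Fin r) → Set (Fin M → ℝ) := fun L =>
    Prod.fst '' ({p : (Fin M → ℝ) × (Fin d → ℝ) | base (fun i => p.1 (e (Sum.inl i))) p.2} ∩
      ⋂ i : Fin (d + 1), {p : (Fin M → ℝ) × (Fin d → ℝ) |
        pt (L i).1 (L i).2 (fun c => p.1 (e (Sum.inr (i, c)))) p.2})
  have hSL : ∀ L, SA (evR M) (SL L) := by
    intro L
    refine (cad_evR M).projMv continuous_evR d _ (SA.inter ?_ (SA.iInter_finite _ fun i => ?_))
    · exact dt_tuple_comap (fun i => e (Sum.inl i)) hb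
    · exact dt_tuple_comap (fun c => e (Sum.inr (i, c))) (hp (L i).1 (L i).2)
  have hfin := dt_tuple_fin (α := (Fin (d + 1) → Fin t × Fin r × V) × (Fin m → ℕ))
    (Finset.univ : Finset (Fin (d + 1) → Fin t × Fin r))
    (p := fun L x => lab x = L ∧ (fun k => (P x k : ℝ)) ∈ SL L)
    (fun L => (Primrec.eq.comp hlab (Primrec.const L)).and ((h1 (hSL L)).comp hP))
  refine hfin.of_eq fun x => ?_
  constructor
  · rintro ⟨L, -, hL, ⟨y, s⟩, ⟨hy1, hy2⟩, hy3⟩
    simp only at hy3
    subst hy3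
    subst hL
    rw [Set.mem_iInter] at hy2
    refine ⟨s, ?_, fun i => ?_⟩
    · have h2 : (fun i => ((P x (e (Sum.inl i)) : ℕ) : ℝ)) = fun i => (x.2 i : ℝ) := by
        funext i
        simp [P]
      rw [← h2]
      exact hy1
    · have h2 : (fun c => ((P x (e (Sum.inr (i, c))) : ℕ) : ℝ)) = rv (x.1 i).2.2 := by
        funext c
        simp [P, rv]
      rw [← h2]
      exact hy2 i
  · rintro ⟨s, hs1, hs2⟩
    refine ⟨lab x, Finset.mem_univ _, rfl, (fun k => (P x k : ℝ), s), ⟨?_, ?_⟩, rfl⟩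
    · have h2 : (fun i => ((P x (e (Sum.inl i)) : ℕ) : ℝ)) = fun i => (x.2 i : ℝ) := by
        funext i
        simp [P]
      show base (fun i => ((P x (e (Sum.inl i)) : ℕ) : ℝ)) s
      rw [h2]
      exact hs1
    · rw [Set.mem_iInter]
      intro i
      have h2 : (fun c => ((P x (e (Sum.inr (i, c))) : ℕ) : ℝ)) = rv (x.1 i).2.2 := by
        funext c
        simp [P, rv]
      show pt (lab x i).1 (lab x i).2 (fun c => ((P x (e (Sum.inr (i, c))) : ℕ) : ℝ)) s
      rw [h2]
      exact hs2 i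

end Pool.Agent.MP2a1ef3.N3
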