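import Pool.Agent.Lib.MP_2a1ef3_lc.N3.Stm

set_option autoImplicit false

namespace Pool.Agent.MP2a1ef3.N3

open Filter

private def edge1_cr (a b : R3) : R3 :=
  ![a 1 * b 2 - a 2 * b 1, a 2 * b 0 - a 0 * b 2, a 0 * b 1 - a 1 * b 0]

private lemma edge1_dp_cr (a b x : R3) : dp (edge1_cr a b) x = dt a b x := by
  simp [dp, edge1_cr, dt]; ring

private lemma edge1_ev_mem (CC : Finset (Finset V)) (i : Fin 3) : ev i ∈ VV CC := by
  fin_cases i <;> simp [VV]

private lemma edge1_Vk_sub {CC : Finset (Finset V)} {k : V} (hk : k ∈ Vk CC) : k ∈ VV CC :=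
  Finset.mem_union_left _ hk

private lemma edge1_par_ev {a z : R3} (h : ∀ i, dt a (rv (ev i)) z = 0) : Par a z := by
  have h0 := h 0
  have h1 := h 1
  have h2 := h 2
  simp [dt, rv, ev] at h0 h1 h2
  intro x
  have : dt a z x = (a 1 * z 2 - a 2 * z 1) * x 0 + (a 2 * z 0 - a 0 * z 2) * x 1 +
    (a 0 * z 1 - a 1 * z 0) * x 2 := by simp [dt]; ring
  have e0 : a 1 * z 2 - a 2 * z 1 = 0 := by linarith
  have e1 : a 2 * z 0 - a 0 * z 2 = 0 := by linarith
  have e2 : a 0 * z 1 - a 1 * z 0 = 0 := by linarith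
  rw [this, e0, e1, e2]; ring

private lemma edge1_par_swap {a z x : R3} (h : Par a z) : dt a x z = 0 := by
  have := h x
  have e : dt a x z = - dt a z x := by simp [dt]; ring
  rw [e, this, neg_zero]

private lemma edge1_sign_coord {CC : Finset (Finset V)} {z p : R3} (hs : SameSign CC z p)
    (j : Fin 3) : SignType.sign (z j) = SignType.sign (p j) := by
  have h01 := hs (ev 0) (edge1_ev_mem CC 0) (ev 1) (edge1_ev_mem CC 1)
  have h12 := hs (ev 1) (edge1_ev_mem CC 1) (ev 2) (edge1_ev_mem CC 2)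
  have h20 := hs (ev 2) (edge1_ev_mem CC 2) (ev 0) (edge1_ev_mem CC 0)
  simp [dt, rv, ev] at h01 h12 h20
  fin_cases j
  · simpa using h12
  · simpa using h20
  · simpa using h01

private lemma edge1_sign_comb {A B u v : ℝ} (hA : 0 ≤ A) (hB : 0 ≤ B) (h : 0 < A + B)
    (hs : SignType.sign u = SignType.sign v) :
    SignType.sign (A * u + B * v) = SignType.sign v := by
  rcases lt_trichotomy v 0 with hv | hv | hv
  · rw [sign_neg hv] at hs ⊢
    have hu : u < 0 := sign_eq_neg_one_iff.mp hs
    rw [sign_eq_neg_one_iff]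
    rcases hA.lt_or_eq with h1 | h1
    · have := mul_neg_of_pos_of_neg h1 hu
      have := mul_nonpos_of_nonneg_of_nonpos hB hv.le
      linarith
    · have hB' : 0 < B := by linarith
      have := mul_neg_of_pos_of_neg hB' hv
      rw [← h1]; linarith
  · rw [hv, sign_zero] at hs ⊢
    have hu : u = 0 := sign_eq_zero_iff.mp hs
    rw [hu]; simp
  · rw [sign_pos hv] at hs ⊢
    have hu : 0 < u := sign_eq_one_iff.mp hs
    rw [sign_eq_one_iff]
    rcases hA.lt_or_eq with h1 | h1
    · have := mul_pos h1 hu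
      have := mul_nonneg hB hv.le
      linarith
    · have hB' : 0 < B := by linarith
      have := mul_pos hB' hv
      rw [← h1]; linarith

theorem p_edge1 (h1 : S_edge_T) (h2 : S_edge_V) (h3 : S_lemmaX) (h4 : S_free_of_sameSign)
    (h5 : S_pin_of_sameSign) (h6 : S_ucov_corner) (h7 : S_ucov_free) (h8 : S_ucov_pin)
    (h9 : S_germ_lex) : S_edge1 := by
  classical
  intro CC hG F hF p hp hp0 hL hpk q x₁ w hq hy hx a b c hP h hc
  by_cases hab : ∃ j, a j = 0 ∧ b j = 0
  · obtain ⟨j, haj, hbj⟩ := hab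
    left
    filter_upwards [hF] with x hx'
    exact h1 h haj hbj (fun j => by
      have := hx' j
      show (0:ℝ) < (x j : ℝ)
      exact_mod_cast this)
  have hab' : ∀ j, ¬ (a j = 0 ∧ b j = 0) := fun j hj => hab ⟨j, hj⟩
  by_cases hkk : ∃ k ∈ VV CC, ∃ k' ∈ VV CC, ¬ Par (rv k) (rv k') ∧
      dt (rv a) (rv b) (rv k) = 0 ∧ dt (rv a) (rv b) (rv k') = 0
  · obtain ⟨k, hk, k', hk', hnp, e, e'⟩ := hkk
    left
    have := h2 (f := edge1_cr (rv a) (rv b)) hy hx hk hk' hnp (by rw [edge1_dp_cr]; exact e)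
      (by rw [edge1_dp_cr]; exact e')
      (by
        have h' : ∀ᶠ N : ℕ in atTop,
            0 < dp (edge1_cr (rv a) (rv b)) (rv (germ q x₁ w N)) := by
          filter_upwards [hc] with N hN
          rw [edge1_dp_cr]; exact hN
        exact h'.frequently)
    filter_upwards [this] with x hx'
    rw [edge1_dp_cr] at hx'; exact hx'
  by_cases hpp : 0 < dt (rv a) (rv b) p
  · left
    have := hL (edge1_cr (rv a) (rv b)) (by rw [edge1_dp_cr]; exact hpp)
    filter_upwards [this] with x hx'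
    rw [edge1_dp_cr] at hx'; exact hx'
  right
  have hq0 : 0 ≤ dt (rv a) (rv b) (rv q) := by
    have h' : ∀ᶠ N : ℕ in atTop,
        0 < dp (edge1_cr (rv a) (rv b)) (rv (germ q x₁ w N)) := by
      filter_upwards [hc] with N hN
      rw [edge1_dp_cr]; exact hN
    have hl := (h9 (f := edge1_cr (rv a) (rv b)) (q := q) (v := x₁) (w := w)).2 h'.frequently
    rw [edge1_dp_cr] at hl
    rcases hl with hl | ⟨hl, -⟩
    · exact hl.le
    · exact hl.ge
  push Not at hpp
  -- the point z
  obtain ⟨z, hzs, hzd, hzn⟩ : ∃ z : R3, SameSign CC z p ∧ dt (rv a) (rv b) z = 0 ∧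
      ∀ j, 0 ≤ z j := by
    by_cases hb0 : dt (rv a) (rv b) (rv q) = 0 ∧ dt (rv a) (rv b) p = 0
    · exact ⟨p, fun k _ k' _ => rfl, hb0.2, hp⟩
    · have hsum : 0 < - dt (rv a) (rv b) p + dt (rv a) (rv b) (rv q) := by
        by_contra hh
        apply hb0
        constructor <;> linarith
      refine ⟨(- dt (rv a) (rv b) p) • rv q + (dt (rv a) (rv b) (rv q)) • p, ?_, ?_, ?_⟩
      · intro k hk k' hk'
        have e : dt (rv k) (rv k') ((- dt (rv a) (rv b) p) • rv q +
            (dt (rv a) (rv b) (rv q)) • p) = (- dt (rv a) (rv b) p) * dt (rv k) (rv k') (rv q) +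
            (dt (rv a) (rv b) (rv q)) * dt (rv k) (rv k') p := by
          simp [dt]; ring
        rw [e]
        exact edge1_sign_comb (by linarith) hq0 hsum (hq k hk k' hk')
      · simp [dt]; ring
      · intro j
        simp only [Pi.add_apply, Pi.smul_apply, smul_eq_mul]
        have e1 : 0 ≤ (- dt (rv a) (rv b) p) * rv q j :=
          mul_nonneg (by linarith) (Nat.cast_nonneg _)
        have e2 := mul_nonneg hq0 (hp j)
        linarith
  have hz0 : z ≠ 0 := by
    rintro rfl
    apply hp0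
    funext j
    have := edge1_sign_coord hzs j
    simp only [Pi.zero_apply, sign_zero] at this
    simpa using sign_eq_zero_iff.mp this.symm
  have hz2 : ∀ k ∈ Vk CC, ¬ Par (rv k) z := by
    intro k hk hpar
    apply hpk k hk
    apply edge1_par_ev
    intro i
    have e := hzs k (edge1_Vk_sub hk) (ev i) (edge1_ev_mem CC i)
    rw [edge1_par_swap hpar, sign_zero] at e
    exact sign_eq_zero_iff.mp e.symm
  have hV : ∀ k ∈ Vk CC, ∀ k' ∈ Vk CC, dt (rv a) (rv b) (rv k) = 0 →
      dt (rv a) (rv b) (rv k') = 0 → Par (rv k) (rv k') := by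
    intro k hk k' hk' e e'
    by_contra hh
    exact hkk ⟨k, edge1_Vk_sub hk, k', edge1_Vk_sub hk', hh, e, e'⟩
  have hFP : Free CC p ∨ Pin CC p := by
    rcases h3 hG hP h hab' hzn hz0 hzd hz2 hV with hh | hh
    · exact Or.inl (h4 hp0 hzs hh)
    · exact Or.inr (h5 hzs hh)
  by_cases hcor : ∃ i, Par (rv (ev i)) p
  · obtain ⟨i, hi⟩ := hcor
    have hpe : ∀ j, j ≠ i → p j = 0 := by
      intro j hj
      have e0 := edge1_par_swap (x := rv (ev 0)) hi
      have e1 := edge1_par_swap (x := rv (ev 1)) hi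
      have e2 := edge1_par_swap (x := rv (ev 2)) hi
      fin_cases i <;> fin_cases j <;> simp [dt, rv, ev] at e0 e1 e2 hj ⊢ <;> assumption
    have hpi : 0 < p i := by
      refine lt_of_le_of_ne (hp i) (fun h0 => hp0 ?_)
      funext j
      by_cases hj : j = i
      · rw [hj, ← h0]; rfl
      · rw [hpe j hj]; rfl
    have hpeq : p = (p i) • rv (ev i) := by
      funext j
      by_cases hj : j = i
      · subst hj; simp [rv, ev]
      · rw [hpe j hj]; simp [rv, ev, Pi.single_apply, hj]
    refine h6 hF i ?_ ?_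
    · intro f hf
      apply hL f
      have e : dp f p = p i * dp f (rv (ev i)) := by
        conv_lhs => rw [hpeq]
        simp [dp]; ring
      rw [e]; exact mul_pos hpi hf
    · intro k hk hpar
      apply hpk k hk
      intro x
      have e : dt (rv k) p x = p i * dt (rv k) (rv (ev i)) x := by
        conv_lhs => rw [hpeq]
        simp [dt]; ring
      rw [e, hpar x, mul_zero]
  · push Not at hcor
    rcases hFP with hh | hh
    · exact h7 hF hp hcor hL hh
    · exact h8 hF hp hcor hL hh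

end Pool.Agent.MP2a1ef3.N3
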