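import Pool.Agent.Lib.MP_2a1ef3_lc.N3.Stm

set_option autoImplicit false

namespace Pool.Agent.MP2a1ef3.N3

open Filter

/-- The vector of the functional `dt a b`. -/
private def edge2_cr (a b : R3) : R3 :=
  ![a 1 * b 2 - a 2 * b 1, a 2 * b 0 - a 0 * b 2, a 0 * b 1 - a 1 * b 0]

private theorem edge2_dp_cr (a b x : R3) : dp (edge2_cr a b) x = dt a b x := by
  simp [dp, dt, edge2_cr]
  ring

private theorem edge2_ev_mem (CC : Finset (Finset V)) (i : Fin 3) : ev i ∈ VV CC := by
  unfold VV
  rw [Finset.mem_union]
  right
  fin_cases i <;> simp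

private theorem edge2_vk_mem {CC : Finset (Finset V)} {C : Finset V} (hC : C ∈ CC) {k : V}
    (hk : k ∈ C) : k ∈ Vk CC ∧ k ∈ VV CC := by
  have : k ∈ Vk CC := Finset.mem_biUnion.2 ⟨C, hC, hk⟩
  exact ⟨this, Finset.mem_union_left _ this⟩

private theorem edge2_smul {k k' : R3} (hk : k ≠ 0) (hp : Par k k') : ∃ c : ℝ, k' = c • k := by
  have e0 := hp ![1, 0, 0]
  have e1 := hp ![0, 1, 0]
  have e2 := hp ![0, 0, 1]
  simp only [dt, Matrix.cons_val_zero, Matrix.cons_val_one, Matrix.cons_val] at e0 e1 e2
  obtain ⟨i, hi⟩ : ∃ i, k i ≠ 0 := by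
    by_contra hcon
    push Not at hcon
    exact hk (funext hcon)
  refine ⟨k' i / k i, ?_⟩
  funext j
  simp only [Pi.smul_apply, smul_eq_mul]
  rw [div_mul_eq_mul_div, eq_div_iff hi]
  fin_cases i <;> fin_cases j <;> simp at * <;> linarith

/-- A functional that vanishes at `k` vanishes at parallel vectors. -/
private theorem edge2_par {k k' f : R3} (hk : k ≠ 0) (hp : Par k k') (hf : dp f k = 0) :
    dp f k' = 0 := by
  obtain ⟨c, rfl⟩ := edge2_smul hk hp
  have : dp f (c • k) = c * dp f k := by simp only [dp, Pi.smul_apply, smul_eq_mul]; ring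
  rw [this, hf, mul_zero]

private theorem edge2_rv_ne {k : V} (hk : k ≠ 0) : rv k ≠ 0 := by
  intro h
  apply hk
  funext j
  have := congrFun h j
  simpa [rv] using this

theorem p_edge2 (h1 : S_edge_T) (h2 : S_edge_V) (h3 : S_germ_lex) (h4 : S_line_lemma)
    (h5 : S_beyond_edge) (h6 : S_bey_a) (h7 : S_bey_b) (h8 : S_ucov_strip)
    (h9 : S_ucov_sector) : S_edge2 := by
  classical
  intro CC hI hG F hF k hk hk0 hL v hv hv' hkv hD hgen x₁ w hkx hy hx a b c hP hdet hc
  set h : R3 := edge2_cr (rv a) (rv b) with hh
  have hdp : ∀ x, dp h x = dt (rv a) (rv b) x := fun x => edge2_dp_cr _ _ _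
  have hrk0 : rv k ≠ 0 := by
    intro h
    apply hk0
    funext j
    have := congrFun h j
    simpa [rv] using this
  by_cases hT : ∃ j, a j = 0 ∧ b j = 0
  · obtain ⟨j, haj, hbj⟩ := hT
    left
    filter_upwards [hF] with x hx
    exact h1 hdet haj hbj (fun i => by simp only [rv]; exact_mod_cast hx i)
  push Not at hT
  have hab : ∀ j, ¬ (a j = 0 ∧ b j = 0) := fun j hj => hT j hj.1 hj.2
  have hc' : ∀ᶠ N : ℕ in atTop, 0 < dp h (rv (germ k x₁ w N)) := by
    simpa only [hdp] using hc
  have hcf : ∃ᶠ N : ℕ in atTop, 0 < dp h (rv (germ k x₁ w N)) := hc'.frequently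
  by_cases hVl : ∃ k' ∈ VV CC, ∃ k'' ∈ VV CC, ¬ Par (rv k') (rv k'') ∧ dp h (rv k') = 0 ∧
      dp h (rv k'') = 0
  · obtain ⟨k', hk', k'', hk'', hpar, h0, h0'⟩ := hVl
    left
    have := h2 hy hx hk' hk'' hpar h0 h0' hcf
    simpa only [hdp] using this
  have hlex := (h3 (f := h) (q := k) (v := x₁) (w := w)).2 hcf
  rcases hlex with hpos | ⟨hk00, hlex⟩
  · left
    have := hL h hpos
    simpa only [hdp] using this
  have hx1 : 0 ≤ dp h (rv x₁) := by
    rcases hlex with h | ⟨h, -⟩
    · exact h.le
    · exact h.ge
  by_cases hvpos : 0 < dp h v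
  · left
    have := hD h hk00 hvpos
    simpa only [hdp] using this
  push Not at hvpos
  -- the line lemma
  have hne : h ≠ 0 := by
    intro h0
    have : dp h (rv c) = 0 := by rw [h0]; simp [dp]
    rw [hdp] at this
    exact hdet.ne' this
  obtain ⟨ε, hε, hline⟩ := h4 hk00 hne hvpos hx1 hkv hkx
  have hsgn : ∀ k' ∈ VV CC, ¬ Par (rv k) (rv k') →
      0 < ε * dp h (rv k') * dt (rv k) v (rv k') := by
    intro k' hk' hpar
    have hgk := hgen k' hk' hpar
    refine hline _ hgk ?_
    -- signs
    set f : R3 := edge2_cr (rv k) (rv k') with hf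
    have hfd : ∀ x, dp f x = dt (rv k) (rv k') x := fun x => edge2_dp_cr _ _ _
    have hfk : dp f (rv k) = 0 := by rw [hfd]; simp only [dt]; ring
    have hkVV : k ∈ VV CC := Finset.mem_union_left _ hk
    rcases lt_or_gt_of_ne hgk with hlt | hgt
    · have hneg : ∀ᶠ x in (F : Filter V), 0 < dp (-f) (rv x) := by
        refine hD (-f) ?_ ?_
        · have : dp (-f) (rv k) = - dp f (rv k) := by simp only [dp, Pi.neg_apply]; ring
          rw [this, hfk, neg_zero]
        · have : dp (-f) v = - dp f v := by simp only [dp, Pi.neg_apply]; ring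
          rw [this, hfd]; linarith
      obtain ⟨x, hx1, hx2⟩ := (hneg.and hx).exists
      have hss := hx2 k hkVV k' hk'
      have h8' : dt (rv k) (rv k') (rv x) < 0 := by
        have : dp (-f) (rv x) = - dp f (rv x) := by simp only [dp, Pi.neg_apply]; ring
        rw [this, hfd] at hx1; linarith
      rw [sign_neg h8'] at hss
      rw [← hss, sign_neg hlt]
    · have hpos : ∀ᶠ x in (F : Filter V), 0 < dp f (rv x) := by
        refine hD f hfk ?_
        rw [hfd]; exact hgt
      obtain ⟨x, hx1, hx2⟩ := (hpos.and hx).exists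
      have hss := hx2 k hkVV k' hk'
      rw [hfd] at hx1
      rw [sign_pos hx1] at hss
      rw [← hss, sign_pos hgt]
  -- zeros of h in the black vectors are parallel to k
  have hzero : ∀ k' ∈ VV CC, dp h (rv k') = 0 → Par (rv k) (rv k') := by
    intro k' hk' h0
    by_contra hpar
    have := hsgn k' hk' hpar
    rw [h0] at this
    simp at this
  -- types
  have htype : ∀ C ∈ CC, (∀ k' ∈ C, dp h (rv k') ≤ 0) ∨
      (∀ k' ∈ C, 0 ≤ dp h (rv k') ∧ (dp h (rv k') = 0 → Par (rv b) (rv k'))) ∨
      (∀ k' ∈ C, 0 ≤ dp h (rv k') ∧ (dp h (rv k') = 0 → Par (rv a) (rv k'))) := by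
    intro C hC
    have ha : Bd a := hP.1 a (by simp)
    have hb : Bd b := hP.1 b (by simp)
    have hcc : Bd c := hP.1 c (by simp)
    rcases h5 ha hb hcc hdet (hG C hC) (hP.2.2 C hC) with h | h | h
    · left; intro k' hk'; rw [hdp]; exact h k' hk'
    · right; left
      intro k' hk'
      rw [hdp]
      exact h7 hb hdet hab (hG C hC) h k' hk'
    · right; right
      intro k' hk'
      rw [hdp]
      exact h6 ha hdet hab (hG C hC) h k' hk'
  set g₀ : R3 := fun i => ε * edge2_cr (rv k) v i with hg₀
  have hg₀d : ∀ x, dp g₀ x = ε * dt (rv k) v x := by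
    intro x
    rw [← edge2_dp_cr]
    simp only [dp, hg₀]; ring
  have hsame : ∀ k' ∈ VV CC, ¬ Par (rv k) (rv k') → 0 < dp h (rv k') * dp g₀ (rv k') := by
    intro k' hk' hpar
    have := hsgn k' hk' hpar
    rw [hg₀d]
    calc (0 : ℝ) < ε * dp h (rv k') * dt (rv k) v (rv k') := this
      _ = dp h (rv k') * (ε * dt (rv k) v (rv k')) := by ring
  right
  by_cases hkpos : Pos k
  · -- interior
    have hnpar : ∀ p : V, Bd p → p ≠ 0 → ¬ Par (rv k) (rv p) := by
      rintro p ⟨j, hj⟩ hp0 hpar
      obtain ⟨c, hc⟩ := edge2_smul hrk0 hpar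
      have hcj := congrFun hc j
      simp only [rv, hj, Nat.cast_zero, Pi.smul_apply, smul_eq_mul] at hcj
      have hkj : (0 : ℝ) < k j := by exact_mod_cast hkpos j
      have hc0 : c = 0 := by
        rcases mul_eq_zero.1 hcj.symm with h | h
        · exact h
        · linarith
      exact edge2_rv_ne hp0 (by rw [hc, hc0, zero_smul])
    have hi0 : ∀ i, g₀ i ≠ 0 := by
      intro i hi
      have hpar : ¬ Par (rv k) (rv (ev i)) := by
        refine hnpar (ev i) ?_ ?_
        · refine ⟨i + 1, ?_⟩
          fin_cases i <;> simp [ev]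
        · intro h
          have := congrFun h i
          simp [ev] at this
      have h8' := hsame (ev i) (edge2_ev_mem CC i) hpar
      have h9' : dp g₀ (rv (ev i)) = g₀ i := by
        fin_cases i <;> simp [dp, rv, ev]
      rw [h9', hi, mul_zero] at h8'
      exact lt_irrefl _ h8'
    refine h8 hF hkpos hL hkv hD (g := g₀) ?_ ?_ hi0 ?_
    · rw [hg₀d]; simp only [dt]; ring
    · rw [hg₀d]; simp only [dt]; ring
    · intro C hC
      have hane : a ≠ 0 := by
        rintro rfl
        simp [dt, rv] at hdet
      have hbne : b ≠ 0 := by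
        rintro rfl
        simp [dt, rv] at hdet
      have hpart : ∀ p : V, Bd p → p ≠ 0 → (∀ k' ∈ C, 0 ≤ dp h (rv k') ∧
          (dp h (rv k') = 0 → Par (rv p) (rv k'))) → ∀ k' ∈ C, 0 < dp g₀ (rv k') := by
        intro p hp hp0 hCk k' hk'
        obtain ⟨h10, h11⟩ := hCk k' hk'
        have hk'V := (edge2_vk_mem hC hk').2
        have hne0 : dp h (rv k') ≠ 0 := by
          intro h0
          have hpk' := h11 h0
          have hkk' := hzero k' hk'V h0
          have hk'0 : k' ≠ 0 := by
            rintro rfl
            exact (hI C hC).ne_zero ⟨0, hk'⟩ (by funext j; simp [rv])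
          obtain ⟨c1, hc1⟩ := edge2_smul (edge2_rv_ne hp0) hpk'
          obtain ⟨c2, hc2⟩ := edge2_smul hrk0 hkk'
          have hc10 : c1 ≠ 0 := by
            rintro rfl
            exact edge2_rv_ne hk'0 (by rw [hc1, zero_smul])
          have hpk : rv p = (c2 / c1) • rv k := by
            have : c1 • rv p = c2 • rv k := by rw [← hc1, ← hc2]
            funext j
            have := congrFun this j
            simp only [Pi.smul_apply, smul_eq_mul] at this ⊢
            field_simp
            linarith
          apply hnpar p hp hp0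
          intro x
          rw [hpk]
          simp only [dt, Pi.smul_apply, smul_eq_mul]
          ring
        have hpos' : 0 < dp h (rv k') := lt_of_le_of_ne h10 (Ne.symm hne0)
        have hnp : ¬ Par (rv k) (rv k') := by
          intro hpar
          exact hne0 (edge2_par hrk0 hpar hk00)
        have := hsame k' hk'V hnp
        exact (pos_iff_pos_of_mul_pos this).1 hpos'
      rcases htype C hC with h | h | h
      · left
        intro k' hk'
        by_cases hpar : Par (rv k) (rv k')
        · exact Or.inl hpar
        · right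
          have h10 := hsame k' (edge2_vk_mem hC hk').2 hpar
          have h11 := h k' hk'
          by_contra hcon
          push Not at hcon
          nlinarith
      · right
        exact hpart b (hP.1 b (by simp)) hbne h
      · right
        exact hpart a (hP.1 a (by simp)) hane h
  · -- boundary
    have hkBd : Bd k := by
      unfold Pos at hkpos
      push Not at hkpos
      obtain ⟨j, hj⟩ := hkpos
      exact ⟨j, by omega⟩
    have hkv0 : ∀ j, k j = 0 → v j ≠ 0 := by
      intro j hkj hvj
      obtain ⟨l, hl⟩ : ∃ l, k l ≠ 0 := by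
        by_contra hcon
        push Not at hcon
        exact hk0 (funext hcon)
      have hlj : l ≠ j := by rintro rfl; exact hl hkj
      obtain ⟨i, hij, hil⟩ : ∃ i : Fin 3, i ≠ j ∧ i ≠ l := by
        fin_cases j <;> fin_cases l <;> simp at hlj ⊢ <;> decide
      have hnp : ¬ Par (rv k) (rv (ev i)) := by
        intro hpar
        obtain ⟨c, hc⟩ := edge2_smul hrk0 hpar
        have h10 := congrFun hc l
        have h11 : rv (ev i) l = 0 := by simp [rv, ev, Pi.single_apply, Ne.symm hil]
        rw [h11] at h10
        simp only [Pi.smul_apply, smul_eq_mul] at h10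
        have hkl : rv k l ≠ 0 := by simp only [rv]; exact_mod_cast hl
        have hc0 : c = 0 := (mul_eq_zero.1 h10.symm).resolve_right hkl
        have h12 := congrFun hc i
        rw [hc0, zero_smul] at h12
        simp [rv, ev] at h12
      apply hgen (ev i) (edge2_ev_mem CC i) hnp
      have hkj' : rv k j = 0 := by simp [rv, hkj]
      have hej : rv (ev i) j = 0 := by simp [rv, ev, Pi.single_apply, Ne.symm hij]
      fin_cases j <;> simp only [dt] at * <;> simp only [Fin.zero_eta, Fin.mk_one, Fin.reduceFinMk,
        Fin.isValue] at hkj' hej hvj <;> rw [hkj', hej, hvj] <;> ring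
    have hvpos' : ∀ j, 0 < v j := by
      intro j
      rcases Nat.eq_zero_or_pos (k j) with h | h
      · exact lt_of_le_of_ne (hv j) (Ne.symm (hkv0 j h))
      · exact hv' j h
    refine h9 hL hv ?_ hD ⟨hk0, hkBd, hkv0, ?_⟩
    · intro i hpar
      have he0 : rv (ev i) ≠ 0 := edge2_rv_ne (by
        intro h
        have := congrFun h i
        simp [ev] at this)
      obtain ⟨c, hc⟩ := edge2_smul he0 hpar
      obtain ⟨l, hl⟩ : ∃ l : Fin 3, l ≠ i := by
        refine ⟨i + 1, ?_⟩
        fin_cases i <;> decide
      have h10 := congrFun hc l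
      have h11 : rv (ev i) l = 0 := by simp [rv, ev, Pi.single_apply, hl]
      simp only [Pi.smul_apply, h11, smul_eq_mul, mul_zero] at h10
      exact (hvpos' l).ne' h10
    · intro C hC
      have hsides : (∀ k' ∈ C, Par (rv k) (rv k') ∨ 0 < dp g₀ (rv k')) ∨
          (∀ k' ∈ C, Par (rv k) (rv k') ∨ dp g₀ (rv k') < 0) := by
        rcases htype C hC with h | h | h
        · right
          intro k' hk'
          by_cases hpar : Par (rv k) (rv k')
          · exact Or.inl hpar
          · right
            have h10 := hsame k' (edge2_vk_mem hC hk').2 hpar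
            have h11 := h k' hk'
            by_contra hcon
            push Not at hcon
            nlinarith
        · left
          intro k' hk'
          by_cases hpar : Par (rv k) (rv k')
          · exact Or.inl hpar
          · right
            have h10 := hsame k' (edge2_vk_mem hC hk').2 hpar
            have h11 := (h k' hk').1
            by_contra hcon
            push Not at hcon
            nlinarith
        · left
          intro k' hk'
          by_cases hpar : Par (rv k) (rv k')
          · exact Or.inl hpar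
          · right
            have h10 := hsame k' (edge2_vk_mem hC hk').2 hpar
            have h11 := (h k' hk').1
            by_contra hcon
            push Not at hcon
            nlinarith
      rcases hε with rfl | rfl
      · rcases hsides with h | h
        · left
          intro k' hk'
          refine (h k' hk').imp id (fun h => ?_)
          rw [hg₀d] at h; linarith
        · right
          intro k' hk'
          refine (h k' hk').imp id (fun h => ?_)
          rw [hg₀d] at h; linarith
      · rcases hsides with h | h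
        · right
          intro k' hk'
          refine (h k' hk').imp id (fun h => ?_)
          rw [hg₀d] at h; linarith
        · left
          intro k' hk'
          refine (h k' hk').imp id (fun h => ?_)
          rw [hg₀d] at h; linarith

end Pool.Agent.MP2a1ef3.N3
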