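import Pool.Agent.Lib.MP_2a1ef3_lc.N3.Stm

set_option autoImplicit false

namespace Pool.Agent.MP2a1ef3.N3

open Filter

private theorem edge_T_aux {m c x : ℝ} (hc : 0 ≤ c) (h : 0 < c * m) (hx : 0 < x) : 0 < x * m := by
  have hm : 0 < m := by
    by_contra hm
    push Not at hm
    have := mul_nonpos_of_nonneg_of_nonpos hc hm
    linarith
  exact mul_pos hx hm

theorem p_edge_T : S_edge_T := by
  intro a b c h j haj hbj x hx
  have ha : rv a j = 0 := by simp [rv, haj]
  have hb : rv b j = 0 := by simp [rv, hbj]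
  have hc : 0 ≤ rv c j := by simp [rv]
  fin_cases j
  · have ha : rv a 0 = 0 := ha
    have hb : rv b 0 = 0 := hb
    have hc : 0 ≤ rv c 0 := hc
    have e1 : dt (rv a) (rv b) (rv c) = rv c 0 * (rv a 1 * rv b 2 - rv a 2 * rv b 1) := by
      simp only [dt, ha, hb]
      ring
    have e2 : dt (rv a) (rv b) x = x 0 * (rv a 1 * rv b 2 - rv a 2 * rv b 1) := by
      simp only [dt, ha, hb]
      ring
    rw [e1] at h
    rw [e2]
    exact edge_T_aux hc h (hx 0)
  · have ha : rv a 1 = 0 := ha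
    have hb : rv b 1 = 0 := hb
    have hc : 0 ≤ rv c 1 := hc
    have e1 : dt (rv a) (rv b) (rv c) = rv c 1 * (rv a 2 * rv b 0 - rv a 0 * rv b 2) := by
      simp only [dt, ha, hb]
      ring
    have e2 : dt (rv a) (rv b) x = x 1 * (rv a 2 * rv b 0 - rv a 0 * rv b 2) := by
      simp only [dt, ha, hb]
      ring
    rw [e1] at h
    rw [e2]
    exact edge_T_aux hc h (hx 1)
  · have ha : rv a 2 = 0 := ha
    have hb : rv b 2 = 0 := hb
    have hc : 0 ≤ rv c 2 := hc
    have e1 : dt (rv a) (rv b) (rv c) = rv c 2 * (rv a 0 * rv b 1 - rv a 1 * rv b 0) := by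
      simp only [dt, ha, hb]
      ring
    have e2 : dt (rv a) (rv b) x = x 2 * (rv a 0 * rv b 1 - rv a 1 * rv b 0) := by
      simp only [dt, ha, hb]
      ring
    rw [e1] at h
    rw [e2]
    exact edge_T_aux hc h (hx 2)

end Pool.Agent.MP2a1ef3.N3
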