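import Pool.Agent.Lib.MP_2a1ef3_lc.N3.Stm

set_option autoImplicit false

namespace Pool.Agent.MP2a1ef3.N3

open Filter

private theorem exists_generic_aux (F : Ultrafilter V) (g : V → SignType) :
    ∃ s : SignType, ∀ᶠ x in (F : Filter V), g x = s := by
  have h : ∀ᶠ x in (F : Filter V), g x = -1 ∨ g x = 0 ∨ g x = 1 := by
    filter_upwards with x
    rcases g x with _ | _ | _
    · right; left; rfl
    · left; rfl
    · right; right; rfl
  rw [Ultrafilter.eventually_or, Ultrafilter.eventually_or] at h
  rcases h with h | h | h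
  · exact ⟨_, h⟩
  · exact ⟨_, h⟩
  · exact ⟨_, h⟩

theorem p_exists_generic : S_exists_generic := by
  intro CC F p hp
  choose s hs using fun (k k' : V) =>
    exists_generic_aux F (fun x => SignType.sign (dt (rv k) (rv k') (rv x)))
  have h1 : ∀ᶠ x in (F : Filter V), ∀ k ∈ VV CC, ∀ k' ∈ VV CC,
      SignType.sign (dt (rv k) (rv k') (rv x)) = s k k' := by
    rw [Filter.eventually_all_finset]
    intro k _
    rw [Filter.eventually_all_finset]
    intro k' _
    exact hs k k'
  obtain ⟨x₁, hx1, hx2⟩ := (hp.and h1).exists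
  refine ⟨x₁, hx1, ?_⟩
  filter_upwards [h1] with x hx k hk k' hk'
  rw [hx k hk k' hk', hx2 k hk k' hk']

end Pool.Agent.MP2a1ef3.N3
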