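import Pool.Agent.Lib.MP_2a1ef3_lc.N3.Stm

set_option autoImplicit false

namespace Pool.Agent.MP2a1ef3.N3

open Filter

private theorem exists_ind_ultra_erase {G : Finset V} {x : R3} {l : V → ℝ}
    (hl : ∀ p ∈ G, 0 ≤ l p) (hx : x = ∑ p ∈ G, l p • rv p) {p0 : V} (hp : p0 ∈ G)
    (h0 : l p0 = 0) : x ∈ ccone (G.erase p0) := by
  classical
  refine ⟨l, fun p hpe => hl p (Finset.mem_of_mem_erase hpe), ?_⟩
  rw [hx, ← Finset.add_sum_erase G _ hp, h0, zero_smul, zero_add]

/-- Caratheodory -/
private theorem exists_ind_ultra_car (n : ℕ) : ∀ (G : Finset V), G.card = n → ∀ (x : R3),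
    x ∈ ccone G → ∃ P ⊆ G, Ind P ∧ x ∈ ocone P := by
  classical
  induction n with
  | zero =>
    intro G hG x hx
    rw [Finset.card_eq_zero] at hG
    subst hG
    obtain ⟨l, _, hl⟩ := hx
    refine ⟨∅, Finset.Subset.refl _, ?_, l, by simp, hl⟩
    have : IsEmpty (∅ : Finset V) := ⟨fun p => absurd p.2 (Finset.notMem_empty _)⟩
    exact linearIndependent_empty_type
  | succ n ih =>
    intro G hG x hx
    obtain ⟨l, hl, hxl⟩ := hx
    -- a smaller cone suffices
    have hsm : ∀ p0 ∈ G, x ∈ ccone (G.erase p0) → ∃ P ⊆ G, Ind P ∧ x ∈ ocone P := by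
      intro p0 hp0 hx0
      obtain ⟨P, hP, h1, h2⟩ := ih (G.erase p0) (by rw [Finset.card_erase_of_mem hp0, hG]; rfl) x hx0
      exact ⟨P, hP.trans (Finset.erase_subset _ _), h1, h2⟩
    by_cases h0 : ∃ p0 ∈ G, l p0 = 0
    · obtain ⟨p0, hp0, h0⟩ := h0
      exact hsm p0 hp0 (exists_ind_ultra_erase hl hxl hp0 h0)
    · push Not at h0
      have hpos : ∀ p ∈ G, 0 < l p := fun p hp => lt_of_le_of_ne (hl p hp) (h0 p hp).symm
      by_cases hI : Ind G
      · exact ⟨G, Finset.Subset.refl _, hI, l, hpos, hxl⟩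
      · -- a relation
        obtain ⟨μ, hμ, p1, hp1, hμ1⟩ : ∃ μ : V → ℝ, ∑ p ∈ G, μ p • rv p = 0 ∧
            ∃ p ∈ G, 0 < μ p := by
          unfold Ind at hI
          rw [Fintype.not_linearIndependent_iff] at hI
          obtain ⟨g, hg, i, hi⟩ := hI
          have key : ∀ g : G → ℝ, ∑ i, g i • rv i.1 = 0 → ∀ i : G, 0 < g i →
              ∃ μ : V → ℝ, ∑ p ∈ G, μ p • rv p = 0 ∧ ∃ p ∈ G, 0 < μ p := by
            intro g hg i hi
            refine ⟨fun p => if h : p ∈ G then g ⟨p, h⟩ else 0, ?_, i.1, i.2, ?_⟩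
            · rw [← Finset.sum_coe_sort G]
              rw [← hg]
              apply Finset.sum_congr rfl
              intro j _
              show (if h : j.1 ∈ G then g ⟨j.1, h⟩ else 0) • rv j.1 = _
              rw [dif_pos j.2]
            · show 0 < (if h : i.1 ∈ G then g ⟨i.1, h⟩ else 0)
              rw [dif_pos i.2]
              exact hi
          rcases lt_or_gt_of_ne hi with h | h
          · apply key (fun i => -g i) _ i (by linarith)
            simp only [neg_smul, Finset.sum_neg_distrib, hg, neg_zero]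
          · exact key g hg i h
        obtain ⟨p0, hp0, hmin⟩ := Finset.exists_min_image (G.filter fun p => 0 < μ p)
          (fun p => l p / μ p) ⟨p1, by simp [hp1, hμ1]⟩
        rw [Finset.mem_filter] at hp0
        obtain ⟨hp0G, hμ0⟩ := hp0
        apply hsm p0 hp0G
        apply exists_ind_ultra_erase (l := fun p => l p - l p0 / μ p0 * μ p) (p0 := p0) _ _ hp0G
        · show l p0 - l p0 / μ p0 * μ p0 = 0
          rw [div_mul_cancel₀ _ hμ0.ne', sub_self]
        · intro p hp
          show 0 ≤ l p - l p0 / μ p0 * μ p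
          by_cases hμp : 0 < μ p
          · have h1 := hmin p (by simp [hp, hμp])
            rw [le_div_iff₀ hμp] at h1
            linarith
          · have h2 : 0 < l p0 / μ p0 := div_pos (hpos p0 hp0G) hμ0
            have h3 : l p0 / μ p0 * μ p ≤ 0 :=
              mul_nonpos_of_nonneg_of_nonpos h2.le (not_lt.1 hμp)
            have h4 := hl p hp
            linarith
        · have h1 : ∀ p ∈ G, (l p - l p0 / μ p0 * μ p) • rv p =
              l p • rv p - (l p0 / μ p0) • (μ p • rv p) := by
            intro p _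
            rw [sub_smul, mul_smul]
          rw [Finset.sum_congr rfl h1, Finset.sum_sub_distrib, ← Finset.smul_sum, hμ, smul_zero,
            sub_zero]
          exact hxl

theorem p_exists_ind_ultra : S_exists_ind_ultra := by
  intro G F h
  have h1 : ∀ᶠ x in (F : Filter V), ∃ P ∈ {P : Finset V | P ⊆ G}, Ind P ∧ rv x ∈ ocone P := by
    filter_upwards [h] with x hx
    exact exists_ind_ultra_car _ G rfl _ hx
  have hfin : {P : Finset V | P ⊆ G}.Finite := by
    have h2 : {P : Finset V | P ⊆ G} = (G.powerset : Set (Finset V)) := by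
      ext P
      simp
    rw [h2]
    exact Finset.finite_toSet _
  rw [Ultrafilter.eventually_exists_mem_iff hfin] at h1
  obtain ⟨P, hP, h2⟩ := h1
  refine ⟨P, hP, ?_, ?_⟩
  · obtain ⟨x, hx⟩ := h2.exists
    exact hx.1
  · exact h2.mono fun x hx => hx.2

end Pool.Agent.MP2a1ef3.N3
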