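import Pool.Agent.Lib.MP_2a1ef3_lc.N3.Stm

set_option autoImplicit false

namespace Pool.Agent.MP2a1ef3.N3

open Filter

private theorem germ_lex_dp (f : R3) (q v w : V) (N : ℕ) :
    dp f (rv (germ q v w N)) = (N : ℝ) ^ 2 * dp f (rv q) + (N : ℝ) * dp f (rv v) + dp f (rv w) := by
  simp only [dp, rv, germ]
  push_cast
  ring

private theorem germ_lex_pos {A B C : ℝ} (h : lexpos A B C) :
    ∀ᶠ N : ℕ in atTop, 0 < (N : ℝ) ^ 2 * A + (N : ℝ) * B + C := by
  rcases h with hA | ⟨hA, hB | ⟨hB, hC⟩⟩
  · obtain ⟨K, hK⟩ := exists_nat_ge ((|B| + |C|) / A + 1)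
    filter_upwards [eventually_ge_atTop K] with N hN
    have h1 : (|B| + |C|) / A + 1 ≤ (N : ℝ) := hK.trans (by exact_mod_cast hN)
    have h2 : |B| + |C| + A ≤ (N : ℝ) * A := by
      have h3 := mul_le_mul_of_nonneg_right h1 hA.le
      have h4 : ((|B| + |C|) / A + 1) * A = |B| + |C| + A := by field_simp
      linarith
    have h5 : (1 : ℝ) ≤ N := by
      have : 0 ≤ (|B| + |C|) / A := by positivity
      linarith
    have h6 : -|B| ≤ B := neg_abs_le B
    have h7 : -|C| ≤ C := neg_abs_le C
    have h8 : |C| + A ≤ (N : ℝ) * A + B := by linarith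
    have h9 : 0 ≤ |C| := abs_nonneg C
    have h10 : |C| + A ≤ (N : ℝ) * ((N : ℝ) * A + B) := by nlinarith
    nlinarith
  · obtain ⟨K, hK⟩ := exists_nat_ge (|C| / B + 1)
    filter_upwards [eventually_ge_atTop K] with N hN
    have h1 : |C| / B + 1 ≤ (N : ℝ) := hK.trans (by exact_mod_cast hN)
    have h2 : |C| + B ≤ (N : ℝ) * B := by
      have h3 := mul_le_mul_of_nonneg_right h1 hB.le
      have h4 : (|C| / B + 1) * B = |C| + B := by field_simp
      linarith
    have h7 : -|C| ≤ C := neg_abs_le C
    rw [hA]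
    linarith
  · filter_upwards with N
    rw [hA, hB]
    linarith

theorem p_germ_lex : S_germ_lex := by
  intro f q v w
  constructor
  · intro h
    filter_upwards [germ_lex_pos h] with N hN
    rw [germ_lex_dp]
    exact hN
  · intro h
    by_contra hn
    have hle : ∀ᶠ N : ℕ in atTop, ¬ 0 < dp f (rv (germ q v w N)) := by
      unfold lexpos at hn
      push Not at hn
      obtain ⟨h1, h2⟩ := hn
      rcases lt_or_eq_of_le h1 with h1 | h1
      · have h3 : lexpos (-dp f (rv q)) (-dp f (rv v)) (-dp f (rv w)) := Or.inl (by linarith)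
        filter_upwards [germ_lex_pos h3] with N hN
        rw [germ_lex_dp]
        intro h4
        linarith
      · obtain ⟨h4, h5⟩ := h2 h1
        rcases lt_or_eq_of_le h4 with h4 | h4
        · have h3 : lexpos (-dp f (rv q)) (-dp f (rv v)) (-dp f (rv w)) :=
            Or.inr ⟨by linarith, Or.inl (by linarith)⟩
          filter_upwards [germ_lex_pos h3] with N hN
          rw [germ_lex_dp]
          intro h4
          linarith
        · have h6 := h5 h4
          filter_upwards with N
          rw [germ_lex_dp, h1, h4]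
          intro h7
          linarith
    exact h hle

end Pool.Agent.MP2a1ef3.N3
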