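import Pool.Agent.Lib.MP_2a1ef3_lc.N3.Stm

set_option autoImplicit false

namespace Pool.Agent.MP2a1ef3.N3

open Filter

private theorem germ_span_rv (q v w : V) (N : ℕ) :
    rv (germ q v w N) = ((N : ℝ) ^ 2) • rv q + (N : ℝ) • rv v + rv w := by
  funext j
  simp only [rv, germ, Pi.add_apply, Pi.smul_apply, smul_eq_mul]
  push_cast
  ring

theorem p_germ_span : S_germ_span := by
  intro W q v w h
  rw [frequently_atTop] at h
  obtain ⟨N1, _, h1⟩ := h 0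
  obtain ⟨N2, hN2, h2⟩ := h (N1 + 1)
  obtain ⟨N3, hN3, h3⟩ := h (N2 + 1)
  rw [germ_span_rv] at h1 h2 h3
  have e12 : (0 : ℝ) < (N2 : ℝ) - N1 := by
    have : ((N1 + 1 : ℕ) : ℝ) ≤ N2 := by exact_mod_cast hN2
    push_cast at this
    linarith
  have e23 : (0 : ℝ) < (N3 : ℝ) - N2 := by
    have : ((N2 + 1 : ℕ) : ℝ) ≤ N3 := by exact_mod_cast hN3
    push_cast at this
    linarith
  have h4 : ((N2 : ℝ) + N1) • rv q + rv v ∈ W := by
    have h5 := W.smul_mem (((N2 : ℝ) - N1)⁻¹) (W.sub_mem h2 h1)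
    have h6 : ((N2 : ℝ) - N1)⁻¹ • (((N2 : ℝ) ^ 2) • rv q + (N2 : ℝ) • rv v + rv w -
        (((N1 : ℝ) ^ 2) • rv q + (N1 : ℝ) • rv v + rv w)) = ((N2 : ℝ) + N1) • rv q + rv v := by
      have h7 : ((N2 : ℝ) ^ 2) • rv q + (N2 : ℝ) • rv v + rv w -
          (((N1 : ℝ) ^ 2) • rv q + (N1 : ℝ) • rv v + rv w) =
          ((N2 : ℝ) - N1) • (((N2 : ℝ) + N1) • rv q + rv v) := by module
      rw [h7, smul_smul, inv_mul_cancel₀ e12.ne', one_smul]
    rwa [h6] at h5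
  have h4' : ((N3 : ℝ) + N2) • rv q + rv v ∈ W := by
    have h5 := W.smul_mem (((N3 : ℝ) - N2)⁻¹) (W.sub_mem h3 h2)
    have h6 : ((N3 : ℝ) - N2)⁻¹ • (((N3 : ℝ) ^ 2) • rv q + (N3 : ℝ) • rv v + rv w -
        (((N2 : ℝ) ^ 2) • rv q + (N2 : ℝ) • rv v + rv w)) = ((N3 : ℝ) + N2) • rv q + rv v := by
      have h7 : ((N3 : ℝ) ^ 2) • rv q + (N3 : ℝ) • rv v + rv w -
          (((N2 : ℝ) ^ 2) • rv q + (N2 : ℝ) • rv v + rv w) =
          ((N3 : ℝ) - N2) • (((N3 : ℝ) + N2) • rv q + rv v) := by module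
      rw [h7, smul_smul, inv_mul_cancel₀ e23.ne', one_smul]
    rwa [h6] at h5
  have e13 : (0 : ℝ) < (N3 : ℝ) - N1 := by linarith
  have hq : rv q ∈ W := by
    have h5 := W.smul_mem (((N3 : ℝ) - N1)⁻¹) (W.sub_mem h4' h4)
    have h7 : ((N3 : ℝ) + N2) • rv q + rv v - (((N2 : ℝ) + N1) • rv q + rv v) =
        ((N3 : ℝ) - N1) • rv q := by module
    rw [h7, smul_smul, inv_mul_cancel₀ e13.ne', one_smul] at h5
    exact h5
  have hv : rv v ∈ W := by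
    have h5 := W.sub_mem h4 (W.smul_mem ((N2 : ℝ) + N1) hq)
    rwa [add_sub_cancel_left] at h5
  have hw : rv w ∈ W := by
    have h5 := W.sub_mem h1 (W.add_mem (W.smul_mem ((N1 : ℝ) ^ 2) hq) (W.smul_mem (N1 : ℝ) hv))
    rwa [add_sub_cancel_left] at h5
  exact ⟨hq, hv, hw⟩

end Pool.Agent.MP2a1ef3.N3
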