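import Pool.Agent.Lib.MP_2a1ef3_lc.N3.Stm
import Pool.Agent.Lib.MP_2a1ef3_lc.N3.P.exists_ind_ultra
import Pool.Agent.Lib.MP_2a1ef3_lc.N3.P.germ_span
import Pool.Agent.Lib.MP_2a1ef3_lc.N3.P.germ_lex

set_option autoImplicit false

namespace Pool.Agent.MP2a1ef3.N3

open Filter

/-- Every linear functional is a dot product. -/
theorem exists_ind_germ_dual (φ : R3 →ₗ[ℝ] ℝ) : ∃ f : R3, ∀ x, dp f x = φ x := by
  refine ⟨fun i => φ (Pi.single i 1), fun x => ?_⟩
  rw [LinearMap.pi_apply_eq_sum_univ φ x, Fin.sum_univ_three]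
  have e : ∀ i : Fin 3, (fun j : Fin 3 => if i = j then (1 : ℝ) else 0) = Pi.single i 1 := by
    intro i
    funext j
    simp [Pi.single_apply, eq_comm]
  simp only [e, dp, smul_eq_mul]
  ring

/-- Coordinates with respect to an independent set, as functionals on the whole space. -/
theorem exists_ind_germ_coord {P : Finset V} (hI : LinearIndependent ℝ (fun p : P => rv p.1)) :
    ∃ f : V → R3, ∀ x ∈ Submodule.span ℝ (Set.range (fun p : P => rv p.1)),
      x = ∑ p ∈ P, dp (f p) x • rv p := by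
  classical
  have h1 : ∀ p : P, ∃ f : R3, ∀ x : Submodule.span ℝ (Set.range (fun p : P => rv p.1)),
      dp f x.1 = hI.repr x p := by
    intro p
    obtain ⟨g, hg⟩ := LinearMap.exists_extend ((Finsupp.lapply p).comp hI.repr)
    obtain ⟨f, hf⟩ := exists_ind_germ_dual g
    refine ⟨f, fun x => ?_⟩
    rw [hf]
    have h2 := LinearMap.congr_fun hg x
    exact h2
  choose f hf using h1
  refine ⟨fun p => if h : p ∈ P then f ⟨p, h⟩ else 0, fun x hx => ?_⟩
  have h3 := hI.linearCombination_repr ⟨x, hx⟩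
  have h4 : ∑ p : P, hI.repr ⟨x, hx⟩ p • rv p.1 = x := by
    rw [Finsupp.linearCombination_apply,
      Finsupp.sum_fintype _ (fun (i : P) (a : ℝ) => a • rv i.1) (fun i => zero_smul ℝ _)] at h3
    exact h3
  rw [← Finset.sum_coe_sort P]
  conv_lhs => rw [← h4]
  refine Finset.sum_congr rfl (fun p _ => ?_)
  rw [← hf p ⟨x, hx⟩]
  simp only [dif_pos p.2]

theorem p_exists_ind_germ : S_exists_ind_germ := by
  classical
  intro G q v w h
  let F : Ultrafilter V := (Ultrafilter.of atTop).map (germ q v w)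
  have hF : ∀ p : V → Prop, (∀ᶠ N : ℕ in atTop, p (germ q v w N)) → ∀ᶠ x in (F : Filter V), p x := by
    intro p hp
    exact (Ultrafilter.of_le (f := (atTop : Filter ℕ))) hp
  obtain ⟨P, hPG, hI, hP⟩ := p_exists_ind_ultra (G := G) (F := F) (hF _ h)
  have hfr : ∃ᶠ N : ℕ in atTop, rv (germ q v w N) ∈ ocone P := by
    intro hn
    have h2 := hF (fun x => rv x ∉ ocone P) hn
    obtain ⟨x, hx1, hx2⟩ := (hP.and h2).exists
    exact hx2 hx1
  refine ⟨P, hPG, hI, ?_⟩
  set W := Submodule.span ℝ (Set.range (fun p : P => rv p.1)) with hW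
  have hmem : ∀ x ∈ ocone P, x ∈ W := by
    rintro x ⟨l, _, rfl⟩
    refine Submodule.sum_mem _ (fun p hp => Submodule.smul_mem _ _ ?_)
    exact Submodule.subset_span ⟨⟨p, hp⟩, rfl⟩
  obtain ⟨hq, hv, hw⟩ := p_germ_span (W := W) (hfr.mono (fun N hN => hmem _ hN))
  have hall : ∀ N, rv (germ q v w N) ∈ W := by
    intro N
    have e : rv (germ q v w N) = ((N : ℝ) ^ 2) • rv q + (N : ℝ) • rv v + rv w := by
      funext j
      simp only [rv, germ, Pi.add_apply, Pi.smul_apply, smul_eq_mul]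
      push_cast
      ring
    rw [e]
    exact W.add_mem (W.add_mem (W.smul_mem _ hq) (W.smul_mem _ hv)) hw
  obtain ⟨f, hf⟩ := exists_ind_germ_coord hI
  have huniq : ∀ x ∈ ocone P, ∀ p ∈ P, 0 < dp (f p) x := by
    rintro x ⟨l, hl, hx⟩ p hp
    have h5 := hf x (hmem x ⟨l, hl, hx⟩)
    have h6 : ∑ p ∈ P, (dp (f p) x - l p) • rv p = 0 := by
      simp only [sub_smul, Finset.sum_sub_distrib]
      rw [← h5, ← hx, sub_self]
    have h7 : ∑ p : P, (dp (f p.1) x - l p.1) • rv p.1 = 0 := by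
      rw [Finset.sum_coe_sort P (fun p => (dp (f p) x - l p) • rv p)]
      exact h6
    have h8 := Fintype.linearIndependent_iff.mp hI (fun p => dp (f p.1) x - l p.1) h7 ⟨p, hp⟩
    have h9 := hl p hp
    simp only at h8
    linarith
  have hev : ∀ p ∈ P, ∀ᶠ N : ℕ in atTop, 0 < dp (f p) (rv (germ q v w N)) := by
    intro p hp
    refine (p_germ_lex (f := f p) (q := q) (v := v) (w := w)).1
      ((p_germ_lex (f := f p) (q := q) (v := v) (w := w)).2 ?_)
    exact hfr.mono (fun N hN => huniq _ hN p hp)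
  have hev2 : ∀ᶠ N : ℕ in atTop, ∀ p ∈ P, 0 < dp (f p) (rv (germ q v w N)) := by
    rw [Finset.eventually_all]
    exact hev
  filter_upwards [hev2] with N hN
  exact ⟨fun p => dp (f p) (rv (germ q v w N)), hN, hf _ (hall N)⟩

end Pool.Agent.MP2a1ef3.N3
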