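import Pool.Agent.Lib.MP_2a1ef3_lc.N3.Stm

set_option autoImplicit false

namespace Pool.Agent.MP2a1ef3.N3

open Filter

private noncomputable def exists_lim_g (x : V) : R3 :=
  ((rv x 0 + rv x 1 + rv x 2)⁻¹) • rv x

theorem p_exists_lim : S_exists_lim := by
  intro F hF
  have hpos : ∀ᶠ x in (F : Filter V), 0 < rv x 0 + rv x 1 + rv x 2 := by
    filter_upwards [hF] with x hx
    have h0 : (0 : ℝ) < rv x 0 := by
      have := hx 0
      simp only [rv]
      exact_mod_cast this
    have h1 : (0 : ℝ) ≤ rv x 1 := by simp [rv]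
    have h2 : (0 : ℝ) ≤ rv x 2 := by simp [rv]
    linarith
  have hcomp : IsCompact (Set.Icc (0 : R3) 1) := isCompact_Icc
  have hmem : ∀ᶠ x in (F : Filter V), exists_lim_g x ∈ Set.Icc (0 : R3) 1 := by
    filter_upwards [hpos] with x hx
    have h0 : (0 : ℝ) ≤ rv x 0 := by simp [rv]
    have h1 : (0 : ℝ) ≤ rv x 1 := by simp [rv]
    have h2 : (0 : ℝ) ≤ rv x 2 := by simp [rv]
    constructor
    · intro j
      show 0 ≤ (rv x 0 + rv x 1 + rv x 2)⁻¹ * rv x j
      have : (0 : ℝ) ≤ rv x j := by simp [rv]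
      positivity
    · intro j
      show (rv x 0 + rv x 1 + rv x 2)⁻¹ * rv x j ≤ 1
      rw [inv_mul_le_iff₀ hx, mul_one]
      fin_cases j
      · show rv x 0 ≤ _
        linarith
      · show rv x 1 ≤ _
        linarith
      · show rv x 2 ≤ _
        linarith
  obtain ⟨p, hpI, hp⟩ := hcomp.ultrafilter_le_nhds' (F.map exists_lim_g) hmem
  have ht : Tendsto exists_lim_g (F : Filter V) (nhds p) := hp
  have hsum : p 0 + p 1 + p 2 = 1 := by
    have h1 : Tendsto (fun x => exists_lim_g x 0 + exists_lim_g x 1 + exists_lim_g x 2)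
        (F : Filter V) (nhds (p 0 + p 1 + p 2)) := by
      have hc : Continuous (fun y : R3 => y 0 + y 1 + y 2) := by fun_prop
      exact (hc.tendsto p).comp ht
    have h2 : Tendsto (fun x => exists_lim_g x 0 + exists_lim_g x 1 + exists_lim_g x 2)
        (F : Filter V) (nhds 1) := by
      apply tendsto_const_nhds.congr'
      filter_upwards [hpos] with x hx
      show 1 = (rv x 0 + rv x 1 + rv x 2)⁻¹ * rv x 0 + (rv x 0 + rv x 1 + rv x 2)⁻¹ * rv x 1 +
        (rv x 0 + rv x 1 + rv x 2)⁻¹ * rv x 2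
      rw [← mul_add, ← mul_add, inv_mul_cancel₀ hx.ne']
    exact tendsto_nhds_unique h1 h2
  refine ⟨p, fun j => hpI.1 j, ?_, ?_⟩
  · intro h0
    rw [h0] at hsum
    simp at hsum
  · intro f hf
    have h1 : Tendsto (fun x => dp f (exists_lim_g x)) (F : Filter V) (nhds (dp f p)) := by
      have hc : Continuous (fun y : R3 => dp f y) := by
        unfold dp
        fun_prop
      exact (hc.tendsto p).comp ht
    filter_upwards [h1.eventually_const_lt hf, hpos] with x hx1 hx2
    have h2 : dp f (exists_lim_g x) = (rv x 0 + rv x 1 + rv x 2)⁻¹ * dp f (rv x) := by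
      simp only [dp, exists_lim_g, Pi.smul_apply, smul_eq_mul]
      ring
    rw [h2] at hx1
    exact (mul_pos_iff_of_pos_left (inv_pos.2 hx2)).1 hx1

end Pool.Agent.MP2a1ef3.N3
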