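import Pool.Agent.Lib.MP_2a1ef3_lc.N3.Stm

/-!
# MP_2a1ef3_lc, dimension three: rational directions near a direction (piece `exists_near`)
-/

set_option autoImplicit false

namespace Pool.Agent.MP2a1ef3.N3

open Filter

/-- rational points near `p` with the rational relations of `p` -/
private theorem exists_near_rat (p : R3) (ε : ℝ) (hε : 0 < ε) :
    ∃ y : Fin 3 → ℚ, (∀ i, |p i - y i| < ε) ∧ ∀ c : Fin 3 → ℚ,
      ∑ i, (c i : ℝ) * p i = 0 → ∑ i, (c i : ℝ) * (y i : ℝ) = 0 := by
  classical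
  have hmem : ∀ i, p i ∈ Submodule.span ℚ (Set.range p) := fun i =>
    Submodule.subset_span ⟨i, rfl⟩
  have hfin : Module.Finite ℚ (Submodule.span ℚ (Set.range p)) :=
    Module.Finite.span_of_finite ℚ (Set.finite_range p)
  let b := Module.finBasis ℚ (Submodule.span ℚ (Set.range p))
  obtain ⟨c₀, hc₀⟩ : ∃ c₀ : Fin 3 → Fin _ → ℚ, c₀ = fun i l => b.repr ⟨p i, hmem i⟩ l :=
    ⟨_, rfl⟩
  have hp : ∀ i, p i = ∑ l, (c₀ i l : ℝ) * ((b l : Submodule.span ℚ (Set.range p)) : ℝ) := by
    intro i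
    have h := b.sum_repr ⟨p i, hmem i⟩
    have h' := congrArg (fun z : Submodule.span ℚ (Set.range p) => (z : ℝ)) h
    simp only at h'
    rw [← h', AddSubmonoidClass.coe_finsetSum]
    refine Finset.sum_congr rfl fun l _ => ?_
    rw [hc₀, Submodule.coe_smul, Rat.smul_def]
  obtain ⟨K, hK⟩ : ∃ K : ℝ, K = 1 + ∑ i, ∑ l, |(c₀ i l : ℝ)| := ⟨_, rfl⟩
  have hK0 : 0 < K := by
    have : 0 ≤ ∑ i, ∑ l, |(c₀ i l : ℝ)| :=
      Finset.sum_nonneg fun i _ => Finset.sum_nonneg fun l _ => abs_nonneg _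
    linarith
  have hδ : 0 < ε / K := div_pos hε hK0
  have hex : ∀ l, ∃ r : ℚ, |((b l : Submodule.span ℚ (Set.range p)) : ℝ) - r| < ε / K := by
    intro l
    obtain ⟨r, hr1, hr2⟩ := exists_rat_btwn
      (show ((b l : Submodule.span ℚ (Set.range p)) : ℝ) - ε / K <
        ((b l : Submodule.span ℚ (Set.range p)) : ℝ) by linarith)
    exact ⟨r, by rw [abs_lt]; constructor <;> linarith⟩
  choose r hr using hex
  refine ⟨fun i => ∑ l, c₀ i l * r l, fun i => ?_, fun c hc => ?_⟩
  · rw [hp i]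
    push_cast
    rw [← Finset.sum_sub_distrib]
    refine lt_of_le_of_lt (Finset.abs_sum_le_sum_abs _ _) ?_
    have h1 : ∑ l, |(c₀ i l : ℝ) * ((b l : Submodule.span ℚ (Set.range p)) : ℝ) -
        (c₀ i l : ℝ) * (r l : ℝ)| ≤ ∑ l, |(c₀ i l : ℝ)| * (ε / K) := by
      refine Finset.sum_le_sum fun l _ => ?_
      rw [← mul_sub, abs_mul]
      exact mul_le_mul_of_nonneg_left (hr l).le (abs_nonneg _)
    refine lt_of_le_of_lt h1 ?_
    rw [← Finset.sum_mul]
    have h2 : ∑ l, |(c₀ i l : ℝ)| ≤ ∑ i, ∑ l, |(c₀ i l : ℝ)| :=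
      Finset.single_le_sum (f := fun i => ∑ l, |(c₀ i l : ℝ)|)
        (fun i _ => Finset.sum_nonneg fun l _ => abs_nonneg _) (Finset.mem_univ i)
    have h3 : ∑ l, |(c₀ i l : ℝ)| < K := by linarith
    calc (∑ l, |(c₀ i l : ℝ)|) * (ε / K) < K * (ε / K) := mul_lt_mul_of_pos_right h3 hδ
      _ = ε := by field_simp
  · have h1 : ∑ i, c i • (⟨p i, hmem i⟩ : Submodule.span ℚ (Set.range p)) = 0 := by
      apply Subtype.ext
      rw [AddSubmonoidClass.coe_finsetSum]
      simp only [Submodule.coe_smul, Rat.smul_def, ZeroMemClass.coe_zero]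
      exact hc
    have h2 : ∀ l, ∑ i, c i * c₀ i l = 0 := by
      intro l
      have h3 := congrArg (fun z => b.repr z l) h1
      simp only [map_sum, map_smul, Finsupp.coe_finsetSum, Finset.sum_apply,
        Finsupp.smul_apply, smul_eq_mul, map_zero, Finsupp.coe_zero, Pi.zero_apply] at h3
      rw [hc₀]
      exact h3
    have h4 : ∑ i, c i * (∑ l, c₀ i l * r l) = 0 := by
      simp only [Finset.mul_sum]
      rw [Finset.sum_comm]
      refine Finset.sum_eq_zero fun l _ => ?_
      have h5 : ∑ i, c i * (c₀ i l * r l) = (∑ i, c i * c₀ i l) * r l := by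
        rw [Finset.sum_mul]
        exact Finset.sum_congr rfl fun i _ => by ring
      rw [h5, h2 l, zero_mul]
    exact_mod_cast h4

private theorem exists_near_dt (k k' : V) (x : R3) :
    dt (rv k) (rv k') x = ∑ i, (((![(k 1 : ℚ) * k' 2 - k 2 * k' 1, (k 2 : ℚ) * k' 0 - k 0 * k' 2,
      (k 0 : ℚ) * k' 1 - k 1 * k' 0] : Fin 3 → ℚ) i : ℚ) : ℝ) * x i := by
  rw [Fin.sum_univ_three]
  unfold dt rv
  simp only [Matrix.cons_val_zero, Matrix.cons_val_one, Matrix.cons_val]
  push_cast
  ring

private theorem exists_near_dt_cont (a b : R3) : Continuous (fun x : R3 => dt a b x) := by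
  unfold dt
  fun_prop

private theorem exists_near_coord {CC : Finset (Finset V)} {z p : R3}
    (hs : SameSign CC z p) (j : Fin 3) :
    SignType.sign (z j) = SignType.sign (p j) := by
  have hev : ∀ i, ev i ∈ VV CC := by
    intro i
    unfold VV
    rw [Finset.mem_union]
    right
    fin_cases i <;> simp
  have h0 : ∀ x : R3, dt (rv (ev 1)) (rv (ev 2)) x = x 0 := by
    intro x
    unfold dt rv ev
    simp
  have h1 : ∀ x : R3, dt (rv (ev 2)) (rv (ev 0)) x = x 1 := by
    intro x
    unfold dt rv ev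
    simp
  have h2 : ∀ x : R3, dt (rv (ev 0)) (rv (ev 1)) x = x 2 := by
    intro x
    unfold dt rv ev
    simp
  fin_cases j
  · have h := hs _ (hev 1) _ (hev 2)
    rw [h0, h0] at h
    exact h
  · have h := hs _ (hev 2) _ (hev 0)
    rw [h1, h1] at h
    exact h
  · have h := hs _ (hev 0) _ (hev 1)
    rw [h2, h2] at h
    exact h

theorem p_exists_near : S_exists_near := by
  classical
  intro CC p hp hp0 l hl
  -- signs are kept near `p`
  have hU : ∀ᶠ x in nhds p, ∀ k ∈ VV CC, ∀ k' ∈ VV CC, dt (rv k) (rv k') p ≠ 0 →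
      SignType.sign (dt (rv k) (rv k') x) = SignType.sign (dt (rv k) (rv k') p) := by
    rw [Filter.eventually_all_finset]
    intro k hk
    rw [Filter.eventually_all_finset]
    intro k' hk'
    by_cases h0 : dt (rv k) (rv k') p = 0
    · exact Filter.Eventually.of_forall fun x h => absurd h0 h
    · have hc : Filter.Tendsto (fun x : R3 => dt (rv k) (rv k') x) (nhds p)
          (nhds (dt (rv k) (rv k') p)) := (exists_near_dt_cont (rv k) (rv k')).tendsto p
      rcases lt_or_gt_of_ne h0 with h | h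
      · filter_upwards [hc.eventually (Iio_mem_nhds h)] with x hx _
        rw [sign_neg h, sign_neg hx]
      · filter_upwards [hc.eventually (Ioi_mem_nhds h)] with x hx _
        rw [sign_pos h, sign_pos hx]
  rw [Metric.eventually_nhds_iff] at hU
  obtain ⟨ε, hε, hU⟩ := hU
  obtain ⟨y, hy1, hy2⟩ := exists_near_rat p ε hε
  obtain ⟨z, hz⟩ : ∃ z : R3, z = fun i => (y i : ℝ) := ⟨_, rfl⟩
  have hdist : dist z p < ε := by
    rw [dist_pi_lt_iff hε]
    intro i
    rw [hz, Real.dist_eq, abs_sub_comm]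
    exact hy1 i
  have hs : SameSign CC z p := by
    intro k hk k' hk'
    by_cases h0 : dt (rv k) (rv k') p = 0
    · have h1 := h0
      rw [exists_near_dt] at h1
      have h2 := hy2 _ h1
      have h3 : dt (rv k) (rv k') z = 0 := by
        rw [exists_near_dt, hz]
        exact h2
      rw [h0, h3]
    · exact hU hdist k hk k' hk' h0
  have hzj : ∀ j, 0 ≤ y j := by
    intro j
    have h := exists_near_coord hs j
    have h1 : 0 ≤ z j := by
      rw [← sign_nonneg_iff, h, sign_nonneg_iff]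
      exact hp j
    rw [hz] at h1
    simp only at h1
    exact_mod_cast h1
  -- clear denominators
  obtain ⟨N, hN⟩ : ∃ N : ℕ, N = ∏ t, (y t).den := ⟨_, rfl⟩
  have hN0 : 0 < N := by
    rw [hN]
    exact Finset.prod_pos fun t _ => (y t).den_pos
  obtain ⟨q, hq⟩ : ∃ q : V, q = fun j => (y j).num.toNat * ∏ t ∈ Finset.univ.erase j, (y t).den :=
    ⟨_, rfl⟩
  have hqz : rv q = fun j => (N : ℝ) * z j := by
    funext j
    have h1 : ((y j).num.toNat : ℚ) = (y j).num := by
      have : ((y j).num.toNat : ℤ) = (y j).num := Int.toNat_of_nonneg (Rat.num_nonneg.2 (hzj j))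
      exact_mod_cast this
    have h2 : ((q j : ℕ) : ℚ) = (N : ℚ) * y j := by
      rw [hq, hN, ← Finset.mul_prod_erase Finset.univ (fun t => (y t).den) (Finset.mem_univ j)]
      push_cast
      rw [h1, ← Rat.mul_den_eq_num]
      ring
    unfold rv
    rw [hz]
    simp only
    exact_mod_cast h2
  have hNR : (0 : ℝ) < N := by exact_mod_cast hN0
  refine ⟨q, ?_, ?_, ?_⟩
  · intro hq0
    apply hp0
    funext j
    have h1 := congrFun hqz j
    rw [hq0] at h1
    have h2 : (0 : ℝ) = (N : ℝ) * z j := by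
      rw [← h1]
      unfold rv
      simp
    have h3 : z j = 0 := by
      rcases mul_eq_zero.1 h2.symm with h | h
      · exact absurd h hNR.ne'
      · exact h
    have h4 := exists_near_coord hs j
    rw [h3, sign_zero] at h4
    exact sign_eq_zero_iff.1 h4.symm
  · intro k hk k' hk'
    have h1 : dt (rv k) (rv k') (rv q) = (N : ℝ) * dt (rv k) (rv k') z := by
      rw [hqz]
      unfold dt
      ring
    rw [h1, sign_mul, sign_pos hNR, one_mul]
    exact hs k hk k' hk'
  · have h1 : ∑ i, (((fun j => (l j : ℚ)) i : ℚ) : ℝ) * p i = 0 := by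
      rw [Fin.sum_univ_three]
      unfold dp at hl
      push_cast
      exact hl
    have h2 := hy2 _ h1
    rw [Fin.sum_univ_three] at h2
    push_cast at h2
    rw [hqz, hz]
    unfold dp
    simp only
    linear_combination (N : ℝ) * h2

end Pool.Agent.MP2a1ef3.N3
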