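import Pool.Agent.Lib.MP_2a1ef3_lc.N3.Stm

set_option autoImplicit false

namespace Pool.Agent.MP2a1ef3.N3

open Filter Topology

private theorem exists_pin_piece_approx {x₁ x₂ : R3} (h₁ : ∀ j, 0 ≤ x₁ j) (h₂ : ∀ j, 0 ≤ x₂ j)
    {P : R3 × R3 → Prop} (hP : ∀ᶠ p in 𝓝 (x₁, x₂), P p) :
    ∃ N : ℝ, 0 < N ∧ ∃ b₁ b₂ : V, (∀ j, x₁ j = 0 → b₁ j = 0) ∧ (∀ j, x₂ j = 0 → b₂ j = 0) ∧
      P (fun j => rv b₁ j / N, fun j => rv b₂ j / N) := by
  have ht : ∀ x : R3, (∀ j, 0 ≤ x j) →
      Tendsto (fun N : ℕ => (fun j => ((⌊x j * (N : ℝ)⌋₊ : ℕ) : ℝ) / (N : ℝ) : R3)) atTop (𝓝 x) := by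
    intro x hx
    rw [tendsto_pi_nhds]
    intro j
    exact (tendsto_nat_floor_mul_div_atTop (hx j)).comp tendsto_natCast_atTop_atTop
  have h3 := ((ht x₁ h₁).prodMk_nhds (ht x₂ h₂)).eventually hP
  obtain ⟨N, hN, hN0⟩ := (h3.and (eventually_gt_atTop 0)).exists
  refine ⟨N, by exact_mod_cast hN0, fun j => ⌊x₁ j * (N : ℝ)⌋₊, fun j => ⌊x₂ j * (N : ℝ)⌋₊, ?_, ?_, ?_⟩
  · intro j hj
    simp [hj]
  · intro j hj
    simp [hj]
  · exact hN

private theorem exists_pin_piece_gl {a z : R3} {i j l : Fin 3} (hij : i ≠ j) (hil : i ≠ l)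
    (hjl : j ≠ l) (hai : a i = 0) (haj : a j ≠ 0) (hzi : z i ≠ 0) :
    dt a z (Pi.single l 1) ≠ 0 := by
  fin_cases i <;> fin_cases j <;> fin_cases l <;> simp_all [dt]

private theorem exists_pin_piece_exp {a z : R3} {i j l : Fin 3} (hij : i ≠ j) (hil : i ≠ l)
    (hjl : j ≠ l) (x : R3) : dt a z x = x i * dt a z (Pi.single i 1) + x j * dt a z (Pi.single j 1) +
      x l * dt a z (Pi.single l 1) := by
  fin_cases i <;> fin_cases j <;> fin_cases l <;> simp_all [dt] <;> ring

private theorem exists_pin_piece_cont {f g h : ℝ → R3} (hf : Continuous f) (hg : Continuous g)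
    (hh : Continuous h) : Continuous (fun e => dt (f e) (g e) (h e)) := by
  unfold dt
  fun_prop

private theorem exists_pin_piece_cont2 {f g h : R3 × R3 → R3} (hf : Continuous f)
    (hg : Continuous g) (hh : Continuous h) : Continuous (fun e => dt (f e) (g e) (h e)) := by
  unfold dt
  fun_prop

private theorem exists_pin_piece_pos {f : ℝ → ℝ} (hf : Continuous f) (h0 : 0 < f 0) :
    ∀ᶠ e in 𝓝[>] (0 : ℝ), 0 < f e :=
  (hf.continuousAt.eventually (lt_mem_nhds h0)).filter_mono nhdsWithin_le_nhds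

private theorem exists_pin_piece_sum (a y : R3) (C : Finset V) (l : V → ℝ) :
    dt a y (∑ k ∈ C, l k • rv k) = ∑ k ∈ C, l k * dt a y (rv k) := by
  classical
  induction C using Finset.induction_on with
  | empty => simp [dt]
  | insert k C hk ih =>
    rw [Finset.sum_insert hk, Finset.sum_insert hk, ← ih]
    simp only [dt, Pi.add_apply, Pi.smul_apply, smul_eq_mul]
    ring

private theorem exists_pin_piece_third (i j : Fin 3) (hij : i ≠ j) : ∃ l : Fin 3, i ≠ l ∧ j ≠ l := by
  revert i j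
  decide

private theorem exists_pin_piece_par {z : R3} {i j l : Fin 3} (hij : i ≠ j) (hil : i ≠ l)
    (hjl : j ≠ l) (hj : z j = 0) (hl : z l = 0) : Par (rv (ev i)) z := by
  intro x
  fin_cases i <;> fin_cases j <;> fin_cases l <;> simp_all [dt, rv, ev]

private theorem exists_pin_piece_ev (F : R3 × R3 → ℝ) (hF : Continuous F) (x : R3 × R3)
    (h : 0 < F x) : ∀ᶠ p in 𝓝 x, 0 < F p :=
  hF.continuousAt.eventually (lt_mem_nhds h)

private theorem exists_pin_piece_A {K : Finset V} {a : V} {z b u₁ u₂ : R3} {t₀ : ℝ}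
    (ht₀ : 0 ≤ t₀) (hb : ∀ j, b j = z j - t₀ * rv a j)
    (hu₁ : dt (rv a) z u₁ < 0) (hu₂ : 0 < dt (rv a) z u₂)
    (hp₁ : ∀ᶠ e in 𝓝[>] (0 : ℝ), ∀ j, 0 ≤ b j + e * u₁ j)
    (hp₂ : ∀ᶠ e in 𝓝[>] (0 : ℝ), ∀ j, 0 ≤ b j + e * u₂ j) {m₁ m₂ : Fin 3}
    (hm₁ : b m₁ = 0) (hm₁' : u₁ m₁ = 0) (hm₂ : b m₂ = 0) (hm₂' : u₂ m₂ = 0)
    (hm : m₁ = m₂ ∨ 0 < t₀) :
    ∃ b₁ b₂ : V, 0 < dt (rv a) (rv b₁) (rv b₂) ∧ 0 < dt (rv a) (rv b₁) z ∧
      0 < dt (rv a) z (rv b₂) ∧ (0 < dt (rv b₁) (rv b₂) z ∨ ∃ j, b₁ j = 0 ∧ b₂ j = 0) ∧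
      Bd b₁ ∧ Bd b₂ ∧ (∀ k ∈ K, 0 < dt (rv a) z (rv k) → 0 < dt (rv a) (rv b₂) (rv k)) ∧
      (∀ k ∈ K, dt (rv a) z (rv k) < 0 → dt (rv a) (rv b₁) (rv k) < 0) := by
  set X₁ : ℝ → R3 := fun e j => b j + e * u₁ j with hX₁
  set X₂ : ℝ → R3 := fun e j => b j + e * u₂ j with hX₂
  have cX₁ : Continuous X₁ := by rw [hX₁]; fun_prop
  have cX₂ : Continuous X₂ := by rw [hX₂]; fun_prop
  have X₁0 : X₁ 0 = b := by rw [hX₁]; ext j; simp
  have X₂0 : X₂ 0 = b := by rw [hX₂]; ext j; simp
  have hgb : ∀ x, dt (rv a) b x = dt (rv a) z x := by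
    intro x
    simp only [dt, hb]
    ring
  -- the conditions for small e
  have e1 : ∀ᶠ e in 𝓝[>] (0 : ℝ), ∀ k ∈ K, 0 < dt (rv a) z (rv k) →
      0 < dt (rv a) (X₂ e) (rv k) := by
    rw [Finset.eventually_all]
    intro k _
    by_cases hk : 0 < dt (rv a) z (rv k)
    · have := exists_pin_piece_pos (f := fun e => dt (rv a) (X₂ e) (rv k))
        (exists_pin_piece_cont continuous_const cX₂ continuous_const)
        (by rw [X₂0, hgb]; exact hk)
      filter_upwards [this] with e he _ using he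
    · exact Eventually.of_forall fun e h => absurd h hk
  have e2 : ∀ᶠ e in 𝓝[>] (0 : ℝ), ∀ k ∈ K, dt (rv a) z (rv k) < 0 →
      dt (rv a) (X₁ e) (rv k) < 0 := by
    rw [Finset.eventually_all]
    intro k _
    by_cases hk : dt (rv a) z (rv k) < 0
    · have := exists_pin_piece_pos (f := fun e => - dt (rv a) (X₁ e) (rv k))
        (exists_pin_piece_cont continuous_const cX₁ continuous_const).neg
        (by rw [X₁0, hgb]; linarith)
      filter_upwards [this] with e he _
      linarith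
    · exact Eventually.of_forall fun e h => absurd h hk
  have e3 : ∀ᶠ e in 𝓝[>] (0 : ℝ), 0 < dt (rv a) (X₁ e) (X₂ e) := by
    have := exists_pin_piece_pos
      (f := fun e => dt (rv a) z u₂ - dt (rv a) z u₁ + e * dt (rv a) u₁ u₂) (by fun_prop)
      (by simp; linarith)
    filter_upwards [this, self_mem_nhdsWithin] with e he he0
    have h1 : dt (rv a) (X₁ e) (X₂ e) =
        e * (dt (rv a) z u₂ - dt (rv a) z u₁ + e * dt (rv a) u₁ u₂) := by
      rw [← hgb u₂, ← hgb u₁]
      simp only [hX₁, hX₂, dt]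
      ring
    rw [h1]
    exact mul_pos he0 he
  have e4 : ∀ᶠ e in 𝓝[>] (0 : ℝ), 0 < dt (rv a) (X₁ e) z := by
    filter_upwards [self_mem_nhdsWithin] with e he0
    have h1 : dt (rv a) (X₁ e) z = e * (- dt (rv a) z u₁) := by
      simp only [hX₁, dt, hb]
      ring
    rw [h1]
    exact mul_pos he0 (by linarith)
  have e5 : ∀ᶠ e in 𝓝[>] (0 : ℝ), 0 < dt (rv a) z (X₂ e) := by
    filter_upwards [self_mem_nhdsWithin] with e he0
    have h1 : dt (rv a) z (X₂ e) = e * dt (rv a) z u₂ := by
      simp only [hX₂, dt, hb]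
      ring
    rw [h1]
    exact mul_pos he0 hu₂
  have e6 : ∀ᶠ e in 𝓝[>] (0 : ℝ), 0 < dt (X₁ e) (X₂ e) z ∨ m₁ = m₂ := by
    rcases hm with hm | hm
    · exact Eventually.of_forall fun e => Or.inr hm
    · have := exists_pin_piece_pos
        (f := fun e => t₀ * (dt (rv a) z u₂ - dt (rv a) z u₁) + e * dt u₁ u₂ z) (by fun_prop)
        (by simp; exact mul_pos hm (by linarith))
      filter_upwards [this, self_mem_nhdsWithin] with e he he0
      left
      have h1 : dt (X₁ e) (X₂ e) z =
          e * (t₀ * (dt (rv a) z u₂ - dt (rv a) z u₁) + e * dt u₁ u₂ z) := by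
        simp only [hX₁, hX₂, dt, hb]
        ring
      rw [h1]
      exact mul_pos he0 he
  obtain ⟨e, he1, he2, he3, he4, he5, he6, hq1, hq2⟩ :=
    (e1.and (e2.and (e3.and (e4.and (e5.and (e6.and (hp₁.and hp₂))))))).exists
  -- rational approximations
  have cf : Continuous (fun p : R3 × R3 => p.1) := continuous_fst
  have cs : Continuous (fun p : R3 × R3 => p.2) := continuous_snd
  have f1 : ∀ᶠ p : R3 × R3 in 𝓝 (X₁ e, X₂ e), ∀ k ∈ K, 0 < dt (rv a) z (rv k) →
      0 < dt (rv a) p.2 (rv k) := by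
    rw [Finset.eventually_all]
    intro k hk
    by_cases hk' : 0 < dt (rv a) z (rv k)
    · have := exists_pin_piece_ev (fun p => dt (rv a) p.2 (rv k))
        (exists_pin_piece_cont2 continuous_const cs continuous_const) (X₁ e, X₂ e) (he1 k hk hk')
      filter_upwards [this] with p hp _ using hp
    · exact Eventually.of_forall fun e h => absurd h hk'
  have f2 : ∀ᶠ p : R3 × R3 in 𝓝 (X₁ e, X₂ e), ∀ k ∈ K, dt (rv a) z (rv k) < 0 →
      dt (rv a) p.1 (rv k) < 0 := by
    rw [Finset.eventually_all]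
    intro k hk
    by_cases hk' : dt (rv a) z (rv k) < 0
    · have := exists_pin_piece_ev (fun p => - dt (rv a) p.1 (rv k))
        (exists_pin_piece_cont2 continuous_const cf continuous_const).neg (X₁ e, X₂ e)
        (by have := he2 k hk hk'; simp only; linarith)
      filter_upwards [this] with p hp _
      linarith
    · exact Eventually.of_forall fun e h => absurd h hk'
  have f3 : ∀ᶠ p : R3 × R3 in 𝓝 (X₁ e, X₂ e), 0 < dt (rv a) p.1 p.2 :=
    exists_pin_piece_ev (fun p => dt (rv a) p.1 p.2)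
      (exists_pin_piece_cont2 continuous_const cf cs) (X₁ e, X₂ e) he3
  have f4 : ∀ᶠ p : R3 × R3 in 𝓝 (X₁ e, X₂ e), 0 < dt (rv a) p.1 z :=
    exists_pin_piece_ev (fun p => dt (rv a) p.1 z)
      (exists_pin_piece_cont2 continuous_const cf continuous_const) (X₁ e, X₂ e) he4
  have f5 : ∀ᶠ p : R3 × R3 in 𝓝 (X₁ e, X₂ e), 0 < dt (rv a) z p.2 :=
    exists_pin_piece_ev (fun p => dt (rv a) z p.2)
      (exists_pin_piece_cont2 continuous_const continuous_const cs) (X₁ e, X₂ e) he5
  have f6 : ∀ᶠ p : R3 × R3 in 𝓝 (X₁ e, X₂ e), 0 < dt p.1 p.2 z ∨ m₁ = m₂ := by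
    rcases he6 with h | h
    · have := exists_pin_piece_ev (fun p => dt p.1 p.2 z)
        (exists_pin_piece_cont2 cf cs continuous_const) (X₁ e, X₂ e) h
      filter_upwards [this] with p hp using Or.inl hp
    · exact Eventually.of_forall fun _ => Or.inr h
  obtain ⟨N, hN, b₁, b₂, z₁, z₂, g1, g2, g3, g4, g5, g6⟩ := exists_pin_piece_approx hq1 hq2
    (f1.and (f2.and (f3.and (f4.and (f5.and f6)))))
  simp only at g1 g2 g3 g4 g5 g6
  have hz₁ : b₁ m₁ = 0 := z₁ m₁ (by simp [hm₁, hm₁'])
  have hz₂ : b₂ m₂ = 0 := z₂ m₂ (by simp [hm₂, hm₂'])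
  have s1 : ∀ (b : V) (y : R3), dt (rv a) (fun j => rv b j / N) y = dt (rv a) (rv b) y / N := by
    intro b y
    simp only [dt]
    ring
  have s2 : ∀ (b : V) (y : R3), dt (rv a) y (fun j => rv b j / N) = dt (rv a) y (rv b) / N := by
    intro b y
    simp only [dt]
    ring
  refine ⟨b₁, b₂, ?_, ?_, ?_, ?_, ⟨m₁, hz₁⟩, ⟨m₂, hz₂⟩, ?_, ?_⟩
  · rw [s1, s2] at g3
    have := (div_pos_iff_of_pos_right hN).1 g3
    exact (div_pos_iff_of_pos_right hN).1 this
  · rw [s1] at g4
    exact (div_pos_iff_of_pos_right hN).1 g4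
  · rw [s2] at g5
    exact (div_pos_iff_of_pos_right hN).1 g5
  · rcases g6 with g6 | g6
    · left
      have s3 : dt (fun j => rv b₁ j / N) (fun j => rv b₂ j / N) z =
          dt (rv b₁) (rv b₂) z / N / N := by
        simp only [dt]
        ring
      rw [s3] at g6
      exact (div_pos_iff_of_pos_right hN).1 ((div_pos_iff_of_pos_right hN).1 g6)
    · right
      exact ⟨m₁, hz₁, by rw [g6]; exact hz₂⟩
  · intro k hk hk'
    have := g1 k hk hk'
    rw [s1] at this
    exact (div_pos_iff_of_pos_right hN).1 this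
  · intro k hk hk'
    have := g2 k hk hk'
    rw [s1] at this
    have h3 : 0 < - (dt (rv a) (rv b₁) (rv k) / N) := by linarith
    rw [← neg_div] at h3
    have := (div_pos_iff_of_pos_right hN).1 h3
    linarith

theorem p_exists_pin_piece (h1 : S_mem_ocone_tri) (h2 : S_ind_tri) : S_exists_pin_piece := by
  intro CC a z hz hz0 hpin
  obtain ⟨ha0, ⟨i, hai⟩, haz, hCC⟩ := hpin
  have hzi : 0 < z i := lt_of_le_of_ne (hz i) (Ne.symm (haz i hai))
  -- the index with the smallest ratio
  obtain ⟨j, hj, hjmin⟩ := Finset.exists_min_image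
    (Finset.univ.filter fun j : Fin 3 => 0 < a j) (fun j => z j / (a j : ℝ)) (by
      by_contra hcon
      rw [Finset.not_nonempty_iff_eq_empty] at hcon
      apply ha0
      ext j
      by_contra hj
      have : j ∈ Finset.univ.filter fun j : Fin 3 => 0 < a j := by
        simp only [Finset.mem_filter, Finset.mem_univ, true_and]
        exact Nat.pos_of_ne_zero hj
      rw [hcon] at this
      simp at this)
  have haj : 0 < a j := by simpa using hj
  have hajR : (0 : ℝ) < a j := by exact_mod_cast haj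
  set t₀ : ℝ := z j / (a j : ℝ) with ht₀
  have ht₀0 : 0 ≤ t₀ := div_nonneg (hz j) hajR.le
  set b : R3 := fun m => z m - t₀ * rv a m with hb
  have hb0 : ∀ m, 0 ≤ b m := by
    intro m
    by_cases hm : 0 < a m
    · have h := hjmin m (by simpa using hm)
      have hmR : (0 : ℝ) < a m := by exact_mod_cast hm
      simp only [hb, rv]
      have h' : t₀ ≤ z m / (a m : ℝ) := h
      rw [le_div_iff₀ hmR] at h'
      linarith
    · have : a m = 0 := by omega
      simp only [hb, rv, this]
      simp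
      exact hz m
  have hbj : b j = 0 := by
    simp only [hb, rv, ht₀]
    field_simp
    ring
  have hij : i ≠ j := by
    rintro rfl
    omega
  have hbi : b i = z i := by simp only [hb, rv, hai]; simp
  obtain ⟨l, hil, hjl⟩ := exists_pin_piece_third i j hij
  have hgl : dt (rv a) z (Pi.single l 1) ≠ 0 :=
    exists_pin_piece_gl hij hil hjl (by simp [rv, hai]) (by simp [rv]; omega) hzi.ne'
  have key : ∃ b₁ b₂ : V, 0 < dt (rv a) (rv b₁) (rv b₂) ∧ 0 < dt (rv a) (rv b₁) z ∧
      0 < dt (rv a) z (rv b₂) ∧ (0 < dt (rv b₁) (rv b₂) z ∨ ∃ j, b₁ j = 0 ∧ b₂ j = 0) ∧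
      Bd b₁ ∧ Bd b₂ ∧ (∀ k ∈ Vk CC, 0 < dt (rv a) z (rv k) → 0 < dt (rv a) (rv b₂) (rv k)) ∧
      (∀ k ∈ Vk CC, dt (rv a) z (rv k) < 0 → dt (rv a) (rv b₁) (rv k) < 0) := by
    by_cases hbl : b l = 0
    · -- two zero coordinates
      have hal : 0 < a l := by
        by_contra hcon
        have hal : a l = 0 := by omega
        apply haz l hal
        have : b l = z l := by simp only [hb, rv, hal]; simp
        rw [← this, hbl]
      have ht₀p : 0 < t₀ := by
        rcases eq_or_lt_of_le ht₀0 with h | h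
        · exfalso
          apply hz0 i
          have hzb : ∀ m, z m = b m := fun m => by simp only [hb, ← h]; simp
          have hzj : z j = 0 := by rw [hzb, hbj]
          have hzl : z l = 0 := by rw [hzb, hbl]
          exact exists_pin_piece_par hij hil hjl hzj hzl
        · exact h
      have hgb : dt (rv a) z b = 0 := by simp only [dt, hb]; ring
      have hga : dt (rv a) z (rv a) = 0 := by simp only [dt]; ring
      have hgi : dt (rv a) z (Pi.single i 1) = 0 := by
        rw [exists_pin_piece_exp hij hil hjl b, hbj, hbl, hbi] at hgb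
        simp only [zero_mul, add_zero, mul_eq_zero] at hgb
        exact hgb.resolve_left hzi.ne'
      rw [exists_pin_piece_exp hij hil hjl (rv a), hgi, mul_zero, zero_add] at hga
      have halR : (0 : ℝ) < rv a l := by simp only [rv]; exact_mod_cast hal
      have hajR' : (0 : ℝ) < rv a j := hajR
      have hsj : ∀ e : ℝ, 0 < e → ∀ m, 0 ≤ b m + e * (Pi.single j 1 : R3) m := by
        intro e he m
        have : 0 ≤ (Pi.single j 1 : R3) m := by
          by_cases h : m = j
          · subst h; simp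
          · simp [Pi.single_eq_of_ne h]
        have := hb0 m
        positivity
      have hsl : ∀ e : ℝ, 0 < e → ∀ m, 0 ≤ b m + e * (Pi.single l 1 : R3) m := by
        intro e he m
        have : 0 ≤ (Pi.single l 1 : R3) m := by
          by_cases h : m = l
          · subst h; simp
          · simp [Pi.single_eq_of_ne h]
        have := hb0 m
        positivity
      have evj : ∀ᶠ e in 𝓝[>] (0 : ℝ), ∀ m, 0 ≤ b m + e * (Pi.single j 1 : R3) m := by
        filter_upwards [self_mem_nhdsWithin] with e he using hsj e he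
      have evl : ∀ᶠ e in 𝓝[>] (0 : ℝ), ∀ m, 0 ≤ b m + e * (Pi.single l 1 : R3) m := by
        filter_upwards [self_mem_nhdsWithin] with e he using hsl e he
      rcases lt_or_gt_of_ne hgl with hneg | hpos
      · have hgj : 0 < dt (rv a) z (Pi.single j 1) := by
          by_contra hcon
          have h3 : rv a j * dt (rv a) z (Pi.single j 1) ≤ 0 :=
            mul_nonpos_of_nonneg_of_nonpos hajR'.le (not_lt.1 hcon)
          have h4 : rv a l * dt (rv a) z (Pi.single l 1) < 0 := mul_neg_of_pos_of_neg halR hneg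
          linarith
        exact exists_pin_piece_A ht₀0 (fun m => rfl) hneg hgj evl evj (m₁ := j) (m₂ := l) hbj
          (Pi.single_eq_of_ne hjl _) hbl (Pi.single_eq_of_ne hjl.symm _) (Or.inr ht₀p)
      · have hgj : dt (rv a) z (Pi.single j 1) < 0 := by
          by_contra hcon
          have h3 : 0 ≤ rv a j * dt (rv a) z (Pi.single j 1) :=
            mul_nonneg hajR'.le (not_lt.1 hcon)
          have h4 : 0 < rv a l * dt (rv a) z (Pi.single l 1) := mul_pos halR hpos
          linarith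
        exact exists_pin_piece_A ht₀0 (fun m => rfl) hgj hpos evj evl (m₁ := l) (m₂ := j) hbl
          (Pi.single_eq_of_ne hjl.symm _) hbj (Pi.single_eq_of_ne hjl _) (Or.inr ht₀p)
    · -- one zero coordinate
      have hbl' : 0 < b l := lt_of_le_of_ne (hb0 l) (Ne.symm hbl)
      set s := dt (rv a) z (Pi.single l 1) with hs
      have hsingle : ∀ c : ℝ, dt (rv a) z (Pi.single l c) = c * s := by
        intro c
        rw [exists_pin_piece_exp hij hil hjl (Pi.single l c), Pi.single_eq_of_ne hil,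
          Pi.single_eq_of_ne hjl, Pi.single_eq_same]
        ring
      have hev : ∀ c : ℝ, ∀ᶠ e in 𝓝[>] (0 : ℝ), ∀ m, 0 ≤ b m + e * (Pi.single l c : R3) m := by
        intro c
        have := exists_pin_piece_pos (f := fun e => b l + e * c) (by fun_prop) (by simpa using hbl')
        filter_upwards [this] with e he m
        by_cases h : m = l
        · subst h
          rw [Pi.single_eq_same]
          exact he.le
        · rw [Pi.single_eq_of_ne h, mul_zero, add_zero]
          exact hb0 m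
      refine exists_pin_piece_A (u₁ := Pi.single l (-s)) (u₂ := Pi.single l s) ht₀0 (fun m => rfl)
        ?_ ?_ (hev _) (hev _) (m₁ := j) (m₂ := j) hbj (Pi.single_eq_of_ne hjl _) hbj
        (Pi.single_eq_of_ne hjl _) (Or.inl rfl)
      · rw [hsingle]
        have := mul_self_pos.2 hgl
        linarith
      · rw [hsingle]
        exact mul_self_pos.2 hgl
  obtain ⟨b₁, b₂, k1, k2, k3, k4, k5, k6, k7, k8⟩ := key
  refine ⟨b₁, b₂, k1, k2, k3, k4, ?_, h2 k1, ?_⟩
  · intro p hp
    simp only [Finset.mem_insert, Finset.mem_singleton] at hp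
    rcases hp with rfl | rfl | rfl
    · exact ⟨i, hai⟩
    · exact k5
    · exact k6
  · intro C hC
    have hCV : ∀ k ∈ C, k ∈ Vk CC := by
      intro k hk
      unfold Vk
      rw [Finset.mem_biUnion]
      exact ⟨C, hC, hk⟩
    rw [Set.disjoint_left]
    rintro x hx ⟨l, hl, hxl⟩
    rw [h1 k1] at hx
    obtain ⟨hx1, hx2, hx3⟩ := hx
    rcases hCC C hC with h | h
    · have h5 : 0 ≤ dt (rv a) (rv b₂) x := by
        rw [hxl, exists_pin_piece_sum]
        apply Finset.sum_nonneg
        intro k hk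
        apply mul_nonneg (hl k hk).le
        rcases h k hk with h' | h'
        · have : dt (rv a) (rv b₂) (rv k) = - dt (rv a) (rv k) (rv b₂) := by
            simp only [dt]; ring
          rw [this, h' (rv b₂)]
          simp
        · exact (k7 k (hCV k hk) h').le
      have h6 : dt (rv a) (rv b₂) x = - dt (rv b₂) (rv a) x := by
        simp only [dt]; ring
      linarith
    · have h5 : dt (rv a) (rv b₁) x ≤ 0 := by
        rw [hxl, exists_pin_piece_sum]
        apply Finset.sum_nonpos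
        intro k hk
        apply mul_nonpos_of_nonneg_of_nonpos (hl k hk).le
        rcases h k hk with h' | h'
        · have : dt (rv a) (rv b₁) (rv k) = - dt (rv a) (rv k) (rv b₁) := by
            simp only [dt]; ring
          rw [this, h' (rv b₁)]
          simp
        · exact (k8 k (hCV k hk) h').le
      linarith

end Pool.Agent.MP2a1ef3.N3
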