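import Pool.Agent.Lib.MP_2a1ef3_lc.N3.Stm

/-!
Piece `exists_ultra` for MP_2a1ef3_lc, dimension three.
-/

set_option autoImplicit false

namespace Pool.Agent.MP2a1ef3.N3

open Filter

theorem p_exists_ultra (h1 : S_strat_lin) : S_exists_ultra := by
  classical
  intro X h
  set S : Set (Set V) := {s | s = X ∨ ∃ p : V × Finset V, (∀ r ∈ p.2, Bd r) ∧ Lin p.1 p.2 ⊆ X ∧
    s = (Lin p.1 p.2)ᶜ} with hS
  have hne : (Filter.generate S).NeBot := by
    rw [Filter.generate_neBot_iff]
    intro t ht htf
    by_contra hemp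
    rw [Set.not_nonempty_iff_eq_empty] at hemp
    apply h
    rw [h1]
    set g : Set V → V × Finset V := fun s =>
      if hs : ∃ p : V × Finset V, (∀ r ∈ p.2, Bd r) ∧ Lin p.1 p.2 ⊆ X ∧ s = (Lin p.1 p.2)ᶜ then
        hs.choose else (0, ∅) with hg
    refine ⟨(htf.toFinset.filter fun s => ∃ p : V × Finset V, (∀ r ∈ p.2, Bd r) ∧
      Lin p.1 p.2 ⊆ X ∧ s = (Lin p.1 p.2)ᶜ).image g, ?_, ?_⟩
    · intro p hp r hr
      obtain ⟨s, hs, rfl⟩ := Finset.mem_image.1 hp
      have hs2 := (Finset.mem_filter.1 hs).2
      rw [hg] at hr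
      simp only [dif_pos hs2] at hr
      exact hs2.choose_spec.1 r hr
    · apply Set.Subset.antisymm
      · intro x hx
        have hx' : x ∉ ⋂₀ t := by
          rw [hemp]
          exact Set.notMem_empty x
        rw [Set.mem_sInter] at hx'
        push Not at hx'
        obtain ⟨s, hst, hxs⟩ := hx'
        rcases ht hst with rfl | hs2
        · exact absurd hx hxs
        · rw [Set.mem_iUnion₂]
          refine ⟨g s, Finset.mem_image_of_mem g (Finset.mem_filter.2
            ⟨htf.mem_toFinset.2 hst, hs2⟩), ?_⟩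
          have h3 : g s = hs2.choose := by
            rw [hg]
            simp only [dif_pos hs2]
          rw [h3]
          have h4 := hs2.choose_spec.2.2
          by_contra h5
          apply hxs
          rw [h4]
          exact h5
      · intro x hx
        rw [Set.mem_iUnion₂] at hx
        obtain ⟨p, hp, hxp⟩ := hx
        obtain ⟨s, hs, rfl⟩ := Finset.mem_image.1 hp
        have hs2 := (Finset.mem_filter.1 hs).2
        have h3 : g s = hs2.choose := by
          rw [hg]
          simp only [dif_pos hs2]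
        rw [h3] at hxp
        exact hs2.choose_spec.2.1 hxp
  refine ⟨Ultrafilter.of (Filter.generate S), ?_, ?_⟩
  · exact Ultrafilter.of_le _ (Filter.mem_generate_of_mem (Or.inl rfl))
  · intro c P hP hcP
    exact Ultrafilter.of_le _ (Filter.mem_generate_of_mem (Or.inr ⟨(c, P), hP, hcP, rfl⟩))

end Pool.Agent.MP2a1ef3.N3
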