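import Pool.Agent.Lib.MP_2a1ef3_lc.N3.P.germ_lex
import Pool.Agent.Lib.MP_2a1ef3_lc.N3.P.germ_span

set_option autoImplicit false

namespace Pool.Agent.MP2a1ef3.N3

open Filter

private theorem extract_real {u l : ℝ} {N : ℕ} (hN : 1 ≤ N)
    (h : ∃ᶠ s : ℕ in atTop, ∃ n : ℕ, u + ((s.factorial * N : ℕ) : ℝ) * l = n) :
    0 ≤ l ∧ (∃ z : ℤ, u = z) ∧ (l = 0 → ∃ n : ℕ, u = n) := by
  rw [Filter.frequently_atTop] at h
  refine ⟨?_, ?_, ?_⟩
  · by_contra hl
    push Not at hl
    obtain ⟨s, hs, n, hn⟩ := h (⌈u / (-l)⌉₊ + 1)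
    have h1 : u / (-l) < s := by
      have := Nat.le_ceil (u / (-l))
      have h2 : ((⌈u / (-l)⌉₊ + 1 : ℕ) : ℝ) ≤ s := by exact_mod_cast hs
      push_cast at h2
      linarith
    have h3 : u < s * (-l) := by rwa [div_lt_iff₀ (by linarith)] at h1
    have h4 : (s : ℝ) ≤ ((s.factorial * N : ℕ) : ℝ) := by
      have : s ≤ s.factorial * N :=
        le_trans (Nat.self_le_factorial s) (Nat.le_mul_of_pos_right _ hN)
      exact_mod_cast this
    have h5 : (0 : ℝ) ≤ n := Nat.cast_nonneg n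
    nlinarith
  · obtain ⟨s₁, hs1, n₁, hn1⟩ := h 1
    obtain ⟨s₂, hs2, n₂, hn2⟩ := h (s₁ + 1)
    have hf : s₁.factorial < s₂.factorial := (Nat.factorial_lt hs1).2 hs2
    obtain ⟨D, hD⟩ := Nat.exists_eq_add_of_lt hf
    have hDl : ((((D + 1) * N : ℕ) : ℝ)) * l = ((n₂ : ℤ) - n₁ : ℤ) := by
      have e : ((s₂.factorial * N : ℕ) : ℝ) =
          ((s₁.factorial * N : ℕ) : ℝ) + (((D + 1) * N : ℕ) : ℝ) := by
        rw [hD]; push_cast; ring
      rw [e] at hn2
      push_cast at hn1 hn2 ⊢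
      linarith
    obtain ⟨s, hs, n, hn⟩ := h ((D + 1) * N)
    obtain ⟨m, hm⟩ : (D + 1) * N ∣ s.factorial :=
      Nat.dvd_factorial (Nat.mul_pos (Nat.succ_pos D) hN) hs
    refine ⟨(n : ℤ) - m * N * ((n₂ : ℤ) - n₁), ?_⟩
    have e2 : ((s.factorial * N : ℕ) : ℝ) * l = (m * N : ℝ) * ((((D + 1) * N : ℕ) : ℝ) * l) := by
      rw [hm]; push_cast; ring
    rw [e2, hDl] at hn
    push_cast at hn ⊢
    linarith
  · intro hl
    obtain ⟨s, _, n, hn⟩ := h 0
    refine ⟨n, ?_⟩
    rw [hl, mul_zero, add_zero] at hn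
    exact hn

private theorem extract_pigeon {τ : Type} (T : Finset τ) {A : τ → ℕ → Prop}
    (h : ∃ᶠ s in atTop, ∃ t ∈ T, A t s) : ∃ t ∈ T, ∃ᶠ s in atTop, A t s := by
  by_contra hc
  have h2 : ∀ᶠ s in atTop, ∀ t ∈ T, ¬ A t s := by
    rw [Filter.eventually_all_finset]
    intro t ht
    exact Filter.not_frequently.1 (fun hf => hc ⟨t, ht, hf⟩)
  obtain ⟨s, ⟨t, ht, hA⟩, hs⟩ := (h.and_eventually h2).exists
  exact hs t ht hA

private theorem extract_dual {P : Finset V} (h : Ind P) :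
    ∃ lam : V → R3 →ₗ[ℝ] ℝ, (∀ p ∈ P, ∀ p' ∈ P, lam p (rv p') = if p = p' then 1 else 0) ∧
      ∀ y ∈ Submodule.span ℝ (Set.range (fun p : P => rv p.1)), y = ∑ p ∈ P, lam p y • rv p := by
  classical
  unfold Ind at h
  let B := Module.Basis.span h
  have hext : ∀ p : P, ∃ f : R3 →ₗ[ℝ] ℝ, f.comp (Submodule.subtype _) = B.coord p :=
    fun p => LinearMap.exists_extend (B.coord p)
  choose f hf using hext
  have hfy : ∀ (p : P) (y : R3) (hy : y ∈ Submodule.span ℝ (Set.range (fun p : P => rv p.1))),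
      f p y = B.repr ⟨y, hy⟩ p := by
    intro p y hy
    have := LinearMap.congr_fun (hf p) ⟨y, hy⟩
    simpa using this
  have hmem : ∀ p : P, rv p.1 ∈ Submodule.span ℝ (Set.range (fun p : P => rv p.1)) :=
    fun p => Submodule.subset_span ⟨p, rfl⟩
  have hB : ∀ p : P, B p = ⟨rv p.1, hmem p⟩ := by
    intro p
    exact Module.Basis.span_apply h p
  refine ⟨fun p => if hp : p ∈ P then f ⟨p, hp⟩ else 0, ?_, ?_⟩
  · intro p hp p' hp'
    simp only [hp, dite_true]
    rw [hfy ⟨p, hp⟩ (rv p') (hmem ⟨p', hp'⟩), ← hB ⟨p', hp'⟩, Module.Basis.repr_self]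
    rw [Finsupp.single_apply]
    by_cases e : p = p'
    · subst e; simp
    · have e' : ¬ (⟨p', hp'⟩ : P) = ⟨p, hp⟩ := fun h => e (congrArg Subtype.val h).symm
      simp [e, e']
  · intro y hy
    rw [← Finset.sum_coe_sort P]
    have h1 := B.sum_repr ⟨y, hy⟩
    have h2 := congrArg (fun x : Submodule.span ℝ (Set.range (fun p : P => rv p.1)) => (x : R3)) h1
    simp only [Submodule.coe_sum, Submodule.coe_smul] at h2
    rw [← h2]
    refine Finset.sum_congr rfl fun p _ => ?_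
    rw [h2, hB p]
    simp only [Finset.coe_mem, dite_true, Subtype.coe_eta]
    rw [hfy p y hy]

private theorem extract_dp (g : R3 →ₗ[ℝ] ℝ) : ∃ f : R3, ∀ x, dp f x = g x := by
  refine ⟨fun j => g (Pi.single j 1), fun x => ?_⟩
  rw [LinearMap.pi_apply_eq_sum_univ g x, Fin.sum_univ_three]
  have e : ∀ j : Fin 3, (fun k => if j = k then (1 : ℝ) else 0) = Pi.single j 1 := by
    intro j; funext k
    by_cases h : j = k
    · subst h; simp
    · simp [h, Ne.symm h]
  simp only [e, dp, smul_eq_mul]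
  ring

private theorem extract_rv_inj {x y : V} (h : rv x = rv y) : x = y := by
  funext j
  have := congrFun h j
  simp only [rv, Nat.cast_inj] at this
  exact this

private theorem extract_zv {x y : V} {x₀ : Z3} {k : ℕ} (h : zv x = x₀ + (k : ℤ) • zv y) :
    rv x = iv x₀ + (k : ℝ) • rv y := by
  funext j
  have := congrFun h j
  simp only [zv, Pi.add_apply, Pi.smul_apply, smul_eq_mul] at this
  simp only [rv, iv, Pi.add_apply, Pi.smul_apply, smul_eq_mul]
  exact_mod_cast this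

private theorem extract_rv_sum (P : Finset V) (n : V → ℕ) :
    rv (∑ p ∈ P, n p • p) = ∑ p ∈ P, (n p : ℝ) • rv p := by
  funext j
  simp only [rv, Finset.sum_apply, Pi.smul_apply, smul_eq_mul]
  push_cast
  rfl

private theorem extract_rv_add (x y : V) : rv (x + y) = rv x + rv y := by
  funext j
  simp [rv]

theorem p_extract : S_extract := by
  classical
  intro X T hT hX x₀ N hN q v w K₀ hw
  -- one linear set
  have h1 : ∃ᶠ K : ℕ in atTop, ∃ t ∈ T, ∃ᶠ s : ℕ in atTop, ∃ n : V → ℕ,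
      iv x₀ + ((s.factorial * N : ℕ) : ℝ) • rv (germ q v w K) =
        rv t.1 + ∑ p ∈ t.2, (n p : ℝ) • rv p := by
    refine Filter.Eventually.frequently ?_
    filter_upwards [eventually_ge_atTop K₀] with K hK
    refine extract_pigeon T (Filter.Frequently.of_forall fun s => ?_)
    obtain ⟨x, hx, hxe⟩ := hw K hK s.factorial (Nat.factorial_pos s)
    rw [hX] at hx
    simp only [Set.mem_iUnion, exists_prop] at hx
    obtain ⟨t, ht, n, hn⟩ := hx
    refine ⟨t, ht, n, ?_⟩
    rw [← extract_zv hxe, hn, extract_rv_add, extract_rv_sum]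
  obtain ⟨⟨c, P₀⟩, ht, h2⟩ := extract_pigeon T h1
  obtain ⟨hBd, hInd⟩ := hT _ ht
  simp only at h2 hBd hInd
  obtain ⟨lam, hlam1, hlam2⟩ := extract_dual hInd
  set W := Submodule.span ℝ (Set.range (fun p : P₀ => rv p.1)) with hW
  have hsumW : ∀ g : V → ℝ, ∑ p ∈ P₀, g p • rv p ∈ W := by
    intro g
    refine Submodule.sum_mem _ fun p hp => Submodule.smul_mem _ _ ?_
    exact Submodule.subset_span ⟨⟨p, hp⟩, rfl⟩
  have hlamsum : ∀ (g : V → ℝ), ∀ p ∈ P₀, lam p (∑ p' ∈ P₀, g p' • rv p') = g p := by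
    intro g p hp
    rw [map_sum]
    have : ∀ p' ∈ P₀, lam p (g p' • rv p') = if p = p' then g p' else 0 := by
      intro p' hp'
      rw [map_smul, hlam1 p hp p' hp', smul_eq_mul]
      split_ifs <;> simp
    rw [Finset.sum_congr rfl this, Finset.sum_ite_eq]
    simp [hp]
  -- the facts for the good K
  have key : ∀ K : ℕ, (∃ᶠ s : ℕ in atTop, ∃ n : V → ℕ,
      iv x₀ + ((s.factorial * N : ℕ) : ℝ) • rv (germ q v w K) =
        rv c + ∑ p ∈ P₀, (n p : ℝ) • rv p) →
      rv (germ q v w K) ∈ W ∧ iv x₀ - rv c ∈ W ∧ ∀ p ∈ P₀,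
        0 ≤ lam p (rv (germ q v w K)) ∧ (∃ z : ℤ, lam p (iv x₀ - rv c) = z) ∧
          (lam p (rv (germ q v w K)) = 0 → ∃ n : ℕ, lam p (iv x₀ - rv c) = n) := by
    intro K hK
    have hmem : rv (germ q v w K) ∈ W := by
      have hK' := hK
      rw [Filter.frequently_atTop] at hK'
      obtain ⟨s₁, hs1, n₁, hn1⟩ := hK' 1
      obtain ⟨s₂, hs2, n₂, hn2⟩ := hK' (s₁ + 1)
      have hf : s₁.factorial < s₂.factorial := (Nat.factorial_lt hs1).2 hs2
      obtain ⟨D, hD⟩ := Nat.exists_eq_add_of_lt hf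
      have e : (((D + 1) * N : ℕ) : ℝ) • rv (germ q v w K) =
          ∑ p ∈ P₀, (n₂ p : ℝ) • rv p - ∑ p ∈ P₀, (n₁ p : ℝ) • rv p := by
        have e1 : ((s₂.factorial * N : ℕ) : ℝ) =
            ((s₁.factorial * N : ℕ) : ℝ) + (((D + 1) * N : ℕ) : ℝ) := by
          rw [hD]; push_cast; ring
        rw [e1, add_smul] at hn2
        have e2 : (((D + 1) * N : ℕ) : ℝ) • rv (germ q v w K) =
            (iv x₀ + (((s₁.factorial * N : ℕ) : ℝ) • rv (germ q v w K) +
              (((D + 1) * N : ℕ) : ℝ) • rv (germ q v w K))) -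
            (iv x₀ + ((s₁.factorial * N : ℕ) : ℝ) • rv (germ q v w K)) := by abel
        rw [e2, hn1, hn2]; abel
      have hne : ((((D + 1) * N : ℕ) : ℝ)) ≠ 0 := by
        have : 0 < (D + 1) * N := Nat.mul_pos (Nat.succ_pos D) hN
        exact_mod_cast this.ne'
      have e3 : rv (germ q v w K) = ((((D + 1) * N : ℕ) : ℝ))⁻¹ •
          ((((D + 1) * N : ℕ) : ℝ) • rv (germ q v w K)) := by
        rw [smul_smul, inv_mul_cancel₀ hne, one_smul]
      rw [e3, e]
      exact Submodule.smul_mem _ _ (Submodule.sub_mem _ (hsumW _) (hsumW _))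
    refine ⟨hmem, ?_, ?_⟩
    · obtain ⟨s, n, hn⟩ := hK.exists
      have e : iv x₀ - rv c = ∑ p ∈ P₀, (n p : ℝ) • rv p -
          ((s.factorial * N : ℕ) : ℝ) • rv (germ q v w K) := by
        have e1 : iv x₀ = rv c + ∑ p ∈ P₀, (n p : ℝ) • rv p -
            ((s.factorial * N : ℕ) : ℝ) • rv (germ q v w K) := by
          rw [← hn]; abel
        rw [e1]; abel
      rw [e]
      exact Submodule.sub_mem _ (hsumW _) (Submodule.smul_mem _ _ hmem)
    · intro p hp
      apply extract_real hN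
      refine hK.mono ?_
      rintro s ⟨n, hn⟩
      refine ⟨n p, ?_⟩
      have e1 : ∑ p ∈ P₀, (n p : ℝ) • rv p = (iv x₀ - rv c) +
          ((s.factorial * N : ℕ) : ℝ) • rv (germ q v w K) := by
        have : ∑ p ∈ P₀, (n p : ℝ) • rv p =
            (rv c + ∑ p ∈ P₀, (n p : ℝ) • rv p) - rv c := by abel
        rw [this, ← hn]; abel
      have e2 := hlamsum (fun p => (n p : ℝ)) p hp
      rw [e1, map_add, map_smul, smul_eq_mul] at e2
      exact e2
  have hspan : rv q ∈ W ∧ rv v ∈ W ∧ rv w ∈ W :=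
    p_germ_span (h2.mono fun K hK => (key K hK).1)
  have hgW : ∀ K, rv (germ q v w K) ∈ W := by
    intro K
    have e : rv (germ q v w K) = ((K : ℝ) ^ 2) • rv q + (K : ℝ) • rv v + rv w := by
      funext j
      simp [rv, germ]
    rw [e]
    exact Submodule.add_mem _ (Submodule.add_mem _ (Submodule.smul_mem _ _ hspan.1)
      (Submodule.smul_mem _ _ hspan.2.1)) hspan.2.2
  obtain ⟨K₁, hK₁⟩ := h2.exists
  have hkey := key K₁ hK₁
  -- the two kinds
  let P := P₀.filter (fun p => ∃ᶠ K : ℕ in atTop, 0 < lam p (rv (germ q v w K)))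
  have hPsub : P ⊆ P₀ := Finset.filter_subset _ _
  have hPpos : ∀ p ∈ P, ∀ᶠ K : ℕ in atTop, 0 < lam p (rv (germ q v w K)) := by
    intro p hp
    obtain ⟨f, hf⟩ := extract_dp (lam p)
    have h3 := (Finset.mem_filter.1 hp).2
    simp only [← hf] at h3 ⊢
    exact p_germ_lex.1 (p_germ_lex.2 h3)
  have hPzero : ∀ p ∈ P₀, p ∉ P → ∀ K, lam p (rv (germ q v w K)) = 0 := by
    intro p hp hpP K
    have h3 : ∀ᶠ K : ℕ in atTop, ¬ 0 < lam p (rv (germ q v w K)) := by
      rw [← Filter.not_frequently]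
      intro h4
      exact hpP (Finset.mem_filter.2 ⟨hp, h4⟩)
    have h5 : ∃ᶠ K : ℕ in atTop, rv (germ q v w K) ∈ LinearMap.ker (lam p) := by
      refine (h2.and_eventually h3).mono ?_
      rintro K ⟨hK, hK3⟩
      have := ((key K hK).2.2 p hp).1
      rw [LinearMap.mem_ker]
      push Not at hK3
      exact le_antisymm hK3 this
    obtain ⟨e1, e2, e3⟩ := p_germ_span h5
    rw [LinearMap.mem_ker] at e1 e2 e3
    have e : rv (germ q v w K) = ((K : ℝ) ^ 2) • rv q + (K : ℝ) • rv v + rv w := by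
      funext j
      simp [rv, germ]
    rw [e, map_add, map_add, map_smul, map_smul, e1, e2, e3]
    simp
  refine ⟨P, fun p hp => hBd p (hPsub hp), ?_, ?_, ?_⟩
  · unfold Ind at hInd ⊢
    exact hInd.comp (fun p : P => (⟨p.1, hPsub p.2⟩ : P₀))
      (fun a b h => Subtype.ext (congrArg (fun x : P₀ => (x : V)) h))
  · have h3 : ∀ᶠ K : ℕ in atTop, ∀ p ∈ P, 0 < lam p (rv (germ q v w K)) := by
      rw [Filter.eventually_all_finset]
      exact hPpos
    filter_upwards [h3] with K hK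
    refine ⟨fun p => lam p (rv (germ q v w K)), hK, ?_⟩
    have h4 := hlam2 _ (hgW K)
    rw [h4]
    have h5 : ∀ g : V → R3, ∑ p ∈ P, lam p (rv (germ q v w K)) • g p =
        ∑ p ∈ P₀, lam p (rv (germ q v w K)) • g p := by
      intro g
      refine Finset.sum_subset hPsub fun p hp hpP => ?_
      rw [hPzero p hp hpP K, zero_smul]
    rw [← h4]
    rw [h5 rv]
    exact h4
  · intro m hm
    have hz : ∀ p, ∃ z : ℤ, p ∈ P₀ → lam p (iv x₀ - rv c) = z := by
      intro p
      by_cases hp : p ∈ P₀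
      · obtain ⟨z, hz⟩ := (hkey.2.2 p hp).2.1
        exact ⟨z, fun _ => hz⟩
      · exact ⟨0, fun h => absurd h hp⟩
    choose z hz using hz
    have hz0 : ∀ p ∈ P₀, p ∉ P → 0 ≤ z p := by
      intro p hp hpP
      obtain ⟨n, hn⟩ := (hkey.2.2 p hp).2.2 (hPzero p hp hpP K₁)
      rw [hz p hp] at hn
      have : z p = n := by exact_mod_cast hn
      omega
    have hev : ∀ᶠ t : ℕ in atTop, ∀ p ∈ P, (z p).natAbs ≤ t := by
      rw [Filter.eventually_all_finset]
      exact fun p _ => eventually_ge_atTop _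
    filter_upwards [hev] with t ht x hx
    rw [hX]
    simp only [Set.mem_iUnion, exists_prop]
    refine ⟨(c, P₀), by assumption, ?_⟩
    refine ⟨fun p => (z p + if p ∈ P then ((t * N * m p : ℕ) : ℤ) else 0).toNat, ?_⟩
    apply extract_rv_inj
    have hnn : ∀ p ∈ P₀, 0 ≤ z p + if p ∈ P then ((t * N * m p : ℕ) : ℤ) else 0 := by
      intro p hp
      split_ifs with hpP
      · have h6 := ht p hpP
        have h7 : t ≤ t * N * m p := by
          have : t * 1 ≤ t * (N * m p) := Nat.mul_le_mul_left _ (Nat.mul_pos hN (hm p hpP))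
          rw [mul_one, ← mul_assoc] at this
          exact this
        have h8 : (z p).natAbs ≤ t * N * m p := le_trans h6 h7
        omega
      · have := hz0 p hp hpP
        omega
    rw [extract_zv hx, extract_rv_add, extract_rv_sum, extract_rv_sum]
    have e1 : ∑ p ∈ P₀, (((z p + if p ∈ P then ((t * N * m p : ℕ) : ℤ) else 0).toNat : ℕ) : ℝ) •
        rv p = ∑ p ∈ P₀, lam p (iv x₀ - rv c) • rv p +
          ((t * N : ℕ) : ℝ) • ∑ p ∈ P, (m p : ℝ) • rv p := by
      have e2 : ∑ p ∈ P, (m p : ℝ) • rv p =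
          ∑ p ∈ P₀, (if p ∈ P then (m p : ℝ) else 0) • rv p := by
        rw [← Finset.sum_subset hPsub (f := fun p => (if p ∈ P then (m p : ℝ) else 0) • rv p)]
        · refine Finset.sum_congr rfl fun p hp => ?_
          simp [hp]
        · intro p _ hpP
          simp [hpP]
      rw [e2, Finset.smul_sum, ← Finset.sum_add_distrib]
      refine Finset.sum_congr rfl fun p hp => ?_
      rw [smul_smul, ← add_smul, hz p hp]
      congr 1
      have h9 : (((z p + if p ∈ P then ((t * N * m p : ℕ) : ℤ) else 0).toNat : ℕ) : ℤ) =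
          z p + if p ∈ P then ((t * N * m p : ℕ) : ℤ) else 0 := Int.toNat_of_nonneg (hnn p hp)
      have h10 : ((((z p + if p ∈ P then ((t * N * m p : ℕ) : ℤ) else 0).toNat : ℕ) : ℤ) : ℝ) =
          ((z p + if p ∈ P then ((t * N * m p : ℕ) : ℤ) else 0 : ℤ) : ℝ) := by rw [h9]
      rw [Int.cast_natCast] at h10
      rw [h10]
      split_ifs
      · push_cast; ring
      · push_cast; ring
    rw [e1, ← hlam2 _ hkey.2.1]
    abel

end Pool.Agent.MP2a1ef3.N3
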