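import Pool.Agent.Lib.MP_2a1ef3_lc.N3.Stm

/-!
MP_2a1ef3_lc, dimension three, piece fl.
-/

set_option autoImplicit false

open Filter

namespace Pool.Agent.MP2a1ef3.N3

private theorem fl_id (a b c x : R3) (j : Fin 3) :
    dt a b c * x j = dt b c x * a j + dt c a x * b j + dt a b x * c j := by
  unfold dt
  fin_cases j <;> simp <;> ring

private theorem fl_one {a b c x : R3} {j : Fin 3} (hD : 0 < dt a b c) (hx : 0 < x j)
    (ha : 0 ≤ a j) (hb : b j = 0) (hc : 0 ≤ c j) : 0 < dt a b x ∨ 0 < dt b c x := by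
  by_contra hcon
  push Not at hcon
  have h1 := fl_id a b c x j
  rw [hb, mul_zero, add_zero] at h1
  have h2 : dt b c x * a j ≤ 0 := mul_nonpos_of_nonpos_of_nonneg hcon.2 ha
  have h3 : dt a b x * c j ≤ 0 := mul_nonpos_of_nonpos_of_nonneg hcon.1 hc
  have h4 := mul_pos hD hx
  linarith

private theorem fl_cyc (a b c : R3) : dt b c a = dt a b c := by
  unfold dt
  ring

theorem p_fl : S_fl := by
  intro a b c ha hb hc h x hx
  have hn : ∀ (v : V) (j : Fin 3), 0 ≤ rv v j := fun v j => Nat.cast_nonneg _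
  have hz : ∀ (v : V) (j : Fin 3), v j = 0 → rv v j = 0 := fun v j hv => by
    unfold rv
    rw [hv, Nat.cast_zero]
  have h2 : 0 < dt (rv b) (rv c) (rv a) := by rw [fl_cyc]; exact h
  have h3 : 0 < dt (rv c) (rv a) (rv b) := by rw [fl_cyc]; exact h2
  obtain ⟨i, hi⟩ := ha
  obtain ⟨j, hj⟩ := hb
  obtain ⟨k, hk⟩ := hc
  exact ⟨fl_one h (hx j) (hn a j) (hz b j hj) (hn c j),
    fl_one h2 (hx k) (hn b k) (hz c k hk) (hn a k),
    fl_one h3 (hx i) (hn c i) (hz a i hi) (hn b i)⟩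

end Pool.Agent.MP2a1ef3.N3
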