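import Pool.Agent.Lib.MP_2a1ef3_lc.N3.Stm

set_option autoImplicit false

namespace Pool.Agent.MP2a1ef3.N3

open Filter

private theorem forall_tuple_cons {α γ : Type} [Primcodable α] [Primcodable γ] {n : ℕ}
    {a : γ → α} {f : γ → Fin n → α} (ha : Primrec a) (hf : Primrec f) :
    Primrec (fun x => (Fin.cons (a x) (f x) : Fin (n + 1) → α)) := by
  rw [Primrec.fin_curry]
  have h : Primrec₂ (fun (i : Fin (n + 1)) (x : γ) => (Fin.cons (a x) (f x) : Fin (n + 1) → α) i) := by
    rw [Primrec.fin_curry₁]
    intro i
    refine Fin.cases ?_ (fun j => ?_) i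
    · simpa using ha
    · simp only [Fin.cons_succ]
      exact (Primrec.fin_app.comp hf (Primrec.const j))
  exact h.swap

private theorem forall_tuple_aux {α : Type} [Primcodable α] (n : ℕ) :
    ∀ {β : Type} [Primcodable β] {R : (Fin n → α) × β → Prop}, PrimrecPred R →
    PrimrecPred (fun x : List α × β => ∀ f : Fin n → α, (∀ i, f i ∈ x.1) → R (f, x.2)) := by
  induction n with
  | zero =>
    intro β _ R hR
    have h : PrimrecPred (fun x : List α × β => R (Fin.elim0, x.2)) :=
      hR.comp (Primrec.pair (Primrec.const _) Primrec.snd)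
    refine h.of_eq fun x => ?_
    constructor
    · intro hx f _
      have : f = Fin.elim0 := Subsingleton.elim _ _
      rw [this]; exact hx
    · intro hx
      exact hx _ (fun i => i.elim0)
  | succ n ih =>
    intro β _ R hR
    have h1 : PrimrecPred (fun y : (Fin n → α) × (α × β) =>
        R ((Fin.cons y.2.1 y.1 : Fin (n + 1) → α), y.2.2)) := by
      refine hR.comp (Primrec.pair ?_ (Primrec.snd.comp Primrec.snd))
      exact forall_tuple_cons (Primrec.fst.comp Primrec.snd) Primrec.fst
    have h2 := ih h1
    have h3 : PrimrecRel (fun (a : α) (y : List α × β) =>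
        ∀ f : Fin n → α, (∀ i, f i ∈ y.1) → R ((Fin.cons a f : Fin (n + 1) → α), y.2)) := by
      refine h2.comp (Primrec.pair (Primrec.fst.comp Primrec.snd)
        (Primrec.pair Primrec.fst (Primrec.snd.comp Primrec.snd)))
    have h4 := h3.forall_mem_list
    have h5 : PrimrecPred (fun x : List α × β => ∀ a ∈ x.1, ∀ f : Fin n → α,
        (∀ i, f i ∈ x.1) → R ((Fin.cons a f : Fin (n + 1) → α), x.2)) :=
      h4.comp Primrec.fst Primrec.id
    refine h5.of_eq fun x => ?_
    constructor
    · intro hx f hf
      have := hx (f 0) (hf 0) (fun i => f i.succ) (fun i => hf i.succ)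
      have e : (Fin.cons (f 0) (fun i => f i.succ) : Fin (n + 1) → α) = f := Fin.cons_self_tail f
      rwa [e] at this
    · intro hx a ha f hf
      refine hx _ (fun i => ?_)
      refine Fin.cases ?_ (fun j => ?_) i
      · simpa using ha
      · simpa using hf j

theorem p_forall_tuple : S_forall_tuple := by
  intro α β _ _ n R hR
  exact forall_tuple_aux n hR

end Pool.Agent.MP2a1ef3.N3
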