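import Pool.Agent.Lib.MP_2a1ef3_lc.N3.Stm

set_option autoImplicit false

namespace Pool.Agent.MP2a1ef3.N3

open Filter

private theorem geo_ne_zero {C : Finset V} (hI : Ind C) {k : V} (hk : k ∈ C) : k ≠ 0 := by
  intro h0
  have := hI.ne_zero ⟨k, hk⟩
  apply this
  funext j
  simp [rv, h0]

/-- Parallel vectors are proportional. -/
private theorem geo_par {k p : R3} (hk : ∀ j, 0 ≤ k j) (hk0 : k ≠ 0) (hp : ∀ j, 0 ≤ p j)
    (hp0 : p ≠ 0) (h : Par k p) : ∃ c : ℝ, 0 < c ∧ p = c • k := by
  have e0 := h ![1, 0, 0]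
  have e1 := h ![0, 1, 0]
  have e2 := h ![0, 0, 1]
  simp only [dt, Matrix.cons_val_zero, Matrix.cons_val_one, Matrix.cons_val] at e0 e1 e2
  obtain ⟨i, hi⟩ : ∃ i, k i ≠ 0 := by
    by_contra hcon
    push Not at hcon
    exact hk0 (funext hcon)
  have hki : 0 < k i := lt_of_le_of_ne (hk i) (Ne.symm hi)
  have hprop : p = (p i / k i) • k := by
    funext j
    simp only [Pi.smul_apply, smul_eq_mul]
    rw [div_mul_eq_mul_div, eq_div_iff hi]
    fin_cases i <;> fin_cases j <;> simp at * <;> linarith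
  refine ⟨p i / k i, ?_, hprop⟩
  rcases (div_nonneg (hp i) (hk i)).eq_or_lt with h0 | h0
  · exact absurd (by rw [hprop, ← h0, zero_smul]) hp0
  · exact h0

theorem p_geo (h1 : S_exists_lim) (h2 : S_exists_dir) (h3 : S_ray_case) (h4 : S_regime1)
    (h5 : S_regime2a) (h6 : S_regime2b) : S_geo := by
  classical
  intro CC hI hG F hF hB
  by_cases H : AllCov CC
  · left
    obtain ⟨p, hp, hp0, hL⟩ := h1 hF
    by_cases hpk : ∀ k ∈ Vk CC, ¬ Par (rv k) p
    · exact h4 hI hG hF hB H hp hp0 hL hpk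
    · push Not at hpk
      obtain ⟨k, hk, hkp⟩ := hpk
      have hk0 : k ≠ 0 := by
        obtain ⟨C, hC, hkC⟩ := Finset.mem_biUnion.1 hk
        exact geo_ne_zero (hI C hC) hkC
      have hrk0 : rv k ≠ 0 := by
        intro h
        apply hk0
        funext j
        have := congrFun h j
        simpa [rv] using this
      obtain ⟨c, hc, hpc⟩ := geo_par (fun j => by simp [rv]) hrk0 hp hp0 hkp
      have hLk : Lim F (rv k) := by
        intro f hf
        apply hL f
        rw [hpc]
        have : dp f (c • rv k) = c * dp f (rv k) := by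
          simp only [dp, Pi.smul_apply, smul_eq_mul]; ring
        rw [this]
        exact mul_pos hc hf
      by_cases hray : ∀ᶠ x in (F : Filter V), Par (rv k) (rv x)
      · exact h3 hF hB H ⟨k, hk0, hray⟩
      · have hnp : ∀ᶠ x in (F : Filter V), ¬ Par (rv k) (rv x) := by
          rwa [Filter.not_eventually, Ultrafilter.frequently_iff_eventually] at hray
        obtain ⟨v, hv, hv', hkv, hD⟩ := h2 hk0 hnp
        by_cases hgen : ∀ kb ∈ VV CC, ¬ Par (rv k) (rv kb) → dt (rv k) (rv kb) v ≠ 0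
        · exact h6 hI hG hF hB H hk hk0 hLk hv hv' hkv hD hnp hgen
        · push Not at hgen
          obtain ⟨kb, hkb, hkkb, h0⟩ := hgen
          exact h5 hI hF hB H hk hk0 hLk hv hkv hD hkb hkkb h0
  · right
    unfold AllCov at H
    push Not at H
    obtain ⟨q, v, w, hq1, hq2, hq3⟩ := H
    exact ⟨q, v, w, hq1, hq2, hq3⟩

end Pool.Agent.MP2a1ef3.N3
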