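import Pool.Agent.Lib.MP_2a1ef3_lc.N3.Stm

set_option autoImplicit false

namespace Pool.Agent.MP2a1ef3.N3

open Filter

/-- the sign of the leading coefficient -/
private theorem germ_cone_pos (α β γ M : ℤ) (hM : |β| + |γ| < M) (h : 0 < α ∨ (α = 0 ∧ 0 < β)) :
    (0 < α → 0 < M * α + β) ∧ 0 < M ^ 2 * α + M * β + γ := by
  have h1 := neg_abs_le β
  have h2 := neg_abs_le γ
  have h3 := abs_nonneg β
  have h4 := abs_nonneg γ
  have hM0 : 0 < M := by linarith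
  have h5 : 0 < α → 0 < M * α + β := by
    intro ha
    have : M ≤ M * α := by nlinarith
    linarith
  refine ⟨h5, ?_⟩
  rcases h with ha | ⟨ha, hb⟩
  · have h6 := h5 ha
    have h7 : M ≤ M * (M * α + β) := by nlinarith
    have h8 : M ^ 2 * α + M * β + γ = M * (M * α + β) + γ := by ring
    linarith
  · subst ha
    have h7 : M ≤ M * β := by nlinarith
    have h8 : M ^ 2 * 0 + M * β + γ = M * β + γ := by ring
    linarith

private theorem germ_cone_pos' (α β γ M N t₁ t₂ t₃ : ℤ) (hM : |β| + |γ| < M) (hN : |β| + |γ| < N)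
    (h1 : 1 ≤ t₁) (h2 : 1 ≤ t₂) (h3 : 1 ≤ t₃) (h : 0 < α ∨ (α = 0 ∧ 0 < β)) :
    0 < t₁ * α + t₂ * (M * α + β) + t₃ * (M ^ 2 * α + M * β + γ) ∧
      0 < N ^ 2 * α + N * β + γ := by
  obtain ⟨a1, a2⟩ := germ_cone_pos α β γ M hM h
  obtain ⟨-, b2⟩ := germ_cone_pos α β γ N hN h
  refine ⟨?_, b2⟩
  have c3 : 0 < t₃ * (M ^ 2 * α + M * β + γ) := mul_pos (by linarith) a2
  rcases h with ha | ⟨ha, hb⟩
  · have c1 : 0 < t₁ * α := mul_pos (by linarith) ha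
    have c2 : 0 < t₂ * (M * α + β) := mul_pos (by linarith) (a1 ha)
    linarith
  · have c1 : t₁ * α = 0 := by rw [ha]; ring
    have c2 : 0 < t₂ * (M * α + β) := by
      rw [ha]
      refine mul_pos (by linarith) ?_
      linarith
    linarith

private theorem germ_cone_sign (α β γ M N t₁ t₂ t₃ : ℤ) (hM : |β| + |γ| < M) (hN : |β| + |γ| < N)
    (h1 : 1 ≤ t₁) (h2 : 1 ≤ t₂) (h3 : 1 ≤ t₃) :
    SignType.sign (t₁ * α + t₂ * (M * α + β) + t₃ * (M ^ 2 * α + M * β + γ)) =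
      SignType.sign (N ^ 2 * α + N * β + γ) := by
  by_cases hp : 0 < α ∨ (α = 0 ∧ 0 < β)
  · obtain ⟨a, b⟩ := germ_cone_pos' α β γ M N t₁ t₂ t₃ hM hN h1 h2 h3 hp
    rw [sign_pos a, sign_pos b]
  · by_cases hn : 0 < -α ∨ (-α = 0 ∧ 0 < -β)
    · obtain ⟨a, b⟩ := germ_cone_pos' (-α) (-β) (-γ) M N t₁ t₂ t₃ (by simpa using hM)
        (by simpa using hN) h1 h2 h3 hn
      have a' : t₁ * α + t₂ * (M * α + β) + t₃ * (M ^ 2 * α + M * β + γ) < 0 := by linarith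
      have b' : N ^ 2 * α + N * β + γ < 0 := by linarith
      rw [sign_neg a', sign_neg b']
    · have ha : α = 0 := by
        by_contra h
        rcases lt_or_gt_of_ne h with h | h
        · exact hn (Or.inl (by linarith))
        · exact hp (Or.inl h)
      subst ha
      have hb : β = 0 := by
        by_contra h
        rcases lt_or_gt_of_ne h with h | h
        · exact hn (Or.inr ⟨by simp, by linarith⟩)
        · exact hp (Or.inr ⟨rfl, h⟩)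
      subst hb
      have e1 : t₁ * 0 + t₂ * (M * 0 + 0) + t₃ * (M ^ 2 * 0 + M * 0 + γ) = t₃ * γ := by ring
      have e2 : N ^ 2 * 0 + N * 0 + γ = γ := by ring
      rw [e1, e2, sign_mul, sign_pos (by linarith : 0 < t₃), one_mul]

theorem p_germ_cone : S_germ_cone := by
  intro H q v w
  set K : ℤ := ∑ h ∈ H, (|h ⬝ᵥ zv v| + |h ⬝ᵥ zv w|) with hK
  have hK' : ∀ h ∈ H, |h ⬝ᵥ zv v| + |h ⬝ᵥ zv w| ≤ K := by
    intro h hh
    exact Finset.single_le_sum (f := fun h : Z3 => |h ⬝ᵥ zv v| + |h ⬝ᵥ zv w|)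
      (fun i _ => by positivity) hh
  refine ⟨K.toNat + 1, fun t₁ t₂ t₃ h1 h2 h3 => ?_⟩
  filter_upwards [eventually_ge_atTop (K.toNat + 1)] with N hN h hh
  have hM : |h ⬝ᵥ zv v| + |h ⬝ᵥ zv w| < ((K.toNat + 1 : ℕ) : ℤ) := by
    have := hK' h hh
    have := Int.self_le_toNat K
    push_cast
    linarith
  have hN' : |h ⬝ᵥ zv v| + |h ⬝ᵥ zv w| < (N : ℤ) := by
    have : ((K.toNat + 1 : ℕ) : ℤ) ≤ N := by exact_mod_cast hN
    linarith
  have key := germ_cone_sign (h ⬝ᵥ zv q) (h ⬝ᵥ zv v) (h ⬝ᵥ zv w) ((K.toNat + 1 : ℕ) : ℤ) N t₁ t₂ t₃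
    hM hN' (by exact_mod_cast h1) (by exact_mod_cast h2) (by exact_mod_cast h3)
  have e1 : h ⬝ᵥ zv (fun j => t₁ * q j + t₂ * ((K.toNat + 1) * q j + v j) +
      t₃ * ((K.toNat + 1) ^ 2 * q j + (K.toNat + 1) * v j + w j)) =
      t₁ * (h ⬝ᵥ zv q) + t₂ * (((K.toNat + 1 : ℕ) : ℤ) * (h ⬝ᵥ zv q) + h ⬝ᵥ zv v) +
        t₃ * (((K.toNat + 1 : ℕ) : ℤ) ^ 2 * (h ⬝ᵥ zv q) + ((K.toNat + 1 : ℕ) : ℤ) * (h ⬝ᵥ zv v) +
          h ⬝ᵥ zv w) := by
    simp only [dotProduct, Fin.sum_univ_three, zv]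
    push_cast
    ring
  have e2 : h ⬝ᵥ zv (germ q v w N) = (N : ℤ) ^ 2 * (h ⬝ᵥ zv q) + N * (h ⬝ᵥ zv v) + h ⬝ᵥ zv w := by
    simp only [dotProduct, Fin.sum_univ_three, zv, germ]
    push_cast
    ring
  rw [e2, ← key, ← e1]

end Pool.Agent.MP2a1ef3.N3
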