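import Pool.Agent.Lib.MP_2a1ef3_lc.N3.Stm

set_option autoImplicit false

namespace Pool.Agent.MP2a1ef3.N3

open Filter

private theorem germ_sameSign_dt (a b : R3) (q v w : V) (N : ℕ) :
    dt a b (rv (germ q v w N)) =
      (N : ℝ) ^ 2 * dt a b (rv q) + (N : ℝ) * dt a b (rv v) + dt a b (rv w) := by
  simp only [dt, rv, germ]
  push_cast
  ring

private theorem germ_sameSign_p1 {A B C : ℝ} (hA : 0 < A) :
    ∀ᶠ N : ℕ in atTop, 0 < (N : ℝ) ^ 2 * A + (N : ℝ) * B + C := by
  obtain ⟨K, hK⟩ := exists_nat_ge ((|B| + |C|) / A + 1)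
  filter_upwards [eventually_ge_atTop K] with N hN
  have h1 : (|B| + |C|) / A + 1 ≤ (N : ℝ) := hK.trans (by exact_mod_cast hN)
  have h2 : |B| + |C| + A ≤ (N : ℝ) * A := by
    have h3 := mul_le_mul_of_nonneg_right h1 hA.le
    have h4 : ((|B| + |C|) / A + 1) * A = |B| + |C| + A := by field_simp
    linarith
  have h5 : (1 : ℝ) ≤ N := by
    have : 0 ≤ (|B| + |C|) / A := by positivity
    linarith
  have h6 : -|B| ≤ B := neg_abs_le B
  have h7 : -|C| ≤ C := neg_abs_le C
  have h8 : |C| + A ≤ (N : ℝ) * A + B := by linarith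
  have h9 : 0 ≤ |C| := abs_nonneg C
  have h10 : |C| + A ≤ (N : ℝ) * ((N : ℝ) * A + B) := by nlinarith
  nlinarith

private theorem germ_sameSign_p2 {B C : ℝ} (hB : 0 < B) :
    ∀ᶠ N : ℕ in atTop, 0 < (N : ℝ) * B + C := by
  obtain ⟨K, hK⟩ := exists_nat_ge (|C| / B + 1)
  filter_upwards [eventually_ge_atTop K] with N hN
  have h1 : |C| / B + 1 ≤ (N : ℝ) := hK.trans (by exact_mod_cast hN)
  have h2 : |C| + B ≤ (N : ℝ) * B := by
    have h3 := mul_le_mul_of_nonneg_right h1 hB.le
    have h4 : (|C| / B + 1) * B = |C| + B := by field_simp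
    linarith
  have h7 : -|C| ≤ C := neg_abs_le C
  linarith

private theorem germ_sameSign_s1 {A B C : ℝ} (hA : A ≠ 0) :
    ∀ᶠ N : ℕ in atTop,
      SignType.sign ((N : ℝ) ^ 2 * A + (N : ℝ) * B + C) = SignType.sign A := by
  rcases lt_or_gt_of_ne hA with h | h
  · filter_upwards [germ_sameSign_p1 (A := -A) (B := -B) (C := -C) (by linarith)] with N hN
    rw [sign_neg h, sign_neg (by linarith)]
  · filter_upwards [germ_sameSign_p1 (B := B) (C := C) h] with N hN
    rw [sign_pos h, sign_pos hN]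

private theorem germ_sameSign_s2 {B C : ℝ} (hB : B ≠ 0) :
    ∀ᶠ N : ℕ in atTop, SignType.sign ((N : ℝ) * B + C) = SignType.sign B := by
  rcases lt_or_gt_of_ne hB with h | h
  · filter_upwards [germ_sameSign_p2 (B := -B) (C := -C) (by linarith)] with N hN
    rw [sign_neg h, sign_neg (by linarith)]
  · filter_upwards [germ_sameSign_p2 (C := C) h] with N hN
    rw [sign_pos h, sign_pos hN]

theorem p_germ_sameSign : S_germ_sameSign := by
  intro CC q u w x₁ h
  unfold SameSign
  rw [Filter.eventually_all_finset]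
  intro k hk
  rw [Filter.eventually_all_finset]
  intro k' hk'
  rcases h k hk k' hk' with ⟨h1, h2⟩ | ⟨h1, ⟨h2, h3⟩ | ⟨h2, h3⟩⟩
  · filter_upwards [germ_sameSign_s1 (B := dt (rv k) (rv k') (rv u))
      (C := dt (rv k) (rv k') (rv w)) h1] with N hN
    rw [germ_sameSign_dt, hN, h2]
  · filter_upwards [germ_sameSign_s2 (C := dt (rv k) (rv k') (rv w)) h2] with N hN
    rw [germ_sameSign_dt, h1, mul_zero, zero_add, hN, h3]
  · filter_upwards with N
    rw [germ_sameSign_dt, h1, h2, mul_zero, mul_zero, zero_add, zero_add, h3]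

end Pool.Agent.MP2a1ef3.N3
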