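import Pool.Agent.Lib.MP_2a1ef3_lc.N3.Stm

/-!
# MP_2a1ef3_lc, dimension three, piece helly_pts
-/

set_option autoImplicit false

namespace Pool.Agent.MP2a1ef3.N3

open Filter

theorem p_helly_pts : S_helly_pts := by
  classical
  intro d α K A hA f hf
  constructor
  · rintro ⟨s, hs, h⟩
    exact ⟨⟨s, hs⟩, fun g hg => ⟨s, hs, fun i => h _ (hg i)⟩⟩
  · rintro ⟨⟨s₀, hs₀⟩, h⟩
    by_cases hK : K = []
    · subst hK
      exact ⟨s₀, hs₀, fun y hy => absurd hy List.not_mem_nil⟩
    have h1 : (⋂ i ∈ K.toFinset, f i ∩ A).Nonempty := by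
      refine Convex.helly_theorem' (𝕜 := ℝ) (F := fun i => f i ∩ A) (s := K.toFinset)
        (fun i _ => (hf i).inter hA) ?_
      intro I hI hcard
      rw [Module.finrank_fin_fun] at hcard
      rcases I.eq_empty_or_nonempty with rfl | hne
      · simp
      · have : Nonempty I := hne.to_subtype
        obtain ⟨e⟩ : Nonempty (I ↪ Fin (d + 1)) := by
          apply Function.Embedding.nonempty_of_card_le
          rw [Fintype.card_coe, Fintype.card_fin]
          exact hcard
        have hsurj := Function.invFun_surjective e.injective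
        obtain ⟨s, hs, hs'⟩ := h (fun i => (Function.invFun e i : I).1)
          (fun i => List.mem_toFinset.1 (hI (Function.invFun e i : I).2))
        refine ⟨s, ?_⟩
        rw [Set.mem_iInter₂]
        intro a ha
        obtain ⟨i, hi⟩ := hsurj ⟨a, ha⟩
        have h2 := hs' i
        rw [hi] at h2
        exact ⟨h2, hs⟩
    obtain ⟨s, hs⟩ := h1
    rw [Set.mem_iInter₂] at hs
    obtain ⟨a, ha⟩ := List.exists_mem_of_ne_nil K hK
    exact ⟨s, (hs a (List.mem_toFinset.2 ha)).2, fun y hy => (hs y (List.mem_toFinset.2 hy)).1⟩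

end Pool.Agent.MP2a1ef3.N3
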