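import Pool.Agent.Lib.MP_2a1ef3_lc.N3.Stm

set_option autoImplicit false

namespace Pool.Agent.MP2a1ef3.N3

open Filter
open Finset Function in
/-- Farkas' lemma for generators of constant total weight. -/
private theorem hexcone_farkas {T E : Type*} [Fintype T] [Fintype E] (A : T → E → ℝ) (w : E → ℝ) (κ : ℝ)
    (hκ : 0 < κ) (hA : ∀ t, A t = 0 ∨ ∑ e, A t e = κ) (hw : ∀ e, 0 ≤ w e)
    (h : ∀ c : E → ℝ, (∀ t, 0 ≤ ∑ e, c e * A t e) → 0 ≤ ∑ e, c e * w e) :
    ∃ z : T → ℝ, (∀ t, 0 ≤ z t) ∧ ∀ e, ∑ t, z t * A t e = w e := by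
  classical
  have hW0 : 0 ≤ ∑ e, w e := Finset.sum_nonneg fun e _ => hw e
  rcases eq_or_lt_of_le hW0 with hW | hW
  · refine ⟨0, fun _ => le_rfl, fun e => ?_⟩
    have := (Finset.sum_eq_zero_iff_of_nonneg fun e _ => hw e).1 hW.symm e (mem_univ e)
    rw [this]
    simp
  · set W := ∑ e, w e with hWdef
    let Φ : (T → ℝ) →ₗ[ℝ] (E → ℝ) :=
      { toFun := fun z e => ∑ t, z t * A t e
        map_add' := by
          intro z z'
          funext e
          simp only [Pi.add_apply, ← Finset.sum_add_distrib]
          exact Finset.sum_congr rfl fun t _ => by ring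
        map_smul' := by
          intro r z
          funext e
          simp only [Pi.smul_apply, smul_eq_mul, RingHom.id_apply, Finset.mul_sum]
          exact Finset.sum_congr rfl fun t _ => by ring }
    have hΦ : ∀ z e, Φ z e = ∑ t, z t * A t e := fun z e => rfl
    have hΦc : Continuous Φ := by
      refine continuous_pi fun e => ?_
      simp only [hΦ]
      fun_prop
    by_cases hmem : (κ / W) • w ∈ Φ '' stdSimplex ℝ T
    · obtain ⟨z, hz, hzw⟩ := hmem
      refine ⟨fun t => W / κ * z t, fun t => mul_nonneg (by positivity) (hz.1 t), fun e => ?_⟩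
      have h1 : Φ z e = κ / W * w e := by rw [hzw]; rfl
      have h2 : ∑ t, W / κ * z t * A t e = W / κ * Φ z e := by
        rw [hΦ, Finset.mul_sum]
        exact Finset.sum_congr rfl fun t _ => by ring
      rw [h2, h1]
      field_simp
    · exfalso
      obtain ⟨f, u, hfu, huf⟩ := geometric_hahn_banach_point_closed
        ((convex_stdSimplex ℝ T).linear_image Φ)
        ((isCompact_stdSimplex ℝ T).image hΦc).isClosed hmem
      have hfx : ∀ x : E → ℝ, f x = ∑ e, f (fun j => if e = j then 1 else 0) * x e := by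
        intro x
        have := LinearMap.pi_apply_eq_sum_univ (f : (E → ℝ) →ₗ[ℝ] ℝ) x
        simp only [smul_eq_mul] at this
        rw [show f x = (f : (E → ℝ) →ₗ[ℝ] ℝ) x from rfl, this]
        exact Finset.sum_congr rfl fun e _ => mul_comm _ _
      have hAt : ∀ t, u < f (A t) := by
        intro t
        refine huf _ ⟨Pi.single t 1, single_mem_stdSimplex ℝ t, ?_⟩
        funext e
        rw [hΦ, Finset.sum_eq_single t]
        · simp
        · intro b _ hb
          simp [Pi.single_eq_of_ne hb]
        · simp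
      have h1 := h (fun e => f (fun j => if e = j then 1 else 0) - u / κ) (by
        intro t
        rcases hA t with h0 | h0
        · simp [h0]
        · simp only [sub_mul, Finset.sum_sub_distrib, ← hfx, ← Finset.mul_sum, h0]
          rw [div_mul_cancel₀ _ hκ.ne']
          linarith [hAt t])
      simp only [sub_mul, Finset.sum_sub_distrib, ← hfx, ← Finset.mul_sum, ← hWdef] at h1
      rw [map_smul, smul_eq_mul] at hfu
      have h2 : κ / W * f w < κ / W * (u / κ * W) := by
        have : κ / W * (u / κ * W) = u := by field_simp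
        rw [this]
        exact hfu
      have h3 := lt_of_mul_lt_mul_left h2 (by positivity)
      linarith


/-- sums over the image of a finite set -/
private theorem hexcone_image {T : Type*} (F : Finset T) (g : T → V) (μ : T → ℝ)
    (hμ : ∀ t ∈ F, 0 ≤ μ t) : ∑ t ∈ F, μ t • rv (g t) ∈ ccone (F.image g) := by
  classical
  refine ⟨fun p => ∑ t ∈ F.filter (fun t => g t = p), μ t, ?_, ?_⟩
  · intro p _
    exact Finset.sum_nonneg fun t ht => hμ t (Finset.mem_filter.1 ht).1
  · rw [← Finset.sum_fiberwise_of_maps_to (s := F) (t := F.image g) (g := g)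
      (fun t ht => Finset.mem_image_of_mem g ht)]
    refine Finset.sum_congr rfl fun p _ => ?_
    rw [Finset.sum_smul]
    refine Finset.sum_congr rfl fun t ht => ?_
    rw [(Finset.mem_filter.1 ht).2]

private theorem hexcone_gv (i j : Fin 3) (hij : i ≠ j) (r : ℚ) (hr : 0 < r) (t : Fin 3) :
    rv (gv i j r) t = (r.den : ℝ) * (if t = i then (r : ℝ) else if t = j then 1 else 0) := by
  unfold rv gv
  have hden : (0 : ℝ) < (r.den : ℝ) := by exact_mod_cast r.pos
  have hnum : ((r.num.toNat : ℕ) : ℝ) = (r.num : ℝ) := by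
    have h1 : ((r.num.toNat : ℕ) : ℤ) = r.num := Int.toNat_of_nonneg (Rat.num_pos.2 hr).le
    exact_mod_cast h1
  have hr' : (r : ℝ) = (r.num : ℝ) / (r.den : ℝ) := Rat.cast_def r
  by_cases h1 : t = i
  · simp only [h1, if_true]
    rw [hnum, hr']
    field_simp
  · by_cases h2 : t = j
    · subst h2
      simp only [h1, if_false, if_true, mul_one]
    · simp only [h1, h2, if_false, mul_zero, Nat.cast_zero]

private theorem hexcone_pos (s : Fin 3 → Fin 3 → ℝ) (x c : R3) (hx : ∀ j, 0 ≤ x j)
    (hc : ∀ i, 0 ≤ cut i (s i) x) (h : ∀ i j, i ≠ j → 0 ≤ s i j * c i + c j) :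
    0 ≤ ∑ e, c e * x e := by
  by_cases hall : ∀ i, 0 ≤ c i
  · exact Finset.sum_nonneg fun e _ => mul_nonneg (hall e) (hx e)
  · push Not at hall
    obtain ⟨i, hi⟩ := hall
    have h1 := hc i
    unfold cut at h1
    rw [← Finset.add_sum_erase Finset.univ (fun e => c e * x e) (Finset.mem_univ i)]
    have h2 : ∑ j ∈ Finset.univ.erase i, -(c i) * (s i j * x j) ≤
        ∑ j ∈ Finset.univ.erase i, c j * x j := by
      refine Finset.sum_le_sum fun j hj => ?_
      have hij : i ≠ j := (Finset.ne_of_mem_erase hj).symm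
      have h3 := mul_le_mul_of_nonneg_right (h i j hij) (hx j)
      nlinarith [h3]
    rw [← Finset.mul_sum] at h2
    have h4 : 0 ≤ -(c i) * ((∑ j ∈ Finset.univ.erase i, s i j * x j) - x i) :=
      mul_nonneg (by linarith) h1
    nlinarith [h2, h4]

theorem p_hexcone : S_hexcone := by
  intro s hs x hx hc
  classical
  let A : Fin 3 × Fin 3 → Fin 3 → ℝ := fun p t =>
    if p.1 ≠ p.2 then (if t = p.1 then (s p.1 p.2 : ℝ) else if t = p.2 then 1 else 0) /
      ((s p.1 p.2 : ℝ) + 1) else 0
  have hsR : ∀ i j, i ≠ j → (0 : ℝ) < (s i j : ℝ) := fun i j hij => by exact_mod_cast hs i j hij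
  have hsum : ∀ (c : Fin 3 → ℝ) (i j : Fin 3), i ≠ j →
      ∑ e, c e * A (i, j) e = (c i * (s i j : ℝ) + c j) / ((s i j : ℝ) + 1) := by
    intro c i j hij
    have h0 : ((s i j : ℝ) + 1) ≠ 0 := by
      have := hsR i j hij
      positivity
    have h1 : ∀ e, c e * A (i, j) e =
        ((if e = i then c i * (s i j : ℝ) else 0) + (if e = j then c j else 0)) /
          ((s i j : ℝ) + 1) := by
      intro e
      simp only [A]
      rw [if_pos hij]
      by_cases h2 : e = i
      · subst h2
        rw [if_pos rfl, if_pos rfl, if_neg hij]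
        ring
      · by_cases h3 : e = j
        · subst h3
          rw [if_neg h2, if_neg h2, if_pos rfl, if_pos rfl]
          ring
        · rw [if_neg h2, if_neg h2, if_neg h3, if_neg h3]
          ring
    rw [Finset.sum_congr rfl (fun e _ => h1 e), ← Finset.sum_div, Finset.sum_add_distrib]
    simp
  obtain ⟨z, hz0, hz⟩ := hexcone_farkas (T := Fin 3 × Fin 3) (E := Fin 3) A x 1 one_pos (by
    rintro ⟨i, j⟩
    by_cases hij : i = j
    · left
      funext t
      simp [A, hij]
    · right
      have h1 := hsum (fun _ => 1) i j hij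
      simp only [one_mul] at h1
      rw [h1]
      have := hsR i j hij
      exact div_self (by positivity)) hx (by
    intro c hcA
    refine hexcone_pos (fun i j => (s i j : ℝ)) x c hx hc ?_
    intro i j hij
    have h1 := hcA (i, j)
    rw [hsum c i j hij] at h1
    have h2 : (0 : ℝ) < (s i j : ℝ) + 1 := by
      have := hsR i j hij
      positivity
    have h3 := (div_nonneg_iff.1 h1)
    rcases h3 with h3 | h3
    · linarith [h3.1]
    · linarith [h3.2])
  have hx2 : x = ∑ p ∈ (Finset.univ : Finset (Fin 3 × Fin 3)).filter (fun p => p.1 ≠ p.2),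
      (z p / (((s p.1 p.2 : ℝ) + 1) * ((s p.1 p.2).den : ℝ))) • rv (gv p.1 p.2 (s p.1 p.2)) := by
    funext t
    rw [← hz t, Finset.sum_apply, Finset.sum_filter]
    refine Finset.sum_congr rfl fun p _ => ?_
    by_cases hp : p.1 ≠ p.2
    · rw [if_pos hp, Pi.smul_apply, smul_eq_mul, hexcone_gv p.1 p.2 hp _ (hs p.1 p.2 hp)]
      simp only [A]
      rw [if_pos hp]
      have h1 : ((s p.1 p.2 : ℝ) + 1) ≠ 0 := by
        have := hsR p.1 p.2 hp
        positivity
      have h2 : ((s p.1 p.2).den : ℝ) ≠ 0 := by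
        have := (s p.1 p.2).pos
        positivity
      field_simp
    · rw [if_neg hp]
      simp only [A]
      rw [if_neg hp, mul_zero]
  rw [hx2]
  refine hexcone_image _ (fun p : Fin 3 × Fin 3 => gv p.1 p.2 (s p.1 p.2)) _ ?_
  intro p hp
  have hp' := (Finset.mem_filter.1 hp).2
  have h1 := hsR p.1 p.2 hp'
  exact div_nonneg (hz0 p) (by positivity)

end Pool.Agent.MP2a1ef3.N3
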