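import Pool.Agent.Lib.MP_2a1ef3_lc.N3.Stm

/-!
MP_2a1ef3_lc, dimension three: linear independence of three vectors with positive determinant.
-/

set_option autoImplicit false

open Filter

namespace Pool.Agent.MP2a1ef3.N3

private theorem ind_tri_zero {a b c : R3} (h : dt a b c ≠ 0) {x y z : ℝ}
    (e : x • a + y • b + z • c = 0) : x = 0 ∧ y = 0 ∧ z = 0 := by
  have e0 := congrFun e 0
  have e1 := congrFun e 1
  have e2 := congrFun e 2
  simp only [Pi.add_apply, Pi.smul_apply, smul_eq_mul, Pi.zero_apply] at e0 e1 e2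
  have hx : x * dt a b c = 0 := by
    unfold dt
    linear_combination (b 1 * c 2 - b 2 * c 1) * e0 - (b 0 * c 2 - b 2 * c 0) * e1 +
      (b 0 * c 1 - b 1 * c 0) * e2
  have hy : y * dt a b c = 0 := by
    unfold dt
    linear_combination (c 1 * a 2 - c 2 * a 1) * e0 - (c 0 * a 2 - c 2 * a 0) * e1 +
      (c 0 * a 1 - c 1 * a 0) * e2
  have hz : z * dt a b c = 0 := by
    unfold dt
    linear_combination (a 1 * b 2 - a 2 * b 1) * e0 - (a 0 * b 2 - a 2 * b 0) * e1 +
      (a 0 * b 1 - a 1 * b 0) * e2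
  exact ⟨(mul_eq_zero.mp hx).resolve_right h, (mul_eq_zero.mp hy).resolve_right h,
    (mul_eq_zero.mp hz).resolve_right h⟩

theorem p_ind_tri : S_ind_tri := by
  intro a b c h
  have hab : a ≠ b := by
    rintro rfl
    unfold dt at h
    nlinarith
  have hac : a ≠ c := by
    rintro rfl
    unfold dt at h
    nlinarith
  have hbc : b ≠ c := by
    rintro rfl
    unfold dt at h
    nlinarith
  unfold Ind
  rw [Fintype.linearIndependent_iff]
  intro g hg
  let G : V → ℝ := fun p => if hp : p ∈ ({a, b, c} : Finset V) then g ⟨p, hp⟩ else 0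
  have hG : ∀ p : ({a, b, c} : Finset V), g p = G p.1 := by
    intro p
    show g p = if hp : p.1 ∈ ({a, b, c} : Finset V) then g ⟨p.1, hp⟩ else 0
    rw [dif_pos p.2]
  have h1 : ∑ p ∈ ({a, b, c} : Finset V), G p • rv p = 0 := by
    rw [← Finset.sum_coe_sort, ← hg]
    exact Finset.sum_congr rfl fun p _ => by rw [hG p]
  rw [Finset.sum_insert (by simp [hab, hac]), Finset.sum_insert (by simp [hbc]),
    Finset.sum_singleton, ← add_assoc] at h1
  obtain ⟨ha, hb, hc⟩ := ind_tri_zero h.ne' h1
  intro p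
  rw [hG p]
  have hp := p.2
  simp only [Finset.mem_insert, Finset.mem_singleton] at hp
  rcases hp with hp | hp | hp
  · rw [hp, ha]
  · rw [hp, hb]
  · rw [hp, hc]

end Pool.Agent.MP2a1ef3.N3
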