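import Pool.Agent.Lib.MP_2a1ef3_lc.N3.Stm

set_option autoImplicit false

namespace Pool.Agent.MP2a1ef3.N3

open Filter

private def lemmaX_cr (a b : R3) : R3 :=
  ![a 1 * b 2 - a 2 * b 1, a 2 * b 0 - a 0 * b 2, a 0 * b 1 - a 1 * b 0]

private lemma lemmaX_dp_cr (a b x : R3) : dp (lemmaX_cr a b) x = dt a b x := by
  simp [dp, lemmaX_cr, dt]; ring

private lemma lemmaX_par {a b : R3} (h : Par a b) (i j : Fin 3) : a i * b j = a j * b i := by
  have h0 := h (Pi.single 0 1)
  have h1 := h (Pi.single 1 1)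
  have h2 := h (Pi.single 2 1)
  simp [dt, Pi.single_apply] at h0 h1 h2
  fin_cases i <;> fin_cases j <;> simp <;> linarith

private lemma lemmaX_par_of {a b : R3} (h1 : a 1 * b 2 = a 2 * b 1) (h2 : a 2 * b 0 = a 0 * b 2)
    (h3 : a 0 * b 1 = a 1 * b 0) : Par a b := by
  intro x
  have : dt a b x = (a 1 * b 2 - a 2 * b 1) * x 0 + (a 2 * b 0 - a 0 * b 2) * x 1 +
    (a 0 * b 1 - a 1 * b 0) * x 2 := by simp [dt]; ring
  rw [this, h1, h2, h3]; ring

private lemma lemmaX_mul {k k0 : V} (hk : k ≠ 0) (hk0 : k0 ≠ 0) (h : Par (rv k) (rv k0)) :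
    ∃ c : ℝ, 0 < c ∧ rv k = c • rv k0 := by
  obtain ⟨j, hj⟩ : ∃ j, k0 j ≠ 0 := by
    by_contra hh; push Not at hh; exact hk0 (funext hh)
  obtain ⟨i, hi⟩ : ∃ j, k j ≠ 0 := by
    by_contra hh; push Not at hh; exact hk (funext hh)
  have hj' : (0:ℝ) < (k0 j : ℝ) := by exact_mod_cast Nat.pos_of_ne_zero hj
  have hi' : (0:ℝ) < (k i : ℝ) := by exact_mod_cast Nat.pos_of_ne_zero hi
  have e1 : (k i : ℝ) * (k0 j : ℝ) = (k j : ℝ) * (k0 i : ℝ) := lemmaX_par h i j
  have h0 : (0:ℝ) ≤ (k0 i : ℝ) := Nat.cast_nonneg _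
  have hkj : (0:ℝ) < (k j : ℝ) := by
    by_contra hh
    have : (k j : ℝ) = 0 := le_antisymm (not_lt.mp hh) (Nat.cast_nonneg _)
    rw [this, zero_mul] at e1
    have := mul_pos hi' hj'
    linarith
  refine ⟨(k j : ℝ) / (k0 j : ℝ), div_pos hkj hj', ?_⟩
  funext t
  have e2 : (k t : ℝ) * (k0 j : ℝ) = (k j : ℝ) * (k0 t : ℝ) := lemmaX_par h t j
  simp only [rv, Pi.smul_apply, smul_eq_mul]
  field_simp
  linarith

private lemma lemmaX_small {ι : Type*} (s : Finset ι) (f g : ι → ℝ) (hf : ∀ i ∈ s, 0 < f i) :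
    ∃ ε : ℝ, 0 < ε ∧ ∀ i ∈ s, 0 < f i + ε * g i := by
  classical
  induction s using Finset.induction_on with
  | empty => exact ⟨1, one_pos, by simp⟩
  | insert a s ha ih =>
    obtain ⟨e, he, h1⟩ := ih (fun i hi => hf i (Finset.mem_insert_of_mem hi))
    have h2 : 0 < f a := hf a (Finset.mem_insert_self _ _)
    have h3 : 0 < f a / (|g a| + 1) := by positivity
    refine ⟨min e (f a / (|g a| + 1)), lt_min he h3, ?_⟩
    intro i hi
    have key : ∀ (x y t u : ℝ), 0 < x → 0 < t → t ≤ u → 0 < x + u * y → 0 < x + t * y := by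
      intro x y t u hx ht htu hxy
      rcases le_total 0 y with hy | hy
      · have := mul_nonneg ht.le hy; linarith
      · have := mul_le_mul_of_nonpos_right htu hy; linarith
    rcases Finset.mem_insert.mp hi with rfl | hi
    · refine key _ _ _ (f i / (|g i| + 1)) h2 (lt_min he h3) (min_le_right _ _) ?_
      have h4 : 0 < |g i| + 1 := by positivity
      have h5 : f i + f i / (|g i| + 1) * g i = f i / (|g i| + 1) * (|g i| + 1 + g i) := by
        field_simp
      rw [h5]
      apply mul_pos h3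
      have := neg_abs_le (g i)
      linarith
    · exact key _ _ _ e (hf i (Finset.mem_insert_of_mem hi)) (lt_min he h3) (min_le_left _ _)
        (h1 i hi)

private lemma lemmaX_dp_add (f g x : R3) (t : ℝ) : dp (f + t • g) x = dp f x + t * dp g x := by
  simp [dp]; ring

private lemma lemmaX_dp_smul (f x : R3) (t : ℝ) : dp f (t • x) = t * dp f x := by
  simp [dp]; ring

/-- Rotation. -/
private lemma lemmaX_rot {CC : Finset (Finset V)} {h z k0 : R3} (hz : dp h z = 0)
    (hk0 : ¬ Par k0 z)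
    (hzero : ∀ k ∈ Vk CC, dp h (rv k) = 0 → ∃ c : ℝ, 0 < c ∧ rv k = c • k0)
    (hC : ∀ C ∈ CC, (∀ k ∈ C, dp h (rv k) ≤ 0) ∨ (∀ k ∈ C, 0 < dp h (rv k))) :
    Free CC z := by
  classical
  obtain ⟨x, hx⟩ : ∃ x, dt k0 z x ≠ 0 := by
    by_contra hh; push Not at hh; exact hk0 hh
  -- the functional g
  obtain ⟨g, hgz, hgk⟩ : ∃ g : R3, dp g z = 0 ∧ dp g k0 < 0 := by
    refine ⟨(-(dt k0 z x)) • lemmaX_cr z x, ?_, ?_⟩
    · have : dp ((-(dt k0 z x)) • lemmaX_cr z x) z = (-(dt k0 z x)) * dp (lemmaX_cr z x) z := by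
        simp [dp]; ring
      rw [this, lemmaX_dp_cr]
      simp [dt]; right; ring
    · have : dp ((-(dt k0 z x)) • lemmaX_cr z x) k0 = (-(dt k0 z x)) * dp (lemmaX_cr z x) k0 := by
        simp [dp]; ring
      rw [this, lemmaX_dp_cr]
      have e : dt z x k0 = dt k0 z x := by simp [dt]; ring
      rw [e]
      have := mul_self_pos.mpr hx
      linarith
  obtain ⟨ε, hε, hs⟩ := lemmaX_small ((Vk CC).filter (fun k => dp h (rv k) ≠ 0))
    (fun k => |dp h (rv k)|) (fun k => - |dp g (rv k)|)
    (fun k hk => abs_pos.mpr (Finset.mem_filter.mp hk).2)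
  refine ⟨h + ε • g, ?_, ?_⟩
  · rw [lemmaX_dp_add, hz, hgz]; ring
  · intro C hCC
    have hmem : ∀ k ∈ C, k ∈ Vk CC := fun k hk => Finset.mem_biUnion.mpr ⟨C, hCC, hk⟩
    have hneg : ∀ k ∈ C, dp h (rv k) < 0 → dp (h + ε • g) (rv k) < 0 := by
      intro k hk hlt
      have h1 := hs k (Finset.mem_filter.mpr ⟨hmem k hk, hlt.ne⟩)
      rw [abs_of_neg hlt] at h1
      rw [lemmaX_dp_add]
      have h2 := mul_le_mul_of_nonneg_left (le_abs_self (dp g (rv k))) hε.le
      linarith
    have hpos : ∀ k ∈ C, 0 < dp h (rv k) → 0 < dp (h + ε • g) (rv k) := by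
      intro k hk hlt
      have h1 := hs k (Finset.mem_filter.mpr ⟨hmem k hk, hlt.ne'⟩)
      rw [abs_of_pos hlt] at h1
      rw [lemmaX_dp_add]
      have h2 := mul_le_mul_of_nonneg_left (neg_abs_le (dp g (rv k))) hε.le
      linarith
    rcases hC C hCC with hR | hL
    · right
      intro k hk
      rcases (hR k hk).lt_or_eq with h1 | h1
      · exact hneg k hk h1
      · obtain ⟨c, hc, e⟩ := hzero k (hmem k hk) h1
        rw [lemmaX_dp_add, h1, e, lemmaX_dp_smul]
        have := mul_neg_of_pos_of_neg hε (mul_neg_of_pos_of_neg hc hgk)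
        linarith
    · left
      intro k hk
      exact hpos k hk (hL k hk)

/-- Four vectors. -/
private lemma lemmaX_four (a b z k : R3) (j : Fin 3) :
    dt b z k * a j - dt a z k * b j + dt a b k * z j - dt a b z * k j = 0 := by
  fin_cases j <;> simp [dt] <;> ring

theorem p_lemmaX (h1 : S_beyond_edge) (h2 : S_bey_a) (h3 : S_bey_b) : S_lemmaX := by
  classical
  intro CC hG a b c hP h hab z hz hz0 hz1 hz2 hV
  have ha : Bd a := hP.1 a (by simp)
  have hb : Bd b := hP.1 b (by simp)
  have hc : Bd c := hP.1 c (by simp)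
  have hmem : ∀ C ∈ CC, ∀ k ∈ C, k ∈ Vk CC :=
    fun C hCC k hk => Finset.mem_biUnion.mpr ⟨C, hCC, hk⟩
  have hne : ∀ k ∈ Vk CC, k ≠ 0 := by
    rintro k hk rfl
    exact hz2 0 hk (fun x => by simp [dt, rv])
  have ha0 : a ≠ 0 := by
    rintro rfl
    simp [dt, rv] at h
  have hb0 : b ≠ 0 := by
    rintro rfl
    simp [dt, rv] at h
  -- types
  have htype : ∀ C ∈ CC, (∀ k ∈ C, dt (rv a) (rv b) (rv k) ≤ 0) ∨
      ((∀ k ∈ C, 0 ≤ dt (rv a) (rv b) (rv k)) ∧
        ((∀ k ∈ C, dt (rv a) (rv b) (rv k) = 0 → Par (rv a) (rv k)) ∨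
        (∀ k ∈ C, dt (rv a) (rv b) (rv k) = 0 → Par (rv b) (rv k)))) := by
    intro C hCC
    rcases h1 ha hb hc h (hG C hCC) (hP.2.2 C hCC) with hh | hh | hh
    · exact Or.inl hh
    · have := h3 hb h hab (hG C hCC) hh
      exact Or.inr ⟨fun k hk => (this k hk).1, Or.inr (fun k hk => (this k hk).2)⟩
    · have := h2 ha h hab (hG C hCC) hh
      exact Or.inr ⟨fun k hk => (this k hk).1, Or.inl (fun k hk => (this k hk).2)⟩
  have hor : ∀ C ∈ CC, (∀ k ∈ C, dt (rv a) (rv b) (rv k) ≤ 0) ∨
      (∀ k ∈ C, 0 ≤ dt (rv a) (rv b) (rv k)) := by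
    intro C hCC
    rcases htype C hCC with hh | hh
    · exact Or.inl hh
    · exact Or.inr hh.1
  by_cases hi : ∀ C ∈ CC, (∀ k ∈ C, dt (rv a) (rv b) (rv k) ≤ 0) ∨
      (∀ k ∈ C, 0 < dt (rv a) (rv b) (rv k))
  · left
    by_cases hzero : ∃ k0 ∈ Vk CC, dt (rv a) (rv b) (rv k0) = 0
    · obtain ⟨k0, hk0, e0⟩ := hzero
      refine lemmaX_rot (h := lemmaX_cr (rv a) (rv b)) (k0 := rv k0) ?_ (hz2 k0 hk0) ?_ ?_
      · rw [lemmaX_dp_cr]; exact hz1
      · intro k hk hk'
        rw [lemmaX_dp_cr] at hk'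
        exact lemmaX_mul (hne k hk) (hne k0 hk0) (hV k hk k0 hk0 hk' e0)
      · intro C hCC
        rcases hi C hCC with hh | hh
        · exact Or.inl (fun k hk => by rw [lemmaX_dp_cr]; exact hh k hk)
        · exact Or.inr (fun k hk => by rw [lemmaX_dp_cr]; exact hh k hk)
    · push Not at hzero
      refine ⟨lemmaX_cr (rv a) (rv b), by rw [lemmaX_dp_cr]; exact hz1, ?_⟩
      intro C hCC
      rcases hi C hCC with hh | hh
      · exact Or.inr (fun k hk => by
          rw [lemmaX_dp_cr]; exact lt_of_le_of_ne (hh k hk) (hzero k (hmem C hCC k hk)))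
      · exact Or.inl (fun k hk => by rw [lemmaX_dp_cr]; exact hh k hk)
  · right
    push Not at hi
    obtain ⟨C1, hC1, ⟨kp, hkp, hkp'⟩, ⟨k1, hk1, hk1'⟩⟩ := hi
    rcases htype C1 hC1 with hh | ⟨hh, hpar⟩
    · exact absurd (hh kp hkp) (not_le.mpr hkp')
    have e1 : dt (rv a) (rv b) (rv k1) = 0 := le_antisymm hk1' (hh k1 hk1)
    have hk1V : k1 ∈ Vk CC := hmem C1 hC1 k1 hk1
    have hzp := hz2 k1 hk1V
    rcases hpar with hpar | hpar
    · -- parallel to a
      have hp := hpar k1 hk1 e1
      obtain ⟨t, ht, et⟩ := lemmaX_mul (hne k1 hk1V) ha0 (by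
        intro x
        have := hp x
        have e : dt (rv k1) (rv a) x = - dt (rv a) (rv k1) x := by simp [dt]; ring
        rw [e, this, neg_zero])
      have hcoord : ∀ j, (k1 j : ℝ) = t * (a j : ℝ) := fun j => congrFun et j
      have hja : ∀ j, k1 j = 0 ↔ a j = 0 := by
        intro j
        have := hcoord j
        constructor
        · intro h0
          rw [h0, Nat.cast_zero] at this
          have h4 := (mul_eq_zero.mp this.symm).resolve_left ht.ne'
          exact_mod_cast h4
        · intro h0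
          rw [h0, Nat.cast_zero, mul_zero] at this
          exact_mod_cast this
      have hzj : ∀ j, a j = 0 → 0 < z j := by
        intro j hj
        refine lt_of_le_of_ne (hz j) (fun h0 => hzp ?_)
        have hbj : b j ≠ 0 := fun hbj => hab j ⟨hj, hbj⟩
        have hbj' : (b j : ℝ) ≠ 0 := by exact_mod_cast hbj
        intro x
        have hf := lemmaX_four (rv a) (rv b) z x j
        have haj : rv a j = 0 := by simp [rv, hj]
        rw [hz1, ← h0, haj] at hf
        have h5 : dt (rv a) z x * rv b j = 0 := by linarith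
        have h6 : dt (rv a) z x = 0 := (mul_eq_zero.mp h5).resolve_right hbj'
        have h7 : dt (rv k1) z x = t * dt (rv a) z x := by rw [et]; simp [dt]; ring
        rw [h7, h6, mul_zero]
      obtain ⟨j0, hj0⟩ := ha
      have hzj0 := hzj j0 hj0
      have hbj0 : (0:ℝ) < (b j0 : ℝ) := by
        exact_mod_cast Nat.pos_of_ne_zero (fun hbj => hab j0 ⟨hj0, hbj⟩)
      have hrel : ∀ x : R3, dt (rv k1) z x = t * (z j0 / (b j0 : ℝ)) * dt (rv a) (rv b) x := by
        intro x
        have hf := lemmaX_four (rv a) (rv b) z x j0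
        have haj : rv a j0 = 0 := by simp [rv, hj0]
        rw [hz1, haj] at hf
        have hf2 : dt (rv a) z x * (b j0 : ℝ) = dt (rv a) (rv b) x * z j0 := by
          have : rv b j0 = (b j0 : ℝ) := rfl
          rw [this] at hf; linarith
        have h7 : dt (rv k1) z x = t * dt (rv a) z x := by rw [et]; simp [dt]; ring
        rw [h7]
        field_simp
        linarith
      have hcpos : 0 < t * (z j0 / (b j0 : ℝ)) := by positivity
      refine ⟨k1, hk1V, hne k1 hk1V, ⟨j0, (hja j0).mpr hj0⟩, ?_, ?_⟩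
      · intro j hj
        exact (hzj j ((hja j).mp hj)).ne'
      · intro C hCC
        rcases hor C hCC with hh' | hh'
        · right
          intro k hk
          rcases (hh' k hk).lt_or_eq with h6 | h6
          · right; rw [hrel]; exact mul_neg_of_pos_of_neg hcpos h6
          · left; exact hV k1 hk1V k (hmem C hCC k hk) e1 h6
        · left
          intro k hk
          rcases (hh' k hk).lt_or_eq with h6 | h6
          · right; rw [hrel]; exact mul_pos hcpos h6
          · left; exact hV k1 hk1V k (hmem C hCC k hk) e1 h6.symm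
    · -- parallel to b
      have hp := hpar k1 hk1 e1
      obtain ⟨t, ht, et⟩ := lemmaX_mul (hne k1 hk1V) hb0 (by
        intro x
        have := hp x
        have e : dt (rv k1) (rv b) x = - dt (rv b) (rv k1) x := by simp [dt]; ring
        rw [e, this, neg_zero])
      have hcoord : ∀ j, (k1 j : ℝ) = t * (b j : ℝ) := fun j => congrFun et j
      have hja : ∀ j, k1 j = 0 ↔ b j = 0 := by
        intro j
        have := hcoord j
        constructor
        · intro h0
          rw [h0, Nat.cast_zero] at this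
          have h4 := (mul_eq_zero.mp this.symm).resolve_left ht.ne'
          exact_mod_cast h4
        · intro h0
          rw [h0, Nat.cast_zero, mul_zero] at this
          exact_mod_cast this
      have hzj : ∀ j, b j = 0 → 0 < z j := by
        intro j hj
        refine lt_of_le_of_ne (hz j) (fun h0 => hzp ?_)
        have haj : a j ≠ 0 := fun haj => hab j ⟨haj, hj⟩
        have haj' : (a j : ℝ) ≠ 0 := by exact_mod_cast haj
        intro x
        have hf := lemmaX_four (rv a) (rv b) z x j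
        have hbj : rv b j = 0 := by simp [rv, hj]
        rw [hz1, ← h0, hbj] at hf
        have h5 : dt (rv b) z x * rv a j = 0 := by linarith
        have h6 : dt (rv b) z x = 0 := (mul_eq_zero.mp h5).resolve_right haj'
        have h7 : dt (rv k1) z x = t * dt (rv b) z x := by rw [et]; simp [dt]; ring
        rw [h7, h6, mul_zero]
      obtain ⟨j0, hj0⟩ := hb
      have hzj0 := hzj j0 hj0
      have haj0 : (0:ℝ) < (a j0 : ℝ) := by
        exact_mod_cast Nat.pos_of_ne_zero (fun haj => hab j0 ⟨haj, hj0⟩)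
      have hrel : ∀ x : R3, dt (rv k1) z x = - (t * (z j0 / (a j0 : ℝ)) * dt (rv a) (rv b) x) := by
        intro x
        have hf := lemmaX_four (rv a) (rv b) z x j0
        have hbj : rv b j0 = 0 := by simp [rv, hj0]
        rw [hz1, hbj] at hf
        have hf2 : dt (rv b) z x * (a j0 : ℝ) = - (dt (rv a) (rv b) x * z j0) := by
          have : rv a j0 = (a j0 : ℝ) := rfl
          rw [this] at hf; linarith
        have h7 : dt (rv k1) z x = t * dt (rv b) z x := by rw [et]; simp [dt]; ring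
        have h8 : dt (rv b) z x = - (dt (rv a) (rv b) x * z j0) / (a j0 : ℝ) := by
          rw [eq_div_iff haj0.ne']; exact hf2
        rw [h7, h8]
        field_simp
      have hcpos : 0 < t * (z j0 / (a j0 : ℝ)) := by positivity
      refine ⟨k1, hk1V, hne k1 hk1V, ⟨j0, (hja j0).mpr hj0⟩, ?_, ?_⟩
      · intro j hj
        exact (hzj j ((hja j).mp hj)).ne'
      · intro C hCC
        rcases hor C hCC with hh' | hh'
        · left
          intro k hk
          rcases (hh' k hk).lt_or_eq with h6 | h6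
          · right; rw [hrel]; have := mul_neg_of_pos_of_neg hcpos h6; linarith
          · left; exact hV k1 hk1V k (hmem C hCC k hk) e1 h6
        · right
          intro k hk
          rcases (hh' k hk).lt_or_eq with h6 | h6
          · right; rw [hrel]; have := mul_pos hcpos h6; linarith
          · left; exact hV k1 hk1V k (hmem C hCC k hk) e1 h6.symm

end Pool.Agent.MP2a1ef3.N3
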