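import Pool.Agent.Lib.MP_2a1ef3_lc.N3.Stm

set_option autoImplicit false

namespace Pool.Agent.MP2a1ef3.N3

open Filter

/-- A real relation between natural vectors gives an integer relation with a positive entry. -/
private theorem lin_ind_rel {P : Finset V} (h : ¬ Ind P) :
    ∃ (z : V → ℤ) (p1 : V), p1 ∈ P ∧ 0 < z p1 ∧ ∀ j, ∑ p ∈ P, z p * (p j : ℤ) = 0 := by
  classical
  unfold Ind at h
  rw [Fintype.not_linearIndependent_iff] at h
  obtain ⟨g, hg, ⟨i, hi⟩⟩ := h
  obtain ⟨φ, hφ⟩ : ∃ φ : Module.Dual ℚ ℝ, φ (g i) ≠ 0 := by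
    by_contra hc
    push Not at hc
    exact hi ((Module.forall_dual_apply_eq_zero_iff ℚ (g i)).1 hc)
  have hq : ∀ j, ∑ p : P, φ (g p) * ((p : V) j : ℚ) = 0 := by
    intro j
    have h1 := congrFun hg j
    have h2 : φ ((∑ p : P, g p • rv (p : V)) j) = 0 := by rw [h1]; simp
    rw [Finset.sum_apply, map_sum] at h2
    rw [← h2]
    refine Finset.sum_congr rfl fun p _ => ?_
    have h3 : (g p • rv (p : V)) j = (((p : V) j : ℚ)) • g p := by
      simp [rv, mul_comm, Rat.smul_def]
    rw [h3, map_smul, smul_eq_mul, mul_comm]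
  -- common denominator
  let D : ℕ := ∏ p : P, (φ (g p)).den
  have hD : 0 < D := Finset.prod_pos fun p _ => (φ (g p)).pos
  have hint : ∀ p : P, ∃ z : ℤ, (z : ℚ) = D * φ (g p) := by
    intro p
    obtain ⟨m, hm⟩ : (φ (g p)).den ∣ D := Finset.dvd_prod_of_mem _ (Finset.mem_univ p)
    refine ⟨m * (φ (g p)).num, ?_⟩
    rw [hm]
    push_cast
    have := Rat.mul_den_eq_num (φ (g p))
    rw [← this]; ring
  choose z hz using hint
  have hzi : z i ≠ 0 := by
    intro h0
    have := hz i
    rw [h0] at this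
    have hD' : (D : ℚ) ≠ 0 := by exact_mod_cast hD.ne'
    rcases mul_eq_zero.1 this.symm with h | h
    · exact hD' h
    · exact hφ h
  have hzs : ∀ j, ∑ p : P, z p * ((p : V) j : ℤ) = 0 := by
    intro j
    have h1 : ((∑ p : P, z p * ((p : V) j : ℤ) : ℤ) : ℚ) = 0 := by
      push_cast
      have h2 : ∀ p : P, (z p : ℚ) * (((p : V) j : ℕ) : ℚ) = D * (φ (g p) * ((p : V) j : ℚ)) := by
        intro p; rw [hz]; ring
      rw [Finset.sum_congr rfl fun p _ => h2 p, ← Finset.mul_sum, hq, mul_zero]
    exact_mod_cast h1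
  have hext : ∀ (w : P → ℤ) (j : Fin 3),
      ∑ p ∈ P, (if hp : p ∈ P then w ⟨p, hp⟩ else 0) * (p j : ℤ) = ∑ p : P, w p * ((p : V) j : ℤ) := by
    intro w j
    rw [← Finset.sum_coe_sort P]
    refine Finset.sum_congr rfl fun p _ => ?_
    simp
  rcases lt_or_gt_of_ne hzi with h | h
  · refine ⟨fun p => if hp : p ∈ P then - z ⟨p, hp⟩ else 0, i, i.2, ?_, ?_⟩
    · simp only [Finset.coe_mem, Subtype.coe_eta, dite_true]
      omega
    · intro j
      rw [hext (fun p => - z p) j]
      have := hzs j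
      simp only [neg_mul, Finset.sum_neg_distrib, this, neg_zero]
  · refine ⟨fun p => if hp : p ∈ P then z ⟨p, hp⟩ else 0, i, i.2, ?_, ?_⟩
    · simp only [Finset.coe_mem, Subtype.coe_eta, dite_true]
      omega
    · intro j
      rw [hext z j]
      exact hzs j

private theorem lin_ind_step {P : Finset V} {z : V → ℤ} {p1 : V} (hp1 : p1 ∈ P) (hz : 0 < z p1)
    (hr : ∀ j, ∑ p ∈ P, z p * (p j : ℤ) = 0) :
    ∀ (k : ℕ) (n : V → ℕ), n p1 = k → ∃ n' : V → ℕ, ∑ p ∈ P, n' p • p = ∑ p ∈ P, n p • p ∧
      ∃ p ∈ P, n' p < (z p).toNat := by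
  intro k
  induction k using Nat.strong_induction_on with
  | _ k ih =>
    intro n hn
    by_cases hc : ∃ p ∈ P, n p < (z p).toNat
    · exact ⟨n, rfl, hc⟩
    · push Not at hc
      have h1 : ∑ p ∈ P, ((n p : ℤ) - z p).toNat • p = ∑ p ∈ P, n p • p := by
        funext j
        rw [Finset.sum_apply, Finset.sum_apply]
        have h2 : ((∑ p ∈ P, (((n p : ℤ) - z p).toNat • p) j : ℕ) : ℤ) =
            ((∑ p ∈ P, (n p • p) j : ℕ) : ℤ) := by
          push_cast
          have h3 : ∀ p ∈ P, (((((n p : ℤ) - z p).toNat • p) j : ℕ) : ℤ) =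
              (((n p • p) j : ℕ) : ℤ) - z p * (p j : ℤ) := by
            intro p hp
            have := hc p hp
            simp only [Pi.smul_apply, smul_eq_mul]
            push_cast
            have h4 : ((((n p : ℤ) - z p).toNat : ℕ) : ℤ) = (n p : ℤ) - z p := by
              omega
            rw [h4]; ring
          rw [Finset.sum_congr rfl h3, Finset.sum_sub_distrib, hr j, sub_zero]
        exact_mod_cast h2
      have hlt : ((n p1 : ℤ) - z p1).toNat < k := by
        have := hc p1 hp1
        omega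
      obtain ⟨n', hn', hex⟩ := ih _ hlt (fun p => ((n p : ℤ) - z p).toNat) rfl
      exact ⟨n', hn'.trans h1, hex⟩

theorem p_lin_ind : S_lin_ind := by
  classical
  intro c P
  induction P using Finset.strongInduction generalizing c with
  | H P ih =>
    by_cases hI : Ind P
    · refine ⟨{(c, P)}, ?_, ?_⟩
      · intro t ht
        rw [Finset.mem_singleton] at ht
        subst ht
        exact ⟨Finset.Subset.refl _, hI⟩
      · simp
    · obtain ⟨z, p1, hp1, hz, hr⟩ := lin_ind_rel hI
      have ih' : ∀ p ∈ P, ∀ c, ∃ T : Finset (V × Finset V),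
          (∀ t ∈ T, t.2 ⊆ P.erase p ∧ Ind t.2) ∧ Lin c (P.erase p) = ⋃ t ∈ T, Lin t.1 t.2 :=
        fun p hp c => ih (P.erase p) (Finset.erase_ssubset hp) c
      have ih'' : ∀ (p : V) (c : V), ∃ T : Finset (V × Finset V), p ∈ P →
          (∀ t ∈ T, t.2 ⊆ P.erase p ∧ Ind t.2) ∧ Lin c (P.erase p) = ⋃ t ∈ T, Lin t.1 t.2 := by
        intro p c
        by_cases hp : p ∈ P
        · obtain ⟨T, hT⟩ := ih' p hp c
          exact ⟨T, fun _ => hT⟩
        · exact ⟨∅, fun h => absurd h hp⟩
      choose T hT using ih''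
      refine ⟨P.biUnion (fun p => (Finset.range (z p).toNat).biUnion (fun t => T p (c + t • p))),
        ?_, ?_⟩
      · intro t ht
        rw [Finset.mem_biUnion] at ht
        obtain ⟨p, hp, ht⟩ := ht
        rw [Finset.mem_biUnion] at ht
        obtain ⟨s, hs, ht⟩ := ht
        have := (hT p (c + s • p) hp).1 t ht
        exact ⟨this.1.trans (Finset.erase_subset _ _), this.2⟩
      · ext x
        simp only [Set.mem_iUnion, exists_prop]
        constructor
        · rintro ⟨n, rfl⟩
          obtain ⟨n', hn', p, hp, hlt⟩ := lin_ind_step hp1 hz hr _ n rfl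
          have hmem : c + ∑ p ∈ P, n p • p ∈ Lin (c + n' p • p) (P.erase p) := by
            refine ⟨n', ?_⟩
            rw [← hn', ← Finset.add_sum_erase P _ hp, add_assoc]
          rw [(hT p (c + n' p • p) hp).2] at hmem
          simp only [Set.mem_iUnion, exists_prop] at hmem
          obtain ⟨t, ht, hmem⟩ := hmem
          refine ⟨t, ?_, hmem⟩
          rw [Finset.mem_biUnion]
          refine ⟨p, hp, ?_⟩
          rw [Finset.mem_biUnion]
          exact ⟨n' p, Finset.mem_range.2 hlt, ht⟩
        · rintro ⟨t, ht, hmem⟩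
          rw [Finset.mem_biUnion] at ht
          obtain ⟨p, hp, ht⟩ := ht
          rw [Finset.mem_biUnion] at ht
          obtain ⟨s, hs, ht⟩ := ht
          have h1 : x ∈ Lin (c + s • p) (P.erase p) := by
            rw [(hT p (c + s • p) hp).2]
            simp only [Set.mem_iUnion, exists_prop]
            exact ⟨t, ht, hmem⟩
          obtain ⟨n, rfl⟩ := h1
          refine ⟨Function.update n p s, ?_⟩
          rw [← Finset.add_sum_erase P _ hp, Function.update_self, add_assoc]
          congr 2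
          refine Finset.sum_congr rfl fun q hq => ?_
          rw [Function.update_of_ne (Finset.ne_of_mem_erase hq)]

end Pool.Agent.MP2a1ef3.N3
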