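import Pool.Agent.Lib.MP_2a1ef3_lc.N3.Stm

set_option autoImplicit false

namespace Pool.Agent.MP2a1ef3.N3

open Filter

private theorem line_lemma_aux {f a b : R3} (hab : ¬ Par a b) (h0 : dp f a = 0)
    (h1 : dp f b = 0) : ∃ c : ℝ, ∀ x, dp f x = c * dt a b x := by
  unfold dp at h0 h1
  have h01 : f 0 * (a 2 * b 0 - a 0 * b 2) = f 1 * (a 1 * b 2 - a 2 * b 1) := by
    linear_combination (-b 2) * h0 + a 2 * h1
  have h02 : f 0 * (a 0 * b 1 - a 1 * b 0) = f 2 * (a 1 * b 2 - a 2 * b 1) := by
    linear_combination b 1 * h0 - a 1 * h1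
  have h12 : f 1 * (a 0 * b 1 - a 1 * b 0) = f 2 * (a 2 * b 0 - a 0 * b 2) := by
    linear_combination (-b 0) * h0 + a 0 * h1
  have hn : a 1 * b 2 - a 2 * b 1 ≠ 0 ∨ a 2 * b 0 - a 0 * b 2 ≠ 0 ∨ a 0 * b 1 - a 1 * b 0 ≠ 0 := by
    by_contra hc
    push Not at hc
    obtain ⟨e0, e1, e2⟩ := hc
    apply hab
    intro x
    unfold dt
    linear_combination x 0 * e0 + x 1 * e1 + x 2 * e2
  rcases hn with hn | hn | hn
  · refine ⟨f 0 / (a 1 * b 2 - a 2 * b 1), fun x => ?_⟩
    unfold dp dt
    rw [div_mul_eq_mul_div, eq_div_iff hn]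
    linear_combination (-x 1) * h01 - x 2 * h02
  · refine ⟨f 1 / (a 2 * b 0 - a 0 * b 2), fun x => ?_⟩
    unfold dp dt
    rw [div_mul_eq_mul_div, eq_div_iff hn]
    linear_combination x 0 * h01 - x 2 * h12
  · refine ⟨f 2 / (a 0 * b 1 - a 1 * b 0), fun x => ?_⟩
    unfold dp dt
    rw [div_mul_eq_mul_div, eq_div_iff hn]
    linear_combination x 0 * h02 + x 1 * h12

/-- the main computation -/
private theorem line_lemma_core {k x₁ v h r : R3} (al be : ℝ) (hal : 0 ≤ al) (hbe : 0 ≤ be)
    (hab : 0 < al + be) (hr : r = al • v + be • x₁) (hh : dp h k = 0) (h0 : h ≠ 0)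
    (hhr : dp h r = 0) :
    ∃ ε : ℝ, (ε = 1 ∨ ε = -1) ∧ ∀ k' : R3, dt k k' v ≠ 0 →
      SignType.sign (dt k k' x₁) = SignType.sign (dt k k' v) →
      0 < ε * dp h k' * dt k v k' := by
  have hpos : ∀ k' : R3, dt k k' v ≠ 0 →
      SignType.sign (dt k k' x₁) = SignType.sign (dt k k' v) →
      0 < (al * dt k k' v + be * dt k k' x₁) * dt k k' v := by
    intro k' hv hs
    rcases lt_or_gt_of_ne hv with h1 | h1
    · rw [sign_neg h1, sign_eq_neg_one_iff] at hs
      have : al * dt k k' v + be * dt k k' x₁ < 0 := by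
        rcases hal.lt_or_eq with h2 | h2
        · nlinarith [mul_pos h2 (neg_pos.2 h1), mul_nonneg hbe (neg_pos.2 hs).le]
        · have h3 : 0 < be := by linarith
          nlinarith [mul_pos h3 (neg_pos.2 hs)]
      exact mul_pos_of_neg_of_neg this h1
    · rw [sign_pos h1, sign_eq_one_iff] at hs
      have : 0 < al * dt k k' v + be * dt k k' x₁ := by
        rcases hal.lt_or_eq with h2 | h2
        · nlinarith [mul_pos h2 h1, mul_nonneg hbe hs.le]
        · have h3 : 0 < be := by linarith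
          nlinarith [mul_pos h3 hs]
      exact mul_pos this h1
  have hdr : ∀ k' : R3, dt k k' r = al * dt k k' v + be * dt k k' x₁ := by
    intro k'
    rw [hr]
    simp only [dt, Pi.add_apply, Pi.smul_apply, smul_eq_mul]
    ring
  by_cases hp : Par k r
  · refine ⟨1, Or.inl rfl, fun k' hv hs => ?_⟩
    exfalso
    have h1 := hpos k' hv hs
    have h2 : dt k k' r = 0 := by
      have h3 := hp k'
      have h4 : dt k k' r = -dt k r k' := by
        unfold dt
        ring
      rw [h4, h3, neg_zero]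
    rw [← hdr, h2, zero_mul] at h1
    exact lt_irrefl _ h1
  · obtain ⟨c, hc⟩ := line_lemma_aux hp hh hhr
    have hc0 : c ≠ 0 := by
      intro hc0
      apply h0
      funext j
      have h1 := hc (Pi.single j 1)
      rw [hc0, zero_mul] at h1
      fin_cases j
      · simpa [dp] using h1
      · simpa [dp] using h1
      · simpa [dp] using h1
    have hkey : ∀ k' : R3, dp h k' * dt k v k' =
        c * ((al * dt k k' v + be * dt k k' x₁) * dt k k' v) := by
      intro k'
      rw [hc, ← hdr]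
      have h4 : dt k k' r = -dt k r k' := by
        unfold dt
        ring
      have h5 : dt k k' v = -dt k v k' := by
        unfold dt
        ring
      rw [h4, h5]
      ring
    rcases lt_or_gt_of_ne hc0 with h1 | h1
    · refine ⟨-1, Or.inr rfl, fun k' hv hs => ?_⟩
      have h2 := hpos k' hv hs
      rw [mul_assoc, hkey]
      nlinarith [mul_pos (neg_pos.2 h1) h2]
    · refine ⟨1, Or.inl rfl, fun k' hv hs => ?_⟩
      have h2 := hpos k' hv hs
      rw [mul_assoc, hkey, one_mul]
      exact mul_pos h1 h2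

theorem p_line_lemma : S_line_lemma := by
  intro k x₁ v h hh h0 hv hx hkv hkx
  by_cases h1 : dp h v = 0
  · apply line_lemma_core (r := v) 1 0 zero_le_one le_rfl (by norm_num) _ hh h0 h1
    simp
  · have h2 : dp h v < 0 := lt_of_le_of_ne hv h1
    apply line_lemma_core (r := (dp h x₁) • v + (-dp h v) • x₁) (dp h x₁) (-dp h v) hx
      (by linarith) (by linarith) rfl hh h0
    simp only [dp, Pi.add_apply, Pi.smul_apply, smul_eq_mul]
    ring

end Pool.Agent.MP2a1ef3.N3
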