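import Pool.Agent.Lib.MP_2a1ef3_lc.N3.Stm

set_option autoImplicit false

namespace Pool.Agent.MP2a1ef3.N3

open Filter

theorem p_mem_labs : S_mem_labs := by
  intro r t L R
  induction L with
  | nil => simp [labs]
  | cons C L ih =>
    rw [List.forall_mem_cons, ← ih]
    constructor
    · rintro ⟨K, hK, h⟩
      rw [labs, List.mem_flatMap] at hK
      obtain ⟨a, _, hK⟩ := hK
      rw [List.mem_map] at hK
      obtain ⟨K', hK', rfl⟩ := hK
      refine ⟨⟨a, fun e he => ?_⟩, K', hK', fun y hy => ?_⟩
      · exact h (a, e) (List.mem_append_left _ (List.mem_map_of_mem he))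
      · exact h y (List.mem_append_right _ hy)
    · rintro ⟨⟨a, ha⟩, K', hK', h⟩
      refine ⟨C.map (fun e => (a, e)) ++ K', ?_, ?_⟩
      · rw [labs, List.mem_flatMap]
        exact ⟨a, List.mem_finRange a, List.mem_map_of_mem hK'⟩
      · intro y hy
        rw [List.mem_append] at hy
        rcases hy with hy | hy
        · rw [List.mem_map] at hy
          obtain ⟨e, he, rfl⟩ := hy
          exact ha e he
        · exact h y hy

end Pool.Agent.MP2a1ef3.N3
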