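import Pool.Agent.Lib.MP_2a1ef3_lc.N3.Stm

/-!
# MP_2a1ef3_lc, dimension three: membership in the cone of a chord (piece `mem_ocone_chord`)
-/

set_option autoImplicit false

namespace Pool.Agent.MP2a1ef3.N3

open Filter

private theorem mem_ocone_chord_cramer (a b y x : R3) (j : Fin 3) :
    dt a b y * x j = dt x b y * a j + dt a x y * b j + dt a b x * y j := by
  fin_cases j <;> (unfold dt; simp; ring)

theorem p_mem_ocone_chord : S_mem_ocone_chord := by
  intro a b hI ha hb hab h0 u v hu hv huv x hx hd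
  obtain ⟨u1, u2, rfl⟩ := Submodule.mem_span_pair.1 hu
  obtain ⟨v1, v2, rfl⟩ := Submodule.mem_span_pair.1 hv
  have hdt : ∀ y : R3, dt (u1 • rv a + u2 • rv b) (v1 • rv a + v2 • rv b) y =
      (u1 * v2 - u2 * v1) * dt (rv a) (rv b) y := by
    intro y
    unfold dt
    simp only [Pi.add_apply, Pi.smul_apply, smul_eq_mul]
    ring
  unfold Par at huv
  push Not at huv
  obtain ⟨y, hy⟩ := huv
  rw [hdt] at hy hd
  have hD : u1 * v2 - u2 * v1 ≠ 0 := left_ne_zero_of_mul hy
  have hy' : dt (rv a) (rv b) y ≠ 0 := right_ne_zero_of_mul hy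
  have hx0 : dt (rv a) (rv b) x = 0 := (mul_eq_zero.1 hd).resolve_left hD
  obtain ⟨α, hα⟩ : ∃ α, α = dt x (rv b) y / dt (rv a) (rv b) y := ⟨_, rfl⟩
  obtain ⟨β, hβ⟩ : ∃ β, β = dt (rv a) x y / dt (rv a) (rv b) y := ⟨_, rfl⟩
  have hxj : ∀ j, x j = α * rv a j + β * rv b j := by
    intro j
    have h := mem_ocone_chord_cramer (rv a) (rv b) y x j
    rw [hx0, zero_mul, add_zero] at h
    rw [hα, hβ]
    field_simp
    linarith
  have hnn : ∀ (c : V) (j : Fin 3), 0 ≤ rv c j := fun c j => Nat.cast_nonneg _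
  have hβ0 : 0 < β := by
    obtain ⟨j, hj⟩ := ha
    have h1 : rv a j = 0 := by unfold rv; rw [hj]; simp
    have h2 := hx j
    rw [hxj j, h1, mul_zero, zero_add] at h2
    exact pos_of_mul_pos_left h2 (hnn b j)
  have hα0 : 0 < α := by
    obtain ⟨j, hj⟩ := hb
    have h1 : rv b j = 0 := by unfold rv; rw [hj]; simp
    have h2 := hx j
    rw [hxj j, h1, mul_zero, add_zero] at h2
    exact pos_of_mul_pos_left h2 (hnn a j)
  refine ⟨fun p => if p = a then α else β, fun p hp => ?_, ?_⟩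
  · simp only
    split_ifs
    · exact hα0
    · exact hβ0
  · rw [Finset.sum_pair hab]
    simp only [if_true, if_neg hab.symm]
    funext j
    rw [hxj j]
    simp only [Pi.add_apply, Pi.smul_apply, smul_eq_mul]

end Pool.Agent.MP2a1ef3.N3
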