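import Pool.Agent.Lib.MP_2a1ef3_lc.N3.Stm

/-!
# MP_2a1ef3_lc, dimension three: membership in black cones depends on the signs
(piece `mem_ocone_iff_of_sameSign`)
-/

set_option autoImplicit false

namespace Pool.Agent.MP2a1ef3.N3

open Filter

/-- extension of an independent set to a basis by unit vectors -/
private theorem mem_ocone_iff_ext (C : Finset V) (hI : Ind C) :
    ∃ k₁ k₂ k₃ : V, k₁ ≠ k₂ ∧ k₁ ≠ k₃ ∧ k₂ ≠ k₃ ∧ dt (rv k₁) (rv k₂) (rv k₃) ≠ 0 ∧
      C ⊆ {k₁, k₂, k₃} ∧ ({k₁, k₂, k₃} : Finset V) ⊆ C ∪ {ev 0, ev 1, ev 2} := by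
  classical
  have hI' : LinearIndepOn ℝ rv (C : Set V) := hI
  obtain ⟨b, hbt, hCb, hsp, hb⟩ := exists_linearIndepOn_extension hI'
    (t := ((C ∪ {ev 0, ev 1, ev 2} : Finset V) : Set V)) (by
      intro x hx
      rw [Finset.coe_union]
      exact Or.inl hx)
  have hfin : b.Finite := (Finset.finite_toSet _).subset hbt
  have : Fintype b := hfin.fintype
  have htop : ⊤ ≤ Submodule.span ℝ (Set.range fun p : b => rv p.1) := by
    have h1 : (Set.range fun p : b => rv p.1) = rv '' b := by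
      ext x
      simp
    rw [h1]
    have h2 : ∀ i, (Pi.single i 1 : R3) ∈ Submodule.span ℝ (rv '' b) := by
      intro i
      have h3 : (Pi.single i 1 : R3) = rv (ev i) := by
        funext j
        unfold rv ev
        by_cases hij : j = i
        · subst hij
          simp
        · simp [Pi.single_eq_of_ne hij]
      rw [h3]
      refine hsp ⟨ev i, ?_, rfl⟩
      rw [Finset.mem_coe, Finset.mem_union]
      right
      fin_cases i <;> simp
    intro x _
    have h4 : x = ∑ i, x i • (Pi.single i 1 : R3) := by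
      funext j
      simp [Finset.sum_apply, Pi.single_apply]
    rw [h4]
    exact Submodule.sum_mem _ fun i _ => Submodule.smul_mem _ _ (h2 i)
  have hcard : Fintype.card b = 3 := by
    have h := Module.finrank_eq_card_basis (Module.Basis.mk hb htop)
    rw [Module.finrank_fin_fun] at h
    exact h.symm
  have hB : b.toFinset.card = 3 := by
    rw [Set.toFinset_card]
    exact hcard
  obtain ⟨x, y, z, hxy, hxz, hyz, hBe⟩ := Finset.card_eq_three.1 hB
  have hmem : ∀ k, k ∈ b ↔ k = x ∨ k = y ∨ k = z := by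
    intro k
    rw [← Set.mem_toFinset, hBe]
    simp
  refine ⟨x, y, z, hxy, hxz, hyz, ?_, ?_, ?_⟩
  · have hx : x ∈ b := (hmem x).2 (Or.inl rfl)
    have hy : y ∈ b := (hmem y).2 (Or.inr (Or.inl rfl))
    have hz : z ∈ b := (hmem z).2 (Or.inr (Or.inr rfl))
    have hli : LinearIndependent ℝ (fun p : b => rv p.1) := hb
    have h1 : LinearIndependent ℝ
        ((fun p : b => rv p.1) ∘ (![⟨x, hx⟩, ⟨y, hy⟩, ⟨z, hz⟩] : Fin 3 → b)) := by
      apply hli.comp
      intro i j hij
      fin_cases i <;> fin_cases j <;> simp_all [Subtype.ext_iff]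
    have h2 : LinearIndependent ℝ (Matrix.of ![rv x, rv y, rv z]).row := by
      have h3 : (Matrix.of ![rv x, rv y, rv z]).row =
          ((fun p : b => rv p.1) ∘ (![⟨x, hx⟩, ⟨y, hy⟩, ⟨z, hz⟩] : Fin 3 → b)) := by
        funext i
        fin_cases i <;> rfl
      rw [h3]
      exact h1
    rw [Matrix.linearIndependent_rows_iff_isUnit, Matrix.isUnit_iff_isUnit_det,
      isUnit_iff_ne_zero, Matrix.det_fin_three] at h2
    intro h0
    apply h2
    unfold dt at h0
    simp only [Matrix.of_apply, Matrix.cons_val_zero, Matrix.cons_val_one, Matrix.cons_val]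
    linear_combination h0
  · intro k hk
    have := (hmem k).1 (hCb hk)
    simpa using this
  · intro k hk
    have h1 : k ∈ b := (hmem k).2 (by simpa using hk)
    exact_mod_cast hbt h1

private theorem mem_ocone_iff_cramer (a b c k : R3) (j : Fin 3) :
    dt a b c * k j = dt b c k * a j + dt c a k * b j + dt a b k * c j := by
  fin_cases j <;> (unfold dt; simp; ring)

private theorem mem_ocone_iff_div {x y D : ℝ} (h : SignType.sign x = SignType.sign y) :
    SignType.sign (x / D) = SignType.sign (y / D) := by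
  rw [div_eq_mul_inv, div_eq_mul_inv, sign_mul, sign_mul, h]

private theorem mem_ocone_iff_pos {x y : ℝ} (h : SignType.sign x = SignType.sign y)
    (hx : 0 < x) : 0 < y := by
  rw [← sign_eq_one_iff] at hx ⊢
  rw [← h]
  exact hx

private theorem mem_ocone_iff_zero {x y : ℝ} (h : SignType.sign x = SignType.sign y)
    (hx : x = 0) : y = 0 := by
  rw [← sign_eq_zero_iff] at hx ⊢
  rw [← h]
  exact hx

private theorem mem_ocone_iff_one {CC : Finset (Finset V)} {C : Finset V} (hC : C ∈ CC)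
    (hI : Ind C) {z z' : R3} (hs : SameSign CC z z') (hz : z ∈ ocone C) : z' ∈ ocone C := by
  classical
  obtain ⟨k₁, k₂, k₃, h12, h13, h23, hD, hCT, hTV⟩ := mem_ocone_iff_ext C hI
  have hT : ∀ k ∈ ({k₁, k₂, k₃} : Finset V), k ∈ VV CC := by
    intro k hk
    rcases Finset.mem_union.1 (hTV hk) with h | h
    · exact Finset.mem_union_left _ (Finset.mem_biUnion.2 ⟨C, hC, h⟩)
    · exact Finset.mem_union_right _ h
  have hk₁ := hT k₁ (by simp)
  have hk₂ := hT k₂ (by simp)
  have hk₃ := hT k₃ (by simp)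
  obtain ⟨D, hDdef⟩ : ∃ D, D = dt (rv k₁) (rv k₂) (rv k₃) := ⟨_, rfl⟩
  rw [← hDdef] at hD
  -- the coordinate functions
  obtain ⟨c, hc⟩ : ∃ c : R3 → V → ℝ, c = fun x k =>
    if k = k₁ then dt (rv k₂) (rv k₃) x / D
    else if k = k₂ then dt (rv k₃) (rv k₁) x / D
    else dt (rv k₁) (rv k₂) x / D := ⟨_, rfl⟩
  have hsum : ∀ f : V → ℝ, ∑ k ∈ ({k₁, k₂, k₃} : Finset V), f k • rv k =
      f k₁ • rv k₁ + (f k₂ • rv k₂ + f k₃ • rv k₃) := by
    intro f
    rw [Finset.sum_insert (by simp [h12, h13]), Finset.sum_pair h23]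
  have hc1 : ∀ x, c x k₁ = dt (rv k₂) (rv k₃) x / D := fun x => by rw [hc]; simp
  have hc2 : ∀ x, c x k₂ = dt (rv k₃) (rv k₁) x / D := fun x => by
    rw [hc]; simp [h12.symm]
  have hc3 : ∀ x, c x k₃ = dt (rv k₁) (rv k₂) x / D := fun x => by
    rw [hc]; simp [h13.symm, h23.symm]
  have hx : ∀ x, x = ∑ k ∈ ({k₁, k₂, k₃} : Finset V), c x k • rv k := by
    intro x
    rw [hsum, hc1, hc2, hc3]
    funext j
    have h := mem_ocone_iff_cramer (rv k₁) (rv k₂) (rv k₃) x j
    rw [← hDdef] at h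
    simp only [Pi.add_apply, Pi.smul_apply, smul_eq_mul]
    field_simp
    linarith
  have hsgn : ∀ k ∈ ({k₁, k₂, k₃} : Finset V),
      SignType.sign (c z k) = SignType.sign (c z' k) := by
    intro k hk
    have hk' : k = k₁ ∨ k = k₂ ∨ k = k₃ := by simpa using hk
    rcases hk' with rfl | rfl | rfl
    · rw [hc1, hc1]
      exact mem_ocone_iff_div (hs _ hk₂ _ hk₃)
    · rw [hc2, hc2]
      exact mem_ocone_iff_div (hs _ hk₃ _ hk₁)
    · rw [hc3, hc3]
      exact mem_ocone_iff_div (hs _ hk₁ _ hk₂)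
  -- the coordinates of `z`
  obtain ⟨l, hl, hzl⟩ := hz
  have hzT : z = ∑ k ∈ ({k₁, k₂, k₃} : Finset V), (if k ∈ C then l k else 0) • rv k := by
    rw [hzl]
    have h1 : ∑ p ∈ C, l p • rv p = ∑ p ∈ C, (if p ∈ C then l p else 0) • rv p :=
      Finset.sum_congr rfl fun p hp => by rw [if_pos hp]
    rw [h1]
    exact Finset.sum_subset hCT fun p _ hp => by rw [if_neg hp, zero_smul]
  have hcz : ∀ k ∈ ({k₁, k₂, k₃} : Finset V), c z k = if k ∈ C then l k else 0 := by
    have h1 := hsum (fun k => if k ∈ C then l k else 0)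
    rw [← hzT] at h1
    obtain ⟨α, hα⟩ : ∃ α, α = if k₁ ∈ C then l k₁ else 0 := ⟨_, rfl⟩
    obtain ⟨β, hβ⟩ : ∃ β, β = if k₂ ∈ C then l k₂ else 0 := ⟨_, rfl⟩
    obtain ⟨γ, hγ⟩ : ∃ γ, γ = if k₃ ∈ C then l k₃ else 0 := ⟨_, rfl⟩
    simp only [← hα, ← hβ, ← hγ] at h1
    have e1 : dt (rv k₂) (rv k₃) z = α * D := by
      rw [h1, hDdef]
      unfold dt
      simp only [Pi.add_apply, Pi.smul_apply, smul_eq_mul]
      ring
    have e2 : dt (rv k₃) (rv k₁) z = β * D := by
      rw [h1, hDdef]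
      unfold dt
      simp only [Pi.add_apply, Pi.smul_apply, smul_eq_mul]
      ring
    have e3 : dt (rv k₁) (rv k₂) z = γ * D := by
      rw [h1, hDdef]
      unfold dt
      simp only [Pi.add_apply, Pi.smul_apply, smul_eq_mul]
      ring
    intro k hk
    have hk' : k = k₁ ∨ k = k₂ ∨ k = k₃ := by simpa using hk
    rcases hk' with rfl | rfl | rfl
    · rw [hc1, e1, ← hα, mul_div_cancel_right₀ _ hD]
    · rw [hc2, e2, ← hβ, mul_div_cancel_right₀ _ hD]
    · rw [hc3, e3, ← hγ, mul_div_cancel_right₀ _ hD]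
  refine ⟨c z', fun k hk => ?_, ?_⟩
  · have h1 := hcz k (hCT hk)
    rw [if_pos hk] at h1
    exact mem_ocone_iff_pos (hsgn k (hCT hk)) (by rw [h1]; exact hl k hk)
  · have h0 := hx z'
    rw [← Finset.sum_subset hCT fun k hk hkC => ?_] at h0
    · exact h0
    · have h1 := hcz k hk
      rw [if_neg hkC] at h1
      rw [mem_ocone_iff_zero (hsgn k hk) h1, zero_smul]

theorem p_mem_ocone_iff_of_sameSign : S_mem_ocone_iff_of_sameSign := by
  intro CC C hC hI z z' hs
  exact ⟨fun h => mem_ocone_iff_one hC hI hs h,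
    fun h => mem_ocone_iff_one hC hI (fun k hk k' hk' => (hs k hk k' hk').symm) h⟩

end Pool.Agent.MP2a1ef3.N3
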