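import Pool.Agent.Lib.MP_2a1ef3_lc.N3.Stm

/-!
MP_2a1ef3_lc, dimension three: the open cone of three independent vectors.
-/

set_option autoImplicit false

namespace Pool.Agent.MP2a1ef3.N3

open Filter

private theorem mem_ocone_tri_sum {a b c : V} (hab : a ≠ b) (hac : a ≠ c) (hbc : b ≠ c)
    (l : V → ℝ) : ∑ p ∈ ({a, b, c} : Finset V), l p • rv p =
      l a • rv a + (l b • rv b + l c • rv c) := by
  rw [Finset.sum_insert (by simp [hab, hac]), Finset.sum_insert (by simp [hbc]),
    Finset.sum_singleton]

theorem p_mem_ocone_tri : S_mem_ocone_tri := by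
  intro a b c h x
  have hab : a ≠ b := by
    rintro rfl
    have : dt (rv a) (rv a) (rv c) = 0 := by unfold dt; ring
    linarith
  have hac : a ≠ c := by
    rintro rfl
    have : dt (rv a) (rv b) (rv a) = 0 := by unfold dt; ring
    linarith
  have hbc : b ≠ c := by
    rintro rfl
    have : dt (rv a) (rv b) (rv b) = 0 := by unfold dt; ring
    linarith
  constructor
  · rintro ⟨l, hl, rfl⟩
    rw [mem_ocone_tri_sum hab hac hbc]
    have la : 0 < l a := hl a (by simp)
    have lb : 0 < l b := hl b (by simp)
    have lc : 0 < l c := hl c (by simp)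
    refine ⟨?_, ?_, ?_⟩
    · have h1 : dt (rv a) (rv b) (l a • rv a + (l b • rv b + l c • rv c)) =
          l c * dt (rv a) (rv b) (rv c) := by
        simp only [dt, Pi.add_apply, Pi.smul_apply, smul_eq_mul]
        ring
      rw [h1]
      exact mul_pos lc h
    · have h1 : dt (rv b) (rv c) (l a • rv a + (l b • rv b + l c • rv c)) =
          l a * dt (rv a) (rv b) (rv c) := by
        simp only [dt, Pi.add_apply, Pi.smul_apply, smul_eq_mul]
        ring
      rw [h1]
      exact mul_pos la h
    · have h1 : dt (rv c) (rv a) (l a • rv a + (l b • rv b + l c • rv c)) =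
          l b * dt (rv a) (rv b) (rv c) := by
        simp only [dt, Pi.add_apply, Pi.smul_apply, smul_eq_mul]
        ring
      rw [h1]
      exact mul_pos lb h
  · rintro ⟨h1, h2, h3⟩
    refine ⟨fun p => if p = a then dt (rv b) (rv c) x / dt (rv a) (rv b) (rv c)
      else if p = b then dt (rv c) (rv a) x / dt (rv a) (rv b) (rv c)
      else dt (rv a) (rv b) x / dt (rv a) (rv b) (rv c), ?_, ?_⟩
    · intro p _
      dsimp only
      split_ifs
      · exact div_pos h2 h
      · exact div_pos h3 h
      · exact div_pos h1 h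
    · rw [mem_ocone_tri_sum hab hac hbc]
      simp only [if_true, if_neg hab.symm, if_neg hac.symm, if_neg hbc.symm]
      have hD : dt (rv a) (rv b) (rv c) ≠ 0 := h.ne'
      funext j
      have key : dt (rv a) (rv b) (rv c) * x j = dt (rv b) (rv c) x * rv a j +
          (dt (rv c) (rv a) x * rv b j + dt (rv a) (rv b) x * rv c j) := by
        fin_cases j <;> simp only [dt, Fin.zero_eta, Fin.mk_one, Fin.reduceFinMk, Fin.isValue] <;>
          ring
      simp only [Pi.add_apply, Pi.smul_apply, smul_eq_mul]
      field_simp
      linarith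

end Pool.Agent.MP2a1ef3.N3
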