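import Pool.Agent.Lib.MP_2a1ef3_lc.N3.Stm

set_option autoImplicit false

namespace Pool.Agent.MP2a1ef3.N3

open Filter Topology

private lemma n1_final_erase {i j l : Fin 3} (hij : i ≠ j) (hil : i ≠ l) (hjl : j ≠ l) :
    (Finset.univ : Finset (Fin 3)).erase i = {j, l} := by
  revert i j l; decide

private lemma n1_final_sum {i j l : Fin 3} (hij : i ≠ j) (hil : i ≠ l) (hjl : j ≠ l)
    (f : Fin 3 → ℝ) : ∑ a ∈ (Finset.univ : Finset (Fin 3)).erase i, f a = f j + f l := by
  rw [n1_final_erase hij hil hjl, Finset.sum_pair hjl]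

private lemma n1_final_three {i j l : Fin 3} (hij : i ≠ j) (hil : i ≠ l) (hjl : j ≠ l)
    (a : Fin 3) : a = i ∨ a = j ∨ a = l := by
  revert i j l a; decide

private lemma n1_final_irr {x : ℝ} (hx : Irrational x) {a b : ℚ} (h : (a : ℝ) * x + b = 0) :
    a = 0 ∧ b = 0 := by
  have ha : a = 0 := by
    by_contra ha
    apply hx
    refine ⟨-b / a, ?_⟩
    have ha' : (a : ℝ) ≠ 0 := by exact_mod_cast ha
    push_cast
    rw [div_eq_iff ha']
    linarith
  refine ⟨ha, ?_⟩
  rw [ha] at h
  simpa using h

/-- Relations of one row. -/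
private lemma n1_final_row {x y x' y' : ℝ} (hx : Irrational x) {A B : ℚ}
    (e : y = A - B * x) (e' : y' = A - B * x') {c d f : ℚ}
    (h : (c : ℝ) * x + d * y + f = 0) : (c : ℝ) * x' + d * y' + f = 0 := by
  rw [e] at h
  have h3 : ((c - d * B : ℚ) : ℝ) * x + ((d * A + f : ℚ) : ℝ) = 0 := by
    push_cast; linarith
  obtain ⟨h4, h5⟩ := n1_final_irr hx h3
  have h4' : ((c - d * B : ℚ) : ℝ) = 0 := by rw [h4]; simp
  have h5' : ((d * A + f : ℚ) : ℝ) = 0 := by rw [h5]; simp
  push_cast at h4' h5'
  rw [e']
  linear_combination x' * h4' + h5'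

/-- A rational quadratic polynomial with a strict local maximum with value zero. -/
private lemma n1_final_quad {x : ℝ} (hx : Irrational x) {a b c : ℚ}
    (h0 : (a : ℝ) * x ^ 2 + b * x + c = 0)
    (h : ∀ᶠ t in 𝓝 x, t ≠ x → (a : ℝ) * t ^ 2 + b * t + c < 0) : False := by
  obtain ⟨ε, hε, hball⟩ := Metric.eventually_nhds_iff.mp h
  set D : ℝ := 2 * a * x + b with hD
  have hexp : ∀ η : ℝ, (a : ℝ) * (x + η) ^ 2 + b * (x + η) + c = D * η + a * η ^ 2 := by
    intro η
    rw [hD]; linear_combination h0
  have hneg : ∀ η : ℝ, η ≠ 0 → |η| < ε → D * η + a * η ^ 2 < 0 := by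
    intro η hη hηε
    have := hball (y := x + η) (by rw [Real.dist_eq]; simpa using hηε) (by simpa using hη)
    rw [hexp] at this
    exact this
  have hD0 : D = 0 := by
    by_contra hne
    have hDp : 0 < |D| := abs_pos.mpr hne
    have ha1 : 0 < |(a : ℝ)| + 1 := by positivity
    obtain ⟨η, hη, hηlt⟩ := exists_between (lt_min hε (div_pos hDp ha1))
    have e1 : η < ε := lt_of_lt_of_le hηlt (min_le_left _ _)
    have e2 : η * (|(a : ℝ)| + 1) < |D| :=
      (lt_div_iff₀ ha1).mp (lt_of_lt_of_le hηlt (min_le_right _ _))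
    have e3 : - |(a : ℝ)| ≤ a := neg_abs_le _
    have e4 : η * |(a : ℝ)| < |D| := by linarith
    have e5 : - (|(a : ℝ)| * η ^ 2) ≤ a * η ^ 2 := by
      have := mul_le_mul_of_nonneg_right e3 (sq_nonneg η)
      linarith
    have e6 : |(a : ℝ)| * η ^ 2 < |D| * η := by
      have := mul_lt_mul_of_pos_right e4 hη
      calc |(a : ℝ)| * η ^ 2 = η * |(a : ℝ)| * η := by ring
        _ < |D| * η := this
    rcases lt_or_gt_of_ne hne with hlt | hgt
    · have := hneg (-η) (by linarith) (by rw [abs_neg, abs_of_pos hη]; exact e1)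
      rw [abs_of_neg hlt] at e6
      have e7 : D * (-η) + a * (-η) ^ 2 = - D * η + a * η ^ 2 := by ring
      rw [e7] at this
      linarith
    · have := hneg η hη.ne' (by rw [abs_of_pos hη]; exact e1)
      rw [abs_of_pos hgt] at e6
      linarith
  have h3 : ((2 * a : ℚ) : ℝ) * x + ((b : ℚ) : ℝ) = 0 := by
    push_cast; rw [hD] at hD0; exact hD0
  obtain ⟨h4, -⟩ := n1_final_irr hx h3
  have ha0 : a = 0 := by linarith
  obtain ⟨η, hη, hηlt⟩ := exists_between hε
  have := hneg η hη.ne' (by rw [abs_of_pos hη]; exact hηlt)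
  rw [hD0, ha0] at this
  simp at this

theorem p_n1_final (hnr : S_n1_near) : S_n1_final := by
  intro CC q v w lab s h i j l hij hil hjl h1 h2 h3 A₁ B₁ A₂ B₂ A₃ B₃ hB₁ hB₂ hB₃ e1 e2 e3 hirr
  have hpos := h.1.1
  have pij := (hpos i j hij).1
  have pji := (hpos j i hij.symm).1
  have pil := (hpos i l hil).1
  have pli := (hpos l i hil.symm).1
  have pjl := (hpos j l hjl).1
  have plj := (hpos l j hjl.symm).1
  have bB₁ : (0:ℝ) < B₁ := by exact_mod_cast hB₁
  have bB₂ : (0:ℝ) < B₂ := by exact_mod_cast hB₂
  have bB₃ : (0:ℝ) < B₃ := by exact_mod_cast hB₃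
  -- irrationality
  have iji : Irrational (s j i) := by
    have : s j i = (s i j)⁻¹ := by
      field_simp; linarith
    rw [this]; exact hirr.inv
  have iil : Irrational (s i l) := by
    rintro ⟨r, hr⟩
    have h3 : ((B₁ : ℚ) : ℝ) * s i j + ((r - A₁ : ℚ) : ℝ) = 0 := by
      push_cast; rw [hr, e1]; ring
    exact hB₁.ne' (n1_final_irr hirr h3).1
  have ili : Irrational (s l i) := by
    have : s l i = (s i l)⁻¹ := by
      field_simp; linarith
    rw [this]; exact iil.inv
  -- the deformation
  set x := s i j with hx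
  set fil : ℝ → ℝ := fun t => A₁ - B₁ * t with hfil
  set fli : ℝ → ℝ := fun t => (fil t)⁻¹ with hfli
  set flj : ℝ → ℝ := fun t => A₃ - B₃ * fli t with hflj
  set fjl : ℝ → ℝ := fun t => (flj t)⁻¹ with hfjl
  set fji : ℝ → ℝ := fun t => (A₂ - fjl t) / B₂ with hfji
  have vil : fil x = s i l := by simp only [hfil]; exact e1.symm
  have vli : fli x = s l i := by
    simp only [hfli]; rw [vil]; field_simp; linarith
  have vlj : flj x = s l j := by simp only [hflj]; rw [vli]; exact e3.symm
  have vjl : fjl x = s j l := by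
    simp only [hfjl]; rw [vlj]; field_simp; linarith
  have vji : fji x = s j i := by
    simp only [hfji]; rw [vjl, e2]; field_simp; ring
  have cil : ContinuousAt fil x := by
    simp only [hfil]; fun_prop
  have cli : ContinuousAt fli x := cil.inv₀ (by rw [vil]; exact pil.ne')
  have clj : ContinuousAt flj x := continuousAt_const.sub (continuousAt_const.mul cli)
  have cjl : ContinuousAt fjl x := clj.inv₀ (by rw [vlj]; exact plj.ne')
  have cji : ContinuousAt fji x := (continuousAt_const.sub cjl).div_const _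
  obtain ⟨δ, hδ, hnear⟩ := hnr h.1
  have near : ∀ (f : ℝ → ℝ) (y : ℝ), ContinuousAt f x → f x = y →
      ∀ᶠ t in 𝓝 x, |f t - y| < δ := by
    intro f y hf hy
    have := hf.eventually (Metric.ball_mem_nhds (f x) hδ)
    filter_upwards [this] with t ht
    have := Metric.mem_ball.mp ht
    rwa [Real.dist_eq, hy] at this
  have nid : ∀ᶠ t in 𝓝 x, |t - x| < δ := near id x continuousAt_id rfl
  have posf : ∀ (f : ℝ → ℝ) (y : ℝ), ContinuousAt f x → f x = y → 0 < y →
      ∀ᶠ t in 𝓝 x, 0 < f t := by
    intro f y hf hy hy0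
    exact hf.eventually (lt_mem_nhds (by rw [hy]; exact hy0))
  -- the polynomial
  set a : ℚ := A₂ * (-(A₃ * B₁)) + B₁ with ha
  set b : ℚ := A₂ * (A₃ * A₁ - B₃) - A₁ - B₂ * (-(A₃ * B₁)) with hb
  set c : ℚ := - B₂ * (A₃ * A₁ - B₃) with hc
  have hQ : ∀ t : ℝ, (a : ℝ) * t ^ 2 + b * t + c =
      t * (A₂ * (A₃ * fil t - B₃) - fil t) - B₂ * (A₃ * fil t - B₃) := by
    intro t
    rw [ha, hb, hc]; push_cast
    simp only [hfil]; ring
  have hprod : ∀ t : ℝ, 0 < fil t → 0 < flj t → t * fji t - 1 =
      ((a : ℝ) * t ^ 2 + b * t + c) / (B₂ * (flj t * fil t)) := by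
    intro t h4 h5
    rw [hQ t]
    have e4 : flj t * fil t = A₃ * fil t - B₃ := by
      simp only [hflj, hfli]; field_simp
    have e5 : fjl t = fil t / (A₃ * fil t - B₃) := by
      rw [← e4]; simp only [hfjl]; field_simp
    have h6 : 0 < A₃ * fil t - B₃ := by rw [← e4]; exact mul_pos h5 h4
    rw [e4]
    simp only [hfji]
    rw [e5]
    generalize (A₃ : ℝ) * fil t - B₃ = E at h6 ⊢
    field_simp
  refine n1_final_quad (x := x) hirr (a := a) (b := b) (c := c) ?_ ?_
  · have := hprod x (by rw [vil]; exact pil) (by rw [vlj]; exact plj)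
    rw [vji] at this
    have h4 : x * s j i - 1 = 0 := by rw [h1]; ring
    rw [h4] at this
    have h5 : (B₂ * (flj x * fil x) : ℝ) ≠ 0 := by
      rw [vil, vlj]; positivity
    have := (div_eq_zero_iff.mp this.symm).resolve_right h5
    exact this
  filter_upwards [nid, near fil _ cil vil, near fli _ cli vli, near flj _ clj vlj,
    near fjl _ cjl vjl, near fji _ cji vji, posf fil _ cil vil pil, posf flj _ clj vlj plj,
    posf fli _ cli vli pli, posf fjl _ cjl vjl pjl, posf fji _ cji vji pji,
    posf id _ continuousAt_id rfl pij] with t n1 n2 n3 n4 n5 n6 p1 p2 p3 p4 p5 p6 htx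
  by_contra hcon
  push Not at hcon
  have hge : 1 ≤ t * fji t := by
    have := hprod t p1 p2
    have h4 : 0 ≤ ((a : ℝ) * t ^ 2 + b * t + c) / (B₂ * (flj t * fil t)) := by positivity
    rw [← this] at h4
    linarith
  have hge2 : fil t * fli t = 1 := by simp only [hfli]; field_simp
  have hge3 : fjl t * flj t = 1 := by simp only [hfjl]; field_simp
  set s' : Fin 3 → Fin 3 → ℝ := fun a b =>
    if a = i then (if b = j then t else if b = l then fil t else s a b)
    else if a = j then (if b = i then fji t else if b = l then fjl t else s a b)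
    else (if b = i then fli t else if b = j then flj t else s a b) with hs'
  have sij : s' i j = t := by simp [hs']
  have sil : s' i l = fil t := by simp [hs', hjl.symm]
  have sji : s' j i = fji t := by simp [hs', hij.symm]
  have sjl : s' j l = fjl t := by simp [hs', hij.symm, hil.symm]
  have sli : s' l i = fli t := by simp [hs', hil.symm, hjl.symm]
  have slj : s' l j = flj t := by simp [hs', hil.symm, hjl.symm, hij.symm]
  have hN : N1L CC q v w lab s' := by
    apply hnear s'
    · intro a b hab
      rcases n1_final_three hij hil hjl a with rfl | rfl | rfl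
      · rcases n1_final_three hij hil hjl b with rfl | rfl | rfl
        · exact absurd rfl hab
        · rw [sij]; exact n1
        · rw [sil]; exact n2
      · rcases n1_final_three hij hil hjl b with rfl | rfl | rfl
        · rw [sji]; exact n6
        · exact absurd rfl hab
        · rw [sjl]; exact n5
      · rcases n1_final_three hij hil hjl b with rfl | rfl | rfl
        · rw [sli]; exact n3
        · rw [slj]; exact n4
        · exact absurd rfl hab
    · intro a
      rcases n1_final_three hij hil hjl a with rfl | rfl | rfl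
      · intro c d hc
        rw [n1_final_sum hij hil hjl] at hc ⊢
        rw [sij, sil]
        exact n1_final_row hirr e1 (by simp only [hfil]) hc
      · intro c d hc
        rw [n1_final_sum hij.symm hjl hil] at hc ⊢
        rw [sji, sjl]
        refine n1_final_row iji e2 ?_ hc
        simp only [hfji]; field_simp; ring
      · intro c d hc
        rw [n1_final_sum hil.symm hjl.symm hij] at hc ⊢
        rw [sli, slj]
        exact n1_final_row ili e3 (by simp only [hflj]) hc
    · intro a b hab
      rcases n1_final_three hij hil hjl a with rfl | rfl | rfl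
      · rcases n1_final_three hij hil hjl b with rfl | rfl | rfl
        · exact absurd rfl hab
        · rw [sij, sji]; exact hge
        · rw [sil, sli, hge2]
      · rcases n1_final_three hij hil hjl b with rfl | rfl | rfl
        · rw [sij, sji, mul_comm]; exact hge
        · exact absurd rfl hab
        · rw [sjl, slj, hge3]
      · rcases n1_final_three hij hil hjl b with rfl | rfl | rfl
        · rw [sil, sli, mul_comm, hge2]
        · rw [sjl, slj, mul_comm, hge3]
        · exact absurd rfl hab
  have := h.2 s' hN i j hij h1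
  rw [sij] at this
  exact htx this

end Pool.Agent.MP2a1ef3.N3
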