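import Pool.Agent.Lib.MP_2a1ef3_lc.N3.Stm

set_option autoImplicit false

namespace Pool.Agent.MP2a1ef3.N3

open Filter

private theorem n1_near_zero {i : Fin 3} {r r' : R3} (h : RowRel i r r') {x : V}
    (h0 : cut i r (rv x) = 0) : cut i r' (rv x) = 0 := by
  have h1 := h (fun j => (x j : ℚ)) (-(x i : ℚ))
  have e : ∀ t : R3, (∑ j ∈ Finset.univ.erase i, (((x j : ℚ)) : ℝ) * t j) + ((-(x i : ℚ) : ℚ) : ℝ)
      = cut i t (rv x) := by
    intro t
    unfold cut rv
    push_cast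
    rw [← sub_eq_add_neg]
    congr 1
    refine Finset.sum_congr rfl fun j _ => ?_
    rw [mul_comm]
  rw [e, e] at h1
  exact h1 h0

private theorem n1_near_sign (s : Fin 3 → Fin 3 → ℝ) (i : Fin 3) (x : V) :
    ∀ᶠ δ : ℝ in nhdsWithin 0 (Set.Ioi 0), ∀ s' : Fin 3 → Fin 3 → ℝ,
      (∀ i j, i ≠ j → |s' i j - s i j| < δ) →
      (0 < cut i (s i) (rv x) → 0 < cut i (s' i) (rv x)) ∧
      (cut i (s i) (rv x) < 0 → cut i (s' i) (rv x) < 0) := by
  by_cases h0 : cut i (s i) (rv x) = 0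
  · refine Eventually.of_forall fun δ s' _ => ⟨fun h => ?_, fun h => ?_⟩
    · rw [h0] at h
      exact absurd h (lt_irrefl _)
    · rw [h0] at h
      exact absurd h (lt_irrefl _)
  · set M : ℝ := ∑ j ∈ Finset.univ.erase i, (x j : ℝ) with hM
    have hM0 : 0 ≤ M := Finset.sum_nonneg fun j _ => Nat.cast_nonneg _
    have hpos : 0 < |cut i (s i) (rv x)| / (M + 1) := by
      have := abs_pos.2 h0
      positivity
    filter_upwards [Ioo_mem_nhdsGT hpos] with δ hδ s' hs'
    have hd : |cut i (s' i) (rv x) - cut i (s i) (rv x)| < |cut i (s i) (rv x)| := by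
      have e : cut i (s' i) (rv x) - cut i (s i) (rv x) =
          ∑ j ∈ Finset.univ.erase i, (s' i j - s i j) * (x j : ℝ) := by
        unfold cut rv
        rw [sub_sub_sub_cancel_right, ← Finset.sum_sub_distrib]
        refine Finset.sum_congr rfl fun j _ => ?_
        ring
      rw [e]
      have h1 : |∑ j ∈ Finset.univ.erase i, (s' i j - s i j) * (x j : ℝ)| ≤ δ * M := by
        refine (Finset.abs_sum_le_sum_abs _ _).trans ?_
        rw [hM, Finset.mul_sum]
        refine Finset.sum_le_sum fun j hj => ?_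
        rw [abs_mul, abs_of_nonneg (Nat.cast_nonneg (α := ℝ) (x j))]
        have hij : i ≠ j := (Finset.ne_of_mem_erase hj).symm
        exact mul_le_mul_of_nonneg_right (hs' i j hij).le (Nat.cast_nonneg _)
      have h2 : δ * (M + 1) < |cut i (s i) (rv x)| := by
        have := hδ.2
        rwa [lt_div_iff₀ (by linarith)] at this
      have h3 : 0 < δ := hδ.1
      nlinarith
    rw [abs_lt] at hd
    constructor
    · intro h
      rw [abs_of_pos h] at hd
      linarith [hd.1]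
    · intro h
      rw [abs_of_neg h] at hd
      linarith [hd.2]

theorem p_n1_near : S_n1_near := by
  intro CC q v w lab s h
  obtain ⟨h1, h2, h3⟩ := h
  have e1 : ∀ᶠ δ : ℝ in nhdsWithin 0 (Set.Ioi 0), ∀ i j, i ≠ j → δ < s i j := by
    rw [eventually_all]
    intro i
    rw [eventually_all]
    intro j
    by_cases hij : i = j
    · exact Eventually.of_forall fun δ h => absurd hij h
    · filter_upwards [Ioo_mem_nhdsGT (h1 i j hij).1] with δ hδ _
      exact hδ.2
  have e2 : ∀ᶠ δ : ℝ in nhdsWithin 0 (Set.Ioi 0), ∀ C ∈ CC, ∀ k ∈ C, ∀ s' : Fin 3 → Fin 3 → ℝ,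
      (∀ i j, i ≠ j → |s' i j - s i j| < δ) →
      (0 < cut (lab C) (s (lab C)) (rv k) → 0 < cut (lab C) (s' (lab C)) (rv k)) ∧
      (cut (lab C) (s (lab C)) (rv k) < 0 → cut (lab C) (s' (lab C)) (rv k) < 0) := by
    rw [eventually_all_finset]
    intro C _
    rw [eventually_all_finset]
    intro k _
    exact n1_near_sign s (lab C) k
  have e3 : ∀ x : V, ∀ᶠ δ : ℝ in nhdsWithin 0 (Set.Ioi 0), ∀ i, ∀ s' : Fin 3 → Fin 3 → ℝ,
      (∀ i j, i ≠ j → |s' i j - s i j| < δ) →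
      (0 < cut i (s i) (rv x) → 0 < cut i (s' i) (rv x)) ∧
      (cut i (s i) (rv x) < 0 → cut i (s' i) (rv x) < 0) := by
    intro x
    rw [eventually_all]
    intro i
    exact n1_near_sign s i x
  obtain ⟨δ, ⟨⟨⟨⟨hq, hv⟩, hw⟩, hC⟩, hp⟩, hδ⟩ :=
    ((((((e3 q).and (e3 v)).and (e3 w)).and e2).and e1).and self_mem_nhdsWithin).exists
  refine ⟨δ, hδ, fun s' hs' hr hc => ⟨?_, ?_, ?_⟩⟩
  · intro i j hij
    refine ⟨?_, hc i j hij⟩
    have h4 := hs' i j hij
    have h5 := hp i j hij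
    rw [abs_lt] at h4
    linarith [h4.1]
  · intro i
    rcases h2 i with h4 | ⟨h4, h5 | ⟨h5, h6⟩⟩
    · exact Or.inl ((hq i s' hs').1 h4)
    · exact Or.inr ⟨n1_near_zero (hr i) h4, Or.inl ((hv i s' hs').1 h5)⟩
    · exact Or.inr ⟨n1_near_zero (hr i) h4, Or.inr ⟨n1_near_zero (hr i) h5,
        (hw i s' hs').1 h6⟩⟩
  · intro C hCC k hk
    rcases (h3 C hCC k hk).lt_or_eq with h4 | h4
    · exact ((hC C hCC k hk s' hs').2 h4).le
    · exact (n1_near_zero (hr (lab C)) h4).le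

end Pool.Agent.MP2a1ef3.N3
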