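import Pool.Agent.Lib.MP_2a1ef3_lc.N3.Stm

set_option autoImplicit false

namespace Pool.Agent.MP2a1ef3.N3

open Filter

private theorem nr_prod {x y : ℝ} (h : 1 < x * y) : ∃ δ : ℝ, 0 < δ ∧ ∀ x' y' : ℝ,
    |x' - x| < δ → |y' - y| < δ → 1 ≤ x' * y' := by
  set M : ℝ := |x| + |y| + 1 with hM
  have hMp : 0 < M := by positivity
  refine ⟨min 1 ((x * y - 1) / M), lt_min one_pos (div_pos (by linarith) hMp), ?_⟩
  intro x' y' hx hy
  have hx1 : |x' - x| < 1 := hx.trans_le (min_le_left _ _)
  have hx2 : |x' - x| < (x * y - 1) / M := hx.trans_le (min_le_right _ _)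
  have hy2 : |y' - y| < (x * y - 1) / M := hy.trans_le (min_le_right _ _)
  have hx' : |x'| ≤ |x| + 1 := by
    have : x' = x + (x' - x) := by ring
    calc |x'| = |x + (x' - x)| := by rw [← this]
      _ ≤ |x| + |x' - x| := abs_add_le _ _
      _ ≤ |x| + 1 := by linarith
  have h1 : |x' * y' - x * y| ≤ (x * y - 1) := by
    have e : x' * y' - x * y = x' * (y' - y) + y * (x' - x) := by ring
    calc |x' * y' - x * y| = |x' * (y' - y) + y * (x' - x)| := by rw [e]
      _ ≤ |x' * (y' - y)| + |y * (x' - x)| := abs_add_le _ _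
      _ = |x'| * |y' - y| + |y| * |x' - x| := by rw [abs_mul, abs_mul]
      _ ≤ (|x| + 1) * ((x * y - 1) / M) + |y| * ((x * y - 1) / M) := by
          have a1 : |x'| * |y' - y| ≤ (|x| + 1) * ((x * y - 1) / M) :=
            mul_le_mul hx' hy2.le (abs_nonneg _) (by positivity)
          have a2 : |y| * |x' - x| ≤ |y| * ((x * y - 1) / M) :=
            mul_le_mul_of_nonneg_left hx2.le (abs_nonneg _)
          linarith
      _ = M * ((x * y - 1) / M) := by rw [hM]; ring
      _ = x * y - 1 := by field_simp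
  have := (abs_le.1 h1).1
  linarith

theorem p_n1_rat (h1 : S_dl) (h2 : S_n1_near) (h3 : S_n1_rigid) (h4 : S_n1_step)
    (h5 : S_n1_final) : S_n1_rat := by
  classical
  rintro CC q v w ⟨s₀, hs1, hs2, hs3⟩
  choose! lab hlab using hs3
  have hL0 : N1L CC q v w lab s₀ := ⟨hs1, hs2, hlab⟩
  obtain ⟨s, hR⟩ := h3 hL0
  -- tight couplings are rational
  have hirr_inv : ∀ x y : ℝ, x * y = 1 → Irrational x → Irrational y := by
    intro x y hxy hx
    have hy : y = x⁻¹ := by
      have hx0 : x ≠ 0 := by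
        rintro rfl
        simp at hxy
      field_simp
      linarith
    rw [hy]
    exact hx.inv
  have htight : ∀ i j, i ≠ j → s i j * s j i = 1 → ¬ Irrational (s i j) := by
    intro i j hij ht hirr
    obtain ⟨l, hl1, hl2⟩ : ∃ l : Fin 3, i ≠ l ∧ j ≠ l := by
      fin_cases i <;> fin_cases j <;> first | exact absurd rfl hij | decide
    have ht' : s j i * s i j = 1 := by rw [mul_comm]; exact ht
    obtain ⟨t1, A1, B1, hB1, e1⟩ := h4 hR hij hl1 hl2 ht hirr
    obtain ⟨t2, A2, B2, hB2, e2⟩ := h4 hR hij.symm hl2 hl1 ht' (hirr_inv _ _ ht hirr)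
    have hil : Irrational (s i l) := by
      rw [e1]
      have : Irrational ((B1 : ℝ) * s i j) := hirr.ratCast_mul hB1.ne'
      exact this.ratCast_sub A1
    have t1' : s l i * s i l = 1 := by rw [mul_comm]; exact t1
    obtain ⟨t3, A3, B3, hB3, e3⟩ := h4 hR (i := l) (j := i) (l := j) hl1.symm hl2.symm hij t1'
      (hirr_inv _ _ t1 hil)
    exact h5 hR hij hl1 hl2 ht t1 t2 hB1 hB2 hB3 e1 e2 e3 hirr
  obtain ⟨hL, -⟩ := hR
  obtain ⟨δ, hδ, hnear⟩ := h2 hL
  -- a common radius for the couplings
  have hcoup : ∀ p : Fin 3 × Fin 3, ∃ δ : ℝ, 0 < δ ∧ (p.1 ≠ p.2 → s p.1 p.2 * s p.2 p.1 ≠ 1 →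
      ∀ x' y' : ℝ, |x' - s p.1 p.2| < δ → |y' - s p.2 p.1| < δ → 1 ≤ x' * y') := by
    rintro ⟨i, j⟩
    by_cases hh : i ≠ j ∧ s i j * s j i ≠ 1
    · have : 1 < s i j * s j i := lt_of_le_of_ne (hL.1 i j hh.1).2 (Ne.symm hh.2)
      obtain ⟨δ, hδ, h⟩ := nr_prod this
      exact ⟨δ, hδ, fun _ _ => h⟩
    · refine ⟨1, one_pos, fun h h' => absurd ⟨h, h'⟩ hh⟩
  choose δc hδc hδc' using hcoup
  obtain ⟨ε, hε, hε1, hε2⟩ : ∃ ε : ℝ, 0 < ε ∧ ε ≤ δ ∧ ∀ p, ε ≤ δc p := by
    refine ⟨min δ (Finset.univ.inf' Finset.univ_nonempty δc), ?_, min_le_left _ _, ?_⟩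
    · refine lt_min hδ ?_
      rw [Finset.lt_inf'_iff]
      exact fun p _ => hδc p
    · intro p
      exact (min_le_right _ _).trans (Finset.inf'_le _ (Finset.mem_univ p))
  obtain ⟨y, hy1, hy2⟩ := h1 (fun p : Fin 3 × Fin 3 => s p.1 p.2) hε
  have hN : N1L CC q v w lab (fun i j => (y (i, j) : ℝ)) := by
    refine hnear _ ?_ ?_ ?_
    · intro i j _
      have := hy1 (i, j)
      rw [abs_sub_comm] at this
      exact this.trans_le hε1
    · intro i c d hcd
      have h6 := hy2 (fun p => if p.1 = i ∧ p.2 ≠ i then c p.2 else 0) d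
      have e1 : (∑ p : Fin 3 × Fin 3, (((if p.1 = i ∧ p.2 ≠ i then c p.2 else 0 : ℚ) : ℝ)) *
          s p.1 p.2) = ∑ j ∈ Finset.univ.erase i, (c j : ℝ) * s i j := by
        rw [Fintype.sum_prod_type, Finset.sum_eq_single i]
        · rw [← Finset.sum_erase_add _ _ (Finset.mem_univ i)]
          simp only [true_and, ne_eq, not_true_eq_false, if_false, Rat.cast_zero, zero_mul,
            add_zero]
          refine Finset.sum_congr rfl fun j hj => ?_
          rw [if_pos (Finset.mem_erase.1 hj).1]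
        · intro b _ hb
          simp [hb]
        · intro h; exact absurd (Finset.mem_univ _) h
      have e2 : (∑ p : Fin 3 × Fin 3, (if p.1 = i ∧ p.2 ≠ i then c p.2 else 0 : ℚ) *
          y p) = ∑ j ∈ Finset.univ.erase i, c j * y (i, j) := by
        rw [Fintype.sum_prod_type, Finset.sum_eq_single i]
        · rw [← Finset.sum_erase_add _ _ (Finset.mem_univ i)]
          simp only [true_and, ne_eq, not_true_eq_false, if_false, zero_mul,
            add_zero]
          refine Finset.sum_congr rfl fun j hj => ?_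
          rw [if_pos (Finset.mem_erase.1 hj).1]
        · intro b _ hb
          simp [hb]
        · intro h; exact absurd (Finset.mem_univ _) h
      rw [e1, e2] at h6
      have h7 := h6 hcd
      have h8 : (((∑ j ∈ Finset.univ.erase i, c j * y (i, j)) + d : ℚ) : ℝ) = 0 := by
        rw [h7]; simp
      push_cast at h8
      exact h8
    · intro i j hij
      by_cases ht : s i j * s j i = 1
      · have hval : ∀ a b : Fin 3, ¬ Irrational (s a b) → (y (a, b) : ℝ) = s a b := by
          intro a b hab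
          unfold Irrational at hab
          push Not at hab
          obtain ⟨r, hr⟩ := hab
          have h6 := hy2 (fun p => if p = (a, b) then 1 else 0) (-r) (by
            rw [Finset.sum_eq_single (a, b)]
            · rw [if_pos rfl, ← hr]; simp
            · intro p _ hp
              rw [if_neg hp]; simp
            · intro h; exact absurd (Finset.mem_univ _) h)
          simp only [ite_mul, one_mul, zero_mul, Finset.sum_ite_eq', Finset.mem_univ,
            if_true] at h6
          have h7 : y (a, b) = r := by linarith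
          rw [h7, hr]
        have ht' : s j i * s i j = 1 := by rw [mul_comm]; exact ht
        show 1 ≤ (y (i, j) : ℝ) * (y (j, i) : ℝ)
        rw [hval i j (htight i j hij ht), hval j i (htight j i hij.symm ht'), ht]
      · refine hδc' (i, j) hij ht _ _ ?_ ?_
        · have := hy1 (i, j)
          rw [abs_sub_comm] at this
          exact this.trans_le (hε2 _)
        · have := hy1 (j, i)
          rw [abs_sub_comm] at this
          exact this.trans_le (hε2 _)
  exact ⟨fun i j => y (i, j), hN.1, hN.2.1, fun C hC => ⟨lab C, hN.2.2 C hC⟩⟩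

end Pool.Agent.MP2a1ef3.N3
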