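import Pool.Agent.Lib.MP_2a1ef3_lc.N3.Stm

set_option autoImplicit false

namespace Pool.Agent.MP2a1ef3.N3

open Filter

private theorem n1_rigid_uv {u v : ℝ} (hu : 0 < u) (hv : 0 < v) (h : 1 ≤ u * v) : 2 ≤ u + v := by
  by_contra hc
  push Not at hc
  nlinarith [sq_nonneg (u - v), mul_pos hu hv]

private theorem n1_rigid_mid {x y x' y' : ℝ} (hx : 0 < x) (hy : 0 < y) (hx' : 0 < x')
    (hy' : 0 < y') (h : 1 ≤ x * y) (h' : 1 ≤ x' * y') :
    1 ≤ ((x + x') / 2) * ((y + y') / 2) ∧
      (((x + x') / 2) * ((y + y') / 2) = 1 → x * y = 1 ∧ x' = x) := by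
  have huv : 1 ≤ (x * y') * (x' * y) := by
    have : (x * y') * (x' * y) = (x * y) * (x' * y') := by ring
    rw [this]
    nlinarith
  have h2 := n1_rigid_uv (mul_pos hx hy') (mul_pos hx' hy) huv
  refine ⟨by nlinarith, fun he => ?_⟩
  have e1 : x * y + x' * y' + (x * y' + x' * y) = 4 := by nlinarith
  have e2 : x * y = 1 := by linarith
  have e3 : x' * y' = 1 := by linarith
  have e4 : x * y' + x' * y = 2 := by linarith
  have e5 : (x * y' - x' * y) ^ 2 = 0 := by
    have : (x * y' - x' * y) ^ 2 = (x * y' + x' * y) ^ 2 - 4 * ((x * y) * (x' * y')) := by ring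
    rw [this, e4, e2, e3]; norm_num
  have e6 : x * y' - x' * y = 0 := by
    exact pow_eq_zero_iff (two_ne_zero) |>.mp e5
  have e7 : x' * y = 1 := by linarith
  refine ⟨e2, ?_⟩
  have : (x' - x) * y = 0 := by linarith
  rcases mul_eq_zero.mp this with h | h
  · linarith
  · exact absurd h hy.ne'

private theorem n1_rigid_cut (i : Fin 3) (r r' x : R3) :
    cut i (fun j => (r j + r' j) / 2) x = (cut i r x + cut i r' x) / 2 := by
  unfold cut
  have : ∑ j ∈ Finset.univ.erase i, (r j + r' j) / 2 * x j =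
      ((∑ j ∈ Finset.univ.erase i, r j * x j) + ∑ j ∈ Finset.univ.erase i, r' j * x j) / 2 := by
    rw [← Finset.sum_add_distrib, Finset.sum_div]
    refine Finset.sum_congr rfl fun j _ => ?_
    ring
  rw [this]; ring

private theorem n1_rigid_lex {a b c a' b' c' : ℝ} (h : lexpos a b c) (h' : lexpos a' b' c') :
    lexpos ((a + a') / 2) ((b + b') / 2) ((c + c') / 2) := by
  unfold lexpos at *
  rcases h with h | ⟨h1, h | ⟨h2, h⟩⟩ <;> rcases h' with h' | ⟨h1', h' | ⟨h2', h'⟩⟩
  · left; linarith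
  · left; linarith
  · left; linarith
  · left; linarith
  · right; exact ⟨by linarith, Or.inl (by linarith)⟩
  · right; exact ⟨by linarith, Or.inl (by linarith)⟩
  · left; linarith
  · right; exact ⟨by linarith, Or.inl (by linarith)⟩
  · right; exact ⟨by linarith, Or.inr ⟨by linarith, by linarith⟩⟩

private theorem n1_rigid_N1L {CC : Finset (Finset V)} {q v w : V} {lab : Finset V → Fin 3}
    {s s' : Fin 3 → Fin 3 → ℝ} (h : N1L CC q v w lab s) (h' : N1L CC q v w lab s') :
    N1L CC q v w lab (fun i j => (s i j + s' i j) / 2) := by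
  obtain ⟨h1, h2, h3⟩ := h
  obtain ⟨h1', h2', h3'⟩ := h'
  refine ⟨?_, ?_, ?_⟩
  · intro i j hij
    have a := h1 i j hij
    have b := h1 j i hij.symm
    have a' := h1' i j hij
    have b' := h1' j i hij.symm
    refine ⟨by have := a.1; have := a'.1; positivity, ?_⟩
    exact (n1_rigid_mid a.1 b.1 a'.1 b'.1 a.2 a'.2).1
  · intro i
    simp only [n1_rigid_cut]
    exact n1_rigid_lex (h2 i) (h2' i)
  · intro C hC k hk
    simp only [n1_rigid_cut]
    have := h3 C hC k hk
    have := h3' C hC k hk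
    linarith

open Classical in
theorem p_n1_rigid : S_n1_rigid := by
  intro CC q v w lab s h
  let T : (Fin 3 → Fin 3 → ℝ) → Finset (Fin 3 × Fin 3) := fun r =>
    Finset.univ.filter (fun p => p.1 ≠ p.2 ∧ r p.1 p.2 * r p.2 p.1 = 1)
  have hex : ∃ n : ℕ, ∃ r, N1L CC q v w lab r ∧ (T r).card = n := ⟨_, s, h, rfl⟩
  obtain ⟨r, hr, hn⟩ := Nat.find_spec hex
  have hmin : ∀ r', N1L CC q v w lab r' → (T r).card ≤ (T r').card := by
    intro r' hr'
    rw [hn]
    exact Nat.find_min' hex ⟨r', hr', rfl⟩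
  refine ⟨r, hr, ?_⟩
  intro r' hr' i j hij ht
  have hm := n1_rigid_N1L hr hr'
  have hmid := fun (a b : Fin 3) (hab : a ≠ b) =>
    n1_rigid_mid (hr.1 a b hab).1 (hr.1 b a hab.symm).1 (hr'.1 a b hab).1 (hr'.1 b a hab.symm).1
      (hr.1 a b hab).2 (hr'.1 a b hab).2
  have hsub : T (fun i j => (r i j + r' i j) / 2) ⊆ T r := by
    intro p hp
    have hp' := (Finset.mem_filter.mp hp).2
    exact Finset.mem_filter.mpr ⟨Finset.mem_univ _, hp'.1, ((hmid p.1 p.2 hp'.1).2 hp'.2).1⟩
  have heq := Finset.eq_of_subset_of_card_le hsub (hmin _ hm)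
  have hmem : (i, j) ∈ T r := Finset.mem_filter.mpr ⟨Finset.mem_univ _, hij, ht⟩
  rw [← heq] at hmem
  have hp' := (Finset.mem_filter.mp hmem).2
  exact ((hmid i j hij).2 hp'.2).2

end Pool.Agent.MP2a1ef3.N3
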