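import Pool.Agent.Lib.MP_2a1ef3_lc.N3.Stm

set_option autoImplicit false

namespace Pool.Agent.MP2a1ef3.N3

open Filter

private lemma n1_step_erase {i j l : Fin 3} (hij : i ≠ j) (hil : i ≠ l) (hjl : j ≠ l) :
    (Finset.univ : Finset (Fin 3)).erase i = {j, l} := by
  revert i j l; decide

private lemma n1_step_sum {i j l : Fin 3} (hij : i ≠ j) (hil : i ≠ l) (hjl : j ≠ l)
    (f : Fin 3 → ℝ) : ∑ a ∈ (Finset.univ : Finset (Fin 3)).erase i, f a = f j + f l := by
  rw [n1_step_erase hij hil hjl, Finset.sum_pair hjl]

private lemma n1_step_three {i j l : Fin 3} (hij : i ≠ j) (hil : i ≠ l) (hjl : j ≠ l)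
    (a : Fin 3) : a = i ∨ a = j ∨ a = l := by
  revert i j l a; decide

private lemma n1_step_irr {x : ℝ} (hx : Irrational x) {a b : ℚ} (h : (a : ℝ) * x + b = 0) :
    a = 0 ∧ b = 0 := by
  have ha : a = 0 := by
    by_contra ha
    apply hx
    refine ⟨-b / a, ?_⟩
    have ha' : (a : ℝ) ≠ 0 := by exact_mod_cast ha
    push_cast
    rw [div_eq_iff ha']
    linarith
  refine ⟨ha, ?_⟩
  rw [ha] at h
  simpa using h

private lemma n1_step_move (h1 : S_n1_near) {CC : Finset (Finset V)} {q v w : V}
    {lab : Finset V → Fin 3} {s : Fin 3 → Fin 3 → ℝ} (h : Rigid CC q v w lab s)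
    {i j l : Fin 3} (hij : i ≠ j) (hil : i ≠ l) (hjl : j ≠ l) (ht : s i j * s j i = 1)
    (β : ℝ) {η₀ : ℝ} (hη₀ : 0 < η₀)
    (hrel : ∀ (c c' d : ℚ), (c : ℝ) * s i j + c' * s i l + d = 0 → (c : ℝ) + c' * β = 0)
    (hcoup : ∀ η : ℝ, 0 < η → η < η₀ → 1 ≤ (s i l + β * η) * s l i) : False := by
  obtain ⟨δ, hδ, hnear⟩ := h1 h.1
  have hb : 0 < |β| + 1 := by positivity
  obtain ⟨η, hη, hηlt⟩ := exists_between (lt_min hη₀ (div_pos hδ hb))
  have hη1 : η < η₀ := lt_of_lt_of_le hηlt (min_le_left _ _)
  have hη2 : η < δ / (|β| + 1) := lt_of_lt_of_le hηlt (min_le_right _ _)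
  have hη3 : η * (|β| + 1) < δ := (lt_div_iff₀ hb).mp hη2
  have hη4 : |η| < δ := by
    rw [abs_of_pos hη]
    have := mul_nonneg hη.le (abs_nonneg β)
    linarith
  have hη5 : |β * η| < δ := by
    rw [abs_mul, abs_of_pos hη]
    linarith
  set s' : Fin 3 → Fin 3 → ℝ := fun a b =>
    if a = i then (if b = j then s i j + η else if b = l then s i l + β * η else s i b)
    else s a b with hs'
  have sij : s' i j = s i j + η := by simp [hs']
  have sil : s' i l = s i l + β * η := by simp [hs', hjl.symm]
  have soth : ∀ a b, a ≠ i → s' a b = s a b := fun a b ha => by simp [hs', ha]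
  have hN : N1L CC q v w lab s' := by
    apply hnear s'
    · intro a b hab
      rcases n1_step_three hij hil hjl a with rfl | rfl | rfl
      · rcases n1_step_three hij hil hjl b with rfl | rfl | rfl
        · exact absurd rfl hab
        · rw [sij]; simpa using hη4
        · rw [sil]; simpa using hη5
      · rw [soth _ _ hij.symm]; simpa using hδ
      · rw [soth _ _ hil.symm]; simpa using hδ
    · intro a
      by_cases ha : a = i
      · rw [ha]
        intro c d hc
        rw [n1_step_sum hij hil hjl] at hc ⊢
        rw [sij, sil]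
        have := hrel (c j) (c l) d hc
        linear_combination hc + η * this
      · have : s' a = s a := by funext b; exact soth a b ha
        rw [this]
        intro c d hc
        exact hc
    · have hpos := h.1.1
      have hji : 0 < s j i := (hpos j i hij.symm).1
      have hc1 : 1 ≤ (s i j + η) * s j i := by
        have := mul_pos hη hji
        linarith
      have hc2 := hcoup η hη hη1
      intro a b hab
      rcases n1_step_three hij hil hjl a with rfl | rfl | rfl
      · rcases n1_step_three hij hil hjl b with rfl | rfl | rfl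
        · exact absurd rfl hab
        · rw [sij, soth _ _ hij.symm]; exact hc1
        · rw [sil, soth _ _ hil.symm]; exact hc2
      · rcases n1_step_three hij hil hjl b with rfl | rfl | rfl
        · rw [sij, soth _ _ hij.symm, mul_comm]; exact hc1
        · exact absurd rfl hab
        · rw [soth _ _ hij.symm, soth _ _ hil.symm]; exact (hpos _ _ hjl).2
      · rcases n1_step_three hij hil hjl b with rfl | rfl | rfl
        · rw [sil, soth _ _ hil.symm, mul_comm]; exact hc2
        · rw [soth _ _ hij.symm, soth _ _ hil.symm]; exact (hpos _ _ hjl.symm).2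
        · exact absurd rfl hab
  have := h.2 s' hN i j hij ht
  rw [sij] at this
  linarith

theorem p_n1_step (h1 : S_n1_near) : S_n1_step := by
  intro CC q v w lab s h i j l hij hil hjl ht hirr
  have hpos := h.1.1
  have hli : 0 < s l i := (hpos l i hil.symm).1
  by_cases hex : ∃ c c' d : ℚ, c' ≠ 0 ∧ (c : ℝ) * s i j + c' * s i l + d = 0
  · obtain ⟨c, c', d, hc', hc⟩ := hex
    have hc'R : (c' : ℝ) ≠ 0 := by exact_mod_cast hc'
    set A : ℚ := - d / c' with hA
    set B : ℚ := c / c' with hB
    have hs : s i l = A - B * s i j := by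
      rw [hA, hB]; push_cast
      field_simp
      linarith
    have hrel : ∀ (c c' d : ℚ), (c : ℝ) * s i j + c' * s i l + d = 0 →
        (c : ℝ) + c' * (-(B : ℝ)) = 0 := by
      intro e e' f hf
      rw [hs] at hf
      have h3 : ((e - e' * B : ℚ) : ℝ) * s i j + ((e' * A + f : ℚ) : ℝ) = 0 := by
        push_cast; linarith
      have := (n1_step_irr hirr h3).1
      have h4 : ((e - e' * B : ℚ) : ℝ) = 0 := by rw [this]; simp
      push_cast at h4
      linarith
    have hBpos : 0 < B := by
      by_contra hB0
      push Not at hB0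
      have hB0' : (B : ℝ) ≤ 0 := by exact_mod_cast hB0
      refine n1_step_move h1 h hij hil hjl ht (-(B : ℝ)) one_pos hrel ?_
      intro η hη _
      have h5 := (hpos i l hil).2
      have h6 : 0 ≤ (-(B:ℝ)) * η * s l i := by
        apply mul_nonneg _ hli.le
        apply mul_nonneg _ hη.le
        linarith
      linarith
    have hBR : (0:ℝ) < B := by exact_mod_cast hBpos
    refine ⟨?_, A, B, hBpos, hs⟩
    by_contra hnt
    have h5 := (hpos i l hil).2
    have h6 : 1 < s i l * s l i := lt_of_le_of_ne h5 (fun h => hnt h.symm)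
    refine n1_step_move h1 h hij hil hjl ht (-(B : ℝ))
      (η₀ := (s i l * s l i - 1) / (B * s l i)) ?_ hrel ?_
    · apply div_pos (by linarith) (mul_pos hBR hli)
    · intro η hη hη0
      have h7 : η * (B * s l i) < s i l * s l i - 1 := (lt_div_iff₀ (mul_pos hBR hli)).mp hη0
      linarith
  · exfalso
    refine n1_step_move h1 h hij hil hjl ht 0 one_pos ?_ ?_
    · intro c c' d hc
      have hc' : c' = 0 := by
        by_contra hne
        exact hex ⟨c, c', d, hne, hc⟩
      rw [hc'] at hc ⊢
      have h3 : (c : ℝ) * s i j + (d : ℝ) = 0 := by simpa using hc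
      have := (n1_step_irr hirr h3).1
      rw [this]; simp
    · intro η _ _
      have := (hpos i l hil).2
      simpa using this

end Pool.Agent.MP2a1ef3.N3
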