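import Pool.Agent.Lib.MP_2a1ef3_lc.N3.Stm

/-!
# MP_2a1ef3_lc, piece n2_rat: rational solutions of the second and third normal forms
-/

set_option autoImplicit false

namespace Pool.Agent.MP2a1ef3.N3

open Filter

/-- the same sign -/
private def n2_rat_SS (a b : ℝ) : Prop := (0 < a ↔ 0 < b) ∧ (a < 0 ↔ b < 0)

private theorem n2_rat_SS_nonpos {a b : ℝ} (h : n2_rat_SS a b) : a ≤ 0 ↔ b ≤ 0 := by
  rw [← not_lt, ← not_lt, h.1]

private theorem n2_rat_SS_nonneg {a b : ℝ} (h : n2_rat_SS a b) : 0 ≤ a ↔ 0 ≤ b := by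
  rw [← not_lt, ← not_lt, h.2]

private theorem n2_rat_SS_zero {a b : ℝ} (h : n2_rat_SS a b) : a = 0 ↔ b = 0 := by
  rw [le_antisymm_iff, le_antisymm_iff, n2_rat_SS_nonpos h, n2_rat_SS_nonneg h]

private theorem n2_rat_SS_neg {a b : ℝ} (h : n2_rat_SS a b) : n2_rat_SS (-a) (-b) := by
  unfold n2_rat_SS
  rw [neg_pos, neg_pos, neg_lt_zero, neg_lt_zero]
  exact ⟨h.2, h.1⟩

private theorem n2_rat_lex {a b c a' b' c' : ℝ} (ha : n2_rat_SS a a') (hb : n2_rat_SS b b')
    (hc : n2_rat_SS c c') (h : lexpos a b c) : lexpos a' b' c' := by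
  unfold lexpos at h ⊢
  rw [← ha.1, ← hb.1, ← hc.1, ← n2_rat_SS_zero ha, ← n2_rat_SS_zero hb]
  exact h

private theorem n2_rat_near {a b : ℝ} (h : |a - b| < |a|) : n2_rat_SS a b := by
  unfold n2_rat_SS
  rcases lt_trichotomy a 0 with h0 | h0 | h0
  · rw [abs_of_neg h0, abs_lt] at h
    constructor
    · constructor
      · intro h1; linarith
      · intro h1; linarith [h.2]
    · constructor
      · intro _; linarith [h.1]
      · intro _; exact h0
  · rw [h0, abs_zero] at h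
    exact absurd h (not_lt.mpr (abs_nonneg _))
  · rw [abs_of_pos h0, abs_lt] at h
    constructor
    · constructor
      · intro _; linarith [h.2]
      · intro _; exact h0
    · constructor
      · intro h1; linarith
      · intro h1; linarith [h.1]

/-- the value of an affine function -/
private noncomputable def n2_rat_val {ι : Type} [Fintype ι] (x : ι → ℝ) (p : (ι → ℚ) × ℚ) : ℝ :=
  (∑ i, (p.1 i : ℝ) * x i) + p.2

private theorem n2_rat_eps {ι : Type} [Fintype ι] (x : ι → ℝ) (F : Finset ((ι → ℚ) × ℚ)) :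
    ∃ ε : ℝ, 0 < ε ∧ ∀ p ∈ F, n2_rat_val x p ≠ 0 →
      ε * (∑ i, |(p.1 i : ℝ)|) < |n2_rat_val x p| := by
  classical
  induction F using Finset.induction_on with
  | empty => exact ⟨1, one_pos, fun p hp => absurd hp (Finset.notMem_empty p)⟩
  | insert a F _ ih =>
    obtain ⟨ε, hε, h⟩ := ih
    by_cases h0 : n2_rat_val x a = 0
    · refine ⟨ε, hε, ?_⟩
      intro p hp hne
      rcases Finset.mem_insert.mp hp with rfl | hp
      · exact absurd h0 hne
      · exact h p hp hne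
    · have hS : 0 ≤ ∑ i, |(a.1 i : ℝ)| := Finset.sum_nonneg (fun _ _ => abs_nonneg _)
      have hv : 0 < |n2_rat_val x a| := abs_pos.mpr h0
      refine ⟨min ε (|n2_rat_val x a| / (∑ i, |(a.1 i : ℝ)| + 1)), lt_min hε (by positivity), ?_⟩
      intro p hp hne
      rcases Finset.mem_insert.mp hp with rfl | hp
      · have h1 : min ε (|n2_rat_val x p| / (∑ i, |(p.1 i : ℝ)| + 1)) * (∑ i, |(p.1 i : ℝ)|) ≤
            |n2_rat_val x p| / (∑ i, |(p.1 i : ℝ)| + 1) * (∑ i, |(p.1 i : ℝ)|) :=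
          mul_le_mul_of_nonneg_right (min_le_right _ _) hS
        refine lt_of_le_of_lt h1 ?_
        rw [div_mul_eq_mul_div, div_lt_iff₀ (by positivity)]
        nlinarith
      · have hS' : 0 ≤ ∑ i, |(p.1 i : ℝ)| := Finset.sum_nonneg (fun _ _ => abs_nonneg _)
        exact lt_of_le_of_lt (mul_le_mul_of_nonneg_right (min_le_left _ _) hS') (h p hp hne)

private theorem n2_rat_key (h1 : S_dl) {ι : Type} [Fintype ι] (x : ι → ℝ)
    (F : Finset ((ι → ℚ) × ℚ)) :
    ∃ y : ι → ℚ, ∀ p ∈ F, n2_rat_SS (n2_rat_val x p) (n2_rat_val (fun i => (y i : ℝ)) p) := by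
  obtain ⟨ε, hε, hF⟩ := n2_rat_eps x F
  obtain ⟨y, hy1, hy2⟩ := h1 x hε
  refine ⟨y, ?_⟩
  intro p hp
  by_cases h0 : n2_rat_val x p = 0
  · have h2 := hy2 p.1 p.2 h0
    have h3 : n2_rat_val (fun i => (y i : ℝ)) p = 0 := by
      unfold n2_rat_val
      have := congrArg (fun t : ℚ => (t : ℝ)) h2
      push_cast at this
      exact this
    rw [h0, h3]
    exact ⟨Iff.rfl, Iff.rfl⟩
  · apply n2_rat_near
    refine lt_of_le_of_lt ?_ (hF p hp h0)
    have e : n2_rat_val x p - n2_rat_val (fun i => (y i : ℝ)) p = ∑ i, (p.1 i : ℝ) * (x i - y i) := by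
      unfold n2_rat_val
      simp only [mul_sub, Finset.sum_sub_distrib]
      ring
    rw [e, Finset.mul_sum]
    refine (Finset.abs_sum_le_sum_abs _ _).trans ?_
    apply Finset.sum_le_sum
    intro i _
    rw [abs_mul, mul_comm]
    exact mul_le_mul_of_nonneg_right (hy1 i).le (abs_nonneg _)

private theorem n2_rat_cut (i : Fin 3) (s : R3) (u : V) :
    cut i s (rv u) = (∑ j, (((if j = i then (0 : ℚ) else (u j : ℚ)) : ℚ) : ℝ) * s j) + ((-(u i : ℚ) : ℚ) : ℝ) := by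
  unfold cut rv
  have e : ∑ j ∈ Finset.univ.erase i, s j * (u j : ℝ) =
      ∑ j, (((if j = i then (0 : ℚ) else (u j : ℚ)) : ℚ) : ℝ) * s j := by
    rw [← Finset.sum_erase (Finset.univ) (a := i)]
    · apply Finset.sum_congr rfl
      intro j hj
      rw [if_neg (Finset.ne_of_mem_erase hj)]
      push_cast
      ring
    · rw [if_pos rfl]
      push_cast
      ring
  rw [e]
  push_cast
  ring

private theorem n2_rat_main (h1 : S_dl) (i : Fin 3) (s' s : R3) (FV : Finset V) :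
    ∃ t' t : Fin 3 → ℚ, (∀ j, n2_rat_SS (s' j) (t' j)) ∧ (∀ j, n2_rat_SS (s j) (t j)) ∧
      (∀ j, n2_rat_SS (s j - s' j) ((t j : ℝ) - t' j)) ∧
      (∀ u ∈ FV, n2_rat_SS (cut i s' (rv u)) (cut i (fun j => (t' j : ℝ)) (rv u))) ∧
      ∀ u ∈ FV, n2_rat_SS (cut i s (rv u)) (cut i (fun j => (t j : ℝ)) (rv u)) := by
  classical
  let x : Fin 3 ⊕ Fin 3 → ℝ := Sum.elim s' s
  let P1 : Fin 3 → ((Fin 3 ⊕ Fin 3) → ℚ) × ℚ := fun j => (Sum.elim (fun k => if k = j then 1 else 0) (fun _ => 0), 0)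
  let P2 : Fin 3 → ((Fin 3 ⊕ Fin 3) → ℚ) × ℚ := fun j => (Sum.elim (fun _ => 0) (fun k => if k = j then 1 else 0), 0)
  let P3 : Fin 3 → ((Fin 3 ⊕ Fin 3) → ℚ) × ℚ := fun j =>
    (Sum.elim (fun k => if k = j then -1 else 0) (fun k => if k = j then 1 else 0), 0)
  let P4 : V → ((Fin 3 ⊕ Fin 3) → ℚ) × ℚ := fun u =>
    (Sum.elim (fun j => if j = i then (0 : ℚ) else (u j : ℚ)) (fun _ => 0), -(u i : ℚ))
  let P5 : V → ((Fin 3 ⊕ Fin 3) → ℚ) × ℚ := fun u =>
    (Sum.elim (fun _ => 0) (fun j => if j = i then (0 : ℚ) else (u j : ℚ)), -(u i : ℚ))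
  obtain ⟨y, hy⟩ := n2_rat_key h1 x (Finset.univ.image P1 ∪ Finset.univ.image P2 ∪ Finset.univ.image P3 ∪
    FV.image P4 ∪ FV.image P5)
  have v1 : ∀ (z' z : Fin 3 → ℝ) j, n2_rat_val (Sum.elim z' z) (P1 j) = z' j := by
    intro z' z j
    simp only [n2_rat_val, P1, Fintype.sum_sum_type, Sum.elim_inl, Sum.elim_inr]
    fin_cases j <;> simp [Fin.sum_univ_three]
  have v2 : ∀ (z' z : Fin 3 → ℝ) j, n2_rat_val (Sum.elim z' z) (P2 j) = z j := by
    intro z' z j
    simp only [n2_rat_val, P2, Fintype.sum_sum_type, Sum.elim_inl, Sum.elim_inr]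
    fin_cases j <;> simp [Fin.sum_univ_three]
  have v3 : ∀ (z' z : Fin 3 → ℝ) j, n2_rat_val (Sum.elim z' z) (P3 j) = z j - z' j := by
    intro z' z j
    simp only [n2_rat_val, P3, Fintype.sum_sum_type, Sum.elim_inl, Sum.elim_inr]
    fin_cases j <;> simp [Fin.sum_univ_three] <;> ring
  have v4 : ∀ (z' z : Fin 3 → ℝ) u, n2_rat_val (Sum.elim z' z) (P4 u) = cut i z' (rv u) := by
    intro z' z u
    rw [n2_rat_cut]
    simp only [n2_rat_val, P4, Fintype.sum_sum_type, Sum.elim_inl, Sum.elim_inr]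
    simp
  have v5 : ∀ (z' z : Fin 3 → ℝ) u, n2_rat_val (Sum.elim z' z) (P5 u) = cut i z (rv u) := by
    intro z' z u
    rw [n2_rat_cut]
    simp only [n2_rat_val, P5, Fintype.sum_sum_type, Sum.elim_inl, Sum.elim_inr]
    simp
  have hye : (fun k => ((y k : ℚ) : ℝ)) = Sum.elim (fun j => ((y (Sum.inl j) : ℚ) : ℝ))
      (fun j => ((y (Sum.inr j) : ℚ) : ℝ)) := by
    funext k
    rcases k with k | k
    · rfl
    · rfl
  rw [hye] at hy
  refine ⟨fun j => y (Sum.inl j), fun j => y (Sum.inr j), ?_, ?_, ?_, ?_, ?_⟩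
  · intro j
    have := hy (P1 j) (by simp [P1])
    rw [v1, v1] at this
    exact this
  · intro j
    have := hy (P2 j) (by simp [P2])
    rw [v2, v2] at this
    exact this
  · intro j
    have := hy (P3 j) (by simp [P3])
    rw [v3, v3] at this
    exact this
  · intro u hu
    have := hy (P4 u) (Finset.mem_union_left _ (Finset.mem_union_right _ (Finset.mem_image_of_mem _ hu)))
    rw [v4, v4] at this
    exact this
  · intro u hu
    have := hy (P5 u) (Finset.mem_union_right _ (Finset.mem_image_of_mem _ hu))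
    rw [v5, v5] at this
    exact this

theorem p_n2_rat (h1 : S_dl) : S_n2_rat := by
  classical
  intro CC q v w i
  let FV : Finset V := insert q (insert v (insert w (CC.biUnion id)))
  have hq : q ∈ FV := Finset.mem_insert_self _ _
  have hv : v ∈ FV := Finset.mem_insert_of_mem (Finset.mem_insert_self _ _)
  have hw : w ∈ FV := Finset.mem_insert_of_mem (Finset.mem_insert_of_mem (Finset.mem_insert_self _ _))
  have hC : ∀ C ∈ CC, ∀ k ∈ C, k ∈ FV := by
    intro C hC k hk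
    exact Finset.mem_insert_of_mem (Finset.mem_insert_of_mem (Finset.mem_insert_of_mem
      (Finset.mem_biUnion.mpr ⟨C, hC, hk⟩)))
  refine ⟨?_, ?_, ?_⟩
  · rintro ⟨s', s, a1, a2, a3, a4⟩
    obtain ⟨t', t, b1, b2, b3, b4, b5⟩ := n2_rat_main h1 i s' s FV
    refine ⟨t', t, ?_, ?_, ?_, ?_⟩
    · intro j hj
      obtain ⟨c1, c2⟩ := a1 j hj
      refine ⟨(n2_rat_SS_nonneg (b1 j)).mp c1, ?_⟩
      have := (n2_rat_SS_nonneg (b3 j)).mp (sub_nonneg.mpr c2)
      exact sub_nonneg.mp this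
    · exact n2_rat_lex (n2_rat_SS_neg (b4 q hq)) (n2_rat_SS_neg (b4 v hv)) (n2_rat_SS_neg (b4 w hw)) a2
    · exact n2_rat_lex (b5 q hq) (b5 v hv) (b5 w hw) a3
    · intro C hCC
      rcases a4 C hCC with c | c
      · exact Or.inl (fun k hk => (n2_rat_SS_nonneg (b4 k (hC C hCC k hk))).mp (c k hk))
      · exact Or.inr (fun k hk => (n2_rat_SS_nonpos (b5 k (hC C hCC k hk))).mp (c k hk))
  · rintro ⟨s, a1, a2, a3⟩
    obtain ⟨t', t, b1, b2, b3, b4, b5⟩ := n2_rat_main h1 i s s FV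
    refine ⟨t, ?_, ?_, ?_⟩
    · intro j hj
      exact (n2_rat_SS_nonneg (b2 j)).mp (a1 j hj)
    · exact n2_rat_lex (n2_rat_SS_neg (b5 q hq)) (n2_rat_SS_neg (b5 v hv)) (n2_rat_SS_neg (b5 w hw)) a2
    · intro C hCC k hk
      exact (n2_rat_SS_nonneg (b5 k (hC C hCC k hk))).mp (a3 C hCC k hk)
  · rintro ⟨s, a1, a2, a3, a4, a5⟩
    obtain ⟨t', t, b1, b2, b3, b4, b5⟩ := n2_rat_main h1 i s s FV
    refine ⟨t, ?_, ?_, ?_, ?_, ?_⟩
    · intro j hj
      exact (n2_rat_SS_nonneg (b2 j)).mp (a1 j hj)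
    · exact (n2_rat_SS_zero (b5 q hq)).mp a2
    · exact (n2_rat_SS_zero (b5 v hv)).mp a3
    · exact (n2_rat_SS_zero (b5 w hw)).mp a4
    · intro C hCC
      rcases a5 C hCC with ⟨c, k, hk, hk'⟩ | ⟨c, k, hk, hk'⟩
      · exact Or.inl ⟨fun k hk => (n2_rat_SS_nonneg (b5 k (hC C hCC k hk))).mp (c k hk), k, hk,
          (b5 k (hC C hCC k hk)).1.mp hk'⟩
      · exact Or.inr ⟨fun k hk => (n2_rat_SS_nonpos (b5 k (hC C hCC k hk))).mp (c k hk), k, hk,
          (b5 k (hC C hCC k hk)).2.mp hk'⟩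

end Pool.Agent.MP2a1ef3.N3
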