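import Pool.Agent.Lib.MP_2a1ef3_lc.N3.Stm

set_option autoImplicit false

namespace Pool.Agent.MP2a1ef3.N3

open Filter

/-- A rational linear functional that is positive at finitely many positive reals. -/
private theorem ocone_meet_phi (S : Finset ℝ) (hS : ∀ s ∈ S, 0 < s) :
    ∃ φ : ℝ →ₗ[ℚ] ℚ, ∀ s ∈ S, 0 < φ s := by
  classical
  let W : Submodule ℚ ℝ := Submodule.span ℚ (S : Set ℝ)
  have : FiniteDimensional ℚ W := FiniteDimensional.span_finset ℚ S
  let b := Module.finBasis ℚ W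
  have hmem : ∀ s : S, (s : ℝ) ∈ W := fun s => Submodule.subset_span s.2
  -- the evaluation at real vectors
  let F : S → (Fin (Module.finrank ℚ W) → ℝ) → ℝ := fun s r =>
    ∑ i, ((b.repr ⟨s, hmem s⟩ i : ℚ) : ℝ) * r i
  have hF : ∀ s, Continuous (F s) := fun s =>
    continuous_finsetSum _ fun i _ => continuous_const.mul (continuous_apply i)
  have hopen : IsOpen {r | ∀ s : S, 0 < F s r} := by
    have : {r | ∀ s : S, 0 < F s r} = ⋂ s : S, {r | 0 < F s r} := by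
      ext r; simp
    rw [this]
    exact isOpen_iInter_of_finite fun s => isOpen_lt continuous_const (hF s)
  have hne : ({r | ∀ s : S, 0 < F s r}).Nonempty := by
    refine ⟨fun i => ((b i : W) : ℝ), fun s => ?_⟩
    have h1 : F s (fun i => ((b i : W) : ℝ)) = (s : ℝ) := by
      have h2 := b.sum_repr ⟨s, hmem s⟩
      have h3 := congrArg (fun x : W => (x : ℝ)) h2
      simp only [Submodule.coe_sum, Submodule.coe_smul] at h3
      rw [← h3]
      refine Finset.sum_congr rfl fun i _ => ?_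
      rw [Rat.smul_def]
    rw [h1]
    exact hS s s.2
  have hdense : DenseRange (Pi.map (fun (_ : Fin (Module.finrank ℚ W)) (q : ℚ) => (q : ℝ))) :=
    DenseRange.piMap fun _ => Rat.denseRange_cast
  obtain ⟨r, hr⟩ := hdense.exists_mem_open hopen hne
  obtain ⟨φ, hφ⟩ := LinearMap.exists_extend (b.constr ℚ r : W →ₗ[ℚ] ℚ)
  refine ⟨φ, fun s hs => ?_⟩
  have h1 : φ s = ∑ i, b.repr ⟨s, hmem ⟨s, hs⟩⟩ i * r i := by
    have h2 := LinearMap.congr_fun hφ ⟨s, hmem ⟨s, hs⟩⟩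
    rw [LinearMap.comp_apply, Submodule.subtype_apply, Module.Basis.constr_apply_fintype] at h2
    rw [h2]
    simp only [Module.Basis.equivFun_apply, smul_eq_mul]
  have h3 := hr ⟨s, hs⟩
  have h4 : ((φ s : ℚ) : ℝ) = F ⟨s, hs⟩ (Pi.map (fun _ (q : ℚ) => (q : ℝ)) r) := by
    rw [h1]
    simp only [F, Pi.map_apply]
    push_cast
    rfl
  rw [← h4] at h3
  exact_mod_cast h3

private theorem ocone_meet_den (P : Finset V) (f : V → ℚ) :
    ∃ D : ℕ, 0 < D ∧ ∀ p ∈ P, ∃ z : ℤ, (z : ℚ) = D * f p := by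
  refine ⟨∏ p ∈ P, (f p).den, Finset.prod_pos fun p _ => (f p).pos, fun p hp => ?_⟩
  obtain ⟨m, hm⟩ : (f p).den ∣ ∏ p ∈ P, (f p).den := Finset.dvd_prod_of_mem _ hp
  refine ⟨m * (f p).num, ?_⟩
  rw [hm]
  push_cast
  have := Rat.mul_den_eq_num (f p)
  rw [← this]; ring

private theorem ocone_meet_nat {P : Finset V} {f : V → ℚ} {D E : ℕ} (hD : 0 < D) (hE : 0 < E)
    (h : ∀ p ∈ P, ∃ z : ℤ, (z : ℚ) = D * f p) (hf : ∀ p ∈ P, 0 < f p) :
    ∃ m : V → ℕ, (∀ p ∈ P, 0 < m p) ∧ ∀ p ∈ P, (m p : ℚ) = D * E * f p := by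
  classical
  have h' : ∀ p, ∃ m : ℕ, p ∈ P → 0 < m ∧ (m : ℚ) = D * E * f p := by
    intro p
    by_cases hp : p ∈ P
    · obtain ⟨z, hz⟩ := h p hp
      have hzpos : 0 < z := by
        have : (0 : ℚ) < z := by
          rw [hz]
          exact mul_pos (by exact_mod_cast hD) (hf p hp)
        exact_mod_cast this
      refine ⟨E * z.toNat, fun _ => ⟨Nat.mul_pos hE (by omega), ?_⟩⟩
      have h1 : ((z.toNat : ℕ) : ℚ) = (z : ℚ) := by
        have : ((z.toNat : ℕ) : ℤ) = z := Int.toNat_of_nonneg hzpos.le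
        exact_mod_cast this
      push_cast
      rw [h1, hz]; ring
    · exact ⟨0, fun hp' => absurd hp' hp⟩
  choose m hm using h'
  exact ⟨m, fun p hp => (hm p hp).1, fun p hp => (hm p hp).2⟩

theorem p_ocone_meet : S_ocone_meet := by
  classical
  intro P C h
  rw [Set.not_disjoint_iff] at h
  obtain ⟨x, ⟨l, hl, hx⟩, ⟨l', hl', hx'⟩⟩ := h
  obtain ⟨φ, hφ⟩ := ocone_meet_phi (P.image l ∪ C.image l') (by
    intro s hs
    rw [Finset.mem_union, Finset.mem_image, Finset.mem_image] at hs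
    rcases hs with ⟨p, hp, rfl⟩ | ⟨p, hp, rfl⟩
    · exact hl p hp
    · exact hl' p hp)
  have hφP : ∀ p ∈ P, 0 < φ (l p) := fun p hp =>
    hφ _ (Finset.mem_union_left _ (Finset.mem_image_of_mem _ hp))
  have hφC : ∀ p ∈ C, 0 < φ (l' p) := fun p hp =>
    hφ _ (Finset.mem_union_right _ (Finset.mem_image_of_mem _ hp))
  have key : ∀ (Q : Finset V) (g : V → ℝ) (j : Fin 3),
      φ ((∑ p ∈ Q, g p • rv p) j) = ∑ p ∈ Q, φ (g p) * (p j : ℚ) := by
    intro Q g j
    rw [Finset.sum_apply, map_sum]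
    refine Finset.sum_congr rfl fun p _ => ?_
    have h3 : (g p • rv p) j = ((p j : ℚ)) • g p := by
      simp [rv, mul_comm, Rat.smul_def]
    rw [h3, map_smul, smul_eq_mul, mul_comm]
  have hrel : ∀ j, ∑ p ∈ P, φ (l p) * (p j : ℚ) = ∑ p ∈ C, φ (l' p) * (p j : ℚ) := by
    intro j
    rw [← key, ← key, ← hx, ← hx']
  obtain ⟨D, hD, hDP⟩ := ocone_meet_den P (fun p => φ (l p))
  obtain ⟨E, hE, hEC⟩ := ocone_meet_den C (fun p => φ (l' p))
  obtain ⟨m, hm1, hm2⟩ := ocone_meet_nat hD hE hDP hφP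
  obtain ⟨n, hn1, hn2⟩ := ocone_meet_nat hE hD hEC hφC
  refine ⟨m, n, hm1, hn1, ?_⟩
  funext j
  rw [Finset.sum_apply, Finset.sum_apply]
  have h1 : ((∑ p ∈ P, (m p • p) j : ℕ) : ℚ) = ((∑ k ∈ C, (n k • k) j : ℕ) : ℚ) := by
    push_cast
    have e1 : ∀ p ∈ P, (((m p • p) j : ℕ) : ℚ) = (D * E) * (φ (l p) * (p j : ℚ)) := by
      intro p hp
      simp only [Pi.smul_apply, smul_eq_mul]
      push_cast
      rw [hm2 p hp]; ring
    have e2 : ∀ p ∈ C, (((n p • p) j : ℕ) : ℚ) = (D * E) * (φ (l' p) * (p j : ℚ)) := by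
      intro p hp
      simp only [Pi.smul_apply, smul_eq_mul]
      push_cast
      rw [hn2 p hp]; ring
    rw [Finset.sum_congr rfl e1, Finset.sum_congr rfl e2, ← Finset.mul_sum, ← Finset.mul_sum,
      hrel j]
  exact_mod_cast h1

end Pool.Agent.MP2a1ef3.N3
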