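import Pool.Agent.Lib.MP_2a1ef3_lc.N3.Stm

set_option autoImplicit false

namespace Pool.Agent.MP2a1ef3.N3

open Filter

private theorem piece_shape_dt {P : Finset V} (hI : Ind P) {a b c : V} (ha : a ∈ P) (hb : b ∈ P)
    (hc : c ∈ P) (hab : a ≠ b) (hac : a ≠ c) (hbc : b ≠ c) : dt (rv a) (rv b) (rv c) ≠ 0 := by
  let f : Fin 3 → P := ![⟨a, ha⟩, ⟨b, hb⟩, ⟨c, hc⟩]
  have hf : Function.Injective f := by
    intro i j hij
    have hab' : (⟨a, ha⟩ : P) ≠ ⟨b, hb⟩ := fun h => hab (congrArg Subtype.val h)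
    have hac' : (⟨a, ha⟩ : P) ≠ ⟨c, hc⟩ := fun h => hac (congrArg Subtype.val h)
    have hbc' : (⟨b, hb⟩ : P) ≠ ⟨c, hc⟩ := fun h => hbc (congrArg Subtype.val h)
    fin_cases i <;> fin_cases j
    · rfl
    · exact absurd hij hab'
    · exact absurd hij hac'
    · exact absurd hij.symm hab'
    · rfl
    · exact absurd hij hbc'
    · exact absurd hij.symm hac'
    · exact absurd hij.symm hbc'
    · rfl
  have h1 : LinearIndependent ℝ ((fun p : P => rv p.1) ∘ f) := hI.comp f hf
  have h2 : LinearIndependent ℝ (Matrix.of ![rv a, rv b, rv c]).row := by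
    have h3 : (Matrix.of ![rv a, rv b, rv c]).row = ((fun p : P => rv p.1) ∘ f) := by
      funext i
      fin_cases i <;> rfl
    rw [h3]
    exact h1
  rw [Matrix.linearIndependent_rows_iff_isUnit, Matrix.isUnit_iff_isUnit_det] at h2
  have h4 : (Matrix.of ![rv a, rv b, rv c]).det = dt (rv a) (rv b) (rv c) := by
    rw [Matrix.det_fin_three]
    simp only [dt, Matrix.of_apply, Matrix.cons_val_zero, Matrix.cons_val_one, Matrix.cons_val]
    ring
  rw [← h4]
  exact h2.ne_zero

theorem p_piece_shape : S_piece_shape := by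
  intro P hB hI x hx hxP
  have hcard : P.card ≤ 3 := by
    have h1 := hI.fintype_card_le_finrank
    rw [Fintype.card_coe] at h1
    simpa using h1
  obtain ⟨l, hl, hxl⟩ := hxP
  have hzero : ∀ j, (∀ p ∈ P, p j = 0) → False := by
    intro j hj
    have h1 := hx j
    rw [hxl, Finset.sum_apply] at h1
    rw [Finset.sum_eq_zero] at h1
    · exact lt_irrefl _ h1
    · intro p hp
      show l p * (p j : ℝ) = 0
      rw [hj p hp, Nat.cast_zero, mul_zero]
  interval_cases hc : P.card
  · rw [Finset.card_eq_zero] at hc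
    subst hc
    exact (hzero 0 (by simp)).elim
  · obtain ⟨a, rfl⟩ := Finset.card_eq_one.1 hc
    obtain ⟨j, hj⟩ := hB a (by simp)
    exact (hzero j (by simpa using hj)).elim
  · obtain ⟨a, b, hab, rfl⟩ := Finset.card_eq_two.1 hc
    refine Or.inr ⟨a, b, hab, rfl, ?_⟩
    intro j hj
    apply hzero j
    intro p hp
    rw [Finset.mem_insert, Finset.mem_singleton] at hp
    rcases hp with rfl | rfl
    · exact hj.1
    · exact hj.2
  · obtain ⟨a, b, c, hab, hac, hbc, rfl⟩ := Finset.card_eq_three.1 hc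
    left
    have h0 : dt (rv a) (rv b) (rv c) ≠ 0 :=
      piece_shape_dt hI (by simp) (by simp) (by simp) hab hac hbc
    rcases lt_or_gt_of_ne h0 with h1 | h1
    · refine ⟨b, a, c, Finset.insert_comm a b {c}, ?_⟩
      have h2 : dt (rv b) (rv a) (rv c) = - dt (rv a) (rv b) (rv c) := by
        unfold dt
        ring
      rw [h2]
      linarith
    · exact ⟨a, b, c, rfl, h1⟩

end Pool.Agent.MP2a1ef3.N3
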