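import Pool.Agent.Lib.MP_2a1ef3_lc.N3.Stm

/-!
# MP_2a1ef3_lc, dimension three: pinned lines at points with the same signs
(piece `pin_of_sameSign`)
-/

set_option autoImplicit false

namespace Pool.Agent.MP2a1ef3.N3

open Filter

private theorem pin_of_sameSign_pos {x y : ℝ} (h : SignType.sign x = SignType.sign y)
    (hx : 0 < x) : 0 < y := by
  rw [← sign_eq_one_iff] at hx ⊢
  rw [← h]
  exact hx

private theorem pin_of_sameSign_neg {x y : ℝ} (h : SignType.sign x = SignType.sign y)
    (hx : x < 0) : y < 0 := by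
  rw [← sign_eq_neg_one_iff] at hx ⊢
  rw [← h]
  exact hx

private theorem pin_of_sameSign_ne {x y : ℝ} (h : SignType.sign x = SignType.sign y)
    (hx : x ≠ 0) : y ≠ 0 := by
  intro hy
  apply hx
  rw [← sign_eq_zero_iff] at hy ⊢
  rw [h]
  exact hy

private theorem pin_of_sameSign_coord {CC : Finset (Finset V)} {z p : R3}
    (hs : SameSign CC z p) (j : Fin 3) :
    SignType.sign (z j) = SignType.sign (p j) := by
  have hev : ∀ i, ev i ∈ VV CC := by
    intro i
    unfold VV
    rw [Finset.mem_union]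
    right
    fin_cases i <;> simp
  have h0 : ∀ x : R3, dt (rv (ev 1)) (rv (ev 2)) x = x 0 := by
    intro x
    unfold dt rv ev
    simp
  have h1 : ∀ x : R3, dt (rv (ev 2)) (rv (ev 0)) x = x 1 := by
    intro x
    unfold dt rv ev
    simp
  have h2 : ∀ x : R3, dt (rv (ev 0)) (rv (ev 1)) x = x 2 := by
    intro x
    unfold dt rv ev
    simp
  fin_cases j
  · have h := hs _ (hev 1) _ (hev 2)
    rw [h0, h0] at h
    exact h
  · have h := hs _ (hev 2) _ (hev 0)
    rw [h1, h1] at h
    exact h
  · have h := hs _ (hev 0) _ (hev 1)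
    rw [h2, h2] at h
    exact h

private theorem pin_of_sameSign_dt (a z k : R3) : dt a z k = - dt a k z := by
  unfold dt
  ring

theorem p_pin_of_sameSign : S_pin_of_sameSign := by
  intro CC z p hs h
  obtain ⟨a, ha, ha0, hBd, hz, hC⟩ := h
  have hVk : ∀ k ∈ Vk CC, k ∈ VV CC := fun k hk => Finset.mem_union_left _ hk
  have hkC : ∀ C ∈ CC, ∀ k ∈ C, k ∈ VV CC := fun C hC k hk =>
    hVk k (Finset.mem_biUnion.2 ⟨C, hC, hk⟩)
  refine ⟨a, ha, ha0, hBd, fun j hj => pin_of_sameSign_ne (pin_of_sameSign_coord hs j) (hz j hj),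
    fun C hCC => ?_⟩
  rcases hC C hCC with h1 | h1
  · left
    intro k hk
    rcases h1 k hk with h2 | h2
    · exact Or.inl h2
    · right
      rw [pin_of_sameSign_dt] at h2 ⊢
      have h3 : dt (rv a) (rv k) z < 0 := by linarith
      have h4 := pin_of_sameSign_neg (hs a (hVk a ha) k (hkC C hCC k hk)) h3
      linarith
  · right
    intro k hk
    rcases h1 k hk with h2 | h2
    · exact Or.inl h2
    · right
      rw [pin_of_sameSign_dt] at h2 ⊢
      have h3 : 0 < dt (rv a) (rv k) z := by linarith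
      have h4 := pin_of_sameSign_pos (hs a (hVk a ha) k (hkC C hCC k hk)) h3
      linarith

end Pool.Agent.MP2a1ef3.N3
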