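import Pool.Agent.Lib.MP_2a1ef3_lc.N3.Stm

set_option autoImplicit false

namespace Pool.Agent.MP2a1ef3.N3

open Filter

theorem p_primrec_labs : S_primrec_labs := by
  intro r t
  have h : (labs (r := r) (t := t)) = fun L : List (List (Fin r × V)) =>
      L.foldr (fun C s => (List.finRange t).flatMap
        (fun a => s.map (fun K => C.map (fun e => (a, e)) ++ K))) [[]] := by
    funext L
    induction L with
    | nil => rfl
    | cons C L ih =>
      rw [List.foldr_cons, ← ih]
      rfl
  rw [h]
  refine Primrec.list_foldr (h := fun (_ : List (List (Fin r × V)))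
    (x : List (Fin r × V) × List (List (Fin t × Fin r × V))) => (List.finRange t).flatMap
      (fun a => x.2.map (fun K => x.1.map (fun e => (a, e)) ++ K))) Primrec.id
    (Primrec.const _) ?_
  refine Primrec.list_flatMap (Primrec.const _) ?_
  refine Primrec.list_map (Primrec.snd.comp (Primrec.snd.comp Primrec.fst)) ?_
  refine Primrec.list_append.comp ?_ Primrec.snd
  refine Primrec.list_map
    (Primrec.fst.comp (Primrec.snd.comp (Primrec.fst.comp Primrec.fst))) ?_
  exact Primrec.pair (Primrec.snd.comp (Primrec.fst.comp Primrec.fst)) Primrec.snd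

end Pool.Agent.MP2a1ef3.N3
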