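import Pool.Agent.Lib.MP_2a1ef3_lc.N3.Stm

set_option autoImplicit false

namespace Pool.Agent.MP2a1ef3.N3

open Filter

private theorem ray_case_par {a b : R3} (h : Par a b) (ha : a ≠ 0) : ∃ c : ℝ, b = c • a := by
  have h0 := h ![1, 0, 0]
  have h1 := h ![0, 1, 0]
  have h2 := h ![0, 0, 1]
  simp only [dt, Matrix.cons_val_zero, Matrix.cons_val_one, Matrix.cons_val] at h0 h1 h2
  have hn : a 0 ≠ 0 ∨ a 1 ≠ 0 ∨ a 2 ≠ 0 := by
    by_contra hc
    push Not at hc
    apply ha
    funext j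
    fin_cases j
    · exact hc.1
    · exact hc.2.1
    · exact hc.2.2
  rcases hn with hn | hn | hn
  · refine ⟨b 0 / a 0, ?_⟩
    funext j
    rw [Pi.smul_apply, smul_eq_mul, div_mul_eq_mul_div, eq_div_iff hn]
    fin_cases j
    · simp only [Fin.zero_eta]
    · change b 1 * a 0 = b 0 * a 1
      linarith
    · change b 2 * a 0 = b 0 * a 2
      linarith
  · refine ⟨b 1 / a 1, ?_⟩
    funext j
    rw [Pi.smul_apply, smul_eq_mul, div_mul_eq_mul_div, eq_div_iff hn]
    fin_cases j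
    · change b 0 * a 1 = b 1 * a 0
      linarith
    · rfl
    · change b 2 * a 1 = b 1 * a 2
      linarith
  · refine ⟨b 2 / a 2, ?_⟩
    funext j
    rw [Pi.smul_apply, smul_eq_mul, div_mul_eq_mul_div, eq_div_iff hn]
    fin_cases j
    · change b 0 * a 2 = b 2 * a 0
      linarith
    · change b 1 * a 2 = b 2 * a 1
      linarith
    · rfl

private theorem ray_case_smul {P : Finset V} {x : R3} (hx : x ∈ ocone P) {c : ℝ} (hc : 0 < c) :
    c • x ∈ ocone P := by
  obtain ⟨l, hl, rfl⟩ := hx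
  refine ⟨fun p => c * l p, fun p hp => mul_pos hc (hl p hp), ?_⟩
  rw [Finset.smul_sum]
  refine Finset.sum_congr rfl fun p _ => ?_
  rw [smul_smul]

private theorem ray_case_germ (x : V) (N : ℕ) :
    rv (germ x 0 0 N) = ((N : ℝ) ^ 2) • rv x := by
  funext j
  simp [rv, germ]

theorem p_ray_case (_h1 : S_exists_generic) : S_ray_case := by
  intro CC F hF hB H h
  obtain ⟨x₀, hx0, hP⟩ := h
  have hB' : ∀ᶠ x in (F : Filter V), ∀ C ∈ CC, rv x ∉ ocone C := by
    rw [Filter.eventually_all_finset]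
    exact hB
  obtain ⟨x₁, ⟨hpos, hbl⟩, hpar⟩ := ((hF.and hB').and hP).exists
  have hr0 : rv x₀ ≠ 0 := by
    intro h
    apply hx0
    funext j
    have := congrFun h j
    simpa [rv] using this
  obtain ⟨P, hPiece, hcov⟩ := H x₁ 0 0 (fun j => by simpa using hpos j) (fun C hC => by
    filter_upwards [eventually_ge_atTop 1] with N hN hmem
    apply hbl C hC
    rw [ray_case_germ] at hmem
    have hN' : (0 : ℝ) < (N : ℝ) ^ 2 := by positivity
    have := ray_case_smul hmem (inv_pos.2 hN')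
    rwa [smul_smul, inv_mul_cancel₀ hN'.ne', one_smul] at this)
  obtain ⟨N, hN1, hN2⟩ := (hcov.and (eventually_ge_atTop 1)).exists
  have hN' : (0 : ℝ) < (N : ℝ) ^ 2 := by positivity
  have hx1 : rv x₁ ∈ ocone P := by
    rw [ray_case_germ] at hN1
    have := ray_case_smul hN1 (inv_pos.2 hN')
    rwa [smul_smul, inv_mul_cancel₀ hN'.ne', one_smul] at this
  refine ⟨P, hPiece, ?_⟩
  obtain ⟨c₁, hc1⟩ := ray_case_par hpar hr0
  have hp1 : 0 < rv x₁ 0 := by
    have := hpos 0
    simpa [rv] using this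
  filter_upwards [hF, hP] with x hx hxP
  obtain ⟨c, hc⟩ := ray_case_par hxP hr0
  have hpx : 0 < rv x 0 := by
    have := hx 0
    simpa [rv] using this
  have e1 : rv x₁ 0 = c₁ * rv x₀ 0 := by rw [hc1]; rfl
  have e2 : rv x 0 = c * rv x₀ 0 := by rw [hc]; rfl
  have h0 : 0 ≤ rv x₀ 0 := by simp [rv]
  have hc1p : 0 < c₁ := by
    by_contra hcon
    push Not at hcon
    have := mul_nonpos_of_nonpos_of_nonneg hcon h0
    linarith
  have hcp : 0 < c := by
    by_contra hcon
    push Not at hcon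
    have := mul_nonpos_of_nonpos_of_nonneg hcon h0
    linarith
  have : rv x = (c * c₁⁻¹) • rv x₁ := by
    rw [hc1, smul_smul, mul_assoc, inv_mul_cancel₀ hc1p.ne', mul_one, ← hc]
  rw [this]
  exact ray_case_smul hx1 (mul_pos hcp (inv_pos.2 hc1p))

end Pool.Agent.MP2a1ef3.N3
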