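import Pool.Agent.Lib.MP_2a1ef3_lc.N3.Stm

/-!
# MP_2a1ef3_lc, dimension three, piece rcov_chord: chords in normal form
-/

set_option autoImplicit false

namespace Pool.Agent.MP2a1ef3.N3

open Filter

private theorem rcov_chord_third : ∀ i l : Fin 3, i ≠ l → ∃ j : Fin 3, j ≠ i ∧ j ≠ l ∧
    Finset.univ.erase j = {i, l} ∧ ∀ t : Fin 3, t = i ∨ t = l ∨ t = j := by decide

/-- a linear functional which does not have one of the two sign patterns has a zero on the cone -/
private theorem rcov_chord_zero {C : Finset V} (φ : R3 →ₗ[ℝ] ℝ)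
    (h : ¬ (((∀ k ∈ C, 0 ≤ φ (rv k)) ∧ ∃ k ∈ C, 0 < φ (rv k)) ∨
      ((∀ k ∈ C, φ (rv k) ≤ 0) ∧ ∃ k ∈ C, φ (rv k) < 0))) :
    ∃ x ∈ ocone C, φ x = 0 := by
  classical
  set S : ℝ := ∑ k ∈ C, φ (rv k) with hS
  have hkey : ∀ k₀ ∈ C, ∀ t : ℝ, 0 ≤ t → S + t * φ (rv k₀) = 0 → ∃ x ∈ ocone C, φ x = 0 := by
    intro k₀ hk₀ t ht h0
    refine ⟨∑ p ∈ C, (1 + if p = k₀ then t else 0) • rv p, ⟨_, ?_, rfl⟩, ?_⟩
    · intro p _
      split_ifs
      · linarith
      · norm_num
    · rw [map_sum]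
      simp only [map_smul, smul_eq_mul, add_mul, one_mul, Finset.sum_add_distrib, ite_mul,
        zero_mul, Finset.sum_ite_eq', if_pos hk₀]
      exact h0
  by_cases h1 : ∃ k ∈ C, 0 < φ (rv k)
  · obtain ⟨k₁, hk₁, hp₁⟩ := h1
    have h2 : ∃ k ∈ C, φ (rv k) < 0 := by
      by_contra hcon
      push Not at hcon
      exact h (Or.inl ⟨hcon, k₁, hk₁, hp₁⟩)
    obtain ⟨k₂, hk₂, hp₂⟩ := h2
    rcases le_total S 0 with hS0 | hS0
    · refine hkey k₁ hk₁ (-S / φ (rv k₁)) (div_nonneg (neg_nonneg.2 hS0) hp₁.le) ?_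
      field_simp
      ring
    · refine hkey k₂ hk₂ (S / -φ (rv k₂)) (div_nonneg hS0 (neg_pos.2 hp₂).le) ?_
      have : φ (rv k₂) ≠ 0 := hp₂.ne
      field_simp
      ring
  · push Not at h1
    by_cases h2 : ∃ k ∈ C, φ (rv k) < 0
    · exact absurd (Or.inr ⟨h1, h2⟩) h
    · push Not at h2
      refine ⟨∑ p ∈ C, (1 : ℝ) • rv p, ⟨fun _ => 1, fun _ _ => one_pos, rfl⟩, ?_⟩
      rw [map_sum]
      refine Finset.sum_eq_zero fun k hk => ?_
      rw [one_smul]
      exact le_antisymm (h1 k hk) (h2 k hk)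

theorem p_rcov_chord (h1 : S_germ_span) : S_rcov_chord := by
  classical
  intro CC hG q v w a b hab hP h0 hy
  obtain ⟨hbd, -, hdis⟩ := hP
  obtain ⟨l, hal⟩ := hbd a (Finset.mem_insert_self _ _)
  obtain ⟨i, hbi⟩ := hbd b (Finset.mem_insert_of_mem (Finset.mem_singleton_self _))
  have hil : i ≠ l := by
    rintro rfl
    exact h0 i ⟨hal, hbi⟩
  have hai : (0 : ℝ) < a i := by
    have : a i ≠ 0 := fun h => h0 i ⟨h, hbi⟩
    exact_mod_cast Nat.pos_of_ne_zero this
  have hbl : (0 : ℝ) < b l := by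
    have : b l ≠ 0 := fun h => h0 l ⟨hal, h⟩
    exact_mod_cast Nat.pos_of_ne_zero this
  obtain ⟨j, hji, hjl, herase, hall⟩ := rcov_chord_third i l hil
  set s : R3 := fun t => if t = i then (a j : ℝ) / a i else (b j : ℝ) / b l with hs
  have hsi : s i = (a j : ℝ) / a i := by rw [hs]; exact if_pos rfl
  have hsl : s l = (b j : ℝ) / b l := by rw [hs]; exact if_neg hil.symm
  have hcut : ∀ x : R3, cut j s x = s i * x i + s l * x l - x j := by
    intro x
    unfold cut
    rw [herase, Finset.sum_pair hil]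
  let φ : R3 →ₗ[ℝ] ℝ :=
    { toFun := fun x => s i * x i + s l * x l - x j
      map_add' := by
        intro x y
        simp only [Pi.add_apply]
        ring
      map_smul' := by
        intro c x
        simp only [Pi.smul_apply, smul_eq_mul, RingHom.id_apply]
        ring }
  have hφ : ∀ x : R3, φ x = cut j s x := fun x => (hcut x).symm
  have hφa : φ (rv a) = 0 := by
    change s i * (a i : ℝ) + s l * (a l : ℝ) - (a j : ℝ) = 0
    rw [hsi, hal]
    field_simp
    simp
  have hφb : φ (rv b) = 0 := by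
    change s i * (b i : ℝ) + s l * (b l : ℝ) - (b j : ℝ) = 0
    rw [hsl, hbi]
    field_simp
    simp
  have hspan := h1 (W := LinearMap.ker φ) (q := q) (v := v) (w := w) (by
    refine hy.frequently.mono fun N hN => ?_
    obtain ⟨c, -, hc⟩ := hN
    rw [LinearMap.mem_ker, hc, map_sum]
    refine Finset.sum_eq_zero fun p hp => ?_
    rw [map_smul]
    rcases Finset.mem_insert.1 hp with rfl | hp
    · rw [hφa, smul_zero]
    · rw [Finset.mem_singleton.1 hp, hφb, smul_zero])
  simp only [LinearMap.mem_ker, hφ] at hspan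
  refine ⟨j, s, ?_, hspan.1, hspan.2.1, hspan.2.2, ?_⟩
  · intro t _
    rw [hs]
    dsimp only
    split_ifs <;> positivity
  · intro C hC
    by_contra hcon
    have hcon' : ¬ (((∀ k ∈ C, 0 ≤ φ (rv k)) ∧ ∃ k ∈ C, 0 < φ (rv k)) ∨
        ((∀ k ∈ C, φ (rv k) ≤ 0) ∧ ∃ k ∈ C, φ (rv k) < 0)) := by
      simp only [hφ]
      exact hcon
    obtain ⟨x, hx, hx0⟩ := rcov_chord_zero φ hcon'
    have hpos : ∀ t, 0 < x t := by
      intro t
      obtain ⟨c, hc, rfl⟩ := hx
      obtain ⟨k, hk, hkt⟩ := hG C hC t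
      rw [Finset.sum_apply]
      refine Finset.sum_pos' (fun p hp => ?_) ⟨k, hk, ?_⟩
      · exact mul_nonneg (hc p hp).le (Nat.cast_nonneg _)
      · exact mul_pos (hc k hk) (Nat.cast_pos.2 hkt)
    have hxj : s i * x i + s l * x l - x j = 0 := hx0
    rw [hsi, hsl] at hxj
    refine (Set.disjoint_left.1 (hdis C hC) : ∀ ⦃y⦄, y ∈ ocone {a, b} → y ∉ ocone C) (?_ : x ∈ _) hx
    refine ⟨fun p => if p = a then x i / a i else x l / b l, ?_, ?_⟩
    · intro p _
      dsimp only
      split_ifs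
      · exact div_pos (hpos i) hai
      · exact div_pos (hpos l) hbl
    · rw [Finset.sum_pair hab]
      dsimp only
      rw [if_pos rfl, if_neg hab.symm]
      funext t
      simp only [Pi.add_apply, Pi.smul_apply, smul_eq_mul, rv]
      rcases hall t with rfl | rfl | rfl
      · rw [hbi]
        field_simp
        simp
      · rw [hal]
        field_simp
        simp
      · have : x t = (a t : ℝ) / a i * x i + (b t : ℝ) / b l * x l := by linarith
        rw [this]
        ring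

end Pool.Agent.MP2a1ef3.N3
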