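import Pool.Agent.Lib.MP_2a1ef3_lc.N3.Stm

set_option autoImplicit false

namespace Pool.Agent.MP2a1ef3.N3

open Filter

private theorem rcov_face_univ {i j l : Fin 3} (hij : i ≠ j) (hil : i ≠ l) (hjl : j ≠ l) :
    (Finset.univ : Finset (Fin 3)) = {i, j, l} ∧
      (Finset.univ : Finset (Fin 3)).erase j = {i, l} ∧
      ∀ t : Fin 3, t ≠ j → t = i ∨ t = l := by
  revert i j l; decide

private theorem rcov_face_dp {i j l : Fin 3} (hij : i ≠ j) (hil : i ≠ l) (hjl : j ≠ l)
    (f x : R3) : dp f x = f i * x i + f j * x j + f l * x l := by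
  have h1 : dp f x = ∑ t : Fin 3, f t * x t := by
    rw [Fin.sum_univ_three]
    rfl
  rw [h1, (rcov_face_univ hij hil hjl).1, Finset.sum_insert (by simp [hij, hil]),
    Finset.sum_insert (by simp [hjl]), Finset.sum_singleton]
  ring

private theorem rcov_face_cut {i j l : Fin 3} (hij : i ≠ j) (hil : i ≠ l) (hjl : j ≠ l)
    (s x : R3) : cut j s x = s i * x i + s l * x l - x j := by
  unfold cut
  rw [(rcov_face_univ hij hil hjl).2.1, Finset.sum_insert (by simp [hil]), Finset.sum_singleton]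

private theorem rcov_face_lin (f x y z : R3) (α β γ : ℝ) :
    dp f (α • x + β • y + γ • z) = α * dp f x + β * dp f y + γ * dp f z := by
  unfold dp
  simp only [Pi.add_apply, Pi.smul_apply, smul_eq_mul]
  ring

private theorem rcov_face_core (h2 : S_germ_lex) {CC : Finset (Finset V)} (hG : Good CC)
    {q v w a b c : V} {i j l : Fin 3} (hij : i ≠ j) (hil : i ≠ l) (hjl : j ≠ l)
    (hal : a l = 0) (hbl : b l = 0) (hcl : 0 < c l) (hci : c i = 0) (hab : a j * b i < b j * a i)
    (hK : ∀ C ∈ CC, ∀ fa fb fc : R3, 0 < dp fa (rv a) → dp fa (rv b) = 0 → dp fa (rv c) = 0 →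
      0 < dp fb (rv b) → dp fb (rv a) = 0 → dp fb (rv c) = 0 → 0 < dp fc (rv c) →
      dp fc (rv a) = 0 → dp fc (rv b) = 0 → (∀ k ∈ C, dp fa (rv k) ≤ 0) ∨
        (∀ k ∈ C, dp fb (rv k) ≤ 0) ∨ (∀ k ∈ C, dp fc (rv k) ≤ 0))
    (hy : ∀ᶠ N : ℕ in atTop, ∃ α β γ : ℝ, 0 < α ∧ 0 < β ∧ 0 < γ ∧
      rv (germ q v w N) = α • rv a + β • rv b + γ • rv c) : RCov CC q v w := by
  have ha1 : rv a l = 0 := by show ((a l : ℕ) : ℝ) = 0; rw [hal, Nat.cast_zero]
  have hb1 : rv b l = 0 := by show ((b l : ℕ) : ℝ) = 0; rw [hbl, Nat.cast_zero]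
  have hc1 : 0 < rv c l := Nat.cast_pos.2 hcl
  have hc2 : rv c i = 0 := by show ((c i : ℕ) : ℝ) = 0; rw [hci, Nat.cast_zero]
  have hab' : rv a j * rv b i < rv b j * rv a i := by
    show ((a j : ℕ) : ℝ) * ((b i : ℕ) : ℝ) < ((b j : ℕ) : ℝ) * ((a i : ℕ) : ℝ)
    exact_mod_cast hab
  have haj : 0 ≤ rv a j := Nat.cast_nonneg _
  have hbj : 0 ≤ rv b j := Nat.cast_nonneg _
  have hcj : 0 ≤ rv c j := Nat.cast_nonneg _
  have hai : 0 < rv a i := by
    have h3 : 0 < a i := by
      rcases Nat.eq_zero_or_pos (a i) with h4 | h4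
      · rw [h4] at hab
        simp at hab
      · exact h4
    exact Nat.cast_pos.2 h3
  have hbi0 : 0 ≤ rv b i := Nat.cast_nonneg _
  -- the functional of the edge `c a`
  obtain ⟨fb, hfb⟩ : ∃ f : R3, ∀ x, dp f x =
      x j - (rv a j / rv a i) * x i - (rv c j / rv c l) * x l := by
    refine ⟨fun t => if t = i then -(rv a j / rv a i) else if t = j then 1 else
      -(rv c j / rv c l), ?_⟩
    intro x
    rw [rcov_face_dp hij hil hjl]
    simp only [if_true, if_neg hij.symm, if_neg hil.symm, if_neg hjl.symm]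
    ring
  have fb1 : 0 < dp fb (rv b) := by
    rw [hfb, hb1, mul_zero, sub_zero]
    have h3 : rv b j - rv a j / rv a i * rv b i =
        (rv b j * rv a i - rv a j * rv b i) / rv a i := by
      field_simp
    rw [h3]
    exact div_pos (by linarith) hai
  have fb2 : dp fb (rv a) = 0 := by
    rw [hfb, ha1, div_mul_cancel₀ _ hai.ne']
    ring
  have fb3 : dp fb (rv c) = 0 := by
    rw [hfb, hc2, div_mul_cancel₀ _ hc1.ne']
    ring
  -- the functional of the edge `a b`
  obtain ⟨fc, hfc⟩ : ∃ f : R3, ∀ x, dp f x = x l := by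
    refine ⟨fun t => if t = l then 1 else 0, ?_⟩
    intro x
    rw [rcov_face_dp hij hil hjl]
    simp only [if_true, if_neg hil, if_neg hjl]
    ring
  have hCl : ∀ C ∈ CC, ¬ ∀ k ∈ C, dp fc (rv k) ≤ 0 := by
    intro C hC h3
    obtain ⟨k, hk, hkl⟩ := hG C hC l
    have h4 := h3 k hk
    rw [hfc] at h4
    exact absurd (Nat.cast_pos.2 hkl : (0 : ℝ) < ((k l : ℕ) : ℝ)) (not_lt.2 h4)
  have lexb : lexpos (dp fb (rv q)) (dp fb (rv v)) (dp fb (rv w)) := by
    apply h2.2
    apply Eventually.frequently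
    filter_upwards [hy] with N hN
    obtain ⟨α, β, γ, _, hβ, _, hN⟩ := hN
    rw [hN, rcov_face_lin, fb2, fb3]
    have := mul_pos hβ fb1
    linarith
  rcases hbi0.eq_or_lt with hbi | hbi
  · -- the second normal form without near cut
    obtain ⟨fa, hfa⟩ : ∃ f : R3, ∀ x, dp f x = x i := by
      refine ⟨fun t => if t = i then 1 else 0, ?_⟩
      intro x
      rw [rcov_face_dp hij hil hjl]
      simp only [if_true, if_neg hij.symm, if_neg hil.symm]
      ring
    have hCi : ∀ C ∈ CC, ¬ ∀ k ∈ C, dp fa (rv k) ≤ 0 := by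
      intro C hC h3
      obtain ⟨k, hk, hkl⟩ := hG C hC i
      have h4 := h3 k hk
      rw [hfa] at h4
      exact absurd (Nat.cast_pos.2 hkl : (0 : ℝ) < ((k i : ℕ) : ℝ)) (not_lt.2 h4)
    have hcut : ∀ x : R3, cut j (fun t => if t = i then rv a j / rv a i else rv c j / rv c l) x =
        -dp fb x := by
      intro x
      rw [rcov_face_cut hij hil hjl, hfb]
      simp only [if_true, if_neg hil.symm]
      ring
    refine Or.inr ⟨j, Or.inr (Or.inl ⟨fun t => if t = i then rv a j / rv a i else rv c j / rv c l,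
      ?_, ?_, ?_⟩)⟩
    · intro t _
      show 0 ≤ (if t = i then rv a j / rv a i else rv c j / rv c l)
      split_ifs
      · exact div_nonneg haj hai.le
      · exact div_nonneg hcj hc1.le
    · rw [hcut, hcut, hcut, neg_neg, neg_neg, neg_neg]
      exact lexb
    · intro C hC k hk
      rw [hcut]
      rcases hK C hC fa fb fc (by rw [hfa]; exact hai) (by rw [hfa]; exact hbi.symm)
        (by rw [hfa]; exact hc2) fb1 fb2 fb3 (by rw [hfc]; exact hc1) (by rw [hfc]; exact ha1)
        (by rw [hfc]; exact hb1) with h3 | h3 | h3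
      · exact absurd h3 (hCi C hC)
      · have := h3 k hk
        linarith
      · exact absurd h3 (hCl C hC)
  · -- the second normal form
    obtain ⟨fa, hfa⟩ : ∃ f : R3, ∀ x, dp f x =
        (rv b j / rv b i) * x i + (rv c j / rv c l) * x l - x j := by
      refine ⟨fun t => if t = i then (rv b j / rv b i) else if t = j then -1 else
        (rv c j / rv c l), ?_⟩
      intro x
      rw [rcov_face_dp hij hil hjl]
      simp only [if_true, if_neg hij.symm, if_neg hil.symm, if_neg hjl.symm]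
      ring
    have fa1 : 0 < dp fa (rv a) := by
      rw [hfa, ha1, mul_zero, add_zero]
      have h3 : rv b j / rv b i * rv a i - rv a j =
          (rv b j * rv a i - rv a j * rv b i) / rv b i := by
        field_simp
      rw [h3]
      exact div_pos (by linarith) hbi
    have fa2 : dp fa (rv b) = 0 := by
      rw [hfa, hb1, div_mul_cancel₀ _ hbi.ne']
      ring
    have fa3 : dp fa (rv c) = 0 := by
      rw [hfa, hc2, div_mul_cancel₀ _ hc1.ne']
      ring
    have lexa : lexpos (dp fa (rv q)) (dp fa (rv v)) (dp fa (rv w)) := by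
      apply h2.2
      apply Eventually.frequently
      filter_upwards [hy] with N hN
      obtain ⟨α, β, γ, hα, _, _, hN⟩ := hN
      rw [hN, rcov_face_lin, fa2, fa3]
      have := mul_pos hα fa1
      linarith
    have hcut : ∀ x : R3, cut j (fun t => if t = i then rv a j / rv a i else rv c j / rv c l) x =
        -dp fb x := by
      intro x
      rw [rcov_face_cut hij hil hjl, hfb]
      simp only [if_true, if_neg hil.symm]
      ring
    have hcut' : ∀ x : R3, cut j (fun t => if t = i then rv b j / rv b i else rv c j / rv c l) x =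
        dp fa x := by
      intro x
      rw [rcov_face_cut hij hil hjl, hfa]
      simp only [if_true, if_neg hil.symm]
    refine Or.inr ⟨j, Or.inl ⟨fun t => if t = i then rv a j / rv a i else rv c j / rv c l,
      fun t => if t = i then rv b j / rv b i else rv c j / rv c l, ?_, ?_, ?_, ?_⟩⟩
    · intro t _
      show 0 ≤ (if t = i then rv a j / rv a i else rv c j / rv c l) ∧
        (if t = i then rv a j / rv a i else rv c j / rv c l) ≤
          (if t = i then rv b j / rv b i else rv c j / rv c l)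
      split_ifs
      · refine ⟨div_nonneg haj hai.le, ?_⟩
        rw [div_le_div_iff₀ hai hbi]
        exact hab'.le
      · exact ⟨div_nonneg hcj hc1.le, le_refl _⟩
    · rw [hcut, hcut, hcut, neg_neg, neg_neg, neg_neg]
      exact lexb
    · rw [hcut', hcut', hcut']
      exact lexa
    · intro C hC
      rcases hK C hC fa fb fc fa1 fa2 fa3 fb1 fb2 fb3 (by rw [hfc]; exact hc1)
        (by rw [hfc]; exact ha1) (by rw [hfc]; exact hb1) with h3 | h3 | h3
      · right
        intro k hk
        rw [hcut']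
        exact h3 k hk
      · left
        intro k hk
        rw [hcut]
        have := h3 k hk
        linarith
      · exact absurd h3 (hCl C hC)

private theorem rcov_face_cramer (f a b c x : R3) : dt a b c * dp f x =
    dt b c x * dp f a + dt c a x * dp f b + dt a b x * dp f c := by
  unfold dt dp
  ring

private theorem rcov_face_dt (a b x : R3) (i : Fin 3) :
    dt a b x = (a i * b (i + 1) - a (i + 1) * b i) * x (i + 2) +
      (a (i + 1) * b (i + 2) - a (i + 2) * b (i + 1)) * x i +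
      (a (i + 2) * b i - a i * b (i + 2)) * x (i + 1) := by
  fin_cases i
  · show _ = (a 0 * b 1 - a 1 * b 0) * x 2 + (a 1 * b 2 - a 2 * b 1) * x 0 +
      (a 2 * b 0 - a 0 * b 2) * x 1
    unfold dt
    ring
  · show _ = (a 1 * b 2 - a 2 * b 1) * x 0 + (a 2 * b 0 - a 0 * b 2) * x 1 +
      (a 0 * b 1 - a 1 * b 0) * x 2
    unfold dt
    ring
  · show _ = (a 2 * b 0 - a 0 * b 2) * x 1 + (a 0 * b 1 - a 1 * b 0) * x 2 +
      (a 1 * b 2 - a 2 * b 1) * x 0
    unfold dt
    ring

private theorem rcov_face_ne (l : Fin 3) : l + 1 ≠ l ∧ l + 2 ≠ l ∧ l + 1 ≠ l + 2 ∧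
    ∀ t : Fin 3, t = l ∨ t = l + 1 ∨ t = l + 2 := by
  revert l; decide

theorem p_rcov_face (h1 : S_beyond_edge) (h2 : S_germ_lex) (h3 : S_mem_ocone_tri)
    (h4 : S_edge_T) : S_rcov_face := by
  classical
  intro CC hG q v w a b c hP h hy l hal hbl
  obtain ⟨n1, n2, n3, ncases⟩ := rcov_face_ne l
  obtain ⟨hB, hInd, hCC⟩ := hP
  have hBa := hB a (by simp)
  have hBb := hB b (by simp)
  have hBc := hB c (by simp)
  have hab : a ≠ b := by
    rintro rfl
    unfold dt at h
    linarith
  have hac : a ≠ c := by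
    rintro rfl
    unfold dt at h
    linarith
  have hbc : b ≠ c := by
    rintro rfl
    unfold dt at h
    linarith
  -- the minor
  have hdt : dt (rv a) (rv b) (rv c) =
      (rv a (l + 1) * rv b (l + 2) - rv a (l + 2) * rv b (l + 1)) * rv c l := by
    rw [rcov_face_dt _ _ _ l]
    have e1 : rv a l = 0 := by show ((a l : ℕ) : ℝ) = 0; rw [hal, Nat.cast_zero]
    have e2 : rv b l = 0 := by show ((b l : ℕ) : ℝ) = 0; rw [hbl, Nat.cast_zero]
    rw [e1, e2]
    ring
  have hcl0 : 0 ≤ rv c l := Nat.cast_nonneg _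
  rw [hdt] at h
  have hcl : 0 < rv c l := by
    rcases hcl0.eq_or_lt with h5 | h5
    · rw [← h5, mul_zero] at h
      exact absurd h (lt_irrefl _)
    · exact h5
  have hmin : 0 < rv a (l + 1) * rv b (l + 2) - rv a (l + 2) * rv b (l + 1) := by
    by_contra h5
    exact absurd (mul_nonpos_of_nonpos_of_nonneg (not_lt.1 h5) hcl0) (not_le.2 h)
  have hclN : 0 < c l := by
    have : (0 : ℝ) < ((c l : ℕ) : ℝ) := hcl
    exact_mod_cast this
  have hminN : a (l + 2) * b (l + 1) < a (l + 1) * b (l + 2) := by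
    have h5 : rv a (l + 2) * rv b (l + 1) < rv a (l + 1) * rv b (l + 2) := by linarith
    have h6 : ((a (l + 2) : ℕ) : ℝ) * ((b (l + 1) : ℕ) : ℝ) <
        ((a (l + 1) : ℕ) : ℝ) * ((b (l + 2) : ℕ) : ℝ) := h5
    exact_mod_cast h6
  rw [← hdt] at h
  -- beyond the edges
  have hK : ∀ C ∈ CC, ∀ fa fb fc : R3, 0 < dp fa (rv a) → dp fa (rv b) = 0 →
      dp fa (rv c) = 0 → 0 < dp fb (rv b) → dp fb (rv a) = 0 → dp fb (rv c) = 0 →
      0 < dp fc (rv c) → dp fc (rv a) = 0 → dp fc (rv b) = 0 → (∀ k ∈ C, dp fa (rv k) ≤ 0) ∨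
        (∀ k ∈ C, dp fb (rv k) ≤ 0) ∨ (∀ k ∈ C, dp fc (rv k) ≤ 0) := by
    intro C hC fa fb fc a1 a2 a3 b1 b2 b3 c1 c2 c3
    have hkey : ∀ (f : R3) (x : R3) (u y : ℝ), 0 < u → y ≤ 0 →
        dt (rv a) (rv b) (rv c) * dp f x = y * u → dp f x ≤ 0 := by
      intro f x u y hu hy2 he
      by_contra h5
      have h6 := mul_pos h (not_le.1 h5)
      have h7 := mul_nonpos_of_nonpos_of_nonneg hy2 hu.le
      linarith
    rcases h1 hBa hBb hBc h (hG C hC) (hCC C hC) with h5 | h5 | h5
    · right; right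
      intro k hk
      apply hkey fc (rv k) _ _ c1 (h5 k hk)
      rw [rcov_face_cramer, c2, c3]
      ring
    · left
      intro k hk
      apply hkey fa (rv k) _ _ a1 (h5 k hk)
      rw [rcov_face_cramer, a2, a3]
      ring
    · right; left
      intro k hk
      apply hkey fb (rv k) _ _ b1 (h5 k hk)
      rw [rcov_face_cramer, b2, b3]
      ring
  have hy' : ∀ᶠ N : ℕ in atTop, ∃ α β γ : ℝ, 0 < α ∧ 0 < β ∧ 0 < γ ∧
      rv (germ q v w N) = α • rv a + β • rv b + γ • rv c := by
    filter_upwards [hy] with N hN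
    obtain ⟨m, hm, hN⟩ := hN
    refine ⟨m a, m b, m c, hm a (by simp), hm b (by simp), hm c (by simp), ?_⟩
    rw [hN, Finset.sum_insert (by simp [hab, hac]), Finset.sum_insert (by simp [hbc]),
      Finset.sum_singleton, add_assoc]
  obtain ⟨t, ht⟩ := hBc
  rcases ncases t with rfl | rfl | rfl
  · omega
  · exact rcov_face_core h2 hG (i := l + 1) (j := l + 2) (l := l) n3 n1 n2 hal hbl hclN ht
      (by rw [mul_comm (b (l + 2))]; exact hminN) hK hy'
  · refine rcov_face_core h2 hG (a := b) (b := a) (i := l + 2) (j := l + 1) (l := l) n3.symm n2 n1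
      hbl hal hclN ht ?_ ?_ ?_
    · rw [mul_comm (b (l + 1))]
      exact hminN
    · intro C hC fa fb fc a1 a2 a3 b1 b2 b3 c1 c2 c3
      rcases hK C hC fb fa fc b1 b2 b3 a1 a2 a3 c1 c3 c2 with h5 | h5 | h5
      · exact Or.inr (Or.inl h5)
      · exact Or.inl h5
      · exact Or.inr (Or.inr h5)
    · filter_upwards [hy'] with N hN
      obtain ⟨α, β, γ, hα, hβ, hγ, hN⟩ := hN
      refine ⟨β, α, γ, hβ, hα, hγ, ?_⟩
      rw [hN, add_comm (α • rv a)]

end Pool.Agent.MP2a1ef3.N3
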