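import Pool.Agent.Lib.MP_2a1ef3_lc.N3.Stm

set_option autoImplicit false

namespace Pool.Agent.MP2a1ef3.N3

open Filter

private lemma rcov_hex_three {i j l : Fin 3} (hij : i ≠ j) (hil : i ≠ l) (hjl : j ≠ l)
    (a : Fin 3) : a = i ∨ a = j ∨ a = l := by
  revert i j l a; decide

private lemma rcov_hex_cut0 (s x : R3) : cut 0 s x = s 1 * x 1 + s 2 * x 2 - x 0 := by
  have : (Finset.univ : Finset (Fin 3)).erase 0 = {1, 2} := by decide
  rw [cut, this, Finset.sum_pair (by decide)]

private lemma rcov_hex_cut1 (s x : R3) : cut 1 s x = s 0 * x 0 + s 2 * x 2 - x 1 := by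
  have : (Finset.univ : Finset (Fin 3)).erase 1 = {0, 2} := by decide
  rw [cut, this, Finset.sum_pair (by decide)]

private lemma rcov_hex_cut2 (s x : R3) : cut 2 s x = s 0 * x 0 + s 1 * x 1 - x 2 := by
  have : (Finset.univ : Finset (Fin 3)).erase 2 = {0, 1} := by decide
  rw [cut, this, Finset.sum_pair (by decide)]

private lemma rcov_hex_cut_dp (i : Fin 3) (s x : R3) :
    cut i s x = dp (fun j => if j = i then -1 else s j) x := by
  fin_cases i
  · simp only [Fin.zero_eta, rcov_hex_cut0, dp]; simp; ring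
  · simp only [Fin.mk_one, rcov_hex_cut1, dp]; simp; ring
  · simp only [Fin.reduceFinMk, rcov_hex_cut2, dp]; simp; ring

private lemma rcov_hex_dp (f a b c x : R3) (ha : dp f a = 0) (hb : dp f b = 0) :
    dt a b c * dp f x = dp f c * dt a b x := by
  have : dt a b c * dp f x = dp f c * dt a b x + dp f a * dt b c x + dp f b * dt c a x := by
    simp only [dt, dp]; ring
  rw [this, ha, hb]; ring

theorem p_rcov_hex (h1 : S_beyond_edge) (h2 : S_germ_lex) (h3 : S_mem_ocone_tri) :
    S_rcov_hex := by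
  classical
  intro CC hG q v w a b c hP h hy hab hbc hca
  have hBa : Bd a := hP.1 a (by simp)
  have hBb : Bd b := hP.1 b (by simp)
  have hBc : Bd c := hP.1 c (by simp)
  obtain ⟨ja, hja⟩ := hBa
  obtain ⟨jb, hjb⟩ := hBb
  obtain ⟨jc, hjc⟩ := hBc
  have nab : ja ≠ jb := by rintro rfl; exact hab _ ⟨hja, hjb⟩
  have nbc : jb ≠ jc := by rintro rfl; exact hbc _ ⟨hjb, hjc⟩
  have nac : ja ≠ jc := by rintro rfl; exact hca _ ⟨hjc, hja⟩
  set z : Fin 3 → V := fun i => if i = ja then a else if i = jb then b else c with hz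
  have za : z ja = a := by simp [hz]
  have zb : z jb = b := by simp [hz, nab.symm]
  have zc : z jc = c := by simp [hz, nac.symm, nbc.symm]
  have z0 : ∀ i, (z i i : ℝ) = 0 := by
    intro i
    rcases rcov_hex_three nab nac nbc i with rfl | rfl | rfl
    · rw [za, hja]; simp
    · rw [zb, hjb]; simp
    · rw [zc, hjc]; simp
  have zp : ∀ i j, i ≠ j → (0:ℝ) < (z i j : ℝ) := by
    intro i j hij
    have : z i j ≠ 0 := by
      intro h0
      rcases rcov_hex_three nab nac nbc i with rfl | rfl | rfl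
      · rw [za] at h0
        rcases rcov_hex_three nab nac nbc j with rfl | rfl | rfl
        · exact hij rfl
        · exact hab _ ⟨h0, hjb⟩
        · exact hca _ ⟨hjc, h0⟩
      · rw [zb] at h0
        rcases rcov_hex_three nab nac nbc j with rfl | rfl | rfl
        · exact hab _ ⟨hja, h0⟩
        · exact hij rfl
        · exact hbc _ ⟨h0, hjc⟩
      · rw [zc] at h0
        rcases rcov_hex_three nab nac nbc j with rfl | rfl | rfl
        · exact hca _ ⟨h0, hja⟩
        · exact hbc _ ⟨hjb, h0⟩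
        · exact hij rfl
    exact_mod_cast Nat.pos_of_ne_zero this
  set s : Fin 3 → Fin 3 → ℝ := fun i j => (z (-(i + j)) i : ℝ) / (z (-(i + j)) j : ℝ) with hs
  have hthird : ∀ i j : Fin 3, i ≠ j → -(i + j) ≠ i ∧ -(i + j) ≠ j := by decide
  -- values of the cuts at the vertices
  have z01 := zp 0 1 (by decide)
  have z02 := zp 0 2 (by decide)
  have z10 := zp 1 0 (by decide)
  have z12 := zp 1 2 (by decide)
  have z20 := zp 2 0 (by decide)
  have z21 := zp 2 1 (by decide)
  have s01 : s 0 1 = (z 2 0 : ℝ) / (z 2 1 : ℝ) := rfl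
  have s10 : s 1 0 = (z 2 1 : ℝ) / (z 2 0 : ℝ) := rfl
  have s02 : s 0 2 = (z 1 0 : ℝ) / (z 1 2 : ℝ) := rfl
  have s20 : s 2 0 = (z 1 2 : ℝ) / (z 1 0 : ℝ) := rfl
  have s12 : s 1 2 = (z 0 1 : ℝ) / (z 0 2 : ℝ) := rfl
  have s21 : s 2 1 = (z 0 2 : ℝ) / (z 0 1 : ℝ) := rfl
  have z00 := z0 0
  have z11 := z0 1
  have z22 := z0 2
  have hvan : ∀ i j, i ≠ j → cut i (s i) (rv (z j)) = 0 := by
    intro i j hij
    fin_cases i
    · simp only [Fin.zero_eta, rcov_hex_cut0, rv]
      rw [s01, s02]
      fin_cases j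
      · exact absurd rfl hij
      · simp only [Fin.mk_one, z11]; field_simp; ring
      · simp only [Fin.reduceFinMk, z22]; field_simp; ring
    · simp only [Fin.mk_one, rcov_hex_cut1, rv]
      rw [s10, s12]
      fin_cases j
      · simp only [Fin.zero_eta, z00]; field_simp; ring
      · exact absurd rfl hij
      · simp only [Fin.reduceFinMk, z22]; field_simp; ring
    · simp only [Fin.reduceFinMk, rcov_hex_cut2, rv]
      rw [s20, s21]
      fin_cases j
      · simp only [Fin.zero_eta, z00]; field_simp; ring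
      · simp only [Fin.mk_one, z11]; field_simp; ring
      · exact absurd rfl hij
  have hpos : ∀ i, 0 < cut i (s i) (rv (z i)) := by
    intro i
    fin_cases i
    · simp only [Fin.zero_eta, rcov_hex_cut0, rv]
      rw [s01, s02, z00, sub_zero]; positivity
    · simp only [Fin.mk_one, rcov_hex_cut1, rv]
      rw [s10, s12, z11, sub_zero]; positivity
    · simp only [Fin.reduceFinMk, rcov_hex_cut2, rv]
      rw [s20, s21, z22, sub_zero]; positivity
  -- the edges
  have ebc : ∀ x : R3, dt (rv a) (rv b) (rv c) * cut ja (s ja) x =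
      cut ja (s ja) (rv a) * dt (rv b) (rv c) x := by
    intro x
    have e1 := hvan ja jb nab
    have e2 := hvan ja jc nac
    rw [zb, rcov_hex_cut_dp] at e1
    rw [zc, rcov_hex_cut_dp] at e2
    have := rcov_hex_dp _ _ _ (rv a) x e1 e2
    rw [rcov_hex_cut_dp, rcov_hex_cut_dp, ← this]
    congr 1
    simp only [dt]; ring
  have eca : ∀ x : R3, dt (rv a) (rv b) (rv c) * cut jb (s jb) x =
      cut jb (s jb) (rv b) * dt (rv c) (rv a) x := by
    intro x
    have e1 := hvan jb jc nbc
    have e2 := hvan jb ja nab.symm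
    rw [zc, rcov_hex_cut_dp] at e1
    rw [za, rcov_hex_cut_dp] at e2
    have := rcov_hex_dp _ _ _ (rv b) x e1 e2
    rw [rcov_hex_cut_dp, rcov_hex_cut_dp, ← this]
    congr 1
    simp only [dt]; ring
  have eab : ∀ x : R3, dt (rv a) (rv b) (rv c) * cut jc (s jc) x =
      cut jc (s jc) (rv c) * dt (rv a) (rv b) x := by
    intro x
    have e1 := hvan jc ja nac.symm
    have e2 := hvan jc jb nbc.symm
    rw [za, rcov_hex_cut_dp] at e1
    rw [zb, rcov_hex_cut_dp] at e2
    have := rcov_hex_dp _ _ _ (rv c) x e1 e2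
    rw [rcov_hex_cut_dp, rcov_hex_cut_dp, ← this]
  have pa := hpos ja
  have pb := hpos jb
  have pc := hpos jc
  rw [za] at pa
  rw [zb] at pb
  rw [zc] at pc
  have hlex : ∀ i, (∀ᶠ N : ℕ in atTop, 0 < cut i (s i) (rv (germ q v w N))) →
      lexpos (cut i (s i) (rv q)) (cut i (s i) (rv v)) (cut i (s i) (rv w)) := by
    intro i hi
    rw [rcov_hex_cut_dp, rcov_hex_cut_dp, rcov_hex_cut_dp]
    apply h2.2
    apply Eventually.frequently
    filter_upwards [hi] with N hN
    rw [rcov_hex_cut_dp] at hN; exact hN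
  refine ⟨s, ?_, ?_, ?_⟩
  · intro i j hij
    obtain ⟨t1, t2⟩ := hthird i j hij
    have q1 := zp _ _ t1
    have q2 := zp _ _ t2
    refine ⟨div_pos q1 q2, ?_⟩
    have e : s j i = (z (-(i + j)) j : ℝ) / (z (-(i + j)) i : ℝ) := by
      simp only [hs, add_comm]
    rw [e]
    simp only [hs]
    apply le_of_eq
    field_simp
  · intro i
    apply hlex
    filter_upwards [hy] with N hN
    obtain ⟨m1, m2, m3⟩ := (h3 h _).mp hN
    rcases rcov_hex_three nab nac nbc i with rfl | rfl | rfl
    · have := ebc (rv (germ q v w N))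
      have h5 := mul_pos pa m2
      rw [← this] at h5
      exact (mul_pos_iff_of_pos_left h).mp h5
    · have := eca (rv (germ q v w N))
      have h5 := mul_pos pb m3
      rw [← this] at h5
      exact (mul_pos_iff_of_pos_left h).mp h5
    · have := eab (rv (germ q v w N))
      have h5 := mul_pos pc m1
      rw [← this] at h5
      exact (mul_pos_iff_of_pos_left h).mp h5
  · intro C hC
    have hneg : ∀ {D p u t : ℝ}, 0 < D → 0 < p → D * u = p * t → t ≤ 0 → u ≤ 0 := by
      intro D p u t hD hp e ht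
      by_contra hu
      push Not at hu
      have q1 := mul_pos hD hu
      have q2 := mul_nonpos_of_nonneg_of_nonpos hp.le ht
      linarith
    rcases h1 ⟨ja, hja⟩ ⟨jb, hjb⟩ ⟨jc, hjc⟩ h (hG C hC) (hP.2.2 C hC) with hh | hh | hh
    · exact ⟨jc, fun k hk => hneg h pc (eab (rv k)) (hh k hk)⟩
    · exact ⟨ja, fun k hk => hneg h pa (ebc (rv k)) (hh k hk)⟩
    · exact ⟨jb, fun k hk => hneg h pb (eca (rv k)) (hh k hk)⟩

end Pool.Agent.MP2a1ef3.N3
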