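import Pool.Agent.Lib.MP_2a1ef3_lc.N3.Stm

/-!
MP_2a1ef3_lc, dimension three: the existence of a certificate is recursively enumerable.
-/

set_option autoImplicit false

namespace Pool.Agent.MP2a1ef3.N3

open Filter

section

variable {α : Type} [Primcodable α]

private theorem re_cert_vec {f : α → V} (h : ∀ j, Primrec fun a => f a j) : Primrec f :=
  Primrec.fin_curry.2 (Primrec.fin_curry₁.2 h).swap

private theorem re_cert_app {f : α → V} (h : Primrec f) (j : Fin 3) : Primrec fun a => f a j :=
  Primrec.fin_app.comp h (Primrec.const j)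

private theorem re_cert_sum {f : α → List V} (hf : Primrec f) : Primrec fun a => (f a).sum := by
  have h : Primrec (fun L : List V => L.foldr (fun b s => b + s) (0 : V)) :=
    Primrec.list_foldr (h := fun _ p => p.1 + p.2) Primrec.id (Primrec.const 0)
      (re_cert_vec fun j => Primrec.nat_add.comp (re_cert_app (Primrec.fst.comp Primrec.snd) j)
        (re_cert_app (Primrec.snd.comp Primrec.snd) j))
  exact h.comp hf

private theorem re_cert_gcone {M : α → ℕ} {q v w : α → V} (hM : Primrec M) (hq : Primrec q)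
    (hv : Primrec v) (hw : Primrec w) : Primrec fun a => gcone (M a) (q a) (v a) (w a) := by
  have h1 : Primrec (fun a => (fun j => M a * q a j + v a j : V)) :=
    re_cert_vec fun j => Primrec.nat_add.comp (Primrec.nat_mul.comp hM (re_cert_app hq j))
      (re_cert_app hv j)
  have h2 : Primrec (fun a => (fun j => M a ^ 2 * q a j + M a * v a j + w a j : V)) := by
    refine re_cert_vec fun j => ?_
    have h3 : Primrec (fun a => M a * M a * q a j + M a * v a j + w a j) :=
      Primrec.nat_add.comp (Primrec.nat_add.comp (Primrec.nat_mul.comp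
        (Primrec.nat_mul.comp hM hM) (re_cert_app hq j))
        (Primrec.nat_mul.comp hM (re_cert_app hv j))) (re_cert_app hw j)
    refine h3.of_eq fun a => ?_
    rw [pow_two]
  exact Primrec.list_cons.comp hq (Primrec.list_cons.comp h1
    (Primrec.list_cons.comp h2 (Primrec.const [])))

private theorem re_cert_sc {N : α → ℕ} {L : α → List V} (hN : Primrec N) (hL : Primrec L) :
    Primrec fun a => sc (N a) (L a) := by
  refine Primrec.list_map (g := fun a k => (fun j => N a * k j : V)) hL ?_
  exact re_cert_vec fun j => Primrec.nat_mul.comp (hN.comp Primrec.fst)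
    (re_cert_app Primrec.snd j)

private theorem re_cert_all {p : Fin 3 → α → Prop} (h : ∀ j, PrimrecPred (p j)) :
    PrimrecPred fun a => ∀ j, p j a := by
  refine ((h 0).and ((h 1).and (h 2))).of_eq fun a => ?_
  constructor
  · rintro ⟨h0, h1, h2⟩ j
    fin_cases j
    · exact h0
    · exact h1
    · exact h2
  · intro h
    exact ⟨h 0, h 1, h 2⟩

private theorem re_cert_ex {p : Fin 3 → α → Prop} (h : ∀ j, PrimrecPred (p j)) :
    PrimrecPred fun a => ∃ j, p j a := by
  refine ((h 0).or ((h 1).or (h 2))).of_eq fun a => ?_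
  constructor
  · rintro (h0 | h0 | h0)
    · exact ⟨0, h0⟩
    · exact ⟨1, h0⟩
    · exact ⟨2, h0⟩
  · rintro ⟨j, h⟩
    fin_cases j
    · exact Or.inl h
    · exact Or.inr (Or.inl h)
    · exact Or.inr (Or.inr h)

private theorem re_cert_eq {f g : α → ℕ} (hf : Primrec f) (hg : Primrec g) :
    PrimrecPred fun a => f a = g a := Primrec.eq.comp hf hg

private theorem re_cert_lt {f g : α → ℕ} (hf : Primrec f) (hg : Primrec g) :
    PrimrecPred fun a => f a < g a := Primrec.nat_lt.comp hf hg

end

theorem p_re_cert (h1 : S_re_exists) (h2 : S_us_rel_primrec) (h3 : S_dec_n1) (h4 : S_dec_n2)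
    (h5 : S_dec_n2p) (h6 : S_dec_n3) : S_re_cert := by
  refine h1 (α := List (V × List V)) (β := Cert) (R := CertOK) ?_
  apply PrimrecPred.computablePred
  -- the coordinates
  have cS : Primrec (fun x : List (V × List V) × Cert => x.1) := Primrec.fst
  have c : Primrec (fun x : List (V × List V) × Cert => x.2) := Primrec.snd
  have c1 : Primrec (fun x : List (V × List V) × Cert => x.2.1) := Primrec.fst.comp c
  have c2 : Primrec (fun x : List (V × List V) × Cert => x.2.2) := Primrec.snd.comp c
  have cu : Primrec (fun x : List (V × List V) × Cert => x.2.1.1) := Primrec.fst.comp c1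
  have cu' : Primrec (fun x : List (V × List V) × Cert => x.2.1.2) := Primrec.snd.comp c1
  have cqvw : Primrec (fun x : List (V × List V) × Cert => x.2.2.1) := Primrec.fst.comp c2
  have cq : Primrec (fun x : List (V × List V) × Cert => x.2.2.1.1) := Primrec.fst.comp cqvw
  have cvw : Primrec (fun x : List (V × List V) × Cert => x.2.2.1.2) := Primrec.snd.comp cqvw
  have cv : Primrec (fun x : List (V × List V) × Cert => x.2.2.1.2.1) := Primrec.fst.comp cvw
  have cw : Primrec (fun x : List (V × List V) × Cert => x.2.2.1.2.2) := Primrec.snd.comp cvw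
  have c3 : Primrec (fun x : List (V × List V) × Cert => x.2.2.2) := Primrec.snd.comp c2
  have cNM : Primrec (fun x : List (V × List V) × Cert => x.2.2.2.1) := Primrec.fst.comp c3
  have cN : Primrec (fun x : List (V × List V) × Cert => x.2.2.2.1.1) := Primrec.fst.comp cNM
  have cM : Primrec (fun x : List (V × List V) × Cert => x.2.2.2.1.2) := Primrec.snd.comp cNM
  have c4 : Primrec (fun x : List (V × List V) × Cert => x.2.2.2.2) := Primrec.snd.comp c3
  have cb : Primrec (fun x : List (V × List V) × Cert => x.2.2.2.2.1) := Primrec.fst.comp c4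
  have cL : Primrec (fun x : List (V × List V) × Cert => x.2.2.2.2.2) := Primrec.snd.comp c4
  have cg : Primrec (fun x : List (V × List V) × Cert =>
      gcone x.2.2.2.1.2 x.2.2.1.1 x.2.2.1.2.1 x.2.2.1.2.2) := re_cert_gcone cM cq cv cw
  -- the conditions
  have p1 : PrimrecPred (fun x : List (V × List V) × Cert => 1 ≤ x.2.2.2.1.1) :=
    Primrec.nat_le.comp (Primrec.const 1) cN
  have p2 : PrimrecPred (fun x : List (V × List V) × Cert =>
      ∀ j, 0 < x.2.2.1.1 j + x.2.2.1.2.1 j + x.2.2.1.2.2 j) :=
    re_cert_all fun j => re_cert_lt (Primrec.const 0) (Primrec.nat_add.comp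
      (Primrec.nat_add.comp (re_cert_app cq j) (re_cert_app cv j)) (re_cert_app cw j))
  have p3 : PrimrecPred (fun x : List (V × List V) × Cert =>
      ∀ j, x.2.2.2.2.1 j + x.2.1.2 j = x.2.1.1 j +
        x.2.2.2.1.1 * (gcone x.2.2.2.1.2 x.2.2.1.1 x.2.2.1.2.1 x.2.2.1.2.2).sum j) :=
    re_cert_all fun j => re_cert_eq (Primrec.nat_add.comp (re_cert_app cb j) (re_cert_app cu' j))
      (Primrec.nat_add.comp (re_cert_app cu j) (Primrec.nat_mul.comp cN
        (re_cert_app (re_cert_sum cg) j)))
  have p4 : PrimrecPred (fun x : List (V × List V) × Cert =>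
      US [(x.2.2.2.2.1, sc x.2.2.2.1.1 (gcone x.2.2.2.1.2 x.2.2.1.1 x.2.2.1.2.1 x.2.2.1.2.2))] ⊆
        US x.1) := by
    have h7 : Primrec (fun x : List (V × List V) × Cert =>
        [(x.2.2.2.2.1, sc x.2.2.2.1.1 (gcone x.2.2.2.1.2 x.2.2.1.1 x.2.2.1.2.1 x.2.2.1.2.2))]) :=
      Primrec.list_cons.comp (Primrec.pair cb (re_cert_sc cN cg)) (Primrec.const [])
    exact PrimrecPred.comp h2.1 (Primrec.pair h7 cS)
  have p5 : PrimrecPred (fun x : List (V × List V) × Cert =>
      ∀ b ∈ x.2.2.2.2.2, (∀ j, b.1 j + x.2.1.2 j = x.2.1.1 j + x.2.2.2.1.1 * b.2.sum j) ∧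
        (∀ j, 0 < b.2.sum j) ∧ Disjoint (US [(b.1, sc x.2.2.2.1.1 b.2)]) (US x.1)) := by
    have hR : PrimrecRel (fun (b : V × List V) (x : List (V × List V) × Cert) =>
        (∀ j, b.1 j + x.2.1.2 j = x.2.1.1 j + x.2.2.2.1.1 * b.2.sum j) ∧
        (∀ j, 0 < b.2.sum j) ∧ Disjoint (US [(b.1, sc x.2.2.2.1.1 b.2)]) (US x.1)) := by
      have b1 : Primrec (fun y : (V × List V) × (List (V × List V) × Cert) => y.1.1) :=
        Primrec.fst.comp Primrec.fst
      have b2 : Primrec (fun y : (V × List V) × (List (V × List V) × Cert) => y.1.2) :=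
        Primrec.snd.comp Primrec.fst
      have d1 : PrimrecPred (fun y : (V × List V) × (List (V × List V) × Cert) =>
          ∀ j, y.1.1 j + y.2.2.1.2 j = y.2.2.1.1 j + y.2.2.2.2.1.1 * y.1.2.sum j) :=
        re_cert_all fun j => re_cert_eq (Primrec.nat_add.comp (re_cert_app b1 j)
          (re_cert_app (cu'.comp Primrec.snd) j)) (Primrec.nat_add.comp
          (re_cert_app (cu.comp Primrec.snd) j) (Primrec.nat_mul.comp (cN.comp Primrec.snd)
          (re_cert_app (re_cert_sum b2) j)))
      have d2 : PrimrecPred (fun y : (V × List V) × (List (V × List V) × Cert) =>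
          ∀ j, 0 < y.1.2.sum j) :=
        re_cert_all fun j => re_cert_lt (Primrec.const 0) (re_cert_app (re_cert_sum b2) j)
      have d3 : PrimrecPred (fun y : (V × List V) × (List (V × List V) × Cert) =>
          Disjoint (US [(y.1.1, sc y.2.2.2.2.1.1 y.1.2)]) (US y.2.1)) := by
        have h7 : Primrec (fun y : (V × List V) × (List (V × List V) × Cert) =>
            [(y.1.1, sc y.2.2.2.2.1.1 y.1.2)]) :=
          Primrec.list_cons.comp (Primrec.pair b1 (re_cert_sc (cN.comp Primrec.snd) b2))
            (Primrec.const [])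
        exact PrimrecPred.comp h2.2 (Primrec.pair h7 (cS.comp Primrec.snd))
      exact d1.and (d2.and d3)
    exact PrimrecRel.comp hR.forall_mem_list cL Primrec.id
  have p6 : PrimrecPred (fun x : List (V × List V) × Cert =>
      ¬ RCov (fin (x.2.2.2.2.2.map Prod.snd)) x.2.2.1.1 x.2.2.1.2.1 x.2.2.1.2.2) := by
    have hx : Primrec (fun x : List (V × List V) × Cert =>
        (x.2.2.2.2.2.map Prod.snd, (x.2.2.1.1, x.2.2.1.2.1, x.2.2.1.2.2))) :=
      Primrec.pair (Primrec.list_map cL (show Primrec₂ (fun (_ : List (V × List V) × Cert)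
        (b : V × List V) => b.2) from Primrec.snd.comp Primrec.snd))
        (Primrec.pair cq (Primrec.pair cv cw))
    have e1 := PrimrecPred.comp h3 hx
    have e2 := fun i => PrimrecPred.comp (h4 i) hx
    have e3 := fun i => PrimrecPred.comp (h5 i) hx
    have e4 := fun i => PrimrecPred.comp (h6 i) hx
    exact (e1.or (re_cert_ex fun i => (e2 i).or ((e3 i).or (e4 i)))).not
  exact p1.and (p2.and (p3.and (p4.and (p5.and p6))))

end Pool.Agent.MP2a1ef3.N3
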