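import Pool.Agent.Lib.MP_2a1ef3_lc.N3.Stm

/-!
Piece `re_exists` for MP_2a1ef3_lc, dimension three.
-/

set_option autoImplicit false

namespace Pool.Agent.MP2a1ef3.N3

open Filter

theorem p_re_exists : S_re_exists := by
  intro α β _ _ R h
  obtain ⟨hd, hc⟩ := h
  let f : α × ℕ → Bool := fun p =>
    Option.casesOn (Encodable.decode (α := β) p.2) false (fun b => @decide (R p.1 b) (hd (p.1, b)))
  have hf : Computable f := by
    refine Computable.option_casesOn (Computable.decode.comp Computable.snd)
      (Computable.const false) ?_
    exact hc.comp (Computable.pair (Computable.fst.comp Computable.fst) Computable.snd)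
  have hp : Partrec₂ (fun (a : α) (n : ℕ) => (Part.some (f (a, n)) : Part Bool)) := by
    have h1 : Computable₂ (fun (a : α) (n : ℕ) => f (a, n)) := hf
    exact h1.partrec₂
  refine (Partrec.rfind hp).dom_re.of_eq fun a => ?_
  rw [Nat.rfind_dom]
  constructor
  · rintro ⟨n, hn, -⟩
    rw [Part.mem_some_iff] at hn
    have hn' : f (a, n) = true := hn.symm
    cases hb : Encodable.decode (α := β) n with
    | none =>
      exfalso
      simp only [f, hb] at hn'
      exact Bool.false_ne_true hn'
    | some b =>
      refine ⟨b, ?_⟩
      simp only [f, hb] at hn'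
      exact @of_decide_eq_true _ (hd (a, b)) hn'
  · rintro ⟨b, hb⟩
    refine ⟨Encodable.encode b, ?_, fun _ => trivial⟩
    rw [Part.mem_some_iff]
    show true = f (a, Encodable.encode b)
    simp only [f, Encodable.encodek]
    exact (@decide_eq_true _ (hd (a, b)) hb).symm

end Pool.Agent.MP2a1ef3.N3
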