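import Pool.Agent.Lib.MP_2a1ef3_lc.N3.Stm

set_option autoImplicit false

namespace Pool.Agent.MP2a1ef3.N3

open Filter

private theorem rs_coord (j : Fin 3) : Primrec (fun r : V => r j) :=
  Primrec.fin_app.comp Primrec.id (Primrec.const j)

private theorem rs_bd : PrimrecPred (fun r : V => Bd r) := by
  have h : ∀ j : Fin 3, PrimrecPred (fun r : V => r j = 0) := fun j =>
    Primrec.eq.comp (rs_coord j) (Primrec.const 0)
  refine PrimrecPred.of_eq (((h 0).or (h 1)).or (h 2)) ?_
  intro r
  constructor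
  · rintro ((h | h) | h)
    · exact ⟨0, h⟩
    · exact ⟨1, h⟩
    · exact ⟨2, h⟩
  · rintro ⟨j, hj⟩
    fin_cases j
    · exact Or.inl (Or.inl hj)
    · exact Or.inl (Or.inr hj)
    · exact Or.inr hj

theorem p_re_strat (h1 : S_strat_lin) (h2 : S_us_lin) (h3 : S_us_rel_primrec)
    (h4 : S_re_exists) : S_re_strat := by
  classical
  have key : ∀ S : List (V × List V), StratUnion (US S) ↔ ∃ T : List (V × List V),
      (∀ p ∈ T, ∀ r ∈ p.2, Bd r) ∧ US T ⊆ US S ∧ US S ⊆ US T := by
    intro S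
    rw [h1]
    constructor
    · rintro ⟨T, hT, hX⟩
      refine ⟨T.toList.map (fun p => (p.1, p.2.toList)), ?_, ?_⟩
      · intro p hp r hr
        obtain ⟨p', hp', rfl⟩ := List.mem_map.1 hp
        exact hT p' (Finset.mem_toList.1 hp') r (Finset.mem_toList.1 hr)
      · have : US (T.toList.map (fun p => (p.1, p.2.toList))) = US S := by
          rw [h2, hX, List.map_map]
          have e : ((fun p : V × List V => (p.1, p.2.toFinset)) ∘
              fun p : V × Finset V => (p.1, p.2.toList)) = id := by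
            funext p; simp
          rw [e, List.map_id, Finset.toList_toFinset]
        exact ⟨this.le, this.ge⟩
    · rintro ⟨T, hT, hX1, hX2⟩
      refine ⟨(T.map (fun p => (p.1, p.2.toFinset))).toFinset, ?_, ?_⟩
      · intro p hp r hr
        rw [List.mem_toFinset, List.mem_map] at hp
        obtain ⟨p', hp', rfl⟩ := hp
        exact hT p' hp' r (List.mem_toFinset.1 hr)
      · rw [← h2]
        exact Set.Subset.antisymm hX2 hX1
  have hbd : PrimrecPred (fun T : List (V × List V) => ∀ p ∈ T, ∀ r ∈ p.2, Bd r) := by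
    refine PrimrecPred.forall_mem_list (p := fun p : V × List V => ∀ r ∈ p.2, Bd r) ?_
    exact (PrimrecPred.forall_mem_list rs_bd).comp Primrec.snd
  have hpr : PrimrecPred (fun x : List (V × List V) × List (V × List V) =>
      (∀ p ∈ x.2, ∀ r ∈ p.2, Bd r) ∧ US x.2 ⊆ US x.1 ∧ US x.1 ⊆ US x.2) := by
    refine (hbd.comp Primrec.snd).and ((h3.1.comp (Primrec.pair Primrec.snd Primrec.fst)).and ?_)
    exact h3.1
  obtain ⟨inst, hd⟩ := hpr
  have hc : ComputablePred (fun x : List (V × List V) × List (V × List V) =>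
      (∀ p ∈ x.2, ∀ r ∈ p.2, Bd r) ∧ US x.2 ⊆ US x.1 ∧ US x.1 ⊆ US x.2) := ⟨inst, hd.to_comp⟩
  have := h4 (R := fun S T : List (V × List V) =>
      (∀ p ∈ T, ∀ r ∈ p.2, Bd r) ∧ US T ⊆ US S ∧ US S ⊆ US T) hc
  exact this.of_eq (fun S => (key S).symm)

end Pool.Agent.MP2a1ef3.N3
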