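import Pool.Agent.Lib.MP_2a1ef3_lc.N3.Stm

set_option autoImplicit false

namespace Pool.Agent.MP2a1ef3.N3

open Filter

private def regime1_cr (a b : R3) : R3 :=
  ![a 1 * b 2 - a 2 * b 1, a 2 * b 0 - a 0 * b 2, a 0 * b 1 - a 1 * b 0]

private theorem regime1_dp_cr (a b x : R3) : dp (regime1_cr a b) x = dt a b x := by
  simp [dp, dt, regime1_cr]
  ring

private theorem regime1_det0 {l q u x : R3} (hl : l ≠ 0) (hq : dp l q = 0) (hu : dp l u = 0)
    (hx : dp l x = 0) : dt q u x = 0 := by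
  have h0 : l 0 * dt q u x = 0 := by
    have : l 0 * dt q u x = dp l q * (u 1 * x 2 - u 2 * x 1) - dp l u * (q 1 * x 2 - q 2 * x 1) +
        dp l x * (q 1 * u 2 - q 2 * u 1) := by
      simp only [dt, dp]; ring
    rw [this, hq, hu, hx]; ring
  have h1 : l 1 * dt q u x = 0 := by
    have : l 1 * dt q u x = - (dp l q * (u 0 * x 2 - u 2 * x 0) - dp l u * (q 0 * x 2 - q 2 * x 0) +
        dp l x * (q 0 * u 2 - q 2 * u 0)) := by
      simp only [dt, dp]; ring
    rw [this, hq, hu, hx]; ring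
  have h2 : l 2 * dt q u x = 0 := by
    have : l 2 * dt q u x = dp l q * (u 0 * x 1 - u 1 * x 0) - dp l u * (q 0 * x 1 - q 1 * x 0) +
        dp l x * (q 0 * u 1 - q 1 * u 0) := by
      simp only [dt, dp]; ring
    rw [this, hq, hu, hx]; ring
  by_contra hne
  apply hl
  ext j
  fin_cases j
  · exact (mul_eq_zero.1 h0).resolve_right hne
  · exact (mul_eq_zero.1 h1).resolve_right hne
  · exact (mul_eq_zero.1 h2).resolve_right hne

private theorem regime1_span {a b x : R3} (h : x ∈ Submodule.span ℝ {a, b}) :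
    ∃ s t : ℝ, x = s • a + t • b := by
  rw [Submodule.mem_span_pair] at h
  obtain ⟨s, t, h⟩ := h
  exact ⟨s, t, h.symm⟩

private theorem regime1_span_dt {a b x y z : R3} (hx : x ∈ Submodule.span ℝ {a, b})
    (hy : y ∈ Submodule.span ℝ {a, b}) (hz : z ∈ Submodule.span ℝ {a, b}) : dt x y z = 0 := by
  obtain ⟨s1, t1, rfl⟩ := regime1_span hx
  obtain ⟨s2, t2, rfl⟩ := regime1_span hy
  obtain ⟨s3, t3, rfl⟩ := regime1_span hz
  simp only [dt, Pi.add_apply, Pi.smul_apply, smul_eq_mul]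
  ring

private theorem regime1_core (h4 : S_germ_sameSign) (h5 : S_mem_ocone_iff_of_sameSign)
    (h6 : S_piece_shape) (h7 : S_germ_span) (h8 : S_mem_ocone_chord) (h9 : S_mem_ocone_tri)
    (h10 : S_edge1) {CC : Finset (Finset V)} (hI : ∀ C ∈ CC, Ind C) (hG : Good CC)
    {F : Ultrafilter V} (hF : ∀ᶠ x in (F : Filter V), Pos x) (H : AllCov CC) {p : R3}
    (hp : ∀ j, 0 ≤ p j) (hp0 : p ≠ 0) (hL : Lim F p) (hpk : ∀ k ∈ Vk CC, ¬ Par (rv k) p)
    {q x₁ w : V} (hq : SameSign CC (rv q) p) (hx₁ : Pos x₁)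
    (hxB : ∀ C ∈ CC, rv x₁ ∉ ocone C)
    (hx : ∀ᶠ x in (F : Filter V), SameSign CC (rv x) (rv x₁))
    (hs1 : ∀ k ∈ VV CC, ∀ k' ∈ VV CC, dt (rv k) (rv k') p ≠ 0 →
      SignType.sign (dt (rv k) (rv k') p) = SignType.sign (dt (rv k) (rv k') (rv x₁)))
    (hs2 : ∀ k ∈ VV CC, ∀ k' ∈ VV CC, dt (rv k) (rv k') (rv q) = 0 →
      dt (rv k) (rv k') (rv x₁) = 0 → dt (rv k) (rv k') (rv w) = 0)
    (hch : dt (rv q) (rv x₁) (rv w) ≠ 0 ∨ (¬ Par (rv q) (rv x₁) ∧
      ∀ᶠ x in (F : Filter V), dt (rv q) (rv x₁) (rv x) = 0)) : UCov CC F := by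
  have hy : ∀ᶠ N : ℕ in atTop, SameSign CC (rv (germ q x₁ w N)) (rv x₁) := by
    apply h4
    intro k hk k' hk'
    by_cases hc : dt (rv k) (rv k') (rv q) = 0
    · right
      refine ⟨hc, ?_⟩
      by_cases hc1 : dt (rv k) (rv k') (rv x₁) = 0
      · right
        refine ⟨hc1, ?_⟩
        rw [hs2 k hk k' hk' hc hc1, hc1]
      · left
        exact ⟨hc1, rfl⟩
    · left
      refine ⟨hc, ?_⟩
      have h := hq k hk k' hk'
      rw [h]
      apply hs1 k hk k' hk'
      intro h0
      rw [h0, sign_zero, sign_eq_zero_iff] at h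
      exact hc h
  have hav : ∀ C ∈ CC, ∀ᶠ N : ℕ in atTop, rv (germ q x₁ w N) ∉ ocone C := by
    intro C hC
    filter_upwards [hy] with N hN hmem
    exact hxB C hC ((h5 hC (hI C hC) hN).1 hmem)
  obtain ⟨P, hP, hPN⟩ := H q x₁ w (fun j => by have := hx₁ j; omega) hav
  obtain ⟨N, hN1, hN2⟩ := (hPN.and (eventually_ge_atTop 1)).exists
  have hgpos : ∀ j, 0 < rv (germ q x₁ w N) j := by
    intro j
    have h1 := hx₁ j
    have h2 : 0 < N * x₁ j := Nat.mul_pos hN2 h1
    have h3 : 0 < germ q x₁ w N j := by unfold germ; omega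
    unfold rv
    exact_mod_cast h3
  rcases h6 hP.1 hP.2.1 hgpos hN1 with ⟨a, b, c, hPe, habc⟩ | ⟨a, b, hab, hPe, h0⟩
  · subst hPe
    have hPe2 : ({a, b, c} : Finset V) = {b, c, a} := by
      ext v; simp only [Finset.mem_insert, Finset.mem_singleton]; tauto
    have hPe3 : ({a, b, c} : Finset V) = {c, a, b} := by
      ext v; simp only [Finset.mem_insert, Finset.mem_singleton]; tauto
    have hbca : 0 < dt (rv b) (rv c) (rv a) := by
      have : dt (rv b) (rv c) (rv a) = dt (rv a) (rv b) (rv c) := by simp only [dt]; ring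
      rw [this]; exact habc
    have hcab : 0 < dt (rv c) (rv a) (rv b) := by
      have : dt (rv c) (rv a) (rv b) = dt (rv a) (rv b) (rv c) := by simp only [dt]; ring
      rw [this]; exact habc
    have hall : ∀ᶠ N : ℕ in atTop, 0 < dt (rv a) (rv b) (rv (germ q x₁ w N)) ∧
        0 < dt (rv b) (rv c) (rv (germ q x₁ w N)) ∧ 0 < dt (rv c) (rv a) (rv (germ q x₁ w N)) := by
      filter_upwards [hPN] with N hN
      exact (h9 habc _).1 hN
    rcases h10 hG hF hp hp0 hL hpk hq hy hx hP habc (hall.mono fun _ h => h.1) with e1 | e1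
    · rcases h10 hG hF hp hp0 hL hpk hq hy hx (hPe2 ▸ hP) hbca (hall.mono fun _ h => h.2.1)
        with e2 | e2
      · rcases h10 hG hF hp hp0 hL hpk hq hy hx (hPe3 ▸ hP) hcab (hall.mono fun _ h => h.2.2)
          with e3 | e3
        · refine ⟨_, hP, ?_⟩
          filter_upwards [e1, e2, e3] with x y1 y2 y3
          exact (h9 habc _).2 ⟨y1, y2, y3⟩
        · exact e3
      · exact e2
    · exact e1
  · subst hPe
    have hsub : ∀ x ∈ ocone {a, b}, x ∈ Submodule.span ℝ {rv a, rv b} := by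
      rintro x ⟨l, -, hl⟩
      rw [Finset.sum_pair hab] at hl
      rw [hl, Submodule.mem_span_pair]
      exact ⟨_, _, rfl⟩
    have hspan := h7 (W := Submodule.span ℝ {rv a, rv b}) (hPN.mono fun N hN => hsub _ hN).frequently
    obtain ⟨hq', hx', hw'⟩ := hspan
    rcases hch with hch | ⟨hpar, hch⟩
    · exact absurd (regime1_span_dt hq' hx' hw') hch
    · refine ⟨_, hP, ?_⟩
      filter_upwards [hch, hF] with x hx2 hx3
      apply h8 hP.2.1 (hP.1 a (by simp)) (hP.1 b (by simp)) hab h0 hq' hx' hpar ?_ hx2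
      intro j
      have := hx3 j
      unfold rv
      exact_mod_cast this

theorem p_regime1 (h1 : S_ray_case) (h2 : S_exists_near) (h3 : S_exists_generic)
    (h4 : S_germ_sameSign) (h5 : S_mem_ocone_iff_of_sameSign) (h6 : S_piece_shape)
    (h7 : S_germ_span) (h8 : S_mem_ocone_chord) (h9 : S_mem_ocone_tri) (h10 : S_edge1) :
    S_regime1 := by
  intro CC hI hG F hF hB H p hp hp0 hL hpk
  by_cases hray : ∃ x₀ : V, x₀ ≠ 0 ∧ ∀ᶠ x in (F : Filter V), Par (rv x₀) (rv x)
  · exact h1 hF hB H hray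
  have hray' : ∀ x₀ : V, x₀ ≠ 0 → ∀ᶠ x in (F : Filter V), ¬ Par (rv x₀) (rv x) := by
    intro x₀ hx₀
    rw [Ultrafilter.eventually_not]
    intro hc
    exact hray ⟨x₀, hx₀, hc⟩
  have hB' : ∀ᶠ x in (F : Filter V), ∀ C ∈ CC, rv x ∉ ocone C := by
    rw [Finset.eventually_all]
    exact hB
  -- signs from the limit
  have hsg : ∀ᶠ x in (F : Filter V), ∀ k ∈ VV CC, ∀ k' ∈ VV CC, dt (rv k) (rv k') p ≠ 0 →
      SignType.sign (dt (rv k) (rv k') p) = SignType.sign (dt (rv k) (rv k') (rv x)) := by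
    rw [Finset.eventually_all]
    intro k _
    rw [Finset.eventually_all]
    intro k' _
    rcases lt_trichotomy (dt (rv k) (rv k') p) 0 with h | h | h
    · have e := hL (-regime1_cr (rv k) (rv k')) (by
        have : dp (-regime1_cr (rv k) (rv k')) p = - dt (rv k) (rv k') p := by
          rw [← regime1_dp_cr]; simp only [dp, Pi.neg_apply]; ring
        rw [this]; linarith)
      filter_upwards [e] with x hx _
      have : dp (-regime1_cr (rv k) (rv k')) (rv x) = - dt (rv k) (rv k') (rv x) := by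
        rw [← regime1_dp_cr]; simp only [dp, Pi.neg_apply]; ring
      rw [this] at hx
      rw [sign_neg h, sign_neg (by linarith)]
    · exact Eventually.of_forall fun x h' => absurd h h'
    · have e := hL (regime1_cr (rv k) (rv k')) (by rw [regime1_dp_cr]; exact h)
      filter_upwards [e] with x hx _
      rw [regime1_dp_cr] at hx
      rw [sign_pos h, sign_pos hx]
  by_cases hpl : ∃ l : Z3, l ≠ 0 ∧ ∀ᶠ x in (F : Filter V), dp (fun j => (l j : ℝ)) (rv x) = 0
  · -- on a rational plane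
    obtain ⟨l, hl0, hl⟩ := hpl
    have hl0' : (fun j => (l j : ℝ) : R3) ≠ 0 := by
      intro hc
      apply hl0
      ext j
      have := congrFun hc j
      simpa using this
    have hlp : dp (fun j => (l j : ℝ)) p = 0 := by
      rcases lt_trichotomy (dp (fun j => (l j : ℝ)) p) 0 with h | h | h
      · exfalso
        have e := hL (-(fun j => (l j : ℝ))) (by
          have : dp (-(fun j => (l j : ℝ))) p = - dp (fun j => (l j : ℝ)) p := by
            simp only [dp, Pi.neg_apply]; ring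
          rw [this]; linarith)
        obtain ⟨x, hx1, hx2⟩ := (e.and hl).exists
        have : dp (-(fun j => (l j : ℝ))) (rv x) = - dp (fun j => (l j : ℝ)) (rv x) := by
          simp only [dp, Pi.neg_apply]; ring
        rw [this, hx2] at hx1
        simp at hx1
      · exact h
      · exfalso
        obtain ⟨x, hx1, hx2⟩ := ((hL _ h).and hl).exists
        rw [hx2] at hx1
        exact lt_irrefl _ hx1
    obtain ⟨q, hq0, hq, hlq⟩ := h2 (CC := CC) hp hp0 l hlp
    obtain ⟨x₁, ⟨hx1, hx2, hx3, hx4, hx5⟩, hx⟩ := h3 (CC := CC)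
      (hl.and ((hray' q hq0).and (hF.and (hB'.and hsg))))
    refine regime1_core h4 h5 h6 h7 h8 h9 h10 hI hG hF H hp hp0 hL hpk (q := q) (x₁ := x₁)
      (w := 0) hq hx3 hx4 hx hx5 ?_ (Or.inr ⟨hx2, ?_⟩)
    · intro k _ k' _ _ _
      simp [dt, rv]
    · filter_upwards [hl] with x hxl
      exact regime1_det0 hl0' hlq hx1 hxl
  · -- on no rational plane
    have hpl' : ∀ l : Z3, l ≠ 0 → ∀ᶠ x in (F : Filter V), dp (fun j => (l j : ℝ)) (rv x) ≠ 0 := by
      intro l hl
      have : ∀ᶠ x in (F : Filter V), ¬ dp (fun j => (l j : ℝ)) (rv x) = 0 := by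
        rw [Ultrafilter.eventually_not]
        intro hc
        exact hpl ⟨l, hl, hc⟩
      exact this
    have hnp : ∀ᶠ x in (F : Filter V), ∀ k ∈ VV CC, ∀ k' ∈ VV CC,
        dt (rv k) (rv k') (rv x) = 0 → Par (rv k) (rv k') := by
      rw [Finset.eventually_all]
      intro k _
      rw [Finset.eventually_all]
      intro k' _
      by_cases hpar : Par (rv k) (rv k')
      · exact Eventually.of_forall fun _ _ => hpar
      · let l : Z3 := ![zv k 1 * zv k' 2 - zv k 2 * zv k' 1, zv k 2 * zv k' 0 - zv k 0 * zv k' 2,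
          zv k 0 * zv k' 1 - zv k 1 * zv k' 0]
        have hlc : (fun j => (l j : ℝ)) = regime1_cr (rv k) (rv k') := by
          ext j
          fin_cases j <;> simp [l, regime1_cr, rv, zv]
        have hl : l ≠ 0 := by
          intro hc
          apply hpar
          intro x
          rw [← regime1_dp_cr, ← hlc, hc]
          simp [dp]
        filter_upwards [hpl' l hl] with x hx hx0
        rw [hlc, regime1_dp_cr] at hx
        exact absurd hx0 hx
    obtain ⟨q, hq0, hq, -⟩ := h2 (CC := CC) hp hp0 0 (by simp [dp])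
    obtain ⟨x₁, ⟨hx1, hx2, hx3, hx4, hx5⟩, hx⟩ := h3 (CC := CC)
      (hnp.and ((hray' q hq0).and (hF.and (hB'.and hsg))))
    have hw : ∃ j, dt (rv q) (rv x₁) (rv (ev j)) ≠ 0 := by
      by_contra hcon
      push Not at hcon
      apply hx2
      intro x
      have e0 := hcon 0
      have e1 := hcon 1
      have e2 := hcon 2
      have : dt (rv q) (rv x₁) x = x 0 * dt (rv q) (rv x₁) (rv (ev 0)) +
          x 1 * dt (rv q) (rv x₁) (rv (ev 1)) + x 2 * dt (rv q) (rv x₁) (rv (ev 2)) := by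
        simp [dt, rv, ev]
        ring
      rw [this, e0, e1, e2]
      ring
    obtain ⟨j, hj⟩ := hw
    refine regime1_core h4 h5 h6 h7 h8 h9 h10 hI hG hF H hp hp0 hL hpk (q := q) (x₁ := x₁)
      (w := ev j) hq hx3 hx4 hx hx5 ?_ (Or.inl hj)
    intro k hk k' hk' _ h0
    exact hx1 k hk k' hk' h0 _

end Pool.Agent.MP2a1ef3.N3
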