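import Pool.Agent.Lib.MP_2a1ef3_lc.N3.Stm

set_option autoImplicit false

namespace Pool.Agent.MP2a1ef3.N3

open Filter

private def r2a_cr (a b : R3) : R3 :=
  ![a 1 * b 2 - a 2 * b 1, a 2 * b 0 - a 0 * b 2, a 0 * b 1 - a 1 * b 0]

private theorem r2a_dp_cr (a b x : R3) : dp (r2a_cr a b) x = dt a b x := by
  simp [dp, dt, r2a_cr]
  ring

private theorem r2a_smul {k k' : R3} (hk : k ≠ 0) (hp : Par k k') : ∃ c : ℝ, k' = c • k := by
  have e0 := hp ![1, 0, 0]
  have e1 := hp ![0, 1, 0]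
  have e2 := hp ![0, 0, 1]
  simp only [dt, Matrix.cons_val_zero, Matrix.cons_val_one, Matrix.cons_val] at e0 e1 e2
  obtain ⟨i, hi⟩ : ∃ i, k i ≠ 0 := by
    by_contra hcon
    push Not at hcon
    exact hk (funext hcon)
  refine ⟨k' i / k i, ?_⟩
  funext j
  simp only [Pi.smul_apply, smul_eq_mul]
  rw [div_mul_eq_mul_div, eq_div_iff hi]
  fin_cases i <;> fin_cases j <;> simp at * <;> linarith

private theorem r2a_rv_ne {k : V} (hk : k ≠ 0) : rv k ≠ 0 := by
  intro h
  apply hk
  funext j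
  have := congrFun h j
  simpa [rv] using this

/-- Signs almost surely. -/
private theorem r2a_sign {CC : Finset (Finset V)} {F : Ultrafilter V} {x₁ : V}
    (hx : ∀ᶠ x in (F : Filter V), SameSign CC (rv x) (rv x₁)) {a b : V} (ha : a ∈ VV CC)
    (hb : b ∈ VV CC) {p : R3} (hp : dt (rv a) (rv b) p ≠ 0)
    (h : ∀ f : R3, (∀ x, dp f x = dt (rv a) (rv b) x ∨ True) →
      (f = r2a_cr (rv a) (rv b) ∨ f = - r2a_cr (rv a) (rv b)) → 0 < dp f p →
      ∀ᶠ x in (F : Filter V), 0 < dp f (rv x)) :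
    SignType.sign (dt (rv a) (rv b) p) = SignType.sign (dt (rv a) (rv b) (rv x₁)) := by
  have hneg : ∀ x, dp (- r2a_cr (rv a) (rv b)) x = - dt (rv a) (rv b) x := by
    intro x
    rw [← r2a_dp_cr]
    simp only [dp, Pi.neg_apply]; ring
  rcases lt_or_gt_of_ne hp with hlt | hgt
  · have h1 := h (- r2a_cr (rv a) (rv b)) (fun x => Or.inr trivial) (Or.inr rfl) (by
      rw [hneg]; linarith)
    obtain ⟨x, hx1, hx2⟩ := (h1.and hx).exists
    rw [hneg] at hx1
    have hss := hx2 a ha b hb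
    rw [sign_neg (by linarith : dt (rv a) (rv b) (rv x) < 0)] at hss
    rw [← hss, sign_neg hlt]
  · have h1 := h (r2a_cr (rv a) (rv b)) (fun x => Or.inr trivial) (Or.inl rfl) (by
      rw [r2a_dp_cr]; exact hgt)
    obtain ⟨x, hx1, hx2⟩ := (h1.and hx).exists
    rw [r2a_dp_cr] at hx1
    have hss := hx2 a ha b hb
    rw [sign_pos hx1] at hss
    rw [← hss, sign_pos hgt]

/-- Linear algebra: a vector in the plane of two vectors. -/
private theorem r2a_comb {k kb v : R3} (hk : ¬ Par k kb) (h0 : dt k kb v = 0) :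
    ∃ α β : ℝ, v = α • kb + β • k := by
  obtain ⟨i, hi⟩ : ∃ i, r2a_cr k kb i ≠ 0 := by
    by_contra hcon
    push Not at hcon
    apply hk
    intro x
    rw [← r2a_dp_cr]
    simp [dp, hcon]
  rw [← r2a_dp_cr] at h0
  simp only [dp] at h0
  fin_cases i
  · simp only [Fin.zero_eta, Fin.isValue] at hi
    refine ⟨(k 1 * v 2 - k 2 * v 1) / r2a_cr k kb 0, (v 1 * kb 2 - v 2 * kb 1) / r2a_cr k kb 0, ?_⟩
    have e1 : r2a_cr k kb 0 = k 1 * kb 2 - k 2 * kb 1 := by simp [r2a_cr]
    have e2 : r2a_cr k kb 1 = k 2 * kb 0 - k 0 * kb 2 := by simp [r2a_cr]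
    have e3 : r2a_cr k kb 2 = k 0 * kb 1 - k 1 * kb 0 := by simp [r2a_cr]
    funext j
    simp only [Pi.add_apply, Pi.smul_apply, smul_eq_mul]
    field_simp
    rw [e1, e2, e3] at h0
    rw [e1]
    fin_cases j
    · show v 0 * (k 1 * kb 2 - k 2 * kb 1) = (k 1 * v 2 - k 2 * v 1) * kb 0 +
        (v 1 * kb 2 - v 2 * kb 1) * k 0
      linear_combination h0
    · show v 1 * (k 1 * kb 2 - k 2 * kb 1) = (k 1 * v 2 - k 2 * v 1) * kb 1 +
        (v 1 * kb 2 - v 2 * kb 1) * k 1
      ring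
    · show v 2 * (k 1 * kb 2 - k 2 * kb 1) = (k 1 * v 2 - k 2 * v 1) * kb 2 +
        (v 1 * kb 2 - v 2 * kb 1) * k 2
      ring
  · simp only [Fin.mk_one, Fin.isValue] at hi
    refine ⟨(k 2 * v 0 - k 0 * v 2) / r2a_cr k kb 1, (v 2 * kb 0 - v 0 * kb 2) / r2a_cr k kb 1, ?_⟩
    have e1 : r2a_cr k kb 0 = k 1 * kb 2 - k 2 * kb 1 := by simp [r2a_cr]
    have e2 : r2a_cr k kb 1 = k 2 * kb 0 - k 0 * kb 2 := by simp [r2a_cr]
    have e3 : r2a_cr k kb 2 = k 0 * kb 1 - k 1 * kb 0 := by simp [r2a_cr]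
    funext j
    simp only [Pi.add_apply, Pi.smul_apply, smul_eq_mul]
    field_simp
    rw [e1, e2, e3] at h0
    rw [e2]
    fin_cases j
    · show v 0 * (k 2 * kb 0 - k 0 * kb 2) = (k 2 * v 0 - k 0 * v 2) * kb 0 +
        (v 2 * kb 0 - v 0 * kb 2) * k 0
      ring
    · show v 1 * (k 2 * kb 0 - k 0 * kb 2) = (k 2 * v 0 - k 0 * v 2) * kb 1 +
        (v 2 * kb 0 - v 0 * kb 2) * k 1
      linear_combination h0
    · show v 2 * (k 2 * kb 0 - k 0 * kb 2) = (k 2 * v 0 - k 0 * v 2) * kb 2 +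
        (v 2 * kb 0 - v 0 * kb 2) * k 2
      ring
  · simp only [Fin.reduceFinMk, Fin.isValue] at hi
    refine ⟨(k 0 * v 1 - k 1 * v 0) / r2a_cr k kb 2, (v 0 * kb 1 - v 1 * kb 0) / r2a_cr k kb 2, ?_⟩
    have e1 : r2a_cr k kb 0 = k 1 * kb 2 - k 2 * kb 1 := by simp [r2a_cr]
    have e2 : r2a_cr k kb 1 = k 2 * kb 0 - k 0 * kb 2 := by simp [r2a_cr]
    have e3 : r2a_cr k kb 2 = k 0 * kb 1 - k 1 * kb 0 := by simp [r2a_cr]
    funext j
    simp only [Pi.add_apply, Pi.smul_apply, smul_eq_mul]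
    field_simp
    rw [e1, e2, e3] at h0
    rw [e3]
    fin_cases j
    · show v 0 * (k 0 * kb 1 - k 1 * kb 0) = (k 0 * v 1 - k 1 * v 0) * kb 0 +
        (v 0 * kb 1 - v 1 * kb 0) * k 0
      ring
    · show v 1 * (k 0 * kb 1 - k 1 * kb 0) = (k 0 * v 1 - k 1 * v 0) * kb 1 +
        (v 0 * kb 1 - v 1 * kb 0) * k 1
      ring
    · show v 2 * (k 0 * kb 1 - k 1 * kb 0) = (k 0 * v 1 - k 1 * v 0) * kb 2 +
        (v 0 * kb 1 - v 1 * kb 0) * k 2
      linear_combination h0

theorem p_regime2a (h1 : S_exists_generic) (h2 : S_germ_sameSign)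
    (h3 : S_mem_ocone_iff_of_sameSign) (h4 : S_piece_shape) (h5 : S_germ_span)
    (h6 : S_germ_lex) (h7 : S_mem_ocone_chord) (h8 : S_mem_ocone_tri) (h9 : S_edge_T)
    (h10 : S_edge_V) : S_regime2a := by
  classical
  intro CC hI F hF hB H k hk hk0 hL v hv hkv hD kb hkb hkkb h0
  have hrk0 := r2a_rv_ne hk0
  have hkVV : k ∈ VV CC := Finset.mem_union_left _ hk
  obtain ⟨α, β, hvc⟩ := r2a_comb hkkb h0
  have hα : α ≠ 0 := by
    rintro rfl
    apply hkv
    intro x
    rw [hvc]
    simp only [dt, Pi.add_apply, Pi.smul_apply, smul_eq_mul]; ring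
  obtain ⟨u, c, d, hc, hu⟩ : ∃ (u : V) (c d : ℝ), 0 < c ∧ rv u = c • v + d • rv k := by
    rcases lt_or_gt_of_ne hα with hneg | hposα
    · refine ⟨fun j => (kb 0 + kb 1 + kb 2) * k j - kb j, - (1 / α),
        ((kb 0 + kb 1 + kb 2 : ℕ) : ℝ) + β / α, ?_, ?_⟩
      · have : 1 / α < 0 := one_div_neg.2 hneg
        linarith
      · funext j
        have hle : kb j ≤ (kb 0 + kb 1 + kb 2) * k j := by
          rcases Nat.eq_zero_or_pos (k j) with hkj | hkj
          · have hvj := hv j
            rw [hvc] at hvj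
            simp only [Pi.add_apply, Pi.smul_apply, smul_eq_mul, rv, hkj, Nat.cast_zero,
              mul_zero, add_zero] at hvj
            have : (kb j : ℝ) ≤ 0 := by
              by_contra hcon
              push Not at hcon
              have := mul_neg_of_neg_of_pos hneg hcon
              linarith
            have : kb j = 0 := by
              have h := Nat.cast_nonneg (α := ℝ) (kb j)
              exact_mod_cast le_antisymm this h
            omega
          · have h11 : kb j ≤ kb 0 + kb 1 + kb 2 := by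
              fin_cases j
              · show kb 0 ≤ _; omega
              · show kb 1 ≤ _; omega
              · show kb 2 ≤ _; omega
            exact h11.trans (Nat.le_mul_of_pos_right _ hkj)
        simp only [rv, Pi.add_apply, Pi.smul_apply, smul_eq_mul]
        rw [Nat.cast_sub hle]
        have hvj := congrFun hvc j
        simp only [rv, Pi.add_apply, Pi.smul_apply, smul_eq_mul] at hvj
        rw [hvj]
        push_cast
        field_simp
        ring
    · refine ⟨kb, 1 / α, - (β / α), one_div_pos.2 hposα, ?_⟩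
      funext j
      have hvj := congrFun hvc j
      simp only [Pi.add_apply, Pi.smul_apply, smul_eq_mul] at hvj ⊢
      rw [hvj]
      field_simp
      ring
  have hdpu : ∀ f : R3, dp f (rv k) = 0 → dp f (rv u) = c * dp f v := by
    intro f hf
    rw [hu]
    have : dp f (c • v + d • rv k) = c * dp f v + d * dp f (rv k) := by
      simp only [dp, Pi.add_apply, Pi.smul_apply, smul_eq_mul]; ring
    rw [this, hf]; ring
  have hdpkb : ∀ f : R3, dp f (rv k) = 0 → dp f (rv u) = 0 → dp f (rv kb) = 0 := by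
    intro f hf hfu
    rw [hdpu f hf] at hfu
    have hfv : dp f v = 0 := (mul_eq_zero.1 hfu).resolve_left hc.ne'
    rw [hvc] at hfv
    have : dp f (α • rv kb + β • rv k) = α * dp f (rv kb) + β * dp f (rv k) := by
      simp only [dp, Pi.add_apply, Pi.smul_apply, smul_eq_mul]; ring
    rw [this, hf, mul_zero, add_zero] at hfv
    exact (mul_eq_zero.1 hfv).resolve_left hα
  have hku : ¬ Par (rv k) (rv u) := by
    intro hpar
    apply hkv
    obtain ⟨e, he⟩ := r2a_smul hrk0 hpar
    intro x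
    have hv2 : c • v = (e - d) • rv k := by
      funext j
      have e1 := congrFun hu j
      have e2 := congrFun he j
      simp only [Pi.add_apply, Pi.smul_apply, smul_eq_mul] at e1 e2 ⊢
      linarith
    have h11 : c * dt (rv k) v x = dt (rv k) (c • v) x := by
      simp only [dt, Pi.smul_apply, smul_eq_mul]; ring
    have h12 : dt (rv k) (c • v) x = 0 := by
      rw [hv2]
      simp only [dt, Pi.smul_apply, smul_eq_mul]; ring
    rw [h12] at h11
    exact (mul_eq_zero.1 h11).resolve_left hc.ne'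
  have hBall : ∀ᶠ x in (F : Filter V), ∀ C ∈ CC, rv x ∉ ocone C :=
    (Filter.eventually_all_finset CC).2 hB
  obtain ⟨x₁, ⟨hx₁pos, hx₁B⟩, hx⟩ := h1 (CC := CC) (F := F)
    (p := fun x => Pos x ∧ (∀ C ∈ CC, rv x ∉ ocone C)) (hF.and hBall)
  have hsignL : ∀ a ∈ VV CC, ∀ b ∈ VV CC, dt (rv a) (rv b) (rv k) ≠ 0 →
      SignType.sign (dt (rv a) (rv b) (rv k)) = SignType.sign (dt (rv a) (rv b) (rv x₁)) := by
    intro a ha b hb hne
    exact r2a_sign hx ha hb hne (fun f _ _ hf => hL f hf)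
  have hsignD : ∀ a ∈ VV CC, ∀ b ∈ VV CC, dt (rv a) (rv b) (rv k) = 0 →
      dt (rv a) (rv b) v ≠ 0 →
      SignType.sign (dt (rv a) (rv b) v) = SignType.sign (dt (rv a) (rv b) (rv x₁)) := by
    intro a ha b hb h0 hne
    exact r2a_sign hx ha hb hne (fun f _ hf hfp => hD f (by
      rcases hf with rfl | rfl
      · rw [r2a_dp_cr]; exact h0
      · have : dp (-r2a_cr (rv a) (rv b)) (rv k) = - dp (r2a_cr (rv a) (rv b)) (rv k) := by
          simp only [dp, Pi.neg_apply]; ring
        rw [this, r2a_dp_cr, h0, neg_zero]) hfp)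
  have hy : ∀ᶠ N : ℕ in atTop, SameSign CC (rv (germ k u x₁ N)) (rv x₁) := by
    refine h2 ?_
    intro a ha b hb
    by_cases hne : dt (rv a) (rv b) (rv k) = 0
    · right
      refine ⟨hne, ?_⟩
      have hfk : dp (r2a_cr (rv a) (rv b)) (rv k) = 0 := by rw [r2a_dp_cr]; exact hne
      have hfu := hdpu _ hfk
      rw [r2a_dp_cr, r2a_dp_cr] at hfu
      by_cases hv0 : dt (rv a) (rv b) v = 0
      · right
        refine ⟨by rw [hfu, hv0, mul_zero], rfl⟩
      · left
        refine ⟨by rw [hfu]; exact mul_ne_zero hc.ne' hv0, ?_⟩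
        rw [hfu, sign_mul, sign_pos hc, one_mul]
        exact hsignD a ha b hb hne hv0
    · left
      exact ⟨hne, hsignL a ha b hb hne⟩
  -- the germ is covered
  have hpos : ∀ j, 0 < k j + u j + x₁ j := by
    intro j
    have := hx₁pos j
    omega
  obtain ⟨P, hP, hPg⟩ := H k u x₁ hpos (by
    intro C hC
    filter_upwards [hy] with N hN hmem
    exact hx₁B C hC ((h3 hC (hI C hC) hN).1 hmem))
  have hgpos : ∀ᶠ N : ℕ in atTop, ∀ j, 0 < rv (germ k u x₁ N) j := by
    filter_upwards [eventually_ge_atTop 1] with N hN j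
    have h8 : 0 < germ k u x₁ N j := by
      have h9 := hx₁pos j
      simp only [germ]
      omega
    simp only [rv]
    exact_mod_cast h8
  obtain ⟨N₀, hN1, hN2⟩ := (hPg.and hgpos).exists
  rcases h4 hP.1 hP.2.1 hN2 hN1 with ⟨a, b, c', rfl, hdet⟩ | ⟨a, b, hab, rfl, h00⟩
  · -- triangle
    have hedge : ∀ a b c' : V, 0 < dt (rv a) (rv b) (rv c') →
        (∀ᶠ N : ℕ in atTop, 0 < dt (rv a) (rv b) (rv (germ k u x₁ N))) →
        ∀ᶠ x in (F : Filter V), 0 < dt (rv a) (rv b) (rv x) := by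
      intro a b c' hdet hg
      by_cases hT : ∃ j, a j = 0 ∧ b j = 0
      · obtain ⟨j, haj, hbj⟩ := hT
        filter_upwards [hF] with x hx
        exact h9 hdet haj hbj (fun i => by simp only [rv]; exact_mod_cast hx i)
      have hgf : ∃ᶠ N : ℕ in atTop,
          0 < dp (r2a_cr (rv a) (rv b)) (rv (germ k u x₁ N)) := by
        have : ∀ᶠ N : ℕ in atTop, 0 < dp (r2a_cr (rv a) (rv b)) (rv (germ k u x₁ N)) := by
          simpa only [r2a_dp_cr] using hg
        exact this.frequently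
      rcases (h6 (f := r2a_cr (rv a) (rv b)) (q := k) (v := u) (w := x₁)).2 hgf with
        hpos | ⟨hk00, hlex⟩
      · have := hL _ hpos
        simpa only [r2a_dp_cr] using this
      · rcases hlex with hu1 | ⟨hu0, -⟩
        · have hfv : 0 < dp (r2a_cr (rv a) (rv b)) v := by
            rw [hdpu _ hk00] at hu1
            exact (pos_iff_pos_of_mul_pos hu1).1 hc
          have := hD _ hk00 hfv
          simpa only [r2a_dp_cr] using this
        · have := h10 hy hx hkVV hkb hkkb hk00 (hdpkb _ hk00 hu0) hgf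
          simpa only [r2a_dp_cr] using this
    have hd1 : 0 < dt (rv b) (rv c') (rv a) := by
      have : dt (rv b) (rv c') (rv a) = dt (rv a) (rv b) (rv c') := by simp only [dt]; ring
      rw [this]; exact hdet
    have hd2 : 0 < dt (rv c') (rv a) (rv b) := by
      have : dt (rv c') (rv a) (rv b) = dt (rv a) (rv b) (rv c') := by simp only [dt]; ring
      rw [this]; exact hdet
    have e1 := hedge a b c' hdet (by
      filter_upwards [hPg] with N hN
      exact ((h8 hdet _).1 hN).1)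
    have e2 := hedge b c' a hd1 (by
      filter_upwards [hPg] with N hN
      exact ((h8 hdet _).1 hN).2.1)
    have e3 := hedge c' a b hd2 (by
      filter_upwards [hPg] with N hN
      exact ((h8 hdet _).1 hN).2.2)
    refine ⟨{a, b, c'}, hP, ?_⟩
    filter_upwards [e1, e2, e3] with x f1 f2 f3
    exact (h8 hdet _).2 ⟨f1, f2, f3⟩
  · -- chord
    have hspan : ∀ᶠ N : ℕ in atTop, rv (germ k u x₁ N) ∈
        Submodule.span ℝ {rv a, rv b} := by
      filter_upwards [hPg] with N hN
      obtain ⟨l, -, hl⟩ := hN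
      rw [hl]
      refine Submodule.sum_mem _ fun p hp => Submodule.smul_mem _ _ (Submodule.subset_span ?_)
      rcases Finset.mem_insert.1 hp with rfl | hp
      · simp
      · rw [Finset.mem_singleton.1 hp]; simp
    obtain ⟨m1, m2, m3⟩ := h5 hspan.frequently
    have hkux : dt (rv k) (rv u) (rv x₁) = 0 := by
      obtain ⟨α1, β1, e1⟩ := Submodule.mem_span_pair.1 m1
      obtain ⟨α2, β2, e2⟩ := Submodule.mem_span_pair.1 m2
      obtain ⟨α3, β3, e3⟩ := Submodule.mem_span_pair.1 m3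
      rw [← e1, ← e2, ← e3]
      simp only [dt, Pi.add_apply, Pi.smul_apply, smul_eq_mul]
      ring
    have hrel : ∀ x, dt (rv k) (rv u) x = c * α * dt (rv k) (rv kb) x := by
      intro x
      rw [hu, hvc]
      simp only [dt, Pi.add_apply, Pi.smul_apply, smul_eq_mul]
      ring
    have hkbx : dt (rv k) (rv kb) (rv x₁) = 0 := by
      rw [hrel] at hkux
      exact (mul_eq_zero.1 hkux).resolve_left (mul_ne_zero hc.ne' hα)
    refine ⟨{a, b}, hP, ?_⟩
    filter_upwards [hF, hx] with x hxp hxs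
    have h11 : dt (rv k) (rv kb) (rv x) = 0 := by
      have := hxs k hkVV kb hkb
      rw [hkbx, sign_zero, sign_eq_zero_iff] at this
      exact this
    refine h7 hP.2.1 (hP.1 a (by simp)) (hP.1 b (by simp)) hab h00 m1 m2 hku
      (fun j => by simp only [rv]; exact_mod_cast hxp j) ?_
    rw [hrel, h11, mul_zero]

end Pool.Agent.MP2a1ef3.N3
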