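import Pool.Agent.Lib.MP_2a1ef3_lc.N3.Stm

set_option autoImplicit false

namespace Pool.Agent.MP2a1ef3.N3

open Filter

private def r2b_cr (a b : R3) : R3 :=
  ![a 1 * b 2 - a 2 * b 1, a 2 * b 0 - a 0 * b 2, a 0 * b 1 - a 1 * b 0]

private theorem r2b_dp_cr (a b x : R3) : dp (r2b_cr a b) x = dt a b x := by
  simp [dp, dt, r2b_cr]
  ring

private theorem r2b_smul {k k' : R3} (hk : k ≠ 0) (hp : Par k k') : ∃ c : ℝ, k' = c • k := by
  have e0 := hp ![1, 0, 0]
  have e1 := hp ![0, 1, 0]
  have e2 := hp ![0, 0, 1]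
  simp only [dt, Matrix.cons_val_zero, Matrix.cons_val_one, Matrix.cons_val] at e0 e1 e2
  obtain ⟨i, hi⟩ : ∃ i, k i ≠ 0 := by
    by_contra hcon
    push Not at hcon
    exact hk (funext hcon)
  refine ⟨k' i / k i, ?_⟩
  funext j
  simp only [Pi.smul_apply, smul_eq_mul]
  rw [div_mul_eq_mul_div, eq_div_iff hi]
  fin_cases i <;> fin_cases j <;> simp at * <;> linarith

private theorem r2b_rv_ne {k : V} (hk : k ≠ 0) : rv k ≠ 0 := by
  intro h
  apply hk
  funext j
  have := congrFun h j
  simpa [rv] using this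

/-- Signs almost surely. -/
private theorem r2b_sign {CC : Finset (Finset V)} {F : Ultrafilter V} {x₁ : V}
    (hx : ∀ᶠ x in (F : Filter V), SameSign CC (rv x) (rv x₁)) {a b : V} (ha : a ∈ VV CC)
    (hb : b ∈ VV CC) {p : R3} (hp : dt (rv a) (rv b) p ≠ 0)
    (h : ∀ f : R3, (∀ x, dp f x = dt (rv a) (rv b) x ∨ True) →
      (f = r2b_cr (rv a) (rv b) ∨ f = - r2b_cr (rv a) (rv b)) → 0 < dp f p →
      ∀ᶠ x in (F : Filter V), 0 < dp f (rv x)) :
    SignType.sign (dt (rv a) (rv b) p) = SignType.sign (dt (rv a) (rv b) (rv x₁)) := by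
  have hneg : ∀ x, dp (- r2b_cr (rv a) (rv b)) x = - dt (rv a) (rv b) x := by
    intro x
    rw [← r2b_dp_cr]
    simp only [dp, Pi.neg_apply]; ring
  rcases lt_or_gt_of_ne hp with hlt | hgt
  · have h1 := h (- r2b_cr (rv a) (rv b)) (fun x => Or.inr trivial) (Or.inr rfl) (by
      rw [hneg]; linarith)
    obtain ⟨x, hx1, hx2⟩ := (h1.and hx).exists
    rw [hneg] at hx1
    have hss := hx2 a ha b hb
    rw [sign_neg (by linarith : dt (rv a) (rv b) (rv x) < 0)] at hss
    rw [← hss, sign_neg hlt]
  · have h1 := h (r2b_cr (rv a) (rv b)) (fun x => Or.inr trivial) (Or.inl rfl) (by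
      rw [r2b_dp_cr]; exact hgt)
    obtain ⟨x, hx1, hx2⟩ := (h1.and hx).exists
    rw [r2b_dp_cr] at hx1
    have hss := hx2 a ha b hb
    rw [sign_pos hx1] at hss
    rw [← hss, sign_pos hgt]

theorem p_regime2b (h1 : S_exists_generic) (h2 : S_germ_sameSign)
    (h3 : S_mem_ocone_iff_of_sameSign) (h4 : S_piece_shape) (h5 : S_germ_span)
    (h6 : S_mem_ocone_tri) (h7 : S_edge2) : S_regime2b := by
  classical
  intro CC hI hG F hF hB H k hk hk0 hL v hv hv' hkv hD hnp hgen
  have hrk0 := r2b_rv_ne hk0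
  have hkVV : k ∈ VV CC := Finset.mem_union_left _ hk
  have hBall : ∀ᶠ x in (F : Filter V), ∀ C ∈ CC, rv x ∉ ocone C :=
    (Filter.eventually_all_finset CC).2 hB
  obtain ⟨x₁, ⟨hx₁pos, hx₁B, hx₁k⟩, hx⟩ := h1 (CC := CC) (F := F)
    (p := fun x => Pos x ∧ (∀ C ∈ CC, rv x ∉ ocone C) ∧ ¬ Par (rv k) (rv x))
    (hF.and (hBall.and hnp))
  -- the third vector
  obtain ⟨w, hw⟩ : ∃ w : V, dt (rv k) (rv x₁) (rv w) ≠ 0 := by
    by_contra hcon
    push Not at hcon
    apply hx₁k
    intro x
    have e0 := hcon (ev 0)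
    have e1 := hcon (ev 1)
    have e2 := hcon (ev 2)
    simp only [dt, rv, ev, Pi.single_apply] at e0 e1 e2
    simp at e0 e1 e2
    simp only [dt, rv]
    linear_combination x 0 * e0 + x 1 * e1 + x 2 * e2
  have hsignL : ∀ a ∈ VV CC, ∀ b ∈ VV CC, dt (rv a) (rv b) (rv k) ≠ 0 →
      SignType.sign (dt (rv a) (rv b) (rv k)) = SignType.sign (dt (rv a) (rv b) (rv x₁)) := by
    intro a ha b hb hne
    exact r2b_sign hx ha hb hne (fun f _ _ hf => hL f hf)
  have hsignD : ∀ a ∈ VV CC, ∀ b ∈ VV CC, dt (rv a) (rv b) (rv k) = 0 →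
      dt (rv a) (rv b) v ≠ 0 → dt (rv a) (rv b) (rv x₁) ≠ 0 := by
    intro a ha b hb h0 hne
    have := r2b_sign hx ha hb hne (fun f _ hf hfp => hD f (by
      rcases hf with rfl | rfl
      · rw [r2b_dp_cr]; exact h0
      · have : dp (-r2b_cr (rv a) (rv b)) (rv k) = - dp (r2b_cr (rv a) (rv b)) (rv k) := by
          simp only [dp, Pi.neg_apply]; ring
        rw [this, r2b_dp_cr, h0, neg_zero]) hfp)
    intro h0'
    rw [h0', sign_zero, sign_eq_zero_iff] at this
    exact hne this
  have hy : ∀ᶠ N : ℕ in atTop, SameSign CC (rv (germ k x₁ w N)) (rv x₁) := by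
    refine h2 ?_
    intro a ha b hb
    by_cases hne : dt (rv a) (rv b) (rv k) = 0
    · right
      refine ⟨hne, ?_⟩
      by_cases hab : Par (rv a) (rv b)
      · right
        rw [hab, hab]
        exact ⟨rfl, rfl⟩
      · left
        refine ⟨?_, rfl⟩
        -- one of a, b is not parallel to k
        apply hsignD a ha b hb hne
        intro hv0
        -- the plane spanned by a and b contains k and v
        have hcase : (¬ Par (rv k) (rv a)) ∨ ¬ Par (rv k) (rv b) := by
          by_contra hcon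
          push Not at hcon
          obtain ⟨c, hc⟩ := r2b_smul hrk0 hcon.1
          obtain ⟨d, hd⟩ := r2b_smul hrk0 hcon.2
          apply hab
          intro x
          rw [hc, hd]
          simp only [dt, Pi.smul_apply, smul_eq_mul]; ring
        -- dt k a is a multiple of dt a b: both vanish at k and a
        have hmul : ∀ c : V, c ∈ VV CC → dt (rv a) (rv b) (rv c) = 0 →
            ¬ Par (rv k) (rv c) → False := by
          intro c hc hc0 hkc
          apply hgen c hc hkc
          -- n = cross a b ; n.k = 0, n.c = 0, n.v = 0, n ≠ 0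
          set n := r2b_cr (rv a) (rv b) with hn
          have hnk : dp n (rv k) = 0 := by rw [hn, r2b_dp_cr]; exact hne
          have hnc : dp n (rv c) = 0 := by rw [hn, r2b_dp_cr]; exact hc0
          have hnv : dp n v = 0 := by rw [hn, r2b_dp_cr]; exact hv0
          have hn0 : ∃ i, n i ≠ 0 := by
            by_contra hcon
            push Not at hcon
            apply hab
            intro x
            rw [← r2b_dp_cr, ← hn]
            simp [dp, hcon]
          obtain ⟨i, hi⟩ := hn0
          have key : n i * dt (rv k) (rv c) v = 0 := by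
            simp only [dp] at hnk hnc hnv
            fin_cases i
            · show n 0 * _ = 0
              simp only [dt]
              linear_combination (rv c 1 * v 2 - rv c 2 * v 1) * hnk -
                (rv k 1 * v 2 - rv k 2 * v 1) * hnc + (rv k 1 * rv c 2 - rv k 2 * rv c 1) * hnv
            · show n 1 * _ = 0
              simp only [dt]
              linear_combination (rv c 2 * v 0 - rv c 0 * v 2) * hnk -
                (rv k 2 * v 0 - rv k 0 * v 2) * hnc + (rv k 2 * rv c 0 - rv k 0 * rv c 2) * hnv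
            · show n 2 * _ = 0
              simp only [dt]
              linear_combination (rv c 0 * v 1 - rv c 1 * v 0) * hnk -
                (rv k 0 * v 1 - rv k 1 * v 0) * hnc + (rv k 0 * rv c 1 - rv k 1 * rv c 0) * hnv
          exact (mul_eq_zero.1 key).resolve_left hi
        rcases hcase with h | h
        · exact hmul a ha (by simp only [dt]; ring) h
        · exact hmul b hb (by simp only [dt]; ring) h
    · left
      exact ⟨hne, hsignL a ha b hb hne⟩
  -- the germ is covered
  have hpos : ∀ j, 0 < k j + x₁ j + w j := by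
    intro j
    have := hx₁pos j
    omega
  obtain ⟨P, hP, hPg⟩ := H k x₁ w hpos (by
    intro C hC
    filter_upwards [hy] with N hN hmem
    exact hx₁B C hC ((h3 hC (hI C hC) hN).1 hmem))
  have hgpos : ∀ᶠ N : ℕ in atTop, ∀ j, 0 < rv (germ k x₁ w N) j := by
    filter_upwards [eventually_ge_atTop 1] with N hN j
    have h8 : 0 < germ k x₁ w N j := by
      have h9 := hx₁pos j
      have : x₁ j ≤ N * x₁ j := Nat.le_mul_of_pos_left _ (by omega)
      simp only [germ]
      omega
    simp only [rv]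
    exact_mod_cast h8
  obtain ⟨N₀, hN1, hN2⟩ := (hPg.and hgpos).exists
  rcases h4 hP.1 hP.2.1 hN2 hN1 with ⟨a, b, c, rfl, hdet⟩ | ⟨a, b, hab, rfl, h0⟩
  · -- triangle
    have hcyc1 : ({b, c, a} : Finset V) = {a, b, c} := by
      ext x; simp only [Finset.mem_insert, Finset.mem_singleton]; tauto
    have hcyc2 : ({c, a, b} : Finset V) = {a, b, c} := by
      ext x; simp only [Finset.mem_insert, Finset.mem_singleton]; tauto
    have hd1 : 0 < dt (rv b) (rv c) (rv a) := by
      have : dt (rv b) (rv c) (rv a) = dt (rv a) (rv b) (rv c) := by simp only [dt]; ring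
      rw [this]; exact hdet
    have hd2 : 0 < dt (rv c) (rv a) (rv b) := by
      have : dt (rv c) (rv a) (rv b) = dt (rv a) (rv b) (rv c) := by simp only [dt]; ring
      rw [this]; exact hdet
    have hg1 : ∀ᶠ N : ℕ in atTop, 0 < dt (rv a) (rv b) (rv (germ k x₁ w N)) := by
      filter_upwards [hPg] with N hN
      exact ((h6 hdet _).1 hN).1
    have hg2 : ∀ᶠ N : ℕ in atTop, 0 < dt (rv b) (rv c) (rv (germ k x₁ w N)) := by
      filter_upwards [hPg] with N hN
      exact ((h6 hdet _).1 hN).2.1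
    have hg3 : ∀ᶠ N : ℕ in atTop, 0 < dt (rv c) (rv a) (rv (germ k x₁ w N)) := by
      filter_upwards [hPg] with N hN
      exact ((h6 hdet _).1 hN).2.2
    rcases h7 hI hG hF hk hk0 hL hv hv' hkv hD hgen hx₁k hy hx hP hdet hg1 with e1 | e1
    · rcases h7 hI hG hF hk hk0 hL hv hv' hkv hD hgen hx₁k hy hx (by rw [hcyc1]; exact hP) hd1
        hg2 with e2 | e2
      · rcases h7 hI hG hF hk hk0 hL hv hv' hkv hD hgen hx₁k hy hx (by rw [hcyc2]; exact hP)
          hd2 hg3 with e3 | e3
        · refine ⟨{a, b, c}, hP, ?_⟩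
          filter_upwards [e1, e2, e3] with x f1 f2 f3
          exact (h6 hdet _).2 ⟨f1, f2, f3⟩
        · exact e3
      · exact e2
    · exact e1
  · -- chord
    exfalso
    have hspan : ∀ᶠ N : ℕ in atTop, rv (germ k x₁ w N) ∈
        Submodule.span ℝ {rv a, rv b} := by
      filter_upwards [hPg] with N hN
      obtain ⟨l, -, hl⟩ := hN
      rw [hl]
      refine Submodule.sum_mem _ fun p hp => Submodule.smul_mem _ _ (Submodule.subset_span ?_)
      rcases Finset.mem_insert.1 hp with rfl | hp
      · simp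
      · rw [Finset.mem_singleton.1 hp]; simp
    obtain ⟨m1, m2, m3⟩ := h5 hspan.frequently
    obtain ⟨α1, β1, e1⟩ := Submodule.mem_span_pair.1 m1
    obtain ⟨α2, β2, e2⟩ := Submodule.mem_span_pair.1 m2
    obtain ⟨α3, β3, e3⟩ := Submodule.mem_span_pair.1 m3
    apply hw
    rw [← e1, ← e2, ← e3]
    simp only [dt, Pi.add_apply, Pi.smul_apply, smul_eq_mul]
    ring

end Pool.Agent.MP2a1ef3.N3
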