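import Pool.Agent.Lib.MP_2a1ef3_lc.N3.Stm

/-!
# MP_2a1ef3_lc, dimension three: piece `sa_nat`
-/

set_option autoImplicit false

open Filter

namespace Pool.Agent.MP2a1ef3.N3

open Pool.Agent.Lib.MP42

private theorem sa_nat_poly {M : ℕ} (a : MvPolynomial (Fin M) ℚ) :
    ∃ (D : ℕ) (f g : (Fin M → ℕ) → ℕ), 0 < D ∧ Primrec f ∧ Primrec g ∧
      ∀ x : Fin M → ℕ, (D : ℝ) * MvPolynomial.aeval (fun i => (x i : ℝ)) a =
        (f x : ℝ) - (g x : ℝ) := by
  induction a using MvPolynomial.induction_on with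
  | C q =>
    refine ⟨q.den, fun _ => q.num.toNat, fun _ => (-q.num).toNat, q.den_pos, Primrec.const _,
      Primrec.const _, ?_⟩
    intro x
    rw [MvPolynomial.aeval_C]
    have h1 : ((q.num.toNat : ℤ) : ℝ) - (((-q.num).toNat : ℤ) : ℝ) = ((q.num : ℤ) : ℝ) := by
      rw [← Int.cast_sub, Int.toNat_sub_toNat_neg]
    have h2 : (q : ℝ) * (q.den : ℝ) = ((q.num : ℤ) : ℝ) := by
      have h3 := Rat.mul_den_eq_num q
      exact_mod_cast h3
    rw [Int.cast_natCast, Int.cast_natCast] at h1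
    rw [h1, ← h2, mul_comm]
    rfl
  | add p q hp hq =>
    obtain ⟨D1, f1, g1, hD1, hf1, hg1, h1⟩ := hp
    obtain ⟨D2, f2, g2, hD2, hf2, hg2, h2⟩ := hq
    refine ⟨D1 * D2, fun x => D2 * f1 x + D1 * f2 x, fun x => D2 * g1 x + D1 * g2 x,
      Nat.mul_pos hD1 hD2, ?_, ?_, ?_⟩
    · exact Primrec.nat_add.comp (Primrec.nat_mul.comp (Primrec.const D2) hf1)
        (Primrec.nat_mul.comp (Primrec.const D1) hf2)
    · exact Primrec.nat_add.comp (Primrec.nat_mul.comp (Primrec.const D2) hg1)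
        (Primrec.nat_mul.comp (Primrec.const D1) hg2)
    · intro x
      rw [map_add]
      push_cast
      linear_combination (D2 : ℝ) * h1 x + (D1 : ℝ) * h2 x
  | mul_X p i hp =>
    obtain ⟨D, f, g, hD, hf, hg, h⟩ := hp
    have hi : Primrec (fun x : Fin M → ℕ => x i) :=
      Primrec.fin_app.comp Primrec.id (Primrec.const i)
    refine ⟨D, fun x => f x * x i, fun x => g x * x i, hD, Primrec.nat_mul.comp hf hi,
      Primrec.nat_mul.comp hg hi, ?_⟩
    intro x
    rw [map_mul, MvPolynomial.aeval_X]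
    push_cast
    linear_combination (x i : ℝ) * h x

theorem p_sa_nat : S_sa_nat := by
  intro M S hS
  induction hS with
  | pos a =>
    obtain ⟨D, f, g, hD, hf, hg, h⟩ := sa_nat_poly a
    refine (Primrec.nat_lt.comp hg hf).of_eq fun x => ?_
    show g x < f x ↔ (0 : ℝ) < evR M a fun i => (x i : ℝ)
    rw [evR_apply]
    have h1 := h x
    have h2 : (0 : ℝ) < D := by exact_mod_cast hD
    constructor
    · intro h3
      have h4 : (g x : ℝ) < f x := by exact_mod_cast h3
      have h5 : 0 < (D : ℝ) * MvPolynomial.aeval (fun i => (x i : ℝ)) a := by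
        rw [h1]
        linarith
      exact (mul_pos_iff_of_pos_left h2).1 h5
    · intro h3
      have h5 : 0 < (D : ℝ) * MvPolynomial.aeval (fun i => (x i : ℝ)) a := mul_pos h2 h3
      rw [h1] at h5
      have h4 : (g x : ℝ) < f x := by linarith
      exact_mod_cast h4
  | compl _ ih => exact ih.not
  | inter _ _ ih1 ih2 => exact ih1.and ih2

end Pool.Agent.MP2a1ef3.N3
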