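import Pool.Agent.Lib.MP_2a1ef3_lc.N3.Stm

/-!
Piece `sh_spec` for MP_2a1ef3_lc, dimension three.
-/

set_option autoImplicit false

namespace Pool.Agent.MP2a1ef3.N3

open Filter

theorem p_sh_spec (h1 : S_trich) : S_sh_spec := by
  intro U x₀ h0
  have key : ∀ j, ∀ᶠ x in (U : Filter V), x₀ j ≤ zv x j := by
    intro j
    have h2 := h1 h0 (Pi.single j 1)
    simp only [single_one_dotProduct] at h2
    rcases h2 with h2 | h2 | h2
    · filter_upwards [h2] with x hx using hx.ge
    · filter_upwards [h2 (x₀ j)] with x hx using hx.le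
    · filter_upwards [h2 0] with x hx
      exact absurd hx (not_lt.2 (Int.natCast_nonneg (x j)))
  filter_upwards [eventually_all.2 key] with x hx
  funext j
  show (((x j - x₀ j : ℤ).toNat : ℕ) : ℤ) = (x j : ℤ) - x₀ j
  exact Int.toNat_of_nonneg (sub_nonneg.2 (hx j))

end Pool.Agent.MP2a1ef3.N3
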