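import Pool.Agent.Lib.MP_2a1ef3_lc.N3.Stm

/-!
Piece `sign_ocone` for MP_2a1ef3_lc, dimension three.
-/

set_option autoImplicit false

namespace Pool.Agent.MP2a1ef3.N3

open Filter

private theorem val_cast (h : Z3) (y : V) : ((h ⬝ᵥ zv y : ℤ) : ℝ) = ∑ j, (h j : ℝ) * rv y j := by
  simp [dotProduct, zv, rv]

private theorem val_sum {D : Finset V} (h : Z3) {y : V} {l : V → ℝ}
    (hy : rv y = ∑ p ∈ D, l p • rv p) :
    ((h ⬝ᵥ zv y : ℤ) : ℝ) = ∑ k ∈ D, l k * ((h ⬝ᵥ zv k : ℤ) : ℝ) := by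
  rw [val_cast, hy]
  simp only [val_cast, Finset.sum_apply, Pi.smul_apply, smul_eq_mul, Finset.mul_sum]
  rw [Finset.sum_comm]
  refine Finset.sum_congr rfl fun k _ => Finset.sum_congr rfl fun j _ => ?_
  ring

private theorem sign_nonneg' {D : Finset V} {h : Z3} (hD : ∀ k ∈ D, 0 ≤ h ⬝ᵥ zv k) {y : V}
    (hy : rv y ∈ ocone D) :
    (h ⬝ᵥ zv y = 0 ∧ ∀ k ∈ D, h ⬝ᵥ zv k = 0) ∨ (0 < h ⬝ᵥ zv y ∧ ∃ k ∈ D, h ⬝ᵥ zv k ≠ 0) := by
  obtain ⟨l, hl, hy⟩ := hy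
  have hv := val_sum h hy
  by_cases h0 : ∀ k ∈ D, h ⬝ᵥ zv k = 0
  · left
    refine ⟨?_, h0⟩
    rw [Finset.sum_eq_zero (fun k hk => by rw [h0 k hk]; simp)] at hv
    exact_mod_cast hv
  · right
    push Not at h0
    obtain ⟨k, hk, hk0⟩ := h0
    refine ⟨?_, k, hk, hk0⟩
    have h1 : (0 : ℝ) < ((h ⬝ᵥ zv y : ℤ) : ℝ) := by
      rw [hv]
      refine Finset.sum_pos' (fun p hp => mul_nonneg (hl p hp).le ?_) ⟨k, hk, mul_pos (hl k hk) ?_⟩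
      · exact_mod_cast hD p hp
      · exact_mod_cast lt_of_le_of_ne (hD k hk) (Ne.symm hk0)
    exact_mod_cast h1

private theorem sign_eq' {D : Finset V} {h : Z3} (hD : ∀ k ∈ D, 0 ≤ h ⬝ᵥ zv k) {y y' : V}
    (hy : rv y ∈ ocone D) (hy' : rv y' ∈ ocone D) :
    SignType.sign (h ⬝ᵥ zv y) = SignType.sign (h ⬝ᵥ zv y') := by
  rcases sign_nonneg' hD hy with ⟨h1, h2⟩ | ⟨h1, k, hk, h2⟩ <;>
    rcases sign_nonneg' hD hy' with ⟨h3, h4⟩ | ⟨h3, k', hk', h4⟩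
  · rw [h1, h3]
  · exact absurd (h2 k' hk') h4
  · exact absurd (h4 k hk) h2
  · rw [sign_pos h1, sign_pos h3]

theorem p_sign_ocone : S_sign_ocone := by
  intro D h hD y y' hy hy'
  rcases hD with hD | hD
  · exact sign_eq' hD hy hy'
  · have h1 : ∀ k ∈ D, 0 ≤ (-h) ⬝ᵥ zv k := fun k hk => by
      rw [neg_dotProduct]
      have := hD k hk
      linarith
    have h2 := sign_eq' h1 hy hy'
    rw [neg_dotProduct, neg_dotProduct, Left.sign_neg, Left.sign_neg] at h2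
    exact neg_injective h2

end Pool.Agent.MP2a1ef3.N3
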