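import Pool.Agent.Lib.MP_2a1ef3_lc.N3.Stm

set_option autoImplicit false

namespace Pool.Agent.MP2a1ef3.N3

open Filter

private lemma sw_mem (p : V × List V) (x : V) :
    x ∈ US [p] ↔ ∃ n : Fin p.2.length → ℕ, ∀ j, x j = p.1 j + ∑ i, n i * p.2.get i j := by
  simp only [US, List.mem_singleton, Set.mem_ofPred_eq]
  constructor
  · rintro ⟨p', rfl, c, hc⟩
    refine ⟨c, fun j => ?_⟩
    rw [hc]
    simp [Finset.sum_apply]
  · rintro ⟨n, hn⟩
    refine ⟨p, rfl, n, ?_⟩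
    funext j
    rw [hn j]
    simp [Finset.sum_apply]

private lemma sw_wt {S : List (V × List V)} {p : V × List V} (hp : p ∈ S) (j : Fin 3) :
    p.1 j + ∑ i, p.2.get i j ≤ wt S := by
  have h1 : (∑ j, p.1 j) + (p.2.map (fun r => ∑ j, r j)).sum ≤ wt S := by
    unfold wt
    apply List.single_le_sum
    · intro x _; exact Nat.zero_le _
    · exact List.mem_map.mpr ⟨p, hp, rfl⟩
  refine le_trans (add_le_add ?_ ?_) h1
  · exact Finset.single_le_sum (f := fun j => p.1 j) (fun i _ => Nat.zero_le _) (Finset.mem_univ j)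
  · rw [← Fin.sum_univ_fun_getElem]
    apply Finset.sum_le_sum
    intro i _
    exact Finset.single_le_sum (f := fun j => (p.2.get i) j) (fun i _ => Nat.zero_le _)
      (Finset.mem_univ j)

private def swK (p : V × List V) (x : V) (m : ℕ) : Set V :=
  {c' | ∃ a : Fin p.2.length → ℕ, (∀ i, a i < 2 ^ m) ∧
    ∀ j, p.1 j + ∑ i, a i * p.2.get i j = x j % 2 ^ m + 2 ^ m * c' j}

private lemma swK_bound {S : List (V × List V)} {p : V × List V} (hp : p ∈ S) {x : V} {m : ℕ}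
    {c' : V} (h : c' ∈ swK p x m) (j : Fin 3) : c' j ≤ wt S := by
  obtain ⟨a, ha, he⟩ := h
  have h1 := sw_wt hp j
  have h2 : p.1 j + ∑ i, a i * p.2.get i j ≤ 2 ^ m * (p.1 j + ∑ i, p.2.get i j) := by
    rw [mul_add, Finset.mul_sum]
    apply add_le_add
    · exact Nat.le_mul_of_pos_left _ (by positivity)
    · exact Finset.sum_le_sum (fun i _ => Nat.mul_le_mul_right _ (ha i).le)
  have h3 : 2 ^ m * c' j ≤ 2 ^ m * wt S := by
    calc 2 ^ m * c' j ≤ x j % 2 ^ m + 2 ^ m * c' j := Nat.le_add_left _ _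
      _ = p.1 j + ∑ i, a i * p.2.get i j := (he j).symm
      _ ≤ 2 ^ m * (p.1 j + ∑ i, p.2.get i j) := h2
      _ ≤ 2 ^ m * wt S := Nat.mul_le_mul_left _ h1
  exact Nat.le_of_mul_le_mul_left h3 (by positivity)

private lemma swK_iff (p : V × List V) (x : V) (m : ℕ) :
    x ∈ US [p] ↔ ∃ c' ∈ swK p x m, (fun j => x j / 2 ^ m) ∈ US [(c', p.2)] := by
  rw [sw_mem]
  constructor
  · rintro ⟨n, hn⟩
    set T : V := fun j => ∑ i, (n i / 2 ^ m) * p.2.get i j with hT
    have hsplit : ∀ j, ∑ i, n i * p.2.get i j =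
        (∑ i, (n i % 2 ^ m) * p.2.get i j) + 2 ^ m * T j := by
      intro j
      rw [hT, Finset.mul_sum, ← Finset.sum_add_distrib]
      apply Finset.sum_congr rfl
      intro i _
      have := Nat.mod_add_div (n i) (2 ^ m)
      calc n i * p.2.get i j = (n i % 2 ^ m + 2 ^ m * (n i / 2 ^ m)) * p.2.get i j := by rw [this]
        _ = _ := by ring
    have hx : ∀ j, x j % 2 ^ m + 2 ^ m * (x j / 2 ^ m) =
        p.1 j + ((∑ i, (n i % 2 ^ m) * p.2.get i j) + 2 ^ m * T j) := by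
      intro j
      rw [Nat.mod_add_div, ← hsplit, ← hn]
    have hTle : ∀ j, T j ≤ x j / 2 ^ m := by
      intro j
      by_contra hlt
      push Not at hlt
      have h1 : x j / 2 ^ m + 1 ≤ T j := hlt
      have h2 : 2 ^ m * (x j / 2 ^ m + 1) ≤ 2 ^ m * T j := Nat.mul_le_mul_left _ h1
      have h3 := hx j
      have h4 : x j % 2 ^ m < 2 ^ m := Nat.mod_lt _ (by positivity)
      rw [mul_add, mul_one] at h2
      omega
    refine ⟨fun j => x j / 2 ^ m - T j, ⟨fun i => n i % 2 ^ m,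
      fun i => Nat.mod_lt _ (by positivity), ?_⟩, ?_⟩
    · intro j
      have h1 := hx j
      have h2 : 2 ^ m * (x j / 2 ^ m - T j) + 2 ^ m * T j = 2 ^ m * (x j / 2 ^ m) := by
        rw [← mul_add, Nat.sub_add_cancel (hTle j)]
      show p.1 j + ∑ i, (n i % 2 ^ m) * p.2.get i j =
        x j % 2 ^ m + 2 ^ m * (x j / 2 ^ m - T j)
      generalize 2 ^ m * (x j / 2 ^ m - T j) = u at h2 ⊢
      generalize 2 ^ m * (x j / 2 ^ m) = u2 at h1 h2 ⊢
      generalize 2 ^ m * T j = u3 at h1 h2 ⊢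
      omega
    · rw [sw_mem]
      refine ⟨fun i => n i / 2 ^ m, fun j => ?_⟩
      show x j / 2 ^ m = (x j / 2 ^ m - T j) + T j
      rw [Nat.sub_add_cancel (hTle j)]
  · rintro ⟨c', ⟨a, ha, he⟩, hc⟩
    rw [sw_mem] at hc
    obtain ⟨b, hb⟩ := hc
    refine ⟨fun i => a i + 2 ^ m * b i, fun j => ?_⟩
    have h1 := hb j
    simp only at h1
    have h2 : ∑ i, (a i + 2 ^ m * b i) * p.2.get i j =
        (∑ i, a i * p.2.get i j) + 2 ^ m * ∑ i, b i * p.2.get i j := by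
      rw [Finset.mul_sum, ← Finset.sum_add_distrib]
      exact Finset.sum_congr rfl (fun i _ => by ring)
    rw [h2, ← add_assoc, he j, add_assoc, ← mul_add]
    rw [← h1, Nat.mod_add_div]

theorem p_small_witness : S_small_witness := by
  classical
  intro S
  -- induction on the sum
  suffices hmain : ∀ n : ℕ, ∀ x : V, ∑ j, x j = n →
      ∃ x' : V, (∀ i, x' i < bnd 3 S) ∧ ∀ p ∈ S, (x ∈ US [p] ↔ x' ∈ US [p]) by
    intro x; exact hmain _ x rfl
  intro n
  induction n using Nat.strong_induction_on with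
  | _ n ih =>
    intro x hx
    by_cases hsmall : ∀ i, x i < bnd 3 S
    · exact ⟨x, hsmall, fun p _ => Iff.rfl⟩
    push Not at hsmall
    obtain ⟨i₀, hi₀⟩ := hsmall
    set W := wt S + 1 with hW
    set B := 2 ^ (S.length * W ^ 3) with hB
    have hbnd : bnd 3 S = 2 ^ B := rfl
    let Φ : Fin (B + 1) → (Fin S.length → Set (Fin 3 → Fin W)) := fun m i =>
      {g | (fun j => (g j : ℕ)) ∈ swK (S.get i) x m}
    have hcard : Fintype.card (Fin S.length → Set (Fin 3 → Fin W)) <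
        Fintype.card (Fin (B + 1)) := by
      rw [Fintype.card_fin, Fintype.card_fun, Fintype.card_set, Fintype.card_fun,
        Fintype.card_fin, Fintype.card_fin, Fintype.card_fin, ← pow_mul, mul_comm]
      exact Nat.lt_succ_self _
    obtain ⟨m₁, m₂, hne, heq⟩ := Fintype.exists_ne_map_eq_of_card_lt Φ hcard
    wlog hlt : m₁ < m₂ generalizing m₁ m₂
    · exact this m₂ m₁ hne.symm heq.symm (lt_of_le_of_ne (not_lt.mp hlt) hne.symm)
    have hKeq : ∀ p ∈ S, swK p x m₁ = swK p x m₂ := by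
      intro p hp
      obtain ⟨i, rfl⟩ := List.get_of_mem hp
      have h1 := congrFun heq i
      ext c'
      constructor
      · intro hc
        have hb := swK_bound hp hc
        have h2 : (fun j => (⟨c' j, Nat.lt_succ_of_le (hb j)⟩ : Fin W)) ∈ Φ m₁ i := hc
        rw [h1] at h2
        exact h2
      · intro hc
        have hb := swK_bound hp hc
        have h2 : (fun j => (⟨c' j, Nat.lt_succ_of_le (hb j)⟩ : Fin W)) ∈ Φ m₂ i := hc
        rw [← h1] at h2
        exact h2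
    set x' : V := fun j => x j % 2 ^ (m₁ : ℕ) + 2 ^ (m₁ : ℕ) * (x j / 2 ^ (m₂ : ℕ)) with hx'
    have hmod : ∀ j, x' j % 2 ^ (m₁ : ℕ) = x j % 2 ^ (m₁ : ℕ) := by
      intro j
      simp [hx', Nat.add_mul_mod_self_left]
    have hdiv : ∀ j, x' j / 2 ^ (m₁ : ℕ) = x j / 2 ^ (m₂ : ℕ) := by
      intro j
      simp only [hx']
      rw [Nat.add_mul_div_left _ _ (by positivity), Nat.div_eq_of_lt (Nat.mod_lt _ (by positivity)),
        zero_add]
    have hKx' : ∀ p, swK p x' m₁ = swK p x m₁ := by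
      intro p
      unfold swK
      simp only [hmod]
    have hsame : ∀ p ∈ S, (x ∈ US [p] ↔ x' ∈ US [p]) := by
      intro p hp
      rw [swK_iff p x m₂, swK_iff p x' m₁, hKx', hKeq p hp]
      simp only [hdiv]
    have hm12 : (m₁ : ℕ) < m₂ := hlt
    have hle : ∀ j, x' j ≤ x j := by
      intro j
      have h1 := Nat.mod_add_div (x j) (2 ^ (m₂ : ℕ))
      have h2 : x j % 2 ^ (m₁ : ℕ) ≤ x j % 2 ^ (m₂ : ℕ) := by
        rw [← Nat.mod_mod_of_dvd (x j) (pow_dvd_pow 2 hm12.le)]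
        exact Nat.mod_le _ _
      have h3 : 2 ^ (m₁ : ℕ) * (x j / 2 ^ (m₂ : ℕ)) ≤ 2 ^ (m₂ : ℕ) * (x j / 2 ^ (m₂ : ℕ)) :=
        Nat.mul_le_mul_right _ (Nat.pow_le_pow_right (by norm_num) hm12.le)
      simp only [hx']
      omega
    have hlt' : x' i₀ < x i₀ := by
      have h1 := Nat.mod_add_div (x i₀) (2 ^ (m₂ : ℕ))
      have h2 : x i₀ % 2 ^ (m₁ : ℕ) ≤ x i₀ % 2 ^ (m₂ : ℕ) := by
        rw [← Nat.mod_mod_of_dvd (x i₀) (pow_dvd_pow 2 hm12.le)]
        exact Nat.mod_le _ _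
      have h4 : 2 ^ (m₂ : ℕ) ≤ x i₀ := by
        rw [hbnd] at hi₀
        exact le_trans (Nat.pow_le_pow_right (by norm_num) (Nat.lt_succ_iff.mp m₂.2)) hi₀
      have h5 : 0 < x i₀ / 2 ^ (m₂ : ℕ) := Nat.div_pos h4 (by positivity)
      have h3 : 2 ^ (m₁ : ℕ) * (x i₀ / 2 ^ (m₂ : ℕ)) < 2 ^ (m₂ : ℕ) * (x i₀ / 2 ^ (m₂ : ℕ)) :=
        Nat.mul_lt_mul_of_pos_right (Nat.pow_lt_pow_right (by norm_num) hm12) h5
      simp only [hx']
      omega
    have hsum : ∑ j, x' j < n := by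
      rw [← hx]
      exact Finset.sum_lt_sum (fun j _ => hle j) ⟨i₀, Finset.mem_univ _, hlt'⟩
    obtain ⟨x'', h1, h2⟩ := ih _ hsum x' rfl
    exact ⟨x'', h1, fun p hp => (hsame p hp).trans (h2 p hp)⟩

end Pool.Agent.MP2a1ef3.N3
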