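import Pool.Agent.Lib.MP_2a1ef3_lc.N3.Stm

/-!
Piece `strat_lin` for MP_2a1ef3_lc, dimension three.
-/

set_option autoImplicit false

namespace Pool.Agent.MP2a1ef3.N3

open Filter

private theorem mem_closure_fin (P : Finset V) (y : V) :
    y ∈ AddSubmonoid.closure {r | r ∈ P} ↔ ∃ n : V → ℕ, y = ∑ p ∈ P, n p • p := by
  constructor
  · intro hy
    induction hy using AddSubmonoid.closure_induction with
    | mem r hr =>
      refine ⟨Pi.single r 1, ?_⟩
      rw [Finset.sum_eq_single r]
      · rw [Pi.single_eq_same, one_smul]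
      · intro j _ hj
        rw [Pi.single_eq_of_ne hj, zero_smul]
      · intro h
        exact absurd hr h
    | zero => exact ⟨0, by simp⟩
    | add a b _ _ ha hb =>
      obtain ⟨c, rfl⟩ := ha
      obtain ⟨d, rfl⟩ := hb
      refine ⟨c + d, ?_⟩
      rw [← Finset.sum_add_distrib]
      exact Finset.sum_congr rfl fun i _ => (add_smul _ _ _).symm
  · rintro ⟨c, rfl⟩
    refine sum_mem fun i hi => nsmul_mem (AddSubmonoid.subset_closure ?_) _
    exact hi

private theorem ls_eq (c : V) (P : Finset V) : LS c {r | r ∈ P} = Lin c P := by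
  ext x
  constructor
  · rintro ⟨y, hy, rfl⟩
    obtain ⟨n, rfl⟩ := (mem_closure_fin P y).1 hy
    exact ⟨n, rfl⟩
  · rintro ⟨n, rfl⟩
    exact ⟨_, (mem_closure_fin P _).2 ⟨n, rfl⟩, rfl⟩

private theorem strat_iff (P : Set V) : Stratified P ↔ ∀ r ∈ P, Bd r := by
  constructor
  · intro h r hr
    by_contra hn
    unfold Bd at hn
    push Not at hn
    exact h.two r hr 0 1 2 (by decide) (by decide) (hn 0) (hn 1) (hn 2)
  · intro h
    refine ⟨?_, ?_⟩
    · intro p hp i j k hij hjk hi hj hk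
      obtain ⟨t, ht⟩ := h p hp
      have h1 : t = i ∨ t = j ∨ t = k := by
        have h2 := t.2
        have h3 := k.2
        rw [Fin.lt_def] at hij hjk
        rw [Fin.ext_iff, Fin.ext_iff, Fin.ext_iff]
        omega
      rcases h1 with rfl | rfl | rfl
      · exact hi ht
      · exact hj ht
      · exact hk ht
    · intro p _ q _ i j k l hij hjk hkl
      have h3 := l.2
      rw [Fin.lt_def] at hij hjk hkl
      omega

theorem p_strat_lin : S_strat_lin := by
  classical
  intro X
  constructor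
  · rintro ⟨F, hF, hS, hX⟩
    have hg : ∃ g : V × Set V → V × Finset V, ∀ p ∈ F, (g p).1 = p.1 ∧ {r | r ∈ (g p).2} = p.2 := by
      refine ⟨fun p => if h : p.2.Finite then (p.1, h.toFinset) else (0, ∅), ?_⟩
      intro p hp
      simp only [dif_pos (hS p hp).1]
      refine ⟨trivial, ?_⟩
      ext r
      simp
    obtain ⟨g, hg⟩ := hg
    refine ⟨hF.toFinset.image g, ?_, ?_⟩
    · intro q hq r hr
      obtain ⟨p, hp, rfl⟩ := Finset.mem_image.1 hq
      have hp' := hF.mem_toFinset.1 hp
      refine (strat_iff p.2).1 (hS p hp').2 r ?_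
      rw [← (hg p hp').2]
      exact hr
    · ext x
      rw [hX, Set.mem_iUnion₂]
      constructor
      · rintro ⟨p, hp, hx⟩
        refine ⟨g p, Finset.mem_image_of_mem g (hF.mem_toFinset.2 hp), ?_⟩
        rw [← ls_eq, (hg p hp).1, (hg p hp).2]
        exact hx
      · rintro ⟨q, hq, hx⟩
        obtain ⟨p, hp, rfl⟩ := Finset.mem_image.1 hq
        have hp' := hF.mem_toFinset.1 hp
        rw [← ls_eq, (hg p hp').1, (hg p hp').2] at hx
        exact ⟨p, hp', hx⟩
  · rintro ⟨T, hT, rfl⟩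
    refine ⟨(fun p : V × Finset V => (p.1, {r | r ∈ p.2})) '' {p | p ∈ T},
      (Finset.finite_toSet T).image _, ?_, ?_⟩
    · rintro _ ⟨p, hp, rfl⟩
      exact ⟨Finset.finite_toSet p.2, (strat_iff _).2 (hT p hp)⟩
    · intro x
      rw [Set.mem_iUnion₂]
      constructor
      · rintro ⟨p, hp, hx⟩
        refine ⟨_, ⟨p, hp, rfl⟩, ?_⟩
        rw [ls_eq]
        exact hx
      · rintro ⟨_, ⟨p, hp, rfl⟩, hx⟩
        rw [ls_eq] at hx
        exact ⟨p, hp, hx⟩

end Pool.Agent.MP2a1ef3.N3
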