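import Pool.Agent.Lib.MP_2a1ef3_lc.N3.Stm

set_option autoImplicit false

namespace Pool.Agent.MP2a1ef3.N3

open Filter

private theorem tame_lin_dual {P : Finset V} (hI : Ind P) : ∃ D : ℤ, 0 < D ∧ ∃ a : V → Z3,
    ∀ p ∈ P, ∀ q ∈ P, a p ⬝ᵥ zv q = if p = q then D else 0 := by
  classical
  -- independence over the rationals
  have hli : ∀ g : P → ℚ, ∑ p : P, g p • (fun j => ((p.1 j : ℕ) : ℚ) : Fin 3 → ℚ) = 0 → ∀ p, g p = 0 := by
    intro g hg p
    have hI' := Fintype.linearIndependent_iff.1 hI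
    have := hI' (fun p => (g p : ℝ)) (by
      ext j
      have h := congrFun hg j
      simp only [Finset.sum_apply, Pi.smul_apply, smul_eq_mul, Pi.zero_apply] at h ⊢
      unfold rv
      exact_mod_cast h) p
    exact_mod_cast this
  let f : (P → ℚ) →ₗ[ℚ] (Fin 3 → ℚ) :=
    Fintype.linearCombination ℚ (fun p : P => (fun j => ((p.1 j : ℕ) : ℚ) : Fin 3 → ℚ))
  have hf : LinearMap.ker f = ⊥ := by
    rw [LinearMap.ker_eq_bot']
    intro g hg
    ext p
    exact hli g (by simpa [f, Fintype.linearCombination_apply] using hg) p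
  obtain ⟨g, hg⟩ := LinearMap.exists_leftInverse_of_injective f hf
  let G : P → Fin 3 → ℚ := fun p j => g (fun i => if j = i then 1 else 0) p
  have hG : ∀ p q : P, ∑ j, G p j * ((q.1 j : ℕ) : ℚ) = if p = q then 1 else 0 := by
    intro p q
    have h1 : g (f (Pi.single q 1)) = Pi.single q 1 := by
      have := LinearMap.congr_fun hg (Pi.single q 1)
      simpa using this
    have h2 : f (Pi.single q 1) = (fun j => ((q.1 j : ℕ) : ℚ)) := by
      simp only [f]
      rw [Fintype.linearCombination_apply_single]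
      simp
    rw [h2, LinearMap.pi_apply_eq_sum_univ g] at h1
    have h3 := congrFun h1 p
    simp only [Finset.sum_apply, Pi.smul_apply, smul_eq_mul] at h3
    rw [Pi.single_apply] at h3
    rw [← h3]
    apply Finset.sum_congr rfl
    intro j _
    simp only [G]
    ring
  let D : ℕ := ∏ p : P, ∏ j, (G p j).den
  have hD : 0 < D := Finset.prod_pos fun p _ => Finset.prod_pos fun j _ => (G p j).den_pos
  have hA : ∀ (p : P) (j : Fin 3), ∃ z : ℤ, (z : ℚ) = D * G p j := by
    intro p j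
    have h1 : (G p j).den ∣ D := by
      refine Dvd.dvd.trans ?_ (Finset.dvd_prod_of_mem (fun p : P => ∏ j, (G p j).den)
        (Finset.mem_univ p))
      exact Finset.dvd_prod_of_mem (fun j => (G p j).den) (Finset.mem_univ j)
    obtain ⟨c, hc⟩ := h1
    refine ⟨c * (G p j).num, ?_⟩
    have h2 : (G p j) * (G p j).den = (G p j).num := Rat.mul_den_eq_num _
    rw [hc]
    push_cast
    rw [← h2]
    ring
  choose A hA using hA
  refine ⟨D, by exact_mod_cast hD, fun v => if h : v ∈ P then A ⟨v, h⟩ else 0, ?_⟩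
  intro p hp q hq
  simp only [dif_pos hp]
  have h1 : ((A ⟨p, hp⟩ ⬝ᵥ zv q : ℤ) : ℚ) = if p = q then (D : ℚ) else 0 := by
    have h2 := hG ⟨p, hp⟩ ⟨q, hq⟩
    simp only [dotProduct, zv]
    push_cast
    have h3 : ∑ j, (A ⟨p, hp⟩ j : ℚ) * (q j : ℚ) = D * ∑ j, G ⟨p, hp⟩ j * (q j : ℚ) := by
      rw [Finset.mul_sum]
      apply Finset.sum_congr rfl
      intro j _
      rw [hA]
      ring
    rw [h3, h2]
    simp only [Subtype.mk.injEq]
    split_ifs <;> simp
  split_ifs at h1 ⊢ with h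
  · exact_mod_cast h1
  · exact_mod_cast h1

private theorem tame_lin_char {P : Finset V} {D : ℤ} (hD : 0 < D) {a : V → Z3}
    (ha : ∀ p ∈ P, ∀ q ∈ P, a p ⬝ᵥ zv q = if p = q then D else 0) (c x : V) :
    x ∈ Lin c P ↔ (∀ j, D * (zv x j - zv c j) = ∑ p ∈ P, (a p ⬝ᵥ (zv x - zv c)) * (p j : ℤ)) ∧
      ∀ p ∈ P, 0 ≤ a p ⬝ᵥ (zv x - zv c) ∧ D ∣ a p ⬝ᵥ (zv x - zv c) := by
  classical
  constructor
  · rintro ⟨n, hn⟩
    have h1 : zv x - zv c = ∑ p ∈ P, (n p : ℤ) • zv p := by
      ext j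
      rw [hn]
      simp only [zv, Pi.sub_apply, Pi.add_apply, Finset.sum_apply, Pi.smul_apply, smul_eq_mul]
      push_cast
      ring
    have h2 : ∀ p ∈ P, a p ⬝ᵥ (zv x - zv c) = D * n p := by
      intro p hp
      rw [h1, dotProduct_sum]
      have : ∀ q ∈ P, a p ⬝ᵥ ((n q : ℤ) • zv q) = if p = q then D * n q else 0 := by
        intro q hq
        rw [dotProduct_smul, ha p hp q hq]
        split_ifs
        · simp [mul_comm]
        · simp
      rw [Finset.sum_congr rfl this, Finset.sum_ite_eq, if_pos hp]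
    refine ⟨?_, ?_⟩
    · intro j
      have h3 := congrFun h1 j
      simp only [Pi.sub_apply, Finset.sum_apply, Pi.smul_apply, smul_eq_mul] at h3
      rw [h3, Finset.mul_sum]
      apply Finset.sum_congr rfl
      intro p hp
      rw [h2 p hp]
      simp only [zv]
      ring
    · intro p hp
      rw [h2 p hp]
      exact ⟨mul_nonneg hD.le (Int.natCast_nonneg _), ⟨_, rfl⟩⟩
  · rintro ⟨h1, h2⟩
    have h3 : ∀ p, ∃ n : ℕ, p ∈ P → a p ⬝ᵥ (zv x - zv c) = D * n := by
      intro p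
      by_cases hp : p ∈ P
      · obtain ⟨h4, k, hk⟩ := h2 p hp
        rw [hk] at h4
        have h5 : 0 ≤ k := nonneg_of_mul_nonneg_right h4 hD
        exact ⟨k.toNat, fun _ => by rw [hk, Int.toNat_of_nonneg h5]⟩
      · exact ⟨0, fun h => absurd h hp⟩
    choose n hn using h3
    refine ⟨n, ?_⟩
    ext j
    have h4 : D * (zv x j - zv c j) = D * ∑ p ∈ P, (n p : ℤ) * (p j : ℤ) := by
      rw [h1 j, Finset.mul_sum]
      apply Finset.sum_congr rfl
      intro p hp
      rw [hn p hp]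
      ring
    have h5 := mul_left_cancel₀ hD.ne' h4
    have h6 : (x j : ℤ) = (c j : ℤ) + ∑ p ∈ P, (n p : ℤ) * (p j : ℤ) := by
      simp only [zv] at h5
      linarith
    simp only [Pi.add_apply, Finset.sum_apply, Pi.smul_apply, smul_eq_mul]
    exact_mod_cast h6

theorem p_tame_lin : S_tame_lin := by
  intro c P hP
  classical
  obtain ⟨D, hD, a, ha⟩ := tame_lin_dual hP
  set g : Fin 3 → Z3 := fun j => D • (Pi.single j 1 : Z3) - ∑ p ∈ P, (p j : ℤ) • a p with hg
  have hgx : ∀ (j : Fin 3) (y : Z3), g j ⬝ᵥ y = D * y j - ∑ p ∈ P, (a p ⬝ᵥ y) * (p j : ℤ) := by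
    intro j y
    simp only [hg]
    rw [sub_dotProduct, smul_dotProduct, single_dotProduct, sum_dotProduct, smul_eq_mul, one_mul]
    congr 1
    apply Finset.sum_congr rfl
    intro p _
    rw [smul_dotProduct, smul_eq_mul, mul_comm]
  set H : Finset Z3 := (Finset.univ.image g) ∪ P.image a with hH
  set B : ℤ := ∑ h ∈ H, |h ⬝ᵥ zv c| with hB
  have hBh : ∀ h ∈ H, |h ⬝ᵥ zv c| ≤ B := fun h hh =>
    Finset.single_le_sum (f := fun h => |h ⬝ᵥ zv c|) (fun _ _ => abs_nonneg _) hh
  have hgH : ∀ j, g j ∈ H := fun j => Finset.mem_union_left _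
    (Finset.mem_image_of_mem _ (Finset.mem_univ j))
  have haH : ∀ p ∈ P, a p ∈ H := fun p hp => Finset.mem_union_right _
    (Finset.mem_image_of_mem _ hp)
  have hDn : ((D.toNat : ℕ) : ℤ) = D := Int.toNat_of_nonneg hD.le
  refine ⟨H, B, D.toNat, by omega, ?_⟩
  have key : ∀ x x' : V, (∀ j, ((D.toNat : ℕ) : ℤ) ∣ zv x j - zv x' j) →
      (∀ h ∈ H, h ⬝ᵥ zv x = h ⬝ᵥ zv x' ∨ (B < h ⬝ᵥ zv x ∧ B < h ⬝ᵥ zv x') ∨
      (h ⬝ᵥ zv x < -B ∧ h ⬝ᵥ zv x' < -B)) → x ∈ Lin c P → x' ∈ Lin c P := by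
    intro x x' hm hh hx
    rw [tame_lin_char hD ha] at hx ⊢
    obtain ⟨h1, h2⟩ := hx
    rw [hDn] at hm
    constructor
    · intro j
      have e1 : g j ⬝ᵥ zv x = g j ⬝ᵥ zv c := by
        have : g j ⬝ᵥ (zv x - zv c) = 0 := by
          rw [hgx, Pi.sub_apply, h1 j]
          ring
        rw [dotProduct_sub] at this
        linarith
      have e2 : g j ⬝ᵥ zv x' = g j ⬝ᵥ zv c := by
        have h3 := abs_le.1 (hBh _ (hgH j))
        rcases hh _ (hgH j) with h | ⟨h, -⟩ | ⟨h, -⟩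
        · rw [← h, e1]
        · rw [e1] at h
          linarith [h3.2]
        · rw [e1] at h
          linarith [h3.1]
      have e3 : g j ⬝ᵥ (zv x' - zv c) = 0 := by
        rw [dotProduct_sub, e2]
        ring
      rw [hgx, Pi.sub_apply] at e3
      linarith
    · intro p hp
      obtain ⟨h3, h4⟩ := h2 p hp
      constructor
      · have h5 := abs_le.1 (hBh _ (haH p hp))
        rw [dotProduct_sub] at h3 ⊢
        rcases hh _ (haH p hp) with h | ⟨-, h⟩ | ⟨h, -⟩
        · linarith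
        · linarith
        · linarith
      · have h5 : a p ⬝ᵥ (zv x' - zv c) = a p ⬝ᵥ (zv x - zv c) - a p ⬝ᵥ (zv x - zv x') := by
          simp only [dotProduct_sub]
          ring
        rw [h5]
        apply dvd_sub h4
        simp only [dotProduct]
        apply Finset.dvd_sum
        intro j _
        exact Dvd.dvd.mul_left (hm j) _
  intro x x' hm hh
  constructor
  · exact key x x' hm hh
  · apply key x' x
    · intro j
      have : zv x' j - zv x j = -(zv x j - zv x' j) := by ring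
      rw [this]
      exact (dvd_neg).2 (hm j)
    · intro h hhH
      rcases hh h hhH with h1 | ⟨h1, h2⟩ | ⟨h1, h2⟩
      · exact Or.inl h1.symm
      · exact Or.inr (Or.inl ⟨h2, h1⟩)
      · exact Or.inr (Or.inr ⟨h2, h1⟩)

end Pool.Agent.MP2a1ef3.N3
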