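import Pool.Agent.Lib.MP_2a1ef3_lc.N3.Stm

set_option autoImplicit false

namespace Pool.Agent.MP2a1ef3.N3

open Filter

private theorem tu_mono {X : Set V} {H H' : Finset Z3} {B B' : ℤ} {m m' : ℕ}
    (h : Tame X H B m) (hH : H ⊆ H') (hB : B ≤ B') (hm : m ∣ m') : Tame X H' B' m' := by
  intro x x' hx hh
  refine h x x' (fun j => (Int.natCast_dvd_natCast.2 hm).trans (hx j)) fun g hg => ?_
  rcases hh g (hH hg) with h | ⟨h1, h2⟩ | ⟨h1, h2⟩
  · exact Or.inl h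
  · exact Or.inr (Or.inl ⟨by linarith, by linarith⟩)
  · exact Or.inr (Or.inr ⟨by linarith, by linarith⟩)

private theorem tu_union {ι : Type} {T : Finset ι} {X : ι → Set V} {H : Finset Z3} {B : ℤ}
    {m : ℕ} (h : ∀ t ∈ T, Tame (X t) H B m) : Tame (⋃ t ∈ T, X t) H B m := by
  intro x x' hx hh
  simp only [Set.mem_iUnion, exists_prop]
  constructor
  · rintro ⟨t, ht, hxt⟩
    exact ⟨t, ht, (h t ht x x' hx hh).1 hxt⟩
  · rintro ⟨t, ht, hxt⟩
    exact ⟨t, ht, (h t ht x x' hx hh).2 hxt⟩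

theorem p_tame_us (h1 : S_us_lin) (h2 : S_lin_ind) (h3 : S_tame_lin) : S_tame_us := by
  classical
  intro S
  choose f hf1 hf2 using h2
  set T₀ := (S.map (fun p => (p.1, p.2.toFinset))).toFinset with hT₀
  set T : Finset (V × Finset V) := T₀.biUnion (fun p => f p.1 p.2) with hT
  have hX : US S = ⋃ t ∈ T, Lin t.1 t.2 := by
    rw [h1]
    ext x
    simp only [Set.mem_iUnion, hT, Finset.mem_biUnion, exists_prop]
    constructor
    · rintro ⟨p, hp, hx⟩
      rw [hf2, Set.mem_iUnion₂] at hx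
      obtain ⟨t, ht, hx⟩ := hx
      exact ⟨t, ⟨p, hp, ht⟩, hx⟩
    · rintro ⟨t, ⟨p, hp, ht⟩, hx⟩
      refine ⟨p, hp, ?_⟩
      rw [hf2, Set.mem_iUnion₂]
      exact ⟨t, ht, hx⟩
  have hind : ∀ t ∈ T, Ind t.2 := by
    intro t ht
    obtain ⟨p, hp, ht⟩ := Finset.mem_biUnion.1 ht
    exact (hf1 _ _ t ht).2
  have hex : ∀ t : V × Finset V, ∃ (H : Finset Z3) (B : ℤ) (m : ℕ), 0 < m ∧
      (t ∈ T → Tame (Lin t.1 t.2) H B m) := by
    intro t
    by_cases ht : t ∈ T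
    · obtain ⟨H, B, m, hm, h⟩ := h3 t.1 (hind t ht)
      exact ⟨H, B, m, hm, fun _ => h⟩
    · exact ⟨∅, 0, 1, one_pos, fun h => absurd h ht⟩
  choose Hf Bf mf hmf hTf using hex
  refine ⟨T.biUnion Hf ∪ Finset.univ.image (fun i : Fin 3 => (Pi.single i 1 : Z3)),
    ∑ t ∈ T, |Bf t|, ∏ t ∈ T, mf t, Finset.prod_pos fun t _ => hmf t,
    Finset.sum_nonneg fun t _ => abs_nonneg _, ?_, ?_⟩
  · intro i
    exact Finset.mem_union_right _ (Finset.mem_image_of_mem _ (Finset.mem_univ i))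
  · rw [hX]
    refine tu_union fun t ht => tu_mono (hTf t ht) ?_ ?_ (Finset.dvd_prod_of_mem mf ht)
    · exact (Finset.subset_biUnion_of_mem Hf ht).trans Finset.subset_union_left
    · exact (le_abs_self _).trans
        (Finset.single_le_sum (f := fun t => |Bf t|) (fun t _ => abs_nonneg _) ht)

end Pool.Agent.MP2a1ef3.N3
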