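import Pool.Agent.Lib.MP_2a1ef3_lc.N3.Stm

/-!
Piece `trich` for MP_2a1ef3_lc, dimension three.
-/

set_option autoImplicit false

namespace Pool.Agent.MP2a1ef3.N3

open Filter

theorem p_trich : S_trich := by
  intro U x₀ h0 h
  by_cases hA : ∀ B : ℤ, ∀ᶠ x in (U : Filter V), B < h ⬝ᵥ zv x
  · exact Or.inr (Or.inl hA)
  by_cases hC : ∀ B : ℤ, ∀ᶠ x in (U : Filter V), h ⬝ᵥ zv x < B
  · exact Or.inr (Or.inr hC)
  left
  push Not at hA hC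
  obtain ⟨B₁, h1⟩ := hA
  obtain ⟨B₂, h2⟩ := hC
  have h3 : ∀ᶠ x in (U : Filter V), ∃ ξ ∈ Set.Icc B₂ B₁, h ⬝ᵥ zv x = ξ := by
    filter_upwards [h1, h2] with x hx1 hx2
    exact ⟨_, ⟨hx2, hx1⟩, rfl⟩
  obtain ⟨ξ, -, hξ⟩ := (Ultrafilter.eventually_exists_mem_iff (Set.finite_Icc B₂ B₁)).1 h3
  have h4 : h ⬝ᵥ x₀ = ξ := by
    apply h0
    intro N _
    filter_upwards [hξ] with x hx
    rw [hx, sub_self]
    exact dvd_zero _
  rw [h4]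
  exact hξ

end Pool.Agent.MP2a1ef3.N3
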