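import Pool.Agent.Lib.MP_2a1ef3_lc.N3.Stm

set_option autoImplicit false

namespace Pool.Agent.MP2a1ef3.N3

open Filter

private theorem ucov_corner_dp (f x : R3) (i : Fin 3) :
    dp f x = f i * x i + f (i + 1) * x (i + 1) + f (i + 2) * x (i + 2) := by
  fin_cases i
  · rfl
  · show _ = f 1 * x 1 + f 2 * x 2 + f 0 * x 0
    unfold dp
    ring
  · show _ = f 2 * x 2 + f 0 * x 0 + f 1 * x 1
    unfold dp
    ring

private theorem ucov_corner_ne1 (i : Fin 3) : i + 1 ≠ i := by revert i; decide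
private theorem ucov_corner_ne2 (i : Fin 3) : i + 2 ≠ i := by revert i; decide
private theorem ucov_corner_ne3 (i : Fin 3) : i + 1 ≠ i + 2 := by revert i; decide
private theorem ucov_corner_cases (i t : Fin 3) : t = i ∨ t = i + 1 ∨ t = i + 2 := by
  revert i t; decide

private theorem ucov_corner_add {G : Finset V} {x y : R3} (hx : x ∈ ccone G) (hy : y ∈ ccone G) :
    x + y ∈ ccone G := by
  obtain ⟨l, h1, rfl⟩ := hx
  obtain ⟨m, h2, rfl⟩ := hy
  refine ⟨fun p => l p + m p, fun p hp => add_nonneg (h1 p hp) (h2 p hp), ?_⟩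
  rw [← Finset.sum_add_distrib]
  apply Finset.sum_congr rfl
  intro p _
  rw [add_smul]

private theorem ucov_corner_single {G : Finset V} {p : V} (hp : p ∈ G) {c : ℝ} (hc : 0 ≤ c) :
    c • rv p ∈ ccone G := by
  classical
  refine ⟨fun q => if q = p then c else 0, ?_, ?_⟩
  · intro q _
    show 0 ≤ (if q = p then c else 0)
    split_ifs
    · exact hc
    · exact le_refl _
  · have h1 : ∀ q ∈ G, (if q = p then c else (0 : ℝ)) • rv q = if q = p then c • rv p else 0 := by
      intro q _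
      split_ifs with h
      · rw [h]
      · rw [zero_smul]
    rw [Finset.sum_congr rfl h1, Finset.sum_ite_eq', if_pos hp]

private theorem ucov_corner_par {i : Fin 3} {k : V} (h1 : k (i + 1) = 0) (h2 : k (i + 2) = 0) :
    Par (rv k) (rv (ev i)) := by
  intro x
  fin_cases i
  · have e1 : k 1 = 0 := h1
    have e2 : k 2 = 0 := h2
    simp [dt, rv, ev, e1, e2]
  · have e1 : k 2 = 0 := h1
    have e2 : k 0 = 0 := h2
    simp [dt, rv, ev, e1, e2]
  · have e1 : k 0 = 0 := h1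
    have e2 : k 1 = 0 := h2
    simp [dt, rv, ev, e1, e2]

theorem p_ucov_corner (h1 : S_ucov_of_gens) : S_ucov_corner := by
  classical
  intro CC F hF i hL hV
  have n1 := ucov_corner_ne1 i
  have n2 := ucov_corner_ne2 i
  have n3 := ucov_corner_ne3 i
  -- the number R
  obtain ⟨R, hR⟩ : ∃ R : ℕ, ∀ k ∈ Vk CC, k i ≤ R * (k (i + 1) + k (i + 2)) := by
    refine ⟨∑ k ∈ Vk CC, k i, ?_⟩
    intro k hk
    have h2 : 1 ≤ k (i + 1) + k (i + 2) := by
      by_contra h3
      exact hV k hk (ucov_corner_par (by omega) (by omega))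
    have h3 : k i ≤ ∑ k ∈ Vk CC, k i :=
      Finset.single_le_sum (f := fun k : V => k i) (fun _ _ => Nat.zero_le _) hk
    calc k i ≤ (∑ k ∈ Vk CC, k i) * 1 := by rw [mul_one]; exact h3
      _ ≤ _ := Nat.mul_le_mul_left _ h2
  obtain ⟨f, hf⟩ : ∃ f : R3, f = fun t => if t = i then (1 : ℝ) else -(R : ℝ) := ⟨_, rfl⟩
  have hfx : ∀ x : R3, dp f x = x i - R * (x (i + 1) + x (i + 2)) := by
    intro x
    rw [ucov_corner_dp f x i, hf]
    simp only [if_neg n1, if_neg n2, if_true]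
    ring
  obtain ⟨g2, hg2⟩ : ∃ g2 : V, g2 = fun t => if t = i then R else if t = i + 1 then 1 else 0 :=
    ⟨_, rfl⟩
  obtain ⟨g3, hg3⟩ : ∃ g3 : V, g3 = fun t => if t = i then R else if t = i + 2 then 1 else 0 :=
    ⟨_, rfl⟩
  have a1 : g2 i = R := by rw [hg2]; exact if_pos rfl
  have a2 : g2 (i + 1) = 1 := by
    rw [hg2]
    show (if i + 1 = i then R else if i + 1 = i + 1 then 1 else 0) = 1
    rw [if_neg n1, if_pos rfl]
  have a3 : g2 (i + 2) = 0 := by
    rw [hg2]
    show (if i + 2 = i then R else if i + 2 = i + 1 then 1 else 0) = 0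
    rw [if_neg n2, if_neg n3.symm]
  have b1 : g3 i = R := by rw [hg3]; exact if_pos rfl
  have b2 : g3 (i + 1) = 0 := by
    rw [hg3]
    show (if i + 1 = i then R else if i + 1 = i + 2 then 1 else 0) = 0
    rw [if_neg n1, if_neg n3]
  have b3 : g3 (i + 2) = 1 := by
    rw [hg3]
    show (if i + 2 = i then R else if i + 2 = i + 2 then 1 else 0) = 1
    rw [if_neg n2, if_pos rfl]
  have c1 : ev i i = 1 := Pi.single_eq_same _ _
  have c2 : ev i (i + 1) = 0 := Pi.single_eq_of_ne n1 _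
  have c3 : ev i (i + 2) = 0 := Pi.single_eq_of_ne n2 _
  have hfe : dp f (rv (ev i)) = 1 := by
    rw [hfx]
    show ((ev i i : ℕ) : ℝ) - R * (((ev i (i + 1) : ℕ) : ℝ) + ((ev i (i + 2) : ℕ) : ℝ)) = 1
    rw [c1, c2, c3]
    norm_num
  have hev : ∀ᶠ x in (F : Filter V), 0 < dp f (rv x) := hL f (by rw [hfe]; exact one_pos)
  apply h1 (G := {ev i, g2, g3}) (F := F)
  · intro g hg
    rw [Finset.mem_insert, Finset.mem_insert, Finset.mem_singleton] at hg
    rcases hg with rfl | rfl | rfl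
    · exact ⟨i + 1, c2⟩
    · exact ⟨i + 2, a3⟩
    · exact ⟨i + 1, b2⟩
  · filter_upwards [hev] with x hx
    have h2 : rv x = (dp f (rv x)) • rv (ev i) + (x (i + 1) : ℝ) • rv g2 +
        (x (i + 2) : ℝ) • rv g3 := by
      funext t
      rw [hfx]
      show ((x t : ℕ) : ℝ) = ((x i : ℕ) - R * ((x (i + 1) : ℕ) + (x (i + 2) : ℕ)) : ℝ) *
        ((ev i t : ℕ) : ℝ) + (x (i + 1) : ℝ) * ((g2 t : ℕ) : ℝ) + (x (i + 2) : ℝ) * ((g3 t : ℕ) : ℝ)
      rcases ucov_corner_cases i t with rfl | rfl | rfl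
      · rw [c1, a1, b1]
        push_cast
        ring
      · rw [c2, a2, b2]
        push_cast
        ring
      · rw [c3, a3, b3]
        push_cast
        ring
    rw [h2]
    exact ucov_corner_add (ucov_corner_add (ucov_corner_single (by simp) hx.le)
      (ucov_corner_single (by simp) (Nat.cast_nonneg _)))
      (ucov_corner_single (by simp) (Nat.cast_nonneg _))
  · intro C hC
    refine ⟨f, ?_, ?_, hev⟩
    · intro g hg
      rw [Finset.mem_insert, Finset.mem_insert, Finset.mem_singleton] at hg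
      rcases hg with rfl | rfl | rfl
      · rw [hfe]
        norm_num
      · rw [hfx]
        show (0 : ℝ) ≤ ((g i : ℕ) : ℝ) - R * (((g (i + 1) : ℕ) : ℝ) + ((g (i + 2) : ℕ) : ℝ))
        rw [a1, a2, a3]
        norm_num
      · rw [hfx]
        show (0 : ℝ) ≤ ((g i : ℕ) : ℝ) - R * (((g (i + 1) : ℕ) : ℝ) + ((g (i + 2) : ℕ) : ℝ))
        rw [b1, b2, b3]
        norm_num
    · intro k hk
      have hk' : k ∈ Vk CC := Finset.mem_biUnion.2 ⟨C, hC, hk⟩
      rw [hfx]
      show ((k i : ℕ) : ℝ) - R * (((k (i + 1) : ℕ) : ℝ) + ((k (i + 2) : ℕ) : ℝ)) ≤ 0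
      have h2 := hR k hk'
      have h3 : ((k i : ℕ) : ℝ) ≤ R * (((k (i + 1) : ℕ) : ℝ) + ((k (i + 2) : ℕ) : ℝ)) := by
        exact_mod_cast h2
      linarith

end Pool.Agent.MP2a1ef3.N3
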