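import Pool.Agent.Lib.MP_2a1ef3_lc.N3.Stm

/-!
# MP_2a1ef3_lc, dimension three: filters at points with a free line (piece `ucov_free`)
-/

set_option autoImplicit false

namespace Pool.Agent.MP2a1ef3.N3

open Filter

/-- a natural multiple of `r e_i + e_j` -/
private theorem ucov_free_gv {i j : Fin 3} (hij : j ≠ i) {r : ℚ} (hr : 0 ≤ r) (t : Fin 3) :
    rv (gv i j r) t = (r.den : ℝ) * (if t = i then (r : ℝ) else if t = j then 1 else 0) := by
  unfold rv gv
  by_cases h1 : t = i
  · rw [if_pos h1, if_pos h1]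
    have h2 : ((r.num.toNat : ℤ)) = r.num := Int.toNat_of_nonneg (Rat.num_nonneg.2 hr)
    have h3 : ((r.num.toNat : ℕ) : ℚ) = r.num := by exact_mod_cast h2
    have h4 : ((r.num.toNat : ℕ) : ℚ) = r.den * r := by
      rw [h3, mul_comm, Rat.mul_den_eq_num]
    exact_mod_cast h4
  · rw [if_neg h1, if_neg h1]
    by_cases h2 : t = j
    · rw [if_pos h2, if_pos h2, mul_one]
    · rw [if_neg h2, if_neg h2, mul_zero]
      simp

private theorem ucov_free_dp {i j l : Fin 3} (hij : i ≠ j) (hil : i ≠ l) (hjl : j ≠ l)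
    (f x : R3) : dp f x = f i * x i + f j * x j + f l * x l := by
  unfold dp
  fin_cases i <;> fin_cases j <;> fin_cases l <;> simp at hij hil hjl ⊢ <;> ring

private theorem ucov_free_all {i j l : Fin 3} (hij : i ≠ j) (hil : i ≠ l) (hjl : j ≠ l)
    (t : Fin 3) : t = i ∨ t = j ∨ t = l := by
  revert i j l t
  decide

/-- the strip between two lines -/
private theorem ucov_free_strip {i j l : Fin 3} (hij : i ≠ j) (hil : i ≠ l) (hjl : j ≠ l)
    {a a' b b' : ℚ} (ha : 0 ≤ a) (haa : a < a') (hb : 0 ≤ b) (hbb : b < b') {x : R3}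
    (hx : ∀ t, 0 ≤ x t) (h1 : (a : ℝ) * x j + b * x l ≤ x i)
    (h2 : x i ≤ (a' : ℝ) * x j + b' * x l) :
    x ∈ ccone {gv i j a, gv i j a', gv i l b, gv i l b'} := by
  classical
  have ha' : 0 ≤ a' := ha.trans haa.le
  have hb' : 0 ≤ b' := hb.trans hbb.le
  have haaR : (a : ℝ) < a' := by exact_mod_cast haa
  have hbbR : (b : ℝ) < b' := by exact_mod_cast hbb
  -- the parameter
  obtain ⟨θ, hθ0, hθ1, hθ⟩ : ∃ θ : ℝ, 0 ≤ θ ∧ θ ≤ 1 ∧
      x i = (a : ℝ) * x j + b * x l + θ * ((a' - a) * x j + (b' - b) * x l) := by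
    have hW : 0 ≤ ((a' : ℝ) - a) * x j + (b' - b) * x l :=
      add_nonneg (mul_nonneg (by linarith) (hx j)) (mul_nonneg (by linarith) (hx l))
    rcases hW.eq_or_lt with hW0 | hW0
    · exact ⟨0, le_refl _, zero_le_one, by linarith⟩
    · refine ⟨(x i - (a * x j + b * x l)) / ((a' - a) * x j + (b' - b) * x l),
        div_nonneg (by linarith) hW, (div_le_one hW0).2 (by linarith), ?_⟩
      rw [div_mul_cancel₀ _ hW0.ne']
      ring
  have hden : ∀ r : ℚ, (0 : ℝ) < r.den := fun r => by exact_mod_cast r.den_pos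
  -- the four vectors are different, use a general sum lemma
  have hne1 : gv i j a ≠ gv i j a' := by
    intro h
    have e1 := congrFun (congrArg rv h) i
    have e2 := congrFun (congrArg rv h) j
    rw [ucov_free_gv hij.symm ha, ucov_free_gv hij.symm ha'] at e1 e2
    simp only [if_true] at e1
    simp only [if_neg hij.symm, if_true, mul_one] at e2
    rw [e2] at e1
    exact haaR.ne (mul_left_cancel₀ (hden a').ne' e1)
  have hne2 : gv i l b ≠ gv i l b' := by
    intro h
    have e1 := congrFun (congrArg rv h) i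
    have e2 := congrFun (congrArg rv h) l
    rw [ucov_free_gv hil.symm hb, ucov_free_gv hil.symm hb'] at e1 e2
    simp only [if_true] at e1
    simp only [if_neg hil.symm, if_true, mul_one] at e2
    rw [e2] at e1
    exact hbbR.ne (mul_left_cancel₀ (hden b').ne' e1)
  have hne3 : ∀ {r r' : ℚ}, 0 ≤ r → 0 ≤ r' → gv i j r ≠ gv i l r' := by
    intro r r' hr hr' h
    have e2 := congrFun (congrArg rv h) j
    rw [ucov_free_gv hij.symm hr, ucov_free_gv hil.symm hr'] at e2
    rw [if_neg hij.symm, if_pos rfl, mul_one, if_neg hij.symm, if_neg hjl, mul_zero] at e2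
    exact (hden r).ne' e2
  refine ⟨fun p => if p = gv i j a then (1 - θ) * x j / a.den
    else if p = gv i j a' then θ * x j / a'.den
    else if p = gv i l b then (1 - θ) * x l / b.den else θ * x l / b'.den, fun p _ => ?_, ?_⟩
  · simp only
    have h3 : 0 ≤ 1 - θ := by linarith
    split_ifs
    · exact div_nonneg (mul_nonneg h3 (hx j)) (hden a).le
    · exact div_nonneg (mul_nonneg hθ0 (hx j)) (hden a').le
    · exact div_nonneg (mul_nonneg h3 (hx l)) (hden b).le
    · exact div_nonneg (mul_nonneg hθ0 (hx l)) (hden b').le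
  · rw [Finset.sum_insert (by simp [hne1, hne3 ha hb, hne3 ha hb']),
      Finset.sum_insert (by simp [hne3 ha' hb, hne3 ha' hb']), Finset.sum_pair hne2]
    simp only [if_true, if_neg hne1.symm, if_neg (hne3 ha hb).symm, if_neg (hne3 ha hb').symm,
      if_neg (hne3 ha' hb).symm, if_neg (hne3 ha' hb').symm, if_neg hne2.symm]
    funext t
    simp only [Pi.add_apply, Pi.smul_apply, smul_eq_mul]
    rw [ucov_free_gv hij.symm ha, ucov_free_gv hij.symm ha', ucov_free_gv hil.symm hb,
      ucov_free_gv hil.symm hb']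
    have hda := (hden a).ne'
    have hda' := (hden a').ne'
    have hdb := (hden b).ne'
    have hdb' := (hden b').ne'
    rcases ucov_free_all hij hil hjl t with rfl | rfl | rfl
    · simp only [if_true]
      rw [hθ]
      field_simp
      ring
    · simp only [if_neg hij.symm, if_true, if_neg hjl]
      field_simp
      ring
    · simp only [if_neg hil.symm, if_true, if_neg hjl.symm]
      field_simp
      ring

private theorem ucov_free_third : ∀ a b : Fin 3, ∃ c : Fin 3, c ≠ a ∧ c ≠ b := by
  decide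

/-- perturbation to a functional without zero coefficients -/
private theorem ucov_free_perturb (K : Finset V) {p h : R3} (hp : ∀ j, 0 ≤ p j)
    (hp0 : ∀ i, ¬ Par (rv (ev i)) p) (h0 : dp h p = 0) (hK : ∀ k ∈ K, dp h (rv k) ≠ 0) :
    ∃ g : R3, dp g p = 0 ∧ (∀ i, g i ≠ 0) ∧ ∀ k ∈ K,
      (0 < dp h (rv k) → 0 < dp g (rv k)) ∧ (dp h (rv k) < 0 → dp g (rv k) < 0) := by
  classical
  -- two positive coordinates
  have htwo : ∀ i, ∃ j, j ≠ i ∧ p j ≠ 0 := by
    intro i
    by_contra hcon
    push Not at hcon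
    apply hp0 i
    have hpi : p = p i • rv (ev i) := by
      funext j
      by_cases hj : j = i
      · subst hj
        unfold rv ev
        simp
      · rw [hcon j hj]
        unfold rv ev
        simp [Pi.single_eq_of_ne hj]
    intro x
    rw [hpi]
    unfold dt
    simp only [Pi.smul_apply, smul_eq_mul]
    ring
  obtain ⟨a, -, ha⟩ := htwo 0
  obtain ⟨b, hba, hb⟩ := htwo a
  obtain ⟨c, hca, hcb⟩ := ucov_free_third a b
  have hpa : 0 < p a := lt_of_le_of_ne (hp a) (Ne.symm ha)
  have hpb : 0 < p b := lt_of_le_of_ne (hp b) (Ne.symm hb)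
  obtain ⟨w, hw⟩ : ∃ w : R3, w = fun t => if t = b then -(p c + p a) / p b else 1 := ⟨_, rfl⟩
  have hwb : w b = -(p c + p a) / p b := by rw [hw]; simp
  have hwa : w a = 1 := by rw [hw]; simp [hba.symm]
  have hwc : w c = 1 := by rw [hw]; simp [hcb]
  have hw0 : dp w p = 0 := by
    rw [ucov_free_dp (i := a) (j := b) (l := c) hba.symm hca.symm hcb.symm, hwa, hwb, hwc]
    field_simp
    ring
  have hwi : ∀ i, w i ≠ 0 := by
    intro i
    rcases ucov_free_all (i := a) (j := b) (l := c) hba.symm hca.symm hcb.symm i with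
      rfl | rfl | rfl
    · rw [hwa]; exact one_ne_zero
    · rw [hwb]
      exact div_ne_zero (by have := hp c; linarith) hpb.ne'
    · rw [hwc]; exact one_ne_zero
  -- small `ε`
  have hsmall : ∀ᶠ ε : ℝ in nhds 0, ∀ k ∈ K,
      (0 < dp h (rv k) → 0 < dp h (rv k) + ε * dp w (rv k)) ∧
      (dp h (rv k) < 0 → dp h (rv k) + ε * dp w (rv k) < 0) := by
    rw [Filter.eventually_all_finset]
    intro k _
    have hc : Tendsto (fun ε : ℝ => dp h (rv k) + ε * dp w (rv k)) (nhds 0)
        (nhds (dp h (rv k) + 0 * dp w (rv k))) := by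
      apply Continuous.tendsto
      fun_prop
    rw [zero_mul, add_zero] at hc
    have e1 : ∀ᶠ ε : ℝ in nhds 0, (0 < dp h (rv k) → 0 < dp h (rv k) + ε * dp w (rv k)) := by
      by_cases hpos : 0 < dp h (rv k)
      · filter_upwards [hc.eventually (Ioi_mem_nhds hpos)] with ε hε _
        exact hε
      · exact Filter.Eventually.of_forall fun ε hε => absurd hε hpos
    have e2 : ∀ᶠ ε : ℝ in nhds 0, (dp h (rv k) < 0 → dp h (rv k) + ε * dp w (rv k) < 0) := by
      by_cases hneg : dp h (rv k) < 0
      · filter_upwards [hc.eventually (Iio_mem_nhds hneg)] with ε hε _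
        exact hε
      · exact Filter.Eventually.of_forall fun ε hε => absurd hε hneg
    exact e1.and e2
  rw [Metric.eventually_nhds_iff] at hsmall
  obtain ⟨δ, hδ, hsmall⟩ := hsmall
  -- avoid finitely many values
  obtain ⟨ε, hε1, hε2⟩ : ∃ ε ∈ Set.Ioo 0 δ, ε ∉ ((Finset.univ.image fun i => -(h i) / w i :
      Finset ℝ) : Set ℝ) := by
    have hinf : (Set.Ioo 0 δ).Infinite := Set.Ioo_infinite hδ
    exact hinf.exists_notMem_finset _
  refine ⟨fun i => h i + ε * w i, ?_, fun i h1 => ?_, fun k hk => ?_⟩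
  · have : dp (fun i => h i + ε * w i) p = dp h p + ε * dp w p := by
      unfold dp
      ring
    rw [this, h0, hw0]
    ring
  · apply hε2
    rw [Finset.mem_coe, Finset.mem_image]
    refine ⟨i, Finset.mem_univ _, ?_⟩
    have h2 := hwi i
    field_simp
    linarith
  · have h3 : dp (fun i => h i + ε * w i) (rv k) = dp h (rv k) + ε * dp w (rv k) := by
      unfold dp
      ring
    rw [h3]
    refine hsmall ?_ k hk
    rw [Real.dist_eq, sub_zero, abs_of_pos hε1.1]
    exact hε1.2

/-- the functional in normal form -/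
private theorem ucov_free_normal {p g : R3} (hp : ∀ j, 0 ≤ p j) (hp0 : p ≠ 0)
    (h0 : dp g p = 0) (hg : ∀ i, g i ≠ 0) :
    ∃ i j l : Fin 3, i ≠ j ∧ i ≠ l ∧ j ≠ l ∧ 0 < -(g j) / g i ∧ 0 < -(g l) / g i := by
  have hsome : ∃ t, p t ≠ 0 := by
    by_contra hcon
    push Not at hcon
    exact hp0 (funext hcon)
  obtain ⟨t, ht⟩ := hsome
  have hpt : 0 < p t := lt_of_le_of_ne (hp t) (Ne.symm ht)
  have hnotpos : ¬ ∀ i, 0 < g i := by
    intro h
    have h1 : 0 < dp g p := by
      unfold dp
      have e0 := mul_nonneg (h 0).le (hp 0)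
      have e1 := mul_nonneg (h 1).le (hp 1)
      have e2 := mul_nonneg (h 2).le (hp 2)
      have e3 := mul_pos (h t) hpt
      fin_cases t <;> simp at e3 <;> linarith
    linarith
  have hnotneg : ¬ ∀ i, g i < 0 := by
    intro h
    have h1 : dp g p < 0 := by
      unfold dp
      have e0 := mul_nonpos_of_nonpos_of_nonneg (h 0).le (hp 0)
      have e1 := mul_nonpos_of_nonpos_of_nonneg (h 1).le (hp 1)
      have e2 := mul_nonpos_of_nonpos_of_nonneg (h 2).le (hp 2)
      have e3 := mul_neg_of_neg_of_pos (h t) hpt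
      fin_cases t <;> simp at e3 <;> linarith
    linarith
  have hpn : ∀ {a b : ℝ}, a < 0 → 0 < b → 0 < -a / b := fun ha hb => div_pos (by linarith) hb
  have hnp : ∀ {a b : ℝ}, 0 < a → b < 0 → 0 < -a / b := fun ha hb =>
    div_pos_of_neg_of_neg (by linarith) hb
  have c0 := lt_or_gt_of_ne (hg 0)
  have c1 := lt_or_gt_of_ne (hg 1)
  have c2 := lt_or_gt_of_ne (hg 2)
  rcases c0 with c0 | c0 <;> rcases c1 with c1 | c1 <;> rcases c2 with c2 | c2
  · exact absurd (fun i => by fin_cases i <;> assumption) hnotneg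
  · exact ⟨2, 0, 1, by decide, by decide, by decide, hpn c0 c2, hpn c1 c2⟩
  · exact ⟨1, 0, 2, by decide, by decide, by decide, hpn c0 c1, hpn c2 c1⟩
  · exact ⟨0, 1, 2, by decide, by decide, by decide, hnp c1 c0, hnp c2 c0⟩
  · exact ⟨0, 1, 2, by decide, by decide, by decide, hpn c1 c0, hpn c2 c0⟩
  · exact ⟨1, 0, 2, by decide, by decide, by decide, hnp c0 c1, hnp c2 c1⟩
  · exact ⟨2, 0, 1, by decide, by decide, by decide, hnp c0 c2, hnp c1 c2⟩
  · exact absurd (fun i => by fin_cases i <;> assumption) hnotpos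

/-- finitely many strict inequalities near `s` -/
private theorem ucov_free_close (K : Finset V) (f : ℝ → R3)
    (hf : ∀ t, Continuous fun ε : ℝ => f ε t) :
    ∀ᶠ ε : ℝ in nhds 0, ∀ k ∈ K, 0 < dp (f 0) (rv k) → 0 < dp (f ε) (rv k) := by
  rw [Filter.eventually_all_finset]
  intro k _
  by_cases hpos : 0 < dp (f 0) (rv k)
  · have hc : Tendsto (fun ε : ℝ => dp (f ε) (rv k)) (nhds 0) (nhds (dp (f 0) (rv k))) := by
      apply Continuous.tendsto (x := (0 : ℝ))
        (f := fun ε : ℝ => dp (f ε) (rv k))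
      unfold dp
      exact (((hf 0).mul continuous_const).add ((hf 1).mul continuous_const)).add
        ((hf 2).mul continuous_const)
    filter_upwards [hc.eventually (Ioi_mem_nhds hpos)] with ε hε _
    exact hε
  · exact Filter.Eventually.of_forall fun ε hε => absurd hε hpos

private def ucov_free_ff (i j : Fin 3) (u v w : ℝ) : R3 :=
  fun t => if t = i then u else if t = j then v else w

private theorem ucov_free_dff {i j l : Fin 3} (hij : i ≠ j) (hil : i ≠ l) (hjl : j ≠ l)
    (u v w : ℝ) (x : R3) :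
    dp (ucov_free_ff i j u v w) x = u * x i + v * x j + w * x l := by
  rw [ucov_free_dp hij hil hjl]
  unfold ucov_free_ff
  rw [if_pos rfl, if_neg hij.symm, if_pos rfl, if_neg hil.symm, if_neg hjl.symm]

private theorem ucov_free_dgv {i j l : Fin 3} (hij : i ≠ j) (hil : i ≠ l) (hjl : j ≠ l)
    (u v w : ℝ) {r : ℚ} (hr : 0 ≤ r) :
    dp (ucov_free_ff i j u v w) (rv (gv i j r)) = r.den * (u * r + v) ∧
      dp (ucov_free_ff i j u v w) (rv (gv i l r)) = r.den * (u * r + w) := by
  constructor
  · rw [ucov_free_dff hij hil hjl, ucov_free_gv hij.symm hr, ucov_free_gv hij.symm hr,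
      ucov_free_gv hij.symm hr]
    simp only [if_true, if_neg hij.symm, if_neg hil.symm, if_neg hjl.symm]
    ring
  · rw [ucov_free_dff hij hil hjl, ucov_free_gv hil.symm hr, ucov_free_gv hil.symm hr,
      ucov_free_gv hil.symm hr]
    simp only [if_true, if_neg hij.symm, if_neg hil.symm, if_neg hjl]
    ring

theorem p_ucov_free (h1 : S_ucov_of_gens) : S_ucov_free := by
  classical
  intro CC F hF p hp hp0 hL hfree
  obtain ⟨h, hz, hC⟩ := hfree
  have hpne : p ≠ 0 := by
    intro h
    apply hp0 0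
    intro x
    rw [h]
    unfold dt
    simp
  have hK : ∀ k ∈ Vk CC, dp h (rv k) ≠ 0 := by
    intro k hk
    unfold Vk at hk
    rw [Finset.mem_biUnion] at hk
    obtain ⟨C, hCC, hkC⟩ := hk
    rcases hC C hCC with h2 | h2
    · exact (h2 k hkC).ne'
    · exact (h2 k hkC).ne
  obtain ⟨g, hg0, hgi, hgK⟩ := ucov_free_perturb (Vk CC) hp hp0 hz hK
  obtain ⟨i, j, l, hij, hil, hjl, hsj, hsl⟩ := ucov_free_normal hp hpne hg0 hgi
  obtain ⟨sj, hsjd⟩ : ∃ sj : ℝ, sj = -(g j) / g i := ⟨_, rfl⟩
  obtain ⟨sl, hsld⟩ : ∃ sl : ℝ, sl = -(g l) / g i := ⟨_, rfl⟩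
  rw [← hsjd] at hsj
  rw [← hsld] at hsl
  have hgid := hgi i
  have hN : ∀ x : R3, dp g x = g i * (x i - sj * x j - sl * x l) := by
    intro x
    rw [ucov_free_dp hij hil hjl, hsjd, hsld]
    field_simp
    ring
  have hpi : p i = sj * p j + sl * p l := by
    have h2 := hN p
    rw [hg0] at h2
    have h3 := (mul_eq_zero.1 h2.symm).resolve_left hgid
    linarith
  have hpjl : 0 < p j ∨ 0 < p l := by
    by_contra hcon
    push Not at hcon
    have e1 : p j = 0 := le_antisymm hcon.1 (hp j)
    have e2 : p l = 0 := le_antisymm hcon.2 (hp l)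
    apply hpne
    funext t
    rcases ucov_free_all hij hil hjl t with rfl | rfl | rfl
    · rw [hpi, e1, e2]
      simp
    · exact e1
    · exact e2
  -- closeness
  have hcl1 := ucov_free_close (Vk CC) (fun ε => ucov_free_ff i j 1 (-(sj + ε)) (-(sl + ε)))
    (by
      intro t
      unfold ucov_free_ff
      split_ifs <;> fun_prop)
  have hcl2 := ucov_free_close (Vk CC) (fun ε => ucov_free_ff i j (-1) (sj - ε) (sl - ε))
    (by
      intro t
      unfold ucov_free_ff
      split_ifs <;> fun_prop)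
  have hcl3 : ∀ᶠ ε : ℝ in nhds 0, ε < sj := Iio_mem_nhds hsj
  have hcl4 : ∀ᶠ ε : ℝ in nhds 0, ε < sl := Iio_mem_nhds hsl
  have hall := ((hcl1.and hcl2).and (hcl3.and hcl4))
  obtain ⟨ε, hε, ⟨⟨hc1, hc2⟩, hc3, hc4⟩⟩ : ∃ ε : ℝ, 0 < ε ∧ _ :=
    ((eventually_mem_nhdsWithin (a := (0 : ℝ)) (s := Set.Ioi 0)).and
      (hall.filter_mono nhdsWithin_le_nhds)).exists
  simp only [add_zero, sub_zero] at hc1 hc2
  obtain ⟨a, ha1, ha2⟩ := exists_rat_btwn (show sj - ε < sj by linarith)
  obtain ⟨a', ha1', ha2'⟩ := exists_rat_btwn (show sj < sj + ε by linarith)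
  obtain ⟨b, hb1, hb2⟩ := exists_rat_btwn (show sl - ε < sl by linarith)
  obtain ⟨b', hb1', hb2'⟩ := exists_rat_btwn (show sl < sl + ε by linarith)
  have ha0 : 0 ≤ a := by
    have : (0 : ℝ) ≤ a := by linarith
    exact_mod_cast this
  have hb0 : 0 ≤ b := by
    have : (0 : ℝ) ≤ b := by linarith
    exact_mod_cast this
  have haa : a < a' := by
    have : (a : ℝ) < a' := by linarith
    exact_mod_cast this
  have hbb : b < b' := by
    have : (b : ℝ) < b' := by linarith
    exact_mod_cast this
  have haaR : (a : ℝ) < a' := by linarith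
  have hbbR : (b : ℝ) < b' := by linarith
  have ha0' : 0 ≤ a' := ha0.trans haa.le
  have hb0' : 0 ≤ b' := hb0.trans hbb.le
  have hden : ∀ r : ℚ, (0 : ℝ) ≤ r.den := fun r => by exact_mod_cast r.den_pos.le
  -- limits
  have hLp : ∀ᶠ x in (F : Filter V), 0 < dp (ucov_free_ff i j (-1) a' b') (rv x) := by
    apply hL
    rw [ucov_free_dff hij hil hjl, hpi]
    have e1 := mul_nonneg (show 0 ≤ (a' : ℝ) - sj by linarith) (hp j)
    have e2 := mul_nonneg (show 0 ≤ (b' : ℝ) - sl by linarith) (hp l)
    rcases hpjl with h2 | h2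
    · have e3 := mul_pos (show 0 < (a' : ℝ) - sj by linarith) h2
      linarith
    · have e3 := mul_pos (show 0 < (b' : ℝ) - sl by linarith) h2
      linarith
  have hLm : ∀ᶠ x in (F : Filter V), 0 < dp (ucov_free_ff i j 1 (-a) (-b)) (rv x) := by
    apply hL
    rw [ucov_free_dff hij hil hjl, hpi]
    have e1 := mul_nonneg (show 0 ≤ sj - (a : ℝ) by linarith) (hp j)
    have e2 := mul_nonneg (show 0 ≤ sl - (b : ℝ) by linarith) (hp l)
    rcases hpjl with h2 | h2
    · have e3 := mul_pos (show 0 < sj - (a : ℝ) by linarith) h2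
      linarith
    · have e3 := mul_pos (show 0 < sl - (b : ℝ) by linarith) h2
      linarith
  have hkn : ∀ (k : V) t, 0 ≤ rv k t := by
    intro k t
    unfold rv
    exact Nat.cast_nonneg _
  apply h1 (CC := CC) (G := {gv i j a, gv i j a', gv i l b, gv i l b'}) (F := F)
  · intro v hv
    simp only [Finset.mem_insert, Finset.mem_singleton] at hv
    rcases hv with rfl | rfl | rfl | rfl
    · exact ⟨l, by unfold gv; rw [if_neg hil.symm, if_neg hjl.symm]⟩
    · exact ⟨l, by unfold gv; rw [if_neg hil.symm, if_neg hjl.symm]⟩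
    · exact ⟨j, by unfold gv; rw [if_neg hij.symm, if_neg hjl]⟩
    · exact ⟨j, by unfold gv; rw [if_neg hij.symm, if_neg hjl]⟩
  · filter_upwards [hLp, hLm] with x hx1 hx2
    rw [ucov_free_dff hij hil hjl] at hx1 hx2
    exact ucov_free_strip hij hil hjl ha0 haa hb0 hbb (hkn x) (by linarith) (by linarith)
  · intro C hCC
    -- the sign on `C`
    have hsign : (∀ k ∈ C, 0 < rv k i - sj * rv k j - sl * rv k l) ∨
        (∀ k ∈ C, rv k i - sj * rv k j - sl * rv k l < 0) := by
      have hCV : ∀ k ∈ C, k ∈ Vk CC := fun k hk => by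
        unfold Vk
        rw [Finset.mem_biUnion]
        exact ⟨C, hCC, hk⟩
      rcases lt_or_gt_of_ne hgid with hneg | hpos
      · rcases hC C hCC with h2 | h2
        · right
          intro k hk
          have h3 := (hgK k (hCV k hk)).1 (h2 k hk)
          rw [hN] at h3
          exact neg_of_mul_pos_right h3 hneg.le
        · left
          intro k hk
          have h3 := (hgK k (hCV k hk)).2 (h2 k hk)
          rw [hN] at h3
          exact pos_of_mul_neg_right h3 hneg.le
      · rcases hC C hCC with h2 | h2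
        · left
          intro k hk
          have h3 := (hgK k (hCV k hk)).1 (h2 k hk)
          rw [hN] at h3
          exact pos_of_mul_pos_right h3 hpos.le
        · right
          intro k hk
          have h3 := (hgK k (hCV k hk)).2 (h2 k hk)
          rw [hN] at h3
          exact neg_of_mul_neg_right h3 hpos.le
    have hCV : ∀ k ∈ C, k ∈ Vk CC := fun k hk => by
      unfold Vk
      rw [Finset.mem_biUnion]
      exact ⟨C, hCC, hk⟩
    rcases hsign with h2 | h2
    · refine ⟨ucov_free_ff i j (-1) a' b', ?_, ?_, hLp⟩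
      · intro v hv
        simp only [Finset.mem_insert, Finset.mem_singleton] at hv
        rcases hv with rfl | rfl | rfl | rfl
        · rw [(ucov_free_dgv hij hil hjl _ _ _ ha0).1]
          exact mul_nonneg (hden _) (by linarith)
        · rw [(ucov_free_dgv hij hil hjl _ _ _ ha0').1]
          exact mul_nonneg (hden _) (by linarith)
        · rw [(ucov_free_dgv hij hil hjl _ _ _ hb0).2]
          exact mul_nonneg (hden _) (by linarith)
        · rw [(ucov_free_dgv hij hil hjl _ _ _ hb0').2]
          exact mul_nonneg (hden _) (by linarith)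
      · intro k hk
        have h3 := hc1 k (hCV k hk) (by
          rw [ucov_free_dff hij hil hjl]
          have := h2 k hk
          linarith)
        rw [ucov_free_dff hij hil hjl] at h3 ⊢
        have e1 := mul_nonneg (show 0 ≤ sj + ε - (a' : ℝ) by linarith) (hkn k j)
        have e2 := mul_nonneg (show 0 ≤ sl + ε - (b' : ℝ) by linarith) (hkn k l)
        nlinarith
    · refine ⟨ucov_free_ff i j 1 (-a) (-b), ?_, ?_, hLm⟩
      · intro v hv
        simp only [Finset.mem_insert, Finset.mem_singleton] at hv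
        rcases hv with rfl | rfl | rfl | rfl
        · rw [(ucov_free_dgv hij hil hjl _ _ _ ha0).1]
          exact mul_nonneg (hden _) (by linarith)
        · rw [(ucov_free_dgv hij hil hjl _ _ _ ha0').1]
          exact mul_nonneg (hden _) (by linarith)
        · rw [(ucov_free_dgv hij hil hjl _ _ _ hb0).2]
          exact mul_nonneg (hden _) (by linarith)
        · rw [(ucov_free_dgv hij hil hjl _ _ _ hb0').2]
          exact mul_nonneg (hden _) (by linarith)
      · intro k hk
        have h3 := hc2 k (hCV k hk) (by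
          rw [ucov_free_dff hij hil hjl]
          have := h2 k hk
          linarith)
        rw [ucov_free_dff hij hil hjl] at h3 ⊢
        have e1 := mul_nonneg (show 0 ≤ (a : ℝ) - (sj - ε) by linarith) (hkn k j)
        have e2 := mul_nonneg (show 0 ≤ (b : ℝ) - (sl - ε) by linarith) (hkn k l)
        nlinarith

end Pool.Agent.MP2a1ef3.N3
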