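import Pool.Agent.Lib.MP_2a1ef3_lc.N3.Stm

/-!
Piece `ucov_of_gens` for MP_2a1ef3_lc, dimension three.
-/

set_option autoImplicit false

namespace Pool.Agent.MP2a1ef3.N3

open Filter

private theorem dp_sum (f : R3) (P : Finset V) (l : V → ℝ) :
    dp f (∑ p ∈ P, l p • rv p) = ∑ p ∈ P, l p * dp f (rv p) := by
  classical
  induction P using Finset.induction_on with
  | empty => simp [dp]
  | insert a s ha ih =>
    rw [Finset.sum_insert ha, Finset.sum_insert ha, ← ih]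
    simp only [dp, Pi.add_apply, Pi.smul_apply, smul_eq_mul]
    ring

theorem p_ucov_of_gens (h1 : S_exists_ind_ultra) : S_ucov_of_gens := by
  intro CC G F hB h hC
  obtain ⟨P, hPG, hI, hP⟩ := h1 h
  refine ⟨P, ⟨fun p hp => hB p (hPG hp), hI, ?_⟩, hP⟩
  intro C hCC
  obtain ⟨f, hf1, hf2, hf3⟩ := hC C hCC
  obtain ⟨x, ⟨l, hl, hx⟩, hfx⟩ := (hP.and hf3).exists
  rw [hx, dp_sum] at hfx
  obtain ⟨g, hg, hgp⟩ := Finset.exists_lt_of_sum_lt
    (show ∑ p ∈ P, (0 : ℝ) < ∑ p ∈ P, l p * dp f (rv p) by simpa using hfx)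
  have hg0 : 0 < dp f (rv g) := by
    rcases lt_or_ge 0 (dp f (rv g)) with h2 | h2
    · exact h2
    · exact absurd hgp (not_lt.2 (mul_nonpos_of_nonneg_of_nonpos (hl g hg).le h2))
  rw [Set.disjoint_left]
  rintro y ⟨l', hl', hy⟩ ⟨m, hm, hy'⟩
  have h2 : 0 < dp f y := by
    rw [hy, dp_sum]
    exact Finset.sum_pos' (fun p hp => mul_nonneg (hl' p hp).le (hf1 p (hPG hp)))
      ⟨g, hg, mul_pos (hl' g hg) hg0⟩
  have h3 : dp f y ≤ 0 := by
    rw [hy', dp_sum]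
    exact Finset.sum_nonpos fun k hk => mul_nonpos_of_nonneg_of_nonpos (hm k hk).le (hf2 k hk)
  linarith

end Pool.Agent.MP2a1ef3.N3
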