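import Pool.Agent.Lib.MP_2a1ef3_lc.N3.Stm

/-!
# MP_2a1ef3_lc, dimension three: filters at pinned points (piece `ucov_pin`)
-/

set_option autoImplicit false

namespace Pool.Agent.MP2a1ef3.N3

open Filter

/-- the functional `dt a b` -/
private noncomputable def ucov_pin_crs (a b : R3) : R3 :=
  ![a 1 * b 2 - a 2 * b 1, a 2 * b 0 - a 0 * b 2, a 0 * b 1 - a 1 * b 0]

private theorem ucov_pin_dp (a b x : R3) : dp (ucov_pin_crs a b) x = dt a b x := by
  unfold dp dt ucov_pin_crs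
  simp only [Matrix.cons_val_zero, Matrix.cons_val_one, Matrix.cons_val]
  ring

private theorem ucov_pin_lim {F : Filter V} {p : R3} (hL : Lim F p) {a b : R3}
    (h : 0 < dt a b p) : ∀ᶠ x in F, 0 < dt a b (rv x) := by
  rw [← ucov_pin_dp] at h
  filter_upwards [hL _ h] with x hx
  rw [ucov_pin_dp] at hx
  exact hx

private theorem ucov_pin_zero {a b : R3} {j : Fin 3} (ha : a j = 0) (hb : b j = 0) :
    ∃ c : ℝ, ∀ x : R3, dt a b x = c * x j := by
  fin_cases j
  · refine ⟨a 1 * b 2 - a 2 * b 1, fun x => ?_⟩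
    have ha' : a 0 = 0 := ha
    have hb' : b 0 = 0 := hb
    unfold dt
    rw [ha', hb']
    change _ = _ * x 0
    ring
  · refine ⟨a 2 * b 0 - a 0 * b 2, fun x => ?_⟩
    have ha' : a 1 = 0 := ha
    have hb' : b 1 = 0 := hb
    unfold dt
    rw [ha', hb']
    change _ = _ * x 1
    ring
  · refine ⟨a 0 * b 1 - a 1 * b 0, fun x => ?_⟩
    have ha' : a 2 = 0 := ha
    have hb' : b 2 = 0 := hb
    unfold dt
    rw [ha', hb']
    change _ = _ * x 2
    ring

theorem p_ucov_pin (h1 : S_exists_pin_piece) (h2 : S_mem_ocone_tri) : S_ucov_pin := by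
  intro CC F hF p hp hp0 hL h
  obtain ⟨a, ha, hpin⟩ := h
  obtain ⟨b₁, b₂, hd, hd1, hd2, hd3, hP⟩ := h1 hp hp0 hpin
  refine ⟨{a, b₁, b₂}, hP, ?_⟩
  have e1 := ucov_pin_lim hL hd1
  have e2 : ∀ᶠ x in (F : Filter V), 0 < dt (rv b₂) (rv a) (rv x) := by
    apply ucov_pin_lim hL
    have : dt (rv b₂) (rv a) p = dt (rv a) p (rv b₂) := by unfold dt; ring
    rw [this]
    exact hd2
  have e3 : ∀ᶠ x in (F : Filter V), 0 < dt (rv b₁) (rv b₂) (rv x) := by
    rcases hd3 with h3 | ⟨j, hj1, hj2⟩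
    · exact ucov_pin_lim hL h3
    · obtain ⟨c, hc⟩ := ucov_pin_zero (a := rv b₁) (b := rv b₂) (j := j)
        (by unfold rv; rw [hj1]; simp) (by unfold rv; rw [hj2]; simp)
      have h4 : dt (rv b₁) (rv b₂) (rv a) = dt (rv a) (rv b₁) (rv b₂) := by unfold dt; ring
      rw [hc] at h4
      have h5 : 0 ≤ rv a j := Nat.cast_nonneg _
      have h6 : 0 < c := by
        have h7 : 0 < c * rv a j := by rw [h4]; exact hd
        exact pos_of_mul_pos_left h7 h5
      filter_upwards [hF] with x hx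
      rw [hc]
      have h8 : 0 < rv x j := by
        unfold rv
        exact_mod_cast hx j
      exact mul_pos h6 h8
  filter_upwards [e1, e2, e3] with x hx1 hx2 hx3
  exact (h2 hd (rv x)).2 ⟨hx1, hx3, hx2⟩

end Pool.Agent.MP2a1ef3.N3
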