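import Pool.Agent.Lib.MP_2a1ef3_lc.N3.Stm

set_option autoImplicit false

namespace Pool.Agent.MP2a1ef3.N3

open Filter

private def ucov_sector_cr (a b : R3) : R3 :=
  ![a 1 * b 2 - a 2 * b 1, a 2 * b 0 - a 0 * b 2, a 0 * b 1 - a 1 * b 0]

private theorem ucov_sector_dp (a b x : R3) : dp (ucov_sector_cr a b) x = dt a b x := by
  simp only [dp, ucov_sector_cr, dt, Matrix.cons_val_zero, Matrix.cons_val_one, Matrix.cons_val]
  ring

theorem p_ucov_sector (h1 : S_exists_pin_piece) (h2 : S_mem_ocone_tri) : S_ucov_sector := by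
  intro CC F k hL v hv hv0 hD h
  obtain ⟨b₁, b₂, hd, e1, e2, -, hP⟩ := h1 hv hv0 h
  refine ⟨_, hP, ?_⟩
  have f1 : ∀ᶠ x in (F : Filter V), 0 < dp (ucov_sector_cr (rv k) (rv b₁)) (rv x) := by
    apply hD
    · rw [ucov_sector_dp]; unfold dt; ring
    · rw [ucov_sector_dp]; exact e1
  have f2 : ∀ᶠ x in (F : Filter V), 0 < dp (ucov_sector_cr (rv b₂) (rv k)) (rv x) := by
    apply hD
    · rw [ucov_sector_dp]; unfold dt; ring
    · rw [ucov_sector_dp]
      have : dt (rv b₂) (rv k) v = dt (rv k) v (rv b₂) := by unfold dt; ring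
      rw [this]; exact e2
  have f3 : ∀ᶠ x in (F : Filter V), 0 < dp (ucov_sector_cr (rv b₁) (rv b₂)) (rv x) := by
    apply hL
    rw [ucov_sector_dp]
    have : dt (rv b₁) (rv b₂) (rv k) = dt (rv k) (rv b₁) (rv b₂) := by unfold dt; ring
    rw [this]; exact hd
  filter_upwards [f1, f2, f3] with x g1 g2 g3
  rw [ucov_sector_dp] at g1 g2 g3
  exact (h2 hd (rv x)).2 ⟨g1, g3, g2⟩

end Pool.Agent.MP2a1ef3.N3
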