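import Pool.Agent.Lib.MP_2a1ef3_lc.N3.Stm

set_option autoImplicit false

namespace Pool.Agent.MP2a1ef3.N3

open Filter

private theorem ucov_strip_dp (f x : R3) (i : Fin 3) :
    dp f x = f i * x i + f (i + 1) * x (i + 1) + f (i + 2) * x (i + 2) := by
  fin_cases i
  · rfl
  · show _ = f 1 * x 1 + f 2 * x 2 + f 0 * x 0
    unfold dp
    ring
  · show _ = f 2 * x 2 + f 0 * x 0 + f 1 * x 1
    unfold dp
    ring

private theorem ucov_strip_dt (a b x : R3) (i : Fin 3) :
    dt a b x = (a i * b (i + 1) - a (i + 1) * b i) * x (i + 2) +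
      (a (i + 1) * b (i + 2) - a (i + 2) * b (i + 1)) * x i +
      (a (i + 2) * b i - a i * b (i + 2)) * x (i + 1) := by
  fin_cases i
  · show _ = (a 0 * b 1 - a 1 * b 0) * x 2 + (a 1 * b 2 - a 2 * b 1) * x 0 +
      (a 2 * b 0 - a 0 * b 2) * x 1
    unfold dt
    ring
  · show _ = (a 1 * b 2 - a 2 * b 1) * x 0 + (a 2 * b 0 - a 0 * b 2) * x 1 +
      (a 0 * b 1 - a 1 * b 0) * x 2
    unfold dt
    ring
  · show _ = (a 2 * b 0 - a 0 * b 2) * x 1 + (a 0 * b 1 - a 1 * b 0) * x 2 +
      (a 1 * b 2 - a 2 * b 1) * x 0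
    unfold dt
    ring

private theorem ucov_strip_ne1 (i : Fin 3) : i + 1 ≠ i := by revert i; decide
private theorem ucov_strip_ne2 (i : Fin 3) : i + 2 ≠ i := by revert i; decide
private theorem ucov_strip_ne3 (i : Fin 3) : i + 1 ≠ i + 2 := by revert i; decide
private theorem ucov_strip_cases (i t : Fin 3) : t = i ∨ t = i + 1 ∨ t = i + 2 := by
  revert i t; decide

/-- parallel vectors have vanishing minors -/
private theorem ucov_strip_par {a b : R3} (h : Par a b) (i : Fin 3) :
    a i * b (i + 1) = a (i + 1) * b i ∧ a (i + 2) * b i = a i * b (i + 2) := by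
  have n1 := ucov_strip_ne1 i
  have n2 := ucov_strip_ne2 i
  have n3 := ucov_strip_ne3 i
  constructor
  · have h1 := h (Pi.single (i + 2) 1)
    rw [ucov_strip_dt a b _ i, Pi.single_eq_same, Pi.single_eq_of_ne n2.symm,
      Pi.single_eq_of_ne n3] at h1
    linarith
  · have h1 := h (Pi.single (i + 1) 1)
    rw [ucov_strip_dt a b _ i, Pi.single_eq_same, Pi.single_eq_of_ne n1.symm,
      Pi.single_eq_of_ne n3.symm] at h1
    linarith

private theorem ucov_strip_add {G : Finset V} {x y : R3} (hx : x ∈ ccone G) (hy : y ∈ ccone G) :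
    x + y ∈ ccone G := by
  obtain ⟨l, h1, rfl⟩ := hx
  obtain ⟨m, h2, rfl⟩ := hy
  refine ⟨fun p => l p + m p, fun p hp => add_nonneg (h1 p hp) (h2 p hp), ?_⟩
  rw [← Finset.sum_add_distrib]
  apply Finset.sum_congr rfl
  intro p _
  rw [add_smul]

private theorem ucov_strip_single {G : Finset V} {p : V} (hp : p ∈ G) {c : ℝ} (hc : 0 ≤ c) :
    c • rv p ∈ ccone G := by
  classical
  refine ⟨fun q => if q = p then c else 0, ?_, ?_⟩
  · intro q _
    show 0 ≤ (if q = p then c else 0)
    split_ifs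
    · exact hc
    · exact le_refl _
  · have h1 : ∀ q ∈ G, (if q = p then c else (0 : ℝ)) • rv q = if q = p then c • rv p else 0 := by
      intro q _
      split_ifs with h
      · rw [h]
      · rw [zero_smul]
    rw [Finset.sum_congr rfl h1, Finset.sum_ite_eq', if_pos hp]

private theorem ucov_strip_num {r : ℚ} (hr : 0 ≤ r) : ((r.num.toNat : ℕ) : ℝ) = r * r.den := by
  have h1 : ((r.num.toNat : ℕ) : ℤ) = r.num := Int.toNat_of_nonneg (Rat.num_nonneg.2 hr)
  have h2 : (((r.num.toNat : ℕ) : ℤ) : ℝ) = (r.num : ℝ) := by rw [h1]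
  have h3 : ((r.num : ℚ) : ℝ) = ((r * r.den : ℚ) : ℝ) := by rw [Rat.mul_den_eq_num]
  push_cast at h2 h3
  rw [h2, h3]

private theorem ucov_strip_gv1 {r : ℚ} (hr : 0 ≤ r) (i : Fin 3) :
    rv (gv i (i + 1) r) i = r * r.den ∧ rv (gv i (i + 1) r) (i + 1) = r.den ∧
      rv (gv i (i + 1) r) (i + 2) = 0 ∧ gv i (i + 1) r (i + 2) = 0 := by
  have n1 := ucov_strip_ne1 i
  have n2 := ucov_strip_ne2 i
  have n3 := ucov_strip_ne3 i
  have h4 : gv i (i + 1) r (i + 2) = 0 := by
    show (if i + 2 = i then r.num.toNat else if i + 2 = i + 1 then r.den else 0) = 0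
    rw [if_neg n2, if_neg n3.symm]
  refine ⟨?_, ?_, ?_, h4⟩
  · show ((if i = i then r.num.toNat else if i = i + 1 then r.den else 0 : ℕ) : ℝ) = _
    rw [if_pos rfl, ucov_strip_num hr]
  · show ((if i + 1 = i then r.num.toNat else if i + 1 = i + 1 then r.den else 0 : ℕ) : ℝ) = _
    rw [if_neg n1, if_pos rfl]
  · show ((gv i (i + 1) r (i + 2) : ℕ) : ℝ) = 0
    rw [h4, Nat.cast_zero]

private theorem ucov_strip_gv2 {r : ℚ} (hr : 0 ≤ r) (i : Fin 3) :
    rv (gv i (i + 2) r) i = r * r.den ∧ rv (gv i (i + 2) r) (i + 2) = r.den ∧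
      rv (gv i (i + 2) r) (i + 1) = 0 ∧ gv i (i + 2) r (i + 1) = 0 := by
  have n1 := ucov_strip_ne1 i
  have n2 := ucov_strip_ne2 i
  have n3 := ucov_strip_ne3 i
  have h4 : gv i (i + 2) r (i + 1) = 0 := by
    show (if i + 1 = i then r.num.toNat else if i + 1 = i + 2 then r.den else 0) = 0
    rw [if_neg n1, if_neg n3]
  refine ⟨?_, ?_, ?_, h4⟩
  · show ((if i = i then r.num.toNat else if i = i + 2 then r.den else 0 : ℕ) : ℝ) = _
    rw [if_pos rfl, ucov_strip_num hr]
  · show ((if i + 2 = i then r.num.toNat else if i + 2 = i + 2 then r.den else 0 : ℕ) : ℝ) = _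
    rw [if_neg n2, if_pos rfl]
  · show ((gv i (i + 2) r (i + 1) : ℕ) : ℝ) = 0
    rw [h4, Nat.cast_zero]

private theorem ucov_strip_theta {m x M : ℝ} (h1 : m ≤ x) (h2 : x ≤ M) :
    ∃ θ : ℝ, 0 ≤ θ ∧ θ ≤ 1 ∧ x = (1 - θ) * m + θ * M := by
  by_cases h : m = M
  · refine ⟨0, le_refl _, zero_le_one, ?_⟩
    have : x = m := le_antisymm (by rw [h]; exact h2) h1
    rw [this]
    ring
  · have hlt : 0 < M - m := by
      rcases lt_or_gt_of_ne h with h3 | h3
      · linarith
      · linarith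
    refine ⟨(x - m) / (M - m), div_nonneg (by linarith) hlt.le, ?_, ?_⟩
    · rw [div_le_one hlt]
      linarith
    · field_simp
      ring

/-- the wedge between two planes -/
private theorem ucov_strip_wedge (i : Fin 3) {sj sl tj tl : ℚ} (h0 : 0 ≤ sj) (h1 : 0 ≤ sl)
    (h2 : sj ≤ tj) (h3 : sl ≤ tl) : ∃ G : Finset V, (∀ g ∈ G, Bd g) ∧
    (∀ g ∈ G, (sj : ℝ) * rv g (i + 1) + sl * rv g (i + 2) ≤ rv g i ∧
      rv g i ≤ tj * rv g (i + 1) + tl * rv g (i + 2)) ∧
    ∀ x : R3, 0 ≤ x (i + 1) → 0 ≤ x (i + 2) → (sj : ℝ) * x (i + 1) + sl * x (i + 2) ≤ x i →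
      x i ≤ tj * x (i + 1) + tl * x (i + 2) → x ∈ ccone G := by
  classical
  obtain ⟨a1, a2, a3, a4⟩ := ucov_strip_gv1 h0 i
  obtain ⟨b1, b2, b3, b4⟩ := ucov_strip_gv1 (h0.trans h2) i
  obtain ⟨c1, c2, c3, c4⟩ := ucov_strip_gv2 h1 i
  obtain ⟨d1, d2, d3, d4⟩ := ucov_strip_gv2 (h1.trans h3) i
  have h2' : (sj : ℝ) ≤ tj := by exact_mod_cast h2
  have h3' : (sl : ℝ) ≤ tl := by exact_mod_cast h3
  have pa : (0 : ℝ) < sj.den := by exact_mod_cast sj.den_pos
  have pb : (0 : ℝ) < tj.den := by exact_mod_cast tj.den_pos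
  have pc : (0 : ℝ) < sl.den := by exact_mod_cast sl.den_pos
  have pd : (0 : ℝ) < tl.den := by exact_mod_cast tl.den_pos
  refine ⟨{gv i (i + 1) sj, gv i (i + 1) tj, gv i (i + 2) sl, gv i (i + 2) tl}, ?_, ?_, ?_⟩
  · intro g hg
    simp only [Finset.mem_insert, Finset.mem_singleton] at hg
    rcases hg with rfl | rfl | rfl | rfl
    · exact ⟨_, a4⟩
    · exact ⟨_, b4⟩
    · exact ⟨_, c4⟩
    · exact ⟨_, d4⟩
  · intro g hg
    simp only [Finset.mem_insert, Finset.mem_singleton] at hg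
    rcases hg with rfl | rfl | rfl | rfl
    · rw [a1, a2, a3]
      have := mul_le_mul_of_nonneg_right h2' pa.le
      constructor <;> linarith
    · rw [b1, b2, b3]
      have := mul_le_mul_of_nonneg_right h2' pb.le
      constructor <;> linarith
    · rw [c1, c2, c3]
      have := mul_le_mul_of_nonneg_right h3' pc.le
      constructor <;> linarith
    · rw [d1, d2, d3]
      have := mul_le_mul_of_nonneg_right h3' pd.le
      constructor <;> linarith
  · intro x hxj hxl hm hM
    obtain ⟨θ, t0, t1, ht⟩ := ucov_strip_theta hm hM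
    have t1' : 0 ≤ 1 - θ := by linarith
    have hx : x = ((1 - θ) * x (i + 1) / sj.den) • rv (gv i (i + 1) sj) +
        (θ * x (i + 1) / tj.den) • rv (gv i (i + 1) tj) +
        ((1 - θ) * x (i + 2) / sl.den) • rv (gv i (i + 2) sl) +
        (θ * x (i + 2) / tl.den) • rv (gv i (i + 2) tl) := by
      funext t
      simp only [Pi.add_apply, Pi.smul_apply, smul_eq_mul]
      rcases ucov_strip_cases i t with rfl | rfl | rfl
      · rw [a1, b1, c1, d1]
        rw [div_mul_eq_mul_div, div_mul_eq_mul_div, div_mul_eq_mul_div, div_mul_eq_mul_div]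
        rw [← mul_assoc, ← mul_assoc, ← mul_assoc, ← mul_assoc]
        rw [mul_div_assoc, mul_div_assoc, mul_div_assoc, mul_div_assoc, div_self pa.ne',
          div_self pb.ne', div_self pc.ne', div_self pd.ne']
        linarith
      · rw [a2, b2, c3, d3]
        rw [div_mul_cancel₀ _ pa.ne', div_mul_cancel₀ _ pb.ne']
        ring
      · rw [a3, b3, c2, d2]
        rw [div_mul_cancel₀ _ pc.ne', div_mul_cancel₀ _ pd.ne']
        ring
    rw [hx]
    refine ucov_strip_add (ucov_strip_add (ucov_strip_add ?_ ?_) ?_) ?_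
    · exact ucov_strip_single (by simp) (div_nonneg (mul_nonneg t1' hxj) pa.le)
    · exact ucov_strip_single (by simp) (div_nonneg (mul_nonneg t0 hxj) pb.le)
    · exact ucov_strip_single (by simp) (div_nonneg (mul_nonneg t1' hxl) pc.le)
    · exact ucov_strip_single (by simp) (div_nonneg (mul_nonneg t0 hxl) pd.le)

/-- the criterion with two planes -/
private theorem ucov_strip_finish (hg : S_ucov_of_gens) {CC : Finset (Finset V)}
    {F : Ultrafilter V} (i : Fin 3) {sj sl tj tl : ℚ} (h0 : 0 ≤ sj) (h1 : 0 ≤ sl)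
    (h2 : sj ≤ tj) (h3 : sl ≤ tl)
    (e1 : ∀ᶠ x in (F : Filter V), (sj : ℝ) * rv x (i + 1) + sl * rv x (i + 2) < rv x i)
    (e2 : ∀ᶠ x in (F : Filter V), rv x i < (tj : ℝ) * rv x (i + 1) + tl * rv x (i + 2))
    (hC : ∀ C ∈ CC, (∀ k ∈ C, rv k i ≤ (sj : ℝ) * rv k (i + 1) + sl * rv k (i + 2)) ∨
      (∀ k ∈ C, (tj : ℝ) * rv k (i + 1) + tl * rv k (i + 2) ≤ rv k i)) : UCov CC F := by
  obtain ⟨G, g1, g2, g3⟩ := ucov_strip_wedge i h0 h1 h2 h3
  have n1 := ucov_strip_ne1 i
  have n2 := ucov_strip_ne2 i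
  have n3 := ucov_strip_ne3 i
  obtain ⟨f, hf⟩ : ∃ f : R3, ∀ x, dp f x = x i - (sj * x (i + 1) + sl * x (i + 2)) := by
    refine ⟨fun t => if t = i then (1 : ℝ) else if t = i + 1 then -(sj : ℝ) else -(sl : ℝ), ?_⟩
    intro x
    rw [ucov_strip_dp _ x i]
    simp only [if_true, if_neg n1, if_neg n2, if_neg n3.symm]
    ring
  obtain ⟨f', hf'⟩ : ∃ f : R3, ∀ x, dp f x = (tj * x (i + 1) + tl * x (i + 2)) - x i := by
    refine ⟨fun t => if t = i then (-1 : ℝ) else if t = i + 1 then (tj : ℝ) else (tl : ℝ), ?_⟩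
    intro x
    rw [ucov_strip_dp _ x i]
    simp only [if_true, if_neg n1, if_neg n2, if_neg n3.symm]
    ring
  apply hg g1
  · filter_upwards [e1, e2] with x hx1 hx2
    exact g3 _ (Nat.cast_nonneg _) (Nat.cast_nonneg _) hx1.le hx2.le
  · intro C hCC
    rcases hC C hCC with h | h
    · refine ⟨f, ?_, ?_, ?_⟩
      · intro g hgG
        rw [hf]
        have := (g2 g hgG).1
        linarith
      · intro k hk
        rw [hf]
        have := h k hk
        linarith
      · filter_upwards [e1] with x hx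
        rw [hf]
        linarith
    · refine ⟨f', ?_, ?_, ?_⟩
      · intro g hgG
        rw [hf']
        have := (g2 g hgG).2
        linarith
      · intro k hk
        rw [hf']
        have := h k hk
        linarith
      · filter_upwards [e2] with x hx
        rw [hf']
        linarith

private theorem ucov_strip_gap (S : Finset V) (P : V → ℝ) :
    ∃ η : ℝ, 0 < η ∧ ∀ x ∈ S, (P x < 0 → P x ≤ -η) ∧ (0 < P x → η ≤ P x) := by
  classical
  induction S using Finset.induction_on with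
  | empty => exact ⟨1, one_pos, by simp⟩
  | insert a S ha ih =>
    obtain ⟨η, hη, h⟩ := ih
    by_cases h0 : P a = 0
    · refine ⟨η, hη, ?_⟩
      intro x hx
      rcases Finset.mem_insert.1 hx with rfl | hx
      · rw [h0]
        exact ⟨fun h => absurd h (lt_irrefl _), fun h => absurd h (lt_irrefl _)⟩
      · exact h x hx
    · refine ⟨min η |P a|, lt_min hη (abs_pos.2 h0), ?_⟩
      intro x hx
      rcases Finset.mem_insert.1 hx with rfl | hx
      · constructor
        · intro h1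
          have h2 := min_le_right η |P x|
          rw [abs_of_neg h1] at h2 ⊢
          linarith
        · intro h1
          have h2 := min_le_right η |P x|
          rw [abs_of_pos h1] at h2 ⊢
          linarith
      · have h2 := min_le_left η |P a|
        obtain ⟨h3, h4⟩ := h x hx
        exact ⟨fun h5 => by linarith [h3 h5], fun h5 => by linarith [h4 h5]⟩

private theorem ucov_strip_bound (S : Finset V) (P : V → ℝ) :
    ∃ M : ℝ, 0 < M ∧ ∀ x ∈ S, P x ≤ M := by
  classical
  induction S using Finset.induction_on with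
  | empty => exact ⟨1, one_pos, by simp⟩
  | insert a S ha ih =>
    obtain ⟨M, hM, h⟩ := ih
    refine ⟨max M (P a), lt_of_lt_of_le hM (le_max_left _ _), ?_⟩
    intro x hx
    rcases Finset.mem_insert.1 hx with rfl | hx
    · exact le_max_right _ _
    · exact (h x hx).trans (le_max_left _ _)

private theorem ucov_strip_sign {k : V} (hk : Pos k) {g : R3} (hg : dp g (rv k) = 0)
    (hgi : ∀ i, g i ≠ 0) : ∃ (i : Fin 3) (σ : ℝ), (σ = 1 ∨ σ = -1) ∧ 0 < σ * g i ∧
      σ * g (i + 1) < 0 ∧ σ * g (i + 2) < 0 := by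
  have k0 : (0 : ℝ) < rv k 0 := Nat.cast_pos.2 (hk 0)
  have k1 : (0 : ℝ) < rv k 1 := Nat.cast_pos.2 (hk 1)
  have k2 : (0 : ℝ) < rv k 2 := Nat.cast_pos.2 (hk 2)
  unfold dp at hg
  rcases lt_or_gt_of_ne (hgi 0) with h0 | h0 <;> rcases lt_or_gt_of_ne (hgi 1) with h1 | h1 <;>
    rcases lt_or_gt_of_ne (hgi 2) with h2 | h2
  · exfalso
    have := mul_neg_of_neg_of_pos h0 k0
    have := mul_neg_of_neg_of_pos h1 k1
    have := mul_neg_of_neg_of_pos h2 k2
    linarith
  · exact ⟨2, 1, Or.inl rfl, by linarith, by show 1 * g 0 < 0; linarith,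
      by show 1 * g 1 < 0; linarith⟩
  · exact ⟨1, 1, Or.inl rfl, by linarith, by show 1 * g 2 < 0; linarith,
      by show 1 * g 0 < 0; linarith⟩
  · exact ⟨0, -1, Or.inr rfl, by linarith, by show -1 * g 1 < 0; linarith,
      by show -1 * g 2 < 0; linarith⟩
  · exact ⟨0, 1, Or.inl rfl, by linarith, by show 1 * g 1 < 0; linarith,
      by show 1 * g 2 < 0; linarith⟩
  · exact ⟨1, -1, Or.inr rfl, by linarith, by show -1 * g 2 < 0; linarith,
      by show -1 * g 0 < 0; linarith⟩
  · exact ⟨2, -1, Or.inr rfl, by linarith, by show -1 * g 0 < 0; linarith,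
      by show -1 * g 1 < 0; linarith⟩
  · exfalso
    have := mul_pos h0 k0
    have := mul_pos h1 k1
    have := mul_pos h2 k2
    linarith

/-- a rational number close to a real number on a given side -/
private theorem ucov_strip_rat {s ε u : ℝ} (hε : 0 < ε) (hu : u ≠ 0) :
    ∃ q : ℚ, |(q : ℝ) - s| < ε ∧ 0 < u * (q - s) := by
  rcases lt_or_gt_of_ne hu with h | h
  · obtain ⟨q, h1, h2⟩ := exists_rat_btwn (show s - ε < s by linarith)
    refine ⟨q, ?_, mul_pos_of_neg_of_neg h (by linarith)⟩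
    rw [abs_of_neg (by linarith)]
    linarith
  · obtain ⟨q, h1, h2⟩ := exists_rat_btwn (show s < s + ε by linarith)
    refine ⟨q, ?_, mul_pos h (by linarith)⟩
    rw [abs_of_pos (by linarith)]
    linarith

theorem p_ucov_strip (h1 : S_ucov_of_gens) : S_ucov_strip := by
  intro CC F hF k hk hL v hkv hD g hg hgv hgi hC
  obtain ⟨i, σ, hσ, hi, hj, hl⟩ := ucov_strip_sign hk hg hgi
  have n1 := ucov_strip_ne1 i
  have n2 := ucov_strip_ne2 i
  have n3 := ucov_strip_ne3 i
  have hσ2 : σ * σ = 1 := by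
    rcases hσ with rfl | rfl <;> norm_num
  have hgi0 := hgi i
  have ki : (0 : ℝ) < rv k i := Nat.cast_pos.2 (hk i)
  have kj : (0 : ℝ) < rv k (i + 1) := Nat.cast_pos.2 (hk (i + 1))
  have kl : (0 : ℝ) < rv k (i + 2) := Nat.cast_pos.2 (hk (i + 2))
  -- the slopes
  obtain ⟨sj, hsj⟩ : ∃ s, s = -(g (i + 1)) / g i := ⟨_, rfl⟩
  obtain ⟨sl, hsl⟩ : ∃ s, s = -(g (i + 2)) / g i := ⟨_, rfl⟩
  have sj0 : 0 < sj := by
    have h2 : sj = (-(σ * g (i + 1))) / (σ * g i) := by
      rw [hsj, ← mul_neg]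
      rw [mul_div_mul_left _ _ (by rintro rfl; simp at hσ2)]
    rw [h2]
    exact div_pos (by linarith) hi
  have sl0 : 0 < sl := by
    have h2 : sl = (-(σ * g (i + 2))) / (σ * g i) := by
      rw [hsl, ← mul_neg]
      rw [mul_div_mul_left _ _ (by rintro rfl; simp at hσ2)]
    rw [h2]
    exact div_pos (by linarith) hi
  have hdp : ∀ x : R3, dp g x = (σ * g i) * (σ * (x i - sj * x (i + 1) - sl * x (i + 2))) := by
    intro x
    rw [ucov_strip_dp g x i]
    have e1 : g (i + 1) = -(sj * g i) := by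
      rw [hsj, div_mul_cancel₀ _ hgi0]
      ring
    have e2 : g (i + 2) = -(sl * g i) := by
      rw [hsl, div_mul_cancel₀ _ hgi0]
      ring
    rw [e1, e2]
    linear_combination (-(g i * (x i - sj * x (i + 1) - sl * x (i + 2)))) * hσ2
  have hσ0 : σ ≠ 0 := by rintro rfl; simp at hσ2
  have hk0 : rv k i - sj * rv k (i + 1) - sl * rv k (i + 2) = 0 := by
    rw [hdp] at hg
    rcases mul_eq_zero.1 hg with h2 | h2
    · exact absurd h2 hi.ne'
    · exact (mul_eq_zero.1 h2).resolve_left hσ0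
  have hv0 : v i - sj * v (i + 1) - sl * v (i + 2) = 0 := by
    rw [hdp] at hgv
    rcases mul_eq_zero.1 hgv with h2 | h2
    · exact absurd h2 hi.ne'
    · exact (mul_eq_zero.1 h2).resolve_left hσ0
  -- the number w
  have hw : rv k (i + 2) * v (i + 1) - rv k (i + 1) * v (i + 2) ≠ 0 := by
    intro h2
    apply hkv
    intro x
    rw [ucov_strip_dt _ _ _ i]
    have e1 : rv k i * v (i + 1) - rv k (i + 1) * v i = 0 := by
      linear_combination v (i + 1) * hk0 - rv k (i + 1) * hv0 + sl * h2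
    have e2 : rv k (i + 1) * v (i + 2) - rv k (i + 2) * v (i + 1) = 0 := by
      linear_combination -h2
    have e3 : rv k (i + 2) * v i - rv k i * v (i + 2) = 0 := by
      linear_combination rv k (i + 2) * hv0 - v (i + 2) * hk0 + sj * h2
    rw [e1, e2, e3]
    ring
  -- bounds
  obtain ⟨η, hη, hgap⟩ := ucov_strip_gap (Vk CC)
    (fun x => σ * (rv x i - sj * rv x (i + 1) - sl * rv x (i + 2)))
  obtain ⟨M, hM, hbd⟩ := ucov_strip_bound (Vk CC)
    (fun x => rv x (i + 1) + (rv k (i + 1) / rv k (i + 2)) * rv x (i + 2))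
  obtain ⟨M', hM', hbd'⟩ := ucov_strip_bound (Vk CC) (fun x => rv x (i + 1) + rv x (i + 2))
  have hq : 0 < rv k (i + 1) / rv k (i + 2) := div_pos kj kl
  obtain ⟨ε, hε, ε1, ε2, ε3⟩ : ∃ ε : ℝ, 0 < ε ∧ ε ≤ sj / 2 ∧
      ε * (rv k (i + 1) / rv k (i + 2)) ≤ sl / 2 ∧ ε * M ≤ η / 2 := by
    refine ⟨min (sj / 2) (min (sl / 2 / (rv k (i + 1) / rv k (i + 2))) (η / 2 / M)), ?_, ?_, ?_, ?_⟩
    · refine lt_min (by linarith) (lt_min (div_pos (by linarith) hq) (div_pos (by linarith) hM))
    · exact min_le_left _ _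
    · rw [← le_div_iff₀ hq]
      exact (min_le_right _ _).trans (min_le_left _ _)
    · rw [← le_div_iff₀ hM]
      exact (min_le_right _ _).trans (min_le_right _ _)
  obtain ⟨δ, δ0, δ1⟩ : ∃ δ : ℚ, (0 : ℝ) < δ ∧ (δ : ℝ) < min (sj / 2) (min (sl / 2) (η / 2 / M')) :=
    exists_rat_btwn (lt_min (by linarith) (lt_min (by linarith) (div_pos (by linarith) hM')))
  have δ2 : (δ : ℝ) ≤ sj / 2 := δ1.le.trans (min_le_left _ _)
  have δ3 : (δ : ℝ) ≤ sl / 2 := δ1.le.trans ((min_le_right _ _).trans (min_le_left _ _))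
  have δ4 : (δ : ℝ) * M' ≤ η / 2 := by
    rw [← le_div_iff₀ hM']
    exact δ1.le.trans ((min_le_right _ _).trans (min_le_right _ _))
  obtain ⟨qj, hq1, hq2⟩ := ucov_strip_rat (s := sj) hε
    (show -(σ * (rv k (i + 2) * v (i + 1) - rv k (i + 1) * v (i + 2))) ≠ 0 from
      neg_ne_zero.2 (mul_ne_zero hσ0 hw))
  obtain ⟨ql, hql⟩ : ∃ ql : ℚ, (ql : ℝ) = (rv k i - qj * rv k (i + 1)) / rv k (i + 2) := by
    refine ⟨((k i : ℚ) - qj * (k (i + 1) : ℚ)) / (k (i + 2) : ℚ), ?_⟩
    push_cast
    rfl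
  have hql' : (ql : ℝ) * rv k (i + 2) = rv k i - qj * rv k (i + 1) := by
    rw [hql, div_mul_cancel₀ _ kl.ne']
  have hk1 : rv k i - qj * rv k (i + 1) - ql * rv k (i + 2) = 0 := by linarith
  -- the difference
  have hdiff : ∀ x : R3, x i - qj * x (i + 1) - ql * x (i + 2) =
      (x i - sj * x (i + 1) - sl * x (i + 2)) -
        (qj - sj) * (x (i + 1) - (rv k (i + 1) / rv k (i + 2)) * x (i + 2)) := by
    intro x
    have e1 : (ql : ℝ) - sl = -((qj - sj) * (rv k (i + 1) / rv k (i + 2))) := by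
      have e2 : ((ql : ℝ) - sl) * rv k (i + 2) = -((qj - sj) * rv k (i + 1)) := by
        linear_combination hk0 - hk1
      rw [mul_div_assoc', ← neg_div, eq_div_iff kl.ne']
      exact e2
    have e3 : (ql : ℝ) = sl - (qj - sj) * (rv k (i + 1) / rv k (i + 2)) := by linarith
    rw [e3]
    ring
  have hqj : sj / 2 ≤ qj := by
    have := (abs_lt.1 hq1).1
    linarith
  have hqlb : sl / 2 ≤ ql := by
    have e1 : (ql : ℝ) = sl - (qj - sj) * (rv k (i + 1) / rv k (i + 2)) := by
      have e4 : ((ql : ℝ) - sl) * rv k (i + 2) = -((qj - sj) * rv k (i + 1)) := by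
        linear_combination hk0 - hk1
      have e5 : (ql : ℝ) - sl = -((qj - sj) * (rv k (i + 1) / rv k (i + 2))) := by
        rw [mul_div_assoc', ← neg_div, eq_div_iff kl.ne']
        exact e4
      linarith
    have e2 : (qj - sj) * (rv k (i + 1) / rv k (i + 2)) ≤
        ε * (rv k (i + 1) / rv k (i + 2)) :=
      mul_le_mul_of_nonneg_right ((le_abs_self _).trans hq1.le) hq.le
    linarith
  -- the estimate
  have hest : ∀ x ∈ Vk CC, |(σ * (rv x i - qj * rv x (i + 1) - ql * rv x (i + 2))) -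
      σ * (rv x i - sj * rv x (i + 1) - sl * rv x (i + 2))| ≤ η / 2 := by
    intro x hx
    rw [hdiff]
    have e0 : (0 : ℝ) ≤ rv x (i + 1) := Nat.cast_nonneg _
    have e1 : (0 : ℝ) ≤ rv x (i + 2) := Nat.cast_nonneg _
    have e2 : σ * ((rv x i - sj * rv x (i + 1) - sl * rv x (i + 2)) -
        (qj - sj) * (rv x (i + 1) - (rv k (i + 1) / rv k (i + 2)) * rv x (i + 2))) -
        σ * (rv x i - sj * rv x (i + 1) - sl * rv x (i + 2)) =
        -(σ * ((qj - sj) * (rv x (i + 1) - (rv k (i + 1) / rv k (i + 2)) * rv x (i + 2)))) := by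
      ring
    rw [e2, abs_neg, abs_mul, abs_mul]
    have e3 : |σ| = 1 := by rcases hσ with rfl | rfl <;> simp
    rw [e3, one_mul]
    have e4 : |rv x (i + 1) - (rv k (i + 1) / rv k (i + 2)) * rv x (i + 2)| ≤ M := by
      have e5 := hbd x hx
      have e6 := mul_nonneg hq.le e1
      rw [abs_le]
      constructor <;> linarith
    calc |(qj : ℝ) - sj| * |rv x (i + 1) - (rv k (i + 1) / rv k (i + 2)) * rv x (i + 2)|
        ≤ ε * M := mul_le_mul hq1.le e4 (abs_nonneg _) hε.le
      _ ≤ η / 2 := ε3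
  -- the two types
  have htype : ∀ C ∈ CC,
      (∀ x ∈ C, σ * (rv x i - qj * rv x (i + 1) - ql * rv x (i + 2)) ≤ 0) ∨
      (∀ x ∈ C, δ * (rv x (i + 1) + rv x (i + 2)) -
        σ * (rv x i - qj * rv x (i + 1) - ql * rv x (i + 2)) ≤ 0) := by
    intro C hCC
    rcases hC C hCC with h2 | h2
    · left
      intro x hx
      have hxV : x ∈ Vk CC := Finset.mem_biUnion.2 ⟨C, hCC, hx⟩
      rcases h2 x hx with h3 | h3
      · obtain ⟨p1, p2⟩ := ucov_strip_par h3 i
        have e1 : rv k i * (rv x i - qj * rv x (i + 1) - ql * rv x (i + 2)) = 0 := by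
          linear_combination rv x i * hk1 - qj * p1 + ql * p2
        have e2 := (mul_eq_zero.1 e1).resolve_left ki.ne'
        rw [e2, mul_zero]
      · rw [hdp] at h3
        have h4 : σ * (rv x i - sj * rv x (i + 1) - sl * rv x (i + 2)) < 0 := by
          by_contra h5
          exact absurd (mul_nonneg hi.le (not_lt.1 h5)) (not_le.2 h3)
        have h5 := (hgap x hxV).1 h4
        have h6 := (abs_le.1 (hest x hxV)).2
        linarith
    · right
      intro x hx
      have hxV : x ∈ Vk CC := Finset.mem_biUnion.2 ⟨C, hCC, hx⟩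
      have h3 := h2 x hx
      rw [hdp] at h3
      have h4 : 0 < σ * (rv x i - sj * rv x (i + 1) - sl * rv x (i + 2)) := by
        by_contra h5
        exact absurd (mul_nonpos_of_nonneg_of_nonpos hi.le (not_lt.1 h5)) (not_le.2 h3)
      have h5 := (hgap x hxV).2 h4
      have h6 := (abs_le.1 (hest x hxV)).1
      have h7 : (δ : ℝ) * (rv x (i + 1) + rv x (i + 2)) ≤ δ * M' :=
        mul_le_mul_of_nonneg_left (hbd' x hxV) δ0.le
      linarith
  -- the two functionals
  have hev1 : ∀ᶠ x in (F : Filter V),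
      0 < σ * (rv x i - qj * rv x (i + 1) - ql * rv x (i + 2)) := by
    obtain ⟨f, hf⟩ : ∃ f : R3, ∀ x, dp f x = σ * (x i - qj * x (i + 1) - ql * x (i + 2)) := by
      refine ⟨fun t => if t = i then σ else if t = i + 1 then -(σ * qj) else -(σ * ql), ?_⟩
      intro x
      rw [ucov_strip_dp _ x i]
      simp only [if_true, if_neg n1, if_neg n2, if_neg n3.symm]
      ring
    have h2 := hD f (by rw [hf, hk1, mul_zero]) (by
      rw [hf, hdiff, hv0]
      have e1 : σ * (0 - (qj - sj) * (v (i + 1) - rv k (i + 1) / rv k (i + 2) * v (i + 2))) =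
          (-(σ * (rv k (i + 2) * v (i + 1) - rv k (i + 1) * v (i + 2))) * (qj - sj)) /
            rv k (i + 2) := by
        field_simp
        ring
      rw [e1]
      exact div_pos hq2 kl)
    filter_upwards [h2] with x hx
    rw [hf] at hx
    exact hx
  have hev2 : ∀ᶠ x in (F : Filter V),
      0 < δ * (rv x (i + 1) + rv x (i + 2)) -
        σ * (rv x i - qj * rv x (i + 1) - ql * rv x (i + 2)) := by
    obtain ⟨f, hf⟩ : ∃ f : R3, ∀ x, dp f x = δ * (x (i + 1) + x (i + 2)) -
        σ * (x i - qj * x (i + 1) - ql * x (i + 2)) := by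
      refine ⟨fun t => if t = i then -σ else if t = i + 1 then δ + σ * qj else δ + σ * ql, ?_⟩
      intro x
      rw [ucov_strip_dp _ x i]
      simp only [if_true, if_neg n1, if_neg n2, if_neg n3.symm]
      ring
    have h2 := hL f (by
      rw [hf, hk1, mul_zero, sub_zero]
      exact mul_pos δ0 (add_pos kj kl))
    filter_upwards [h2] with x hx
    rw [hf] at hx
    exact hx
  have r1 : (0 : ℚ) ≤ δ := by exact_mod_cast δ0.le
  have r2 : (0 : ℚ) ≤ qj - δ := by
    have : (0 : ℝ) ≤ ((qj - δ : ℚ) : ℝ) := by push_cast; linarith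
    exact_mod_cast this
  have r3 : (0 : ℚ) ≤ ql - δ := by
    have : (0 : ℝ) ≤ ((ql - δ : ℚ) : ℝ) := by push_cast; linarith
    exact_mod_cast this
  rcases hσ with rfl | rfl
  · apply ucov_strip_finish h1 i (sj := qj) (sl := ql) (tj := qj + δ) (tl := ql + δ)
      (by linarith) (by linarith) (by linarith) (by linarith)
    · filter_upwards [hev1] with x hx
      linarith
    · filter_upwards [hev2] with x hx
      push_cast
      linarith
    · intro C hCC
      rcases htype C hCC with h2 | h2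
      · left
        intro x hx
        have := h2 x hx
        linarith
      · right
        intro x hx
        have := h2 x hx
        push_cast
        linarith
  · apply ucov_strip_finish h1 i (sj := qj - δ) (sl := ql - δ) (tj := qj) (tl := ql)
      r2 r3 (by linarith) (by linarith)
    · filter_upwards [hev2] with x hx
      push_cast
      linarith
    · filter_upwards [hev1] with x hx
      linarith
    · intro C hCC
      rcases htype C hCC with h2 | h2
      · right
        intro x hx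
        have := h2 x hx
        linarith
      · left
        intro x hx
        have := h2 x hx
        push_cast
        linarith

end Pool.Agent.MP2a1ef3.N3
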