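import Pool.Agent.Lib.MP_2a1ef3_lc.N3.Stm

/-!
Piece `us_lin` for MP_2a1ef3_lc, dimension three.
-/

set_option autoImplicit false

namespace Pool.Agent.MP2a1ef3.N3

open Filter

private theorem mem_closure_list {M : Type} [AddCommMonoid M] (l : List M) (y : M) :
    y ∈ AddSubmonoid.closure {r | r ∈ l} ↔ ∃ c : Fin l.length → ℕ, y = ∑ i, c i • l.get i := by
  constructor
  · intro hy
    induction hy using AddSubmonoid.closure_induction with
    | mem r hr =>
      obtain ⟨i, hi⟩ := List.get_of_mem hr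
      refine ⟨Pi.single i 1, ?_⟩
      rw [Finset.sum_eq_single i]
      · rw [Pi.single_eq_same, one_smul, hi]
      · intro j _ hj
        rw [Pi.single_eq_of_ne hj, zero_smul]
      · intro h
        exact absurd (Finset.mem_univ i) h
    | zero => exact ⟨0, by simp⟩
    | add a b _ _ ha hb =>
      obtain ⟨c, rfl⟩ := ha
      obtain ⟨d, rfl⟩ := hb
      refine ⟨c + d, ?_⟩
      rw [← Finset.sum_add_distrib]
      exact Finset.sum_congr rfl fun i _ => (add_smul _ _ _).symm
  · rintro ⟨c, rfl⟩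
    refine sum_mem fun i _ => nsmul_mem (AddSubmonoid.subset_closure ?_) _
    exact List.get_mem l i

private theorem mem_closure_fin (P : Finset V) (y : V) :
    y ∈ AddSubmonoid.closure {r | r ∈ P} ↔ ∃ n : V → ℕ, y = ∑ p ∈ P, n p • p := by
  constructor
  · intro hy
    induction hy using AddSubmonoid.closure_induction with
    | mem r hr =>
      refine ⟨Pi.single r 1, ?_⟩
      rw [Finset.sum_eq_single r]
      · rw [Pi.single_eq_same, one_smul]
      · intro j _ hj
        rw [Pi.single_eq_of_ne hj, zero_smul]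
      · intro h
        exact absurd hr h
    | zero => exact ⟨0, by simp⟩
    | add a b _ _ ha hb =>
      obtain ⟨c, rfl⟩ := ha
      obtain ⟨d, rfl⟩ := hb
      refine ⟨c + d, ?_⟩
      rw [← Finset.sum_add_distrib]
      exact Finset.sum_congr rfl fun i _ => (add_smul _ _ _).symm
  · rintro ⟨c, rfl⟩
    refine sum_mem fun i hi => nsmul_mem (AddSubmonoid.subset_closure ?_) _
    exact hi

theorem p_us_lin : S_us_lin := by
  intro S
  have key : ∀ (c : V) (l : List V) (x : V),
      (∃ k : Fin l.length → ℕ, x = c + ∑ i, k i • l.get i) ↔ x ∈ Lin c l.toFinset := by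
    intro c l x
    have hset : {r | r ∈ l} = {r | r ∈ l.toFinset} := by
      ext r
      simp
    constructor
    · rintro ⟨k, rfl⟩
      have h1 := (mem_closure_list l _).2 ⟨k, rfl⟩
      rw [hset] at h1
      obtain ⟨n, hn⟩ := (mem_closure_fin _ _).1 h1
      exact ⟨n, by rw [hn]⟩
    · rintro ⟨n, rfl⟩
      have h1 := (mem_closure_fin l.toFinset _).2 ⟨n, rfl⟩
      rw [← hset] at h1
      obtain ⟨k, hk⟩ := (mem_closure_list _ _).1 h1
      exact ⟨k, by rw [hk]⟩
  ext x
  rw [Set.mem_iUnion₂]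
  constructor
  · rintro ⟨p, hp, hx⟩
    refine ⟨(p.1, p.2.toFinset), ?_, (key p.1 p.2 x).1 hx⟩
    rw [List.mem_toFinset]
    exact List.mem_map.2 ⟨p, hp, rfl⟩
  · rintro ⟨q, hq, hx⟩
    rw [List.mem_toFinset] at hq
    obtain ⟨p, hp, rfl⟩ := List.mem_map.1 hq
    exact ⟨p, hp, (key p.1 p.2 x).2 hx⟩
end Pool.Agent.MP2a1ef3.N3
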