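import Pool.Agent.Lib.MP_2a1ef3_lc.N3.Stm

/-!
# MP_2a1ef3_lc, dimension three: piece us_primrec
-/

set_option autoImplicit false

namespace Pool.Agent.MP2a1ef3.N3

open Filter

/-- all vectors `a + t r`, `a` in the list, `t ≤ B` -/
private def us_primrec_ext (B : ℕ) (acc : List V) (r : V) : List V :=
  acc.flatMap (fun a => (List.range (B + 1)).map (fun t => (fun j => a j + t * r j : V)))

/-- all sums with coefficients at most `B` -/
private def us_primrec_all (B : ℕ) (c : V) (L : List V) : List V :=
  L.foldl (us_primrec_ext B) [c]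

private def us_primrec_rep (B : ℕ) : List V → V → V → Prop
  | [], a, y => y = a
  | r :: L, a, y => ∃ t ≤ B, us_primrec_rep B L (fun j => a j + t * r j) y

private theorem us_primrec_mem (B : ℕ) (L : List V) (acc : List V) (y : V) :
    y ∈ L.foldl (us_primrec_ext B) acc ↔ ∃ a ∈ acc, us_primrec_rep B L a y := by
  induction L generalizing acc with
  | nil => simp [us_primrec_rep]
  | cons r L ih =>
    rw [List.foldl_cons, ih]
    constructor
    · rintro ⟨a, ha, h⟩
      unfold us_primrec_ext at ha
      rw [List.mem_flatMap] at ha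
      obtain ⟨b, hb, hab⟩ := ha
      rw [List.mem_map] at hab
      obtain ⟨t, ht, rfl⟩ := hab
      rw [List.mem_range] at ht
      exact ⟨b, hb, t, by omega, h⟩
    · rintro ⟨a, ha, t, ht, h⟩
      refine ⟨_, ?_, h⟩
      unfold us_primrec_ext
      rw [List.mem_flatMap]
      exact ⟨a, ha, List.mem_map.2 ⟨t, List.mem_range.2 (by omega), rfl⟩⟩

private theorem us_primrec_repI (B : ℕ) (L : List V) (a y : V) :
    us_primrec_rep B L a y ↔ ∃ c : Fin L.length → ℕ, (∀ i, c i ≤ B) ∧
      y = a + ∑ i, c i • L.get i := by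
  induction L generalizing a with
  | nil => 
    constructor
    · intro h
      exact ⟨fun _ => 0, fun _ => Nat.zero_le _, by simpa [us_primrec_rep] using h⟩
    · rintro ⟨c, -, h⟩
      simpa [us_primrec_rep] using h
  | cons r L ih =>
    constructor
    · rintro ⟨t, ht, h⟩
      obtain ⟨c, hc, hy⟩ := (ih _).1 h
      refine ⟨Fin.cons t c, ?_, ?_⟩
      · intro i
        refine Fin.cases ?_ (fun i => ?_) i
        · exact ht
        · exact hc i
      · rw [hy]
        have e : ∑ i : Fin (r :: L).length, (Fin.cons t c : Fin (L.length + 1) → ℕ) i •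
            (r :: L).get i = t • r + ∑ i, c i • L.get i :=
          Fin.sum_univ_succ _
        rw [e, ← add_assoc]
        rfl
    · rintro ⟨c, hc, hy⟩
      refine ⟨c 0, hc 0, (ih _).2 ⟨fun i => c i.succ, fun i => hc _, ?_⟩⟩
      rw [hy]
      have e : ∑ i : Fin (r :: L).length, c i • (r :: L).get i =
          c 0 • r + ∑ i : Fin L.length, c i.succ • L.get i :=
        Fin.sum_univ_succ _
      rw [e, ← add_assoc]
      rfl

private theorem us_primrec_iff (y : V) (S : List (V × List V)) :
    y ∈ US S ↔ ∃ p ∈ S, ∃ a ∈ us_primrec_all (y 0 + y 1 + y 2) p.1 p.2, a = y := by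
  constructor
  · rintro ⟨p, hp, c, hc⟩
    refine ⟨p, hp, y, ?_, rfl⟩
    unfold us_primrec_all
    rw [us_primrec_mem]
    refine ⟨p.1, List.mem_singleton.2 rfl, ?_⟩
    rw [us_primrec_repI]
    refine ⟨fun i => if p.2.get i = 0 then 0 else c i, ?_, ?_⟩
    · intro i
      by_cases h0 : p.2.get i = 0
      · simp only [h0, if_true]
        exact Nat.zero_le _
      · simp only [h0, if_false]
        obtain ⟨j, hj⟩ : ∃ j, p.2.get i j ≠ 0 := by
          by_contra h
          push Not at h
          exact h0 (funext h)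
        have h1 : c i * p.2.get i j ≤ y j := by
          rw [hc, Pi.add_apply, Finset.sum_apply]
          refine le_trans ?_ (Nat.le_add_left _ _)
          exact Finset.single_le_sum (f := fun i => (c i • p.2.get i) j)
            (fun _ _ => Nat.zero_le _) (Finset.mem_univ i)
        have h2 : c i ≤ c i * p.2.get i j := Nat.le_mul_of_pos_right _ (Nat.pos_of_ne_zero hj)
        have h3 : y j ≤ y 0 + y 1 + y 2 := by
          rw [← Fin.sum_univ_three]
          exact Finset.single_le_sum (fun _ _ => Nat.zero_le _) (Finset.mem_univ j)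
        omega
    · rw [hc]
      congr 1
      apply Finset.sum_congr rfl
      intro i _
      by_cases h0 : p.2.get i = 0
      · rw [h0, smul_zero, smul_zero]
      · simp only [h0, if_false]
  · rintro ⟨p, hp, a, ha, rfl⟩
    unfold us_primrec_all at ha
    rw [us_primrec_mem] at ha
    obtain ⟨b, hb, h⟩ := ha
    rw [List.mem_singleton] at hb
    subst hb
    rw [us_primrec_repI] at h
    obtain ⟨c, -, hc⟩ := h
    exact ⟨p, hp, c, hc⟩

private theorem us_primrec_app {α : Type} [Primcodable α] {f : α → V} (hf : Primrec f)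
    (j : Fin 3) : Primrec (fun a => f a j) :=
  Primrec.fin_app.comp hf (Primrec.const j)

private theorem us_primrec_pext : Primrec (fun x : ℕ × List V × V =>
    us_primrec_ext x.1 x.2.1 x.2.2) := by
  unfold us_primrec_ext
  apply Primrec.list_flatMap (Primrec.fst.comp Primrec.snd)
  apply Primrec.list_map
  · exact Primrec.list_range.comp (Primrec.succ.comp (Primrec.fst.comp Primrec.fst))
  · refine Primrec.fin_curry.2 ?_
    have h1 : Primrec (fun x : ((((ℕ × List V × V) × V) × ℕ) × Fin 3) => x.1.1.2 x.2) :=
      Primrec.fin_app.comp (Primrec.snd.comp (Primrec.fst.comp Primrec.fst)) Primrec.snd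
    have h2 : Primrec (fun x : ((((ℕ × List V × V) × V) × ℕ) × Fin 3) => x.1.1.1.2.2 x.2) :=
      Primrec.fin_app.comp (Primrec.snd.comp (Primrec.snd.comp (Primrec.fst.comp
        (Primrec.fst.comp Primrec.fst)))) Primrec.snd
    exact Primrec.nat_add.comp h1 (Primrec.nat_mul.comp (Primrec.snd.comp Primrec.fst) h2)

private theorem us_primrec_pall : Primrec (fun x : (V × List V) × V =>
    us_primrec_all (x.2 0 + x.2 1 + x.2 2) x.1.1 x.1.2) := by
  unfold us_primrec_all
  have hB : Primrec (fun x : (V × List V) × V => x.2 0 + x.2 1 + x.2 2) :=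
    Primrec.nat_add.comp (Primrec.nat_add.comp (us_primrec_app Primrec.snd 0)
      (us_primrec_app Primrec.snd 1)) (us_primrec_app Primrec.snd 2)
  apply Primrec.list_foldl (h := fun (x : (V × List V) × V) (z : List V × V) =>
    us_primrec_ext (x.2 0 + x.2 1 + x.2 2) z.1 z.2)
  · exact Primrec.snd.comp Primrec.fst
  · exact Primrec.list_cons.comp (Primrec.fst.comp Primrec.fst) (Primrec.const [])
  · exact us_primrec_pext.comp (Primrec.pair (hB.comp Primrec.fst)
      (Primrec.pair (Primrec.fst.comp Primrec.snd) (Primrec.snd.comp Primrec.snd)))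

theorem p_us_primrec : S_us_primrec := by
  have h1 : PrimrecRel (fun (p : V × List V) (y : V) =>
      ∃ a ∈ us_primrec_all (y 0 + y 1 + y 2) p.1 p.2, a = y) :=
    (PrimrecRel.exists_mem_list Primrec.eq).comp us_primrec_pall Primrec.snd
  have h2 := (PrimrecRel.exists_mem_list h1).comp (Primrec.snd (α := V))
    (Primrec.fst (β := List (V × List V)))
  exact h2.of_eq fun y => (us_primrec_iff y.1 y.2).symm

end Pool.Agent.MP2a1ef3.N3
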