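import Pool.Agent.Lib.MP_2a1ef3_lc.N3.Stm

set_option autoImplicit false

namespace Pool.Agent.MP2a1ef3.N3

open Filter

private theorem ur_mk {α : Type} [Primcodable α] {f : α → V}
    (h : ∀ j, Primrec (fun x => f x j)) : Primrec f :=
  Primrec.fin_curry.2 ((Primrec.fin_curry₁ (f := fun j x => f x j)).2 h).swap

/-- Bounded quantification over vectors. -/
private theorem ur_forall {β : Type} [Primcodable β] {R : V × β → Prop} (hR : PrimrecPred R) :
    PrimrecPred (fun x : ℕ × β => ∀ v : V, (∀ i, v i < x.1) → R (v, x.2)) := by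
  have h1 : PrimrecRel (fun (c : ℕ) (y : ℕ × ℕ × ℕ × β) => R (![y.1, y.2.1, c], y.2.2.2)) := by
    refine hR.comp (Primrec.pair (ur_mk ?_) ?_)
    · intro j
      fin_cases j
      · exact Primrec.fst.comp Primrec.snd
      · exact Primrec.fst.comp (Primrec.snd.comp Primrec.snd)
      · exact Primrec.fst
    · exact Primrec.snd.comp (Primrec.snd.comp (Primrec.snd.comp Primrec.snd))
  have h2 : PrimrecPred (fun y : ℕ × ℕ × ℕ × β =>
      ∀ c ∈ List.range y.2.2.1, R (![y.1, y.2.1, c], y.2.2.2)) :=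
    PrimrecRel.comp h1.forall_mem_list
      (Primrec.list_range.comp (Primrec.fst.comp (Primrec.snd.comp Primrec.snd))) Primrec.id
  have h3 : PrimrecRel (fun (b : ℕ) (y : ℕ × ℕ × β) =>
      ∀ c ∈ List.range y.2.1, R (![y.1, b, c], y.2.2)) :=
    h2.comp (Primrec.pair (Primrec.fst.comp Primrec.snd) (Primrec.pair Primrec.fst
      (Primrec.snd.comp Primrec.snd)))
  have h4 : PrimrecPred (fun y : ℕ × ℕ × β => ∀ b ∈ List.range y.2.1,
      ∀ c ∈ List.range y.2.1, R (![y.1, b, c], y.2.2)) :=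
    PrimrecRel.comp h3.forall_mem_list
      (Primrec.list_range.comp (Primrec.fst.comp Primrec.snd)) Primrec.id
  have h5 : PrimrecRel (fun (a : ℕ) (y : ℕ × β) => ∀ b ∈ List.range y.1,
      ∀ c ∈ List.range y.1, R (![a, b, c], y.2)) :=
    h4.comp (Primrec.pair Primrec.fst Primrec.snd)
  have h6 : PrimrecPred (fun y : ℕ × β => ∀ a ∈ List.range y.1, ∀ b ∈ List.range y.1,
      ∀ c ∈ List.range y.1, R (![a, b, c], y.2)) :=
    PrimrecRel.comp h5.forall_mem_list (Primrec.list_range.comp Primrec.fst) Primrec.id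
  refine h6.of_eq ?_
  rintro ⟨n, y⟩
  simp only [List.mem_range]
  constructor
  · intro h v hv
    have h7 := h (v 0) (hv 0) (v 1) (hv 1) (v 2) (hv 2)
    have : ![v 0, v 1, v 2] = v := by
      funext i
      fin_cases i <;> rfl
    rwa [this] at h7
  · intro h a ha b hb c hc
    apply h
    intro i
    fin_cases i
    · exact ha
    · exact hb
    · exact hc

theorem p_us_rel_primrec (h1 : S_small_witness) (h2 : S_us_primrec) (h3 : S_bnd_primrec) :
    S_us_rel_primrec := by
  have hmem : ∀ (S : List (V × List V)) (x : V), x ∈ US S ↔ ∃ p ∈ S, x ∈ US [p] := by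
    intro S x
    constructor
    · rintro ⟨p, hp, c, hc⟩
      exact ⟨p, hp, p, List.mem_singleton.2 rfl, c, hc⟩
    · rintro ⟨p, hp, p', hp', c, hc⟩
      rw [List.mem_singleton] at hp'
      subst hp'
      exact ⟨p', hp, c, hc⟩
  have hmem1 : PrimrecPred (fun y : V × (List (V × List V) × List (V × List V)) =>
      y.1 ∈ US y.2.1) :=
    h2.comp (Primrec.pair Primrec.fst (Primrec.fst.comp Primrec.snd))
  have hmem2 : PrimrecPred (fun y : V × (List (V × List V) × List (V × List V)) =>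
      y.1 ∈ US y.2.2) :=
    h2.comp (Primrec.pair Primrec.fst (Primrec.snd.comp Primrec.snd))
  have hb : Primrec (fun x : List (V × List V) × List (V × List V) => bnd 3 (x.1 ++ x.2)) :=
    h3.comp (Primrec.list_append.comp Primrec.fst Primrec.snd)
  constructor
  · have h4 : PrimrecPred (fun y : V × (List (V × List V) × List (V × List V)) =>
        ¬ (y.1 ∈ US y.2.1 ∧ ¬ y.1 ∈ US y.2.2)) := (hmem1.and hmem2.not).not
    have h5 := (ur_forall h4).comp (Primrec.pair hb Primrec.id)
    refine h5.of_eq ?_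
    rintro ⟨S, T⟩
    simp only [id_eq]
    constructor
    · intro h x hx
      obtain ⟨x', hx'1, hx'2⟩ := h1 (S ++ T) x
      have h6 := h x' hx'1
      push Not at h6
      obtain ⟨p, hp, hxp⟩ := (hmem S x).1 hx
      have h7 := h6 ((hmem S x').2 ⟨p, hp,
        (hx'2 p (List.mem_append_left _ hp)).1 hxp⟩)
      obtain ⟨p', hp', hxp'⟩ := (hmem T x').1 h7
      exact (hmem T x).2 ⟨p', hp', (hx'2 p' (List.mem_append_right _ hp')).2 hxp'⟩
    · intro h v hv hcon
      exact hcon.2 (h hcon.1)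
  · have h4 : PrimrecPred (fun y : V × (List (V × List V) × List (V × List V)) =>
        ¬ (y.1 ∈ US y.2.1 ∧ y.1 ∈ US y.2.2)) := (hmem1.and hmem2).not
    have h5 := (ur_forall h4).comp (Primrec.pair hb Primrec.id)
    refine h5.of_eq ?_
    rintro ⟨S, T⟩
    simp only [id_eq]
    constructor
    · intro h
      rw [Set.disjoint_left]
      intro x hx hxT
      obtain ⟨x', hx'1, hx'2⟩ := h1 (S ++ T) x
      apply h x' hx'1
      obtain ⟨p, hp, hxp⟩ := (hmem S x).1 hx
      obtain ⟨p', hp', hxp'⟩ := (hmem T x).1 hxT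
      exact ⟨(hmem S x').2 ⟨p, hp, (hx'2 p (List.mem_append_left _ hp)).1 hxp⟩,
        (hmem T x').2 ⟨p', hp', (hx'2 p' (List.mem_append_right _ hp')).1 hxp'⟩⟩
    · intro h v hv hcon
      exact Set.disjoint_left.1 h hcon.1 hcon.2

end Pool.Agent.MP2a1ef3.N3
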