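import Pool.Agent.Lib.MP_2a1ef3_lc.N3.Stm

/-!
Piece `white_congr` for MP_2a1ef3_lc, dimension three.
-/

set_option autoImplicit false

namespace Pool.Agent.MP2a1ef3.N3

open Filter

/-- a bound for the values at `x₀` -/
private def bd0 (H : Finset Z3) (B : ℤ) (x₀ : Z3) : ℕ :=
  (∑ h ∈ H, (h ⬝ᵥ x₀).natAbs) + B.natAbs + 1

private theorem bd0_le {H : Finset Z3} {B : ℤ} {x₀ : Z3} {h : Z3} (hh : h ∈ H) {t : ℕ}
    (ht : bd0 H B x₀ ≤ t) : |h ⬝ᵥ x₀| + |B| + 1 ≤ t := by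
  have h1 : (h ⬝ᵥ x₀).natAbs ≤ ∑ h ∈ H, (h ⬝ᵥ x₀).natAbs :=
    Finset.single_le_sum (f := fun h : Z3 => (h ⬝ᵥ x₀).natAbs) (fun _ _ => Nat.zero_le _) hh
  unfold bd0 at ht
  rw [Int.abs_eq_natAbs, Int.abs_eq_natAbs]
  omega

private theorem val_eq {h x₀ : Z3} {x y : V} {k : ℕ} (hx : zv x = x₀ + ((k : ℕ) : ℤ) • zv y) :
    h ⬝ᵥ zv x = h ⬝ᵥ x₀ + (k : ℤ) * (h ⬝ᵥ zv y) := by
  rw [hx, dotProduct_add, dotProduct_smul, smul_eq_mul]

/-- the comparison of two points -/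
private theorem tame_pair {X : Set V} {H : Finset Z3} {B : ℤ} {m : ℕ} (hm : 0 < m)
    (hT : Tame X H B m) {x₀ : Z3} {y y' : V}
    (hs : ∀ h ∈ H, SignType.sign (h ⬝ᵥ zv y) = SignType.sign (h ⬝ᵥ zv y')) {t t' : ℕ}
    (ht : bd0 H B x₀ ≤ t) (ht' : bd0 H B x₀ ≤ t') {x x' : V}
    (hx : zv x = x₀ + ((m * t : ℕ) : ℤ) • zv y) (hx' : zv x' = x₀ + ((m * t' : ℕ) : ℤ) • zv y') :
    x ∈ X ↔ x' ∈ X := by
  apply hT
  · intro j
    rw [hx, hx']
    refine ⟨(t : ℤ) * zv y j - (t' : ℤ) * zv y' j, ?_⟩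
    simp only [Pi.add_apply, Pi.smul_apply, smul_eq_mul]
    push_cast
    ring
  · intro h hh
    have e := val_eq (h := h) hx
    have e' := val_eq (h := h) hx'
    have b := bd0_le hh ht
    have b' := bd0_le hh ht'
    have h1 := neg_abs_le (h ⬝ᵥ x₀)
    have h2 := le_abs_self (h ⬝ᵥ x₀)
    have h3 := neg_abs_le B
    have h4 := le_abs_self B
    have hm1 : (1 : ℤ) ≤ m := by exact_mod_cast hm
    have t0 : (0 : ℤ) ≤ t := Int.natCast_nonneg t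
    have t0' : (0 : ℤ) ≤ t' := Int.natCast_nonneg t'
    push_cast at e e'
    rcases lt_trichotomy (h ⬝ᵥ zv y) 0 with hy | hy | hy
    · have hy' : h ⬝ᵥ zv y' < 0 := by
        have := hs h hh
        rw [sign_neg hy] at this
        exact sign_eq_neg_one_iff.1 this.symm
      right; right
      have c : (m : ℤ) * t * (h ⬝ᵥ zv y) ≤ -t := by nlinarith [mul_nonneg t0 (by linarith : (0:ℤ) ≤ (m : ℤ) - 1), mul_nonneg (mul_nonneg (by linarith : (0:ℤ) ≤ (m : ℤ)) t0) (by linarith : (0 : ℤ) ≤ -(h ⬝ᵥ zv y) - 1)]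
      have c' : (m : ℤ) * t' * (h ⬝ᵥ zv y') ≤ -t' := by nlinarith [mul_nonneg t0' (by linarith : (0:ℤ) ≤ (m : ℤ) - 1), mul_nonneg (mul_nonneg (by linarith : (0:ℤ) ≤ (m : ℤ)) t0') (by linarith : (0 : ℤ) ≤ -(h ⬝ᵥ zv y') - 1)]
      constructor <;> linarith
    · have hy' : h ⬝ᵥ zv y' = 0 := by
        have := hs h hh
        rw [hy, sign_zero] at this
        exact sign_eq_zero_iff.1 this.symm
      left
      rw [e, e', hy, hy']
      ring
    · have hy' : 0 < h ⬝ᵥ zv y' := by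
        have := hs h hh
        rw [sign_pos hy] at this
        exact sign_eq_one_iff.1 this.symm
      right; left
      have c : (t : ℤ) ≤ (m : ℤ) * t * (h ⬝ᵥ zv y) := by nlinarith [mul_nonneg t0 (by linarith : (0:ℤ) ≤ (m : ℤ) - 1), mul_nonneg (mul_nonneg (by linarith : (0:ℤ) ≤ (m : ℤ)) t0) (by linarith : (0 : ℤ) ≤ (h ⬝ᵥ zv y) - 1)]
      have c' : (t' : ℤ) ≤ (m : ℤ) * t' * (h ⬝ᵥ zv y') := by nlinarith [mul_nonneg t0' (by linarith : (0:ℤ) ≤ (m : ℤ) - 1), mul_nonneg (mul_nonneg (by linarith : (0:ℤ) ≤ (m : ℤ)) t0') (by linarith : (0 : ℤ) ≤ (h ⬝ᵥ zv y') - 1)]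
      constructor <;> linarith

theorem p_white_congr : S_white_congr := by
  intro X H B m hm hT hc x₀ y y' hs h
  obtain ⟨t₁, h1, ht₁⟩ := (h.and (eventually_ge_atTop (bd0 H B x₀))).exists
  filter_upwards [eventually_ge_atTop (bd0 H B x₀)] with t ht x' hx'
  have hnn : ∀ j, 0 ≤ x₀ j + ((m * t₁ : ℕ) : ℤ) * zv y j := by
    intro j
    have hj := hs (Pi.single j 1) (hc j)
    have hb := bd0_le (hc j) ht₁
    rw [single_one_dotProduct, single_one_dotProduct] at hj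
    rw [single_one_dotProduct] at hb
    have y0 : 0 ≤ zv y j := Int.natCast_nonneg _
    rcases y0.eq_or_lt with h2 | h2
    · rw [← h2, sign_zero] at hj
      have h3 : zv y' j = 0 := sign_eq_zero_iff.1 hj.symm
      have h4 := congrFun hx' j
      simp only [Pi.add_apply, Pi.smul_apply, smul_eq_mul, h3, mul_zero, add_zero] at h4
      rw [← h2, mul_zero, add_zero, ← h4]
      exact Int.natCast_nonneg _
    · have h3 := neg_abs_le (x₀ j)
      have h4 : (0 : ℤ) ≤ |B| := abs_nonneg _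
      have hm1 : (1 : ℤ) ≤ m := by exact_mod_cast hm
      have t0 : (0 : ℤ) ≤ t₁ := Int.natCast_nonneg t₁
      have h5 : (t₁ : ℤ) ≤ (m : ℤ) * t₁ * zv y j := by nlinarith [mul_nonneg t0 (by linarith : (0:ℤ) ≤ (m : ℤ) - 1), mul_nonneg (mul_nonneg (by linarith : (0:ℤ) ≤ (m : ℤ)) t0) (by linarith : (0 : ℤ) ≤ zv y j - 1)]
      push_cast
      linarith
  let x : V := fun j => (x₀ j + ((m * t₁ : ℕ) : ℤ) * zv y j).toNat
  have hx : zv x = x₀ + ((m * t₁ : ℕ) : ℤ) • zv y := by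
    funext j
    show (((x₀ j + ((m * t₁ : ℕ) : ℤ) * zv y j).toNat : ℕ) : ℤ) = _
    rw [Int.toNat_of_nonneg (hnn j)]
    rfl
  exact (tame_pair hm hT hs ht₁ ht hx hx').1 (h1 x hx)

end Pool.Agent.MP2a1ef3.N3
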