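import Pool.Agent.Lib.MP_2a1ef3_lc.N3.Stm

/-!
Piece `white_ultra` for MP_2a1ef3_lc, dimension three.
-/

set_option autoImplicit false

namespace Pool.Agent.MP2a1ef3.N3

open Filter

theorem p_white_ultra (h1 : S_trich) (h2 : S_sh_spec) : S_white_ultra := by
  intro X H B m hm hB hT hc U x₀ h0 hx hX
  have hH : ∀ᶠ x in (U : Filter V), ∀ h ∈ H, h ⬝ᵥ zv x = h ⬝ᵥ x₀ ∨
      (B < h ⬝ᵥ zv x ∧ h ⬝ᵥ x₀ < h ⬝ᵥ zv x) ∨ (h ⬝ᵥ zv x < -B ∧ h ⬝ᵥ zv x < h ⬝ᵥ x₀) := by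
    rw [Filter.eventually_all_finset]
    intro h _
    rcases h1 h0 h with h3 | h3 | h3
    · filter_upwards [h3] with x hx using Or.inl hx
    · filter_upwards [h3 B, h3 (h ⬝ᵥ x₀)] with x hx hx' using Or.inr (Or.inl ⟨hx, hx'⟩)
    · filter_upwards [h3 (-B), h3 (h ⬝ᵥ x₀)] with x hx hx' using Or.inr (Or.inr ⟨hx, hx'⟩)
  filter_upwards [hx, hX, hH, h2 h0] with x hx hX hH hsh
  unfold White
  filter_upwards [eventually_ge_atTop 1] with t ht x' hx'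
  refine (hT x x' ?_ ?_).1 hX
  · intro j
    rw [hx', Pi.add_apply, Pi.smul_apply, smul_eq_mul]
    have h3 : zv x j - (x₀ j + ((m * t : ℕ) : ℤ) * zv (sh x₀ x) j) =
        (zv x j - x₀ j) - (m : ℤ) * (t * zv (sh x₀ x) j) := by
      push_cast
      ring
    rw [h3]
    exact dvd_sub (hx j) (dvd_mul_right _ _)
  · intro h hh
    have e : h ⬝ᵥ zv x' = h ⬝ᵥ x₀ + ((m : ℤ) * t) * (h ⬝ᵥ zv x - h ⬝ᵥ x₀) := by
      rw [hx', hsh, dotProduct_add, dotProduct_smul, smul_eq_mul, dotProduct_sub]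
      push_cast
      ring
    have hk : (1 : ℤ) ≤ (m : ℤ) * t := by
      have : 1 ≤ m * t := Nat.one_le_iff_ne_zero.2 (by positivity)
      exact_mod_cast this
    rcases hH h hh with h3 | ⟨h3, h4⟩ | ⟨h3, h4⟩
    · left
      rw [e, h3]
      ring
    · right; left
      refine ⟨h3, ?_⟩
      rw [e]
      nlinarith [mul_nonneg (sub_nonneg.2 hk) (sub_nonneg.2 h4.le)]
    · right; right
      refine ⟨h3, ?_⟩
      rw [e]
      nlinarith [mul_nonneg (sub_nonneg.2 hk) (sub_nonneg.2 h4.le)]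

end Pool.Agent.MP2a1ef3.N3
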