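import Pool.Agent.Lib.MP_2a1ef3_lc.N3.Stm

set_option autoImplicit false

namespace Pool.Agent.MP2a1ef3.N3

open Filter

private theorem cog_zv_inj {x y : V} (h : zv x = zv y) : x = y := by
  funext j
  have := congrFun h j
  simpa [zv] using this

private theorem cog_list_sum (L : List V) : L.sum = ∑ i, L.get i := by
  conv_lhs => rw [← List.ofFn_get L]
  rw [List.sum_ofFn]

private theorem cog_mem {L : List V} {N : ℕ} {b u u' x : V} {x₀ : Z3}
    (hu : zv u - zv u' = x₀) (hb : ∀ j, b j + u' j = u j + N * L.sum j)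
    (hx : x ∈ US [(b, sc N L)]) :
    ∃ c : Fin L.length → ℕ, (∀ i, 1 ≤ c i) ∧
      zv x = x₀ + (N : ℤ) • zv (∑ i, c i • L.get i) := by
  obtain ⟨p, hp, c, hc⟩ := hx
  rw [List.mem_singleton] at hp
  subst hp
  have hlen : L.length = (sc N L).length := by simp [sc]
  refine ⟨fun i => c (Fin.cast hlen i) + 1, fun i => Nat.le_add_left 1 _, ?_⟩
  have h1 : (∑ i, c i • (sc N L).get i) =
      ∑ i : Fin L.length, c (Fin.cast hlen i) • (fun j => N * L.get i j : V) := by
    rw [← (finCongr hlen).sum_comp]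
    refine Finset.sum_congr rfl fun i _ => ?_
    have e1 : (sc N L).get ((finCongr hlen) i) = (fun j => N * L.get i j : V) := by
      simp only [sc, List.get_eq_getElem, List.getElem_map]
      rfl
    rw [e1]
    rfl
  funext j
  have h2 := congrFun hc j
  simp only [h1] at h2
  have h3 := hb j
  have h4 := congrFun hu j
  rw [cog_list_sum] at h3
  simp only [Pi.add_apply, Finset.sum_apply, Pi.smul_apply, smul_eq_mul] at h2 h3
  simp only [zv, Pi.sub_apply] at h4
  simp only [zv, Pi.add_apply, Pi.smul_apply, Finset.sum_apply, smul_eq_mul]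
  rw [h2]
  push_cast
  have h5 : (b j : ℤ) = x₀ j + N * ∑ i : Fin L.length, ((L.get i) j : ℤ) := by
    have : ((b j + u' j : ℕ) : ℤ) = ((u j + N * ∑ i : Fin L.length, (L.get i) j : ℕ) : ℤ) := by
      exact_mod_cast h3
    push_cast at this
    linarith
  rw [h5]
  simp only [add_mul, one_mul, Finset.sum_add_distrib, mul_add]
  rw [Finset.mul_sum, Finset.mul_sum]
  have h6 : ∀ i : Fin L.length, ((c (Fin.cast hlen i) : ℤ)) * (N * ((L.get i) j : ℤ)) =
      N * ((c (Fin.cast hlen i) : ℤ) * ((L.get i) j : ℤ)) := fun i => by ring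
  simp only [h6]
  ring

private theorem cog_three (g₁ g₂ g₃ : V) (c : Fin ([g₁, g₂, g₃] : List V).length → ℕ) :
    ∃ i₀ i₁ i₂, (∑ i, c i • ([g₁, g₂, g₃] : List V).get i) =
      c i₀ • g₁ + c i₁ • g₂ + c i₂ • g₃ := by
  refine ⟨⟨0, by simp⟩, ⟨1, by simp⟩, ⟨2, by simp⟩, ?_⟩
  exact Fin.sum_univ_three (fun i : Fin 3 => c i • ([g₁, g₂, g₃] : List V).get i)

private theorem cog_coord {D : Finset V} {y : V} (hy : rv y ∈ ocone D) (j : Fin 3) :
    0 < y j → ∃ k ∈ D, 0 < k j := by
  obtain ⟨l, hl, hs⟩ := hy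
  have h := congrFun hs j
  simp only [rv, Finset.sum_apply, Pi.smul_apply, smul_eq_mul] at h
  intro hj
  by_contra hcon
  push Not at hcon
  have : (∑ c ∈ D, l c * (c j : ℝ)) = 0 := by
    refine Finset.sum_eq_zero fun c hc => ?_
    have := hcon c hc
    have h0 : c j = 0 := by omega
    simp [h0]
  rw [this] at h
  have : (0 : ℝ) < (y j : ℝ) := by exact_mod_cast hj
  linarith

theorem p_cert_of_germ (h1 : S_white_congr) (h2 : S_white_unif) (h3 : S_sign_ocone)
    (h4 : S_germ_cone) (h5 : S_cov_n1) (h6 : S_cov_n2) : S_cert_of_germ := by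
  classical
  intro S H B m hm hT hc x₀ DD CC hD1 hD2 hCC q v w hpos havoid hn
  obtain ⟨t₀, ht0, hU⟩ := h2 hm hT hc x₀
  obtain ⟨M, hM⟩ := h4 H q v w
  have hsum : ∀ D : Finset V, rv (∑ k ∈ D, k) ∈ ocone D := by
    intro D
    refine ⟨fun _ => 1, fun _ _ => one_pos, ?_⟩
    funext j
    simp [rv, Finset.sum_apply]
  -- the germ is white
  have hgermW : ∀ᶠ N : ℕ in atTop, White (US S) x₀ m (germ q v w N) := by
    have hall : ∀ᶠ N : ℕ in atTop, ∀ C ∈ CC, rv (germ q v w N) ∉ ocone C :=
      (Filter.eventually_all_finset CC).2 havoid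
    filter_upwards [hall, eventually_ge_atTop 1] with N hN hN1
    obtain ⟨D, hD, hyD⟩ := hD2 (germ q v w N)
    have hDC : D ∉ CC := fun hDC => hN D hDC hyD
    have hDpos : ∀ j, ∃ k ∈ D, 0 < k j := by
      intro j
      refine cog_coord hyD j ?_
      have h7 := hpos j
      have h8 : q j ≤ N ^ 2 * q j := Nat.le_mul_of_pos_left _ (by positivity)
      have h9 : v j ≤ N * v j := Nat.le_mul_of_pos_left _ (by omega)
      simp only [germ]
      omega
    have hDw : White (US S) x₀ m (∑ k ∈ D, k) := by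
      by_contra hcon
      exact hDC ((hCC D).2 ⟨hD, hDpos, hcon⟩)
    exact h1 hm hT hc (fun h hh => h3 (hD1 D hD h hh) (hsum D) hyD) hDw
  -- the cone of the germ
  set G : List V := gcone M q v w with hG
  have hGy : ∀ c : Fin G.length → ℕ, ∃ i₀ i₁ i₂, (∑ i, c i • G.get i) = fun j =>
      c i₀ * q j + c i₁ * (M * q j + v j) + c i₂ * (M ^ 2 * q j + M * v j + w j) := by
    intro c
    obtain ⟨i₀, i₁, i₂, h⟩ := cog_three q (fun j => M * q j + v j)
      (fun j => M ^ 2 * q j + M * v j + w j) c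
    refine ⟨i₀, i₁, i₂, ?_⟩
    refine h.trans ?_
    funext j
    simp
  have hGW : ∀ c : Fin G.length → ℕ, (∀ i, 1 ≤ c i) →
      White (US S) x₀ m (∑ i, c i • G.get i) := by
    intro c hc1
    obtain ⟨i₀, i₁, i₂, h⟩ := hGy c
    obtain ⟨N, hN1, hN2⟩ :=
      (hgermW.and (hM (c i₀) (c i₁) (c i₂) (hc1 i₀) (hc1 i₁) (hc1 i₂))).exists
    rw [h]
    exact h1 hm hT hc (fun h hh => (hN2 h hh).symm) hN1
  have hGpos : ∀ c : Fin G.length → ℕ, (∀ i, 1 ≤ c i) → Pos (∑ i, c i • G.get i) := by
    intro c hc1 j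
    obtain ⟨i₀, i₁, i₂, h⟩ := hGy c
    rw [h]
    have h7 := hpos j
    have e0 := hc1 i₀
    have e1 := hc1 i₁
    have e2 := hc1 i₂
    show 0 < c i₀ * q j + c i₁ * (M * q j + v j) + c i₂ * (M ^ 2 * q j + M * v j + w j)
    have f0 : q j ≤ c i₀ * q j := Nat.le_mul_of_pos_left _ e0
    have f1 : M * q j + v j ≤ c i₁ * (M * q j + v j) := Nat.le_mul_of_pos_left _ e1
    have f2 : M ^ 2 * q j + M * v j + w j ≤ c i₂ * (M ^ 2 * q j + M * v j + w j) :=
      Nat.le_mul_of_pos_left _ e2
    have f3 : 0 ≤ M * q j := Nat.zero_le _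
    have f4 : 0 ≤ M ^ 2 * q j + M * v j := Nat.zero_le _
    omega
  set N : ℕ := m * t₀ with hN
  set u : V := fun j => (x₀ j).toNat with hu
  set u' : V := fun j => (-x₀ j).toNat with hu'
  have huu : zv u - zv u' = x₀ := by
    funext j
    simp only [Pi.sub_apply, zv, hu, hu']
    omega
  let base : List V → V := fun L j => (x₀ j + N * (L.sum j : ℕ)).toNat
  have hbase : ∀ L : List V, (∃ x, zv x = x₀ + (N : ℤ) • zv L.sum) →
      ∀ j, base L j + u' j = u j + N * L.sum j := by
    rintro L ⟨x, hx⟩ j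
    have h7 := congrFun hx j
    simp only [zv, Pi.add_apply, Pi.smul_apply, smul_eq_mul] at h7
    have h8 : (base L j : ℤ) = x₀ j + N * (L.sum j : ℕ) := by
      simp only [base]
      rw [← h7]
      simp
    have h9 := congrFun huu j
    simp only [Pi.sub_apply, zv] at h9
    have : ((base L j + u' j : ℕ) : ℤ) = ((u j + N * L.sum j : ℕ) : ℤ) := by
      push_cast
      linarith
    exact_mod_cast this
  have hsumG : G.sum = ∑ i, (fun _ => 1 : Fin G.length → ℕ) i • G.get i := by
    rw [cog_list_sum]; simp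
  refine ⟨((u, u'), (q, v, w), (N, M), base G, CC.toList.map (fun C => (base C.toList, C.toList))),
    ?_, hpos, ?_, ?_, ?_, ?_⟩
  · show 1 ≤ N
    exact Nat.mul_pos hm ht0
  · show ∀ j, base G j + u' j = u j + N * G.sum j
    refine hbase G ?_
    obtain ⟨x, hx1, hx2⟩ := (hU t₀ le_rfl _ (hGpos (fun _ => 1) (fun _ => le_rfl))).1
      (hGW (fun _ => 1) (fun _ => le_rfl))
    exact ⟨x, by rw [hsumG]; exact hx2⟩
  · show US [(base G, sc N G)] ⊆ US S
    intro x hx
    obtain ⟨x1, hx11, hx12⟩ := (hU t₀ le_rfl _ (hGpos (fun _ => 1) (fun _ => le_rfl))).1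
      (hGW (fun _ => 1) (fun _ => le_rfl))
    obtain ⟨c, hc1, hc2⟩ := cog_mem huu (hbase G ⟨x1, by rw [hsumG]; exact hx12⟩) hx
    obtain ⟨x', hx', hx''⟩ := (hU t₀ le_rfl _ (hGpos c hc1)).1 (hGW c hc1)
    have : x = x' := cog_zv_inj (by rw [hc2, hx''])
    rw [this]; exact hx'
  · intro b hb
    obtain ⟨C, hC, rfl⟩ := List.mem_map.1 hb
    have hC' : C ∈ CC := Finset.mem_toList.1 hC
    obtain ⟨hCD, hCp, hCw⟩ := (hCC C).1 hC'
    -- black points
    have hblack : ∀ c : Fin C.toList.length → ℕ, (∀ i, 1 ≤ c i) →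
        Pos (∑ i, c i • C.toList.get i) ∧ ¬ White (US S) x₀ m (∑ i, c i • C.toList.get i) := by
      intro c hc1
      have hmem : rv (∑ i, c i • C.toList.get i) ∈ ocone C := by
        -- coefficients
        have hnd := C.nodup_toList
        let e : Fin C.toList.length ≃ {x // x ∈ C.toList} := List.Nodup.getEquiv _ hnd
        refine ⟨fun k => if hk : k ∈ C.toList then (c (e.symm ⟨k, hk⟩) : ℝ) else 1, ?_, ?_⟩
        · intro p hp
          have hp' : p ∈ C.toList := Finset.mem_toList.2 hp
          show 0 < (if hk : p ∈ C.toList then (c (e.symm ⟨p, hk⟩) : ℝ) else 1)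
          rw [dif_pos hp']
          exact_mod_cast hc1 _
        · have hs1 : (∑ p ∈ C, (if hk : p ∈ C.toList then (c (e.symm ⟨p, hk⟩) : ℝ) else 1) •
              rv p) = ∑ i : Fin C.toList.length, (c i : ℝ) • rv (C.toList.get i) := by
            rw [← Finset.sum_coe_sort C]
            let e2 : Fin C.toList.length ≃ C := e.trans
              (Equiv.subtypeEquivRight (fun x => Finset.mem_toList))
            rw [← e2.sum_comp]
            refine Finset.sum_congr rfl fun i _ => ?_
            have hi : (e2 i : V) = C.toList.get i := rfl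
            have hi' : (e2 i : V) ∈ C.toList := by rw [hi]; exact List.get_mem _ _
            rw [dif_pos hi']
            have hi2 : e.symm ⟨(e2 i : V), hi'⟩ = i := by
              rw [Equiv.symm_apply_eq]
              rfl
            rw [hi2, hi]
          rw [hs1]
          funext j
          simp only [rv, Finset.sum_apply, Pi.smul_apply, smul_eq_mul]
          push_cast
          rfl
      refine ⟨?_, fun hw => hCw ?_⟩
      · intro j
        obtain ⟨k, hk, hkj⟩ := hCp j
        obtain ⟨l, hl, hs⟩ := hmem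
        have h := congrFun hs j
        rw [Finset.sum_apply] at h
        have : (0 : ℝ) < ∑ c ∈ C, (l c • rv c) j := by
          refine Finset.sum_pos' (fun c hc => ?_) ⟨k, hk, ?_⟩
          · simp only [Pi.smul_apply, smul_eq_mul, rv]
            exact mul_nonneg (hl c hc).le (Nat.cast_nonneg _)
          · simp only [Pi.smul_apply, smul_eq_mul, rv]
            exact mul_pos (hl k hk) (by exact_mod_cast hkj)
        rw [← h] at this
        simp only [rv] at this
        exact_mod_cast this
      · exact h1 hm hT hc (fun h hh => h3 (hD1 C hCD h hh) hmem (hsum C)) hw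
    have hone := hblack (fun _ => 1) (fun _ => le_rfl)
    have hsumC : C.toList.sum =
        ∑ i, (fun _ => 1 : Fin C.toList.length → ℕ) i • C.toList.get i := by
      rw [cog_list_sum]; simp
    have hex : ∃ x, zv x = x₀ + (N : ℤ) • zv C.toList.sum := by
      obtain ⟨x, -, hx⟩ := (hU t₀ le_rfl _ hone.1).2 hone.2
      exact ⟨x, by rw [hsumC]; exact hx⟩
    refine ⟨hbase C.toList hex, ?_, ?_⟩
    · intro j
      show 0 < C.toList.sum j
      rw [hsumC]
      exact hone.1 j
    · rw [Set.disjoint_left]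
      intro x hx hxS
      obtain ⟨c, hc1, hc2⟩ := cog_mem huu (hbase C.toList hex) hx
      obtain ⟨x', hx', hx''⟩ := (hU t₀ le_rfl _ (hblack c hc1).1).2 (hblack c hc1).2
      have : x = x' := cog_zv_inj (by rw [hc2, hx''])
      rw [this] at hxS
      exact hx' hxS
  · intro hR
    have hfin : fin ((CC.toList.map (fun C => (base C.toList, C.toList))).map Prod.snd) = CC := by
      unfold fin
      rw [List.map_map, List.map_map]
      have : ((List.toFinset ∘ Prod.snd) ∘ fun C : Finset V => (base C.toList, C.toList)) =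
          (id : Finset V → Finset V) := by
        funext C
        simp
      rw [this, List.map_id, Finset.toList_toFinset]
    apply hn
    have hR' : RCov CC q v w := by
      have := hR
      simp only [hfin] at this
      exact this
    rcases hR' with h | ⟨i, h | h | h⟩
    · exact h5 h
    · exact (h6 (i := i)).1 h
    · exact (h6 (i := i)).2.1 h
    · exact (h6 (i := i)).2.2 h

end Pool.Agent.MP2a1ef3.N3
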