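import Pool.Agent.Lib.MP_2a1ef3_lc.N3.Stm

set_option autoImplicit false

namespace Pool.Agent.MP2a1ef3.N3

open Filter
open Pool.Agent.Lib.MP42 (SA evMv evR evR_apply evMv_apply)

/-- polynomial functions -/
private def dec_n2_Pl (m d : ℕ) (f : (Fin m → ℝ) × (Fin d → ℝ) → ℝ) : Prop :=
  ∃ a : MvPolynomial (Fin d) (MvPolynomial (Fin m) ℚ), ∀ p, evMv d (evR m) a p = f p

private theorem dec_n2_fst {m d : ℕ} (i : Fin m) : dec_n2_Pl m d (fun p => p.1 i) := by
  refine ⟨MvPolynomial.C (MvPolynomial.X i), fun p => ?_⟩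
  rw [evMv_apply, MvPolynomial.eval₂_C]
  show evR m (MvPolynomial.X i) p.1 = p.1 i
  rw [evR_apply, MvPolynomial.aeval_X]

private theorem dec_n2_snd {m d : ℕ} (i : Fin d) : dec_n2_Pl m d (fun p => p.2 i) := by
  refine ⟨MvPolynomial.X i, fun p => ?_⟩
  rw [evMv_apply, MvPolynomial.eval₂_X]

private theorem dec_n2_zero {m d : ℕ} : dec_n2_Pl m d (fun _ => 0) := by
  refine ⟨0, fun p => ?_⟩
  rw [map_zero]
  rfl

private theorem dec_n2_add {m d : ℕ} {f g : (Fin m → ℝ) × (Fin d → ℝ) → ℝ}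
    (hf : dec_n2_Pl m d f) (hg : dec_n2_Pl m d g) : dec_n2_Pl m d (fun p => f p + g p) := by
  obtain ⟨a, ha⟩ := hf
  obtain ⟨b, hb⟩ := hg
  refine ⟨a + b, fun p => ?_⟩
  rw [map_add, Pi.add_apply, ha, hb]

private theorem dec_n2_mul {m d : ℕ} {f g : (Fin m → ℝ) × (Fin d → ℝ) → ℝ}
    (hf : dec_n2_Pl m d f) (hg : dec_n2_Pl m d g) : dec_n2_Pl m d (fun p => f p * g p) := by
  obtain ⟨a, ha⟩ := hf
  obtain ⟨b, hb⟩ := hg
  refine ⟨a * b, fun p => ?_⟩
  rw [map_mul, Pi.mul_apply, ha, hb]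

private theorem dec_n2_sub {m d : ℕ} {f g : (Fin m → ℝ) × (Fin d → ℝ) → ℝ}
    (hf : dec_n2_Pl m d f) (hg : dec_n2_Pl m d g) : dec_n2_Pl m d (fun p => f p - g p) := by
  obtain ⟨a, ha⟩ := hf
  obtain ⟨b, hb⟩ := hg
  refine ⟨a - b, fun p => ?_⟩
  rw [map_sub, Pi.sub_apply, ha, hb]

private theorem dec_n2_neg {m d : ℕ} {f : (Fin m → ℝ) × (Fin d → ℝ) → ℝ}
    (hf : dec_n2_Pl m d f) : dec_n2_Pl m d (fun p => -f p) := by
  obtain ⟨a, ha⟩ := hf
  refine ⟨-a, fun p => ?_⟩
  rw [map_neg, Pi.neg_apply, ha]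

private theorem dec_n2_sum {m d : ℕ} {κ : Type} (s : Finset κ)
    {f : κ → (Fin m → ℝ) × (Fin d → ℝ) → ℝ} (hf : ∀ k ∈ s, dec_n2_Pl m d (f k)) :
    dec_n2_Pl m d (fun p => ∑ k ∈ s, f k p) := by
  classical
  induction s using Finset.induction_on with
  | empty =>
    simp only [Finset.sum_empty]
    exact dec_n2_zero
  | insert a s ha ih =>
    simp only [Finset.sum_insert ha]
    exact dec_n2_add (hf a (Finset.mem_insert_self _ _))
      (ih fun k hk => hf k (Finset.mem_insert_of_mem hk))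

private theorem dec_n2_cut {m d : ℕ} (i : Fin 3) {s x : Fin 3 → (Fin m → ℝ) × (Fin d → ℝ) → ℝ}
    (hs : ∀ j, dec_n2_Pl m d (s j)) (hx : ∀ j, dec_n2_Pl m d (x j)) :
    dec_n2_Pl m d (fun p => cut i (fun j => s j p) (fun j => x j p)) := by
  unfold cut
  exact dec_n2_sub (dec_n2_sum _ fun j _ => dec_n2_mul (hs j) (hx j)) (hx i)

private theorem dec_n2_pos {m d : ℕ} {f : (Fin m → ℝ) × (Fin d → ℝ) → ℝ}
    (hf : dec_n2_Pl m d f) : SA (evMv d (evR m)) {p | 0 < f p} := by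
  obtain ⟨a, ha⟩ := hf
  have h := SA.pos (ev := evMv d (evR m)) a
  simp only [ha] at h
  exact h

private theorem dec_n2_eq {m d : ℕ} {f : (Fin m → ℝ) × (Fin d → ℝ) → ℝ}
    (hf : dec_n2_Pl m d f) : SA (evMv d (evR m)) {p | f p = 0} := by
  obtain ⟨a, ha⟩ := hf
  have h := SA.eq_zero (ev := evMv d (evR m)) a
  simp only [ha] at h
  exact h

private theorem dec_n2_nn {m d : ℕ} {f : (Fin m → ℝ) × (Fin d → ℝ) → ℝ}
    (hf : dec_n2_Pl m d f) : SA (evMv d (evR m)) {p | 0 ≤ f p} := by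
  obtain ⟨a, ha⟩ := hf
  have h := SA.nonneg (ev := evMv d (evR m)) a
  simp only [ha] at h
  exact h

private theorem dec_n2_lex {m d : ℕ} {f g h : (Fin m → ℝ) × (Fin d → ℝ) → ℝ}
    (hf : dec_n2_Pl m d f) (hg : dec_n2_Pl m d g) (hh : dec_n2_Pl m d h) :
    SA (evMv d (evR m)) {p | lexpos (f p) (g p) (h p)} :=
  (dec_n2_pos hf).union ((dec_n2_eq hf).inter ((dec_n2_pos hg).union
    ((dec_n2_eq hg).inter (dec_n2_pos hh))))

private theorem dec_n2_lexc {a b c a' b' c' t u : ℝ} (h : lexpos a b c) (h' : lexpos a' b' c')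
    (ht : 0 ≤ t) (hu : 0 ≤ u) (htu : t + u = 1) :
    lexpos (t * a + u * a') (t * b + u * b') (t * c + u * c') := by
  rcases ht.eq_or_lt with rfl | ht
  · have : u = 1 := by linarith
    subst this
    simpa using h'
  rcases hu.eq_or_lt with rfl | hu
  · have : t = 1 := by linarith
    subst this
    simpa using h
  unfold lexpos at h h' ⊢
  rcases h with h | ⟨rfl, h⟩ <;> rcases h' with h' | ⟨rfl, h'⟩
  · left; positivity
  · left
    have := mul_pos ht h
    linarith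
  · left
    have := mul_pos hu h'
    linarith
  · right
    refine ⟨by ring, ?_⟩
    rcases h with h | ⟨rfl, h⟩ <;> rcases h' with h' | ⟨rfl, h'⟩
    · left; positivity
    · left
      have := mul_pos ht h
      linarith
    · left
      have := mul_pos hu h'
      linarith
    · right
      refine ⟨by ring, ?_⟩
      positivity

private theorem dec_n2_cuta (i : Fin 3) (s s' x : R3) {t u : ℝ} (htu : t + u = 1) :
    cut i (fun j => t * s j + u * s' j) x = t * cut i s x + u * cut i s' x := by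
  unfold cut
  have h1 : ∑ j ∈ Finset.univ.erase i, (t * s j + u * s' j) * x j =
      t * (∑ j ∈ Finset.univ.erase i, s j * x j) + u * ∑ j ∈ Finset.univ.erase i, s' j * x j := by
    rw [Finset.mul_sum, Finset.mul_sum, ← Finset.sum_add_distrib]
    refine Finset.sum_congr rfl fun j _ => ?_
    ring
  rw [h1]
  linear_combination (x i) * htu

private def dec_n2_A (S : Fin 6 → ℝ) : R3 := fun j => S (Fin.castAdd 3 j)
private def dec_n2_B (S : Fin 6 → ℝ) : R3 := fun j => S (Fin.natAdd 3 j)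
private def dec_n2_q (X : Fin 9 → ℝ) : R3 := ![X 0, X 1, X 2]
private def dec_n2_v (X : Fin 9 → ℝ) : R3 := ![X 3, X 4, X 5]
private def dec_n2_w (X : Fin 9 → ℝ) : R3 := ![X 6, X 7, X 8]
private def dec_n2_e (y : V × V × V) : Fin 9 → ℕ :=
  ![y.1 0, y.1 1, y.1 2, y.2.1 0, y.2.1 1, y.2.1 2, y.2.2 0, y.2.2 1, y.2.2 2]

private def dec_n2_base (i : Fin 3) (X : Fin 9 → ℝ) (S : Fin 6 → ℝ) : Prop :=
  (∀ j, j ≠ i → 0 ≤ dec_n2_A S j ∧ dec_n2_A S j ≤ dec_n2_B S j) ∧
    lexpos (-cut i (dec_n2_A S) (dec_n2_q X)) (-cut i (dec_n2_A S) (dec_n2_v X))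
      (-cut i (dec_n2_A S) (dec_n2_w X)) ∧
    lexpos (cut i (dec_n2_B S) (dec_n2_q X)) (cut i (dec_n2_B S) (dec_n2_v X))
      (cut i (dec_n2_B S) (dec_n2_w X))

private def dec_n2_pt (i : Fin 3) (a : Fin 2) (_ : Fin 1) (k : R3) (S : Fin 6 → ℝ) : Prop :=
  if a = 0 then 0 ≤ cut i (dec_n2_A S) k else cut i (dec_n2_B S) k ≤ 0

private theorem dec_n2_hb (i : Fin 3) :
    SA (evMv 6 (evR 9)) {p : (Fin 9 → ℝ) × (Fin 6 → ℝ) | dec_n2_base i p.1 p.2} := by
  have hA : ∀ j, dec_n2_Pl 9 6 (fun p => dec_n2_A p.2 j) := fun j => dec_n2_snd _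
  have hB : ∀ j, dec_n2_Pl 9 6 (fun p => dec_n2_B p.2 j) := fun j => dec_n2_snd _
  have hq : ∀ j, dec_n2_Pl 9 6 (fun p => dec_n2_q p.1 j) := by
    intro j
    fin_cases j
    · exact dec_n2_fst 0
    · exact dec_n2_fst 1
    · exact dec_n2_fst 2
  have hv : ∀ j, dec_n2_Pl 9 6 (fun p => dec_n2_v p.1 j) := by
    intro j
    fin_cases j
    · exact dec_n2_fst 3
    · exact dec_n2_fst 4
    · exact dec_n2_fst 5
  have hw : ∀ j, dec_n2_Pl 9 6 (fun p => dec_n2_w p.1 j) := by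
    intro j
    fin_cases j
    · exact dec_n2_fst 6
    · exact dec_n2_fst 7
    · exact dec_n2_fst 8
  have h1 : SA (evMv 6 (evR 9)) (⋂ j : Fin 3, {p : (Fin 9 → ℝ) × (Fin 6 → ℝ) |
      j ≠ i → 0 ≤ dec_n2_A p.2 j ∧ dec_n2_A p.2 j ≤ dec_n2_B p.2 j}) := by
    refine SA.iInter_finite _ fun j => ?_
    by_cases hj : j = i
    · have : {p : (Fin 9 → ℝ) × (Fin 6 → ℝ) |
        j ≠ i → 0 ≤ dec_n2_A p.2 j ∧ dec_n2_A p.2 j ≤ dec_n2_B p.2 j} = Set.univ := by
        ext p
        simp [hj]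
      rw [this]
      exact SA.univ
    · have h2 := (dec_n2_nn (hA j)).inter (dec_n2_nn (dec_n2_sub (hB j) (hA j)))
      convert h2 using 1
      ext p
      simp [hj]
  have h2 := dec_n2_lex (dec_n2_neg (dec_n2_cut i hA hq)) (dec_n2_neg (dec_n2_cut i hA hv))
    (dec_n2_neg (dec_n2_cut i hA hw))
  have h3 := dec_n2_lex (dec_n2_cut i hB hq) (dec_n2_cut i hB hv) (dec_n2_cut i hB hw)
  convert h1.inter (h2.inter h3) using 1
  ext p
  rw [Set.mem_inter_iff, Set.mem_iInter]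
  rfl

private theorem dec_n2_hp (i : Fin 3) (a : Fin 2) (e : Fin 1) :
    SA (evMv 6 (evR 3)) {p : (Fin 3 → ℝ) × (Fin 6 → ℝ) | dec_n2_pt i a e p.1 p.2} := by
  have hA : ∀ j, dec_n2_Pl 3 6 (fun p => dec_n2_A p.2 j) := fun j => dec_n2_snd _
  have hB : ∀ j, dec_n2_Pl 3 6 (fun p => dec_n2_B p.2 j) := fun j => dec_n2_snd _
  have hx : ∀ j, dec_n2_Pl 3 6 (fun p => p.1 j) := fun j => dec_n2_fst j
  unfold dec_n2_pt
  by_cases ha : a = 0
  · simp only [ha, if_true]
    exact dec_n2_nn (dec_n2_cut i hA hx)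
  · simp only [ha, if_false]
    have h := dec_n2_nn (dec_n2_neg (dec_n2_cut i hB hx))
    convert h using 1
    ext p
    simp only [Set.mem_ofPred_eq, Left.nonneg_neg_iff]

private theorem dec_n2_lin (S S' : Fin 6 → ℝ) (t u : ℝ) :
    dec_n2_A (t • S + u • S') = (fun j => t * dec_n2_A S j + u * dec_n2_A S' j) ∧
    dec_n2_B (t • S + u • S') = (fun j => t * dec_n2_B S j + u * dec_n2_B S' j) :=
  ⟨rfl, rfl⟩

private theorem dec_n2_hcb (i : Fin 3) (X : Fin 9 → ℝ) : Convex ℝ {S | dec_n2_base i X S} := by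
  rintro S ⟨h1, h2, h3⟩ S' ⟨h1', h2', h3'⟩ t u ht hu htu
  show dec_n2_base i X (t • S + u • S')
  unfold dec_n2_base
  rw [(dec_n2_lin S S' t u).1, (dec_n2_lin S S' t u).2]
  simp only [dec_n2_cuta i _ _ _ htu]
  refine ⟨?_, ?_, ?_⟩
  · intro j hj
    obtain ⟨a1, a2⟩ := h1 j hj
    obtain ⟨b1, b2⟩ := h1' j hj
    constructor
    · positivity
    · exact add_le_add (mul_le_mul_of_nonneg_left a2 ht) (mul_le_mul_of_nonneg_left b2 hu)
  · have h := dec_n2_lexc h2 h2' ht hu htu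
    have e : ∀ y z : ℝ, -(t * y + u * z) = t * -y + u * -z := fun y z => by ring
    rw [e, e, e]
    exact h
  · exact dec_n2_lexc h3 h3' ht hu htu

private theorem dec_n2_hcp (i : Fin 3) (a : Fin 2) (e : Fin 1) (k : R3) :
    Convex ℝ {S | dec_n2_pt i a e k S} := by
  intro S hS S' hS' t u ht hu htu
  have h1 : dec_n2_pt i a e k S := hS
  have h1' : dec_n2_pt i a e k S' := hS'
  show dec_n2_pt i a e k (t • S + u • S')
  unfold dec_n2_pt at h1 h1' ⊢
  rw [(dec_n2_lin S S' t u).1, (dec_n2_lin S S' t u).2]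
  simp only [dec_n2_cuta i _ _ _ htu]
  split_ifs at h1 h1' ⊢ with ha
  · positivity
  · have a1 := mul_nonneg ht (neg_nonneg.2 h1)
    have a2 := mul_nonneg hu (neg_nonneg.2 h1')
    linarith

theorem p_dec_n2 (h1 : S_dt_main) : S_dec_n2 := by
  intro i
  have h := h1 (dec_n2_base i) (dec_n2_pt i) (dec_n2_hb i) (dec_n2_hp i) (dec_n2_hcb i)
    (dec_n2_hcp i)
  have hf : Primrec (fun x : List (List V) × (V × V × V) =>
      ((x.1.map (fun C => C.map (fun k => ((0 : Fin 1), k))), dec_n2_e x.2) :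
        List (List (Fin 1 × V)) × (Fin 9 → ℕ))) := by
    refine Primrec.pair ?_ ?_
    · refine Primrec.list_map Primrec.fst ?_
      refine Primrec.list_map Primrec.snd ?_
      exact Primrec.pair (Primrec.const 0) Primrec.snd
    · refine Primrec.fin_curry.2 (Primrec₂.swap (Primrec.fin_curry₁.2 ?_))
      have hq : Primrec (fun x : List (List V) × (V × V × V) => x.2.1) :=
        Primrec.fst.comp Primrec.snd
      have hv : Primrec (fun x : List (List V) × (V × V × V) => x.2.2.1) :=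
        Primrec.fst.comp (Primrec.snd.comp Primrec.snd)
      have hw : Primrec (fun x : List (List V) × (V × V × V) => x.2.2.2) :=
        Primrec.snd.comp (Primrec.snd.comp Primrec.snd)
      have ap : ∀ (f : List (List V) × (V × V × V) → V) (c : Fin 3), Primrec f →
          Primrec (fun x => f x c) := fun f c hf => Primrec.fin_app.comp hf (Primrec.const c)
      intro j
      fin_cases j
      · exact ap _ 0 hq
      · exact ap _ 1 hq
      · exact ap _ 2 hq
      · exact ap _ 0 hv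
      · exact ap _ 1 hv
      · exact ap _ 2 hv
      · exact ap _ 0 hw
      · exact ap _ 1 hw
      · exact ap _ 2 hw
  refine (h.comp hf).of_eq fun x => ?_
  obtain ⟨L, q, v, w⟩ := x
  simp only
  have eq : dec_n2_q (fun i => ((dec_n2_e (q, v, w) i : ℕ) : ℝ)) = rv q := by
    funext j
    fin_cases j <;> rfl
  have ev : dec_n2_v (fun i => ((dec_n2_e (q, v, w) i : ℕ) : ℝ)) = rv v := by
    funext j
    fin_cases j <;> rfl
  have ew : dec_n2_w (fun i => ((dec_n2_e (q, v, w) i : ℕ) : ℝ)) = rv w := by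
    funext j
    fin_cases j <;> rfl
  unfold dec_n2_base N2s
  rw [eq, ev, ew]
  constructor
  · rintro ⟨S, ⟨a1, a2, a3⟩, a4⟩
    refine ⟨dec_n2_A S, dec_n2_B S, a1, a2, a3, ?_⟩
    intro C' hC'
    unfold fin at hC'
    rw [List.mem_toFinset, List.mem_map] at hC'
    obtain ⟨C, hC, rfl⟩ := hC'
    obtain ⟨a, ha⟩ := a4 _ (List.mem_map.2 ⟨C, hC, rfl⟩)
    by_cases ha0 : a = 0
    · left
      intro k hk
      have h5 := ha (0, k) (List.mem_map.2 ⟨k, List.mem_toFinset.1 hk, rfl⟩)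
      unfold dec_n2_pt at h5
      rw [if_pos ha0] at h5
      exact h5
    · right
      intro k hk
      have h5 := ha (0, k) (List.mem_map.2 ⟨k, List.mem_toFinset.1 hk, rfl⟩)
      unfold dec_n2_pt at h5
      rw [if_neg ha0] at h5
      exact h5
  · rintro ⟨s', s, a1, a2, a3, a4⟩
    have eA : dec_n2_A (Fin.append s' s) = s' := by
      funext j
      exact Fin.append_left s' s j
    have eB : dec_n2_B (Fin.append s' s) = s := by
      funext j
      exact Fin.append_right s' s j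
    refine ⟨Fin.append s' s, ?_, ?_⟩
    · rw [eA, eB]
      exact ⟨a1, a2, a3⟩
    · intro C' hC'
      rw [List.mem_map] at hC'
      obtain ⟨C, hC, rfl⟩ := hC'
      rcases a4 C.toFinset (by
        unfold fin
        rw [List.mem_toFinset, List.mem_map]
        exact ⟨C, hC, rfl⟩) with h5 | h5
      · refine ⟨0, fun e he => ?_⟩
        rw [List.mem_map] at he
        obtain ⟨k, hk, rfl⟩ := he
        unfold dec_n2_pt
        rw [if_pos rfl, eA]
        exact h5 k (List.mem_toFinset.2 hk)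
      · refine ⟨1, fun e he => ?_⟩
        rw [List.mem_map] at he
        obtain ⟨k, hk, rfl⟩ := he
        unfold dec_n2_pt
        rw [if_neg (by decide), eB]
        exact h5 k (List.mem_toFinset.2 hk)

end Pool.Agent.MP2a1ef3.N3
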