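import Pool.Agent.Lib.MP_2a1ef3_lc.N3.Stm

set_option autoImplicit false

namespace Pool.Agent.MP2a1ef3.N3

open Filter

private theorem edge_V_aux {f a b : R3} (hab : ¬ Par a b) (h0 : dp f a = 0) (h1 : dp f b = 0) :
    ∃ c : ℝ, ∀ x, dp f x = c * dt a b x := by
  unfold dp at h0 h1
  have h01 : f 0 * (a 2 * b 0 - a 0 * b 2) = f 1 * (a 1 * b 2 - a 2 * b 1) := by
    linear_combination (-b 2) * h0 + a 2 * h1
  have h02 : f 0 * (a 0 * b 1 - a 1 * b 0) = f 2 * (a 1 * b 2 - a 2 * b 1) := by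
    linear_combination b 1 * h0 - a 1 * h1
  have h12 : f 1 * (a 0 * b 1 - a 1 * b 0) = f 2 * (a 2 * b 0 - a 0 * b 2) := by
    linear_combination (-b 0) * h0 + a 0 * h1
  have hn : a 1 * b 2 - a 2 * b 1 ≠ 0 ∨ a 2 * b 0 - a 0 * b 2 ≠ 0 ∨ a 0 * b 1 - a 1 * b 0 ≠ 0 := by
    by_contra hc
    push Not at hc
    obtain ⟨e0, e1, e2⟩ := hc
    apply hab
    intro x
    unfold dt
    linear_combination x 0 * e0 + x 1 * e1 + x 2 * e2
  rcases hn with hn | hn | hn
  · refine ⟨f 0 / (a 1 * b 2 - a 2 * b 1), fun x => ?_⟩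
    unfold dp dt
    rw [div_mul_eq_mul_div, eq_div_iff hn]
    linear_combination (-x 1) * h01 - x 2 * h02
  · refine ⟨f 1 / (a 2 * b 0 - a 0 * b 2), fun x => ?_⟩
    unfold dp dt
    rw [div_mul_eq_mul_div, eq_div_iff hn]
    linear_combination x 0 * h01 - x 2 * h12
  · refine ⟨f 2 / (a 0 * b 1 - a 1 * b 0), fun x => ?_⟩
    unfold dp dt
    rw [div_mul_eq_mul_div, eq_div_iff hn]
    linear_combination x 0 * h02 + x 1 * h12

theorem p_edge_V : S_edge_V := by
  intro CC F q u w x₁ hs hx f k k' hk hk' hkk h0 h0' hpos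
  obtain ⟨c, hc⟩ := edge_V_aux hkk h0 h0'
  obtain ⟨N, hN1, hN2⟩ := (hpos.and_eventually hs).exists
  have e1 := hN2 k hk k' hk'
  rw [hc] at hN1
  filter_upwards [hx] with x hxs
  have e2 := hxs k hk k' hk'
  rw [← e1] at e2
  rw [hc]
  rcases lt_trichotomy c 0 with h | h | h
  · have h1 : dt (rv k) (rv k') (rv (germ q u w N)) < 0 := by
      by_contra h2
      push Not at h2
      have := mul_nonpos_of_nonpos_of_nonneg h.le h2
      linarith
    rw [sign_neg h1, sign_eq_neg_one_iff] at e2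
    exact mul_pos_of_neg_of_neg h e2
  · rw [h, zero_mul] at hN1
    exact absurd hN1 (lt_irrefl _)
  · have h1 : 0 < dt (rv k) (rv k') (rv (germ q u w N)) := by
      by_contra h2
      push Not at h2
      have := mul_nonpos_of_nonneg_of_nonpos h.le h2
      linarith
    rw [sign_pos h1, sign_eq_one_iff] at e2
    exact mul_pos h e2

end Pool.Agent.MP2a1ef3.N3
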