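import Pool.Agent.Lib.MP_2a1ef3_lc.N3.Stm

set_option autoImplicit false

namespace Pool.Agent.MP2a1ef3.N3

open Filter

/-- The value of a functional. -/
def exists_center_Val (U : Ultrafilter V) (h : Z3) (ξ : ℤ) : Prop :=
  ∀ N : ℕ, 0 < N → ∀ᶠ x in (U : Filter V), (N : ℤ) ∣ h ⬝ᵥ zv x - ξ

theorem exists_center_uniq {U : Ultrafilter V} {h : Z3} {ξ ξ' : ℤ}
    (h1 : exists_center_Val U h ξ) (h2 : exists_center_Val U h ξ') : ξ = ξ' := by
  have hN : 0 < (ξ - ξ').natAbs + 1 := Nat.succ_pos _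
  obtain ⟨x, hx1, hx2⟩ := ((h1 _ hN).and (h2 _ hN)).exists
  have h3 : (((ξ - ξ').natAbs + 1 : ℕ) : ℤ) ∣ ξ - ξ' := by
    have := dvd_sub hx2 hx1
    have e : h ⬝ᵥ zv x - ξ' - (h ⬝ᵥ zv x - ξ) = ξ - ξ' := by ring
    rwa [e] at this
  by_contra hne
  have h4 : ξ - ξ' ≠ 0 := sub_ne_zero.mpr hne
  have h5 := Int.natAbs_dvd_natAbs.mpr h3
  rw [Int.natAbs_natCast] at h5
  have h6 := Nat.le_of_dvd (Int.natAbs_pos.mpr h4) h5
  omega

theorem exists_center_add {U : Ultrafilter V} {h h' : Z3} {ξ ξ' : ℤ}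
    (h1 : exists_center_Val U h ξ) (h2 : exists_center_Val U h' ξ') :
    exists_center_Val U (h + h') (ξ + ξ') := by
  intro N hN
  filter_upwards [h1 N hN, h2 N hN] with x hx1 hx2
  have := dvd_add hx1 hx2
  have e : (h + h') ⬝ᵥ zv x - (ξ + ξ') = (h ⬝ᵥ zv x - ξ) + (h' ⬝ᵥ zv x - ξ') := by
    rw [add_dotProduct]; ring
  rwa [e]

theorem exists_center_smul {U : Ultrafilter V} {h : Z3} {ξ : ℤ} (c : ℤ)
    (h1 : exists_center_Val U h ξ) : exists_center_Val U (c • h) (c * ξ) := by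
  intro N hN
  filter_upwards [h1 N hN] with x hx1
  have := Dvd.dvd.mul_left hx1 c
  have e : (c • h) ⬝ᵥ zv x - c * ξ = c * (h ⬝ᵥ zv x - ξ) := by
    rw [smul_dotProduct, smul_eq_mul]; ring
  rwa [e]

theorem exists_center_zero {U : Ultrafilter V} : exists_center_Val U 0 0 := by
  intro N hN
  refine Eventually.of_forall (fun x => ?_)
  simp

/-- The functionals with a value. -/
def exists_center_H (U : Ultrafilter V) : Submodule ℤ Z3 where
  carrier := {h | ∃ ξ, exists_center_Val U h ξ}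
  zero_mem' := ⟨0, exists_center_zero⟩
  add_mem' := by
    rintro a b ⟨ξ, h1⟩ ⟨ξ', h2⟩
    exact ⟨_, exists_center_add h1 h2⟩
  smul_mem' := by
    rintro c a ⟨ξ, h1⟩
    exact ⟨_, exists_center_smul c h1⟩

/-- The value as a linear map. -/
noncomputable def exists_center_xi (U : Ultrafilter V) : exists_center_H U →ₗ[ℤ] ℤ where
  toFun h := h.2.choose
  map_add' a b := exists_center_uniq (a + b).2.choose_spec
    (exists_center_add a.2.choose_spec b.2.choose_spec)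
  map_smul' c a := exists_center_uniq (c • a).2.choose_spec
    (exists_center_smul c a.2.choose_spec)

theorem exists_center_xi_val {U : Ultrafilter V} (h : exists_center_H U) :
    exists_center_Val U h.1 (exists_center_xi U h) := h.2.choose_spec

theorem exists_center_pure {U : Ultrafilter V} {n : ℤ} (hn : n ≠ 0) {h : Z3}
    (hh : n • h ∈ exists_center_H U) : h ∈ exists_center_H U := by
  obtain ⟨ξ, hξ⟩ := hh
  have hn0 : 0 < n.natAbs := Int.natAbs_pos.mpr hn
  have h1 : n ∣ ξ := by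
    obtain ⟨x, hx⟩ := (hξ _ hn0).exists
    rw [Int.natAbs_dvd, smul_dotProduct, smul_eq_mul] at hx
    have := dvd_sub (Dvd.intro (h ⬝ᵥ zv x) rfl : n ∣ n * (h ⬝ᵥ zv x)) hx
    have e : n * (h ⬝ᵥ zv x) - (n * (h ⬝ᵥ zv x) - ξ) = ξ := by ring
    rwa [e] at this
  obtain ⟨η, rfl⟩ := h1
  refine ⟨η, fun N hN => ?_⟩
  filter_upwards [hξ (n.natAbs * N) (Nat.mul_pos hn0 hN)] with x hx
  have e : (n • h) ⬝ᵥ zv x - n * η = n * (h ⬝ᵥ zv x - η) := by
    rw [smul_dotProduct, smul_eq_mul]; ring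
  rw [e] at hx
  have h2 : n * (N : ℤ) ∣ n * (h ⬝ᵥ zv x - η) := by
    refine dvd_trans ?_ hx
    rw [Nat.cast_mul]
    exact mul_dvd_mul (Int.dvd_natAbs.mpr dvd_rfl) dvd_rfl
  exact (mul_dvd_mul_iff_left hn).mp h2

theorem exists_center_section (U : Ultrafilter V) :
    ∃ σ : (Z3 ⧸ exists_center_H U) →ₗ[ℤ] Z3,
      (exists_center_H U).mkQ ∘ₗ σ = LinearMap.id := by
  have : Module.IsTorsionFree ℤ (Z3 ⧸ exists_center_H U) := by
    refine Module.IsTorsionFree.of_smul_eq_zero ?_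
    intro n q hq
    induction q using Submodule.Quotient.induction_on with
    | _ h =>
      by_cases hn : n = 0
      · exact Or.inl hn
      · right
        rw [← Submodule.Quotient.mk_smul, Submodule.Quotient.mk_eq_zero] at hq
        rw [Submodule.Quotient.mk_eq_zero]
        exact exists_center_pure hn hq
  have : Module.Free ℤ (Z3 ⧸ exists_center_H U) := Module.free_of_finite_type_torsion_free'
  exact Module.projective_lifting_property _ _ (Submodule.mkQ_surjective _)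

theorem exists_center_res (U : Ultrafilter V) {m : ℕ} (hm : 0 < m) :
    ∃ r : Z3, ∀ᶠ x in (U : Filter V), ∀ j, (m : ℤ) ∣ zv x j - r j := by
  have : NeZero m := ⟨hm.ne'⟩
  obtain ⟨c, hc⟩ := Ultrafilter.eq_pure_of_finite (U.map (fun x j => (x j : ZMod m)))
  choose r hr using fun j => ZMod.intCast_surjective (c j)
  refine ⟨r, ?_⟩
  have h1 : ∀ᶠ x in (U : Filter V), (fun j => (x j : ZMod m)) = c := by
    have h2 : {c} ∈ U.map (fun x j => (x j : ZMod m)) := by
      rw [hc]; exact Ultrafilter.mem_pure.mpr rfl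
    exact h2
  filter_upwards [h1] with x hx j
  have h3 : ((r j : ℤ) : ZMod m) = ((x j : ℤ) : ZMod m) := by
    rw [hr, ← hx]; simp
  exact (ZMod.intCast_eq_intCast_iff_dvd_sub _ _ _).mp h3

theorem p_exists_center : S_exists_center := by
  intro U m hm
  obtain ⟨r, hr⟩ := exists_center_res U hm
  obtain ⟨σ, hσ⟩ := exists_center_section U
  let H := exists_center_H U
  have hρ : ∀ h : Z3, (LinearMap.id - σ ∘ₗ H.mkQ : Z3 →ₗ[ℤ] Z3) h ∈ H := by
    intro h
    have h1 : H.mkQ ((LinearMap.id - σ ∘ₗ H.mkQ : Z3 →ₗ[ℤ] Z3) h) = 0 := by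
      have h2 : H.mkQ (σ (H.mkQ h)) = H.mkQ h := LinearMap.congr_fun hσ (H.mkQ h)
      simp only [LinearMap.sub_apply, LinearMap.comp_apply, LinearMap.id_apply, map_sub]
      rw [h2, sub_self]
    rw [← LinearMap.mem_ker, Submodule.ker_mkQ] at h1
    exact h1
  let ρ : Z3 →ₗ[ℤ] H := LinearMap.codRestrict H (LinearMap.id - σ ∘ₗ H.mkQ) hρ
  let dr : Z3 →ₗ[ℤ] ℤ :=
    { toFun := fun h => h ⬝ᵥ r
      map_add' := fun a b => add_dotProduct a b r
      map_smul' := fun c a => by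
        rw [smul_dotProduct]
        rfl }
  let Φ : Z3 →ₗ[ℤ] ℤ := exists_center_xi U ∘ₗ ρ + dr ∘ₗ σ ∘ₗ H.mkQ
  let x₀ : Z3 := fun j => Φ (Pi.single j 1)
  have hdot : ∀ h : Z3, h ⬝ᵥ x₀ = Φ h := by
    intro h
    rw [LinearMap.pi_apply_eq_sum_univ Φ h]
    simp only [dotProduct, x₀, smul_eq_mul]
    refine Finset.sum_congr rfl (fun j _ => ?_)
    congr 2
    ext i
    simp [Pi.single_apply, eq_comm]
  have hρv : ∀ h : Z3, ((ρ h : H) : Z3) = h - σ (H.mkQ h) := fun h => rfl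
  refine ⟨x₀, ?_, ?_⟩
  · intro h ξ hv
    have hmem : h ∈ H := ⟨ξ, hv⟩
    have h0 : H.mkQ h = 0 := by
      rw [← LinearMap.mem_ker, Submodule.ker_mkQ]; exact hmem
    rw [hdot]
    have h1 : Φ h = exists_center_xi U (ρ h) := by
      simp only [Φ, LinearMap.add_apply, LinearMap.comp_apply, h0, map_zero, add_zero]
    rw [h1]
    have h2 := exists_center_xi_val (ρ h)
    rw [hρv, h0, map_zero, sub_zero] at h2
    exact exists_center_uniq h2 hv
  · filter_upwards [hr] with x hx j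
    have key : (m : ℤ) ∣ Φ (Pi.single j 1) - r j := by
      have hv := exists_center_xi_val (ρ (Pi.single j 1))
      obtain ⟨y, hy1, hy2⟩ := ((hv m hm).and hr).exists
      set k : Z3 := (ρ (Pi.single j 1)).1 with hk
      set ξ := exists_center_xi U (ρ (Pi.single j 1)) with hξ
      have h3 : (m : ℤ) ∣ k ⬝ᵥ zv y - k ⬝ᵥ r := by
        rw [← dotProduct_sub]
        exact Finset.dvd_sum (fun i _ => Dvd.dvd.mul_left (hy2 i) _)
      have h4 : (m : ℤ) ∣ ξ - k ⬝ᵥ r := by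
        have := dvd_sub h3 hy1
        have e : k ⬝ᵥ zv y - k ⬝ᵥ r - (k ⬝ᵥ zv y - ξ) = ξ - k ⬝ᵥ r := by ring
        rwa [e] at this
      have h5 : Φ (Pi.single j 1) = ξ + (σ (H.mkQ (Pi.single j 1))) ⬝ᵥ r := rfl
      have h6 : k = Pi.single j 1 - σ (H.mkQ (Pi.single j 1)) := hρv _
      have h7 : k ⬝ᵥ r = r j - (σ (H.mkQ (Pi.single j 1))) ⬝ᵥ r := by
        rw [h6, sub_dotProduct, single_one_dotProduct]
      rw [h7] at h4
      rw [h5]
      have e : ξ + (σ (H.mkQ (Pi.single j 1))) ⬝ᵥ r - r j =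
        ξ - (r j - (σ (H.mkQ (Pi.single j 1))) ⬝ᵥ r) := by ring
      rwa [e]
    have h8 := dvd_sub (hx j) key
    have e : zv x j - r j - (Φ (Pi.single j 1) - r j) = zv x j - x₀ j := by
      simp only [x₀]; ring
    rwa [e] at h8

end Pool.Agent.MP2a1ef3.N3
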