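import Pool.Agent.Lib.MP_2a1ef3_lc.N3.Stm

/-!
# MP_2a1ef3_lc, dimension three: the limit direction modulo a direction (piece `exists_dir`)
-/

set_option autoImplicit false

namespace Pool.Agent.MP2a1ef3.N3

open Filter

private theorem exists_dir_par {k x : R3} {i : Fin 3} {c : ℝ} (h : x - c • k = 0) : Par k x := by
  intro y
  have h1 : x = c • k := sub_eq_zero.1 h
  rw [h1]
  unfold dt
  simp only [Pi.smul_apply, smul_eq_mul]
  ring

private theorem exists_dir_par_zero {k u : R3} {i : Fin 3} (hk : k i ≠ 0) (hu : u i = 0)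
    (h : Par k u) : u = 0 := by
  have e0 := h ![1, 0, 0]
  have e1 := h ![0, 1, 0]
  have e2 := h ![0, 0, 1]
  simp only [dt, Matrix.cons_val_zero, Matrix.cons_val_one, Matrix.cons_val] at e0 e1 e2
  ring_nf at e0 e1 e2
  funext j
  have key : k i * u j = k j * u i := by
    fin_cases i <;> fin_cases j <;> simp only [Fin.zero_eta, Fin.mk_one, Fin.reduceFinMk] at * <;>
      linarith
  rw [hu, mul_zero] at key
  exact (mul_eq_zero.1 key).resolve_left hk

theorem p_exists_dir : S_exists_dir := by
  intro F k hk h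
  obtain ⟨i, hi⟩ : ∃ i, k i ≠ 0 := by
    by_contra hcon
    push Not at hcon
    exact hk (funext hcon)
  have hki : rv k i ≠ 0 := by
    unfold rv
    exact_mod_cast hi
  obtain ⟨w, hw⟩ : ∃ w : V → R3, w = fun x => rv x - (rv x i / rv k i) • rv k := ⟨_, rfl⟩
  obtain ⟨g, hg⟩ : ∃ g : V → R3, g = fun x => ‖w x‖⁻¹ • w x := ⟨_, rfl⟩
  have hwi : ∀ x, w x i = 0 := by
    intro x
    rw [hw]
    simp only [Pi.sub_apply, Pi.smul_apply, smul_eq_mul]
    field_simp
    ring
  have hsph : ∀ᶠ x in (F : Filter V), g x ∈ Metric.sphere (0 : R3) 1 := by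
    filter_upwards [h] with x hx
    have hx0 : w x ≠ 0 := by
      intro h0
      apply hx
      rw [hw] at h0
      exact exists_dir_par (i := i) h0
    rw [mem_sphere_zero_iff_norm, hg]
    simp only
    rw [norm_smul, norm_inv, norm_norm]
    exact inv_mul_cancel₀ (norm_ne_zero_iff.2 hx0)
  obtain ⟨u, hu1, hu2⟩ := (isCompact_sphere (0 : R3) 1).ultrafilter_le_nhds (F.map g) (by
    rw [Filter.le_principal_iff, Ultrafilter.coe_map, Filter.mem_map]
    exact hsph)
  rw [mem_sphere_zero_iff_norm] at hu1
  have htend : Tendsto g (F : Filter V) (nhds u) := by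
    rw [Ultrafilter.coe_map] at hu2
    exact hu2
  have htj : ∀ j, Tendsto (fun x => g x j) (F : Filter V) (nhds (u j)) := fun j =>
    (tendsto_pi_nhds.1 htend) j
  have hui : u i = 0 := by
    have h1 : (fun x => g x i) = fun _ => (0 : ℝ) := by
      funext x
      rw [hg]
      simp only [Pi.smul_apply, smul_eq_mul]
      rw [hwi, mul_zero]
    have h2 := htj i
    rw [h1] at h2
    exact tendsto_nhds_unique h2 tendsto_const_nhds
  have huj : ∀ j, k j = 0 → 0 ≤ u j := by
    intro j hj
    refine ge_of_tendsto (htj j) (Filter.Eventually.of_forall fun x => ?_)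
    rw [hg, hw]
    simp only [Pi.smul_apply, Pi.sub_apply, smul_eq_mul]
    have h1 : rv k j = 0 := by unfold rv; rw [hj]; simp
    rw [h1, mul_zero, sub_zero]
    exact mul_nonneg (inv_nonneg.2 (norm_nonneg _)) (Nat.cast_nonneg _)
  have hun : ∀ j, -1 ≤ u j := by
    intro j
    have h1 : ‖u j‖ ≤ ‖u‖ := norm_le_pi_norm u j
    rw [hu1, Real.norm_eq_abs] at h1
    exact (abs_le.1 h1).1
  have hu0 : u ≠ 0 := by
    intro h0
    rw [h0, norm_zero] at hu1
    exact zero_ne_one hu1
  have hvj : ∀ j, 0 < k j → 0 < (u + (2 : ℝ) • rv k) j := by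
    intro j hj
    simp only [Pi.add_apply, Pi.smul_apply, smul_eq_mul]
    have h1 : (1 : ℝ) ≤ rv k j := by
      unfold rv
      exact_mod_cast hj
    have h2 := hun j
    linarith
  refine ⟨u + (2 : ℝ) • rv k, fun j => ?_, hvj, ?_, ?_⟩
  · rcases Nat.eq_zero_or_pos (k j) with hj | hj
    · simp only [Pi.add_apply, Pi.smul_apply, smul_eq_mul]
      have h1 : rv k j = 0 := by unfold rv; rw [hj]; simp
      rw [h1, mul_zero, add_zero]
      exact huj j hj
    · exact (hvj j hj).le
  · intro hpar
    apply hu0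
    refine exists_dir_par_zero (i := i) hki hui fun x => ?_
    have h1 := hpar x
    rw [← h1]
    unfold dt
    simp only [Pi.add_apply, Pi.smul_apply, smul_eq_mul]
    ring
  · intro f hf1 hf2
    have h1 : dp f (u + (2 : ℝ) • rv k) = dp f u := by
      have : dp f (u + (2 : ℝ) • rv k) = dp f u + 2 * dp f (rv k) := by
        unfold dp
        simp only [Pi.add_apply, Pi.smul_apply, smul_eq_mul]
        ring
      rw [this, hf1, mul_zero, add_zero]
    rw [h1] at hf2
    have hcont : Continuous (fun x : R3 => dp f x) := by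
      unfold dp
      fun_prop
    have h2 : Tendsto (fun x => dp f (g x)) (F : Filter V) (nhds (dp f u)) :=
      (hcont.tendsto u).comp htend
    filter_upwards [h2.eventually (Ioi_mem_nhds hf2)] with x hx
    have h3 : dp f (g x) = ‖w x‖⁻¹ * dp f (w x) := by
      rw [hg]
      unfold dp
      simp only [Pi.smul_apply, smul_eq_mul]
      ring
    have h4 : dp f (w x) = dp f (rv x) := by
      have : dp f (w x) = dp f (rv x) - (rv x i / rv k i) * dp f (rv k) := by
        rw [hw]
        unfold dp
        simp only [Pi.sub_apply, Pi.smul_apply, smul_eq_mul]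
        ring
      rw [this, hf1, mul_zero, sub_zero]
    have hx' : 0 < dp f (g x) := hx
    rw [h3, h4] at hx'
    exact pos_of_mul_pos_right hx' (inv_nonneg.2 (norm_nonneg _))

end Pool.Agent.MP2a1ef3.N3
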