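import Pool.Agent.Lib.MP_2a1ef3_lc.N3.Stm

set_option autoImplicit false

namespace Pool.Agent.MP2a1ef3.N3

open Filter

private def fss_cr (a b : R3) : R3 :=
  ![a 1 * b 2 - a 2 * b 1, a 2 * b 0 - a 0 * b 2, a 0 * b 1 - a 1 * b 0]

private lemma fss_dp_cr (a b x : R3) : dp (fss_cr a b) x = dt a b x := by
  simp [dp, fss_cr, dt]; ring

private lemma fss_ev_mem (CC : Finset (Finset V)) (i : Fin 3) : ev i ∈ VV CC := by
  fin_cases i <;> simp [VV]

private lemma fss_Vk_sub {CC : Finset (Finset V)} {k : V} (hk : k ∈ Vk CC) : k ∈ VV CC :=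
  Finset.mem_union_left _ hk

private lemma fss_sign_coord {CC : Finset (Finset V)} {z p : R3} (hs : SameSign CC z p)
    (j : Fin 3) : SignType.sign (z j) = SignType.sign (p j) := by
  have h01 := hs (ev 0) (fss_ev_mem CC 0) (ev 1) (fss_ev_mem CC 1)
  have h12 := hs (ev 1) (fss_ev_mem CC 1) (ev 2) (fss_ev_mem CC 2)
  have h20 := hs (ev 2) (fss_ev_mem CC 2) (ev 0) (fss_ev_mem CC 0)
  simp [dt, rv, ev] at h01 h12 h20
  fin_cases j
  · simpa using h12
  · simpa using h20
  · simpa using h01

private lemma pow_pos_sq_ne {x : ℝ} (h : x ≠ 0) : 0 < x ^ 2 := by positivity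

/-- The same sign: products with a common factor. -/
private lemma fss_pos {u v t : ℝ} (hs : SignType.sign u = SignType.sign v) (h : 0 < t * u) :
    0 < t * v := by
  rcases lt_trichotomy u 0 with hu | hu | hu
  · rw [sign_neg hu] at hs
    have hv : v < 0 := sign_eq_neg_one_iff.mp hs.symm
    have ht : t < 0 := by
      by_contra hh
      push Not at hh
      have := mul_nonpos_of_nonneg_of_nonpos hh hu.le
      linarith
    exact mul_pos_of_neg_of_neg ht hv
  · rw [hu, mul_zero] at h; exact absurd h (lt_irrefl _)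
  · rw [sign_pos hu] at hs
    have hv : 0 < v := sign_eq_one_iff.mp hs.symm
    have ht : 0 < t := by
      by_contra hh
      push Not at hh
      have := mul_nonpos_of_nonpos_of_nonneg hh hu.le
      linarith
    exact mul_pos ht hv

theorem p_free_of_sameSign : S_free_of_sameSign := by
  classical
  intro CC z p hp hs hfree
  obtain ⟨h, hz, hC⟩ := hfree
  -- it is enough to have the same signs as h
  suffices hmain : ∃ h' : R3, dp h' p = 0 ∧ ∀ k ∈ Vk CC, 0 < dp h (rv k) * dp h' (rv k) by
    obtain ⟨h', h'p, h'k⟩ := hmain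
    refine ⟨h', h'p, fun C hCC => ?_⟩
    rcases hC C hCC with hh | hh
    · left
      intro k hk
      have := h'k k (Finset.mem_biUnion.mpr ⟨C, hCC, hk⟩)
      exact (pos_iff_pos_of_mul_pos this).mp (hh k hk)
    · right
      intro k hk
      have := h'k k (Finset.mem_biUnion.mpr ⟨C, hCC, hk⟩)
      exact (neg_iff_neg_of_mul_pos this).mp (hh k hk)
  by_cases hne : (Vk CC).Nonempty
  swap
  · rw [Finset.not_nonempty_iff_eq_empty] at hne
    exact ⟨0, by simp [dp], by rw [hne]; simp⟩
  have hk0 : ∀ k ∈ Vk CC, dp h (rv k) ≠ 0 := by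
    intro k hk
    obtain ⟨C, hCC, hkC⟩ := Finset.mem_biUnion.mp hk
    rcases hC C hCC with hh | hh
    · exact (hh k hkC).ne'
    · exact (hh k hkC).ne
  have hh0 : 0 < dp h h := by
    obtain ⟨k, hk⟩ := hne
    have h1 := hk0 k hk
    have h2 : 0 ≤ dp h h := by
      simp only [dp]
      have q0 := mul_self_nonneg (h 0)
      have q1 := mul_self_nonneg (h 1)
      have q2 := mul_self_nonneg (h 2)
      linarith
    refine lt_of_le_of_ne h2 (fun h3 => h1 ?_)
    have e : h 0 * h 0 + h 1 * h 1 + h 2 * h 2 = 0 := h3.symm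
    have e0 : h 0 = 0 := by nlinarith [mul_self_nonneg (h 0), mul_self_nonneg (h 1), mul_self_nonneg (h 2)]
    have e1 : h 1 = 0 := by nlinarith [mul_self_nonneg (h 0), mul_self_nonneg (h 1), mul_self_nonneg (h 2)]
    have e2 : h 2 = 0 := by nlinarith [mul_self_nonneg (h 0), mul_self_nonneg (h 1), mul_self_nonneg (h 2)]
    simp [dp, e0, e1, e2]
  set T : V → ℝ := fun k => dt z h (rv k) / dp h (rv k) with hT
  have key : ∀ k ∈ Vk CC, ∀ k' ∈ Vk CC,
      dp h (rv k) * dp h (rv k') * (T k' - T k) = dp h h * dt (rv k) (rv k') z := by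
    intro k hk k' hk'
    have e1 := hk0 k hk
    have e2 := hk0 k' hk'
    have e3 : dp h (rv k) * dp h (rv k') * (T k' - T k) =
        dp h (rv k) * dt z h (rv k') - dp h (rv k') * dt z h (rv k) := by
      simp only [hT]; field_simp
    have e4 : dp h h * dt (rv k) (rv k') z = dp h (rv k) * dt z h (rv k') -
        dp h (rv k') * dt z h (rv k) + dp h z * dt h (rv k) (rv k') := by
      simp only [dp, dt]; ring
    rw [e3, e4, hz]; ring
  have key2 : ∀ k ∈ Vk CC, ∀ k' ∈ Vk CC, T k < T k' →
      0 < dp h (rv k) * dp h (rv k') * dt (rv k) (rv k') p := by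
    intro k hk k' hk' hlt
    apply fss_pos (hs k (fss_Vk_sub hk) k' (fss_Vk_sub hk'))
    have e := key k hk k' hk'
    have e1 : 0 < dp h (rv k) * dp h (rv k') * dp h (rv k) * dp h (rv k') * (T k' - T k) := by
      have e2 : 0 < (dp h (rv k) * dp h (rv k')) ^ 2 :=
        pow_pos_sq_ne (mul_ne_zero (hk0 k hk) (hk0 k' hk'))
      have e3 := mul_pos e2 (sub_pos.mpr hlt)
      have e4 : dp h (rv k) * dp h (rv k') * dp h (rv k) * dp h (rv k') * (T k' - T k) =
        (dp h (rv k) * dp h (rv k')) ^ 2 * (T k' - T k) := by ring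
      rw [e4]; exact e3
    have e5 : dp h (rv k) * dp h (rv k') * dp h (rv k) * dp h (rv k') * (T k' - T k) =
        dp h h * (dp h (rv k) * dp h (rv k') * dt (rv k) (rv k') z) := by
      linear_combination (dp h (rv k) * dp h (rv k')) * e
    rw [e5] at e1
    exact (mul_pos_iff_of_pos_left hh0).mp e1
  have key3 : ∀ k ∈ Vk CC, ∀ k' ∈ Vk CC, T k = T k' → dt (rv k) (rv k') z = 0 := by
    intro k hk k' hk' heq
    have e := key k hk k' hk'
    rw [heq, sub_self, mul_zero] at e
    exact (mul_eq_zero.mp e.symm).resolve_left hh0.ne'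
  obtain ⟨k1, hk1, hmin⟩ := Finset.exists_min_image (Vk CC) T hne
  obtain ⟨k2, hk2, hmax⟩ := Finset.exists_max_image (Vk CC) T hne
  have key4 : ∀ k ∈ Vk CC, ∀ k' ∈ Vk CC, T k ≤ T k' →
      0 ≤ dp h (rv k) * dp h (rv k') * dt (rv k) (rv k') p := by
    intro k hk k' hk' hle
    rcases hle.lt_or_eq with h1 | h1
    · exact (key2 k hk k' hk' h1).le
    · have e := hs k (fss_Vk_sub hk) k' (fss_Vk_sub hk')
      rw [key3 k hk k' hk' h1, sign_zero] at e
      rw [sign_eq_zero_iff.mp e.symm, mul_zero]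
  rcases (hmin k2 hk2).lt_or_eq with hlt | heq
  · refine ⟨dp h (rv k1) • fss_cr p (rv k1) - dp h (rv k2) • fss_cr p (rv k2), ?_, ?_⟩
    · have e : dp (dp h (rv k1) • fss_cr p (rv k1) - dp h (rv k2) • fss_cr p (rv k2)) p =
        dp h (rv k1) * dp (fss_cr p (rv k1)) p - dp h (rv k2) * dp (fss_cr p (rv k2)) p := by
        simp [dp]; ring
      rw [e, fss_dp_cr, fss_dp_cr]
      simp only [dt]; ring
    · intro k hk
      have e : dp h (rv k) * dp (dp h (rv k1) • fss_cr p (rv k1) -
          dp h (rv k2) • fss_cr p (rv k2)) (rv k) =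
        dp h (rv k1) * dp h (rv k) * dt (rv k1) (rv k) p +
          dp h (rv k) * dp h (rv k2) * dt (rv k) (rv k2) p := by
        have e' : dp (dp h (rv k1) • fss_cr p (rv k1) - dp h (rv k2) • fss_cr p (rv k2)) (rv k) =
          dp h (rv k1) * dp (fss_cr p (rv k1)) (rv k) -
            dp h (rv k2) * dp (fss_cr p (rv k2)) (rv k) := by
          simp [dp]; ring
        rw [e', fss_dp_cr, fss_dp_cr]
        simp only [dt]; ring
      rw [e]
      have a1 := key4 k1 hk1 k hk (hmin k hk)
      have a2 := key4 k hk k2 hk2 (hmax k hk)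
      rcases lt_or_ge (T k1) (T k) with h3 | h3
      · have := key2 k1 hk1 k hk h3
        linarith
      · have := key2 k hk k2 hk2 (lt_of_le_of_lt h3 hlt)
        linarith
  · have hall : ∀ k ∈ Vk CC, T k1 = T k := fun k hk =>
      le_antisymm (hmin k hk) (heq ▸ hmax k hk)
    have hz0 : z ≠ 0 := by
      rintro rfl
      apply hp
      funext j
      have := fss_sign_coord hs j
      simp only [Pi.zero_apply, sign_zero] at this
      simpa using sign_eq_zero_iff.mp this.symm
    obtain ⟨i, hi⟩ : ∃ i : Fin 3, dt (rv k1) (rv (ev i)) z ≠ 0 := by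
      by_contra hh
      push Not at hh
      have h0 := hh 0
      have h1 := hh 1
      have h2 := hh 2
      simp [dt, rv, ev] at h0 h1 h2
      obtain ⟨j, hj⟩ : ∃ j, z j ≠ 0 := by
        by_contra h'; push Not at h'; exact hz0 (funext h')
      apply hk0 k1 hk1
      have e : z j * dp h (rv k1) = (k1 j : ℝ) * dp h z := by
        simp only [dp, rv]
        fin_cases j
        · simp only [Fin.zero_eta]
          linear_combination h 1 * h2 - h 2 * h1
        · simp only [Fin.mk_one]
          linear_combination -(h 0) * h2 + h 2 * h0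
        · simp only [Fin.reduceFinMk]
          linear_combination h 0 * h1 - h 1 * h0
      rw [hz, mul_zero] at e
      exact (mul_eq_zero.mp e).resolve_left hj
    refine ⟨(dp h (rv k1) * dt (rv k1) (rv (ev i)) p) • fss_cr (rv (ev i)) p, ?_, ?_⟩
    · have e : dp ((dp h (rv k1) * dt (rv k1) (rv (ev i)) p) • fss_cr (rv (ev i)) p) p =
        (dp h (rv k1) * dt (rv k1) (rv (ev i)) p) * dp (fss_cr (rv (ev i)) p) p := by
        simp [dp]; ring
      rw [e, fss_dp_cr]
      have : dt (rv (ev i)) p p = 0 := by simp only [dt]; ring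
      rw [this, mul_zero]
    · intro k hk
      have e : dp h (rv k) * dp ((dp h (rv k1) * dt (rv k1) (rv (ev i)) p) •
          fss_cr (rv (ev i)) p) (rv k) =
        (dp h (rv k) * dp h (rv k1) * dt (rv k1) (rv (ev i)) p) * dt (rv k) (rv (ev i)) p := by
        have e' : dp ((dp h (rv k1) * dt (rv k1) (rv (ev i)) p) • fss_cr (rv (ev i)) p) (rv k) =
          (dp h (rv k1) * dt (rv k1) (rv (ev i)) p) * dp (fss_cr (rv (ev i)) p) (rv k) := by
          simp [dp]; ring
        have e'' : dt (rv (ev i)) p (rv k) = dt (rv k) (rv (ev i)) p := by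
          simp only [dt]; ring
        rw [e', fss_dp_cr, e'']; ring
      rw [e]
      apply fss_pos (hs k (fss_Vk_sub hk) (ev i) (fss_ev_mem CC i))
      have e2 : (dp h (rv k) * dp h (rv k1) * dt (rv k1) (rv (ev i)) p) *
          dt (rv k) (rv (ev i)) z =
        (dp h (rv k) * dp h (rv k1) * dt (rv k) (rv (ev i)) z) *
          dt (rv k1) (rv (ev i)) p := by ring
      rw [e2]
      apply fss_pos (hs k1 (fss_Vk_sub hk1) (ev i) (fss_ev_mem CC i))
      -- dt k e z * h k1 = h k * dt k1 e z
      have e3 := key3 k1 hk1 k hk (hall k hk)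
      have e4 : dp h (rv k1) * dt (rv k) (rv (ev i)) z =
          dp h (rv k) * dt (rv k1) (rv (ev i)) z := by
        have : dp h (rv k1) * dt (rv k) (rv (ev i)) z -
          dp h (rv k) * dt (rv k1) (rv (ev i)) z =
          dp h z * dt (rv k1) (rv k) (rv (ev i)) - dp h (rv (ev i)) *
            dt (rv k1) (rv k) z := by
          simp only [dp, dt]; ring
        rw [e3, hz] at this
        linarith
      have e5 : (dp h (rv k) * dp h (rv k1) * dt (rv k) (rv (ev i)) z) *
          dt (rv k1) (rv (ev i)) z = (dp h (rv k) * dt (rv k1) (rv (ev i)) z) ^ 2 := by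
        linear_combination (dp h (rv k) * dt (rv k1) (rv (ev i)) z) * e4
      rw [e5]
      exact pow_pos_sq_ne (mul_ne_zero (hk0 k hk) hi)

end Pool.Agent.MP2a1ef3.N3
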