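import Pool.Agent.Lib.MP_2a1ef3_lc.N3.Stm

set_option autoImplicit false

namespace Pool.Agent.MP2a1ef3.N3

open Filter

theorem p_rcov_of_cov (h1 : S_piece_shape) (h2 : S_rcov_hex) (h3 : S_rcov_face)
    (h4 : S_rcov_chord) : S_rcov_of_cov := by
  classical
  intro CC hG q v w hpos h
  obtain ⟨P, hP, hPg⟩ := h
  have hgpos : ∀ᶠ N : ℕ in atTop, ∀ j, 0 < rv (germ q v w N) j := by
    filter_upwards [eventually_ge_atTop 1] with N hN j
    have h8 : 0 < germ q v w N j := by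
      have h9 := hpos j
      have e1 : q j ≤ N ^ 2 * q j := Nat.le_mul_of_pos_left _ (by positivity)
      have e2 : v j ≤ N * v j := Nat.le_mul_of_pos_left _ (by omega)
      simp only [germ]
      omega
    simp only [rv]
    exact_mod_cast h8
  obtain ⟨N₀, hN1, hN2⟩ := (hPg.and hgpos).exists
  rcases h1 hP.1 hP.2.1 hN2 hN1 with ⟨a, b, c, rfl, hdet⟩ | ⟨a, b, hab, rfl, h0⟩
  · have hcyc1 : ({b, c, a} : Finset V) = {a, b, c} := by
      ext x; simp only [Finset.mem_insert, Finset.mem_singleton]; tauto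
    have hcyc2 : ({c, a, b} : Finset V) = {a, b, c} := by
      ext x; simp only [Finset.mem_insert, Finset.mem_singleton]; tauto
    have hd1 : 0 < dt (rv b) (rv c) (rv a) := by
      have : dt (rv b) (rv c) (rv a) = dt (rv a) (rv b) (rv c) := by simp only [dt]; ring
      rw [this]; exact hdet
    have hd2 : 0 < dt (rv c) (rv a) (rv b) := by
      have : dt (rv c) (rv a) (rv b) = dt (rv a) (rv b) (rv c) := by simp only [dt]; ring
      rw [this]; exact hdet
    by_cases hab : ∃ j, a j = 0 ∧ b j = 0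
    · obtain ⟨j, hj1, hj2⟩ := hab
      exact h3 hG hP hdet hPg hj1 hj2
    by_cases hbc : ∃ j, b j = 0 ∧ c j = 0
    · obtain ⟨j, hj1, hj2⟩ := hbc
      exact h3 hG (by rw [hcyc1]; exact hP) hd1 (by rw [hcyc1]; exact hPg) hj1 hj2
    by_cases hca : ∃ j, c j = 0 ∧ a j = 0
    · obtain ⟨j, hj1, hj2⟩ := hca
      exact h3 hG (by rw [hcyc2]; exact hP) hd2 (by rw [hcyc2]; exact hPg) hj1 hj2
    exact Or.inl (h2 hG hP hdet hPg (fun j hj => hab ⟨j, hj⟩) (fun j hj => hbc ⟨j, hj⟩)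
      (fun j hj => hca ⟨j, hj⟩))
  · obtain ⟨i, s, hs⟩ := h4 hG hab hP h0 hPg
    exact Or.inr ⟨i, Or.inr (Or.inr ⟨s, hs⟩)⟩

end Pool.Agent.MP2a1ef3.N3
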