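import Pool.Agent.Lib.MP_2a1ef3_lc.N3.Stm

/-!
Piece `strat_le_two` for MP_2a1ef3_lc, dimension three.
-/

set_option autoImplicit false

namespace Pool.Agent.MP2a1ef3.N3

open Filter

private theorem mem_closure_list {M : Type} [AddCommMonoid M] (l : List M) (y : M) :
    y ∈ AddSubmonoid.closure {r | r ∈ l} ↔ ∃ c : Fin l.length → ℕ, y = ∑ i, c i • l.get i := by
  constructor
  · intro hy
    induction hy using AddSubmonoid.closure_induction with
    | mem r hr =>
      obtain ⟨i, hi⟩ := List.get_of_mem hr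
      refine ⟨Pi.single i 1, ?_⟩
      rw [Finset.sum_eq_single i]
      · rw [Pi.single_eq_same, one_smul, hi]
      · intro j _ hj
        rw [Pi.single_eq_of_ne hj, zero_smul]
      · intro h
        exact absurd (Finset.mem_univ i) h
    | zero => exact ⟨0, by simp⟩
    | add a b _ _ ha hb =>
      obtain ⟨c, rfl⟩ := ha
      obtain ⟨d, rfl⟩ := hb
      refine ⟨c + d, ?_⟩
      rw [← Finset.sum_add_distrib]
      exact Finset.sum_congr rfl fun i _ => (add_smul _ _ _).symm
  · rintro ⟨c, rfl⟩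
    refine sum_mem fun i _ => nsmul_mem (AddSubmonoid.subset_closure ?_) _
    exact List.get_mem l i

theorem p_strat_le_two : S_strat_le_two := by
  intro n hn S
  refine ⟨(fun p : (Fin n → ℕ) × List (Fin n → ℕ) => (p.1, {r | r ∈ p.2})) '' {p | p ∈ S},
    ?_, ?_, ?_⟩
  · exact (List.finite_toSet S).image _
  · rintro _ ⟨p, -, rfl⟩
    refine ⟨List.finite_toSet p.2, ?_, ?_⟩
    · intro q _ i j k hij hjk _ _ _
      have h1 := i.2
      have h2 := j.2
      have h3 := k.2
      rw [Fin.lt_def] at hij hjk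
      omega
    · intro q _ r _ i j k l hij hjk hkl
      have h3 := l.2
      rw [Fin.lt_def] at hij hjk hkl
      omega
  · intro x
    constructor
    · rintro ⟨p, hp, c, hc⟩
      exact ⟨_, ⟨p, hp, rfl⟩, _, (mem_closure_list p.2 _).2 ⟨c, rfl⟩, hc⟩
    · rintro ⟨_, ⟨p, hp, rfl⟩, y, hy, hx⟩
      obtain ⟨c, rfl⟩ := (mem_closure_list p.2 _).1 hy
      exact ⟨p, hp, c, hx⟩

end Pool.Agent.MP2a1ef3.N3
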