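import Pool.Agent.Lib.MP_2a1ef3_lc.N3.Stm

/-!
# MP_2a1ef3_lc, dimension three: the closed cones of strips (piece `stripcone`)
-/

set_option autoImplicit false

namespace Pool.Agent.MP2a1ef3.N3

open Filter

private theorem stripcone_gv {i j : Fin 3} {r : ℚ} (hr : 0 ≤ r) (c : ℝ) :
    (c / r.den) • rv (gv i j r) =
      fun t => c * (if t = i then (r : ℝ) else if t = j then 1 else 0) := by
  funext t
  have hd : (r.den : ℝ) ≠ 0 := by exact_mod_cast r.den_pos.ne'
  rw [Pi.smul_apply, smul_eq_mul]
  unfold rv gv
  by_cases h1 : t = i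
  · rw [if_pos h1, if_pos h1]
    have h2 : ((r.num.toNat : ℤ)) = r.num := Int.toNat_of_nonneg (Rat.num_nonneg.2 hr)
    have h3 : ((r.num.toNat : ℕ) : ℚ) = r.num := by exact_mod_cast h2
    have h4 : ((r.num.toNat : ℕ) : ℚ) = r.den * r := by
      rw [h3, mul_comm, Rat.mul_den_eq_num]
    have h5 : ((r.num.toNat : ℕ) : ℝ) = r.den * (r : ℝ) := by exact_mod_cast h4
    rw [h5]
    field_simp
  · rw [if_neg h1, if_neg h1]
    by_cases h2 : t = j
    · rw [if_pos h2, if_pos h2]
      field_simp
    · rw [if_neg h2, if_neg h2]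
      simp

private theorem stripcone_mem {P : Finset V} {p : V} (hp : p ∈ P) {c : ℝ} (hc : 0 ≤ c) :
    c • rv p ∈ ccone P := by
  classical
  refine ⟨fun q => if q = p then c else 0, fun q _ => ?_, ?_⟩
  · simp only
    split_ifs
    · exact hc
    · exact le_refl _
  · rw [Finset.sum_eq_single p]
    · simp only [if_true]
    · intro q _ hq
      simp only [if_neg hq, zero_smul]
    · intro h
      exact absurd hp h

private theorem stripcone_add {P : Finset V} {x y : R3} (hx : x ∈ ccone P) (hy : y ∈ ccone P) :
    x + y ∈ ccone P := by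
  obtain ⟨l, hl, rfl⟩ := hx
  obtain ⟨l', hl', rfl⟩ := hy
  refine ⟨fun q => l q + l' q, fun q hq => add_nonneg (hl q hq) (hl' q hq), ?_⟩
  rw [← Finset.sum_add_distrib]
  refine Finset.sum_congr rfl fun q _ => ?_
  rw [add_smul]

private theorem stripcone_sum {P : Finset V} (s : Finset (Fin 3)) (f : Fin 3 → R3)
    (h : ∀ j ∈ s, f j ∈ ccone P) : (∑ j ∈ s, f j) ∈ ccone P := by
  classical
  induction s using Finset.induction_on with
  | empty =>
    rw [Finset.sum_empty]
    refine ⟨fun _ => 0, fun q _ => le_refl _, ?_⟩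
    simp
  | insert a s ha ih =>
    rw [Finset.sum_insert ha]
    exact stripcone_add (h a (Finset.mem_insert_self _ _))
      (ih fun j hj => h j (Finset.mem_insert_of_mem hj))

theorem p_stripcone : S_stripcone := by
  classical
  intro i s' s hs' hs x hx
  have hs0 : ∀ j, j ≠ i → 0 ≤ s j := fun j hj => (hs' j hj).trans (hs j hj)
  constructor
  · intro h1 h2
    unfold cut at h1 h2
    obtain ⟨A, hA⟩ : ∃ A : ℝ, A = ∑ j ∈ Finset.univ.erase i, (s' j : ℝ) * x j := ⟨_, rfl⟩
    obtain ⟨B, hB⟩ : ∃ B : ℝ, B = ∑ j ∈ Finset.univ.erase i, (s j : ℝ) * x j := ⟨_, rfl⟩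
    rw [← hA] at h1
    rw [← hB] at h2
    have hAB : A ≤ B := by linarith
    obtain ⟨θ, hθ0, hθ1, hθ⟩ : ∃ θ : ℝ, 0 ≤ θ ∧ θ ≤ 1 ∧ x i = (1 - θ) * A + θ * B := by
      rcases hAB.eq_or_lt with h3 | h3
      · exact ⟨0, le_refl _, zero_le_one, by linarith⟩
      · have h4 : 0 < B - A := by linarith
        refine ⟨(x i - A) / (B - A), div_nonneg (by linarith) h4.le,
          (div_le_one h4).2 (by linarith), ?_⟩
        field_simp
        ring
    have hθ2 : 0 ≤ 1 - θ := by linarith
    have hx' : x = ∑ j ∈ Finset.univ.erase i,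
        (((1 - θ) * x j / (s' j).den) • rv (gv i j (s' j)) +
          ((θ * x j) / (s j).den) • rv (gv i j (s j))) := by
      funext t
      rw [Finset.sum_apply]
      have hterm : ∀ j ∈ Finset.univ.erase i,
          (((1 - θ) * x j / (s' j).den) • rv (gv i j (s' j)) +
            ((θ * x j) / (s j).den) • rv (gv i j (s j))) t =
          (1 - θ) * x j * (if t = i then (s' j : ℝ) else if t = j then 1 else 0) +
            θ * x j * (if t = i then (s j : ℝ) else if t = j then 1 else 0) := by
        intro j hj
        have hji := (Finset.mem_erase.1 hj).1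
        rw [Pi.add_apply, stripcone_gv (hs' j hji), stripcone_gv (hs0 j hji)]
      rw [Finset.sum_congr rfl hterm]
      by_cases ht : t = i
      · subst ht
        simp only [if_true]
        rw [hθ, hA, hB, Finset.mul_sum, Finset.mul_sum, ← Finset.sum_add_distrib]
        refine Finset.sum_congr rfl fun j _ => ?_
        ring
      · simp only [if_neg ht]
        rw [Finset.sum_eq_single t]
        · simp only [if_true]
          ring
        · intro j _ hj
          simp only [if_neg (Ne.symm hj)]
          ring
        · intro h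
          exact absurd (Finset.mem_erase.2 ⟨ht, Finset.mem_univ _⟩) h
    rw [hx']
    refine stripcone_sum _ _ fun j hj => ?_
    refine stripcone_add (stripcone_mem ?_ ?_) (stripcone_mem ?_ ?_)
    · exact Finset.mem_union_left _ (Finset.mem_image_of_mem _ hj)
    · exact div_nonneg (mul_nonneg hθ2 (hx j)) (Nat.cast_nonneg _)
    · exact Finset.mem_union_right _ (Finset.mem_image_of_mem (fun j => gv i j (s j)) hj)
    · exact div_nonneg (mul_nonneg hθ0 (hx j)) (Nat.cast_nonneg _)
  · intro h1
    unfold cut at h1
    obtain ⟨A, hA⟩ : ∃ A : ℝ, A = ∑ j ∈ Finset.univ.erase i, (s' j : ℝ) * x j := ⟨_, rfl⟩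
    rw [← hA] at h1
    have hx' : x = (∑ j ∈ Finset.univ.erase i,
        (x j / (s' j).den) • rv (gv i j (s' j))) + (x i - A) • rv (ev i) := by
      funext t
      rw [Pi.add_apply, Finset.sum_apply]
      have hterm : ∀ j ∈ Finset.univ.erase i,
          ((x j / (s' j).den) • rv (gv i j (s' j))) t =
          x j * (if t = i then (s' j : ℝ) else if t = j then 1 else 0) := by
        intro j hj
        have hji := (Finset.mem_erase.1 hj).1
        rw [stripcone_gv (hs' j hji)]
      rw [Finset.sum_congr rfl hterm]
      by_cases ht : t = i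
      · subst ht
        simp only [if_true]
        have h2 : (∑ j ∈ Finset.univ.erase t, x j * (s' j : ℝ)) = A := by
          rw [hA]
          exact Finset.sum_congr rfl fun j _ => mul_comm _ _
        rw [h2, Pi.smul_apply, smul_eq_mul]
        unfold rv ev
        rw [Pi.single_eq_same]
        simp
      · simp only [if_neg ht]
        rw [Finset.sum_eq_single t]
        · simp only [if_true]
          rw [Pi.smul_apply, smul_eq_mul]
          unfold rv ev
          rw [Pi.single_eq_of_ne ht]
          simp
        · intro j _ hj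
          simp only [if_neg (Ne.symm hj)]
          ring
        · intro h
          exact absurd (Finset.mem_erase.2 ⟨ht, Finset.mem_univ _⟩) h
    rw [hx']
    refine stripcone_add (stripcone_sum _ _ fun j hj => stripcone_mem ?_ ?_)
      (stripcone_mem (Finset.mem_insert_self _ _) (by linarith))
    · exact Finset.mem_insert_of_mem (Finset.mem_image_of_mem _ hj)
    · exact div_nonneg (hx j) (Nat.cast_nonneg _)

end Pool.Agent.MP2a1ef3.N3
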